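import Pool.Agent.Lib.MP_2cc432_al.Defs2

/-!
# Module DEEP: small `F`-stable open normal subgroups
-/

open Filter Topology Finset

namespace Pool.Agent.GTT

section Free

variable {𝔽 : Type} [Group 𝔽] [TopologicalSpace 𝔽] [IsTopologicalGroup 𝔽] [CompactSpace 𝔽]
  [T2Space 𝔽] [TotallyDisconnectedSpace 𝔽] {x y : 𝔽} {p : ℕ} [Fact p.Prime]

/-- the test group -/
abbrev deepG : Type := Multiplicative (ZMod 7 × ZMod 7)

theorem deep_pow (a : ZMod 7 × ZMod 7) (ha : a = (1, 0) ∨ a = (0, 1) ∨ a = (1, 1)) (n : ℕ)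
    (h0 : 0 < n) (h7 : n < 7) : (Multiplicative.ofAdd a : deepG) ^ n ≠ 1 := by
  intro h
  have h' : n • a = 0 := by
    have := congrArg Multiplicative.toAdd h
    simpa using this
  have hn : (n : ZMod 7) = 0 := by
    rcases ha with rfl | rfl | rfl
    · have := congrArg Prod.fst h'
      simpa using this
    · have := congrArg Prod.snd h'
      simpa using this
    · have := congrArg Prod.fst h'
      simpa using this
  rw [ZMod.natCast_eq_zero_iff] at hn
  exact absurd (Nat.le_of_dvd h0 hn) (by omega)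

omit [IsTopologicalGroup 𝔽] [CompactSpace 𝔽] [T2Space 𝔽] [TotallyDisconnectedSpace 𝔽] in
theorem deep_iterate (F : 𝔽 ≃ₜ* 𝔽) (i : ℕ) (a b : 𝔽) : F^[i] (a * b) = F^[i] a * F^[i] b := by
  induction i generalizing a b with
  | zero => rfl
  | succ i ih => rw [Function.iterate_succ_apply, map_mul, ih, Function.iterate_succ_apply,
      Function.iterate_succ_apply]

/-- DEEP -/
theorem exists_deep (h : FreeProf 𝔽 x y) (F : 𝔽 ≃ₜ* 𝔽) (hF : ∀ g, F^[p] g = g)
    (w : 𝔽) (hw : w ≠ 1) : ∃ V : Subgroup 𝔽, V.Normal ∧ IsOpen (V : Set 𝔽) ∧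
      (∀ g, F g ∈ V ↔ g ∈ V) ∧ w ∉ V ∧
      ∀ a, (a = x ∨ a = y ∨ a = x * y) → ∀ n : ℕ, 0 < n → n < 7 → a ^ n ∉ V := by
  classical
  obtain ⟨N, hN⟩ := ProfiniteGrp.exist_openNormalSubgroup_sub_open_nhds_of_one
    (isOpen_compl_singleton (x := w)) (by simpa using hw.symm)
  obtain ⟨φ, hφ, hφx, hφy⟩ := h.lift deepG (Multiplicative.ofAdd (1, 0))
    (Multiplicative.ofAdd (0, 1))
  have hone : ∀ i : ℕ, F^[i] (1 : 𝔽) = 1 := by
    intro i
    have h1 := deep_iterate F i 1 1
    rw [mul_one] at h1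
    exact (mul_eq_left.1 h1.symm)
  have hinv : ∀ (i : ℕ) (g : 𝔽), F^[i] g⁻¹ = (F^[i] g)⁻¹ := by
    intro i g
    rw [eq_inv_iff_mul_eq_one, ← deep_iterate, inv_mul_cancel, hone]
  have hmul7 : (Multiplicative.ofAdd ((1, 0) : ZMod 7 × ZMod 7) : deepG) *
      Multiplicative.ofAdd ((0, 1) : ZMod 7 × ZMod 7) = Multiplicative.ofAdd (1, 1) := by
    rw [← ofAdd_add]
    rfl
  let W : Subgroup 𝔽 := N.toSubgroup ⊓ φ.ker
  have hWo : IsOpen (W : Set 𝔽) := by
    have h1 : IsOpen (N.toSubgroup : Set 𝔽) := N.isOpen'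
    have h2 : IsOpen ((φ.ker : Subgroup 𝔽) : Set 𝔽) := hφ.isOpen_fiber 1
    exact h1.inter h2
  have hWn : W.Normal := by
    have h1 : N.toSubgroup.Normal := N.isNormal'
    infer_instance
  let V : Subgroup 𝔽 :=
    { carrier := {g | ∀ i : ℕ, F^[i] g ∈ W}
      mul_mem' := fun {a b} ha hb i => by
        rw [deep_iterate]
        exact W.mul_mem (ha i) (hb i)
      one_mem' := fun i => by
        rw [hone]
        exact W.one_mem
      inv_mem' := fun {a} ha i => by
        rw [hinv]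
        exact W.inv_mem (ha i) }
  have hV : ∀ g, g ∈ V ↔ ∀ i : ℕ, F^[i] g ∈ W := fun g => Iff.rfl
  have hper : ∀ (i : ℕ) (g : 𝔽), F^[i + p] g = F^[i] g := by
    intro i g
    rw [Function.iterate_add_apply, hF]
  have hmod : ∀ (i : ℕ) (g : 𝔽), F^[i] g = F^[i % p] g := by
    intro i g
    have hp : Function.IsPeriodicPt F p g := hF g
    exact (hp.iterate_mod_apply i).symm
  have hp0 : 0 < p := (Fact.out : p.Prime).pos
  have hVW : ∀ g ∈ V, g ∈ W := fun g hg => hg 0
  refine ⟨V, ⟨fun n hn g i => ?_⟩, ?_, fun g => ⟨fun hg i => ?_, fun hg i => ?_⟩, fun hwV => ?_,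
    fun a ha n h0 h7 haV => ?_⟩
  · rw [deep_iterate, deep_iterate, hinv]
    exact hWn.conj_mem _ (hn i) _
  · have hset : (V : Set 𝔽) = ⋂ i ∈ Finset.range p, F^[i] ⁻¹' (W : Set 𝔽) := by
      ext g
      simp only [Set.mem_iInter, Set.mem_preimage]
      constructor
      · intro hg i _
        exact hg i
      · intro hg i
        rw [hmod]
        exact hg _ (Finset.mem_range.2 (Nat.mod_lt _ hp0))
    rw [hset]
    exact isOpen_biInter_finset fun i _ => hWo.preimage (F.continuous.iterate i)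
  · have h1 := hg (i + p - 1)
    rw [← Function.iterate_succ_apply] at h1
    have h2 : (i + p - 1).succ = i + p := by omega
    rw [h2, hper] at h1
    exact h1
  · rw [← Function.iterate_succ_apply]
    exact hg (i + 1)
  · exact hN (hVW w hwV).1 rfl
  · have h1 : φ (a ^ n) = 1 := (hVW _ haV).2
    rw [map_pow] at h1
    rcases ha with rfl | rfl | rfl
    · rw [hφx] at h1
      exact deep_pow _ (Or.inl rfl) n h0 h7 h1
    · rw [hφy] at h1
      exact deep_pow _ (Or.inr (Or.inl rfl)) n h0 h7 h1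
    · rw [map_mul, hφx, hφy, hmul7] at h1
      exact deep_pow _ (Or.inr (Or.inr rfl)) n h0 h7 h1

end Free

end Pool.Agent.GTT
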