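import Pool.Agent.Lib.MP_2cc432_al.Free

/-!
# Torsion in the profinite Grothendieck–Teichmüller group: FAITH

Unramified homomorphisms of an open normal subgroup with values in `ℤ / p` are moved by each
element outside the subgroup.
-/

open Filter Topology Finset

namespace Pool.Agent.GTT

namespace Faith

/-! ## Functions on a finite group -/

section LinAlg

variable {Q : Type} [Group Q] {k : Type} [Field k]

/-- right translation -/
def rt (k : Type) [Field k] (g : Q) : (Q → k) →ₗ[k] (Q → k) where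
  toFun t q := t (q * g)
  map_add' _ _ := rfl
  map_smul' _ _ := rfl

/-- left translation -/
def lt (k : Type) [Field k] (g : Q) : (Q → k) →ₗ[k] (Q → k) where
  toFun t q := t (g * q)
  map_add' _ _ := rfl
  map_smul' _ _ := rfl

theorem rt_apply (g : Q) (t : Q → k) (q : Q) : rt k g t q = t (q * g) := rfl
theorem lt_apply (g : Q) (t : Q → k) (q : Q) : lt k g t q = t (g * q) := rfl

theorem lt_rt (g h : Q) (t : Q → k) : lt k g (rt k h t) = rt k h (lt k g t) := by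
  ext q
  simp only [rt_apply, lt_apply, mul_assoc]

variable [Finite Q]

theorem order_mul_finrank_rt (g : Q) :
    orderOf g * Module.finrank k (LinearMap.ker (rt k g - 1)) ≤ Nat.card Q := by
  classical
  have hfin : Fintype Q := Fintype.ofFinite Q
  set H := Subgroup.zpowers g
  have hcard : Nat.card Q = Nat.card (Q ⧸ H) * Nat.card H :=
    Subgroup.card_eq_card_quotient_mul_card_subgroup H
  have hH : Nat.card H = orderOf g := Nat.card_zpowers g
  have hinv : ∀ t : Q → k, t ∈ LinearMap.ker (rt k g - 1) → ∀ q h, h ∈ H → t (q * h) = t q := by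
    intro t ht q h hh
    have h1 : ∀ q, t (q * g) = t q := by
      intro q
      have := congrFun (LinearMap.mem_ker.1 ht) q
      have h2 : t (q * g) - t q = 0 := this
      exact sub_eq_zero.1 h2
    obtain ⟨n, rfl⟩ := Subgroup.mem_zpowers_iff.1 hh
    induction n using Int.induction_on generalizing q with
    | zero => simp
    | succ n ih => rw [zpow_add, zpow_one, ← mul_assoc, h1, ih _ (Subgroup.zpow_mem_zpowers g _)]
    | pred n ih =>
      rw [← h1 (q * g ^ (-(n : ℤ) - 1)), mul_assoc, ← zpow_add_one, sub_add_cancel,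
        ih _ (Subgroup.zpow_mem_zpowers g _)]
  let L : LinearMap.ker (rt k g - 1) →ₗ[k] ((Q ⧸ H) → k) :=
    { toFun := fun t c => t.1 (Quotient.out c)
      map_add' := fun _ _ => rfl
      map_smul' := fun _ _ => rfl }
  have hL : Function.Injective L := by
    intro t t' htt
    ext q
    have h1 := congrFun htt (QuotientGroup.mk q)
    have h2 : t.1 (Quotient.out (QuotientGroup.mk q : Q ⧸ H)) =
        t'.1 (Quotient.out (QuotientGroup.mk q : Q ⧸ H)) := h1
    obtain ⟨h, hh⟩ := QuotientGroup.mk_out_eq_mul H q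
    rw [hh] at h2
    rwa [hinv _ t.2 _ _ h.2, hinv _ t'.2 _ _ h.2] at h2
  have h3 := LinearMap.finrank_le_finrank_of_injective hL
  rw [Module.finrank_fintype_fun_eq_card, ← Nat.card_eq_fintype_card] at h3
  rw [hcard, hH, mul_comm]
  exact Nat.mul_le_mul_right _ h3

theorem order_mul_finrank_lt (g : Q) :
    orderOf g * Module.finrank k (LinearMap.ker (lt k g - 1)) ≤ Nat.card Q := by
  have h1 := order_mul_finrank_rt (k := k) g⁻¹
  rw [orderOf_inv] at h1
  refine le_trans (Nat.mul_le_mul_left _ ?_) h1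
  let L : LinearMap.ker (lt k g - 1) →ₗ[k] LinearMap.ker (rt k g⁻¹ - 1) :=
    { toFun := fun t => ⟨fun q => t.1 q⁻¹, by
        rw [LinearMap.mem_ker]
        ext q
        have := congrFun (LinearMap.mem_ker.1 t.2) q⁻¹
        have h2 : t.1 (g * q⁻¹) - t.1 q⁻¹ = 0 := this
        change t.1 (q * g⁻¹)⁻¹ - t.1 q⁻¹ = 0
        rw [mul_inv_rev, inv_inv, h2]⟩
      map_add' := fun _ _ => rfl
      map_smul' := fun _ _ => rfl }
  apply LinearMap.finrank_le_finrank_of_injective (f := L)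
  intro t t' htt
  ext q
  have h3 := congrFun (congrArg Subtype.val htt) q⁻¹
  have h4 : t.1 q⁻¹⁻¹ = t'.1 q⁻¹⁻¹ := h3
  rwa [inv_inv] at h4

theorem count (x y z w : Q)
    (h : ∀ c : Q → k, (∃ s, rt k x s - s = rt k z c - c) →
      ∃ t₁ t₂, rt k z t₁ = t₁ ∧ rt k y t₂ = t₂ ∧ lt k w c - c = t₁ + t₂)
    (hx : 7 ≤ orderOf x) (hy : 7 ≤ orderOf y) (hz : 7 ≤ orderOf z) (hw : w ≠ 1) : False := by
  classical
  have hfin : Fintype Q := Fintype.ofFinite Q
  have hw2 : 2 ≤ orderOf w := by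
    have h1 : orderOf w ≠ 0 := (orderOf_pos w).ne'
    have h2 : orderOf w ≠ 1 := fun h2 => hw (orderOf_eq_one_iff.1 h2)
    omega
  set N := Nat.card Q with hN
  have hN0 : 0 < N := Nat.card_pos
  have hT : Module.finrank k (Q → k) = N := by
    rw [Module.finrank_fintype_fun_eq_card, hN, Nat.card_eq_fintype_card]
  set Rx := rt k x - 1
  set Ry := rt k y - 1
  set Rz := rt k z - 1
  set Lw := lt k w - 1
  have ex := order_mul_finrank_rt (k := k) x
  have ey := order_mul_finrank_rt (k := k) y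
  have ez := order_mul_finrank_rt (k := k) z
  have ew := order_mul_finrank_lt (k := k) w
  -- the submodule `C`
  set C : Submodule k (Q → k) := (LinearMap.range Rx).comap Rz with hC
  have hCdim : N ≤ Module.finrank k C + Module.finrank k (LinearMap.ker Rx) := by
    have h1 : C = LinearMap.ker ((LinearMap.range Rx).mkQ.comp Rz) := by
      ext c
      rw [hC, Submodule.mem_comap, LinearMap.mem_ker, LinearMap.comp_apply,
        Submodule.mkQ_apply, Submodule.Quotient.mk_eq_zero]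
    have h2 := LinearMap.finrank_range_add_finrank_ker ((LinearMap.range Rx).mkQ.comp Rz)
    rw [← h1, hT] at h2
    have h3 : Module.finrank k (LinearMap.range ((LinearMap.range Rx).mkQ.comp Rz)) ≤
        Module.finrank k ((Q → k) ⧸ LinearMap.range Rx) := Submodule.finrank_le _
    have h4 := Submodule.finrank_quotient_add_finrank (LinearMap.range Rx)
    have h5 := LinearMap.finrank_range_add_finrank_ker Rx
    rw [hT] at h4 h5
    omega
  have hmap : C.map Lw ≤ LinearMap.ker Rz ⊔ LinearMap.ker Ry := by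
    rintro _ ⟨c, hc, rfl⟩
    obtain ⟨s, hs⟩ := hc
    obtain ⟨t₁, t₂, h1, h2, h3⟩ := h c ⟨s, hs⟩
    have h4 : Lw c = t₁ + t₂ := h3
    rw [h4]
    refine Submodule.add_mem_sup ?_ ?_
    · exact LinearMap.mem_ker.2 (sub_eq_zero.2 h1)
    · exact LinearMap.mem_ker.2 (sub_eq_zero.2 h2)
  have hmapdim : Module.finrank k (C.map Lw) ≤
      Module.finrank k (LinearMap.ker Rz) + Module.finrank k (LinearMap.ker Ry) :=
    (Submodule.finrank_mono hmap).trans (Submodule.finrank_add_le_finrank_add_finrank _ _)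
  have hCmap : Module.finrank k C ≤
      Module.finrank k (C.map Lw) + Module.finrank k (LinearMap.ker Lw) := by
    have h1 := LinearMap.finrank_range_add_finrank_ker (Lw.domRestrict C)
    have h2 : LinearMap.range (Lw.domRestrict C) = C.map Lw := by
      rw [LinearMap.range_domRestrict]
    have h3 : Module.finrank k (LinearMap.ker (Lw.domRestrict C)) ≤
        Module.finrank k (LinearMap.ker Lw) := by
      have hle : ∀ t : LinearMap.ker (Lw.domRestrict C), (t.1 : Q → k) ∈ LinearMap.ker Lw :=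
        fun t => t.2
      let L : LinearMap.ker (Lw.domRestrict C) →ₗ[k] LinearMap.ker Lw :=
        { toFun := fun t => ⟨t.1.1, hle t⟩
          map_add' := fun _ _ => rfl
          map_smul' := fun _ _ => rfl }
      apply LinearMap.finrank_le_finrank_of_injective (f := L)
      intro t t' htt
      have h4 : (L t).1 = (L t').1 := congrArg Subtype.val htt
      exact Subtype.ext (Subtype.ext h4)
    rw [h2] at h1
    omega
  have e1 : 7 * Module.finrank k (LinearMap.ker Rx) ≤ N :=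
    (Nat.mul_le_mul_right _ hx).trans ex
  have e2 : 7 * Module.finrank k (LinearMap.ker Ry) ≤ N :=
    (Nat.mul_le_mul_right _ hy).trans ey
  have e3 : 7 * Module.finrank k (LinearMap.ker Rz) ≤ N :=
    (Nat.mul_le_mul_right _ hz).trans ez
  have e4 : 2 * Module.finrank k (LinearMap.ker Lw) ≤ N :=
    (Nat.mul_le_mul_right _ hw2).trans ew
  omega

end LinAlg

/-! ## The action on functions on the quotient -/

section

variable {𝔽 : Type} [Group 𝔽] (V : Subgroup 𝔽) [V.Normal] (k : Type) [Field k]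

/-- `(g t) q = t (q g)` -/
def ρQ : 𝔽 →* AddMonoid.End ((𝔽 ⧸ V) → k) where
  toFun g := (rt k (QuotientGroup.mk g : 𝔽 ⧸ V)).toAddMonoidHom
  map_one' := by
    ext t q
    change t (q * ((1 : 𝔽) : 𝔽 ⧸ V)) = t q
    rw [QuotientGroup.mk_one, mul_one]
  map_mul' g h := by
    ext t q
    change t (q * ((g * h : 𝔽) : 𝔽 ⧸ V)) = t (q * (g : 𝔽 ⧸ V) * (h : 𝔽 ⧸ V))
    rw [QuotientGroup.mk_mul, mul_assoc]

theorem ρQ_apply (g : 𝔽) (t : (𝔽 ⧸ V) → k) (q : 𝔽 ⧸ V) :
    ρQ V k g t q = t (q * (g : 𝔽 ⧸ V)) := rfl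

theorem ρQ_mem {v : 𝔽} (hv : v ∈ V) (t : (𝔽 ⧸ V) → k) : ρQ V k v t = t := by
  ext q
  rw [ρQ_apply, (QuotientGroup.eq_one_iff v).2 hv, mul_one]

variable {V k}

theorem der_one [TopologicalSpace 𝔽] {δ : 𝔽 → ((𝔽 ⧸ V) → k)} (hδ : IsDer (ρQ V k) δ) :
    δ 1 = 0 := by
  have h := hδ.mul 1 1
  rw [mul_one, map_one] at h
  have h2 : δ 1 = δ 1 + δ 1 := h
  simpa using h2

theorem der_inv [TopologicalSpace 𝔽] {δ : 𝔽 → ((𝔽 ⧸ V) → k)} (hδ : IsDer (ρQ V k) δ) (g : 𝔽) :
    ρQ V k g (δ g⁻¹) = - δ g := by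
  have h := hδ.mul g g⁻¹
  rw [mul_inv_cancel, der_one hδ] at h
  exact (neg_eq_of_add_eq_zero_right h.symm).symm

theorem der_inv' [TopologicalSpace 𝔽] {δ : 𝔽 → ((𝔽 ⧸ V) → k)} (hδ : IsDer (ρQ V k) δ) (g : 𝔽) :
    δ g⁻¹ = - ρQ V k g⁻¹ (δ g) := by
  have h := hδ.mul g⁻¹ g
  rw [inv_mul_cancel, der_one hδ] at h
  exact (neg_eq_of_add_eq_zero_left h.symm).symm

/-- the values of a derivation on `V` are determined by the values at `1` -/
theorem der_conj [TopologicalSpace 𝔽] {δ : 𝔽 → ((𝔽 ⧸ V) → k)} (hδ : IsDer (ρQ V k) δ) (g : 𝔽)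
    {v : 𝔽} (hv : v ∈ V) : δ (g * v * g⁻¹) 1 = δ v (g : 𝔽 ⧸ V) := by
  have hv1 : ((v : 𝔽) : 𝔽 ⧸ V) = 1 := (QuotientGroup.eq_one_iff v).2 hv
  have h1 : ρQ V k (g * v) (δ g⁻¹) 1 = - δ g 1 := by
    have h2 := congrFun (der_inv hδ g) 1
    rw [ρQ_apply, Pi.neg_apply] at h2
    rw [← h2, ρQ_apply, QuotientGroup.mk_mul, hv1, mul_one]
  rw [hδ.mul, hδ.mul, Pi.add_apply, Pi.add_apply, h1, ρQ_apply, one_mul]
  ring

/-- a derivation which is inner on `a` vanishes on the elements of `V` conjugate to powers of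
`a` -/
theorem der_unram [TopologicalSpace 𝔽] {δ : 𝔽 → ((𝔽 ⧸ V) → k)} (hδ : IsDer (ρQ V k) δ) {a : 𝔽}
    {s : (𝔽 ⧸ V) → k} (hs : δ a = ρQ V k a s - s) (g : 𝔽) (n : ℕ)
    (h : g⁻¹ * a ^ n * g ∈ V) : δ (g⁻¹ * a ^ n * g) = 0 := by
  have h1 : ∀ n : ℕ, δ (a ^ n) = ρQ V k (a ^ n) s - s := by
    intro n
    induction n with
    | zero =>
      rw [pow_zero, der_one hδ, map_one]
      exact (sub_self s).symm
    | succ n ih =>
      rw [pow_succ, hδ.mul, ih, hs, map_sub, map_mul]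
      change _ = ρQ V k (a ^ n) (ρQ V k a s) - s
      abel
  set u := g⁻¹ * a ^ n * g with hu
  set r := ρQ V k g⁻¹ (s + δ g) with hr
  have h2 : δ u = ρQ V k u r - r := by
    have e1 : u = g⁻¹ * (a ^ n * g) := by rw [hu, mul_assoc]
    have e2 : ρQ V k u r = ρQ V k g⁻¹ (ρQ V k (a ^ n) (s + δ g)) := by
      have e3 : ρQ V k u r = (ρQ V k u * ρQ V k g⁻¹) (s + δ g) := rfl
      have e4 : ρQ V k g⁻¹ (ρQ V k (a ^ n) (s + δ g)) =
        (ρQ V k g⁻¹ * ρQ V k (a ^ n)) (s + δ g) := rfl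
      rw [e3, e4, ← map_mul, ← map_mul, hu, mul_assoc, mul_inv_cancel, mul_one]
    rw [e2, hr, e1, hδ.mul, hδ.mul, h1, der_inv' hδ]
    simp only [map_add, map_sub]
    abel
  rw [h2, ρQ_mem V k h, sub_self]

end

end Faith

open Faith in
/-- FAITH -/
theorem faithful {𝔽 : Type} [Group 𝔽] [TopologicalSpace 𝔽] [IsTopologicalGroup 𝔽]
    [CompactSpace 𝔽] [T2Space 𝔽] [TotallyDisconnectedSpace 𝔽] {x y : 𝔽} {p : ℕ} [Fact p.Prime]
    (h : FreeProf 𝔽 x y) (V : Subgroup 𝔽) [V.Normal] (hV : IsOpen (V : Set 𝔽))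
    (h7 : ∀ a, (a = x ∨ a = y ∨ a = x * y) → ∀ n : ℕ, 0 < n → n < 7 → a ^ n ∉ V)
    (w : 𝔽) (hw : w ∉ V) :
    ∃ φ : V → ZMod p, IsHom φ ∧ Unram x y V φ ∧
      ∃ v : V, φ ⟨w * v * w⁻¹, (inferInstance : V.Normal).conj_mem _ v.2 w⟩ ≠ φ v := by
  by_contra hcon
  push Not at hcon
  have : Finite (𝔽 ⧸ V) := Subgroup.quotient_finite_of_isOpen V hV
  have hord : ∀ a, (a = x ∨ a = y ∨ a = x * y) → 7 ≤ orderOf (a : 𝔽 ⧸ V) := by
    intro a ha
    by_contra hlt
    push Not at hlt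
    refine h7 a ha _ (orderOf_pos (a : 𝔽 ⧸ V)) hlt ?_
    rw [← QuotientGroup.eq_one_iff, QuotientGroup.mk_pow, pow_orderOf_eq_one]
  have hsm : Smooth (ρQ V (ZMod p)) := by
    intro t
    filter_upwards [hV.mem_nhds V.one_mem] with g hg
    exact ρQ_mem V (ZMod p) hg t
  have htors : ∀ t : (𝔽 ⧸ V) → ZMod p, p • t = 0 := by
    intro t
    ext q
    rw [Pi.smul_apply, nsmul_eq_mul, CharP.cast_eq_zero, zero_mul]
    rfl
  refine count (k := ZMod p) (x : 𝔽 ⧸ V) (y : 𝔽 ⧸ V) ((x * y : 𝔽) : 𝔽 ⧸ V) (w : 𝔽 ⧸ V) ?_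
    (hord x (Or.inl rfl)) (hord y (Or.inr (Or.inl rfl))) (hord _ (Or.inr (Or.inr rfl)))
    (fun h1 => hw ((QuotientGroup.eq_one_iff w).1 h1))
  rintro c ⟨s, hs⟩
  -- the derivation
  obtain ⟨δ, hδ, hδx, hδy⟩ := exists_der h htors (ρQ V (ZMod p)) hsm
    (ρQ V (ZMod p) (x * y) c - c) 0
  have hδxy : δ (x * y) = ρQ V (ZMod p) (x * y) c - c := by
    rw [hδ.mul, hδy, hδx, map_zero, add_zero]
  have hδx' : δ x = ρQ V (ZMod p) x s - s := by
    rw [hδx]
    exact hs.symm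
  have hδy' : δ y = ρQ V (ZMod p) y 0 - 0 := by
    rw [hδy, map_zero, sub_zero]
  -- the homomorphism
  set φ : V → ZMod p := fun v => δ v 1 with hφ
  have hφh : IsHom φ := by
    refine ⟨fun g k => ?_, ?_⟩
    · rw [hφ]
      dsimp only
      rw [Subgroup.coe_mul, hδ.mul, ρQ_mem V (ZMod p) g.2, Pi.add_apply]
    · exact (hδ.lc.comp_continuous continuous_subtype_val).comp fun t => t 1
  have hφu : Unram x y V φ := by
    intro a ha g n hg
    have h0 : δ (g⁻¹ * a ^ n * g) = 0 := by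
      rcases ha with rfl | rfl | rfl
      · exact der_unram hδ hδx' g n hg
      · exact der_unram hδ hδy' g n hg
      · exact der_unram hδ hδxy g n hg
    change δ (g⁻¹ * a ^ n * g) 1 = 0
    rw [h0]
    rfl
  have hinv : ∀ v : V, φ ⟨w * v * w⁻¹, (inferInstance : V.Normal).conj_mem _ v.2 w⟩ = φ v :=
    hcon φ hφh hφu
  -- the derivation `D = w δ - δ`
  set D : 𝔽 → ((𝔽 ⧸ V) → ZMod p) := fun g => lt (ZMod p) (w : 𝔽 ⧸ V) (δ g) - δ g with hD
  have hDmul : ∀ g k, D (g * k) = D g + ρQ V (ZMod p) g (D k) := by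
    intro g k
    have h1 : lt (ZMod p) (w : 𝔽 ⧸ V) (ρQ V (ZMod p) g (δ k)) =
      ρQ V (ZMod p) g (lt (ZMod p) (w : 𝔽 ⧸ V) (δ k)) := lt_rt _ _ _
    simp only [hD]
    rw [hδ.mul, map_add, map_sub, h1]
    abel
  have hDV : ∀ v ∈ V, D v = 0 := by
    intro v hv
    ext q
    obtain ⟨g, rfl⟩ := QuotientGroup.mk_surjective q
    change δ v ((w : 𝔽 ⧸ V) * (g : 𝔽 ⧸ V)) - δ v (g : 𝔽 ⧸ V) = 0
    rw [← QuotientGroup.mk_mul, ← der_conj hδ _ hv, ← der_conj hδ _ hv, sub_eq_zero]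
    have hm : g * v * g⁻¹ ∈ V := (inferInstance : V.Normal).conj_mem _ hv g
    have h1 := hinv ⟨g * v * g⁻¹, hm⟩
    have h2 : δ (w * (g * v * g⁻¹) * w⁻¹) 1 = δ (g * v * g⁻¹) 1 := h1
    have h3 : w * (g * v * g⁻¹) * w⁻¹ = w * g * v * (w * g)⁻¹ := by group
    rw [← h2, h3]
  have hDright : ∀ g k : 𝔽, (g : 𝔽 ⧸ V) = k → D g 1 = D k 1 := by
    intro g k hgk
    have h1 : g⁻¹ * k ∈ V := QuotientGroup.eq.1 hgk
    have h2 : D k = D g := by
      have h3 := hDmul g (g⁻¹ * k)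
      rw [mul_inv_cancel_left, hDV _ h1, map_zero, add_zero] at h3
      exact h3
    rw [h2]
  set t : (𝔽 ⧸ V) → ZMod p := fun q => D (Quotient.out q) 1 with ht
  have htq : ∀ g : 𝔽, t (g : 𝔽 ⧸ V) = D g 1 := by
    intro g
    exact hDright _ _ (QuotientGroup.out_eq' (g : 𝔽 ⧸ V))
  have hDt : ∀ g, D g = ρQ V (ZMod p) g t - t := by
    intro g
    ext q
    obtain ⟨k, rfl⟩ := QuotientGroup.mk_surjective q
    rw [Pi.sub_apply, ρQ_apply, ← QuotientGroup.mk_mul, htq, htq, hDmul k g, Pi.add_apply,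
      ρQ_apply, one_mul]
    ring
  -- conclusion
  have hDy : ρQ V (ZMod p) y t = t := by
    have h1 := hDt y
    have h2 : D y = 0 := by
      simp only [hD]
      rw [hδy, map_zero, sub_zero]
    rw [h2] at h1
    exact (sub_eq_zero.1 h1.symm)
  refine ⟨lt (ZMod p) (w : 𝔽 ⧸ V) c - c - t, t, ?_, hDy, by abel⟩
  have h1 := hDt (x * y)
  have h2 : D (x * y) = ρQ V (ZMod p) (x * y) (lt (ZMod p) (w : 𝔽 ⧸ V) c - c) -
      (lt (ZMod p) (w : 𝔽 ⧸ V) c - c) := by
    have h3 : lt (ZMod p) (w : 𝔽 ⧸ V) (ρQ V (ZMod p) (x * y) c) =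
      ρQ V (ZMod p) (x * y) (lt (ZMod p) (w : 𝔽 ⧸ V) c) := lt_rt _ _ _
    simp only [hD]
    rw [hδxy, map_sub, map_sub, h3]
    abel
  change ρQ V (ZMod p) (x * y) (lt (ZMod p) (w : 𝔽 ⧸ V) c - c - t) = _
  rw [h2] at h1
  rw [map_sub, sub_eq_sub_iff_add_eq_add]
  rw [sub_eq_sub_iff_add_eq_add] at h1
  rw [h1, add_comm]

end Pool.Agent.GTT
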