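import Pool.Agent.Lib.MP_2cc432_al.Defs2

/-!
Linear algebra over `ℤ/p[C_p]` (module CT of project TGT).
-/

open Filter Topology Finset

namespace Pool.Agent.GTT

namespace CTaux

variable {p : ℕ} [Fact p.Prime]

theorem poly_pow : ((Polynomial.X : Polynomial (ZMod p)) - 1) ^ p = Polynomial.X ^ p - 1 := by
  rw [sub_pow_char, one_pow]

theorem poly_sum : (∑ i ∈ range p, (Polynomial.X : Polynomial (ZMod p)) ^ i) =
    (Polynomial.X - 1) ^ (p - 1) := by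
  have hne : (Polynomial.X : Polynomial (ZMod p)) - 1 ≠ 0 := by
    have := Polynomial.X_sub_C_ne_zero (1 : ZMod p)
    rwa [map_one] at this
  apply mul_right_cancel₀ hne
  rw [geom_sum_mul, ← pow_succ, Nat.sub_add_cancel (Fact.out : p.Prime).one_le, poly_pow]

variable {X : Type} [AddCommGroup X]

section

variable [Module (ZMod p) X]

theorem lin_pow (Φ : AddMonoid.End X) (n : ℕ) (x : X) :
    ((AddMonoidHom.toZModLinearMap p (M := X) (M₁ := X) Φ : Module.End (ZMod p) X) ^ n) x =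
      (Φ ^ n) x := by
  induction n generalizing x with
  | zero => rfl
  | succ n ih =>
    rw [pow_succ, pow_succ]
    exact ih _

theorem lin_sub_pow (Φ : AddMonoid.End X) (n : ℕ) (x : X) :
    (((AddMonoidHom.toZModLinearMap p (M := X) (M₁ := X) Φ : Module.End (ZMod p) X) - 1) ^ n) x =
      ((Φ - 1) ^ n) x := by
  induction n generalizing x with
  | zero => rfl
  | succ n ih =>
    rw [pow_succ, pow_succ]
    exact ih _

theorem nrm_eq' (Φ : AddMonoid.End X) (x : X) :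
    nrm p Φ x = ((Φ - 1) ^ (p - 1)) x := by
  have h3 := congrArg (Polynomial.aeval
    (AddMonoidHom.toZModLinearMap p (M := X) (M₁ := X) Φ : Module.End (ZMod p) X))
    (poly_sum (p := p))
  simp only [map_sum, map_pow, Polynomial.aeval_X, map_sub, map_one] at h3
  have h4 := congrArg (fun f : Module.End (ZMod p) X => f x) h3
  simp only [LinearMap.sum_apply, lin_pow, lin_sub_pow] at h4
  exact h4

theorem tau_pow' (Φ : AddMonoid.End X) (hΦ : Φ ^ p = 1) (x : X) :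
    ((Φ - 1) ^ p) x = 0 := by
  have h3 := congrArg (Polynomial.aeval
    (AddMonoidHom.toZModLinearMap p (M := X) (M₁ := X) Φ : Module.End (ZMod p) X))
    (poly_pow (p := p))
  simp only [map_pow, Polynomial.aeval_X, map_sub, map_one] at h3
  have h4 := congrArg (fun f : Module.End (ZMod p) X => f x) h3
  simp only [LinearMap.sub_apply, lin_pow, lin_sub_pow, hΦ] at h4
  rw [h4]
  exact sub_self x

end

theorem nrm_eq (hX : ∀ x : X, p • x = 0) (Φ : AddMonoid.End X) (x : X) :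
    nrm p Φ x = ((Φ - 1) ^ (p - 1)) x := by
  let _ : Module (ZMod p) X := AddCommGroup.zmodModule hX
  exact nrm_eq' Φ x

theorem tau_pow (hX : ∀ x : X, p • x = 0) (Φ : AddMonoid.End X) (hΦ : Φ ^ p = 1) (x : X) :
    ((Φ - 1) ^ p) x = 0 := by
  let _ : Module (ZMod p) X := AddCommGroup.zmodModule hX
  exact tau_pow' Φ hΦ x

/-- `τ ^ i` and `τ` -/
theorem tau_apply (Φ : AddMonoid.End X) (x : X) : (Φ - 1) x = Φ x - x := rfl

theorem pow_succ_apply (τ : AddMonoid.End X) (n : ℕ) (x : X) : (τ ^ (n + 1)) x = (τ ^ n) (τ x) := by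
  rw [pow_succ]
  rfl

theorem pow_succ_apply' (τ : AddMonoid.End X) (n : ℕ) (x : X) :
    (τ ^ (n + 1)) x = τ ((τ ^ n) x) := by
  rw [pow_succ']
  rfl

theorem tau_pow_pred (hX : ∀ x : X, p • x = 0) (Φ : AddMonoid.End X) (hΦ : Φ ^ p = 1) (x : X) :
    ((Φ - 1) ^ (p - 1)) (Φ x - x) = 0 := by
  rw [← tau_apply, ← pow_succ_apply, Nat.sub_add_cancel (Fact.out : p.Prime).one_le]
  exact tau_pow hX Φ hΦ x

theorem pow_add_apply (τ : AddMonoid.End X) (m n : ℕ) (x : X) :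
    (τ ^ (m + n)) x = (τ ^ m) ((τ ^ n) x) := by
  rw [pow_add]
  rfl

theorem map_tau {Y : Type} [AddCommGroup Y] (f : X →+ Y) (Φ : AddMonoid.End X)
    (Ψ : AddMonoid.End Y) (h : ∀ x, f (Φ x) = Ψ (f x)) (n : ℕ) (x : X) :
    f (((Φ - 1) ^ n) x) = ((Ψ - 1) ^ n) (f x) := by
  induction n generalizing x with
  | zero => rfl
  | succ n ih =>
    rw [pow_succ_apply, pow_succ_apply, ih, tau_apply, tau_apply, map_sub, h]

/-- `CT` implies the exactness for the powers of `τ` -/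
theorem exact_pow (hX : ∀ x : X, p • x = 0) (Φ : AddMonoid.End X) (h : CT p Φ) (i : ℕ)
    (hi : i + 1 < p) (x : X) (hx : ((Φ - 1) ^ (i + 1)) x = 0) :
    ∃ y, ((Φ - 1) ^ (p - (i + 1))) y = x := by
  induction i generalizing x with
  | zero =>
    rw [zero_add, pow_one, tau_apply, sub_eq_zero] at hx
    obtain ⟨y, hy⟩ := h x hx
    exact ⟨y, by rw [← hy, nrm_eq hX]⟩
  | succ i ih =>
    rw [pow_succ_apply] at hx
    obtain ⟨y, hy⟩ := ih (by omega) _ hx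
    have e1 : p - (i + 1) = (p - (i + 1 + 1)) + 1 := by omega
    rw [e1, pow_succ_apply'] at hy
    have h1 : (Φ - 1) (x - ((Φ - 1) ^ (p - (i + 1 + 1))) y) = 0 := by
      rw [map_sub, hy, sub_self]
    rw [tau_apply, sub_eq_zero] at h1
    obtain ⟨z, hz⟩ := h _ h1
    rw [nrm_eq hX] at hz
    have e2 : p - 1 = (p - (i + 1 + 1)) + (i + 1) := by omega
    refine ⟨y + ((Φ - 1) ^ (i + 1)) z, ?_⟩
    rw [map_add]
    have e3 : ((Φ - 1) ^ (p - (i + 1 + 1))) (((Φ - 1) ^ (i + 1)) z) =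
        ((Φ - 1) ^ (p - 1)) z := by
      rw [e2]
      exact (pow_add_apply _ _ _ _).symm
    rw [e3, hz]
    abel

end CTaux

open CTaux

/-! ## CT: linear algebra over `ℤ/p[C_p]` -/

section CT

variable {p : ℕ} [Fact p.Prime]

theorem ct_symm {X : Type} [AddCommGroup X] (hX : ∀ x : X, p • x = 0) (Φ : AddMonoid.End X)
    (hΦ : Φ ^ p = 1) (h : CT p Φ) (x : X) (hx : nrm p Φ x = 0) : ∃ y, Φ y - y = x := by
  rw [nrm_eq hX] at hx
  have hp : 2 ≤ p := (Fact.out : p.Prime).two_le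
  obtain ⟨y, hy⟩ := exact_pow hX Φ h (p - 2) (by omega) x (by
    rwa [show p - 2 + 1 = p - 1 by omega])
  rw [show p - (p - 2 + 1) = 1 by omega, pow_one] at hy
  exact ⟨y, hy⟩

/-- the norm is `(Φ - 1) ^ (p - 1)` and `(Φ - 1) ^ p = 0` -/
theorem nrm_invariant {X : Type} [AddCommGroup X] (Φ : AddMonoid.End X)
    (hΦ : Φ ^ p = 1) (x : X) : Φ (nrm p Φ x) = nrm p Φ x := by
  unfold nrm
  rw [map_sum, Finset.sum_congr rfl fun i _ => (pow_succ_apply' Φ i x).symm]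
  have h1 := Finset.sum_range_succ (fun i => (Φ ^ i) x) p
  have h2 := Finset.sum_range_succ' (fun i => (Φ ^ i) x) p
  rw [h1] at h2
  have h3 : (Φ ^ p) x = (Φ ^ 0) x := by rw [hΦ, pow_zero]
  rw [h3] at h2
  exact (add_right_cancel h2).symm

variable {A B C : Type} [AddCommGroup A] [AddCommGroup B] [AddCommGroup C]
  (hA : ∀ x : A, p • x = 0) (hB : ∀ x : B, p • x = 0) (hC : ∀ x : C, p • x = 0)
  (ΦA : AddMonoid.End A) (ΦB : AddMonoid.End B) (ΦC : AddMonoid.End C)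
  (hΦA : ΦA ^ p = 1) (hΦB : ΦB ^ p = 1) (hΦC : ΦC ^ p = 1)
  (i : A →+ B) (q : B →+ C) (hi : Function.Injective i) (hq : Function.Surjective q)
  (hex : ∀ b, q b = 0 → ∃ a, i a = b) (hqi : ∀ a, q (i a) = 0)
  (hiΦ : ∀ a, i (ΦA a) = ΦB (i a)) (hqΦ : ∀ b, q (ΦB b) = ΦC (q b))

include hA hB hC hΦA hΦB hΦC hi hq hex hqi hiΦ hqΦ

theorem ct_sub (h₁ : CT p ΦB) (h₂ : CT p ΦC) : CT p ΦA := by
  intro a ha
  obtain ⟨b, hb⟩ := h₁ (i a) (by rw [← hiΦ, ha])
  rw [nrm_eq hB] at hb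
  have h3 : nrm p ΦC (q b) = 0 := by
    rw [nrm_eq hC, ← map_tau q ΦB ΦC hqΦ, hb, hqi]
  obtain ⟨c', hc'⟩ := ct_symm hC ΦC hΦC h₂ (q b) h3
  obtain ⟨b', rfl⟩ := hq c'
  have h4 : q (b - (ΦB b' - b')) = 0 := by
    rw [map_sub, map_sub, hqΦ, hc', sub_self]
  obtain ⟨a', ha'⟩ := hex _ h4
  refine ⟨a', hi ?_⟩
  rw [nrm_eq hA, map_tau i ΦA ΦB hiΦ, ha', map_sub, hb]
  rw [tau_pow_pred hB ΦB hΦB, sub_zero]

theorem ct_quot (h₁ : CT p ΦA) (h₂ : CT p ΦB) : CT p ΦC := by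
  intro c hc
  obtain ⟨b, rfl⟩ := hq c
  have h3 : q (ΦB b - b) = 0 := by rw [map_sub, hqΦ, hc, sub_self]
  obtain ⟨a, ha⟩ := hex _ h3
  have h4 : nrm p ΦA a = 0 := by
    apply hi
    rw [nrm_eq hA, map_tau i ΦA ΦB hiΦ, ha, map_zero, tau_pow_pred hB ΦB hΦB]
  obtain ⟨a', ha'⟩ := ct_symm hA ΦA hΦA h₁ a h4
  have h5 : ΦB (b - i a') = b - i a' := by
    rw [map_sub, ← hiΦ]
    have : i (ΦA a') - i a' = ΦB b - b := by rw [← map_sub, ha', ha]
    have h7 : i (ΦA a') = ΦB b - b + i a' := by rw [← this, sub_add_cancel]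
    rw [h7]
    abel
  obtain ⟨b'', hb''⟩ := h₂ _ h5
  refine ⟨q b'', ?_⟩
  rw [nrm_eq hC, ← map_tau q ΦB ΦC hqΦ, ← nrm_eq hB, hb'', map_sub, hqi, sub_zero]

end CT

end Pool.Agent.GTT
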