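import Pool.Agent.Lib.MP_2cc432_al.Defs2

/-!
# TGT, module LG: solving norm equations locally
-/

open Filter Topology Finset

namespace Pool.Agent.GTT

section LG

variable {p : ℕ} [Fact p.Prime]

section

variable {B : Type} [TopologicalSpace B] {T : Type} [AddCommGroup T]

/-- evaluation at a point -/
def LG_ev (b : B) : LocallyConstant B T →+ T where
  toFun f := f b
  map_zero' := rfl
  map_add' _ _ := rfl

omit [Fact p.Prime] in
theorem LG_nrm_apply (Ψ : AddMonoid.End (LocallyConstant B T)) (f : LocallyConstant B T) (b : B) :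
    nrm p Ψ f b = ∑ i ∈ range p, (Ψ ^ i) f b :=
  map_sum (LG_ev (T := T) b) (fun i => (Ψ ^ i) f) (range p)

/-- `1_O f` -/
noncomputable def LG_ind (O : Set B) (hO : IsClopen O) (f : LocallyConstant B T) :
    LocallyConstant B T := by
  classical
  exact LocallyConstant.indicator f hO

theorem LG_ind_mem {O : Set B} (hO : IsClopen O) (f : LocallyConstant B T) {b : B} (hb : b ∈ O) :
    LG_ind O hO f b = f b := by
  classical
  unfold LG_ind
  rw [LocallyConstant.indicator_apply]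
  exact Set.indicator_of_mem hb _

theorem LG_ind_notMem {O : Set B} (hO : IsClopen O) (f : LocallyConstant B T) {b : B}
    (hb : b ∉ O) : LG_ind O hO f b = 0 := by
  classical
  unfold LG_ind
  rw [LocallyConstant.indicator_apply]
  exact Set.indicator_of_notMem hb _

variable (σ : B ≃ₜ B) (θ : B → AddMonoid.End T)
  (Ψ : AddMonoid.End (LocallyConstant B T)) (hΨ : ∀ f b, Ψ f b = θ b (f (σ.symm b)))

include hΨ

theorem LG_pow_zero (g : LocallyConstant B T) (i : ℕ) (b : B) (h : g (σ.symm^[i] b) = 0) :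
    (Ψ ^ i) g b = 0 := by
  induction i generalizing b with
  | zero => exact h
  | succ i ih =>
    rw [pow_succ', AddMonoid.End.coe_mul, Function.comp_apply, hΨ,
      ih (σ.symm b) (by rwa [← Function.iterate_succ_apply]), map_zero]

theorem LG_pow_fix (g : LocallyConstant B T) (i : ℕ) (b : B) (h : σ b = b) :
    (Ψ ^ i) g b = (θ b ^ i) (g b) := by
  have h' : σ.symm b = b := by
    rw [Homeomorph.symm_apply_eq, h]
  induction i with
  | zero => rfl
  | succ i ih =>
    rw [pow_succ', AddMonoid.End.coe_mul, Function.comp_apply, hΨ, h', ih, pow_succ',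
      AddMonoid.End.coe_mul, Function.comp_apply]

theorem LG_ind_pow {O : Set B} (hO : IsClopen O) (hσO : ∀ b, σ b ∈ O ↔ b ∈ O)
    (g : LocallyConstant B T) (i : ℕ) (b : B) :
    (Ψ ^ i) (LG_ind O hO g) b = LG_ind O hO ((Ψ ^ i) g) b := by
  have hσ' : ∀ b, σ.symm b ∈ O ↔ b ∈ O := by
    intro b
    rw [← hσO (σ.symm b), Homeomorph.apply_symm_apply]
  induction i generalizing b with
  | zero => rfl
  | succ i ih =>
    rw [pow_succ', AddMonoid.End.coe_mul, Function.comp_apply, hΨ, ih]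
    by_cases hb : b ∈ O
    · rw [LG_ind_mem hO _ ((hσ' b).2 hb), LG_ind_mem hO _ hb, Function.comp_apply, hΨ]
    · rw [LG_ind_notMem hO _ (fun h => hb ((hσ' b).1 h)), LG_ind_notMem hO _ hb, map_zero]

omit [Fact p.Prime] in
theorem LG_ind_nrm {O : Set B} (hO : IsClopen O) (hσO : ∀ b, σ b ∈ O ↔ b ∈ O)
    (g : LocallyConstant B T) (b : B) :
    nrm p Ψ (LG_ind O hO g) b = LG_ind O hO (nrm p Ψ g) b := by
  rw [LG_nrm_apply]
  simp only [LG_ind_pow σ θ Ψ hΨ hO hσO]
  by_cases hb : b ∈ O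
  · rw [LG_ind_mem hO _ hb, LG_nrm_apply]
    exact sum_congr rfl fun i _ => LG_ind_mem hO _ hb
  · rw [LG_ind_notMem hO _ hb]
    exact sum_eq_zero fun i _ => LG_ind_notMem hO _ hb

end

omit [Fact p.Prime] in
theorem LG_nrm_inv {X : Type} [AddCommGroup X] (Φ : AddMonoid.End X)
    (hΦ : Φ ^ p = 1) (x : X) : Φ (nrm p Φ x) = nrm p Φ x := by
  unfold nrm
  rw [map_sum]
  have h1 : ∀ i, Φ ((Φ ^ i) x) = (Φ ^ (i + 1)) x := by
    intro i
    rw [pow_succ', AddMonoid.End.coe_mul, Function.comp_apply]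
  simp only [h1]
  have h2 := sum_range_succ (fun i => (Φ ^ i) x) p
  rw [sum_range_succ'] at h2
  rw [hΦ, pow_zero] at h2
  exact add_right_cancel h2

theorem local_global {B : Type} [TopologicalSpace B] [CompactSpace B] [T2Space B]
    [TotallyDisconnectedSpace B] {T : Type} [AddCommGroup T]
    (σ : B ≃ₜ B) (hσ : ∀ b, σ^[p] b = b) (θ : B → AddMonoid.End T)
    (hθ : ∀ t, IsLocallyConstant fun b => θ b t)
    (Ψ : AddMonoid.End (LocallyConstant B T)) (hΨ : ∀ f b, Ψ f b = θ b (f (σ.symm b)))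
    (hΨp : Ψ ^ p = 1) (f : LocallyConstant B T) (hf : Ψ f = f)
    (hfix : ∀ b, σ b = b → ∃ t, nrm p (θ b) t = f b) : ∃ f', nrm p Ψ f' = f := by
  have hp : p.Prime := Fact.out
  -- the equation at a point
  have key1 : ∀ b₀ : B, ∃ f' : LocallyConstant B T, nrm p Ψ f' b₀ = f b₀ := by
    intro b₀
    by_cases hb : σ b₀ = b₀
    · obtain ⟨t, ht⟩ := hfix b₀ hb
      refine ⟨LocallyConstant.const B t, ?_⟩
      rw [LG_nrm_apply, ← ht]
      unfold nrm
      refine sum_congr rfl fun i _ => ?_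
      rw [LG_pow_fix σ θ Ψ hΨ _ i b₀ hb]
      rfl
    · have hper : Function.IsPeriodicPt σ.symm p b₀ := by
        have h1 : σ.symm^[p] (σ^[p] b₀) = b₀ :=
          Function.LeftInverse.iterate (fun z => σ.symm_apply_apply z) p b₀
        rw [hσ] at h1
        exact h1
      have hnf : ¬ Function.IsFixedPt σ.symm b₀ := by
        intro h
        apply hb
        have h1 : σ.symm b₀ = b₀ := h
        rw [Homeomorph.symm_apply_eq] at h1
        exact h1.symm
      have hmin : Function.minimalPeriod σ.symm b₀ = p :=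
        Function.minimalPeriod_eq_prime hper hnf
      have hne : ∀ i, 0 < i → i < p → σ.symm^[i] b₀ ≠ b₀ := by
        intro i h0 hi h
        have h1 := Function.IsPeriodicPt.minimalPeriod_le (f := σ.symm) h0 h
        rw [hmin] at h1
        omega
      set S : Set B := (fun i => σ.symm^[i] b₀) '' {i | 0 < i ∧ i < p} with hS
      have hSfin : S.Finite := by
        apply Set.Finite.image
        exact (Set.finite_lt_nat p).subset fun i hi => hi.2
      have hopen : IsOpen Sᶜ := hSfin.isClosed.isOpen_compl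
      have hmem : b₀ ∈ Sᶜ := by
        rintro ⟨i, hi, h⟩
        exact hne i hi.1 hi.2 h
      obtain ⟨O, hO, hbO, hOS⟩ := compact_exists_isClopen_in_isOpen hopen hmem
      refine ⟨LG_ind O hO f, ?_⟩
      rw [LG_nrm_apply, sum_eq_single 0]
      · exact LG_ind_mem hO f hbO
      · intro i hi h0
        refine LG_pow_zero σ θ Ψ hΨ _ i b₀ (LG_ind_notMem hO f fun h => ?_)
        exact hOS h ⟨i, ⟨Nat.pos_of_ne_zero h0, mem_range.1 hi⟩, rfl⟩
      · intro h
        exact absurd (mem_range.2 hp.pos) h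
  -- the equation on a clopen stable set
  have key2 : ∀ f' : LocallyConstant B T, IsClopen {b | nrm p Ψ f' b = f b} ∧
      ∀ b, σ b ∈ {b | nrm p Ψ f' b = f b} ↔ b ∈ {b | nrm p Ψ f' b = f b} := by
    intro f'
    have h1 : IsLocallyConstant fun b => nrm p Ψ f' b - f b :=
      (nrm p Ψ f').isLocallyConstant.sub f.isLocallyConstant
    have h2 : {b | nrm p Ψ f' b = f b} = (fun b => nrm p Ψ f' b - f b) ⁻¹' {0} := by
      ext b
      simp [sub_eq_zero]
    refine ⟨by rw [h2]; exact h1.isClopen_fiber 0, ?_⟩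
    have h3 : ∀ b, nrm p Ψ f' b = f b → nrm p Ψ f' (σ b) = f (σ b) := by
      intro b hb
      have e1 : nrm p Ψ f' (σ b) = θ (σ b) (nrm p Ψ f' b) := by
        conv_lhs => rw [← LG_nrm_inv Ψ hΨp f']
        rw [hΨ, Homeomorph.symm_apply_apply]
      have e2 : f (σ b) = θ (σ b) (f b) := by
        conv_lhs => rw [← hf]
        rw [hΨ, Homeomorph.symm_apply_apply]
      rw [e1, e2, hb]
    have h4 : ∀ (n : ℕ) b, nrm p Ψ f' b = f b → nrm p Ψ f' (σ^[n] b) = f (σ^[n] b) := by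
      intro n
      induction n with
      | zero => exact fun b hb => hb
      | succ n ih => exact fun b hb => ih (σ b) (h3 b hb)
    intro b
    refine ⟨fun hb => ?_, fun hb => h3 b hb⟩
    have h5 := h4 (p - 1) (σ b) hb
    rw [← Function.iterate_succ_apply, Nat.succ_eq_add_one, Nat.sub_add_cancel hp.pos, hσ] at h5
    exact h5
  have main : ∃ O : Set B, Set.univ ⊆ O ∧ IsClopen O ∧ (∀ b, σ b ∈ O ↔ b ∈ O) ∧
      ∃ f' : LocallyConstant B T, ∀ b ∈ O, nrm p Ψ f' b = f b := by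
    refine isCompact_univ.induction_on (p := fun S : Set B => ∃ O : Set B, S ⊆ O ∧ IsClopen O ∧
      (∀ b, σ b ∈ O ↔ b ∈ O) ∧ ∃ f' : LocallyConstant B T, ∀ b ∈ O, nrm p Ψ f' b = f b)
      ?_ ?_ ?_ ?_
    · exact ⟨∅, Set.empty_subset _, isClopen_empty, fun b => Iff.rfl, 0, fun b hb => hb.elim⟩
    · rintro s t hst ⟨O, h1, h2⟩
      exact ⟨O, hst.trans h1, h2⟩
    · rintro s t ⟨O₁, hs, hO₁, hσ₁, f₁, hf₁⟩ ⟨O₂, ht, hO₂, hσ₂, f₂, hf₂⟩
      have hO : IsClopen (O₂ \ O₁) := hO₂.diff hO₁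
      have hσO : ∀ b, σ b ∈ O₂ \ O₁ ↔ b ∈ O₂ \ O₁ := fun b =>
        and_congr (hσ₂ b) (not_congr (hσ₁ b))
      refine ⟨O₁ ∪ O₂, Set.union_subset_union hs ht, hO₁.union hO₂,
        fun b => or_congr (hσ₁ b) (hσ₂ b), LG_ind O₁ hO₁ f₁ + LG_ind (O₂ \ O₁) hO f₂, ?_⟩
      intro b hb
      have hadd : nrm p Ψ (LG_ind O₁ hO₁ f₁ + LG_ind (O₂ \ O₁) hO f₂) b =
          nrm p Ψ (LG_ind O₁ hO₁ f₁) b + nrm p Ψ (LG_ind (O₂ \ O₁) hO f₂) b := by
        rw [LG_nrm_apply, LG_nrm_apply, LG_nrm_apply, ← sum_add_distrib]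
        refine sum_congr rfl fun i _ => ?_
        rw [map_add]
        rfl
      rw [hadd, LG_ind_nrm σ θ Ψ hΨ hO₁ hσ₁, LG_ind_nrm σ θ Ψ hΨ hO hσO]
      by_cases h1 : b ∈ O₁
      · rw [LG_ind_mem hO₁ _ h1, LG_ind_notMem hO _ (fun h => h.2 h1), add_zero, hf₁ b h1]
      · have h2 : b ∈ O₂ := hb.resolve_left h1
        rw [LG_ind_notMem hO₁ _ h1, LG_ind_mem hO _ ⟨h2, h1⟩, zero_add, hf₂ b h2]
    · intro b₀ _
      obtain ⟨f', hf'⟩ := key1 b₀
      obtain ⟨h1, h2⟩ := key2 f'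
      refine ⟨{b | nrm p Ψ f' b = f b}, ?_, _, subset_rfl, h1, h2, f', fun b hb => hb⟩
      rw [nhdsWithin_univ]
      exact h1.isOpen.mem_nhds hf'
  obtain ⟨O, hO, -, -, f', hf'⟩ := main
  refine ⟨f', ?_⟩
  ext b
  exact hf' b (hO (Set.mem_univ b))

end LG

end Pool.Agent.GTT
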