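import Pool.Agent.Lib.MP_2cc432_al.Defs2
import Pool.Agent.Lib.MP_2cc432_al.CT
import Pool.Agent.Lib.MP_2cc432_al.LG

/-!
# A group with a tree has no element of order `p`
-/

open Filter Topology Finset

namespace Pool.Agent.GTT

variable {P : Type} [Group P] [TopologicalSpace P] {p : ℕ}

/-- the homeomorphism given by an element of the group -/
def Tree.homeo (tr : Tree P p) (u : P) : tr.Y ≃ₜ tr.Y where
  toFun := tr.act u
  invFun := tr.act u⁻¹
  left_inv := fun y => by rw [← tr.act_mul, inv_mul_cancel, tr.act_one]
  right_inv := fun y => by rw [← tr.act_mul, mul_inv_cancel, tr.act_one]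
  continuous_toFun := tr.cont.comp (continuous_const.prodMk continuous_id)
  continuous_invFun := tr.cont.comp (continuous_const.prodMk continuous_id)

theorem Tree.homeo_apply (tr : Tree P p) (u : P) (y : tr.Y) : tr.homeo u y = tr.act u y := rfl

theorem Tree.homeo_symm_apply (tr : Tree P p) (u : P) (y : tr.Y) :
    (tr.homeo u).symm y = tr.act u⁻¹ y := rfl

theorem Tree.homeo_iterate (tr : Tree P p) (u : P) (n : ℕ) (y : tr.Y) :
    (tr.homeo u)^[n] y = tr.act (u ^ n) y := by
  induction n generalizing y with
  | zero => rw [pow_zero, tr.act_one]; rfl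
  | succ n ih => rw [Function.iterate_succ_apply, ih, tr.homeo_apply, ← tr.act_mul, pow_succ]

/-- translation of locally constant functions by an element of the group -/
def Tree.shift (tr : Tree P p) (u : P) : AddMonoid.End (LocallyConstant tr.Y (ZMod p)) where
  toFun f := ⟨fun y => f (tr.act u⁻¹ y),
    f.isLocallyConstant.comp_continuous (tr.cont.comp (continuous_const.prodMk continuous_id))⟩
  map_zero' := by
    ext y
    simp
  map_add' a b := by
    ext y
    simp

theorem Tree.shift_apply (tr : Tree P p) (u : P) (f : LocallyConstant tr.Y (ZMod p)) (y : tr.Y) :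
    tr.shift u f y = f (tr.act u⁻¹ y) := rfl

theorem Tree.shift_pow (tr : Tree P p) (u : P) (n : ℕ) (f : LocallyConstant tr.Y (ZMod p))
    (y : tr.Y) : (tr.shift u ^ n) f y = f (tr.act (u ^ n)⁻¹ y) := by
  induction n generalizing f y with
  | zero => rw [pow_zero, pow_zero, inv_one, tr.act_one]; rfl
  | succ n ih =>
    rw [pow_succ', AddMonoid.End.coe_mul, Function.comp_apply, tr.shift_apply, ih,
      ← tr.act_mul, pow_succ', mul_inv_rev]

/-- the coboundary map of the tree for one of the two edges -/
def Tree.dmap (tr : Tree P p) (e : Fin 2) :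
    LocallyConstant tr.Y (ZMod p) →+ LocallyConstant tr.Y (ZMod p) where
  toFun f := ⟨fun y => f (tr.r e y), f.isLocallyConstant.comp_continuous (tr.r_cont e)⟩ - f
  map_zero' := by
    ext y
    simp
  map_add' a b := by
    ext y
    simp only [LocallyConstant.coe_sub, LocallyConstant.coe_add, Pi.sub_apply, Pi.add_apply,
      LocallyConstant.coe_mk]
    abel

theorem Tree.dmap_apply (tr : Tree P p) (e : Fin 2) (f : LocallyConstant tr.Y (ZMod p))
    (y : tr.Y) : tr.dmap e f y = f (tr.r e y) - f y := rfl

theorem Tree.shift_dmap (tr : Tree P p) (u : P) (e : Fin 2)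
    (f : LocallyConstant tr.Y (ZMod p)) :
    tr.dmap e (tr.shift u f) = tr.shift u (tr.dmap e f) := by
  ext y
  rw [tr.dmap_apply, tr.shift_apply, tr.shift_apply, tr.shift_apply, tr.dmap_apply, tr.r_act]

/-- the action on pairs -/
def Tree.shift2 (tr : Tree P p) (u : P) :
    AddMonoid.End (LocallyConstant tr.Y (ZMod p) × LocallyConstant tr.Y (ZMod p)) :=
  AddMonoidHom.prodMap (tr.shift u) (tr.shift u)

theorem Tree.shift2_pow (tr : Tree P p) (u : P) (n : ℕ)
    (f : LocallyConstant tr.Y (ZMod p) × LocallyConstant tr.Y (ZMod p)) :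
    (tr.shift2 u ^ n) f = ((tr.shift u ^ n) f.1, (tr.shift u ^ n) f.2) := by
  induction n generalizing f with
  | zero => rfl
  | succ n ih =>
    rw [pow_succ', AddMonoid.End.coe_mul, Function.comp_apply, ih, pow_succ']
    rfl

variable [IsTopologicalGroup P] [CompactSpace P] [T2Space P] [TotallyDisconnectedSpace P]
  [Fact p.Prime]

/-- TF -/
theorem torsion_free (tr : Tree P p) (u : P) (hu : u ^ p = 1) : u = 1 := by
  by_contra hne
  have hp : p.Prime := Fact.out
  have hk : ∀ x : ZMod p, p • x = 0 := fun x => by
    rw [nsmul_eq_mul, CharP.cast_eq_zero, zero_mul]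
  have hC1 : ∀ f : LocallyConstant tr.Y (ZMod p), p • f = 0 := fun f => by
    ext y
    exact hk (f y)
  have hpow : tr.shift u ^ p = 1 := by
    ext f y
    rw [tr.shift_pow, hu, inv_one, tr.act_one]
    rfl
  have hct : CT p (tr.shift u) := by
    intro f hf
    refine local_global (tr.homeo u) (fun b => ?_) (fun _ => 1) (fun t => ?_) (tr.shift u)
      (fun f b => rfl) hpow f hf (fun b hb => ?_)
    · rw [tr.homeo_iterate, hu, tr.act_one]
    · exact IsLocallyConstant.const t
    · exfalso
      apply hne
      have h := tr.κ_act u b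
      rw [tr.homeo_apply] at hb
      rw [hb] at h
      exact (mul_eq_right.1 h.symm)
  have hct2 : CT p (tr.shift2 u) := by
    intro f hf
    have h1 : tr.shift u f.1 = f.1 := congrArg Prod.fst hf
    have h2 : tr.shift u f.2 = f.2 := congrArg Prod.snd hf
    obtain ⟨a, ha⟩ := hct f.1 h1
    obtain ⟨b, hb⟩ := hct f.2 h2
    refine ⟨(a, b), ?_⟩
    unfold nrm at *
    simp only [tr.shift2_pow]
    rw [Prod.ext_iff]
    exact ⟨by rw [Prod.fst_sum]; exact ha, by rw [Prod.snd_sum]; exact hb⟩
  have hkey : CT p (1 : AddMonoid.End (ZMod p)) := by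
    refine ct_sub (p := p) hk hC1 (C := LocallyConstant tr.Y (ZMod p) × LocallyConstant tr.Y (ZMod p))
      (fun x => Prod.ext (hC1 x.1) (hC1 x.2)) 1 (tr.shift u) (tr.shift2 u) (one_pow p) hpow ?_
      (i := { toFun := fun a => LocallyConstant.const tr.Y a
              map_zero' := rfl
              map_add' := fun _ _ => rfl })
      (q := (tr.dmap 0).prod (tr.dmap 1)) ?_ ?_ ?_ ?_ ?_ ?_ hct hct2
    · ext f : 1
      rw [tr.shift2_pow, hpow]
      rfl
    · intro a b hab
      have h := DFunLike.congr_fun hab tr.y₀
      exact h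
    · rintro ⟨g, g'⟩
      obtain ⟨f, hf, hfe⟩ := tr.T1 (ZMod p) hk (fun e => if e = 0 then g else g') (fun e => by
        by_cases he : e = 0
        · simp only [he, if_true]
          exact g.isLocallyConstant
        · simp only [he, if_false]
          exact g'.isLocallyConstant)
      refine ⟨⟨f, hf⟩, ?_⟩
      rw [Prod.ext_iff]
      constructor
      · ext y
        exact hfe 0 y
      · ext y
        exact hfe 1 y
    · intro f hf
      have h0 : tr.dmap 0 f = 0 := congrArg Prod.fst hf
      have h1 : tr.dmap 1 f = 0 := congrArg Prod.snd hf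
      refine ⟨f tr.y₀, ?_⟩
      ext y
      refine tr.T0 (ZMod p) f f.isLocallyConstant (fun e y => ?_) tr.y₀ y
      have he : tr.dmap e f = 0 := by
        fin_cases e
        · exact h0
        · exact h1
      have h := DFunLike.congr_fun he y
      rw [tr.dmap_apply] at h
      exact sub_eq_zero.1 h
    · intro a
      rw [Prod.ext_iff]
      constructor
      · ext y
        exact sub_self a
      · ext y
        exact sub_self a
    · intro a
      rfl
    · intro f
      rw [Prod.ext_iff]
      exact ⟨tr.shift_dmap u 0 f, tr.shift_dmap u 1 f⟩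
  obtain ⟨y, hy⟩ := hkey 1 rfl
  have : nrm p (1 : AddMonoid.End (ZMod p)) y = 0 := by
    unfold nrm
    simp only [one_pow]
    rw [Finset.sum_const, Finset.card_range]
    exact hk _
  rw [this] at hy
  exact zero_ne_one hy

end Pool.Agent.GTT
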