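import Pool.Agent.Lib.MP_2cc432_al.Free

/-!
# Module TREE: the Cayley graph of a free profinite group
-/

open Filter Topology Finset

namespace Pool.Agent.GTT

/-- right translation of locally constant functions -/
def treeEnd (𝔽 : Type) [Group 𝔽] [TopologicalSpace 𝔽] [IsTopologicalGroup 𝔽]
    (A : Type) [AddCommGroup A] (g : 𝔽) : AddMonoid.End (LocallyConstant 𝔽 A) where
  toFun f := ⟨fun h => f (h * g), f.isLocallyConstant.comp_continuous (continuous_mul_const g)⟩
  map_zero' := by
    ext h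
    simp
  map_add' a b := by
    ext h
    simp

theorem treeEnd_apply {𝔽 : Type} [Group 𝔽] [TopologicalSpace 𝔽] [IsTopologicalGroup 𝔽]
    (A : Type) [AddCommGroup A] (g : 𝔽) (f : LocallyConstant 𝔽 A) (h : 𝔽) :
    treeEnd 𝔽 A g f h = f (h * g) := rfl

/-- right translation of locally constant functions, as a representation -/
def treeρ (𝔽 : Type) [Group 𝔽] [TopologicalSpace 𝔽] [IsTopologicalGroup 𝔽]
    (A : Type) [AddCommGroup A] : 𝔽 →* AddMonoid.End (LocallyConstant 𝔽 A) where
  toFun := treeEnd 𝔽 A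
  map_one' := by
    ext f h
    rw [treeEnd_apply, mul_one]
    rfl
  map_mul' g k := by
    ext f h
    rw [AddMonoid.End.coe_mul, Function.comp_apply, treeEnd_apply, treeEnd_apply, treeEnd_apply,
      mul_assoc]

section Free

variable {𝔽 : Type} [Group 𝔽] [TopologicalSpace 𝔽] [IsTopologicalGroup 𝔽] [CompactSpace 𝔽]
  [T2Space 𝔽] [TotallyDisconnectedSpace 𝔽] {x y : 𝔽} {p : ℕ} [Fact p.Prime]

omit [T2Space 𝔽] [TotallyDisconnectedSpace 𝔽] in
theorem treeρ_smooth (A : Type) [AddCommGroup A] : Smooth (treeρ 𝔽 A) := by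
  intro f
  have key : ∀ h ∈ (Set.univ : Set 𝔽), ∀ᶠ q : 𝔽 × 𝔽 in 𝓝 1 ×ˢ 𝓝 h, f (q.2 * q.1) = f q.2 := by
    intro h _
    have h1 : ∀ᶠ q : 𝔽 × 𝔽 in 𝓝 1 ×ˢ 𝓝 h, f (q.2 * q.1) = f h := by
      have hc : Continuous fun q : 𝔽 × 𝔽 => q.2 * q.1 := continuous_snd.mul continuous_fst
      have h' := (f.isLocallyConstant.comp_continuous hc).eventually_eq (1, h)
      rw [nhds_prod_eq] at h'
      filter_upwards [h'] with q hq
      have hq' : f (q.2 * q.1) = f (h * 1) := hq
      rw [hq', mul_one]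
    have h2 : ∀ᶠ q : 𝔽 × 𝔽 in 𝓝 1 ×ˢ 𝓝 h, f q.2 = f h :=
      (f.isLocallyConstant.eventually_eq h).prod_inr _
    filter_upwards [h1, h2] with q e1 e2
    rw [e1, e2]
  have h := isCompact_univ.eventually_forall_of_forall_eventually (x₀ := (1 : 𝔽))
    (P := fun g h => f (h * g) = f h) (fun h hh => by
      rw [nhds_prod_eq]
      exact key h hh)
  filter_upwards [h] with g hg
  ext z
  exact hg z (Set.mem_univ z)

omit [CompactSpace 𝔽] [T2Space 𝔽] [TotallyDisconnectedSpace 𝔽] in
theorem tree_invariant (h : FreeProf 𝔽 x y) (A : Type) (f : 𝔽 → A) (hf : IsLocallyConstant f)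
    (hx : ∀ g, f (g * x) = f g) (hy : ∀ g, f (g * y) = f g) (a b : 𝔽) : f a = f b := by
  let S : Subgroup 𝔽 :=
    { carrier := {k | ∀ g, f (g * k) = f g}
      mul_mem' := by
        intro k l hk hl g
        rw [← mul_assoc, hl, hk]
      one_mem' := fun g => by rw [mul_one]
      inv_mem' := by
        intro k hk g
        have := hk (g * k⁻¹)
        rw [inv_mul_cancel_right] at this
        exact this.symm }
  have hS : IsClosed (S : Set 𝔽) := by
    have : (S : Set 𝔽) = ⋂ g : 𝔽, {k | f (g * k) = f g} := by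
      ext k
      simp only [Set.mem_iInter, Set.mem_setOf_eq]
      rfl
    rw [this]
    refine isClosed_iInter fun g => ?_
    have h1 : IsLocallyConstant fun k => f (g * k) := hf.comp_continuous (continuous_const_mul g)
    exact (h1.isClopen_fiber (f g)).isClosed
  have hT := h.dense S hS hx hy
  have h1 : a⁻¹ * b ∈ S := by
    rw [hT]
    exact Subgroup.mem_top _
  have h2 := h1 a
  rw [mul_inv_cancel_left] at h2
  exact h2.symm

/-- TREE -/
theorem tree_open (h : FreeProf 𝔽 x y) (V : Subgroup 𝔽) (hV : IsOpen (V : Set 𝔽)) :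
    Nonempty (Tree V p) := by
  obtain ⟨κ, hκ, hκV, -⟩ := exists_section V hV
  refine ⟨{
    Y := 𝔽
    y₀ := 1
    act := fun v g => (v : 𝔽) * g
    cont := (continuous_subtype_val.comp continuous_fst).mul continuous_snd
    act_one := fun g => one_mul g
    act_mul := fun v w g => by rw [Subgroup.coe_mul, mul_assoc]
    κ := κ
    κ_cont := hκ
    κ_act := hκV
    r := fun e g => g * (if e = 0 then x else y)
    r_cont := fun e => continuous_mul_const _
    r_act := fun e v g => mul_assoc _ _ _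
    T0 := fun A f hf hr a b => tree_invariant h A f hf (fun g => by simpa using hr 0 g)
      (fun g => by simpa using hr 1 g) a b
    T1 := ?_ }⟩
  intro A _ hA g hg
  obtain ⟨δ, hδ, hx, hy⟩ := exists_der h (T := LocallyConstant 𝔽 A) (p := p)
    (fun t => by
      ext z
      exact hA (t z))
    (treeρ 𝔽 A) (treeρ_smooth A) ⟨g 0, hg 0⟩ ⟨g 1, hg 1⟩
  refine ⟨fun k => δ k 1, hδ.lc.comp fun t : LocallyConstant 𝔽 A => t 1, ?_⟩
  have key : ∀ (k a : 𝔽), δ (k * a) 1 - δ k 1 = δ a k := by
    intro k a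
    rw [hδ.mul]
    change δ k 1 + δ a (1 * k) - δ k 1 = δ a k
    rw [one_mul, add_sub_cancel_left]
  intro e k
  fin_cases e
  · change δ (k * (if (0 : Fin 2) = 0 then x else y)) 1 - δ k 1 = g 0 k
    rw [if_pos rfl, key, hx]
    rfl
  · change δ (k * (if (1 : Fin 2) = 0 then x else y)) 1 - δ k 1 = g 1 k
    rw [if_neg (by decide), key, hy]
    rfl

end Free

end Pool.Agent.GTT
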