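import Pool.Agent.Lib.MP_2cc432_al.Cusp
import Pool.Agent.Lib.MP_2cc432_al.Faith
import Pool.Agent.Lib.MP_2cc432_al.Deep
import Pool.Agent.Lib.MP_2cc432_al.TreeM
import Pool.Agent.Lib.MP_2cc432_al.TF

/-!
# Torsion in the profinite Grothendieck–Teichmüller group: the main theorem

Assembly of the modules CUSP, FAITH, DEEP, TREE and TF.
-/

open Filter Topology Finset

namespace Pool.Agent.GTT

section MainSection

variable {𝔽 : Type} [Group 𝔽] [TopologicalSpace 𝔽] [IsTopologicalGroup 𝔽] [CompactSpace 𝔽]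
  [T2Space 𝔽] [TotallyDisconnectedSpace 𝔽] {x y : 𝔽} {p : ℕ} [Fact p.Prime]

/-- conjugation by `k` on a normal subgroup -/
def mainConj (V : Subgroup 𝔽) [V.Normal] (k : 𝔽) (u : V) : V :=
  ⟨k * u * k⁻¹, (inferInstance : V.Normal).conj_mem _ u.2 k⟩

omit [TopologicalSpace 𝔽] [IsTopologicalGroup 𝔽] [CompactSpace 𝔽] [T2Space 𝔽]
  [TotallyDisconnectedSpace 𝔽] in
theorem mainConj_mul (V : Subgroup 𝔽) [V.Normal] (k : 𝔽) (u v : V) :
    mainConj V k (u * v) = mainConj V k u * mainConj V k v := by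
  apply Subtype.ext
  change k * ((u : 𝔽) * v) * k⁻¹ = (k * u * k⁻¹) * (k * v * k⁻¹)
  group

omit [CompactSpace 𝔽] [T2Space 𝔽] [TotallyDisconnectedSpace 𝔽] [Fact p.Prime] in
/-- the conjugates of a homomorphism are homomorphisms -/
theorem mainConj_isHom (V : Subgroup 𝔽) [V.Normal] (k : 𝔽) {φ : V → ZMod p} (hφ : IsHom φ) :
    IsHom fun u => φ (mainConj V k u) where
  mul g h := by rw [mainConj_mul, hφ.mul]
  lc := hφ.lc.comp_continuous (by
    unfold mainConj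
    exact ((continuous_const.mul continuous_subtype_val).mul continuous_const).subtype_mk _)

omit [TopologicalSpace 𝔽] [IsTopologicalGroup 𝔽] [CompactSpace 𝔽] [T2Space 𝔽]
  [TotallyDisconnectedSpace 𝔽] [Fact p.Prime] in
/-- the conjugates of an unramified homomorphism are unramified -/
theorem mainConj_unram (V : Subgroup 𝔽) [V.Normal] (k : 𝔽) {φ : V → ZMod p}
    (hur : Unram x y V φ) : Unram x y V fun u => φ (mainConj V k u) := by
  intro a ha g n h
  have e : mainConj V k ⟨_, h⟩ = ⟨(g * k⁻¹)⁻¹ * a ^ n * (g * k⁻¹), by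
      have := (mainConj V k ⟨_, h⟩).2
      have e : ((mainConj V k ⟨_, h⟩ : V) : 𝔽) = (g * k⁻¹)⁻¹ * a ^ n * (g * k⁻¹) := by
        change k * (g⁻¹ * a ^ n * g) * k⁻¹ = _
        group
      rwa [e] at this⟩ := by
    apply Subtype.ext
    change k * (g⁻¹ * a ^ n * g) * k⁻¹ = (g * k⁻¹)⁻¹ * a ^ n * (g * k⁻¹)
    group
  change φ (mainConj V k ⟨_, h⟩) = 0
  rw [e]
  exact hur a ha (g * k⁻¹) n _

/-- MAIN -/
theorem main_abstract (h : FreeProf 𝔽 x y) (F : 𝔽 ≃ₜ* 𝔽) (hF : ∀ g, F^[p] g = g)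
    (hx : F x = x) (b c : 𝔽) (hb : b * F y * b⁻¹ = y) (hbN : nv F p b = 1)
    (hc : c * F (x * y) * c⁻¹ = x * y) (hcN : nv F p c = 1) (g : 𝔽) : F g = g := by
  by_contra hne
  have hw : g⁻¹ * F g ≠ 1 := fun h1 => hne (inv_mul_eq_one.mp h1).symm
  obtain ⟨V, hVn, hV, hVF, hwV, h7⟩ := exists_deep h F hF _ hw
  obtain ⟨φ, hφ, hur, v, hv⟩ := faithful (p := p) h V hV h7 _ hwV
  apply hv
  -- invariance of all conjugates
  have key : ∀ (k : 𝔽) (u : V), φ (mainConj V k (resF F V hVF u)) = φ (mainConj V k u) :=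
    fun k u => unram_invariant h F hF hx b c hb hbN hc hcN V hV hVF _ (mainConj_isHom V k hφ)
      (mainConj_unram V k hur) u
  set t : V := (resF F V hVF).symm v with ht
  have ht' : resF F V hVF t = v := (resF F V hVF).apply_symm_apply v
  have h1 : φ v = φ t := by
    have := key 1 t
    rw [ht'] at this
    have e : ∀ u : V, mainConj V 1 u = u := fun u => Subtype.ext (by
      change 1 * (u : 𝔽) * 1⁻¹ = u
      group)
    rwa [e, e] at this
  have h2 := key g⁻¹ (mainConj V g t)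
  have e1 : mainConj V g⁻¹ (mainConj V g t) = t := Subtype.ext (by
    change g⁻¹ * (g * (t : 𝔽) * g⁻¹) * g⁻¹⁻¹ = t
    group)
  have e2 : mainConj V g⁻¹ (resF F V hVF (mainConj V g t)) =
      ⟨(g⁻¹ * F g) * v * (g⁻¹ * F g)⁻¹, hVn.conj_mem _ v.2 _⟩ := Subtype.ext (by
    change g⁻¹ * F (g * (t : 𝔽) * g⁻¹) * g⁻¹⁻¹ = (g⁻¹ * F g) * v * (g⁻¹ * F g)⁻¹
    rw [map_mul, map_mul, map_inv, show (F (t : 𝔽)) = v from congrArg Subtype.val ht']
    group)
  rw [e1, e2] at h2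
  rw [h1]
  exact h2

/-- MAIN -/
theorem center_trivial (h : FreeProf 𝔽 x y) (w : 𝔽) (hw : ∀ v, w * v = v * w) : w = 1 := by
  by_contra hne
  have hp : Fact (Nat.Prime 2) := ⟨Nat.prime_two⟩
  obtain ⟨V, hVn, hV, -, hwV, h7⟩ :=
    exists_deep (p := 2) h (ContinuousMulEquiv.refl 𝔽) (fun _ => rfl) w hne
  obtain ⟨φ, -, -, v, hv⟩ := faithful (p := 2) h V hV h7 w hwV
  apply hv
  congr 1
  apply Subtype.ext
  change w * (v : 𝔽) * w⁻¹ = v
  rw [hw, mul_inv_cancel_right]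

/-- MAIN -/
theorem torsion_free' (h : FreeProf 𝔽 x y) (n : ℕ) (hn : 0 < n) (u : 𝔽) (hu : u ^ n = 1) :
    u = 1 := by
  by_contra hne
  have hfin : IsOfFinOrder u := isOfFinOrder_iff_pow_eq_one.mpr ⟨n, hn, hu⟩
  have hm : orderOf u ≠ 1 := fun h1 => hne (orderOf_eq_one_iff.mp h1)
  have hq : Fact (orderOf u).minFac.Prime := ⟨Nat.minFac_prime hm⟩
  set q := (orderOf u).minFac with hqdef
  obtain ⟨k, hk⟩ : q ∣ orderOf u := Nat.minFac_dvd _
  have hk0 : 0 < k := by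
    rcases Nat.eq_zero_or_pos k with h0 | h0
    · exfalso
      rw [h0, mul_zero] at hk
      exact hfin.orderOf_pos.ne' hk
    · exact h0
  have h1 : (u ^ k) ^ q = 1 := by
    rw [← pow_mul, mul_comm k q, ← hk]
    exact pow_orderOf_eq_one u
  obtain ⟨tr⟩ := tree_open (p := q) h ⊤ isOpen_univ
  have : CompactSpace (⊤ : Subgroup 𝔽) := isCompact_iff_compactSpace.1 isCompact_univ
  have h2 := torsion_free tr (⟨u ^ k, Subgroup.mem_top _⟩ : (⊤ : Subgroup 𝔽))
    (Subtype.ext h1)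
  have h3 : u ^ k = 1 := congrArg Subtype.val h2
  have h4 : orderOf u ∣ k := orderOf_dvd_of_pow_eq_one h3
  have h5 := Nat.le_of_dvd hk0 h4
  rw [hk] at h5
  have h6 := hq.out.two_le
  nlinarith

end MainSection

end Pool.Agent.GTT
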