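import Pool.Agent.Lib.MP_2cc432_al.GTDefs
import Pool.Agent.Lib.MP_2cc432_al.Main

open CategoryTheory

namespace Pool.Agent.GTT


/-! ## Substitutions -/

theorem ev_comp {G : ProfiniteGrp.{0}} (a b : G) (c d : F2hat) (f : F2hat) :
    ev a b (ev c d f) = ev (ev a b c) (ev a b d) f := by
  have h : (ev a b).comp (ev c d) = ev (ev a b c) (ev a b d) := by
    apply ev_ext
    · change ev a b (ev c d gx) = _
      rw [ev_gx, ev_gx]
    · change ev a b (ev c d gy) = _
      rw [ev_gy, ev_gy]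
  exact congrArg (fun k : F2hat →ₜ* G => k f) h

theorem ev_self (f : F2hat) : ev gx gy f = f := by
  have h : ev gx gy = ContinuousMonoidHom.id F2hat := by
    apply ev_ext
    · rw [ev_gx]
      rfl
    · rw [ev_gy]
      rfl
  exact congrArg (fun k : F2hat →ₜ* F2hat => k f) h

theorem ev_conj (g a b : F2hat) (f : F2hat) :
    ev (g * a * g⁻¹) (g * b * g⁻¹) f = g * ev a b f * g⁻¹ := by
  let c : F2hat →ₜ* F2hat :=
    { toMonoidHom := (MulAut.conj g).toMonoidHom
      continuous_toFun := by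
        change Continuous fun w : F2hat => g * w * g⁻¹
        fun_prop }
  have h : ev (g * a * g⁻¹) (g * b * g⁻¹) = c.comp (ev a b) := by
    apply ev_ext
    · rw [ev_gx]
      change _ = g * ev a b gx * g⁻¹
      rw [ev_gx]
    · rw [ev_gy]
      change _ = g * ev a b gy * g⁻¹
      rw [ev_gy]
  exact congrArg (fun k : F2hat →ₜ* F2hat => k f) h

section Relations

variable {f : F2hat} (h1 : f * ev gy gx f = 1) (h2 : ev gz gx f * ev gy gz f * f = 1)

include h1 in
/-- (I) for all pairs -/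
theorem rel_one (a b : F2hat) : ev a b f * ev b a f = 1 := by
  have h := congrArg (ev a b) h1
  rwa [map_mul, ev_comp, ev_gx, ev_gy, map_one] at h

include h1 in
theorem rel_one' (a b : F2hat) : ev b a f = (ev a b f)⁻¹ :=
  eq_inv_of_mul_eq_one_right (rel_one h1 a b)

include h1 h2 in
/-- `F z = f(x, z)⁻¹ z f(x, z)` -/
theorem gtEnd_gz : gtEnd f gz = (ev gx gz f)⁻¹ * gz * ev gx gz f := by
  -- `f = f(z, y) f(x, z)`
  have e1 : f = ev gz gy f * ev gx gz f := by
    have h := h2
    rw [rel_one' h1 gx gz, rel_one' h1 gz gy] at h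
    have h' : ((ev gx gz f)⁻¹ * (ev gz gy f)⁻¹)⁻¹ = f := inv_eq_of_mul_eq_one_right h
    calc f = ((ev gx gz f)⁻¹ * (ev gz gy f)⁻¹)⁻¹ := h'.symm
      _ = _ := by group
  -- the relation with `x` and `y` exchanged
  have e2 : f = gy * ev gz gy f * gz * ev gx gz f * gx := by
    have h := congrArg (ev gy gx) h2
    rw [map_mul, map_mul, ev_comp, ev_comp, ev_gx, ev_gy, map_one] at h
    have hz : ev gy gx gz = (gy * gx)⁻¹ := by
      rw [gz, map_inv, map_mul, ev_gx, ev_gy]
    have hz1 : (gy * gx)⁻¹ = gx⁻¹ * gz * gx := by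
      rw [gz]
      group
    have hz2 : (gy * gx)⁻¹ = gy * gz * gy⁻¹ := by
      rw [gz]
      group
    have h3 : ev ((gy * gx)⁻¹) gy f = gy * ev gz gy f * gy⁻¹ := by
      rw [hz2, ← ev_conj]
      congr 2
      group
    have h4 : ev gx ((gy * gx)⁻¹) f = gx⁻¹ * ev gx gz f * gx := by
      have h5 := ev_conj gx⁻¹ gx gz f
      rw [inv_inv] at h5
      rw [hz1, ← h5]
      congr 2
      group
    rw [hz, h3, h4] at h
    rw [rel_one' h1 gx gy, ev_self] at h
    have h6 : gy * ev gz gy f * gy⁻¹ * (gx⁻¹ * ev gx gz f * gx) = f := mul_inv_eq_one.1 h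
    have h7 : gz = gy⁻¹ * gx⁻¹ := by
      rw [gz, mul_inv_rev]
    calc f = gy * ev gz gy f * gy⁻¹ * (gx⁻¹ * ev gx gz f * gx) := h6.symm
      _ = gy * ev gz gy f * (gy⁻¹ * gx⁻¹) * ev gx gz f * gx := by group
      _ = _ := by rw [← h7]
  have e3 : gtEnd f gz = (f⁻¹ * gy⁻¹ * f) * gx⁻¹ := by
    rw [gz, map_inv, map_mul, gtEnd, ev_gx, ev_gy]
    group
  have e4 : gy⁻¹ * f = ev gz gy f * gz * ev gx gz f * gx := by
    calc gy⁻¹ * f = gy⁻¹ * (gy * ev gz gy f * gz * ev gx gz f * gx) := congrArg (gy⁻¹ * ·) e2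
      _ = _ := by group
  have e5 : f⁻¹ = (ev gx gz f)⁻¹ * (ev gz gy f)⁻¹ := by
    calc f⁻¹ = (ev gz gy f * ev gx gz f)⁻¹ := congrArg (·⁻¹) e1
      _ = _ := mul_inv_rev _ _
  calc gtEnd f gz = f⁻¹ * (gy⁻¹ * f) * gx⁻¹ := by rw [e3]; group
    _ = (ev gx gz f)⁻¹ * (ev gz gy f)⁻¹ * (ev gz gy f * gz * ev gx gz f * gx) * gx⁻¹ := by
      rw [e4, e5]
    _ = _ := by group

/-- `ω F = f F(ω ·) f⁻¹` for `ω : x ↦ y ↦ z ↦ x` -/
theorem omega_rel (h1 : f * ev gy gx f = 1) (h2 : ev gz gx f * ev gy gz f * f = 1) (w : F2hat) :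
    ev gy gz (gtEnd f w) = f * gtEnd f (ev gy gz w) * f⁻¹ := by
  let c : F2hat →ₜ* F2hat :=
    { toMonoidHom := (MulAut.conj f).toMonoidHom
      continuous_toFun := by
        change Continuous fun w : F2hat => f * w * f⁻¹
        fun_prop }
  have h : (ev gy gz).comp (gtEnd f) = (c.comp (gtEnd f)).comp (ev gy gz) := by
    apply ev_ext
    · change ev gy gz (gtEnd f gx) = f * gtEnd f (ev gy gz gx) * f⁻¹
      rw [gtEnd, ev_gx, ev_gx, ev_gy]
      group
    · change ev gy gz (gtEnd f gy) = f * gtEnd f (ev gy gz gy) * f⁻¹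
      rw [ev_gy, gtEnd_gz h1 h2, gtEnd, ev_gy, map_mul, map_mul, map_inv, ev_gy]
      have e : f * (ev gx gz f)⁻¹ = (ev gy gz f)⁻¹ := by
        have h := h2
        rw [rel_one' h1 gx gz] at h
        rw [mul_assoc] at h
        have h3 : ev gy gz f * f = ev gx gz f := inv_mul_eq_one.1 h |>.symm
        rw [← h3]
        group
      calc (ev gy gz f)⁻¹ * gz * ev gy gz f
          = (ev gy gz f)⁻¹ * gz * ((ev gy gz f)⁻¹)⁻¹ := by rw [inv_inv]
        _ = _ := by
          rw [← e]
          group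
  exact congrArg (fun k : F2hat →ₜ* F2hat => k w) h

end Relations

/-! ## Powers -/

theorem gtEnd_gx (f : F2hat) : gtEnd f gx = gx := ev_gx _ _

theorem gtPow_eq_nv (f : F2hat) (n : ℕ) : gtPow f n = nv (gtEnd f) n f := by
  induction n with
  | zero => rfl
  | succ n ih => rw [gtPow, ih, nv_succ]

theorem gtEnd_iterate_gx (f : F2hat) (n : ℕ) : (gtEnd f)^[n] gx = gx := by
  induction n with
  | zero => rfl
  | succ n ih => rw [Function.iterate_succ_apply, gtEnd_gx, ih]

theorem iterate_hom_mul (f : F2hat) (n : ℕ) (a b : F2hat) :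
    (gtEnd f)^[n] (a * b) = (gtEnd f)^[n] a * (gtEnd f)^[n] b := by
  induction n generalizing a b with
  | zero => rfl
  | succ n ih => rw [Function.iterate_succ_apply, map_mul, ih]; rfl

theorem iterate_hom_inv (f : F2hat) (n : ℕ) (a : F2hat) :
    (gtEnd f)^[n] a⁻¹ = ((gtEnd f)^[n] a)⁻¹ := by
  induction n generalizing a with
  | zero => rfl
  | succ n ih => rw [Function.iterate_succ_apply, map_inv, ih]; rfl

/-- if `F w = u⁻¹ w u` then `F^n w = (nv F n u)⁻¹ w (nv F n u)` -/
theorem iterate_conj (f u w : F2hat) (h : gtEnd f w = u⁻¹ * w * u) (n : ℕ) :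
    (gtEnd f)^[n] w = (nv (gtEnd f) n u)⁻¹ * w * nv (gtEnd f) n u := by
  induction n with
  | zero =>
    change w = 1⁻¹ * w * 1
    simp
  | succ n ih =>
    rw [Function.iterate_succ_apply', ih, map_mul, map_mul, map_inv, h, nv_succ]
    group

theorem nv_add (f : F2hat) (m l : ℕ) (v : F2hat) :
    nv (gtEnd f) (m + l) v = nv (gtEnd f) m v * (gtEnd f)^[m] (nv (gtEnd f) l v) := by
  induction m with
  | zero =>
    rw [Nat.zero_add]
    change _ = 1 * _
    rw [one_mul]
    rfl
  | succ m ih =>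
    rw [show m + 1 + l = (m + l) + 1 by ring, nv_succ, ih, map_mul, nv_succ, mul_assoc,
      ← Function.iterate_succ_apply' (gtEnd f)]

theorem nv_iterate (f : F2hat) (m k : ℕ) (v : F2hat) :
    nv ((gtEnd f)^[m]) k (nv (gtEnd f) m v) = nv (gtEnd f) (m * k) v := by
  induction k with
  | zero => rfl
  | succ k ih =>
    rw [nv_succ, ih, Nat.mul_succ, Nat.add_comm, nv_add]

/-- the automorphism of an element of finite order -/
theorem iterate_eq_of_gtPow {f : F2hat} {n : ℕ} (h : gtPow f n = 1) (w : F2hat) :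
    (gtEnd f)^[n] w = w := by
  have hc : ∀ n : ℕ, Continuous ((gtEnd f)^[n]) := fun n => (gtEnd f).continuous.iterate n
  let k : F2hat →ₜ* F2hat :=
    { toFun := (gtEnd f)^[n]
      map_one' := by
        have h1 := iterate_hom_mul f n 1 1
        rw [mul_one] at h1
        exact (mul_eq_left.1 h1.symm)
      map_mul' := iterate_hom_mul f n
      continuous_toFun := hc n }
  have hk : k = ContinuousMonoidHom.id F2hat := by
    apply ev_ext
    · exact gtEnd_iterate_gx f n
    · change (gtEnd f)^[n] gy = gy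
      rw [iterate_conj f f gy (ev_gy _ _), ← gtPow_eq_nv, h]
      simp
  exact congrArg (fun k : F2hat →ₜ* F2hat => k w) hk

/-- an endomorphism with `F^n = 1` as an automorphism -/
noncomputable def mkAut (k : F2hat →ₜ* F2hat) (n : ℕ) (hn : 0 < n) (h : ∀ w, k^[n] w = w) :
    F2hat ≃ₜ* F2hat where
  toFun := k
  invFun := k^[n - 1]
  left_inv := fun w => by
    rw [← Function.iterate_succ_apply k, Nat.succ_eq_add_one, Nat.sub_add_cancel hn, h]
  right_inv := fun w => by
    rw [← Function.iterate_succ_apply' k, Nat.succ_eq_add_one, Nat.sub_add_cancel hn, h]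
  map_mul' := map_mul k
  continuous_toFun := k.continuous
  continuous_invFun := k.continuous.iterate _

theorem mkAut_apply (k : F2hat →ₜ* F2hat) (n : ℕ) (hn : 0 < n) (h : ∀ w, k^[n] w = w)
    (w : F2hat) : mkAut k n hn h w = k w := rfl

/-- the iterates as homomorphisms -/
noncomputable def iterHom (f : F2hat) (m : ℕ) : F2hat →ₜ* F2hat where
  toFun := (gtEnd f)^[m]
  map_one' := by
    have h1 := iterate_hom_mul f m 1 1
    rw [mul_one] at h1
    exact (mul_eq_left.1 h1.symm)
  map_mul' := iterate_hom_mul f m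
  continuous_toFun := (gtEnd f).continuous.iterate m

theorem omega_omega (w : F2hat) : ev gy gz (ev gz gx w) = w := by
  have h : gz * gx = gy⁻¹ := by
    rw [gz]
    group
  have hz : ev gy gz gz = gx := by
    have h1 : ev gy gz gz = (ev gy gz gx * ev gy gz gy)⁻¹ := by
      rw [← map_mul, ← map_inv]
      rfl
    rw [h1, ev_gx, ev_gy, gz]
    group
  rw [ev_comp, ev_gx, hz, ev_self]

theorem omega_omega' (w : F2hat) : ev gz gx (ev gy gz w) = w := by
  have hz : ev gz gx gz = gy := by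
    have h1 : ev gz gx gz = (ev gz gx gx * ev gz gx gy)⁻¹ := by
      rw [← map_mul, ← map_inv]
      rfl
    rw [h1, ev_gx, ev_gy, gz]
    group
  rw [ev_comp, ev_gy, hz, ev_self]

/-- `(Inn u ∘ F)^n = Inn (nv F n u) ∘ F^n` -/
theorem inn_iterate (f u : F2hat) (n : ℕ) (w : F2hat) :
    (fun w => u * gtEnd f w * u⁻¹)^[n] w =
      nv (gtEnd f) n u * (gtEnd f)^[n] w * (nv (gtEnd f) n u)⁻¹ := by
  induction n generalizing w with
  | zero =>
    change w = 1 * w * 1⁻¹
    simp
  | succ n ih =>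
    rw [Function.iterate_succ_apply', ih, Function.iterate_succ_apply', nv_succ]
    simp only [map_mul, map_inv]
    group

section Relations

variable {f : F2hat} (h1 : f * ev gy gx f = 1) (h2 : ev gz gx f * ev gy gz f * f = 1)

include h1 h2

/-- the norm of `f(x, z)` is trivial if the order of `(1, f)` divides `n` -/
theorem nv_fz {n : ℕ} (hn : gtPow f n = 1) : nv (gtEnd f) n (ev gx gz f) = 1 := by
  have hfz : ev gx gz f = ev gy gz f * f := by
    have h := h2
    rw [rel_one' h1 gx gz, mul_assoc] at h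
    exact inv_mul_eq_one.1 h
  -- `ω (f F f⁻¹) = (f_z F f_z⁻¹) ω`
  have key : ∀ w, ev gy gz (f * gtEnd f w * f⁻¹) =
      ev gx gz f * gtEnd f (ev gy gz w) * (ev gx gz f)⁻¹ := by
    intro w
    rw [map_mul, map_mul, map_inv, omega_rel h1 h2, hfz]
    group
  have key2 : ∀ w, ev gy gz (ev gy gz (gtEnd f w)) =
      ev gx gz f * gtEnd f (ev gy gz (ev gy gz w)) * (ev gx gz f)⁻¹ := by
    intro w
    rw [omega_rel h1 h2 w, key]
  have key3 : ∀ k w, ev gy gz (ev gy gz ((gtEnd f)^[k] w)) =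
      (fun w => ev gx gz f * gtEnd f w * (ev gx gz f)⁻¹)^[k] (ev gy gz (ev gy gz w)) := by
    intro k
    induction k with
    | zero => intro w; rfl
    | succ k ih =>
      intro w
      rw [Function.iterate_succ_apply, ih, key2, Function.iterate_succ_apply]
  apply center_trivial (freeProf_F2hat)
  intro v
  have h3 := key3 n (ev gz gx (ev gz gx v))
  rw [iterate_eq_of_gtPow hn, inn_iterate, iterate_eq_of_gtPow hn, omega_omega, omega_omega] at h3
  have h4 := eq_mul_inv_iff_mul_eq.1 h3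
  exact h4.symm

/-- **`GT-hat^1` is torsion free.** -/
theorem gt_torsion_free (n : ℕ) (hn : 0 < n) (hf : gtPow f n = 1) : f = 1 := by
  classical
  by_contra hne
  -- the order
  have hex : ∃ n, 0 < n ∧ gtPow f n = 1 := ⟨n, hn, hf⟩
  obtain ⟨hN, hfN⟩ := Nat.find_spec hex
  set N := Nat.find hex with hNdef
  have hN1 : N ≠ 1 := by
    intro h
    rw [h] at hfN
    apply hne
    have h5 : gtPow f 1 = f * gtEnd f 1 := rfl
    rw [h5, map_one, mul_one] at hfN
    exact hfN
  obtain ⟨p, hp, m, hm⟩ := Nat.exists_prime_and_dvd hN1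
  have _ : Fact p.Prime := ⟨hp⟩
  have hm0 : 0 < m := by
    rcases Nat.eq_zero_or_pos m with h | h
    · rw [h, mul_zero] at hm
      omega
    · exact h
  have hmp : m * p = N := by rw [hm, mul_comm]
  have hmN : m < N := by
    rw [hm]
    exact (Nat.lt_mul_iff_one_lt_left hm0).2 hp.one_lt
  have hgm : gtPow f m ≠ 1 := by
    intro h
    exact Nat.find_min hex hmN ⟨hm0, h⟩
  -- the automorphism `G = F^m` of order `p`
  have hG : ∀ w, (iterHom f m)^[p] w = w := by
    intro w
    change ((gtEnd f)^[m])^[p] w = w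
    rw [← Function.iterate_mul, hmp, iterate_eq_of_gtPow hfN]
  let G : F2hat ≃ₜ* F2hat := mkAut (iterHom f m) p hp.pos hG
  have hGv : ∀ w, G w = (gtEnd f)^[m] w := fun _ => rfl
  have hmain := main_abstract (p := p) freeProf_F2hat G (fun w => hG w)
    (by rw [hGv, gtEnd_iterate_gx]) (nv (gtEnd f) m f) (nv (gtEnd f) m (ev gx gz f))
    (by
      rw [hGv, iterate_conj f f gy (ev_gy _ _)]
      group)
    (by
      have h6 := nv_iterate f m p f
      rw [hmp, ← gtPow_eq_nv f N, hfN] at h6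
      exact h6)
    (by
      have h7 : gx * gy = gz⁻¹ := by rw [gz, inv_inv]
      rw [hGv, h7, iterate_hom_inv, iterate_conj f (ev gx gz f) gz (gtEnd_gz h1 h2)]
      group)
    (by
      have h6 := nv_iterate f m p (ev gx gz f)
      rw [hmp, nv_fz h1 h2 hfN] at h6
      exact h6)
  -- `G = 1`, so `gtPow f m` has finite order
  have h8 : nv ((gtEnd f)^[m]) p (nv (gtEnd f) m f) = (nv (gtEnd f) m f) ^ p := by
    have h9 : ∀ k, nv ((gtEnd f)^[m]) k (nv (gtEnd f) m f) = (nv (gtEnd f) m f) ^ k := by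
      intro k
      induction k with
      | zero =>
        rw [pow_zero]
        rfl
      | succ k ih =>
        rw [nv_succ, ih, ← hGv, hmain, pow_succ']
    exact h9 p
  rw [nv_iterate, hmp, ← gtPow_eq_nv f N, hfN] at h8
  apply hgm
  rw [gtPow_eq_nv]
  exact torsion_free' freeProf_F2hat p hp.pos _ h8.symm

end Relations

end Pool.Agent.GTT
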