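import Pool.Agent.Lib.MP_2cc432_al.Zhat
import Pool.Agent.Lib.MP_2cc432_al.Main

/-!
# Powers `a ^ l`, `l ∈ Ẑ`, in profinite groups
-/

open Filter Topology Finset

namespace Pool.Agent.GTT

/-! ## Residues -/

theorem zp_val (l : Zhat) {m n : ℕ+} (h : (m : ℕ) ∣ n) : (((l.1 n).val : ℕ) : ZMod m) = l.1 m := by
  have h1 := l.2 m n h
  rw [← h1]
  conv_rhs => rw [← ZMod.natCast_zmod_val (l.1 n)]
  rw [map_natCast]

theorem zp_int (l : Zhat) {m n : ℕ+} (h : (m : ℕ) ∣ n) (k : ℤ) (hk : ((k : ℤ) : ZMod n) = l.1 n) :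
    ((k : ℤ) : ZMod m) = l.1 m := by
  rw [← l.2 m n h, ← hk, map_intCast]

theorem zp_pow {Q : Type*} [Group Q] (b : Q) (n : ℕ+) (hb : b ^ (n : ℕ) = 1) {k k' : ℤ}
    (h : ((k : ℤ) : ZMod n) = ((k' : ℤ) : ZMod n)) : b ^ k = b ^ k' := by
  have h1 : ((n : ℕ) : ℤ) ∣ k' - k := (ZMod.intCast_eq_intCast_iff_dvd_sub k k' (n : ℕ)).1 h
  obtain ⟨c, hc⟩ := h1
  have h2 : k' = k + n * c := by linarith
  rw [h2, zpow_add, zpow_mul, zpow_natCast, hb, one_zpow, mul_one]

/-- powers of `b` with exponents which agree with `l` -/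
theorem zp_pow_eq {Q : Type*} [Group Q] (b : Q) (l : Zhat) (n n' : ℕ+) (hb : b ^ (n : ℕ) = 1)
    (hb' : b ^ (n' : ℕ) = 1) {k k' : ℤ} (h : ((k : ℤ) : ZMod n) = l.1 n)
    (h' : ((k' : ℤ) : ZMod n') = l.1 n') : b ^ k = b ^ k' := by
  have hpos : 0 < orderOf b := orderOf_pos_iff.2 (isOfFinOrder_iff_pow_eq_one.2 ⟨n, n.2, hb⟩)
  let d : ℕ+ := ⟨orderOf b, hpos⟩
  have hd : (d : ℕ) = orderOf b := rfl
  have hdn : (d : ℕ) ∣ n := orderOf_dvd_of_pow_eq_one hb
  have hdn' : (d : ℕ) ∣ n' := orderOf_dvd_of_pow_eq_one hb'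
  have h1 := zp_int l hdn k h
  have h2 := zp_int l hdn' k' h'
  exact zp_pow b d (by rw [hd]; exact pow_orderOf_eq_one b) (h1.trans h2.symm)

section Pow

variable {G : Type} [Group G] [TopologicalSpace G] [IsTopologicalGroup G] [CompactSpace G]
  [T2Space G] [TotallyDisconnectedSpace G]
  {H : Type} [Group H] [TopologicalSpace H] [IsTopologicalGroup H] [CompactSpace H]
  [T2Space H] [TotallyDisconnectedSpace H]

omit [T2Space G] [TotallyDisconnectedSpace G] in
/-- the index of an open subgroup -/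
theorem zp_index (U : Subgroup G) [U.Normal] (hU : IsOpen (U : Set G)) :
    ∃ n : ℕ+, ∀ a : G, a ^ (n : ℕ) ∈ U := by
  have h1 : Finite (G ⧸ U) := Subgroup.quotient_finite_of_isOpen U hU
  have h2 : U.index ≠ 0 := Subgroup.index_ne_zero_of_finite
  exact ⟨⟨U.index, Nat.pos_of_ne_zero h2⟩, fun a => U.pow_index_mem a⟩

omit [T2Space G] in
theorem zp_ext {b c : G} (h : ∀ U : Subgroup G, ∀ _ : U.Normal, IsOpen (U : Set G) →
    QuotientGroup.mk' U b = QuotientGroup.mk' U c) : b = c := by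
  by_contra hbc
  have h1 : IsOpen ({b⁻¹ * c}ᶜ : Set G) := isOpen_compl_singleton
  have h2 : (1 : G) ∈ ({b⁻¹ * c}ᶜ : Set G) := by
    intro h3
    exact hbc (inv_mul_eq_one.1 (Set.mem_singleton_iff.1 h3).symm)
  obtain ⟨N, hN⟩ := ProfiniteGrp.exist_openNormalSubgroup_sub_open_nhds_of_one h1 h2
  have h3 := h N.toSubgroup inferInstance N.isOpen
  have h4 : b⁻¹ * c ∈ N.toSubgroup := QuotientGroup.eq.1 h3
  exact hN h4 rfl

omit [IsTopologicalGroup G] [CompactSpace G] [T2Space G] [TotallyDisconnectedSpace G] in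
theorem zp_mk {a b : G} {l : Zhat} (h : IsHpow a l b) (U : Subgroup G) [hn : U.Normal]
    (hU : IsOpen (U : Set G)) (n : ℕ+) (han : a ^ (n : ℕ) ∈ U) (k : ℤ)
    (hk : ((k : ℤ) : ZMod n) = l.1 n) :
    QuotientGroup.mk' U b = (QuotientGroup.mk' U a) ^ k := by
  have h1 : QuotientGroup.mk' U (a ^ (l.1 n).val) = QuotientGroup.mk' U b :=
    QuotientGroup.eq.2 (h U hn hU n han)
  have h2 : (QuotientGroup.mk' U a) ^ (n : ℕ) = 1 := by
    rw [← map_pow]
    exact (QuotientGroup.eq_one_iff _).2 han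
  rw [← h1, map_pow, ← zpow_natCast]
  refine zp_pow _ n h2 ?_
  rw [hk, Int.cast_natCast, ZMod.natCast_zmod_val]

omit [IsTopologicalGroup G] [CompactSpace G] [T2Space G] [TotallyDisconnectedSpace G] in
theorem zp_mk_iff {a b : G} {l : Zhat} : IsHpow a l b ↔ ∀ (U : Subgroup G) (_ : U.Normal),
    IsOpen (U : Set G) → ∀ n : ℕ+, a ^ (n : ℕ) ∈ U → ∃ k : ℤ, ((k : ℤ) : ZMod n) = l.1 n ∧
      QuotientGroup.mk' U b = (QuotientGroup.mk' U a) ^ k := by
  constructor
  · intro h U hn hU n han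
    refine ⟨(l.1 n).val, ?_, ?_⟩
    · rw [Int.cast_natCast, ZMod.natCast_zmod_val]
    · exact zp_mk h U hU n han _ (by rw [Int.cast_natCast, ZMod.natCast_zmod_val])
  · intro h U hn hU n han
    obtain ⟨k, hk, hb⟩ := h U hn hU n han
    refine QuotientGroup.eq.1 ?_
    have h2 : (QuotientGroup.mk' U a) ^ (n : ℕ) = 1 := by
      rw [← map_pow]
      exact (QuotientGroup.eq_one_iff _).2 han
    have h3 : QuotientGroup.mk' U (a ^ (l.1 n).val) = QuotientGroup.mk' U b := by
      rw [hb, map_pow, ← zpow_natCast]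
      refine zp_pow _ n h2 ?_
      rw [hk, Int.cast_natCast, ZMod.natCast_zmod_val]
    exact h3

omit [T2Space G] [TotallyDisconnectedSpace G] in
theorem zp_exists (a : G) (l : Zhat) : ∃ b : G, IsHpow a l b := by
  choose N hN using fun U : OpenNormalSubgroup G => zp_index U.toSubgroup U.isOpen
  let C : OpenNormalSubgroup G → Set G := fun U =>
    {b | (a ^ (l.1 (N U)).val)⁻¹ * b ∈ (U : Set G)}
  have hcl : ∀ U, IsClosed (C U) := by
    intro U
    have h1 : IsClosed (U.toSubgroup : Set G) := U.toSubgroup.isClosed_of_isOpen U.isOpen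
    exact h1.preimage (continuous_const.mul continuous_id)
  have hdir : Directed (· ⊇ ·) C := by
    have key : ∀ U W : OpenNormalSubgroup G, (∀ g, g ∈ W → g ∈ U) → C W ⊆ C U := by
      intro U W hWU b hb
      have h1 : (a ^ (l.1 (N W)).val)⁻¹ * b ∈ U := hWU _ hb
      have h2 : QuotientGroup.mk' U.toSubgroup (a ^ (l.1 (N W)).val) =
          QuotientGroup.mk' U.toSubgroup b := QuotientGroup.eq.2 h1
      have h3 : QuotientGroup.mk' U.toSubgroup (a ^ (l.1 (N U)).val) =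
          QuotientGroup.mk' U.toSubgroup (a ^ (l.1 (N W)).val) := by
        rw [map_pow, map_pow, ← zpow_natCast, ← zpow_natCast]
        refine zp_pow_eq _ l (N U) (N W) ?_ ?_ ?_ ?_
        · rw [← map_pow]
          exact (QuotientGroup.eq_one_iff _).2 (hN U a)
        · rw [← map_pow]
          exact (QuotientGroup.eq_one_iff _).2 (hWU _ (hN W a))
        · rw [Int.cast_natCast, ZMod.natCast_zmod_val]
        · rw [Int.cast_natCast, ZMod.natCast_zmod_val]
      exact QuotientGroup.eq.1 (h3.trans h2)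
    intro U V
    exact ⟨U ⊓ V, key U (U ⊓ V) fun g hg => hg.1, key V (U ⊓ V) fun g hg => hg.2⟩
  have hne : ∀ U, (C U).Nonempty := by
    intro U
    refine ⟨a ^ (l.1 (N U)).val, ?_⟩
    change (a ^ (l.1 (N U)).val)⁻¹ * a ^ (l.1 (N U)).val ∈ U.toSubgroup
    rw [inv_mul_cancel]
    exact U.toSubgroup.one_mem
  have hι : Nonempty (OpenNormalSubgroup G) :=
    ⟨{ toSubgroup := ⊤, isOpen' := isOpen_univ, isNormal' := inferInstance }⟩
  obtain ⟨b, hb⟩ := IsCompact.nonempty_iInter_of_directed_nonempty_isCompact_isClosed C hdir hne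
    (fun U => (hcl U).isCompact) hcl
  refine ⟨b, ?_⟩
  rw [zp_mk_iff]
  intro U hUn hU n han
  let U' : OpenNormalSubgroup G := { toSubgroup := U, isOpen' := hU, isNormal' := hUn }
  have h1 : (a ^ (l.1 (N U')).val)⁻¹ * b ∈ U := Set.mem_iInter.1 hb U'
  have h2 : QuotientGroup.mk' U (a ^ (l.1 (N U')).val) = QuotientGroup.mk' U b :=
    QuotientGroup.eq.2 h1
  refine ⟨(l.1 n).val, ?_, ?_⟩
  · rw [Int.cast_natCast, ZMod.natCast_zmod_val]
  · rw [← h2, map_pow, ← zpow_natCast]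
    refine zp_pow_eq _ l (N U') n ?_ ?_ ?_ ?_
    · rw [← map_pow]
      exact (QuotientGroup.eq_one_iff _).2 (hN U' a)
    · rw [← map_pow]
      exact (QuotientGroup.eq_one_iff _).2 han
    · rw [Int.cast_natCast, ZMod.natCast_zmod_val]
    · rw [Int.cast_natCast, ZMod.natCast_zmod_val]

set_option linter.unusedSectionVars false in
theorem isHpow_hpow (a : G) (l : Zhat) : IsHpow a l (hpow a l) :=
  Classical.epsilon_spec (zp_exists a l)

/-- homomorphisms with open kernel -/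
theorem zp_hom {Q : Type*} [Group Q] (φ : G →* Q) (hφ : IsOpen (φ.ker : Set G)) (a : G)
    (l : Zhat) (n : ℕ+) (hn : φ a ^ (n : ℕ) = 1) (k : ℤ) (hk : ((k : ℤ) : ZMod n) = l.1 n) :
    φ (hpow a l) = φ a ^ k := by
  have h1 : a ^ (n : ℕ) ∈ φ.ker := by
    rw [MonoidHom.mem_ker, map_pow, hn]
  have h2 := zp_mk (isHpow_hpow a l) φ.ker hφ n h1 k hk
  rw [← map_zpow] at h2
  have h3 : (hpow a l)⁻¹ * a ^ k ∈ φ.ker := QuotientGroup.eq.1 h2
  rw [MonoidHom.mem_ker, map_mul, map_inv, map_zpow, inv_mul_eq_one] at h3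
  exact h3

/-- uniqueness, the exponent may depend on the quotient -/
theorem zp_unique (a : G) (l : Zhat) (b : G) (hb : ∀ (U : Subgroup G) (_ : U.Normal),
    IsOpen (U : Set G) → ∃ n : ℕ+, a ^ (n : ℕ) ∈ U ∧ ∃ k : ℤ, ((k : ℤ) : ZMod n) = l.1 n ∧
      QuotientGroup.mk' U b = (QuotientGroup.mk' U a) ^ k) : hpow a l = b := by
  refine zp_ext fun U hUn hU => ?_
  obtain ⟨n, hn, k, hk, h⟩ := hb U hUn hU
  rw [h]
  exact zp_mk (isHpow_hpow a l) U hU n hn k hk

theorem hpow_unique (a : G) (l : Zhat) (b : G) (hb : IsHpow a l b) : hpow a l = b := by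
  refine zp_unique a l b fun U hUn hU => ?_
  obtain ⟨n, hn⟩ := zp_index U hU
  exact ⟨n, hn a, zp_mk_iff.1 hb U hUn hU n (hn a)⟩

/-- the value of `hpow` in a quotient -/
theorem zp_quot (U : Subgroup G) [U.Normal] (hU : IsOpen (U : Set G)) (a : G) (l : Zhat)
    (n : ℕ+) (hn : a ^ (n : ℕ) ∈ U) :
    QuotientGroup.mk' U (hpow a l) = (QuotientGroup.mk' U a) ^ (((l.1 n).val : ℕ) : ℤ) :=
  zp_mk (isHpow_hpow a l) U hU n hn _ (by rw [Int.cast_natCast, ZMod.natCast_zmod_val])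

theorem hpow_add (a : G) (l m : Zhat) : hpow a (l + m) = hpow a l * hpow a m := by
  refine zp_unique _ _ _ fun U hUn hU => ?_
  obtain ⟨n, hn⟩ := zp_index U hU
  refine ⟨n, hn a, (((l.1 n).val : ℕ) : ℤ) + (((m.1 n).val : ℕ) : ℤ), ?_, ?_⟩
  · rw [Int.cast_add, Int.cast_natCast, Int.cast_natCast, ZMod.natCast_zmod_val,
      ZMod.natCast_zmod_val]
    rfl
  · rw [map_mul, zp_quot U hU a l n (hn a), zp_quot U hU a m n (hn a), zpow_add]

theorem hpow_neg (a : G) (l : Zhat) : hpow a (-l) = (hpow a l)⁻¹ := by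
  refine zp_unique _ _ _ fun U hUn hU => ?_
  obtain ⟨n, hn⟩ := zp_index U hU
  refine ⟨n, hn a, -(((l.1 n).val : ℕ) : ℤ), ?_, ?_⟩
  · rw [Int.cast_neg, Int.cast_natCast, ZMod.natCast_zmod_val]
    rfl
  · rw [map_inv, zp_quot U hU a l n (hn a), zpow_neg]

theorem hpow_mul (a : G) (l m : Zhat) : hpow a (l * m) = hpow (hpow a l) m := by
  refine zp_unique _ _ _ fun U hUn hU => ?_
  obtain ⟨n, hn⟩ := zp_index U hU
  refine ⟨n, hn a, (((l.1 n).val : ℕ) : ℤ) * (((m.1 n).val : ℕ) : ℤ), ?_, ?_⟩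
  · rw [Int.cast_mul, Int.cast_natCast, Int.cast_natCast, ZMod.natCast_zmod_val,
      ZMod.natCast_zmod_val]
    rfl
  · rw [zp_quot U hU (hpow a l) m n (hn _), zp_quot U hU a l n (hn a), zpow_mul]

theorem hpow_intCast (a : G) (k : ℤ) : hpow a (k : Zhat) = a ^ k := by
  refine zp_unique _ _ _ fun U hUn hU => ?_
  obtain ⟨n, hn⟩ := zp_index U hU
  refine ⟨n, hn a, k, ?_, ?_⟩
  · rw [Subring.coe_intCast]
    rfl
  · rw [map_zpow]

theorem hpow_natCast (a : G) (k : ℕ) : hpow a (k : Zhat) = a ^ k := by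
  have h := hpow_intCast a (k : ℤ)
  rwa [Int.cast_natCast, zpow_natCast] at h

theorem hpow_one (a : G) : hpow a 1 = a := by
  have h := hpow_natCast a 1
  rwa [Nat.cast_one, pow_one] at h

theorem hpow_zero (a : G) : hpow a 0 = 1 := by
  have h := hpow_natCast a 0
  rwa [Nat.cast_zero, pow_zero] at h

theorem map_hpow (φ : G →* H) (hφ : Continuous φ) (a : G) (l : Zhat) :
    φ (hpow a l) = hpow (φ a) l := by
  refine zp_ext fun U hUn hU => ?_
  obtain ⟨n, hn⟩ := zp_index U hU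
  rw [zp_quot U hU (φ a) l n (hn _)]
  have h1 : IsOpen ((((QuotientGroup.mk' U).comp φ).ker : Subgroup G) : Set G) := by
    have h2 : ((((QuotientGroup.mk' U).comp φ).ker : Subgroup G) : Set G) = φ ⁻¹' (U : Set H) := by
      ext g
      simp [MonoidHom.mem_ker, QuotientGroup.eq_one_iff]
    rw [h2]
    exact hU.preimage hφ
  refine zp_hom ((QuotientGroup.mk' U).comp φ) h1 a l n ?_ _
    (by rw [Int.cast_natCast, ZMod.natCast_zmod_val])
  rw [MonoidHom.comp_apply, ← map_pow]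
  exact (QuotientGroup.eq_one_iff _).2 (hn _)

theorem one_hpow (l : Zhat) : hpow (1 : G) l = 1 := by
  have h : (1 : G →* G) (hpow (1 : G) l) = hpow ((1 : G →* G) 1) l :=
    map_hpow (1 : G →* G) continuous_const 1 l
  simpa using h.symm

theorem conj_hpow (g a : G) (l : Zhat) : g * hpow a l * g⁻¹ = hpow (g * a * g⁻¹) l := by
  refine map_hpow (MulAut.conj g).toMonoidHom ?_ a l
  change Continuous fun w : G => g * w * g⁻¹
  fun_prop

theorem hpow_commute {a b : G} (h : Commute a b) (l m : Zhat) :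
    Commute (hpow a l) (hpow b m) := by
  refine zp_ext fun U hUn hU => ?_
  obtain ⟨n, hn⟩ := zp_index U hU
  rw [map_mul, map_mul, zp_quot U hU a l n (hn a), zp_quot U hU b m n (hn b)]
  have h1 : Commute (QuotientGroup.mk' U a) (QuotientGroup.mk' U b) := h.map _
  exact (h1.zpow_zpow _ _).eq

theorem mul_hpow {a b : G} (h : Commute a b) (l : Zhat) :
    hpow (a * b) l = hpow a l * hpow b l := by
  refine zp_ext fun U hUn hU => ?_
  obtain ⟨n, hn⟩ := zp_index U hU
  rw [map_mul, zp_quot U hU a l n (hn a), zp_quot U hU b l n (hn b),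
    zp_quot U hU (a * b) l n (hn _), map_mul]
  have h1 : Commute (QuotientGroup.mk' U a) (QuotientGroup.mk' U b) := h.map _
  exact h1.mul_zpow _

/-- a closed subgroup containing `a` contains `a ^ l` -/
theorem hpow_mem (S : Subgroup G) (hS : IsClosed (S : Set G)) (a : G) (ha : a ∈ S) (l : Zhat) :
    hpow a l ∈ S := by
  by_contra hb
  have h1 : IsOpen ((fun u : G => hpow a l * u) ⁻¹' (S : Set G)ᶜ) :=
    hS.isOpen_compl.preimage (continuous_const.mul continuous_id)
  have h2 : (1 : G) ∈ ((fun u : G => hpow a l * u) ⁻¹' (S : Set G)ᶜ) := by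
    simpa using hb
  obtain ⟨N, hN⟩ := ProfiniteGrp.exist_openNormalSubgroup_sub_open_nhds_of_one h1 h2
  obtain ⟨n, hn⟩ := zp_index N.toSubgroup N.isOpen
  have h3 := zp_quot N.toSubgroup N.isOpen a l n (hn a)
  rw [← map_zpow] at h3
  have h4 : (hpow a l)⁻¹ * a ^ (((l.1 n).val : ℕ) : ℤ) ∈ N.toSubgroup := QuotientGroup.eq.1 h3
  have h5 := hN h4
  apply h5
  change hpow a l * ((hpow a l)⁻¹ * a ^ (((l.1 n).val : ℕ) : ℤ)) ∈ S
  rw [mul_inv_cancel_left]
  exact S.zpow_mem ha _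

/-- powers in finite quotients -/
theorem isHom_hpow {N : ℕ} [NeZero N] (δ : G → ZMod N) (hδ : IsHom δ) (a : G) (l : Zhat) :
    δ (hpow a l) = Zhat.mod N l * δ a := by
  let φ : G →* Multiplicative (ZMod N) :=
    MonoidHom.mk' (fun g => Multiplicative.ofAdd (δ g)) fun g h => by
      rw [hδ.mul, ofAdd_add]
  have hφ : ∀ g, Multiplicative.toAdd (φ g) = δ g := fun g => rfl
  have hker : IsOpen (φ.ker : Set G) := by
    have h1 : (φ.ker : Set G) = δ ⁻¹' {0} := by
      ext g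
      constructor
      · intro hg
        have h2 : φ g = 1 := hg
        have h3 := hφ g
        rw [h2, toAdd_one] at h3
        exact h3.symm
      · intro hg
        have h2 : δ g = 0 := hg
        change φ g = 1
        apply Multiplicative.toAdd.injective
        rw [hφ, h2, toAdd_one]
    rw [h1]
    exact hδ.lc.isOpen_fiber 0
  let n : ℕ+ := ⟨N, Nat.pos_of_ne_zero (NeZero.ne N)⟩
  have h1 : φ a ^ (n : ℕ) = 1 := by
    apply Multiplicative.toAdd.injective
    rw [toAdd_pow, toAdd_one, hφ]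
    change N • δ a = 0
    rw [nsmul_eq_mul, ZMod.natCast_self, zero_mul]
  have h2 := zp_hom φ hker a l n h1 (((l.1 n).val : ℕ) : ℤ)
    (by rw [Int.cast_natCast, ZMod.natCast_zmod_val])
  have h3 := congrArg Multiplicative.toAdd h2
  rw [toAdd_zpow, hφ, hφ] at h3
  rw [h3, natCast_zsmul, nsmul_eq_mul]
  congr 1
  exact ZMod.natCast_zmod_val (l.1 n)

/-- the same for functions which are additive on a closed subgroup -/
theorem isHom_hpow' {N : ℕ} [NeZero N] (d : G → ZMod N) (hd : IsLocallyConstant d)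
    (S : Subgroup G) (hS : IsClosed (S : Set G)) (hadd : ∀ g ∈ S, ∀ h ∈ S, d (g * h) = d g + d h)
    (a : G) (ha : a ∈ S) (l : Zhat) : d (hpow a l) = Zhat.mod N l * d a := by
  have hc : CompactSpace S := isCompact_iff_compactSpace.1 hS.isCompact
  have h1 : IsHom (fun g : S => d g.1) :=
    ⟨fun g h => hadd g.1 g.2 h.1 h.2, hd.comp_continuous continuous_subtype_val⟩
  have h2 := isHom_hpow (fun g : S => d g.1) h1 ⟨a, ha⟩ l
  have h3 : ((hpow (⟨a, ha⟩ : S) l : S) : G) = hpow a l :=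
    map_hpow S.subtype continuous_subtype_val ⟨a, ha⟩ l
  simp only at h2
  rwa [h3] at h2

/-- the exponents of an element of `F2hat` -/
theorem zp_exps_one (x y : F2hat) (hxy : FreeProf F2hat x y) (w : F2hat) : ∃ α : Zhat,
    ∀ (K : ProfiniteGrp.{0}) (φ : F2hat →ₜ* K), φ y = 1 → φ w = hpow (φ x) α := by
  choose θ hθlc hθx hθy using fun n : ℕ+ => hxy.lift (Multiplicative (ZMod n))
    (Multiplicative.ofAdd (1 : ZMod n)) 1
  -- agreement on the generators
  have agree : ∀ {Q : Type} [Group Q] (f g : F2hat →* Q), IsLocallyConstant f →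
      IsLocallyConstant g → f x = g x → f y = g y → ∀ v, f v = g v := by
    intro Q _ f g hf hg h1 h2 v
    let _ : TopologicalSpace Q := ⊥
    have _ : DiscreteTopology Q := ⟨rfl⟩
    have h3 : (MonoidHom.eqLocus f g) = ⊤ :=
      hxy.dense _ (isClosed_eq hf.continuous hg.continuous) h1 h2
    have h4 : v ∈ (MonoidHom.eqLocus f g) := h3 ▸ Subgroup.mem_top v
    exact h4
  have hcomp : ∀ (m n : ℕ+) (h : (m : ℕ) ∣ n),
      ZMod.castHom h (ZMod m) (Multiplicative.toAdd (θ n w)) = Multiplicative.toAdd (θ m w) := by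
    intro m n h
    have h1 := agree ((AddMonoidHom.toMultiplicative
      (ZMod.castHom h (ZMod m) : ZMod n →+ ZMod m)).comp (θ n)) (θ m)
      ((hθlc n).comp _) (hθlc m) ?_ ?_ w
    · exact congrArg Multiplicative.toAdd h1
    · rw [MonoidHom.comp_apply, hθx, hθx]
      apply Multiplicative.toAdd.injective
      change ZMod.castHom h (ZMod m) 1 = 1
      rw [map_one]
    · rw [MonoidHom.comp_apply, hθy, hθy, map_one]
  refine ⟨⟨fun n => Multiplicative.toAdd (θ n w), hcomp⟩, fun K φ hφ => ?_⟩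
  symm
  refine zp_unique _ _ _ fun U hUn hU => ?_
  obtain ⟨n, hn⟩ := zp_index U hU
  refine ⟨n, hn _, (((Multiplicative.toAdd (θ n w)).val : ℕ) : ℤ), ?_, ?_⟩
  · rw [Int.cast_natCast, ZMod.natCast_zmod_val]
  · have hpow1 : (QuotientGroup.mk' U (φ x)) ^ (n : ℕ) = 1 := by
      rw [← map_pow]
      exact (QuotientGroup.eq_one_iff _).2 (hn _)
    let A : ℤ →+ Additive (K ⧸ U) :=
      zmultiplesHom _ (Additive.ofMul (QuotientGroup.mk' U (φ x)))
    have hA : A (n : ℕ) = 0 := by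
      change (((n : ℕ) : ℤ)) • Additive.ofMul (QuotientGroup.mk' U (φ x)) = 0
      rw [natCast_zsmul, ← ofMul_pow, hpow1, ofMul_one]
    let B : Multiplicative (ZMod n) →* (K ⧸ U) :=
      AddMonoidHom.toMultiplicativeLeft (ZMod.lift n ⟨A, hA⟩)
    have hB : ∀ k : ℕ, B (Multiplicative.ofAdd ((k : ℕ) : ZMod n)) =
        (QuotientGroup.mk' U (φ x)) ^ k := by
      intro k
      change Additive.toMul (ZMod.lift n ⟨A, hA⟩ ((k : ℕ) : ZMod n)) = _
      have h1 := ZMod.lift_coe n ⟨A, hA⟩ (k : ℤ)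
      rw [Int.cast_natCast] at h1
      rw [h1]
      change Additive.toMul (((k : ℕ) : ℤ) • Additive.ofMul (QuotientGroup.mk' U (φ x))) = _
      rw [natCast_zsmul, ← ofMul_pow, toMul_ofMul]
    have hlc1 : IsLocallyConstant ((QuotientGroup.mk' U).comp (φ : F2hat →* K)) := by
      have h2 : IsLocallyConstant (QuotientGroup.mk' U) := by
        rw [IsLocallyConstant.iff_exists_open]
        intro k
        refine ⟨(fun u => k⁻¹ * u) ⁻¹' (U : Set K),
          hU.preimage (continuous_const.mul continuous_id), ?_, ?_⟩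
        · change k⁻¹ * k ∈ U
          rw [inv_mul_cancel]
          exact U.one_mem
        · intro k' hk'
          exact (QuotientGroup.eq.2 hk').symm
      exact h2.comp_continuous φ.continuous
    have h1 := agree ((QuotientGroup.mk' U).comp (φ : F2hat →* K)) (B.comp (θ n)) hlc1
      ((hθlc n).comp fun t => B t) ?_ ?_ w
    · have h2 := hB (Multiplicative.toAdd (θ n w)).val
      rw [ZMod.natCast_zmod_val, ofAdd_toAdd] at h2
      have h3 : QuotientGroup.mk' U (φ w) = B (θ n w) := h1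
      rw [h3, h2, zpow_natCast]
    · have h2 := hB 1
      rw [Nat.cast_one, pow_one] at h2
      rw [MonoidHom.comp_apply, MonoidHom.comp_apply, hθx, h2]
      rfl
    · rw [MonoidHom.comp_apply, MonoidHom.comp_apply, hθy, map_one]
      have h2 : (φ : F2hat →* K) y = 1 := hφ
      rw [h2, map_one]

theorem exists_exps (w : F2hat) : ∃ α β : Zhat,
    (∀ (K : ProfiniteGrp.{0}) (a : K), ev a 1 w = hpow a α ∧ ev 1 a w = hpow a β) ∧
    (∀ (K : ProfiniteGrp.{0}) (a b : K), Commute a b → ev a b w = hpow a α * hpow b β) := by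
  have hsymm : FreeProf F2hat gy gx := by
    refine ⟨fun S hS hy hx => dense_F2hat S hS hx hy, fun G _ _ a b => ?_⟩
    obtain ⟨φ, h1, h2, h3⟩ := freeProf_F2hat.lift G b a
    exact ⟨φ, h1, h3, h2⟩
  obtain ⟨α, hα⟩ := zp_exps_one gx gy freeProf_F2hat w
  obtain ⟨β, hβ⟩ := zp_exps_one gy gx hsymm w
  have hα' : ∀ (K : ProfiniteGrp.{0}) (a : K), ev a 1 w = hpow a α := by
    intro K a
    have h1 := hα K (ev a 1) (ev_gy _ _)
    rwa [ev_gx] at h1
  have hβ' : ∀ (K : ProfiniteGrp.{0}) (a : K), ev 1 a w = hpow a β := by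
    intro K a
    have h1 := hβ K (ev 1 a) (ev_gx _ _)
    rwa [ev_gy] at h1
  refine ⟨α, β, fun K a => ⟨hα' K a, hβ' K a⟩, fun K a b hab => ?_⟩
  have hcomm : ∀ v v' : F2hat, Commute (ev a 1 v) (ev 1 b v') := by
    intro v v'
    obtain ⟨α', h1⟩ := zp_exps_one gx gy freeProf_F2hat v
    obtain ⟨β', h2⟩ := zp_exps_one gy gx hsymm v'
    have h3 := h1 K (ev a 1) (ev_gy _ _)
    have h4 := h2 K (ev 1 b) (ev_gx _ _)
    rw [ev_gx] at h3
    rw [ev_gy] at h4
    rw [h3, h4]
    exact hpow_commute hab _ _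
  let c : F2hat →ₜ* K :=
    { toMonoidHom := MonoidHom.mk' (fun v => ev a 1 v * ev 1 b v) fun v v' => by
        rw [map_mul, map_mul]
        calc ev a 1 v * ev a 1 v' * (ev 1 b v * ev 1 b v')
            = ev a 1 v * (ev a 1 v' * ev 1 b v) * ev 1 b v' := by simp only [mul_assoc]
          _ = ev a 1 v * (ev 1 b v * ev a 1 v') * ev 1 b v' := by rw [(hcomm v' v).eq]
          _ = ev a 1 v * ev 1 b v * (ev a 1 v' * ev 1 b v') := by simp only [mul_assoc]
      continuous_toFun := (ev a 1).continuous.mul (ev 1 b).continuous }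
  have h : ev a b = c := by
    apply ev_ext
    · rw [ev_gx]
      change _ = ev a 1 gx * ev 1 b gx
      rw [ev_gx, ev_gx, mul_one]
    · rw [ev_gy]
      change _ = ev a 1 gy * ev 1 b gy
      rw [ev_gy, ev_gy, one_mul]
  rw [h]
  change ev a 1 w * ev 1 b w = _
  rw [hα', hβ']

end Pow

end Pool.Agent.GTT
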