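import Pool.Agent.Lib.MP_2cc432_al.Defs2

/-!
# Torsion in the profinite Grothendieck–Teichmüller group: derivations of free profinite groups
-/

open Filter Topology Finset

namespace Pool.Agent.GTT

section Free

/-- orbit maps of smooth actions are locally constant -/
theorem FREE_orbit_lc {𝔽 : Type} [Group 𝔽] [TopologicalSpace 𝔽] [IsTopologicalGroup 𝔽]
    {T : Type} [AddCommGroup T] (ρ : 𝔽 →* AddMonoid.End T) (hρ : Smooth ρ) (t : T) :
    IsLocallyConstant fun g => ρ g t := by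
  rw [IsLocallyConstant.iff_eventually_eq]
  intro g
  have h1 : Tendsto (fun h : 𝔽 => g⁻¹ * h) (𝓝 g) (𝓝 1) := by
    have h2 : Continuous fun h : 𝔽 => g⁻¹ * h := continuous_const.mul continuous_id
    have h3 := h2.tendsto g
    simpa using h3
  filter_upwards [h1.eventually (hρ t)] with h hh
  have h4 : ρ g (ρ (g⁻¹ * h) t) = ρ h t := by
    rw [← Function.comp_apply (f := ρ g), ← AddMonoid.End.coe_mul, ← map_mul,
      mul_inv_cancel_left]
  rw [← h4, hh]

/-- an automorphism `ρ g` inverts `ρ g⁻¹` -/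
theorem FREE_rho_inv {𝔽 : Type} [Group 𝔽] {T : Type} [AddCommGroup T]
    (ρ : 𝔽 →* AddMonoid.End T) (g : 𝔽) (t : T) : ρ g⁻¹ (ρ g t) = t := by
  rw [← Function.comp_apply (f := ρ g⁻¹), ← AddMonoid.End.coe_mul, ← map_mul,
    inv_mul_cancel, map_one]
  rfl

theorem FREE_rho_inv' {𝔽 : Type} [Group 𝔽] {T : Type} [AddCommGroup T]
    (ρ : 𝔽 →* AddMonoid.End T) (g : 𝔽) (t : T) : ρ g (ρ g⁻¹ t) = t := by
  rw [← Function.comp_apply (f := ρ g), ← AddMonoid.End.coe_mul, ← map_mul,
    mul_inv_cancel, map_one]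
  rfl

theorem FREE_rho_mul {𝔽 : Type} [Group 𝔽] {T : Type} [AddCommGroup T]
    (ρ : 𝔽 →* AddMonoid.End T) (g h : 𝔽) (t : T) : ρ (g * h) t = ρ g (ρ h t) := by
  rw [map_mul]
  rfl

/-- a closed subgroup containing the generators is everything: equalities of locally constant
functions -/
theorem FREE_closed {X T : Type} [TopologicalSpace X] (f f' : X → T)
    (hf : IsLocallyConstant f) (hf' : IsLocallyConstant f') : IsClosed {g | f g = f' g} := by
  have h1 : IsLocallyConstant fun g => (f g, f' g) := hf.prodMk hf'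
  have h2 := h1.isOpen_fiber
  have h3 : IsOpen ((fun g => (f g, f' g)) ⁻¹' {q : T × T | q.1 ≠ q.2}) := h1 _
  have h4 : {g | f g = f' g} = ((fun g => (f g, f' g)) ⁻¹' {q : T × T | q.1 ≠ q.2})ᶜ := by
    ext g
    simp
  rw [h4]
  exact h3.isClosed_compl

/-- affine permutations of a stable subgroup -/
def FREE_aff {𝔽 : Type} [Group 𝔽] {T : Type} [AddCommGroup T]
    (ρ : 𝔽 →* AddMonoid.End T) (T₀ : AddSubgroup T) (hT₀ : ∀ g, ∀ t ∈ T₀, ρ g t ∈ T₀)
    (g : 𝔽) (c : T₀) : Equiv.Perm T₀ where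
  toFun t := ⟨ρ g t + c, T₀.add_mem (hT₀ g t t.2) c.2⟩
  invFun t := ⟨ρ g⁻¹ (t - c), hT₀ g⁻¹ _ (T₀.sub_mem t.2 c.2)⟩
  left_inv t := Subtype.ext (by
    change ρ g⁻¹ (ρ g t + c - c) = t
    rw [add_sub_cancel_right, FREE_rho_inv])
  right_inv t := Subtype.ext (by
    change ρ g (ρ g⁻¹ (t - c)) + c = t
    rw [FREE_rho_inv', sub_add_cancel])

variable {𝔽 : Type} [Group 𝔽] [TopologicalSpace 𝔽] [IsTopologicalGroup 𝔽] [CompactSpace 𝔽]
  [T2Space 𝔽] [TotallyDisconnectedSpace 𝔽] {x y : 𝔽} {p : ℕ} [Fact p.Prime]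

/-- FREE -/
theorem exists_der (h : FreeProf 𝔽 x y) {T : Type} [AddCommGroup T] (hT : ∀ t : T, p • t = 0)
    (ρ : 𝔽 →* AddMonoid.End T) (hρ : Smooth ρ) (a b : T) :
    ∃ δ : 𝔽 → T, IsDer ρ δ ∧ δ x = a ∧ δ y = b := by
  have hlc := FREE_orbit_lc ρ hρ
  -- the finite stable subgroup
  set S : Set T := Set.range (fun g => ρ g a) ∪ Set.range (fun g => ρ g b) with hS
  have hSfin : S.Finite := (hlc a).range_finite.union (hlc b).range_finite
  set T₀ : AddSubgroup T := AddSubgroup.closure S with hT₀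
  have hfin : Finite T₀ := by
    have h1 : AddGroup.FG T₀ := by
      have : Finite S := hSfin
      exact AddGroup.closure_finite_fg S
    apply AddCommGroup.finite_of_fg_isAddTorsion
    intro t
    rw [isOfFinAddOrder_iff_nsmul_eq_zero]
    exact ⟨p, (Fact.out : p.Prime).pos, Subtype.ext (by
      rw [AddSubgroup.coe_nsmul, hT]
      rfl)⟩
  have hst : ∀ g, ∀ t ∈ T₀, ρ g t ∈ T₀ := by
    intro g t ht
    induction ht using AddSubgroup.closure_induction with
    | mem t ht =>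
      apply AddSubgroup.subset_closure
      rcases ht with ⟨k, rfl⟩ | ⟨k, rfl⟩
      · left
        exact ⟨g * k, FREE_rho_mul ρ g k a⟩
      · right
        exact ⟨g * k, FREE_rho_mul ρ g k b⟩
    | zero =>
      rw [map_zero]
      exact T₀.zero_mem
    | add u v _ _ hu hv =>
      rw [map_add]
      exact T₀.add_mem hu hv
    | neg u _ hu =>
      rw [map_neg]
      exact T₀.neg_mem hu
  have hone : ∀ t, ρ 1 t = t := fun t => by
    rw [map_one]
    rfl
  have haT : a ∈ T₀ := AddSubgroup.subset_closure (Or.inl ⟨1, hone a⟩)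
  have hbT : b ∈ T₀ := AddSubgroup.subset_closure (Or.inr ⟨1, hone b⟩)
  obtain ⟨φ, hφ, hφx, hφy⟩ := h.lift (Equiv.Perm T₀) (FREE_aff ρ T₀ hst x ⟨a, haT⟩)
    (FREE_aff ρ T₀ hst y ⟨b, hbT⟩)
  have hφt : ∀ t : T₀, IsLocallyConstant fun g => ((φ g t : T₀) : T) := fun t =>
    hφ.comp fun q : Equiv.Perm T₀ => ((q t : T₀) : T)
  -- the affine elements
  have hφmul : ∀ g k (t : T₀), φ (g * k) t = φ g (φ k t) := fun g k t => by
    rw [map_mul]
    rfl
  let H : Subgroup 𝔽 :=
    { carrier := {g | ∀ t : T₀, ((φ g t : T₀) : T) = ρ g t + (φ g 0 : T₀)}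
      one_mem' := by
        intro t
        rw [map_one, map_one]
        change (t : T) = (t : T) + ((0 : T₀) : T)
        rw [AddSubgroup.coe_zero, add_zero]
      mul_mem' := by
        intro g k hg hk t
        rw [hφmul, hφmul, hg (φ k t), hg (φ k 0), hk t, FREE_rho_mul, map_add, add_assoc]
      inv_mem' := by
        intro g hg t
        have key : ∀ t : T₀, ((φ g⁻¹ t : T₀) : T) = ρ g⁻¹ (t - (φ g 0 : T₀)) := by
          intro t
          have h1 : φ g (φ g⁻¹ t) = t := by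
            rw [← hφmul, mul_inv_cancel, map_one]
            rfl
          have h2 := hg (φ g⁻¹ t)
          rw [h1] at h2
          rw [h2, add_sub_cancel_right, FREE_rho_inv]
        rw [key t, key 0, AddSubgroup.coe_zero, zero_sub, map_sub, map_neg, sub_eq_add_neg] }
  have hHcl : IsClosed (H : Set 𝔽) := by
    have h1 : (H : Set 𝔽) = ⋂ t : T₀, {g | ((φ g t : T₀) : T) = ρ g t + (φ g 0 : T₀)} := by
      ext g
      simp only [Set.mem_iInter, Set.mem_ofPred_eq]
      exact Iff.rfl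
    rw [h1]
    apply isClosed_iInter
    intro t
    exact FREE_closed _ _ (hφt t) ((hlc t).add (hφt 0))
  have hHtop : H = ⊤ := by
    apply h.dense H hHcl
    · intro t
      rw [hφx]
      change ρ x t + a = ρ x t + (ρ x ((0 : T₀) : T) + a)
      rw [AddSubgroup.coe_zero, map_zero, zero_add]
    · intro t
      rw [hφy]
      change ρ y t + b = ρ y t + (ρ y ((0 : T₀) : T) + b)
      rw [AddSubgroup.coe_zero, map_zero, zero_add]
  have hall : ∀ g (t : T₀), ((φ g t : T₀) : T) = ρ g t + (φ g 0 : T₀) := by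
    intro g
    have h1 : g ∈ H := by
      rw [hHtop]
      trivial
    exact h1
  refine ⟨fun g => ((φ g 0 : T₀) : T), ⟨fun g k => ?_, hφt 0⟩, ?_, ?_⟩
  · rw [hφmul, hall g (φ k 0), add_comm]
  · change ((φ x 0 : T₀) : T) = a
    rw [hφx]
    change ρ x ((0 : T₀) : T) + a = a
    rw [AddSubgroup.coe_zero, map_zero, zero_add]
  · change ((φ y 0 : T₀) : T) = b
    rw [hφy]
    change ρ y ((0 : T₀) : T) + b = b
    rw [AddSubgroup.coe_zero, map_zero, zero_add]

/-- FREE -/
theorem der_ext (h : FreeProf 𝔽 x y) {T : Type} [AddCommGroup T]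
    (ρ : 𝔽 →* AddMonoid.End T) (hρ : Smooth ρ) {δ δ' : 𝔽 → T} (hδ : IsDer ρ δ)
    (hδ' : IsDer ρ δ') (hx : δ x = δ' x) (hy : δ y = δ' y) : δ = δ' := by
  have h1 : ∀ {d : 𝔽 → T}, IsDer ρ d → d 1 = 0 := by
    intro d hd
    have h2 := hd.mul 1 1
    rw [mul_one, map_one] at h2
    change d 1 = d 1 + d 1 at h2
    exact left_eq_add.1 h2
  have h2 : ∀ {d : 𝔽 → T}, IsDer ρ d → ∀ g, d g⁻¹ = - ρ g⁻¹ (d g) := by
    intro d hd g
    have h3 := hd.mul g⁻¹ g
    rw [inv_mul_cancel, h1 hd] at h3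
    exact eq_neg_of_add_eq_zero_left h3.symm
  let H : Subgroup 𝔽 :=
    { carrier := {g | δ g = δ' g}
      one_mem' := by
        change δ 1 = δ' 1
        rw [h1 hδ, h1 hδ']
      mul_mem' := by
        intro g k hg hk
        change δ g = δ' g at hg
        change δ k = δ' k at hk
        change δ (g * k) = δ' (g * k)
        rw [hδ.mul, hδ'.mul, hg, hk]
      inv_mem' := by
        intro g hg
        change δ g = δ' g at hg
        change δ g⁻¹ = δ' g⁻¹
        rw [h2 hδ, h2 hδ', hg] }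
  have hH : H = ⊤ := h.dense H (FREE_closed _ _ hδ.lc hδ'.lc) hx hy
  funext g
  have h3 : g ∈ H := by
    rw [hH]
    trivial
  exact h3

/-- FREE: a continuous map `κ` to an open subgroup with `κ (v g) = v κ g` -/
theorem exists_section (V : Subgroup 𝔽) (hV : IsOpen (V : Set 𝔽)) :
    ∃ κ : 𝔽 → V, Continuous κ ∧ (∀ (v : V) (g : 𝔽), κ (v * g) = v * κ g) ∧ κ 1 = 1 := by
  classical
  let q : 𝔽 → Quotient (QuotientGroup.rightRel V) := fun g => Quotient.mk _ g
  have hq : ∀ g k, q g = q k ↔ k * g⁻¹ ∈ V := by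
    intro g k
    rw [Quotient.eq]
    exact QuotientGroup.rightRel_apply
  let r : 𝔽 → 𝔽 := fun g => if g ∈ V then 1 else (q g).out
  have hrV : ∀ g, g * (r g)⁻¹ ∈ V := by
    intro g
    by_cases hg : g ∈ V
    · simp only [r, if_pos hg, inv_one, mul_one]
      exact hg
    · simp only [r, if_neg hg]
      have h1 : q (q g).out = q g := Quotient.out_eq _
      exact (hq _ _).1 h1
  have hrv : ∀ v ∈ V, ∀ g, r (v * g) = r g := by
    intro v hv g
    have h1 : v * g ∈ V ↔ g ∈ V := Subgroup.mul_mem_cancel_left V hv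
    by_cases hg : g ∈ V
    · simp only [r, if_pos hg, if_pos (h1.2 hg)]
    · simp only [r, if_neg hg, if_neg (fun h2 => hg (h1.1 h2))]
      have h2 : q (v * g) = q g := by
        rw [hq, mul_inv_rev, mul_inv_cancel_left]
        exact V.inv_mem hv
      rw [h2]
  have hrlc : IsLocallyConstant r := by
    rw [IsLocallyConstant.iff_eventually_eq]
    intro g
    have h1 : Tendsto (fun k : 𝔽 => k * g⁻¹) (𝓝 g) (𝓝 1) := by
      have h2 : Continuous fun k : 𝔽 => k * g⁻¹ := continuous_id.mul continuous_const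
      have h3 := h2.tendsto g
      simpa using h3
    have h4 : ∀ᶠ k in 𝓝 (1 : 𝔽), k ∈ V := hV.mem_nhds V.one_mem
    filter_upwards [h1.eventually h4] with k hk
    have h5 := hrv _ hk g
    rwa [inv_mul_cancel_right] at h5
  refine ⟨fun g => ⟨g * (r g)⁻¹, hrV g⟩, ?_, ?_, ?_⟩
  · exact (continuous_id.mul hrlc.continuous.inv).subtype_mk _
  · intro v g
    apply Subtype.ext
    change v * g * (r (v * g))⁻¹ = v * (g * (r g)⁻¹)
    rw [hrv v v.2, mul_assoc]
  · apply Subtype.ext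
    change (1 : 𝔽) * (r 1)⁻¹ = 1
    simp only [r, if_pos V.one_mem, inv_one, mul_one]

end Free

end Pool.Agent.GTT
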