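import Pool.Agent.Lib.MP_2cc432_al.Defs2
import Pool.Agent.Lib.MP_2cc432_al.Free

/-!
# Duality: derivations with prescribed values at the cusps
-/

open Filter Topology Finset

namespace Pool.Agent.GTT

section PD

variable {𝔽 : Type} [Group 𝔽] {p : ℕ}

/-- the coinduced module -/
def pdT (V : Subgroup 𝔽) (φ : V → ZMod p) : AddSubgroup (𝔽 → ZMod p × ZMod p) where
  carrier := {m | ∀ (v : V) (h : 𝔽), m (v * h) = ((m h).1 + φ v * (m h).2, (m h).2)}
  add_mem' := by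
    intro a b ha hb v h
    simp only [Pi.add_apply, ha v h, hb v h, Prod.mk_add_mk, Prod.fst_add, Prod.snd_add]
    congr 1
    ring
  zero_mem' := by
    intro v h
    simp only [Pi.zero_apply, Prod.fst_zero, Prod.snd_zero, mul_zero, add_zero]
    rfl
  neg_mem' := by
    intro a ha v h
    simp only [Pi.neg_apply, ha v h, Prod.neg_mk, Prod.fst_neg, Prod.snd_neg]
    congr 1
    ring

theorem pdT_apply {V : Subgroup 𝔽} {φ : V → ZMod p} (m : pdT V φ) (v : V) (h : 𝔽) :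
    m.1 (v * h) = ((m.1 h).1 + φ v * (m.1 h).2, (m.1 h).2) := m.2 v h

/-- the action by right translations -/
def pdρ (V : Subgroup 𝔽) (φ : V → ZMod p) : 𝔽 →* AddMonoid.End (pdT V φ) where
  toFun g :=
    { toFun := fun m => ⟨fun h => m.1 (h * g), fun v h => by
        change m.1 (v * h * g) = _
        rw [mul_assoc]
        exact m.2 v (h * g)⟩
      map_zero' := rfl
      map_add' := fun _ _ => rfl }
  map_one' := by
    refine AddMonoidHom.ext fun m => Subtype.ext (funext fun h => ?_)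
    change m.1 (h * 1) = m.1 h
    rw [mul_one]
  map_mul' g g' := by
    refine AddMonoidHom.ext fun m => Subtype.ext (funext fun h => ?_)
    change m.1 (h * (g * g')) = m.1 (h * g * g')
    rw [mul_assoc]

theorem pdρ_apply {V : Subgroup 𝔽} {φ : V → ZMod p} (g : 𝔽) (m : pdT V φ) (h : 𝔽) :
    (pdρ V φ g m).1 h = m.1 (h * g) := rfl

variable [TopologicalSpace 𝔽] [IsTopologicalGroup 𝔽] [CompactSpace 𝔽]

/-- elements near `1` have all conjugates in a neighbourhood of `1` -/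
theorem pd_conj_near (K : Set 𝔽) (hK : K ∈ 𝓝 (1 : 𝔽)) :
    ∀ᶠ g in 𝓝 (1 : 𝔽), ∀ h : 𝔽, h * g * h⁻¹ ∈ K := by
  have h := isCompact_univ.eventually_forall_of_forall_eventually (x₀ := (1 : 𝔽))
    (P := fun g h : 𝔽 => h * g * h⁻¹ ∈ K) (fun h _ => by
      have hc : Continuous fun q : 𝔽 × 𝔽 => q.2 * q.1 * q.2⁻¹ :=
        (continuous_snd.mul continuous_fst).mul continuous_snd.inv
      have h1 : Tendsto (fun q : 𝔽 × 𝔽 => q.2 * q.1 * q.2⁻¹) (𝓝 (1, h)) (𝓝 1) := by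
        have h2 := hc.tendsto (1, h)
        simpa using h2
      exact h1 hK)
  filter_upwards [h] with g hg h'
  exact hg h' (Set.mem_univ _)

theorem pd_smooth (V : Subgroup 𝔽) (hV : IsOpen (V : Set 𝔽)) (φ : V → ZMod p)
    (hφ : IsHom φ) : Smooth (pdρ V φ) := by
  have hφ1 : φ 1 = 0 := by
    have := hφ.mul 1 1
    rw [mul_one] at this
    simpa using this
  -- a neighbourhood of `1` on which `φ` vanishes
  have hK : {g : 𝔽 | ∃ hg : g ∈ V, φ ⟨g, hg⟩ = 0} ∈ 𝓝 (1 : 𝔽) := by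
    have h1 : ∀ᶠ v : V in 𝓝 (1 : V), φ v = 0 := by
      have := hφ.lc.eventually_eq (1 : V)
      rwa [hφ1] at this
    have h2 : Subtype.val '' {v : V | φ v = 0} ∈ 𝓝 (((1 : V) : 𝔽)) :=
      (hV.isOpenEmbedding_subtypeVal.isOpenMap).image_mem_nhds h1
    refine Filter.mem_of_superset h2 ?_
    rintro _ ⟨v, hv, rfl⟩
    exact ⟨v.2, hv⟩
  intro m
  filter_upwards [pd_conj_near _ hK] with g hg
  refine Subtype.ext (funext fun h => ?_)
  rw [pdρ_apply]
  obtain ⟨h1, h2⟩ := hg h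
  have h3 : h * g = (⟨h * g * h⁻¹, h1⟩ : V) * h := by simp
  rw [h3, pdT_apply, h2]
  simp

omit [CompactSpace 𝔽] in
theorem pd_lc {T : Type} [AddCommGroup T] (ρ : 𝔽 →* AddMonoid.End T) (hρ : Smooth ρ) (t : T) :
    IsLocallyConstant fun g => ρ g t := by
  rw [IsLocallyConstant.iff_eventually_eq]
  intro g
  have h1 : Tendsto (fun g' : 𝔽 => g⁻¹ * g') (𝓝 g) (𝓝 1) := by
    have h2 : Continuous fun g' : 𝔽 => g⁻¹ * g' := continuous_const.mul continuous_id
    have h3 := h2.tendsto g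
    simpa using h3
  filter_upwards [h1.eventually (hρ t)] with g' hg'
  have h2 : g' = g * (g⁻¹ * g') := by group
  rw [h2, map_mul, AddMonoid.End.coe_mul, Function.comp_apply, hg']

omit [CompactSpace 𝔽] in
/-- `g t - t` is in `(x - 1) T + (y - 1) T` -/
theorem pd_augment [CompactSpace 𝔽] {x y : 𝔽} (h : FreeProf 𝔽 x y) {T : Type} [AddCommGroup T]
    (ρ : 𝔽 →* AddMonoid.End T) (hρ : Smooth ρ) (g : 𝔽) (t : T) :
    ∃ a b, ρ g t - t = (ρ x a - a) + (ρ y b - b) := by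
  let N : AddSubgroup T :=
    { carrier := {t | ∃ a b, t = (ρ x a - a) + (ρ y b - b)}
      add_mem' := by
        rintro _ _ ⟨a, b, rfl⟩ ⟨a', b', rfl⟩
        refine ⟨a + a', b + b', ?_⟩
        rw [map_add, map_add]
        abel
      zero_mem' := ⟨0, 0, by simp⟩
      neg_mem' := by
        rintro _ ⟨a, b, rfl⟩
        refine ⟨-a, -b, ?_⟩
        rw [map_neg, map_neg]
        abel }
  let S : Subgroup 𝔽 :=
    { carrier := {g | ∀ t, ρ g t - t ∈ N}
      mul_mem' := by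
        intro g g' hg hg' t
        have h1 : ρ (g * g') t - t = (ρ g (ρ g' t) - ρ g' t) + (ρ g' t - t) := by
          rw [map_mul, AddMonoid.End.coe_mul, Function.comp_apply]
          abel
        rw [h1]
        exact N.add_mem (hg _) (hg' _)
      one_mem' := by
        intro t
        rw [map_one]
        change t - t ∈ N
        rw [sub_self]
        exact N.zero_mem
      inv_mem' := by
        intro g hg t
        have h1 : ρ g⁻¹ t - t = -(ρ g (ρ g⁻¹ t) - ρ g⁻¹ t) := by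
          have h2 : ρ g (ρ g⁻¹ t) = t := by
            rw [← Function.comp_apply (f := ρ g), ← AddMonoid.End.coe_mul, ← map_mul,
              mul_inv_cancel, map_one]
            rfl
          rw [h2]
          abel
        rw [h1]
        exact N.neg_mem (hg _) }
  have hS : IsClosed (S : Set 𝔽) := by
    have h1 : (S : Set 𝔽) = ⋂ t, {g | ρ g t - t ∈ N} := by
      ext g
      simp [S, Set.mem_iInter]
    rw [h1]
    refine isClosed_iInter fun t => ?_
    have h2 := pd_lc ρ hρ t {s | s - t ∈ N}ᶜ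
    rw [Set.preimage_compl] at h2
    exact isOpen_compl_iff.mp h2
  have hx : x ∈ S := fun t => ⟨t, 0, by simp⟩
  have hy : y ∈ S := fun t => ⟨0, t, by simp⟩
  have hg : g ∈ S := by
    rw [h.dense S hS hx hy]
    trivial
  exact hg t

theorem pd_hom_one {V : Type} [Group V] [TopologicalSpace V] {φ : V → ZMod p} (hφ : IsHom φ) :
    φ 1 = 0 := by
  have := hφ.mul 1 1
  rw [mul_one] at this
  simpa using this

theorem pd_hom_pow {V : Type} [Group V] [TopologicalSpace V] {φ : V → ZMod p} (hφ : IsHom φ)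
    (v : V) (n : ℕ) : φ (v ^ n) = n * φ v := by
  induction n with
  | zero => simp [pd_hom_one hφ]
  | succ n ih =>
    rw [pow_succ, hφ.mul, ih]
    push_cast
    ring

omit [IsTopologicalGroup 𝔽] [CompactSpace 𝔽] in
/-- the value at `1` of a derivation at a conjugate -/
theorem pd_conj {V : Subgroup 𝔽} {φ : V → ZMod p} {δ : 𝔽 → pdT V φ} (hδ : IsDer (pdρ V φ) δ)
    (g b : 𝔽) (hv : g⁻¹ * b * g ∈ V) (h0 : φ ⟨_, hv⟩ = 0) :
    (δ (g⁻¹ * b * g)).1 1 = (δ b).1 g⁻¹ := by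
  have h1 : δ g⁻¹ = -(pdρ V φ g⁻¹ (δ g)) := by
    have h2 := hδ.mul g⁻¹ g
    rw [inv_mul_cancel] at h2
    have h3 := hδ.mul 1 1
    rw [mul_one, map_one] at h3
    have h4 : δ 1 = 0 := by
      have h5 : δ 1 = δ 1 + δ 1 := h3
      simpa using h5
    rw [h4] at h2
    exact eq_neg_of_add_eq_zero_left h2.symm
  have h2 : (δ g).1 (g⁻¹ * b) = (δ g).1 g⁻¹ := by
    have h3 : g⁻¹ * b = (⟨g⁻¹ * b * g, hv⟩ : V) * g⁻¹ := by simp
    rw [h3, pdT_apply, h0]
    simp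
  rw [hδ.mul, hδ.mul, h1]
  change (-((δ g).1 (1 * g⁻¹)) + (δ b).1 (1 * g⁻¹)) + (δ g).1 (1 * (g⁻¹ * b)) = _
  rw [one_mul, one_mul, h2]
  abel

omit [IsTopologicalGroup 𝔽] [CompactSpace 𝔽] in
theorem pd_pow_sub {V : Subgroup 𝔽} {φ : V → ZMod p} {δ : 𝔽 → pdT V φ}
    (hδ : IsDer (pdρ V φ) δ) (a : 𝔽) (b : pdT V φ) (ha : δ a = pdρ V φ a b - b) (n : ℕ) :
    δ (a ^ n) = pdρ V φ (a ^ n) b - b := by
  induction n with
  | zero =>
    have h3 := hδ.mul 1 1
    rw [mul_one, map_one] at h3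
    have h4 : δ 1 = 0 := by
      have h5 : δ 1 = δ 1 + δ 1 := h3
      simpa using h5
    rw [pow_zero, h4, map_one]
    change 0 = b - b
    rw [sub_self]
  | succ n ih =>
    rw [pow_succ, hδ.mul, ih, ha, map_sub, map_mul, AddMonoid.End.coe_mul, Function.comp_apply]
    abel

omit [IsTopologicalGroup 𝔽] [CompactSpace 𝔽] in
theorem pd_pow_sum {V : Subgroup 𝔽} {φ : V → ZMod p} {δ : 𝔽 → pdT V φ}
    (hδ : IsDer (pdρ V φ) δ) (a : 𝔽) (n : ℕ) (g : 𝔽) :
    (δ (a ^ n)).1 g = ∑ i ∈ range n, (δ a).1 (g * a ^ i) := by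
  induction n with
  | zero =>
    have h3 := hδ.mul 1 1
    rw [mul_one, map_one] at h3
    have h4 : δ 1 = 0 := by
      have h5 : δ 1 = δ 1 + δ 1 := h3
      simpa using h5
    rw [pow_zero, h4]
    rfl
  | succ n ih =>
    rw [pow_succ, hδ.mul, sum_range_succ, ← ih]
    rfl

end PD

section Free

variable {𝔽 : Type} [Group 𝔽] [TopologicalSpace 𝔽] [IsTopologicalGroup 𝔽] [CompactSpace 𝔽]
  [T2Space 𝔽] [TotallyDisconnectedSpace 𝔽] {x y : 𝔽} {p : ℕ} [Fact p.Prime]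

/-- PD: duality -/
theorem duality (h : FreeProf 𝔽 x y) (V : Subgroup 𝔽) [V.Normal] (hV : IsOpen (V : Set 𝔽))
    (φ : V → ZMod p) (hφ : IsHom φ) (hur : Unram x y V φ) (hne : ∃ v, φ v ≠ 0) :
    ∃ ψ d : V → ZMod p, IsHom ψ ∧ IsLocallyConstant d ∧
      (∀ g h, d (g * h) = d g + d h + φ g * ψ h) ∧ Unram x y V ψ ∧
      (∀ a, (a = y ∨ a = x * y) → ∀ (g : 𝔽) (n : ℕ) (h : g⁻¹ * a ^ n * g ∈ V), d ⟨_, h⟩ = 0) ∧
      (∀ (g : 𝔽) (n : ℕ) (h : g⁻¹ * x ^ n * g ∈ V), (∀ i : ℕ, g⁻¹ * x ^ i ∉ V) → d ⟨_, h⟩ = 0) ∧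
      (∀ h : x ^ orderOf (QuotientGroup.mk x : 𝔽 ⧸ V) ∈ V, d ⟨_, h⟩ = 1) := by
  classical
  -- an element with `φ v₀ = 1`
  obtain ⟨v₀, hv₀⟩ : ∃ v, φ v = 1 := by
    obtain ⟨v, hv⟩ := hne
    refine ⟨v ^ ((φ v)⁻¹).val, ?_⟩
    rw [pd_hom_pow hφ, ZMod.natCast_zmod_val, inv_mul_cancel₀ hv]
  set ρ := pdρ V φ with hρdef
  have hρ : Smooth ρ := pd_smooth V hV φ hφ
  -- the function `m`
  let m : pdT V φ := ⟨fun g => if g ∈ V then (1, 0) else 0, by
    intro v g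
    have : (v : 𝔽) * g ∈ V ↔ g ∈ V := V.mul_mem_cancel_left v.2
    simp only [this]
    split_ifs
    · simp
    · simp only [Prod.fst_zero, Prod.snd_zero, mul_zero, add_zero]
      rfl⟩
  let e : pdT V φ := ⟨fun g => if hg : g ∈ V then (φ ⟨g, hg⟩, 1) else 0, by
    intro v g
    by_cases hg : g ∈ V
    · have hvg : (v : 𝔽) * g ∈ V := V.mul_mem v.2 hg
      simp only [dif_pos hg, dif_pos hvg]
      have h1 : (⟨(v : 𝔽) * g, hvg⟩ : V) = v * ⟨g, hg⟩ := rfl
      rw [h1, hφ.mul]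
      simp [add_comm]
    · have hvg : (v : 𝔽) * g ∉ V := fun h' => hg ((V.mul_mem_cancel_left v.2).mp h')
      simp only [dif_neg hg, dif_neg hvg, Prod.fst_zero, Prod.snd_zero, mul_zero, add_zero]
      rfl⟩
  have hme : m = ρ v₀ e - e := by
    refine Subtype.ext (funext fun g => ?_)
    change m.1 g = e.1 (g * v₀) - e.1 g
    by_cases hg : g ∈ V
    · have hgv : g * v₀ ∈ V := V.mul_mem hg v₀.2
      simp only [m, e, if_pos hg, dif_pos hg, dif_pos hgv]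
      have h1 : (⟨g * v₀, hgv⟩ : V) = ⟨g, hg⟩ * v₀ := rfl
      rw [h1, hφ.mul, hv₀]
      simp
    · have hgv : g * v₀ ∉ V := fun h' => hg ((V.mul_mem_cancel_right v₀.2).mp h')
      simp only [m, e, if_neg hg, dif_neg hg, dif_neg hgv, sub_zero]
  -- solve the equation
  obtain ⟨a, b, hab⟩ : ∃ a b : pdT V φ,
      m = (ρ (x * y) a - a) - ρ x (ρ y b - b) := by
    obtain ⟨a₁, b₁, h1⟩ := pd_augment h ρ hρ v₀ e
    obtain ⟨a₂, b₂, h2⟩ := pd_augment h ρ hρ x⁻¹ m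
    have hinv : ρ x (ρ x⁻¹ m) = m := by
      rw [← Function.comp_apply (f := ρ x), ← AddMonoid.End.coe_mul, ← map_mul,
        mul_inv_cancel, map_one]
      rfl
    have h3 : ρ x⁻¹ m = (ρ x (a₁ + a₂) - (a₁ + a₂)) + (ρ y (b₁ + b₂) - (b₁ + b₂)) := by
      have h4 : ρ x⁻¹ m = (ρ x⁻¹ m - m) + m := by abel
      rw [h4, h2, hme, h1, map_add, map_add]
      abel
    -- `a = x (a₁ + a₂)`, `b = a - (b₁ + b₂)`
    refine ⟨ρ x (a₁ + a₂), ρ x (a₁ + a₂) - (b₁ + b₂), ?_⟩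
    have h5 : m = ρ x ((ρ x (a₁ + a₂) - (a₁ + a₂)) + (ρ y (b₁ + b₂) - (b₁ + b₂))) := by
      rw [← h3, hinv]
    rw [h5, map_mul, AddMonoid.End.coe_mul, Function.comp_apply]
    simp only [map_add, map_sub]
    abel
  obtain ⟨δ, hδ, hδx, hδy⟩ := exists_der h (p := p) (T := pdT V φ)
    (fun t => by
      refine Subtype.ext (funext fun g => ?_)
      change p • t.1 g = 0
      ext <;> simp) ρ hρ m (ρ y b - b)
  have hδxy : δ (x * y) = ρ (x * y) a - a := by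
    rw [hδ.mul, hδx, hδy, hab]
    abel
  have hmul : ∀ v w : V, (δ ((v * w : V) : 𝔽)).1 1 =
      (((δ v).1 1).1 + ((δ w).1 1).1 + φ v * ((δ w).1 1).2, ((δ v).1 1).2 + ((δ w).1 1).2) := by
    intro v w
    rw [Subgroup.coe_mul, hδ.mul]
    change (δ v).1 1 + (δ w).1 (1 * v) = _
    have h1 : (1 : 𝔽) * v = v * 1 := by rw [one_mul, mul_one]
    rw [h1, pdT_apply]
    ext
    · simp only [Prod.fst_add]
      ring
    · simp only [Prod.snd_add]
  have hlc : IsLocallyConstant fun v : V => (δ v).1 1 :=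
    (hδ.lc.comp_continuous continuous_subtype_val).comp fun t : pdT V φ => t.1 1
  have hcusp : ∀ c, (c = y ∨ c = x * y) → ∀ (g : 𝔽) (n : ℕ) (hv : g⁻¹ * c ^ n * g ∈ V),
      (δ (g⁻¹ * c ^ n * g)).1 1 = 0 := by
    intro c hc g n hv
    have h0 : φ ⟨_, hv⟩ = 0 := hur c (Or.inr hc) g n hv
    rw [pd_conj hδ g _ hv h0]
    obtain ⟨t, ht⟩ : ∃ t, δ c = ρ c t - t := by
      rcases hc with rfl | rfl
      · exact ⟨b, hδy⟩
      · exact ⟨a, hδxy⟩
    rw [pd_pow_sub hδ c t ht]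
    change t.1 (g⁻¹ * c ^ n) - t.1 g⁻¹ = 0
    have h3 : g⁻¹ * c ^ n = (⟨g⁻¹ * c ^ n * g, hv⟩ : V) * g⁻¹ := by simp
    rw [h3, pdT_apply, h0]
    simp
  have hcuspx : ∀ (g : 𝔽) (n : ℕ) (hv : g⁻¹ * x ^ n * g ∈ V),
      (δ (g⁻¹ * x ^ n * g)).1 1 = ∑ i ∈ range n, m.1 (g⁻¹ * x ^ i) := by
    intro g n hv
    have h0 : φ ⟨_, hv⟩ = 0 := hur x (Or.inl rfl) g n hv
    rw [pd_conj hδ g _ hv h0, pd_pow_sum hδ, hδx]
  refine ⟨fun v => ((δ v).1 1).2, fun v => ((δ v).1 1).1, ⟨?_, ?_⟩, ?_, ?_, ?_, ?_, ?_, ?_⟩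
  · intro v w
    exact congrArg Prod.snd (hmul v w)
  · exact hlc.comp Prod.snd
  · exact hlc.comp Prod.fst
  · intro v w
    exact congrArg Prod.fst (hmul v w)
  · intro c hc g n hv
    rcases hc with rfl | hc
    · change ((δ (g⁻¹ * c ^ n * g)).1 1).2 = 0
      rw [hcuspx g n hv, Prod.snd_sum]
      refine sum_eq_zero fun i _ => ?_
      simp only [m]
      split_ifs <;> rfl
    · change ((δ (g⁻¹ * c ^ n * g)).1 1).2 = 0
      rw [hcusp c hc g n hv]
      rfl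
  · intro c hc g n hv
    change ((δ (g⁻¹ * c ^ n * g)).1 1).1 = 0
    rw [hcusp c hc g n hv]
    rfl
  · intro g n hv hi
    change ((δ (g⁻¹ * x ^ n * g)).1 1).1 = 0
    rw [hcuspx g n hv, Prod.fst_sum]
    refine sum_eq_zero fun i _ => ?_
    simp only [m, if_neg (hi i)]
    rfl
  · intro hv
    set n := orderOf (QuotientGroup.mk x : 𝔽 ⧸ V) with hn
    have hfin : Finite (𝔽 ⧸ V) := V.quotient_finite_of_isOpen hV
    have hnpos : 0 < n := orderOf_pos _
    have hv' : (1 : 𝔽)⁻¹ * x ^ n * 1 ∈ V := by simpa using hv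
    have h1 := hcuspx 1 n hv'
    have h2 : (1 : 𝔽)⁻¹ * x ^ n * 1 = x ^ n := by simp
    rw [h2] at h1
    change ((δ (x ^ n)).1 1).1 = 1
    rw [h1, Prod.fst_sum, sum_eq_single 0]
    · simp [m, V.one_mem]
    · intro i hi hi0
      have h3 : (1 : 𝔽)⁻¹ * x ^ i ∉ V := by
        intro h4
        rw [inv_one, one_mul] at h4
        have h5 : (QuotientGroup.mk x : 𝔽 ⧸ V) ^ i = 1 := by
          rw [← QuotientGroup.mk_pow]
          exact (QuotientGroup.eq_one_iff _).mpr h4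
        have h6 := orderOf_dvd_of_pow_eq_one h5
        have h7 := Nat.le_of_dvd (Nat.pos_of_ne_zero hi0) h6
        have h8 := mem_range.mp hi
        omega
      simp only [m, if_neg h3]
      rfl
    · intro h3
      exact absurd (mem_range.mpr hnpos) h3

end Free

end Pool.Agent.GTT
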