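import Pool.Agent.Lib.MP_2cc432_al.Zhat

/-!
# Arithmetic of `Ẑ`
-/

open Filter Topology Finset

namespace Pool.Agent.GTT

section Arith

theorem zh_ext {l m : Zhat} (h : ∀ n : ℕ+, l.1 n = m.1 n) : l = m :=
  Subtype.ext (funext h)

theorem zh_val (l : Zhat) {m n : ℕ+} (h : (m : ℕ) ∣ n) : (((l.1 n).val : ℕ) : ZMod m) = l.1 m := by
  have h1 := l.2 m n h
  rw [← h1]
  conv_rhs => rw [← ZMod.natCast_zmod_val (l.1 n)]
  rw [map_natCast]

theorem zh_mul (k : ℕ) (l : Zhat) (n : ℕ+) : ((k : Zhat) * l).1 n = (k : ZMod n) * l.1 n := by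
  change ((k : Zhat) : ∀ n : ℕ+, ZMod n) n * l.1 n = _
  rw [Subring.coe_natCast]
  rfl

theorem zhat_torsion_free (k : ℕ) (hk : k ≠ 0) (l : Zhat) (h : (k : Zhat) * l = 0) : l = 0 := by
  refine zh_ext fun m => ?_
  let K : ℕ+ := ⟨k, Nat.pos_of_ne_zero hk⟩
  have h1 : ((k : Zhat) * l).1 (K * m) = 0 := by
    rw [h]
    rfl
  rw [zh_mul] at h1
  have h2 : ((k * (l.1 (K * m)).val : ℕ) : ZMod (K * m : ℕ+)) = 0 := by
    rw [Nat.cast_mul, ZMod.natCast_zmod_val]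
    exact h1
  rw [ZMod.natCast_eq_zero_iff] at h2
  have h3 : k * (m : ℕ) ∣ k * (l.1 (K * m)).val := h2
  have h4 : (m : ℕ) ∣ (l.1 (K * m)).val := Nat.dvd_of_mul_dvd_mul_left (Nat.pos_of_ne_zero hk) h3
  have h5 := zh_val l (m := m) (n := K * m) (Dvd.intro_left k rfl)
  rw [← h5, (ZMod.natCast_eq_zero_iff _ _).2 h4]
  rfl

theorem zhat_dvd (k : ℕ) [NeZero k] (l : Zhat) (h : Zhat.mod k l = 0) :
    ∃ m : Zhat, l = (k : Zhat) * m := by
  have hk : 0 < k := Nat.pos_of_ne_zero (NeZero.ne k)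
  let K : ℕ+ := ⟨k, hk⟩
  have h0 : l.1 K = 0 := h
  have hval : ∀ n : ℕ+, k ∣ (l.1 (K * n)).val := by
    intro n
    have h1 := zh_val l (m := K) (n := K * n) (Dvd.intro _ rfl)
    rw [h0] at h1
    exact (ZMod.natCast_eq_zero_iff _ _).1 h1
  have hcomp : ∀ (m n : ℕ+) (h : (m : ℕ) ∣ n), ZMod.castHom h (ZMod m)
      (((l.1 (K * n)).val / k : ℕ) : ZMod n) = (((l.1 (K * m)).val / k : ℕ) : ZMod m) := by
    intro m n hmn
    rw [map_natCast]
    have h1 := zh_val l (m := K * m) (n := K * n) (Nat.mul_dvd_mul_left k hmn)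
    obtain ⟨a, ha⟩ := hval n
    obtain ⟨b, hb⟩ := hval m
    rw [ha, hb, Nat.mul_div_cancel_left _ hk, Nat.mul_div_cancel_left _ hk]
    rw [ha, ← ZMod.natCast_zmod_val (l.1 (K * m)), hb, ZMod.natCast_eq_natCast_iff] at h1
    rw [ZMod.natCast_eq_natCast_iff]
    have h3 : ((K * m : ℕ+) : ℕ) = k * m := rfl
    rw [h3] at h1
    exact Nat.ModEq.mul_left_cancel' (Nat.pos_iff_ne_zero.1 hk) h1
  refine ⟨⟨fun n => (((l.1 (K * n)).val / k : ℕ) : ZMod n), hcomp⟩, zh_ext fun n => ?_⟩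
  rw [zh_mul]
  change _ = (k : ZMod n) * (((l.1 (K * n)).val / k : ℕ) : ZMod n)
  rw [← Nat.cast_mul, Nat.mul_div_cancel' (hval n)]
  exact (zh_val l (m := n) (n := K * n) (Dvd.intro_left k rfl)).symm

theorem zhat_isUnit_iff (l : Zhat) :
    IsUnit l ↔ ∀ p : ℕ, ∀ _ : Fact p.Prime, Zhat.mod p l ≠ 0 := by
  constructor
  · intro h p hp h0
    have h1 := h.map (Zhat.mod p)
    rw [h0] at h1
    exact not_isUnit_zero h1
  · intro h
    have hu : ∀ n : ℕ+, IsUnit (l.1 n) := by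
      intro n
      rw [← ZMod.natCast_zmod_val (l.1 n), ZMod.isUnit_iff_coprime]
      by_contra hc
      obtain ⟨p, hp, h1, h2⟩ := Nat.Prime.not_coprime_iff_dvd.1 hc
      have _ : Fact p.Prime := ⟨hp⟩
      apply h p ⟨hp⟩
      have h3 := zh_val l (m := ⟨p, hp.pos⟩) (n := n) h2
      change l.1 ⟨p, _⟩ = 0
      rw [← h3]
      exact (ZMod.natCast_eq_zero_iff _ _).2 h1
    choose v hv using fun n => (hu n).exists_right_inv
    have hcomp : ∀ (m n : ℕ+) (h : (m : ℕ) ∣ n), ZMod.castHom h (ZMod m) (v n) = v m := by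
      intro m n hmn
      have h1 := congrArg (ZMod.castHom hmn (ZMod m)) (hv n)
      rw [map_mul, map_one, l.2 m n hmn] at h1
      calc ZMod.castHom hmn (ZMod m) (v n) = (l.1 m * v m) * ZMod.castHom hmn (ZMod m) (v n) := by
            rw [hv m, one_mul]
        _ = v m * (l.1 m * ZMod.castHom hmn (ZMod m) (v n)) := by ring
        _ = v m := by rw [h1, mul_one]
    refine IsUnit.of_mul_eq_one (⟨v, hcomp⟩ : Zhat) (zh_ext fun n => ?_)
    exact hv n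

/-- an idempotent which is nonzero modulo each prime is 1 -/
theorem zhat_idem_one (e : Zhat) (he : e * e = e)
    (h : ∀ p : ℕ, ∀ _ : Fact p.Prime, Zhat.mod p e ≠ 0) : e = 1 := by
  have h1 := (zhat_isUnit_iff e).2 h
  exact (h1.mul_eq_left).1 he

theorem zh_mod_eq_one (p : ℕ) [Fact p.Prime] (l : Zhat) (h : Zhat.mod (p ^ 2) l = 1) :
    Zhat.mod p l = 1 := by
  have hp : 0 < p := (Fact.out : p.Prime).pos
  have h1 := l.2 ⟨p, hp⟩ ⟨p ^ 2, pow_pos hp 2⟩ (Dvd.intro_left p (by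
    change p * p = p ^ 2
    ring))
  have h2 : l.1 ⟨p ^ 2, pow_pos hp 2⟩ = 1 := h
  rw [h2, map_one] at h1
  exact h1.symm

/-- `N' = N / p` -/
theorem zhat_norm (p : ℕ) [Fact p.Prime] (ν : Zhat) (h : ν ^ p = 1)
    (h1 : Zhat.mod (p ^ 2) ν = 1) : ∃ N' : Zhat, (p : Zhat) * N' = ∑ i ∈ range p, ν ^ i ∧
      ν * N' = N' ∧ Zhat.mod p N' = 1 := by
  have hp : p ≠ 0 := (Fact.out : p.Prime).ne_zero
  have hp0 : 0 < p := (Fact.out : p.Prime).pos
  have h2 : Zhat.mod p (∑ i ∈ range p, ν ^ i) = 0 := by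
    rw [map_sum]
    simp only [map_pow, zh_mod_eq_one p ν h1, one_pow, sum_const, card_range, nsmul_eq_mul, mul_one]
    exact ZMod.natCast_self p
  obtain ⟨N', hN'⟩ := zhat_dvd p _ h2
  refine ⟨N', hN'.symm, ?_, ?_⟩
  · have h3 : (ν - 1) * ∑ i ∈ range p, ν ^ i = 0 := by
      rw [mul_comm, geom_sum_mul, h, sub_self]
    have h4 : (p : Zhat) * (ν * N' - N') = 0 := by
      calc (p : Zhat) * (ν * N' - N') = (ν - 1) * ((p : Zhat) * N') := by ring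
        _ = 0 := by rw [← hN', h3]
    exact sub_eq_zero.1 (zhat_torsion_free p hp _ h4)
  · have h3 : Zhat.mod (p ^ 2) (∑ i ∈ range p, ν ^ i) = ((p : ℕ) : ZMod (p ^ 2)) := by
      rw [map_sum]
      simp only [map_pow, h1, one_pow, sum_const, card_range, nsmul_eq_mul, mul_one]
    rw [hN', map_mul, map_natCast] at h3
    let P2 : ℕ+ := ⟨p ^ 2, pow_pos hp0 2⟩
    have h4 : ((p * (N'.1 P2).val : ℕ) : ZMod (p ^ 2)) = ((p : ℕ) : ZMod (p ^ 2)) := by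
      rw [Nat.cast_mul]
      have h5 : (((N'.1 P2).val : ℕ) : ZMod (p ^ 2)) = N'.1 P2 := ZMod.natCast_zmod_val (N'.1 P2)
      rw [h5]
      exact h3
    rw [ZMod.natCast_eq_natCast_iff] at h4
    have h5 : p * (N'.1 P2).val ≡ p * 1 [MOD p * p] := by
      rw [mul_one, ← sq]
      exact h4
    have h6 : (N'.1 P2).val ≡ 1 [MOD p] := Nat.ModEq.mul_left_cancel' hp h5
    have h7 := zh_val N' (m := ⟨p, hp0⟩) (n := P2) (Dvd.intro_left p (by
      change p * p = p ^ 2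
      ring))
    have h8 : (((N'.1 P2).val : ℕ) : ZMod p) = ((1 : ℕ) : ZMod p) :=
      (ZMod.natCast_eq_natCast_iff _ _ _).2 h6
    rw [Nat.cast_one] at h8
    change N'.1 ⟨p, _⟩ = 1
    rw [← h7]
    exact h8

/-- for odd `p` the second hypothesis of `zhat_norm` follows from the first -/
theorem zhat_odd (p : ℕ) [Fact p.Prime] (hp : p ≠ 2) (ν : Zhat) (h : ν ^ p = 1) :
    Zhat.mod (p ^ 2) ν = 1 := by
  have hpp : p.Prime := Fact.out
  have hp0 : 0 < p := hpp.pos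
  let P3 : ℕ+ := ⟨p ^ 3, pow_pos hp0 3⟩
  set a : ℕ := (ν.1 P3).val with ha
  have h1 : ((a ^ p : ℕ) : ZMod (p ^ 3)) = ((1 : ℕ) : ZMod (p ^ 3)) := by
    have h2 : ((a : ℕ) : ZMod (p ^ 3)) = ν.1 P3 := ZMod.natCast_zmod_val (ν.1 P3)
    have h3 : (ν ^ p).1 P3 = 1 := by
      rw [h]
      rfl
    rw [Nat.cast_pow, h2, Nat.cast_one]
    exact h3
  have h2 : ((p ^ 3 : ℕ) : ℤ) ∣ (a : ℤ) ^ p - 1 ^ p := by
    have h3 : ((a : ℤ) ^ p : ℤ) = ((a ^ p : ℕ) : ℤ) := by push_cast; ring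
    rw [one_pow, h3]
    have h4 := (ZMod.intCast_eq_intCast_iff_dvd_sub 1 ((a ^ p : ℕ) : ℤ) (p ^ 3)).1 (by
      rw [Int.cast_one, Int.cast_natCast, h1, Nat.cast_one])
    exact h4
  have h3 : ((a : ℤ) : ZMod p) = ((1 : ℤ) : ZMod p) := by
    have h4 : ((a ^ p : ℕ) : ZMod p) = 1 := by
      have h5 : a ^ p ≡ 1 [MOD p ^ 3] := (ZMod.natCast_eq_natCast_iff _ _ _).1 h1
      have h6 : a ^ p ≡ 1 [MOD p] := h5.of_dvd (Dvd.intro_left (p ^ 2) (by ring))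
      have h7 := (ZMod.natCast_eq_natCast_iff _ _ _).2 h6
      rwa [Nat.cast_one] at h7
    rw [Nat.cast_pow, ZMod.pow_card] at h4
    rw [Int.cast_natCast, h4, Int.cast_one]
  have h4 : (p : ℤ) ∣ (a : ℤ) - 1 := (ZMod.intCast_eq_intCast_iff_dvd_sub 1 (a : ℤ) p).1 h3.symm
  have h5 : ¬ (p : ℤ) ∣ (a : ℤ) := by
    intro h6
    have h7 : (p : ℤ) ∣ 1 := by
      have := dvd_sub h6 h4
      simpa using this
    have h8 : p ∣ 1 := by exact_mod_cast h7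
    exact hpp.one_lt.ne' (Nat.dvd_one.1 h8)
  have h6 := Int.emultiplicity_pow_sub_pow hpp (hpp.odd_of_ne_two hp) h4 h5 p
  have h7 : emultiplicity p p = 1 := by
    have h8 := (Nat.finiteMultiplicity_iff (a := p) (b := p)).2 ⟨hpp.one_lt.ne', hp0⟩
    exact h8.emultiplicity_self
  have h8 : ((3 : ℕ) : ℕ∞) ≤ emultiplicity (p : ℤ) ((a : ℤ) ^ p - 1 ^ p) := by
    apply le_emultiplicity_of_pow_dvd
    have : ((p ^ 3 : ℕ) : ℤ) = (p : ℤ) ^ 3 := by push_cast; ring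
    rw [← this]
    exact h2
  rw [h6, h7] at h8
  have h9 : ((2 : ℕ) : ℕ∞) ≤ emultiplicity (p : ℤ) ((a : ℤ) - 1) := by
    by_contra hlt
    rw [not_le] at hlt
    have h10 : emultiplicity (p : ℤ) ((a : ℤ) - 1) ≤ ((1 : ℕ) : ℕ∞) := by
      obtain ⟨n, hn⟩ := ENat.ne_top_iff_exists.1 hlt.ne_top
      rw [← hn] at hlt ⊢
      have h11 : n < 2 := by exact_mod_cast hlt
      have h12 : n ≤ 1 := by omega
      exact_mod_cast h12
    have h11 := h8.trans (add_le_add h10 le_rfl)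
    have h12 : ((3 : ℕ) : ℕ∞) ≤ ((1 + 1 : ℕ) : ℕ∞) := by
      rw [Nat.cast_add, Nat.cast_one]
      exact h11
    have h13 : 3 ≤ 1 + 1 := by exact_mod_cast h12
    omega
  have h10 : (p : ℤ) ^ 2 ∣ (a : ℤ) - 1 := pow_dvd_of_le_emultiplicity h9
  have h11 : ((a : ℤ) : ZMod (p ^ 2)) = ((1 : ℤ) : ZMod (p ^ 2)) := by
    symm
    rw [ZMod.intCast_eq_intCast_iff_dvd_sub]
    push_cast
    exact h10
  rw [Int.cast_natCast, Int.cast_one] at h11
  have h12 := zh_val ν (m := ⟨p ^ 2, pow_pos hp0 2⟩) (n := P3) (Dvd.intro_left p (by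
    change p * p ^ 2 = p ^ 3
    ring))
  change ν.1 ⟨p ^ 2, _⟩ = 1
  rw [← h12]
  exact h11

theorem zhat_two (μ : Zhat) (h : IsUnit μ) : Zhat.mod 4 (μ ^ 2) = 1 := by
  have h1 := h.map (Zhat.mod 4)
  obtain ⟨b, hb⟩ := h1.exists_right_inv
  rw [map_pow]
  have h2 : ∀ x y : ZMod 4, x * y = 1 → x ^ 2 = 1 := by decide
  exact h2 _ _ hb

theorem zhat_odd_half (l : Zhat) (h : IsUnit l) : ∃ m : Zhat, l = 2 * m + 1 := by
  have h1 := h.map (Zhat.mod 2)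
  obtain ⟨b, hb⟩ := h1.exists_right_inv
  have h2 : ∀ x y : ZMod 2, x * y = 1 → x = 1 := by decide
  have h3 : Zhat.mod 2 (l - 1) = 0 := by
    rw [map_sub, map_one, h2 _ _ hb, sub_self]
  obtain ⟨m, hm⟩ := zhat_dvd 2 _ h3
  refine ⟨m, ?_⟩
  rw [Nat.cast_ofNat] at hm
  rw [← hm]
  ring

end Arith

end Pool.Agent.GTT
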