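import Pool.Agent.Lib.MP_2cc432_al.GTZ
import Pool.Agent.Lib.MP_2cc432_al.HPow
import Pool.Agent.Lib.MP_2cc432_al.ZArith
import Pool.Agent.Lib.MP_2cc432_al.PD
import Pool.Agent.Lib.MP_2cc432_al.GT

/-!
# Pairs with (I), (II) and odd `μ` are automorphisms
-/

open Filter Topology Finset

namespace Pool.Agent.GTT

section Abs

variable {𝔽 : Type} [Group 𝔽]

/-- the functions on `𝔽 / V` -/
def autρ (V : Subgroup 𝔽) : 𝔽 →* AddMonoid.End ((𝔽 ⧸ V) → ZMod 2) where
  toFun g :=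
    { toFun := fun t q => t (g⁻¹ • q)
      map_zero' := rfl
      map_add' := fun _ _ => rfl }
  map_one' := by
    refine AddMonoidHom.ext fun t => funext fun q => ?_
    change t ((1 : 𝔽)⁻¹ • q) = t q
    rw [inv_one, one_smul]
  map_mul' g g' := by
    refine AddMonoidHom.ext fun t => funext fun q => ?_
    change t ((g * g')⁻¹ • q) = t (g'⁻¹ • g⁻¹ • q)
    rw [mul_inv_rev, mul_smul]

theorem autρ_apply (V : Subgroup 𝔽) (g : 𝔽) (t : (𝔽 ⧸ V) → ZMod 2) (q : 𝔽 ⧸ V) :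
    autρ V g t q = t (g⁻¹ • q) := rfl

theorem autρ_base (V : Subgroup 𝔽) (v : 𝔽) (hv : v ∈ V) (t : (𝔽 ⧸ V) → ZMod 2) :
    autρ V v t ((1 : 𝔽) : 𝔽 ⧸ V) = t ((1 : 𝔽) : 𝔽 ⧸ V) := by
  rw [autρ_apply]
  congr 1
  change ((v⁻¹ * 1 : 𝔽) : 𝔽 ⧸ V) = _
  rw [QuotientGroup.eq]
  simpa using hv

variable [TopologicalSpace 𝔽]

theorem aut_der_one {T : Type} [AddCommGroup T] {ρ : 𝔽 →* AddMonoid.End T} {δ : 𝔽 → T}
    (hδ : IsDer ρ δ) : δ 1 = 0 := by
  have h2 := hδ.mul 1 1
  rw [mul_one, map_one] at h2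
  change δ 1 = δ 1 + δ 1 at h2
  exact left_eq_add.1 h2

theorem aut_der_inv {T : Type} [AddCommGroup T] {ρ : 𝔽 →* AddMonoid.End T} {δ : 𝔽 → T}
    (hδ : IsDer ρ δ) (g : 𝔽) : δ g⁻¹ = - ρ g⁻¹ (δ g) := by
  have h2 := hδ.mul g⁻¹ g
  rw [inv_mul_cancel, aut_der_one hδ] at h2
  exact eq_neg_of_add_eq_zero_left h2.symm

theorem aut_der_conj {T : Type} [AddCommGroup T] {ρ : 𝔽 →* AddMonoid.End T} {δ : 𝔽 → T}
    (hδ : IsDer ρ δ) (k w : 𝔽) (a : T) (h : δ w = ρ w a - a) :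
    ∃ b, δ (k⁻¹ * w * k) = ρ (k⁻¹ * w * k) b - b := by
  refine ⟨ρ k⁻¹ (a + δ k), ?_⟩
  have h1 : ∀ t, ρ (k⁻¹ * w * k) (ρ k⁻¹ t) = ρ (k⁻¹ * w) t := by
    intro t
    rw [← Function.comp_apply (f := ρ (k⁻¹ * w * k)), ← AddMonoid.End.coe_mul, ← map_mul]
    congr 2
    group
  rw [hδ.mul, hδ.mul, aut_der_inv hδ, h, h1, map_mul ρ k⁻¹ w, AddMonoid.End.coe_mul,
    Function.comp_apply, Function.comp_apply]
  simp only [map_add, map_sub]
  abel

variable [IsTopologicalGroup 𝔽] [CompactSpace 𝔽]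

theorem autρ_smooth (V : Subgroup 𝔽) (hV : IsOpen (V : Set 𝔽)) : Smooth (autρ V) := by
  intro t
  have hK : (V : Set 𝔽) ∈ 𝓝 (1 : 𝔽) := hV.mem_nhds V.one_mem
  filter_upwards [pd_conj_near _ hK] with g hg
  funext q
  obtain ⟨h, rfl⟩ := QuotientGroup.mk_surjective q
  rw [autρ_apply]
  congr 1
  change ((g⁻¹ * h : 𝔽) : 𝔽 ⧸ V) = _
  rw [QuotientGroup.eq]
  have h1 := hg h⁻¹
  rw [inv_inv] at h1
  have h2 : (g⁻¹ * h)⁻¹ * h = h⁻¹ * g * h := by group
  rw [h2]
  exact h1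

/-- the values at the base point are additive on `V` -/
theorem aut_add {V : Subgroup 𝔽} {δ : 𝔽 → (𝔽 ⧸ V) → ZMod 2} (hδ : IsDer (autρ V) δ) (g : 𝔽)
    (hg : g ∈ V) (h : 𝔽) :
    δ (g * h) ((1 : 𝔽) : 𝔽 ⧸ V) = δ g ((1 : 𝔽) : 𝔽 ⧸ V) + δ h ((1 : 𝔽) : 𝔽 ⧸ V) := by
  rw [hδ.mul, Pi.add_apply, autρ_base V g hg]

variable [T2Space 𝔽] [TotallyDisconnectedSpace 𝔽] {x y : 𝔽}

/-- a derivation which has value `1` at the cusp `x` of the base point and is trivial at the
conjugates of `y` and `x y` -/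
theorem aut_der (hF : FreeProf 𝔽 x y) (V : Subgroup 𝔽) (hV : IsOpen (V : Set 𝔽)) (hne : V ≠ ⊤) :
    ∃ δ : 𝔽 → (𝔽 ⧸ V) → ZMod 2, IsDer (autρ V) δ ∧ δ x ((1 : 𝔽) : 𝔽 ⧸ V) = 1 ∧
      (∃ b, δ y = autρ V y b - b) ∧ ∃ a, δ (x * y) = autρ V (x * y) a - a := by
  classical
  obtain ⟨u, hu⟩ : ∃ u, u ∉ V := by
    by_contra hcon
    push Not at hcon
    exact hne ((Subgroup.eq_top_iff' V).2 hcon)
  have hρ := autρ_smooth V hV
  set ρ := autρ V with hρd
  let e : (𝔽 ⧸ V) → ZMod 2 := fun q => if q = ((1 : 𝔽) : 𝔽 ⧸ V) then 1 else 0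
  set m : (𝔽 ⧸ V) → ZMod 2 := ρ u e - e with hm
  have hm1 : m ((1 : 𝔽) : 𝔽 ⧸ V) = 1 := by
    rw [hm, Pi.sub_apply, autρ_apply]
    have h1 : u⁻¹ • ((1 : 𝔽) : 𝔽 ⧸ V) ≠ ((1 : 𝔽) : 𝔽 ⧸ V) := by
      intro h2
      change ((u⁻¹ * 1 : 𝔽) : 𝔽 ⧸ V) = _ at h2
      rw [QuotientGroup.eq] at h2
      exact hu (by simpa using h2)
    simp only [e, if_neg h1, if_true]
    decide
  obtain ⟨a, b, hab⟩ : ∃ a b : (𝔽 ⧸ V) → ZMod 2,
      m = (ρ (x * y) a - a) - ρ x (ρ y b - b) := by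
    obtain ⟨a₁, b₁, h1⟩ := pd_augment hF ρ hρ u e
    obtain ⟨a₂, b₂, h2⟩ := pd_augment hF ρ hρ x⁻¹ m
    have hinv : ρ x (ρ x⁻¹ m) = m := by
      rw [← Function.comp_apply (f := ρ x), ← AddMonoid.End.coe_mul, ← map_mul,
        mul_inv_cancel, map_one]
      rfl
    have h3 : ρ x⁻¹ m = (ρ x (a₁ + a₂) - (a₁ + a₂)) + (ρ y (b₁ + b₂) - (b₁ + b₂)) := by
      have h4 : ρ x⁻¹ m = (ρ x⁻¹ m - m) + m := by abel
      have h5 : m = (ρ x a₁ - a₁) + (ρ y b₁ - b₁) := h1
      rw [h4, h2]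
      conv_lhs => rw [h5]
      rw [map_add, map_add]
      abel
    refine ⟨ρ x (a₁ + a₂), ρ x (a₁ + a₂) - (b₁ + b₂), ?_⟩
    have h5 : m = ρ x ((ρ x (a₁ + a₂) - (a₁ + a₂)) + (ρ y (b₁ + b₂) - (b₁ + b₂))) := by
      rw [← h3, hinv]
    rw [h5, map_mul, AddMonoid.End.coe_mul, Function.comp_apply]
    simp only [map_add, map_sub]
    abel
  obtain ⟨δ, hδ, hδx, hδy⟩ := exists_der hF (p := 2) (T := (𝔽 ⧸ V) → ZMod 2)
    (fun t => by
      funext q
      change 2 • t q = 0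
      rw [two_nsmul]
      exact CharTwo.add_self_eq_zero _) ρ hρ m (ρ y b - b)
  refine ⟨δ, hδ, by rw [hδx, hm1], ⟨b, hδy⟩, a, ?_⟩
  rw [hδ.mul, hδx, hδy, hab]
  abel

/-- a closed subgroup which contains `x`, a conjugate `y'` of `y` and satisfies a relation
`A B C = 1` with the `μ`-th powers of `x`, `y'` and a conjugate of an element of `⟨x y⟩` is
everything, for odd `μ` -/
theorem aut_top (hF : FreeProf 𝔽 x y) (g k w : 𝔽) (μ : Zhat) (hμ : Zhat.mod 2 μ = 1)
    (hw : ∀ S : Subgroup 𝔽, IsClosed (S : Set 𝔽) → x * y ∈ S → w ∈ S)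
    (hrel : hpow x μ * hpow (g⁻¹ * y * g) μ * (k⁻¹ * w * k) = 1)
    (V : Subgroup 𝔽) (hV : IsOpen (V : Set 𝔽)) (hx : x ∈ V) (hy : g⁻¹ * y * g ∈ V) : V = ⊤ := by
  by_contra hne
  obtain ⟨δ, hδ, hδx, ⟨b, hb⟩, a, ha⟩ := aut_der hF V hV hne
  have hVc : IsClosed (V : Set 𝔽) := V.isClosed_of_isOpen hV
  set o : 𝔽 ⧸ V := ((1 : 𝔽) : 𝔽 ⧸ V) with ho
  let d : 𝔽 → ZMod 2 := fun u => δ u o
  have hd : IsLocallyConstant d := hδ.lc.comp fun t => t o
  have hadd : ∀ u ∈ V, ∀ v ∈ V, d (u * v) = d u + d v := fun u hu v _ => aut_add hδ u hu v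
  have hA : d (hpow x μ) = 1 := by
    rw [isHom_hpow' d hd V hVc hadd x hx μ, hμ, one_mul]
    exact hδx
  have hB : d (hpow (g⁻¹ * y * g) μ) = 0 := by
    rw [isHom_hpow' d hd V hVc hadd _ hy μ]
    obtain ⟨b', hb'⟩ := aut_der_conj hδ g y b hb
    have h1 : d (g⁻¹ * y * g) = 0 := by
      change δ (g⁻¹ * y * g) o = 0
      rw [hb', Pi.sub_apply, ho, autρ_base V _ hy, sub_self]
    rw [h1, mul_zero]
  have hAm : hpow x μ ∈ V := hpow_mem V hVc x hx μ
  have hBm : hpow (g⁻¹ * y * g) μ ∈ V := hpow_mem V hVc _ hy μ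
  have hCm : k⁻¹ * w * k ∈ V := by
    have h1 : k⁻¹ * w * k = (hpow x μ * hpow (g⁻¹ * y * g) μ)⁻¹ :=
      (inv_eq_of_mul_eq_one_right hrel).symm
    rw [h1]
    exact V.inv_mem (V.mul_mem hAm hBm)
  have hC : d (k⁻¹ * w * k) = 0 := by
    have h1 : ∃ c, δ w = autρ V w c - c := by
      refine ⟨a, ?_⟩
      let S : Subgroup 𝔽 :=
        { carrier := {u | δ u = autρ V u a - a}
          mul_mem' := by
            intro u v hu hv
            change δ (u * v) = autρ V (u * v) a - a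
            have hu' : δ u = autρ V u a - a := hu
            have hv' : δ v = autρ V v a - a := hv
            rw [hδ.mul, hu', hv', map_sub, map_mul, AddMonoid.End.coe_mul, Function.comp_apply]
            abel
          one_mem' := by
            change δ 1 = autρ V 1 a - a
            rw [aut_der_one hδ, map_one]
            change 0 = a - a
            rw [sub_self]
          inv_mem' := by
            intro u hu
            change δ u⁻¹ = autρ V u⁻¹ a - a
            have hu' : δ u = autρ V u a - a := hu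
            have h2 : autρ V u⁻¹ (autρ V u a) = a := by
              rw [← Function.comp_apply (f := autρ V u⁻¹), ← AddMonoid.End.coe_mul, ← map_mul,
                inv_mul_cancel, map_one]
              rfl
            rw [aut_der_inv hδ, hu', map_sub, h2]
            abel }
      have hS : IsClosed (S : Set 𝔽) := by
        have h1 : IsLocallyConstant fun u => δ u - (autρ V u a - a) :=
          hδ.lc.sub ((pd_lc (autρ V) (autρ_smooth V hV) a).sub (IsLocallyConstant.const a))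
        have h2 : (S : Set 𝔽) = (fun u => δ u - (autρ V u a - a)) ⁻¹' {0} := by
          ext u
          change δ u = _ ↔ _ = _
          rw [sub_eq_zero]
        rw [h2]
        exact (h1.isClosed_fiber 0)
      exact hw S hS ha
    obtain ⟨c, hc⟩ := h1
    obtain ⟨c', hc'⟩ := aut_der_conj hδ k w c hc
    change δ (k⁻¹ * w * k) o = 0
    rw [hc', Pi.sub_apply, ho, autρ_base V _ hCm, sub_self]
  have h1 : d (hpow x μ * hpow (g⁻¹ * y * g) μ * (k⁻¹ * w * k)) = 1 := by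
    rw [hadd _ (V.mul_mem hAm hBm) _ hCm, hadd _ hAm _ hBm, hA, hB, hC]
    decide
  have h2 : d 1 = 0 := by
    change δ 1 o = 0
    rw [aut_der_one hδ]
    rfl
  rw [hrel, h2] at h1
  exact absurd h1 (by decide)

/-- a closed subgroup not contained in a proper open subgroup is everything -/
theorem aut_closed (S : Subgroup 𝔽) (hS : IsClosed (S : Set 𝔽))
    (h : ∀ V : Subgroup 𝔽, IsOpen (V : Set 𝔽) → S ≤ V → V = ⊤) : S = ⊤ := by
  by_contra hne
  obtain ⟨u, hu⟩ : ∃ u, u ∉ S := by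
    by_contra hcon
    push Not at hcon
    exact hne ((Subgroup.eq_top_iff' S).2 hcon)
  -- an open normal subgroup `W` with `u W ∩ S = ∅`
  have h1 : ((fun w : 𝔽 => u * w) ⁻¹' (S : Set 𝔽)ᶜ) ∈ 𝓝 (1 : 𝔽) := by
    apply (hS.isOpen_compl.preimage (continuous_const.mul continuous_id)).mem_nhds
    simpa using hu
  obtain ⟨W, hW⟩ := ProfiniteGrp.exist_openNormalSubgroup_sub_open_nhds_of_one
    (G := 𝔽) isOpen_interior (mem_interior_iff_mem_nhds.2 h1)
  have hW' : ∀ w ∈ W, u * w ∉ S := fun w hw => interior_subset (hW hw)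
  have h2 : S ⊔ (W : Subgroup 𝔽) = ⊤ := by
    apply h _ _ le_sup_left
    exact Subgroup.isOpen_mono le_sup_right W.isOpen'
  have h3 : u ∈ S ⊔ (W : Subgroup 𝔽) := by
    rw [h2]
    trivial
  obtain ⟨s, hs, w, hw, hsw⟩ := Subgroup.mem_sup_of_normal_right.1 h3
  apply hW' w⁻¹ (W.inv_mem hw)
  have : u * w⁻¹ = s := by rw [← hsw]; group
  rw [this]
  exact hs

end Abs

section Hopf

/-- the locally constant homomorphisms to `G` -/
abbrev AutHom (G : Type) [Group G] : Type := {ρ : F2hat →* G // IsLocallyConstant ρ}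

theorem autHom_ext {G : Type} [Group G] (ρ ρ' : AutHom G) (hx : ρ.1 gx = ρ'.1 gx)
    (hy : ρ.1 gy = ρ'.1 gy) : ρ = ρ' := by
  let _ : TopologicalSpace G := ⊥
  have _ : DiscreteTopology G := ⟨rfl⟩
  let f : F2hat →ₜ* G := { toMonoidHom := ρ.1, continuous_toFun := ρ.2.continuous }
  let g : F2hat →ₜ* G := { toMonoidHom := ρ'.1, continuous_toFun := ρ'.2.continuous }
  have h : f = g := ev_ext f g hx hy
  apply Subtype.ext
  ext w
  exact congrArg (fun k : F2hat →ₜ* G => k w) h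

theorem autHom_finite (G : Type) [Group G] [Finite G] : Finite (AutHom G) := by
  apply Finite.of_injective (fun ρ : AutHom G => (ρ.1 gx, ρ.1 gy))
  intro ρ ρ' h
  exact autHom_ext ρ ρ' (congrArg Prod.fst h) (congrArg Prod.snd h)

/-- every homomorphism to a finite group factors through a surjective endomorphism -/
theorem aut_factor (φ : F2hat →ₜ* F2hat) (hφ : Function.Surjective φ) (G : Type) [Group G]
    [Finite G] (ρ : AutHom G) : ∃ ρ' : AutHom G, ∀ w, ρ.1 w = ρ'.1 (φ w) := by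
  have := autHom_finite G
  let c : AutHom G → AutHom G := fun ρ =>
    ⟨ρ.1.comp (φ : F2hat →* F2hat), ρ.2.comp_continuous φ.continuous⟩
  have hinj : Function.Injective c := by
    intro ρ ρ' h
    apply Subtype.ext
    ext w
    obtain ⟨u, rfl⟩ := hφ w
    exact congrArg (fun k : AutHom G => k.1 u) h
  obtain ⟨ρ', h⟩ := Finite.surjective_of_injective hinj ρ
  exact ⟨ρ', fun w => (congrArg (fun k : AutHom G => k.1 w) h).symm⟩

/-- surjective endomorphisms of `F2hat` are injective -/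
theorem aut_hopf (φ : F2hat →ₜ* F2hat) (hφ : Function.Surjective φ) : Function.Injective φ := by
  rw [injective_iff_map_eq_one]
  intro w hw
  by_contra hne
  obtain ⟨W, hW⟩ := ProfiniteGrp.exist_openNormalSubgroup_sub_open_nhds_of_one
    (G := F2hat) (isOpen_compl_singleton (x := w)) (by simpa using Ne.symm hne)
  have hfin : Finite (F2hat ⧸ (W : Subgroup F2hat)) :=
    Subgroup.quotient_finite_of_isOpen _ W.isOpen'
  let ρ : AutHom (F2hat ⧸ (W : Subgroup F2hat)) := ⟨QuotientGroup.mk' _, by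
    rw [IsLocallyConstant.iff_eventually_eq]
    intro g
    have h1 : Tendsto (fun g' : F2hat => g⁻¹ * g') (𝓝 g) (𝓝 1) := by
      have h2 : Continuous fun g' : F2hat => g⁻¹ * g' := continuous_const.mul continuous_id
      have h3 := h2.tendsto g
      simpa using h3
    filter_upwards [h1.eventually (W.isOpen'.mem_nhds W.one_mem)] with g' hg'
    exact (QuotientGroup.eq.2 hg').symm⟩
  obtain ⟨ρ', h⟩ := aut_factor φ hφ _ ρ
  have h1 : ρ.1 w = 1 := by
    rw [h, hw, map_one]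
  have h2 : w ∈ (W : Subgroup F2hat) := (QuotientGroup.eq_one_iff w).1 h1
  exact hW h2 rfl

/-- powers in finite groups -/
theorem aut_pow {G : Type} [Group G] (ρ : AutHom G) (n : ℕ+) (hn : ∀ g : G, g ^ (n : ℕ) = 1)
    (a : F2hat) (μ : Zhat) : ρ.1 (hpow a μ) = ρ.1 a ^ (μ.1 n).val := by
  have hU : IsOpen (ρ.1.ker : Set F2hat) := by
    have h1 : (ρ.1.ker : Set F2hat) = ρ.1 ⁻¹' {1} := by
      ext w
      simp [MonoidHom.mem_ker]
    rw [h1]
    exact ρ.2 {1}
  have h1 := isHpow_hpow a μ ρ.1.ker inferInstance hU n (by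
    rw [MonoidHom.mem_ker, map_pow, hn])
  rw [MonoidHom.mem_ker, map_mul, map_inv, map_pow, inv_mul_eq_one] at h1
  exact h1.symm

theorem aut_sr_pow {p : ℕ} (i : ZMod p) {j : ℕ} (hj : Odd j) :
    (DihedralGroup.sr i) ^ j = DihedralGroup.sr i := by
  obtain ⟨q, rfl⟩ := hj
  rw [pow_succ, pow_mul, pow_two, DihedralGroup.sr_mul_self, one_pow, one_mul]

theorem aut_r_pow {p : ℕ} (i : ZMod p) {j : ℕ} (hj : p ∣ j) :
    (DihedralGroup.r i) ^ j = 1 := by
  obtain ⟨q, rfl⟩ := hj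
  rw [DihedralGroup.r_pow, Nat.cast_mul, CharP.cast_eq_zero, zero_mul, mul_zero,
    DihedralGroup.one_def]

theorem aut_exp {p : ℕ} [Fact p.Prime] (n : ℕ+) (hn : p ∣ (n : ℕ)) (μ : Zhat) :
    (((μ.1 n).val : ℕ) : ZMod p) = Zhat.mod p μ := by
  have hp : 0 < p := (Fact.out : p.Prime).pos
  have h1 := μ.2 ⟨p, hp⟩ n hn
  have h2 : Zhat.mod p μ = μ.1 (⟨p, hp⟩ : ℕ+) := rfl
  rw [h2, ← h1]
  have : NeZero (n : ℕ) := ⟨n.pos.ne'⟩
  rw [ZMod.castHom_apply, ← ZMod.natCast_val]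
  rfl

end Hopf

section Unit

variable {μ m : Zhat} (hμ : μ = 2 * m + 1) (g : F2hat) (h1 : g * ev gy gx g = 1)
  (h2 : ev gz gx g * hpow gz m * ev gy gz g * hpow gy m * g * hpow gx m = 1)

include hμ h1 h2

theorem aut_rel : ∃ k : F2hat,
    hpow gx μ * hpow (g⁻¹ * gy * g) μ * (k⁻¹ * hpow gz μ * k) = 1 := by
  refine ⟨hpow gz (-m) * ev gx gz g * hpow gx (-m), ?_⟩
  · rw [← gtF_gz hμ h1 h2]
    have e1 : gtF μ g gx = hpow gx μ := ev_gx _ _
    have e2 : gtF μ g gy = hpow (g⁻¹ * gy * g) μ := by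
      have h := conj_hpow g⁻¹ gy μ
      rw [inv_inv] at h
      rw [← h]
      exact ev_gy _ _
    rw [← e1, ← e2, ← map_mul, ← map_mul]
    have e3 : gx * gy * gz = 1 := by
      rw [gz, mul_inv_cancel]
    rw [e3, map_one]

theorem aut_two : Zhat.mod 2 μ = 1 := by
  rw [hμ, map_add, map_mul, map_one]
  have h : Zhat.mod 2 2 = 0 := by
    rw [map_ofNat]
    decide
  rw [h, zero_mul, zero_add]

theorem aut_surj : Function.Surjective (ev gx (g⁻¹ * gy * g)) := by
  obtain ⟨k, hk⟩ := aut_rel hμ g h1 h2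
  let φ : F2hat →ₜ* F2hat := ev gx (g⁻¹ * gy * g)
  have hcl : IsClosed ((φ : F2hat →* F2hat).range : Set F2hat) := by
    have h := isCompact_range φ.continuous
    exact h.isClosed
  have htop : (φ : F2hat →* F2hat).range = ⊤ := by
    apply aut_closed _ hcl
    intro V hV hle
    refine aut_top freeProf_F2hat g k (hpow gz μ) μ (aut_two hμ g h1 h2) ?_ hk V hV ?_ ?_
    · intro S hS hxy
      apply hpow_mem S hS
      rw [gz]
      exact S.inv_mem hxy
    · exact hle ⟨gx, ev_gx _ _⟩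
    · exact hle ⟨gy, ev_gy _ _⟩
  intro w
  have hw : w ∈ (φ : F2hat →* F2hat).range := by
    rw [htop]
    trivial
  exact hw

/-- pairs `(μ, g)` with (I), (II) and odd `μ` are automorphisms and `μ` is a unit -/
theorem aut_unit : IsUnit μ ∧ Function.Bijective (gtF μ g) := by
  have hs := aut_surj hμ g h1 h2
  obtain ⟨k, hk⟩ := aut_rel hμ g h1 h2
  have hunit : IsUnit μ := by
    rw [zhat_isUnit_iff]
    intro p hp h0
    have hp2 : p ≠ 2 := by
      rintro rfl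
      have h3 : Zhat.mod 2 μ = 0 := h0
      rw [aut_two hμ g h1 h2] at h3
      exact one_ne_zero h3
    have hp1 : 1 < p := hp.out.one_lt
    have : NeZero p := ⟨by omega⟩
    obtain ⟨ρ₀, hρ₀, hρx, hρy⟩ := freeProf_F2hat.lift (DihedralGroup p)
      (DihedralGroup.sr 0) (DihedralGroup.sr 1)
    obtain ⟨ρ, hρ⟩ := aut_factor _ hs (DihedralGroup p) ⟨ρ₀, hρ₀⟩
    have hx : ρ.1 gx = DihedralGroup.sr 0 := by
      have h := hρ gx
      rw [ev_gx] at h
      rw [← h]
      exact hρx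
    have hy : ρ.1 (g⁻¹ * gy * g) = DihedralGroup.sr 1 := by
      have h := hρ gy
      rw [ev_gy] at h
      rw [← h]
      exact hρy
    let n : ℕ+ := ⟨2 * p, by omega⟩
    have hn : ∀ d : DihedralGroup p, d ^ (n : ℕ) = 1 := by
      intro d
      have h := pow_card_eq_one' (x := d)
      rwa [DihedralGroup.nat_card] at h
    set j : ℕ := (μ.1 n).val with hj
    have hjp : p ∣ j := by
      rw [← ZMod.natCast_eq_zero_iff, hj, aut_exp n ⟨2, by change 2 * p = p * 2; ring⟩ μ]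
      exact h0
    have hj2 : Odd j := by
      have : Fact (Nat.Prime 2) := ⟨Nat.prime_two⟩
      have h := aut_exp (p := 2) n ⟨p, rfl⟩ μ
      rw [← ZMod.natCast_eq_one_iff_odd, hj, h]
      exact aut_two hμ g h1 h2
    have hrel := congrArg ρ.1 hk
    rw [map_one, map_mul, map_mul, map_mul, map_mul, aut_pow ρ n hn, aut_pow ρ n hn,
      aut_pow ρ n hn, hx, hy, ← hj, aut_sr_pow _ hj2, aut_sr_pow _ hj2,
      DihedralGroup.sr_mul_sr, map_inv] at hrel
    have hne : (1 : ZMod p) ≠ 0 := by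
      have : Fact (1 < p) := ⟨hp1⟩
      exact one_ne_zero
    rcases hz : ρ.1 gz with i | i
    · rw [hz, aut_r_pow _ hjp, mul_one, inv_mul_cancel, mul_one, DihedralGroup.one_def] at hrel
      injection hrel with h
      rw [sub_zero] at h
      exact hne h
    · rw [hz, aut_sr_pow _ hj2] at hrel
      rcases hk' : ρ.1 k with q | q
      · rw [hk', DihedralGroup.inv_r, DihedralGroup.r_mul_sr, DihedralGroup.sr_mul_r,
          DihedralGroup.r_mul_sr, DihedralGroup.one_def] at hrel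
        cases hrel
      · rw [hk', DihedralGroup.inv_sr, DihedralGroup.sr_mul_sr, DihedralGroup.r_mul_sr,
          DihedralGroup.r_mul_sr, DihedralGroup.one_def] at hrel
        cases hrel
  refine ⟨hunit, ?_⟩
  have hsur : Function.Surjective (gtF μ g) := by
    obtain ⟨ν, hν⟩ := hunit
    let φ : F2hat →ₜ* F2hat := gtF μ g
    have hcl : IsClosed ((φ : F2hat →* F2hat).range : Set F2hat) :=
      (isCompact_range φ.continuous).isClosed
    have hmem : ∀ a b : F2hat, gtF μ g a = hpow b μ → b ∈ (φ : F2hat →* F2hat).range := by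
      intro a b hab
      have h3 : hpow b μ ∈ (φ : F2hat →* F2hat).range := ⟨a, hab⟩
      have h4 := hpow_mem _ hcl _ h3 ((ν⁻¹ : Zhatˣ) : Zhat)
      rwa [← hpow_mul, ← hν, Units.mul_inv, hpow_one] at h4
    have htop : (φ : F2hat →* F2hat).range = ⊤ := by
      have e1 : gtF μ g gx = hpow gx μ := ev_gx _ _
      have e2 : gtF μ g gy = hpow (g⁻¹ * gy * g) μ := by
        have h := conj_hpow g⁻¹ gy μ
        rw [inv_inv] at h
        rw [← h]
        exact ev_gy _ _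
      have m1 := hmem _ _ e1
      have m2 := hmem _ _ e2
      rw [Subgroup.eq_top_iff']
      intro w
      obtain ⟨u, rfl⟩ := hs w
      have h3 : (φ : F2hat →* F2hat).range.comap (ev gx (g⁻¹ * gy * g) : F2hat →* F2hat) = ⊤ := by
        apply dense_F2hat
        · exact hcl.preimage (ev gx (g⁻¹ * gy * g)).continuous
        · rw [Subgroup.mem_comap]
          have h5 : (ev gx (g⁻¹ * gy * g) : F2hat →* F2hat) gx = gx := ev_gx _ _
          rw [h5]
          exact m1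
        · rw [Subgroup.mem_comap]
          have h5 : (ev gx (g⁻¹ * gy * g) : F2hat →* F2hat) gy = g⁻¹ * gy * g := ev_gy _ _
          rw [h5]
          exact m2
      have h4 : u ∈ (φ : F2hat →* F2hat).range.comap (ev gx (g⁻¹ * gy * g) : F2hat →* F2hat) := by
        rw [h3]
        trivial
      exact h4
    intro w
    have hw : w ∈ (φ : F2hat →* F2hat).range := by
      rw [htop]
      trivial
    exact hw
  exact ⟨aut_hopf _ hsur, hsur⟩

end Unit

end Pool.Agent.GTT
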