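import Pool.Agent.Lib.MP_2cc432_al.Free

/-!
# Module CENT: centralizers of the cusps
-/

open Filter Topology Finset

namespace Pool.Agent.GTT

/-- right translations on the functions on a group -/
def centρ {𝔽 G : Type} [Group 𝔽] [Group G] (p : ℕ) (ψ : 𝔽 →* G) :
    𝔽 →* AddMonoid.End (G → ZMod p) where
  toFun g :=
    { toFun := fun m a => m (a * ψ g)
      map_zero' := rfl
      map_add' := fun _ _ => rfl }
  map_one' := by
    refine AddMonoidHom.ext fun m => funext fun a => ?_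
    change m (a * ψ 1) = m a
    rw [map_one, mul_one]
  map_mul' g g' := by
    refine AddMonoidHom.ext fun m => funext fun a => ?_
    change m (a * ψ (g * g')) = m (a * ψ g * ψ g')
    rw [map_mul, mul_assoc]

theorem centρ_apply {𝔽 G : Type} [Group 𝔽] [Group G] {p : ℕ} (ψ : 𝔽 →* G) (g : 𝔽)
    (m : G → ZMod p) (a : G) : centρ p ψ g m a = m (a * ψ g) := rfl

theorem cent_smooth {𝔽 G : Type} [Group 𝔽] [TopologicalSpace 𝔽] [Group G] {p : ℕ} (ψ : 𝔽 →* G)
    (hψ : IsLocallyConstant ψ) : Smooth (centρ p ψ) := by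
  intro m
  filter_upwards [hψ.eventually_eq 1] with g hg
  refine funext fun a => ?_
  rw [centρ_apply, hg, map_one, mul_one]

theorem FreeProf.cent_swap {𝔽 : Type} [Group 𝔽] [TopologicalSpace 𝔽] {x y : 𝔽}
    (h : FreeProf 𝔽 x y) : FreeProf 𝔽 y x where
  dense S hS hy hx := h.dense S hS hx hy
  lift G _ _ a b := by
    obtain ⟨φ, h1, h2, h3⟩ := h.lift G b a
    exact ⟨φ, h1, h3, h2⟩

theorem FreeProf.cent_mul {𝔽 : Type} [Group 𝔽] [TopologicalSpace 𝔽] {x y : 𝔽}
    (h : FreeProf 𝔽 x y) : FreeProf 𝔽 x (x * y) where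
  dense S hS hx hxy := h.dense S hS hx (by
    have h1 := S.mul_mem (S.inv_mem hx) hxy
    rwa [inv_mul_cancel_left] at h1)
  lift G _ _ a b := by
    obtain ⟨φ, h1, h2, h3⟩ := h.lift G a (a⁻¹ * b)
    exact ⟨φ, h1, h2, by rw [map_mul, h2, h3, mul_inv_cancel_left]⟩

section Free

variable {𝔽 : Type} [Group 𝔽] [TopologicalSpace 𝔽] [IsTopologicalGroup 𝔽] [CompactSpace 𝔽]
  [T2Space 𝔽] [TotallyDisconnectedSpace 𝔽] {x y : 𝔽}

omit [CompactSpace 𝔽] [T2Space 𝔽] [TotallyDisconnectedSpace 𝔽] in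
theorem cent_mk_lc (N : Subgroup 𝔽) [N.Normal] (hN : IsOpen (N : Set 𝔽)) :
    IsLocallyConstant (QuotientGroup.mk' N : 𝔽 → 𝔽 ⧸ N) := by
  rw [IsLocallyConstant.iff_eventually_eq]
  intro g
  have h1 : Tendsto (fun g' : 𝔽 => g⁻¹ * g') (𝓝 g) (𝓝 1) := by
    have h2 : Continuous fun g' : 𝔽 => g⁻¹ * g' := continuous_const.mul continuous_id
    have h3 := h2.tendsto g
    simpa using h3
  filter_upwards [h1.eventually (hN.mem_nhds N.one_mem)] with g' hg'
  exact (QuotientGroup.eq.mpr hg').symm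

/-- an element which commutes with `y` is in the closure of the group generated by `y` -/
theorem cent_mem (h : FreeProf 𝔽 x y) (u : 𝔽) (hu : u * y = y * u) (H : Subgroup 𝔽)
    (hH : IsOpen (H : Set 𝔽)) (hy : y ∈ H) : u ∈ H := by
  classical
  obtain ⟨N', hN'⟩ := ProfiniteGrp.exist_openNormalSubgroup_sub_open_nhds_of_one hH H.one_mem
  set N : Subgroup 𝔽 := N'.toSubgroup with hNdef
  have hNn : N.Normal := N'.isNormal'
  have hNo : IsOpen (N : Set 𝔽) := N'.isOpen'
  have hNH : ∀ g ∈ N, g ∈ H := fun g hg => hN' hg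
  have hfin : Finite (𝔽 ⧸ N) := N.quotient_finite_of_isOpen hNo
  set q : 𝔽 →* 𝔽 ⧸ N := QuotientGroup.mk' N with hq
  have hqlc : IsLocallyConstant q := cent_mk_lc N hNo
  set e := orderOf (q y) with he
  have hepos : 0 < e := orderOf_pos _
  have : NeZero (2 * e) := ⟨by omega⟩
  obtain ⟨χ, hχ, hχx, hχy⟩ := h.lift (Multiplicative (ZMod (2 * e))) 1
    (Multiplicative.ofAdd 1)
  let C := Multiplicative (ZMod (2 * e))
  let ψ : 𝔽 →* (𝔽 ⧸ N) × C := q.prod χ
  have hψ : IsLocallyConstant ψ := hqlc.prodMk hχ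
  -- the function `b`
  let b : 𝔽 ⧸ N → ZMod 2 := fun a => if ∃ g ∈ H, q g = a then 1 else 0
  have hby : centρ 2 q y b = b := by
    funext a
    rw [centρ_apply]
    have h1 : (∃ g ∈ H, q g = a * q y) ↔ ∃ g ∈ H, q g = a := by
      constructor
      · rintro ⟨g, hg, hga⟩
        exact ⟨g * y⁻¹, H.mul_mem hg (H.inv_mem hy), by rw [map_mul, map_inv, hga]; group⟩
      · rintro ⟨g, hg, hga⟩
        exact ⟨g * y, H.mul_mem hg hy, by rw [map_mul, hga]⟩
    simp only [b, h1]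
  let δB : 𝔽 → (𝔽 ⧸ N → ZMod 2) := fun g => centρ 2 q g b - b
  have hδB : IsDer (centρ 2 q) δB := by
    refine ⟨fun g g' => ?_, ?_⟩
    · change centρ 2 q (g * g') b - b = (centρ 2 q g b - b) + centρ 2 q g (centρ 2 q g' b - b)
      rw [map_sub, map_mul, AddMonoid.End.coe_mul, Function.comp_apply]
      abel
    · refine hqlc.comp (fun c : 𝔽 ⧸ N => (fun a => b (a * c)) - b)
  have hδBy : δB y = 0 := by
    change centρ 2 q y b - b = 0
    rw [hby, sub_self]
  -- the push-forward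
  let π : ((𝔽 ⧸ N) × C → ZMod 2) →+ (𝔽 ⧸ N → ZMod 2) :=
    { toFun := fun m a => ∑ c : C, m (a, c)
      map_zero' := by
        funext a
        simp
      map_add' := fun m m' => by
        funext a
        simp [sum_add_distrib] }
  have hπ : ∀ g m, π (centρ 2 ψ g m) = centρ 2 q g (π m) := by
    intro g m
    funext a
    change ∑ c : C, m (a * q g, c * χ g) = ∑ c : C, m (a * q g, c)
    exact Fintype.sum_equiv (Equiv.mulRight (χ g)) _ _ fun c => rfl
  let t : (𝔽 ⧸ N) × C → ZMod 2 := fun r => if r.2 = 1 then δB x r.1 else 0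
  have ht : π t = δB x := by
    funext a
    change ∑ c : C, (if c = 1 then δB x a else 0) = δB x a
    rw [Finset.sum_eq_single (1 : C), if_pos rfl]
    · intro c _ hc
      exact if_neg hc
    · intro hc
      exact absurd (mem_univ _) hc
  obtain ⟨δA, hδA, hδAx, hδAy⟩ := exists_der h (p := 2) (T := (𝔽 ⧸ N) × C → ZMod 2)
    (fun m => by
      funext a
      change 2 • m a = 0
      rw [two_nsmul, CharTwo.add_self_eq_zero]) (centρ 2 ψ) (cent_smooth ψ hψ) t 0
  have hπδ : IsDer (centρ 2 q) fun g => π (δA g) := by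
    refine ⟨fun g g' => ?_, hδA.lc.comp π⟩
    rw [hδA.mul, map_add, hπ]
  have heq : (fun g => π (δA g)) = δB := by
    refine der_ext h (centρ 2 q) (cent_smooth q hqlc) hπδ hδB ?_ ?_
    · rw [hδAx, ht]
    · rw [hδAy, hδBy, map_zero]
  -- `δA u` is invariant under `y`
  have hinv : centρ 2 ψ y (δA u) = δA u := by
    have h1 := hδA.mul u y
    have h2 := hδA.mul y u
    rw [hδAy, map_zero, add_zero] at h1
    rw [hδAy, zero_add] at h2
    rw [← h2, ← hu, h1]
  have hinvk : ∀ k : ℕ, ∀ a c, δA u (a * q y ^ k, c * χ y ^ k) = δA u (a, c) := by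
    intro k
    induction k with
    | zero => intro a c; simp
    | succ k ih =>
      intro a c
      have h1 := congrFun hinv (a * q y ^ k, c * χ y ^ k)
      rw [centρ_apply] at h1
      rw [← ih a c, ← h1]
      change _ = δA u (a * q y ^ k * q y, c * χ y ^ k * χ y)
      rw [pow_succ, pow_succ, mul_assoc, mul_assoc]
  set s : C := χ y ^ e with hs
  have hs2 : s * s = 1 := by
    rw [hs, hχy, ← pow_add, ← ofAdd_nsmul]
    rw [show e + e = 2 * e by ring]
    rw [nsmul_eq_mul, mul_one, ZMod.natCast_self]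
    rfl
  have hs1 : s ≠ 1 := by
    intro h1
    rw [hs, hχy, ← ofAdd_nsmul, nsmul_eq_mul, mul_one] at h1
    have h2 : ((e : ℕ) : ZMod (2 * e)) = 0 := Multiplicative.ofAdd.injective h1
    rw [ZMod.natCast_eq_zero_iff] at h2
    have := Nat.le_of_dvd hepos h2
    omega
  have hinvs : ∀ a c, δA u (a, c * s) = δA u (a, c) := by
    intro a c
    have h1 := hinvk e a c
    rwa [pow_orderOf_eq_one, mul_one] at h1
  have hzero : π (δA u) = 0 := by
    funext a
    change ∑ c : C, δA u (a, c) = 0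
    refine sum_involution (fun c _ => c * s) ?_ ?_ ?_ ?_
    · intro c _
      rw [hinvs, CharTwo.add_self_eq_zero]
    · intro c _ _ h1
      exact hs1 (mul_eq_left.mp h1)
    · intro c _
      exact mem_univ _
    · intro c _
      rw [mul_assoc, hs2, mul_one]
  have hBu : δB u = 0 := by
    rw [← heq]
    exact hzero
  have h1 := congrFun hBu 1
  change b (1 * q u) - b 1 = 0 at h1
  have hb1 : b 1 = 1 := if_pos ⟨1, H.one_mem, map_one q⟩
  rw [hb1, one_mul, sub_eq_zero] at h1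
  have h2 : ∃ g ∈ H, q g = q u := by
    by_contra h3
    rw [show b (q u) = 0 from if_neg h3] at h1
    exact zero_ne_one h1
  obtain ⟨g, hg, hgu⟩ := h2
  have h3 : g⁻¹ * u ∈ N := QuotientGroup.eq.mp hgu
  have h4 := H.mul_mem hg (hNH _ h3)
  rwa [mul_inv_cancel_left] at h4

/-- an element which commutes with `y` and is trivial in the abelianization is trivial -/
theorem cent_trivial (h : FreeProf 𝔽 x y) (u : 𝔽) (hu : u * y = y * u)
    (hab : ∀ (n : ℕ) [NeZero n] (χ : 𝔽 →* Multiplicative (ZMod n)), IsLocallyConstant χ →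
      χ x = 1 → χ u = 1) : u = 1 := by
  classical
  by_contra hne
  obtain ⟨N', hN'⟩ := ProfiniteGrp.exist_openNormalSubgroup_sub_open_nhds_of_one
    (isOpen_compl_singleton (x := u)) (by simpa using Ne.symm hne)
  set N : Subgroup 𝔽 := N'.toSubgroup with hNdef
  have hNn : N.Normal := N'.isNormal'
  have hNo : IsOpen (N : Set 𝔽) := N'.isOpen'
  have huN : u ∉ N := fun h1 => hN' h1 rfl
  have hfin : Finite (𝔽 ⧸ N) := N.quotient_finite_of_isOpen hNo
  set q : 𝔽 →* 𝔽 ⧸ N := QuotientGroup.mk' N with hq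
  set e := orderOf (q y) with he
  have hepos : 0 < e := orderOf_pos _
  have : NeZero e := ⟨hepos.ne'⟩
  obtain ⟨χ, hχ, hχx, hχy⟩ := h.lift (Multiplicative (ZMod e)) 1 (Multiplicative.ofAdd 1)
  let K : Subgroup 𝔽 := N ⊓ χ.ker
  have hKo : IsOpen (K : Set 𝔽) := by
    have h2 : IsOpen ((χ.ker : Subgroup 𝔽) : Set 𝔽) := hχ.isOpen_fiber 1
    exact hNo.inter h2
  have hKn : K.Normal := inferInstance
  let H : Subgroup 𝔽 := Subgroup.zpowers y ⊔ K
  have hHo : IsOpen (H : Set 𝔽) := Subgroup.isOpen_mono le_sup_right hKo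
  have huH : u ∈ H := cent_mem h u hu H hHo (Subgroup.mem_sup_left (Subgroup.mem_zpowers y))
  obtain ⟨a, ha, w, hw, haw⟩ := Subgroup.mem_sup_of_normal_right.mp huH
  obtain ⟨k, rfl⟩ := Subgroup.mem_zpowers_iff.mp ha
  have hχu : χ u = 1 := hab e χ hχ hχx
  have hwN : w ∈ N := hw.1
  have hwχ : χ w = 1 := hw.2
  have hk : χ y ^ k = 1 := by
    rw [← haw, map_mul, hwχ, mul_one, map_zpow] at hχu
    exact hχu
  have hdvd : (e : ℤ) ∣ k := by
    rw [hχy, ← ofAdd_zsmul, zsmul_eq_mul, mul_one] at hk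
    have h2 : ((k : ℤ) : ZMod e) = 0 := Multiplicative.ofAdd.injective hk
    rwa [ZMod.intCast_zmod_eq_zero_iff_dvd] at h2
  have hyk : y ^ k ∈ N := by
    have h2 : q (y ^ k) = 1 := by
      rw [map_zpow]
      exact orderOf_dvd_iff_zpow_eq_one.mp hdvd
    exact (QuotientGroup.eq_one_iff _).mp h2
  exact huN (haw ▸ N.mul_mem hyk hwN)

/-- the same for `x` -/
theorem cent_trivial_x (h : FreeProf 𝔽 x y) (u : 𝔽) (hu : u * x = x * u)
    (hab : ∀ (n : ℕ) [NeZero n] (χ : 𝔽 →* Multiplicative (ZMod n)), IsLocallyConstant χ →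
      χ y = 1 → χ u = 1) : u = 1 :=
  cent_trivial h.cent_swap u hu hab

/-- the same for `x * y` -/
theorem cent_trivial_xy (h : FreeProf 𝔽 x y) (u : 𝔽) (hu : u * (x * y) = x * y * u)
    (hab : ∀ (n : ℕ) [NeZero n] (χ : 𝔽 →* Multiplicative (ZMod n)), IsLocallyConstant χ →
      χ x = 1 → χ u = 1) : u = 1 :=
  cent_trivial h.cent_mul u hu hab

/-- `u` is killed by all locally constant homomorphisms to cyclic groups (`u` is in the closure of
the commutator subgroup) -/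
def CentComm (u : 𝔽) : Prop :=
  ∀ (n : ℕ) [NeZero n] (χ : 𝔽 →* Multiplicative (ZMod n)), IsLocallyConstant χ → χ u = 1

omit [IsTopologicalGroup 𝔽] [CompactSpace 𝔽] [T2Space 𝔽] [TotallyDisconnectedSpace 𝔽] in
theorem CentComm.map {u : 𝔽} (hu : CentComm u) (F : 𝔽 ≃ₜ* 𝔽) : CentComm (F u) :=
  fun n _ χ hχ => hu n (χ.comp (F : 𝔽 →* 𝔽)) (hχ.comp_continuous F.continuous)

omit [IsTopologicalGroup 𝔽] [CompactSpace 𝔽] [T2Space 𝔽] [TotallyDisconnectedSpace 𝔽] in
theorem CentComm.mul {u v : 𝔽} (hu : CentComm u) (hv : CentComm v) : CentComm (u * v) :=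
  fun n _ χ hχ => by rw [map_mul, hu n χ hχ, hv n χ hχ, mul_one]

omit [IsTopologicalGroup 𝔽] [CompactSpace 𝔽] [T2Space 𝔽] [TotallyDisconnectedSpace 𝔽] in
theorem CentComm.inv {u : 𝔽} (hu : CentComm u) : CentComm u⁻¹ :=
  fun n _ χ hχ => by rw [map_inv, hu n χ hχ, inv_one]

omit [IsTopologicalGroup 𝔽] [CompactSpace 𝔽] [T2Space 𝔽] [TotallyDisconnectedSpace 𝔽] in
theorem CentComm.one : CentComm (1 : 𝔽) := fun _ _ χ _ => map_one χ

omit [IsTopologicalGroup 𝔽] [CompactSpace 𝔽] [T2Space 𝔽] [TotallyDisconnectedSpace 𝔽] in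
theorem CentComm.nv {u : 𝔽} (hu : CentComm u) (F : 𝔽 ≃ₜ* 𝔽) (n : ℕ) : CentComm (nv F n u) := by
  induction n with
  | zero => exact CentComm.one
  | succ n ih => exact hu.mul (ih.map F)

omit [IsTopologicalGroup 𝔽] [CompactSpace 𝔽] [T2Space 𝔽] [TotallyDisconnectedSpace 𝔽] in
theorem cent_nv_conj (F : 𝔽 ≃ₜ* 𝔽) (a b : 𝔽) (hb : b * F a * b⁻¹ = a) (n : ℕ) :
    nv F n b * F^[n] a * (nv F n b)⁻¹ = a := by
  induction n with
  | zero => simp [nv]
  | succ n ih =>
    have h1 : nv F (n + 1) b * F^[n + 1] a * (nv F (n + 1) b)⁻¹ =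
        b * F (nv F n b * F^[n] a * (nv F n b)⁻¹) * b⁻¹ := by
      rw [nv_succ, Function.iterate_succ_apply']
      simp only [map_mul, map_inv]
      group
    rw [h1, ih, hb]

/-- the cocycle condition for the cusps -/
theorem cent_nv_eq_one {p : ℕ} (h : FreeProf 𝔽 x y) (F : 𝔽 ≃ₜ* 𝔽) (hF : ∀ g, F^[p] g = g)
    (a : 𝔽) (ha : a = x ∨ a = y ∨ a = x * y) (b : 𝔽) (hb : b * F a * b⁻¹ = a)
    (hcomm : CentComm b) : nv F p b = 1 := by
  have h1 := cent_nv_conj F a b hb p
  rw [hF] at h1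
  have h2 : nv F p b * a = a * nv F p b := by
    rw [← mul_inv_eq_iff_eq_mul]
    exact h1
  have h3 : CentComm (nv F p b) := hcomm.nv F p
  rcases ha with rfl | rfl | rfl
  · exact cent_trivial_x h _ h2 fun n _ χ hχ _ => h3 n χ hχ
  · exact cent_trivial h _ h2 fun n _ χ hχ _ => h3 n χ hχ
  · exact cent_trivial_xy h _ h2 fun n _ χ hχ _ => h3 n χ hχ

end Free

end Pool.Agent.GTT
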