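import Pool.Agent.Lib.MP_2cc432_al.FreeN

/-!
# Derivations with prescribed residues at the cusps
-/

open Filter Topology Finset

namespace Pool.Agent.GTT

section Cusps

variable {P : Type} [Group P] [TopologicalSpace P] [IsTopologicalGroup P] [CompactSpace P]
  [T2Space P] [TotallyDisconnectedSpace P] {n : ℕ} {c : Fin n → P}

omit [IsTopologicalGroup P] [CompactSpace P] [T2Space P] [TotallyDisconnectedSpace P] in
theorem ext_one {T : Type} [AddCommGroup T] {ρ : P →* AddMonoid.End T} {δ : P → T}
    (hδ : IsDer ρ δ) : δ 1 = 0 := by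
  have h := hδ.mul 1 1
  rw [mul_one, map_one] at h
  have h2 : δ 1 = δ 1 + δ 1 := h
  simpa using h2

omit [IsTopologicalGroup P] [CompactSpace P] [T2Space P] [TotallyDisconnectedSpace P] in
theorem ext_inv {T : Type} [AddCommGroup T] {ρ : P →* AddMonoid.End T} {δ : P → T}
    (hδ : IsDer ρ δ) (g : P) : δ g⁻¹ = - ρ g⁻¹ (δ g) := by
  have h := hδ.mul g⁻¹ g
  rw [inv_mul_cancel, ext_one hδ] at h
  exact eq_neg_of_add_eq_zero_left h.symm

omit [IsTopologicalGroup P] [CompactSpace P] [T2Space P] [TotallyDisconnectedSpace P] in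
theorem ext_act_inv {T : Type} [AddCommGroup T] (ρ : P →* AddMonoid.End T) (g : P) (t : T) :
    ρ g⁻¹ (ρ g t) = t := by
  change (ρ g⁻¹ * ρ g) t = t
  rw [← map_mul, inv_mul_cancel, map_one]
  rfl

omit [IsTopologicalGroup P] [CompactSpace P] [T2Space P] [TotallyDisconnectedSpace P] in
theorem ext_act_inv' {T : Type} [AddCommGroup T] (ρ : P →* AddMonoid.End T) (g : P) (t : T) :
    ρ g (ρ g⁻¹ t) = t := by
  change (ρ g * ρ g⁻¹) t = t
  rw [← map_mul, mul_inv_cancel, map_one]
  rfl

omit [CompactSpace P] [T2Space P] [TotallyDisconnectedSpace P] in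
theorem ext_lc {T : Type} [AddCommGroup T] (ρ : P →* AddMonoid.End T) (hρ : Smooth ρ) (t : T) :
    IsLocallyConstant fun g => ρ g t := by
  rw [IsLocallyConstant.iff_eventually_eq]
  intro g
  have h := hρ t
  have h2 : Tendsto (fun x : P => g⁻¹ * x) (𝓝 g) (𝓝 (g⁻¹ * g)) :=
    (continuous_const.mul continuous_id).tendsto g
  rw [inv_mul_cancel] at h2
  filter_upwards [h2.eventually h] with x hx
  have h3 : x = g * (g⁻¹ * x) := by group
  change ρ x t = ρ g t
  rw [h3, map_mul, AddMonoid.End.coe_mul, Function.comp_apply, hx]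

/-- the sum of the images of `c' k - 1` -/
def extMap {T : Type} [AddCommGroup T] (ρ : P →* AddMonoid.End T) {n : ℕ} (e : Fin n → P) :
    (Fin n → T) →+ T where
  toFun t := ∑ k, (ρ (e k) (t k) - t k)
  map_zero' := by simp
  map_add' a b := by
    rw [← Finset.sum_add_distrib]
    refine Finset.sum_congr rfl fun k _ => ?_
    simp only [Pi.add_apply, map_add]
    abel

omit [CompactSpace P] [T2Space P] [TotallyDisconnectedSpace P] in
theorem ext_sub_mem (h : FreeProfN P c) {T : Type} [AddCommGroup T] (ρ : P →* AddMonoid.End T)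
    (hρ : Smooth ρ) (g : P) (t : T) :
    ρ g t - t ∈ (extMap ρ fun k : Fin n =>
      Fin.partialProd c k.succ * (Fin.partialProd c k.castSucc)⁻¹).range := by
  set e : Fin n → P := fun k => Fin.partialProd c k.succ * (Fin.partialProd c k.castSucc)⁻¹
    with he
  set I := (extMap ρ e).range with hI
  have hk : ∀ k t, ρ (e k) t - t ∈ I := by
    intro k t
    refine ⟨Pi.single k t, ?_⟩
    change ∑ i, (ρ (e i) ((Pi.single k t : Fin n → T) i) - (Pi.single k t : Fin n → T) i) = _
    rw [Finset.sum_eq_single k]
    · rw [Pi.single_eq_same]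
    · intro i _ hik
      rw [Pi.single_eq_of_ne hik, map_zero, sub_zero]
    · intro hh
      exact absurd (Finset.mem_univ k) hh
  let S : Subgroup P :=
    { carrier := {g | ∀ t, ρ g t - t ∈ I}
      mul_mem' := by
        intro a b ha hb t
        have h1 : ρ (a * b) t - t = (ρ a (ρ b t) - ρ b t) + (ρ b t - t) := by
          rw [map_mul, AddMonoid.End.coe_mul, Function.comp_apply]
          abel
        rw [h1]
        exact I.add_mem (ha _) (hb _)
      one_mem' := by
        intro t
        rw [map_one]
        change t - t ∈ I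
        rw [sub_self]
        exact I.zero_mem
      inv_mem' := by
        intro a ha t
        have h1 : ρ a⁻¹ t - t = - (ρ a (ρ a⁻¹ t) - ρ a⁻¹ t) := by
          rw [ext_act_inv']
          abel
        rw [h1]
        exact I.neg_mem (ha _) }
  have hS : IsClosed (S : Set P) := by
    have h1 : (S : Set P) = ⋂ t : T, (fun g => ρ g t - t) ⁻¹' (I : Set T) := by
      ext g
      simp only [Set.mem_iInter, Set.mem_preimage]
      rfl
    rw [h1]
    refine isClosed_iInter fun t => ?_
    have h2 : IsLocallyConstant fun g => ρ g t - t :=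
      (ext_lc ρ hρ t).comp (fun s => s - t)
    refine isOpen_compl_iff.1 ?_
    rw [← Set.preimage_compl]
    exact h2 _
  have hpp : ∀ k : Fin (n + 1), Fin.partialProd c k ∈ S := by
    intro k
    induction k using Fin.induction with
    | zero =>
      rw [Fin.partialProd_zero]
      exact S.one_mem
    | succ k ih =>
      have h1 : Fin.partialProd c k.succ = e k * Fin.partialProd c k.castSucc := by
        rw [he]
        group
      rw [h1]
      exact S.mul_mem (hk k) ih
  have hT : S = ⊤ := by
    refine h.dense S hS fun i => ?_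
    have h1 : c i = (Fin.partialProd c i.castSucc)⁻¹ * Fin.partialProd c i.succ := by
      rw [Fin.partialProd_succ, inv_mul_cancel_left]
    rw [h1]
    exact S.mul_mem (S.inv_mem (hpp _)) (hpp _)
  have h2 : g ∈ S := by
    rw [hT]
    trivial
  exact h2 t

omit [TopologicalSpace P] [IsTopologicalGroup P] [CompactSpace P] [T2Space P]
  [TotallyDisconnectedSpace P] in
theorem ext_cusp_none : cusp c none = (Fin.partialProd c (Fin.last n))⁻¹ := by
  have h1 : Fin.partialProd c (Fin.last n) = (List.ofFn c).prod := by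
    rw [Fin.partialProd, Fin.val_last, List.take_of_length_le]
    rw [List.length_ofFn]
  rw [h1]
  rfl

omit [IsTopologicalGroup P] [CompactSpace P] [T2Space P] [TotallyDisconnectedSpace P] in
theorem ext_sum {T : Type} [AddCommGroup T] {ρ : P →* AddMonoid.End T} {δ : P → T}
    (hδ : IsDer ρ δ) : δ (Fin.partialProd c (Fin.last n)) =
      ∑ k : Fin n, ρ (Fin.partialProd c k.castSucc) (δ (c k)) := by
  have h1 := Fin.sum_univ_succ (fun k : Fin (n + 1) => δ (Fin.partialProd c k))
  have h2 := Fin.sum_univ_castSucc (fun k : Fin (n + 1) => δ (Fin.partialProd c k))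
  have h3 : ∑ k : Fin n, δ (Fin.partialProd c k.succ) =
      ∑ k : Fin n, δ (Fin.partialProd c k.castSucc) +
        ∑ k : Fin n, ρ (Fin.partialProd c k.castSucc) (δ (c k)) := by
    rw [← Finset.sum_add_distrib]
    refine Finset.sum_congr rfl fun k _ => ?_
    rw [Fin.partialProd_succ, hδ.mul]
  have h4 : δ (Fin.partialProd c 0) = 0 := by
    rw [Fin.partialProd_zero, ext_one hδ]
  have h5 := h1.symm.trans h2
  simp only [h4, zero_add, h3] at h5
  exact (add_left_cancel h5).symm

/-- EXT -/
theorem ext_der (h : FreeProfN P c) {T : Type} [AddCommGroup T] {N : ℕ} (hN : 0 < N)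
    (hT : ∀ t : T, N • t = 0) (ρ : P →* AddMonoid.End T) (hρ : Smooth ρ) (m : T)
    (hm : m ∈ AddSubgroup.closure {t | ∃ g s, t = ρ g s - s}) (j : Option (Fin n)) :
    ∃ δ : P → T, IsDer ρ δ ∧ (∃ b, δ (cusp c j) = m + (ρ (cusp c j) b - b)) ∧
      ∀ i, i ≠ j → ∃ b, δ (cusp c i) = ρ (cusp c i) b - b := by
  classical
  set e : Fin n → P := fun k => Fin.partialProd c k.succ * (Fin.partialProd c k.castSucc)⁻¹
    with he
  set I := (extMap ρ e).range with hI
  have hsub : ∀ g t, ρ g t - t ∈ I := ext_sub_mem h ρ hρ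
  have hm' : m ∈ I := by
    refine (AddSubgroup.closure_le I).2 ?_ hm
    rintro _ ⟨g, s, rfl⟩
    exact hsub g s
  set q : P := Fin.partialProd c (j.elim (Fin.last n) Fin.castSucc) with hq
  have hqm : - ρ q m ∈ I := by
    have h1 : ρ q m = (ρ q m - m) + m := by abel
    rw [h1]
    exact I.neg_mem (I.add_mem (hsub q m) hm')
  obtain ⟨t, ht⟩ := hqm
  have ht' : ∑ k, (ρ (e k) (t k) - t k) = - ρ q m := ht
  set b : Fin n → T := fun k => ρ (Fin.partialProd c k.castSucc)⁻¹ (t k) with hb
  obtain ⟨δ, hδ, hc⟩ := exists_derN h hN hT ρ hρ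
    (fun k => (if some k = j then m else 0) + (ρ (c k) (b k) - b k))
  have hsum : δ (Fin.partialProd c (Fin.last n)) =
      ∑ k : Fin n, (if some k = j then ρ (Fin.partialProd c k.castSucc) m else 0) - ρ q m := by
    rw [ext_sum hδ, sub_eq_add_neg, ← ht', ← Finset.sum_add_distrib]
    refine Finset.sum_congr rfl fun k _ => ?_
    rw [hc k, map_add, map_sub]
    congr 1
    · split_ifs
      · rfl
      · rw [map_zero]
    · rw [hb, he]
      simp only
      rw [ext_act_inv', Fin.partialProd_succ, map_mul, map_mul, AddMonoid.End.coe_mul, Function.comp_apply,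
        AddMonoid.End.coe_mul, Function.comp_apply]
  refine ⟨δ, hδ, ?_, ?_⟩
  · rcases j with _ | j
    · refine ⟨0, ?_⟩
      have h1 : δ (Fin.partialProd c (Fin.last n)) = - ρ (Fin.partialProd c (Fin.last n)) m := by
        rw [hsum]
        simp [hq]
      rw [ext_cusp_none, ext_inv hδ, h1, map_neg, ext_act_inv, neg_neg, map_zero, sub_zero,
        add_zero]
    · refine ⟨b j, ?_⟩
      change δ (c j) = m + (ρ (c j) (b j) - b j)
      rw [hc j, if_pos rfl]
  · intro i hij
    rcases i with _ | i
    · rcases j with _ | j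
      · exact absurd rfl hij
      · refine ⟨0, ?_⟩
        have h1 : δ (Fin.partialProd c (Fin.last n)) = 0 := by
          rw [hsum, Finset.sum_eq_single j]
          · simp [hq]
          · intro k _ hk
            rw [if_neg]
            intro h2
            exact hk (Option.some.inj h2)
          · intro h2
            exact absurd (Finset.mem_univ j) h2
        rw [ext_cusp_none, ext_inv hδ, h1, map_zero, neg_zero, sub_zero]
    · refine ⟨b i, ?_⟩
      change δ (c i) = ρ (c i) (b i) - b i
      rw [hc i, if_neg hij, zero_add]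

end Cusps

end Pool.Agent.GTT
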