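import Pool.Agent.Lib.MP_2cc432_al.Defs3
import Pool.Agent.Lib.MP_2cc432_al.PD
import Pool.Agent.Lib.MP_2cc432_al.Ext

/-!
# DUALN: duality for a free profinite group with cusps
-/

open Filter Topology Finset

namespace Pool.Agent.GTT

theorem dualn_count {G : Type*} [Group G] [Finite G] (a g : G) [Decidable (g ∈ Subgroup.zpowers a)]
    [DecidableEq G] : (∑ i ∈ range (orderOf a), if g = a ^ i then (1 : ZMod 2) else 0) =
      if g ∈ Subgroup.zpowers a then 1 else 0 := by
  split_ifs with hg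
  · obtain ⟨i, hi, rfl⟩ : ∃ i, i < orderOf a ∧ a ^ i = g := by
      have h1 := mem_zpowers_iff_mem_range_orderOf.1 hg
      rw [mem_image] at h1
      obtain ⟨i, hi, h2⟩ := h1
      exact ⟨i, mem_range.1 hi, h2⟩
    rw [sum_eq_single i]
    · rw [if_pos rfl]
    · intro j hj hji
      rw [if_neg]
      intro h2
      exact hji (pow_injOn_Iio_orderOf (mem_range.1 hj) hi h2.symm)
    · intro h2
      exact absurd (mem_range.2 hi) h2
  · refine sum_eq_zero fun i _ => ?_
    rw [if_neg]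
    rintro rfl
    exact hg (Subgroup.npow_mem_zpowers a i)

section

variable {P : Type} [Group P] (V : Subgroup P) [hVn : V.Normal]

theorem dualn_mk (a g : P) :
    cuspMk V a g = cuspMk V a 1 ↔
      (QuotientGroup.mk g : P ⧸ V) ∈ Subgroup.zpowers (QuotientGroup.mk a : P ⧸ V) := by
  rw [cuspMk_eq, Subgroup.mem_zpowers_iff]
  refine exists_congr fun k => ?_
  rw [mul_one, ← QuotientGroup.eq, QuotientGroup.mk_zpow]

end

section Cusps

variable {P : Type} [Group P] [TopologicalSpace P] [IsTopologicalGroup P] [CompactSpace P]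
  [T2Space P] [TotallyDisconnectedSpace P] {n : ℕ} {c : Fin n → P}

variable (V : Subgroup P) [hVn : V.Normal]

/-- DUALN (uses EXT) -/
theorem dualityN (h : FreeProfN P c) (hV : IsOpen (V : Set P)) [Fintype (Cusps c V)]
    (φ : V → ZMod 2) (hφ : IsHom φ) (hur : UnramN c V φ) (hne : ∃ v, φ v ≠ 0) :
    ∃ ψ d : V → ZMod 2, IsHom ψ ∧ UnramN c V ψ ∧ IsLocallyConstant d ∧
      (∀ g h, d (g * h) = d g + d h + φ g * ψ h) ∧ ∑ ω : Cusps c V, cval c V d ω = 1 := by
  classical
  obtain ⟨v₀, hv₀⟩ : ∃ v, φ v = 1 := by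
    obtain ⟨v, hv⟩ := hne
    refine ⟨v, ?_⟩
    have h1 : ∀ x : ZMod 2, x ≠ 0 → x = 1 := by decide
    exact h1 _ hv
  set ρ := pdρ V φ with hρdef
  have hρ : Smooth ρ := pd_smooth V hV φ hφ
  let m : pdT V φ := ⟨fun g => if g ∈ V then (1, 0) else 0, by
    intro v g
    have : (v : P) * g ∈ V ↔ g ∈ V := V.mul_mem_cancel_left v.2
    simp only [this]
    split_ifs
    · simp
    · simp only [Prod.fst_zero, Prod.snd_zero, mul_zero, add_zero]
      rfl⟩
  let e : pdT V φ := ⟨fun g => if hg : g ∈ V then (φ ⟨g, hg⟩, 1) else 0, by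
    intro v g
    by_cases hg : g ∈ V
    · have hvg : (v : P) * g ∈ V := V.mul_mem v.2 hg
      simp only [dif_pos hg, dif_pos hvg]
      have h1 : (⟨(v : P) * g, hvg⟩ : V) = v * ⟨g, hg⟩ := rfl
      rw [h1, hφ.mul]
      simp [add_comm]
    · have hvg : (v : P) * g ∉ V := fun h' => hg ((V.mul_mem_cancel_left v.2).mp h')
      simp only [dif_neg hg, dif_neg hvg, Prod.fst_zero, Prod.snd_zero, mul_zero, add_zero]
      rfl⟩
  have hme : m = ρ v₀ e - e := by
    refine Subtype.ext (funext fun g => ?_)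
    change m.1 g = e.1 (g * v₀) - e.1 g
    by_cases hg : g ∈ V
    · have hgv : g * v₀ ∈ V := V.mul_mem hg v₀.2
      simp only [m, e, if_pos hg, dif_pos hg, dif_pos hgv]
      have h1 : (⟨g * v₀, hgv⟩ : V) = ⟨g, hg⟩ * v₀ := rfl
      rw [h1, hφ.mul, hv₀]
      simp
    · have hgv : g * v₀ ∉ V := fun h' => hg ((V.mul_mem_cancel_right v₀.2).mp h')
      simp only [m, e, if_neg hg, dif_neg hg, dif_neg hgv, sub_zero]
  have hm2 : ∀ g, (m.1 g).2 = 0 := by
    intro g
    simp only [m]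
    split_ifs <;> rfl
  have hm1 : ∀ g, (m.1 g).1 = if g ∈ V then 1 else 0 := by
    intro g
    simp only [m]
    split_ifs <;> rfl
  obtain ⟨δ, hδ, ⟨b, hb⟩, hi⟩ := ext_der h (N := 2) (T := pdT V φ) two_pos
    (fun t => by
      refine Subtype.ext (funext fun g => ?_)
      change 2 • t.1 g = 0
      rw [two_nsmul]
      exact Prod.ext (CharTwo.add_self_eq_zero _) (CharTwo.add_self_eq_zero _)) ρ hρ m
    (AddSubgroup.subset_closure ⟨v₀, e, hme⟩) none
  have hmul : ∀ v w : V, (δ ((v * w : V) : P)).1 1 =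
      (((δ v).1 1).1 + ((δ w).1 1).1 + φ v * ((δ w).1 1).2, ((δ v).1 1).2 + ((δ w).1 1).2) := by
    intro v w
    rw [Subgroup.coe_mul, hδ.mul]
    change (δ v).1 1 + (δ w).1 (1 * v) = _
    have h1 : (1 : P) * v = v * 1 := by rw [one_mul, mul_one]
    rw [h1, pdT_apply]
    ext
    · simp only [Prod.fst_add]
      ring
    · simp only [Prod.snd_add]
  have hlc : IsLocallyConstant fun v : V => (δ v).1 1 :=
    (hδ.lc.comp_continuous continuous_subtype_val).comp fun t : pdT V φ => t.1 1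
  have hinv : ∀ (t : pdT V φ) (i : Option (Fin n)) (g : P) (k : ℕ)
      (hv : g⁻¹ * cusp c i ^ k * g ∈ V), t.1 (g⁻¹ * cusp c i ^ k) = t.1 g⁻¹ := by
    intro t i g k hv
    have h3 : g⁻¹ * cusp c i ^ k = (⟨g⁻¹ * cusp c i ^ k * g, hv⟩ : V) * g⁻¹ := by simp
    rw [h3, pdT_apply, hur i g k hv]
    simp
  have hcusp : ∀ i, i ≠ none → ∀ (g : P) (k : ℕ) (hv : g⁻¹ * cusp c i ^ k * g ∈ V),
      (δ (g⁻¹ * cusp c i ^ k * g)).1 1 = 0 := by
    intro i hin g k hv
    rw [pd_conj hδ g _ hv (hur i g k hv)]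
    obtain ⟨t, ht⟩ := hi i hin
    rw [pd_pow_sub hδ _ t ht]
    change t.1 (g⁻¹ * cusp c i ^ k) - t.1 g⁻¹ = 0
    rw [hinv t i g k hv, sub_self]
  have hcuspn : ∀ (g : P) (k : ℕ) (hv : g⁻¹ * cusp c none ^ k * g ∈ V),
      (δ (g⁻¹ * cusp c none ^ k * g)).1 1 = ∑ i ∈ range k, m.1 (g⁻¹ * cusp c none ^ i) := by
    intro g k hv
    rw [pd_conj hδ g _ hv (hur none g k hv), pd_pow_sum hδ, hb]
    have h1 : ∀ i, (m + (ρ (cusp c none) b - b)).1 (g⁻¹ * cusp c none ^ i) =
        m.1 (g⁻¹ * cusp c none ^ i) +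
          (b.1 (g⁻¹ * cusp c none ^ (i + 1)) - b.1 (g⁻¹ * cusp c none ^ i)) := by
      intro i
      rw [pow_succ, ← mul_assoc]
      rfl
    rw [sum_congr rfl fun i _ => h1 i, sum_add_distrib,
      sum_range_sub fun i => b.1 (g⁻¹ * cusp c none ^ i), hinv b none g k hv, pow_zero, mul_one,
      sub_self, add_zero]
  have hfin : Finite (P ⧸ V) := V.quotient_finite_of_isOpen hV
  refine ⟨fun v => ((δ v).1 1).2, fun v => ((δ v).1 1).1, ⟨?_, ?_⟩, ?_, ?_, ?_, ?_⟩
  · intro v w
    exact congrArg Prod.snd (hmul v w)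
  · exact hlc.comp Prod.snd
  · intro i g k hv
    change ((δ (g⁻¹ * cusp c i ^ k * g)).1 1).2 = 0
    by_cases hin : i = none
    · subst hin
      rw [hcuspn g k hv, Prod.snd_sum]
      exact sum_eq_zero fun i _ => hm2 _
    · rw [hcusp i hin g k hv]
      rfl
  · exact hlc.comp Prod.fst
  · intro v w
    exact congrArg Prod.fst (hmul v w)
  · have hval : ∀ g : P, ((δ (cuspEl V (cusp c none) g : P)).1 1).1 =
        if cuspMk V (cusp c none) g = cuspMk V (cusp c none) 1 then 1 else 0 := by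
      intro g
      change ((δ (g⁻¹ * cusp c none ^ orderOf (QuotientGroup.mk (cusp c none) : P ⧸ V) * g)).1
        1).1 = _
      rw [hcuspn g _ (cusp_mem V (cusp c none) g), Prod.fst_sum]
      simp only [dualn_mk, hm1]
      rw [← dualn_count]
      refine sum_congr rfl fun i _ => ?_
      congr 1
      rw [eq_iff_iff, ← QuotientGroup.eq, QuotientGroup.mk_pow]
    rw [sum_eq_single (⟨none, cuspMk V (cusp c none) 1⟩ : Cusps c V)]
    · unfold cval
      have h1 := hval (cuspMk V (cusp c none) 1).out.out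
      have h2 : cuspMk V (cusp c none) (cuspMk V (cusp c none) 1).out.out =
          cuspMk V (cusp c none) 1 := by
        conv_rhs => rw [← Quotient.out_eq' (cuspMk V (cusp c none) 1)]
        unfold cuspMk
        rw [QuotientGroup.out_eq']
      rw [if_pos h2] at h1
      exact h1
    · rintro ⟨i, q⟩ - hne
      unfold cval
      by_cases hin : i = none
      · subst hin
        have h1 := hval q.out.out
        have h2 : cuspMk V (cusp c none) q.out.out = q := by
          conv_rhs => rw [← Quotient.out_eq' q]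
          unfold cuspMk
          rw [QuotientGroup.out_eq']
        rw [h2, if_neg (fun h3 => hne (by rw [h3]))] at h1
        exact h1
      · change ((δ (q.out.out⁻¹ * cusp c i ^ orderOf (QuotientGroup.mk (cusp c i) : P ⧸ V) *
          q.out.out)).1 1).1 = 0
        rw [hcusp i hin _ _ (cusp_mem V (cusp c i) _)]
        rfl
    · intro h1
      exact absurd (mem_univ _) h1

end Cusps

end Pool.Agent.GTT
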