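import Pool.Agent.Lib.MP_2cc432_al.Free

/-!
# Torsion in the profinite Grothendieck–Teichmüller group: lifting derivations of open subgroups
-/

open Filter Topology Finset

namespace Pool.Agent.GTT

section DL

variable {𝔽 : Type} [Group 𝔽]

/-- the module coinduced from a subgroup -/
def dlM (V : Subgroup 𝔽) {T : Type} [AddCommGroup T] (ρ : V →* AddMonoid.End T) :
    AddSubgroup (𝔽 → T) where
  carrier := {m | ∀ (v : V) (h : 𝔽), m (v * h) = ρ v (m h)}
  add_mem' := by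
    intro a b ha hb v h
    rw [Pi.add_apply, Pi.add_apply, ha, hb, map_add]
  zero_mem' := by
    intro v h
    rw [Pi.zero_apply, Pi.zero_apply, map_zero]
  neg_mem' := by
    intro a ha v h
    rw [Pi.neg_apply, Pi.neg_apply, ha, map_neg]

/-- right translation on the coinduced module -/
def dlρ (V : Subgroup 𝔽) {T : Type} [AddCommGroup T] (ρ : V →* AddMonoid.End T) :
    𝔽 →* AddMonoid.End (dlM V ρ) where
  toFun g :=
    { toFun := fun m => ⟨fun h => m.1 (h * g), fun v h => by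
        change m.1 (v * h * g) = ρ v (m.1 (h * g))
        rw [mul_assoc]
        exact m.2 v (h * g)⟩
      map_zero' := rfl
      map_add' := fun a b => rfl }
  map_one' := by
    ext m h
    change m.1 (h * 1) = m.1 h
    rw [mul_one]
  map_mul' a b := by
    ext m h
    change m.1 (h * (a * b)) = m.1 (h * a * b)
    rw [mul_assoc]

theorem dlρ_apply (V : Subgroup 𝔽) {T : Type} [AddCommGroup T] (ρ : V →* AddMonoid.End T)
    (g : 𝔽) (m : dlM V ρ) (h : 𝔽) : (dlρ V ρ g m).1 h = m.1 (h * g) := rfl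

/-- post-composition with a map of modules -/
def dlMap (V : Subgroup 𝔽) {T T' : Type} [AddCommGroup T] [AddCommGroup T']
    (ρ : V →* AddMonoid.End T) (ρ' : V →* AddMonoid.End T') (π : T →+ T')
    (hπ : ∀ g t, π (ρ g t) = ρ' g (π t)) : dlM V ρ →+ dlM V ρ' where
  toFun m := ⟨fun h => π (m.1 h), fun v h => by
    change π (m.1 (v * h)) = ρ' v (π (m.1 h))
    rw [m.2 v h, hπ]⟩
  map_zero' := by
    ext h
    exact map_zero π
  map_add' a b := by
    ext h
    exact map_add π _ _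

variable [TopologicalSpace 𝔽] [IsTopologicalGroup 𝔽]

theorem dl_isLocallyConstant {V : Subgroup 𝔽} (hV : IsOpen (V : Set 𝔽)) {T : Type}
    [AddCommGroup T] {ρ : V →* AddMonoid.End T} (hρ : Smooth ρ) (m : dlM V ρ) :
    IsLocallyConstant m.1 := by
  rw [IsLocallyConstant.iff_eventually_eq]
  intro h
  have h1 : ∀ᶠ g in 𝓝 (1 : 𝔽), ∃ hg : g ∈ V, ρ ⟨g, hg⟩ (m.1 h) = m.1 h := by
    have h2 := hρ (m.1 h)
    rw [nhds_subtype_eq_comap, eventually_comap] at h2
    filter_upwards [h2, hV.mem_nhds V.one_mem] with g hg hgV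
    exact ⟨hgV, hg ⟨g, hgV⟩ rfl⟩
  have h3 : Tendsto (fun g : 𝔽 => g * h⁻¹) (𝓝 h) (𝓝 1) := by
    have h4 : Tendsto (fun g : 𝔽 => g * h⁻¹) (𝓝 h) (𝓝 (h * h⁻¹)) :=
      (continuous_id.mul continuous_const).tendsto h
    rwa [mul_inv_cancel] at h4
  filter_upwards [h3.eventually h1] with g hg
  obtain ⟨hg1, hg2⟩ := hg
  have h5 := m.2 ⟨g * h⁻¹, hg1⟩ h
  rw [hg2] at h5
  rw [← h5]
  simp

theorem dl_unif [CompactSpace 𝔽] {T : Type} {c : 𝔽 → T} (hc : IsLocallyConstant c) :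
    ∀ᶠ g in 𝓝 (1 : 𝔽), ∀ h, c (h * g) = c h := by
  have key : ∀ z ∈ (Set.univ : Set 𝔽), ∀ᶠ q : 𝔽 × 𝔽 in 𝓝 1 ×ˢ 𝓝 z,
      c (q.2 * q.1) = c q.2 := by
    intro z _
    have h1 : ∀ᶠ q : 𝔽 × 𝔽 in 𝓝 1 ×ˢ 𝓝 z, c (q.2 * q.1) = c z := by
      have hcc : Continuous fun q : 𝔽 × 𝔽 => q.2 * q.1 := continuous_snd.mul continuous_fst
      have h := (hc.comp_continuous hcc).eventually_eq (1, z)
      rw [nhds_prod_eq] at h
      filter_upwards [h] with q hq
      have hq' : c (q.2 * q.1) = c (z * 1) := hq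
      rw [hq', mul_one]
    have h2 : ∀ᶠ q : 𝔽 × 𝔽 in 𝓝 1 ×ˢ 𝓝 z, c q.2 = c z :=
      (hc.eventually_eq z).prod_inr _
    filter_upwards [h1, h2] with q e1 e2
    rw [e1, e2]
  have h := isCompact_univ.eventually_forall_of_forall_eventually (x₀ := (1 : 𝔽))
    (P := fun g h => c (h * g) = c h) (fun z hz => by
      rw [nhds_prod_eq]
      exact key z hz)
  filter_upwards [h] with g hg
  exact fun h => hg h (Set.mem_univ h)

theorem dl_smooth [CompactSpace 𝔽] {V : Subgroup 𝔽} (hV : IsOpen (V : Set 𝔽)) {T : Type}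
    [AddCommGroup T] {ρ : V →* AddMonoid.End T} (hρ : Smooth ρ) : Smooth (dlρ V ρ) := by
  intro m
  filter_upwards [dl_unif (dl_isLocallyConstant hV hρ m)] with g hg
  exact Subtype.ext (funext hg)

end DL

section DL2

variable {𝔽 : Type} [Group 𝔽] [TopologicalSpace 𝔽] [IsTopologicalGroup 𝔽] [CompactSpace 𝔽]
  [T2Space 𝔽] [TotallyDisconnectedSpace 𝔽] {x y : 𝔽} {p : ℕ} [Fact p.Prime]

/-- DL -/
theorem derLift_open (h : FreeProf 𝔽 x y) (V : Subgroup 𝔽) (hV : IsOpen (V : Set 𝔽)) :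
    DerLift V p := by
  intro T T' _ _ ρ ρ' π hT hρ hρ' hπs hπ δ' hδ'
  obtain ⟨κ, hκc, hκ, hκ1⟩ := exists_section V hV
  have hT' : ∀ t : T', p • t = 0 := by
    intro t
    obtain ⟨s, rfl⟩ := hπs t
    rw [← map_nsmul, hT, map_zero]
  have hδ'1 : δ' 1 = 0 := by
    have h1 := hδ'.mul 1 1
    rw [mul_one, map_one, AddMonoid.End.coe_one, id] at h1
    exact left_eq_add.1 h1
  have hc : IsLocallyConstant fun h => δ' (κ h) := hδ'.lc.comp_continuous hκc
  -- the derivation `D'`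
  let D' : 𝔽 → dlM V ρ' := fun g => ⟨fun h => δ' (κ (h * g)) - δ' (κ h), fun v h => by
    change δ' (κ (v * h * g)) - δ' (κ (v * h)) = ρ' v (δ' (κ (h * g)) - δ' (κ h))
    rw [mul_assoc, hκ, hκ, hδ'.mul, hδ'.mul, map_sub]
    abel⟩
  have hD' : IsDer (dlρ V ρ') D' := by
    refine ⟨fun a b => ?_, ?_⟩
    · ext h
      change δ' (κ (h * (a * b))) - δ' (κ h) =
        (δ' (κ (h * a)) - δ' (κ h)) + (δ' (κ (h * a * b)) - δ' (κ (h * a)))
      rw [mul_assoc]
      abel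
    · rw [IsLocallyConstant.iff_eventually_eq]
      intro g₀
      have h3 : Tendsto (fun g : 𝔽 => g₀⁻¹ * g) (𝓝 g₀) (𝓝 1) := by
        have h4 : Tendsto (fun g : 𝔽 => g₀⁻¹ * g) (𝓝 g₀) (𝓝 (g₀⁻¹ * g₀)) :=
          (continuous_const.mul continuous_id).tendsto g₀
        rwa [inv_mul_cancel] at h4
      filter_upwards [h3.eventually (dl_unif hc)] with g hg
      ext h
      change δ' (κ (h * g)) - δ' (κ h) = δ' (κ (h * g₀)) - δ' (κ h)
      have h5 := hg (h * g₀)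
      have h6 : h * g₀ * (g₀⁻¹ * g) = h * g := by group
      rw [h6] at h5
      rw [h5]
  -- surjectivity
  have hsurj : Function.Surjective (dlMap V ρ ρ' π hπ) := by
    intro m'
    refine ⟨⟨fun h => ρ (κ h) (Function.surjInv hπs (m'.1 ((κ h : 𝔽)⁻¹ * h))), fun v h => ?_⟩, ?_⟩
    · have e1 : ((κ (v * h) : V) : 𝔽)⁻¹ * (v * h) = (κ h : 𝔽)⁻¹ * h := by
        rw [hκ, Subgroup.coe_mul]
        group
      change ρ (κ (v * h)) (Function.surjInv hπs (m'.1 ((κ (v * h) : 𝔽)⁻¹ * (v * h)))) = _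
      rw [e1, hκ, map_mul]
      rfl
    · ext h
      change π (ρ (κ h) (Function.surjInv hπs (m'.1 ((κ h : 𝔽)⁻¹ * h)))) = m'.1 h
      rw [hπ, Function.surjInv_eq hπs, ← m'.2, mul_inv_cancel_left]
  obtain ⟨a, ha⟩ := hsurj (D' x)
  obtain ⟨b, hb⟩ := hsurj (D' y)
  obtain ⟨D, hD, hDx, hDy⟩ := exists_der (p := p) h (T := dlM V ρ) (fun t => by
    ext h
    exact hT (t.1 h)) (dlρ V ρ) (dl_smooth hV hρ) a b
  have hDD : (fun g => dlMap V ρ ρ' π hπ (D g)) = D' := by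
    refine der_ext h (dlρ V ρ') (dl_smooth hV hρ') ⟨fun g g' => ?_, ?_⟩ hD' ?_ ?_
    · rw [hD.mul, map_add]
      rfl
    · exact hD.lc.comp _
    · rw [hDx, ha]
    · rw [hDy, hb]
  refine ⟨fun v => (D v).1 1, ⟨fun v w => ?_, ?_⟩, fun v => ?_⟩
  · have e1 : (D ((v * w : V) : 𝔽)).1 1 = (D v).1 1 + (D w).1 (1 * v) := by
      rw [Subgroup.coe_mul, hD.mul]
      rfl
    rw [e1, one_mul, ← (D w).2 v 1, mul_one]
  · exact (hD.lc.comp_continuous continuous_subtype_val).comp fun m : dlM V ρ => m.1 1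
  · have e1 : π ((D v).1 1) = (D' v).1 1 := by
      rw [← hDD]
      rfl
    have e2 : κ (v : 𝔽) = v := by
      have e3 := hκ v 1
      rwa [mul_one, hκ1, mul_one] at e3
    rw [e1]
    change δ' (κ (1 * v)) - δ' (κ 1) = δ' v
    rw [one_mul, hκ1, hδ'1, sub_zero, e2]

end DL2

end Pool.Agent.GTT
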