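import Pool.Agent.Lib.MP_2cc432_al.Defs3
import Pool.Agent.Lib.MP_2cc432_al.DL

/-!
# Derivations and homomorphisms of free profinite groups with `n` generators
-/

open Filter Topology Finset

namespace Pool.Agent.GTT

section FreeN

variable {P : Type} [Group P] [TopologicalSpace P] [IsTopologicalGroup P] [CompactSpace P]
  [T2Space P] [TotallyDisconnectedSpace P] {n : ℕ} {c : Fin n → P}

omit [CompactSpace P] [T2Space P] [TotallyDisconnectedSpace P] in
theorem freen_aux [CompactSpace P] (h : FreeProfN P c) {T : Type} [AddCommGroup T] {N : ℕ}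
    (hN : 0 < N) (hT : ∀ t : T, N • t = 0) (ρ : P →* AddMonoid.End T) (hρ : Smooth ρ)
    (a : Fin n → T) : ∃ δ : P → T, IsDer ρ δ ∧ ∀ i, δ (c i) = a i := by
  have hlc := FREE_orbit_lc ρ hρ
  -- the finite stable subgroup
  set S : Set T := ⋃ i, Set.range (fun g => ρ g (a i)) with hS
  have hSfin : S.Finite := Set.finite_iUnion fun i => (hlc (a i)).range_finite
  set T₀ : AddSubgroup T := AddSubgroup.closure S with hT₀
  have hfin : Finite T₀ := by
    have h1 : AddGroup.FG T₀ := by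
      have : Finite S := hSfin
      exact AddGroup.closure_finite_fg S
    apply AddCommGroup.finite_of_fg_isAddTorsion
    intro t
    rw [isOfFinAddOrder_iff_nsmul_eq_zero]
    exact ⟨N, hN, Subtype.ext (by
      rw [AddSubgroup.coe_nsmul, hT]
      rfl)⟩
  have hst : ∀ g, ∀ t ∈ T₀, ρ g t ∈ T₀ := by
    intro g t ht
    induction ht using AddSubgroup.closure_induction with
    | mem t ht =>
      apply AddSubgroup.subset_closure
      obtain ⟨i, k, rfl⟩ := Set.mem_iUnion.1 ht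
      exact Set.mem_iUnion.2 ⟨i, g * k, FREE_rho_mul ρ g k (a i)⟩
    | zero =>
      rw [map_zero]
      exact T₀.zero_mem
    | add u v _ _ hu hv =>
      rw [map_add]
      exact T₀.add_mem hu hv
    | neg u _ hu =>
      rw [map_neg]
      exact T₀.neg_mem hu
  have hone : ∀ t, ρ 1 t = t := fun t => by
    rw [map_one]
    rfl
  have haT : ∀ i, a i ∈ T₀ := fun i =>
    AddSubgroup.subset_closure (Set.mem_iUnion.2 ⟨i, 1, hone (a i)⟩)
  obtain ⟨φ, hφ, hφc⟩ := h.lift (Equiv.Perm T₀) (fun i => FREE_aff ρ T₀ hst (c i) ⟨a i, haT i⟩)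
  have hφt : ∀ t : T₀, IsLocallyConstant fun g => ((φ g t : T₀) : T) := fun t =>
    hφ.comp fun q : Equiv.Perm T₀ => ((q t : T₀) : T)
  -- the affine elements
  have hφmul : ∀ g k (t : T₀), φ (g * k) t = φ g (φ k t) := fun g k t => by
    rw [map_mul]
    rfl
  let H : Subgroup P :=
    { carrier := {g | ∀ t : T₀, ((φ g t : T₀) : T) = ρ g t + (φ g 0 : T₀)}
      one_mem' := by
        intro t
        rw [map_one, map_one]
        change (t : T) = (t : T) + ((0 : T₀) : T)
        rw [AddSubgroup.coe_zero, add_zero]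
      mul_mem' := by
        intro g k hg hk t
        rw [hφmul, hφmul, hg (φ k t), hg (φ k 0), hk t, FREE_rho_mul, map_add, add_assoc]
      inv_mem' := by
        intro g hg t
        have key : ∀ t : T₀, ((φ g⁻¹ t : T₀) : T) = ρ g⁻¹ (t - (φ g 0 : T₀)) := by
          intro t
          have h1 : φ g (φ g⁻¹ t) = t := by
            rw [← hφmul, mul_inv_cancel, map_one]
            rfl
          have h2 := hg (φ g⁻¹ t)
          rw [h1] at h2
          rw [h2, add_sub_cancel_right, FREE_rho_inv]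
        rw [key t, key 0, AddSubgroup.coe_zero, zero_sub, map_sub, map_neg, sub_eq_add_neg] }
  have hHcl : IsClosed (H : Set P) := by
    have h1 : (H : Set P) = ⋂ t : T₀, {g | ((φ g t : T₀) : T) = ρ g t + (φ g 0 : T₀)} := by
      ext g
      simp only [Set.mem_iInter, Set.mem_ofPred_eq]
      exact Iff.rfl
    rw [h1]
    apply isClosed_iInter
    intro t
    exact FREE_closed _ _ (hφt t) ((hlc t).add (hφt 0))
  have hHtop : H = ⊤ := by
    apply h.dense H hHcl
    intro i t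
    rw [hφc]
    change ρ (c i) t + a i = ρ (c i) t + (ρ (c i) ((0 : T₀) : T) + a i)
    rw [AddSubgroup.coe_zero, map_zero, zero_add]
  have hall : ∀ g (t : T₀), ((φ g t : T₀) : T) = ρ g t + (φ g 0 : T₀) := by
    intro g
    have h1 : g ∈ H := by
      rw [hHtop]
      trivial
    exact h1
  refine ⟨fun g => ((φ g 0 : T₀) : T), ⟨fun g k => ?_, hφt 0⟩, fun i => ?_⟩
  · rw [hφmul, hall g (φ k 0), add_comm]
  · change ((φ (c i) 0 : T₀) : T) = a i
    rw [hφc]
    change ρ (c i) ((0 : T₀) : T) + a i = a i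
    rw [AddSubgroup.coe_zero, map_zero, zero_add]

/-- FREEN -/
theorem exists_derN (h : FreeProfN P c) {T : Type} [AddCommGroup T] {N : ℕ} (hN : 0 < N)
    (hT : ∀ t : T, N • t = 0) (ρ : P →* AddMonoid.End T) (hρ : Smooth ρ) (a : Fin n → T) :
    ∃ δ : P → T, IsDer ρ δ ∧ ∀ i, δ (c i) = a i :=
  freen_aux h hN hT ρ hρ a

/-- FREEN -/
theorem der_extN (h : FreeProfN P c) {T : Type} [AddCommGroup T]
    (ρ : P →* AddMonoid.End T) (hρ : Smooth ρ) {δ δ' : P → T} (hδ : IsDer ρ δ)
    (hδ' : IsDer ρ δ') (hc : ∀ i, δ (c i) = δ' (c i)) : δ = δ' := by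
  have h1 : ∀ {d : P → T}, IsDer ρ d → d 1 = 0 := by
    intro d hd
    have h2 := hd.mul 1 1
    rw [mul_one, map_one] at h2
    change d 1 = d 1 + d 1 at h2
    exact left_eq_add.1 h2
  have h2 : ∀ {d : P → T}, IsDer ρ d → ∀ g, d g⁻¹ = - ρ g⁻¹ (d g) := by
    intro d hd g
    have h3 := hd.mul g⁻¹ g
    rw [inv_mul_cancel, h1 hd] at h3
    exact eq_neg_of_add_eq_zero_left h3.symm
  let H : Subgroup P :=
    { carrier := {g | δ g = δ' g}
      one_mem' := by
        change δ 1 = δ' 1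
        rw [h1 hδ, h1 hδ']
      mul_mem' := by
        intro g k hg hk
        change δ g = δ' g at hg
        change δ k = δ' k at hk
        change δ (g * k) = δ' (g * k)
        rw [hδ.mul, hδ'.mul, hg, hk]
      inv_mem' := by
        intro g hg
        change δ g = δ' g at hg
        change δ g⁻¹ = δ' g⁻¹
        rw [h2 hδ, h2 hδ', hg] }
  have hH : H = ⊤ := h.dense H (FREE_closed _ _ hδ.lc hδ'.lc) hc
  funext g
  have h3 : g ∈ H := by
    rw [hH]
    trivial
  exact h3

/-- the coinduced derivation of a derivation of an open subgroup -/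
def freenD {V : Subgroup P} (κ : P → V) (hκ : ∀ (v : V) (g : P), κ (v * g) = v * κ g)
    {T : Type} [AddCommGroup T] {ρ : V →* AddMonoid.End T} {δ : V → T} (hδ : IsDer ρ δ)
    (g : P) : dlM V ρ :=
  ⟨fun h => δ (κ (h * g)) - δ (κ h), fun v h => by
    change δ (κ (v * h * g)) - δ (κ (v * h)) = ρ v (δ (κ (h * g)) - δ (κ h))
    rw [mul_assoc, hκ, hκ, hδ.mul, hδ.mul, map_sub]
    abel⟩

omit [T2Space P] [TotallyDisconnectedSpace P] in
theorem freenD_der {V : Subgroup P} (κ : P → V) (hκc : Continuous κ)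
    (hκ : ∀ (v : V) (g : P), κ (v * g) = v * κ g)
    {T : Type} [AddCommGroup T] {ρ : V →* AddMonoid.End T} {δ : V → T} (hδ : IsDer ρ δ) :
    IsDer (dlρ V ρ) (freenD κ hκ hδ) := by
  have hc : IsLocallyConstant fun h => δ (κ h) := hδ.lc.comp_continuous hκc
  refine ⟨fun a b => ?_, ?_⟩
  · ext h
    change δ (κ (h * (a * b))) - δ (κ h) =
      (δ (κ (h * a)) - δ (κ h)) + (δ (κ (h * a * b)) - δ (κ (h * a)))
    rw [mul_assoc]
    abel
  · rw [IsLocallyConstant.iff_eventually_eq]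
    intro g₀
    have h3 : Tendsto (fun g : P => g₀⁻¹ * g) (𝓝 g₀) (𝓝 1) := by
      have h4 : Tendsto (fun g : P => g₀⁻¹ * g) (𝓝 g₀) (𝓝 (g₀⁻¹ * g₀)) :=
        (continuous_const.mul continuous_id).tendsto g₀
      rwa [inv_mul_cancel] at h4
    filter_upwards [h3.eventually (dl_unif hc)] with g hg
    ext h
    change δ (κ (h * g)) - δ (κ h) = δ (κ (h * g₀)) - δ (κ h)
    have h5 := hg (h * g₀)
    have h6 : h * g₀ * (g₀⁻¹ * g) = h * g := by group
    rw [h6] at h5
    rw [h5]

omit [IsTopologicalGroup P] [CompactSpace P] [T2Space P] [TotallyDisconnectedSpace P] in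
theorem freenD_one {V : Subgroup P} (κ : P → V)
    (hκ : ∀ (v : V) (g : P), κ (v * g) = v * κ g) (hκ1 : κ 1 = 1)
    {T : Type} [AddCommGroup T] {ρ : V →* AddMonoid.End T} {δ : V → T} (hδ : IsDer ρ δ)
    (v : V) : (freenD κ hκ hδ v).1 1 = δ v := by
  have hδ1 : δ 1 = 0 := by
    have h1 := hδ.mul 1 1
    rw [mul_one, map_one, AddMonoid.End.coe_one, id] at h1
    exact left_eq_add.1 h1
  have e2 : κ (v : P) = v := by
    have e3 := hκ v 1
    rwa [mul_one, hκ1, mul_one] at e3
  change δ (κ (1 * v)) - δ (κ 1) = δ v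
  rw [one_mul, hκ1, hδ1, sub_zero, e2]

/-- FREEN -/
theorem derLiftN (h : FreeProfN P c) (V : Subgroup P) (hV : IsOpen (V : Set P)) {N : ℕ}
    (hN : 0 < N) : DerLift V N := by
  intro T T' _ _ ρ ρ' π hT hρ hρ' hπs hπ δ' hδ'
  obtain ⟨κ, hκc, hκ, hκ1⟩ := exists_section V hV
  have hD' := freenD_der κ hκc hκ hδ'
  -- surjectivity
  have hsurj : Function.Surjective (dlMap V ρ ρ' π hπ) := by
    intro m'
    refine ⟨⟨fun h => ρ (κ h) (Function.surjInv hπs (m'.1 ((κ h : P)⁻¹ * h))), fun v h => ?_⟩, ?_⟩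
    · have e1 : ((κ (v * h) : V) : P)⁻¹ * (v * h) = (κ h : P)⁻¹ * h := by
        rw [hκ, Subgroup.coe_mul]
        group
      change ρ (κ (v * h)) (Function.surjInv hπs (m'.1 ((κ (v * h) : P)⁻¹ * (v * h)))) = _
      rw [e1, hκ, map_mul]
      rfl
    · ext h
      change π (ρ (κ h) (Function.surjInv hπs (m'.1 ((κ h : P)⁻¹ * h)))) = m'.1 h
      rw [hπ, Function.surjInv_eq hπs, ← m'.2, mul_inv_cancel_left]
  have hex := fun i => hsurj (freenD κ hκ hδ' (c i))
  choose a ha using hex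
  obtain ⟨D, hD, hDc⟩ := exists_derN h (T := dlM V ρ) hN (fun t => by
    ext h
    exact hT (t.1 h)) (dlρ V ρ) (dl_smooth hV hρ) a
  have hDD : (fun g => dlMap V ρ ρ' π hπ (D g)) = freenD κ hκ hδ' := by
    refine der_extN h (dlρ V ρ') (dl_smooth hV hρ') ⟨fun g g' => ?_, ?_⟩ hD' fun i => ?_
    · rw [hD.mul, map_add]
      rfl
    · exact hD.lc.comp _
    · rw [hDc, ha]
  refine ⟨fun v => (D v).1 1, ⟨fun v w => ?_, ?_⟩, fun v => ?_⟩
  · have e1 : (D ((v * w : V) : P)).1 1 = (D v).1 1 + (D w).1 (1 * v) := by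
      rw [Subgroup.coe_mul, hD.mul]
      rfl
    rw [e1, one_mul, ← (D w).2 v 1, mul_one]
  · exact (hD.lc.comp_continuous continuous_subtype_val).comp fun m : dlM V ρ => m.1 1
  · have e1 : π ((D v).1 1) = (freenD κ hκ hδ' v).1 1 := by
      rw [← hDD]
      rfl
    rw [e1, freenD_one κ hκ hκ1 hδ']

/-- FREEN -/
theorem derLiftN_self (h : FreeProfN P c) {N : ℕ} (hN : 0 < N) : DerLift P N := by
  intro T T' _ _ ρ ρ' π hT hρ hρ' hπs hπ δ' hδ'
  have hex := fun i => hπs (δ' (c i))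
  choose a ha using hex
  obtain ⟨D, hD, hDc⟩ := exists_derN h hN hT ρ hρ a
  refine ⟨D, hD, fun g => ?_⟩
  have hDD : (fun g => π (D g)) = δ' := by
    refine der_extN h ρ' hρ' ⟨fun g g' => ?_, hD.lc.comp _⟩ hδ' fun i => ?_
    · rw [hD.mul, map_add, hπ]
    · rw [hDc, ha]
  exact congrFun hDD g

omit [IsTopologicalGroup P] [CompactSpace P] [T2Space P] [TotallyDisconnectedSpace P] in
theorem freen_smooth_one {Q T : Type} [Group Q] [TopologicalSpace Q] [AddCommGroup T] :
    Smooth (1 : Q →* AddMonoid.End T) := fun _ => Eventually.of_forall fun _ => rfl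

omit [IsTopologicalGroup P] [CompactSpace P] [T2Space P] [TotallyDisconnectedSpace P] in
theorem freen_der_of_hom {Q : Type} [Group Q] [TopologicalSpace Q] {N : ℕ} {D : Q → ZMod N}
    (hD : IsHom D) : IsDer (1 : Q →* AddMonoid.End (ZMod N)) D :=
  ⟨fun g h => hD.mul g h, hD.lc⟩

omit [IsTopologicalGroup P] [CompactSpace P] [T2Space P] [TotallyDisconnectedSpace P] in
theorem freen_hom_of_der {Q : Type} [Group Q] [TopologicalSpace Q] {N : ℕ} {D : Q → ZMod N}
    (hD : IsDer (1 : Q →* AddMonoid.End (ZMod N)) D) : IsHom D :=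
  ⟨fun g h => hD.mul g h, hD.lc⟩

/-- FREEN -/
theorem homsN_finite (h : FreeProfN P c) (V : Subgroup P) (hV : IsOpen (V : Set P)) {N : ℕ}
    (hN : 0 < N) : (homs V N).Finite := by
  obtain ⟨κ, hκc, hκ, hκ1⟩ := exists_section V hV
  have : NeZero N := ⟨hN.ne'⟩
  have hq : Finite (P ⧸ V) := Subgroup.quotient_finite_of_isOpen V hV
  have hfin : Finite (dlM V (1 : V →* AddMonoid.End (ZMod N))) := by
    refine Finite.of_injective
      (fun (m : dlM V (1 : V →* AddMonoid.End (ZMod N))) (q : P ⧸ V) => m.1 (q.out)⁻¹) ?_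
    intro m m' hm
    ext g
    have h1 : ∃ v : V, g = v * ((QuotientGroup.mk g⁻¹ : P ⧸ V).out)⁻¹ := by
      have h2 : (QuotientGroup.mk (QuotientGroup.mk g⁻¹ : P ⧸ V).out : P ⧸ V) =
          QuotientGroup.mk g⁻¹ := Quotient.out_eq _
      have h3 := QuotientGroup.eq.1 h2.symm
      rw [inv_inv] at h3
      exact ⟨⟨_, h3⟩, by simp⟩
    obtain ⟨v, hv⟩ := h1
    rw [hv, m.2, m'.2]
    exact congrFun hm (QuotientGroup.mk g⁻¹ : P ⧸ V)
  have key : Finite (homs V N) := by
    refine Finite.of_injective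
      (fun (D : homs V N) (i : Fin n) => freenD κ hκ (freen_der_of_hom D.2) (c i)) ?_
    intro D D' hDD
    have h1 := der_extN h (dlρ V 1) (dl_smooth hV freen_smooth_one)
      (freenD_der κ hκc hκ (freen_der_of_hom D.2)) (freenD_der κ hκc hκ (freen_der_of_hom D'.2))
      (fun i => congrFun hDD i)
    apply Subtype.ext
    funext v
    rw [← freenD_one κ hκ hκ1 (freen_der_of_hom D.2) v,
      ← freenD_one κ hκ hκ1 (freen_der_of_hom D'.2) v, h1]
  exact key

/-- FREEN -/
theorem homsN_lift (h : FreeProfN P c) (V : Subgroup P) (hV : IsOpen (V : Set P))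
    (D : V → ZMod 2) (hD : IsHom D) :
    ∃ E : V → ZMod 4, IsHom E ∧ ∀ g, D g = red42 (E g) := by
  obtain ⟨E, hE, h1⟩ := derLiftN h V hV (N := 4) (by norm_num) (ZMod 4) (ZMod 2) 1 1
    red42.toAddMonoidHom (by decide) freen_smooth_one freen_smooth_one (by decide)
    (fun _ _ => rfl) D (freen_der_of_hom hD)
  exact ⟨E, freen_hom_of_der hE, fun g => (h1 g).symm⟩

end FreeN

end Pool.Agent.GTT
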