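import Pool.Agent.Lib.MP_2cc432_al.Trn

/-!
# ISO: orthogonality
-/

open Filter Topology Finset

namespace Pool.Agent.GTT

/-! ### functions of degree 2 on a group -/

section

variable {W : Type} [Group W] {e E ν : W → ZMod 2}

theorem iso_hom_one (hν : ∀ g h, ν (g * h) = ν g + ν h) : ν 1 = 0 := by
  have h := hν 1 1
  rw [mul_one] at h
  linear_combination -h

theorem iso_hom_inv (hν : ∀ g h, ν (g * h) = ν g + ν h) (v : W) : ν v⁻¹ = ν v := by
  have h := hν v⁻¹ v
  rw [inv_mul_cancel, iso_hom_one hν] at h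
  have h2 : ν v + ν v = 0 := CharTwo.add_self_eq_zero _
  linear_combination -h - h2

theorem iso_one (hν : ∀ g h, ν (g * h) = ν g + ν h)
    (he : ∀ g h, e (g * h) = e g + e h + E g * ν h) : e 1 = 0 := by
  have h := he 1 1
  rw [mul_one, iso_hom_one hν, mul_zero, add_zero] at h
  linear_combination -h

theorem iso_inv (hν : ∀ g h, ν (g * h) = ν g + ν h)
    (he : ∀ g h, e (g * h) = e g + e h + E g * ν h) (c : W) (hc : ν c = 0) : e c⁻¹ = e c := by
  have h := he c⁻¹ c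
  rw [inv_mul_cancel, iso_one hν he, hc, mul_zero, add_zero] at h
  have h2 : e c + e c = 0 := CharTwo.add_self_eq_zero _
  linear_combination -h - h2

theorem iso_conj (hν : ∀ g h, ν (g * h) = ν g + ν h)
    (he : ∀ g h, e (g * h) = e g + e h + E g * ν h) (c v : W) (hc : ν c = 0) :
    e (v⁻¹ * c * v) = e c + E c * ν v := by
  have h1 := he v⁻¹ (c * v)
  have h2 := he c v
  have h3 := hν c v
  have h4 := he v⁻¹ v
  rw [inv_mul_cancel, iso_one hν he] at h4
  rw [← mul_assoc] at h1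
  rw [h1, h2, h3, hc]
  linear_combination -h4

end

/-! ### cusps -/

section

variable {P : Type} [Group P] [TopologicalSpace P] {n : ℕ} {c : Fin n → P} {F : P ≃ₜ* P}
  (V : Subgroup P) [hVn : V.Normal] (S : RealStr c F) (hVF : ∀ g, F g ∈ V ↔ g ∈ V)

include hVF in
theorem iso_orderOf {a b f : P} (ha : F a = f⁻¹ * b⁻¹ * f) :
    orderOf (QuotientGroup.mk a : P ⧸ V) = orderOf (QuotientGroup.mk b : P ⧸ V) := by
  rw [orderOf_eq_orderOf_iff]
  intro m
  rw [← QuotientGroup.mk_pow, ← QuotientGroup.mk_pow, QuotientGroup.eq_one_iff,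
    QuotientGroup.eq_one_iff, ← hVF]
  have h1 : F (a ^ m) = f⁻¹ * (b ^ m)⁻¹ * f⁻¹⁻¹ := by
    have h := cusp_zpow_aux F ha m
    rw [zpow_natCast, zpow_neg, zpow_natCast] at h
    rw [inv_inv, mul_assoc, ← h, inv_mul_cancel_left]
  rw [h1]
  constructor
  · intro h
    have h2 := hVn.conj_mem _ h f
    have h3 : f * (f⁻¹ * (b ^ m)⁻¹ * f⁻¹⁻¹) * f⁻¹ = (b ^ m)⁻¹ := by group
    rw [h3] at h2
    exact V.inv_mem_iff.1 h2
  · intro h
    exact hVn.conj_mem _ (V.inv_mem h) f⁻¹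

theorem iso_cuspEl_F (i : Option (Fin n)) (g : P) :
    resF F V hVF (cuspEl V (cusp c i) g) = (cuspEl V (cusp c (S.π i)) (S.f i * F g))⁻¹ := by
  apply Subtype.ext
  rw [resF_apply, Subgroup.coe_inv]
  unfold cuspEl
  change F (g⁻¹ * cusp c i ^ orderOf (QuotientGroup.mk (cusp c i) : P ⧸ V) * g) =
    ((S.f i * F g)⁻¹ * cusp c (S.π i) ^ orderOf (QuotientGroup.mk (cusp c (S.π i)) : P ⧸ V) *
      (S.f i * F g))⁻¹
  rw [iso_orderOf V hVF (S.cusp_F i)]
  generalize orderOf (QuotientGroup.mk (cusp c (S.π i)) : P ⧸ V) = m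
  have h := cusp_zpow_aux F (S.cusp_F i) m
  rw [zpow_natCast, zpow_neg, zpow_natCast] at h
  have h1 : F (cusp c i ^ m) = (S.f i)⁻¹ * ((cusp c (S.π i) ^ m)⁻¹ * S.f i) := by
    rw [← h, inv_mul_cancel_left]
  rw [map_mul, map_mul, map_inv, h1]
  group

omit [TopologicalSpace P] in
theorem iso_cuspEl_conj (b h : P) (k : ℤ) (v : V) :
    cuspEl V b (b ^ k * h * v) = v⁻¹ * cuspEl V b h * v := by
  apply Subtype.ext
  unfold cuspEl
  change (b ^ k * h * v)⁻¹ * b ^ orderOf (QuotientGroup.mk b : P ⧸ V) * (b ^ k * h * v) =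
    (v : P)⁻¹ * (h⁻¹ * b ^ orderOf (QuotientGroup.mk b : P ⧸ V) * h) * v
  group

omit [TopologicalSpace P] hVn in
theorem iso_unram_zpow {N : ℕ} {ν : V → ZMod N} (hν : ∀ g h, ν (g * h) = ν g + ν h)
    (hνr : UnramN c V ν) (i : Option (Fin n)) (g : P) (m : ℤ)
    (h : g⁻¹ * cusp c i ^ m * g ∈ V) : ν ⟨_, h⟩ = 0 := by
  obtain ⟨k, rfl | rfl⟩ := m.eq_nat_or_neg
  · have h1 := hνr i g k (by simpa using h)
    rw [← h1]
    congr 1
    apply Subtype.ext
    simp
  · have h2 : g⁻¹ * cusp c i ^ k * g = (g⁻¹ * cusp c i ^ (-(k : ℤ)) * g)⁻¹ := by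
      rw [zpow_neg, zpow_natCast]
      group
    have h1 := hνr i g k (by rw [h2]; exact V.inv_mem h)
    have h3 : (⟨_, h⟩ : V) * ⟨g⁻¹ * cusp c i ^ k * g, by rw [h2]; exact V.inv_mem h⟩ = 1 := by
      apply Subtype.ext
      rw [Subgroup.coe_mul, Subgroup.coe_one]
      change g⁻¹ * cusp c i ^ (-(k : ℤ)) * g * (g⁻¹ * cusp c i ^ k * g) = 1
      rw [h2, mul_inv_cancel]
    have h4 := hν ⟨_, h⟩ ⟨g⁻¹ * cusp c i ^ k * g, by rw [h2]; exact V.inv_mem h⟩
    have h5 := hν 1 1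
    rw [mul_one] at h5
    rw [h3, h1] at h4
    linear_combination -h4 - h5

omit [TopologicalSpace P] hVn in
theorem iso_rep (ω : Cusps c V) : cuspMk V (cusp c ω.1) ω.2.out.out = ω.2 := by
  unfold cuspMk
  have h1 : (QuotientGroup.mk ω.2.out.out : P ⧸ V) = ω.2.out := Quotient.out_eq _
  rw [h1]
  exact Quotient.out_eq _

omit hVn in
theorem iso_map_eq (ω : Cusps c V) : S.map V hVF ω =
    ⟨S.π ω.1, cuspMk V (cusp c (S.π ω.1)) (S.f ω.1 * F ω.2.out.out)⟩ := by
  have h1 : ω = ⟨ω.1, cuspMk V (cusp c ω.1) ω.2.out.out⟩ := by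
    conv_lhs => rw [← Sigma.eta ω]
    rw [iso_rep]
  conv_lhs => rw [h1]
  rw [S.map_mk]

omit hVn in
theorem iso_exists (ω : Cusps c V) : ∃ (k : ℤ) (v : V), S.f ω.1 * F ω.2.out.out =
    cusp c (S.π ω.1) ^ k * (S.map V hVF ω).2.out.out * v := by
  have h1 := iso_rep V (S.map V hVF ω)
  have h2 : (S.map V hVF ω).2 =
      cuspMk V (cusp c (S.π ω.1)) (S.f ω.1 * F ω.2.out.out) := by
    have h3 := iso_map_eq V S hVF ω
    rw [Sigma.ext_iff] at h3
    exact eq_of_heq h3.2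
  have h3 : cuspMk V (cusp c (S.π ω.1)) (S.f ω.1 * F ω.2.out.out) =
      cuspMk V (cusp c (S.π ω.1)) (S.map V hVF ω).2.out.out := by
    rw [← h2]
    exact h1.symm
  rw [cuspMk_eq] at h3
  obtain ⟨k, hk⟩ := h3
  exact ⟨k, ⟨_, hk⟩, by group⟩

end

/-! ### the action of `V` on pairs -/

/-- the action `v (a, b) = (a + E v * b, b)` -/
def isoρ {W : Type} [Group W] (E : W → ZMod 2) (hE : ∀ g h, E (g * h) = E g + E h) :
    W →* AddMonoid.End (ZMod 2 × ZMod 2) where
  toFun v :=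
    { toFun := fun t => (t.1 + E v * t.2, t.2)
      map_zero' := by simp
      map_add' := fun s t => by
        ext
        · simp only [Prod.fst_add, Prod.snd_add]
          ring
        · rfl }
  map_one' := by
    ext1 t
    change (t.1 + E 1 * t.2, t.2) = t
    rw [iso_hom_one hE, zero_mul, add_zero]
  map_mul' g h := by
    ext1 t
    change (t.1 + E (g * h) * t.2, t.2) = (t.1 + E h * t.2 + E g * t.2, t.2)
    rw [hE]
    congr 1
    ring

theorem iso_lift {W : Type} [Group W] [TopologicalSpace W] (hL : DerLift W 2)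
    (E ν : W → ZMod 2) (hE : IsHom E) (hν : IsHom ν) :
    ∃ e : W → ZMod 2, IsLocallyConstant e ∧ ∀ g h, e (g * h) = e g + e h + E g * ν h := by
  have hs : Smooth (isoρ E hE.mul) := by
    intro t
    filter_upwards [hE.lc.eventually_eq 1] with g hg
    change (t.1 + E g * t.2, t.2) = t
    rw [hg, iso_hom_one hE.mul, zero_mul, add_zero]
  obtain ⟨δ, hδ, hδν⟩ := hL (ZMod 2 × ZMod 2) (ZMod 2) (isoρ E hE.mul) 1
    (AddMonoidHom.snd (ZMod 2) (ZMod 2)) (fun t => CharTwo.two_nsmul t) hs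
    (fun _ => Eventually.of_forall fun _ => rfl) (fun b => ⟨(0, b), rfl⟩) (fun _ _ => rfl) ν
    ⟨fun g h => hν.mul g h, hν.lc⟩
  refine ⟨fun g => (δ g).1, hδ.lc.comp Prod.fst, fun g h => ?_⟩
  have h1 := congrArg Prod.fst (hδ.mul g h)
  have h2 : (isoρ E hE.mul g (δ h)).1 = (δ h).1 + E g * (δ h).2 := rfl
  have h3 : (δ h).2 = ν h := hδν h
  change (δ (g * h)).1 = _
  rw [h1, Prod.fst_add, h2, h3, add_assoc]

section

variable {P : Type} [Group P] [TopologicalSpace P] [IsTopologicalGroup P] [CompactSpace P]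
  [T2Space P] [TotallyDisconnectedSpace P] {n : ℕ} {c : Fin n → P} (V : Subgroup P)
  [hVn : V.Normal] {F : P ≃ₜ* P} (S : RealStr c F) (hVF : ∀ g, F g ∈ V ↔ g ∈ V)

include S in
/-- ISO -/
theorem iso_orth (hV : IsOpen (V : Set P)) (hL : DerLift V 2) [Fintype (Cusps c V)]
    (E ν d : V → ZMod 2) (hE : IsHom E) (hν : IsHom ν) (hνr : UnramN c V ν)
    (hνF : ∀ v, ν (resF F V hVF v) = ν v)
    (hνT : ∀ v : V, v * resF F V hVF v = 1 → ν v = 0)
    (hEr : UnramN c V (fun v => E v + E (resF F V hVF v))) (hdl : IsLocallyConstant d)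
    (hd : ∀ g h, d (g * h) = d g + d h + (E g + E (resF F V hVF g)) * ν h) :
    ∑ ω : Cusps c V, cval c V d ω = 0 := by
  obtain ⟨e, hel, he⟩ := iso_lift hL E ν hE hν
  choose k v hkv using fun ω : Cusps c V => iso_exists V S hVF ω
  -- the representatives
  set C : Cusps c V → V := fun ω => cuspEl V (cusp c ω.1) ω.2.out.out with hC
  have hCν : ∀ ω, ν (C ω) = 0 := fun ω => hνr _ _ _ _
  -- `F` on the generators
  have hFC : ∀ ω, resF F V hVF (C ω) = (v ω)⁻¹ * (C (S.map V hVF ω))⁻¹ * v ω := by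
    intro ω
    have h1 := iso_cuspEl_F V S hVF ω.1 ω.2.out.out
    rw [hkv, iso_cuspEl_conj] at h1
    change resF F V hVF (cuspEl V (cusp c ω.1) ω.2.out.out) =
      (v ω)⁻¹ * (cuspEl V (cusp c (S.map V hVF ω).1) (S.map V hVF ω).2.out.out)⁻¹ * v ω
    rw [h1]
    change ((v ω)⁻¹ * cuspEl V (cusp c (S.π ω.1)) (S.map V hVF ω).2.out.out * v ω)⁻¹ =
      (v ω)⁻¹ * (cuspEl V (cusp c (S.π ω.1)) (S.map V hVF ω).2.out.out)⁻¹ * v ω
    group
  -- the values of `e`
  have heF : ∀ ω, e (resF F V hVF (C ω)) =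
      e (C (S.map V hVF ω)) + E (C (S.map V hVF ω)) * ν (v ω) := by
    intro ω
    have h1 : ν (C (S.map V hVF ω))⁻¹ = 0 := by rw [iso_hom_inv hν.mul, hCν]
    rw [hFC, iso_conj hν.mul he _ _ h1, iso_inv hν.mul he _ (hCν _), iso_hom_inv hE.mul]
  have hEF : ∀ ω, E (C (S.map V hVF ω)) = E (C ω) := by
    intro ω
    have h1 : E (C ω) + E (resF F V hVF (C ω)) = 0 := hEr _ _ _ _
    rw [hFC, hE.mul, hE.mul, iso_hom_inv hE.mul, iso_hom_inv hE.mul] at h1
    have h2 : E (v ω) + E (v ω) = 0 := CharTwo.add_self_eq_zero _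
    have h3 : E (C ω) + E (C ω) = 0 := CharTwo.add_self_eq_zero _
    linear_combination h1 - h2 - h3
  -- the relation of `v ω` and `v (map ω)`
  have hvv : ∀ ω, ((v (S.map V hVF ω) * resF F V hVF (v ω) : V) : P) =
      (ω.2.out.out)⁻¹ * cusp c ω.1 ^ (k ω - k (S.map V hVF ω)) * ω.2.out.out := by
    intro ω
    have h1 := hkv ω
    have h2 := hkv (S.map V hVF ω)
    rw [map_map V S hVF ω] at h2
    have h3 : S.π (S.map V hVF ω).1 = ω.1 := S.ππ ω.1
    rw [h3] at h2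
    have h4 : S.f (S.map V hVF ω).1 * F (S.f ω.1) = 1 := S.inv ω.1
    have h5 : S.f (S.map V hVF ω).1 * F (cusp c (S.π ω.1) ^ (k ω)) =
        cusp c ω.1 ^ (-(k ω)) * S.f (S.map V hVF ω).1 := by
      have h6 := S.cusp_F (S.π ω.1)
      rw [S.ππ] at h6
      exact cusp_zpow_aux F h6 (k ω)
    have h6 : F (F ω.2.out.out) = ω.2.out.out := S.hF ω.2.out.out
    have h7 := congrArg F h1
    rw [map_mul, map_mul, map_mul, h6] at h7
    have h8 := congrArg (fun x => S.f (S.map V hVF ω).1 * x) h7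
    simp only [← mul_assoc] at h8
    rw [h4, one_mul, h5, mul_assoc (cusp c ω.1 ^ (-(k ω))), h2] at h8
    rw [Subgroup.coe_mul, resF_apply]
    have h9 : cusp c ω.1 ^ (k ω - k (S.map V hVF ω)) * ω.2.out.out =
        ω.2.out.out * (v (S.map V hVF ω) : P) * F (v ω) := by
      conv_lhs => rw [h8]
      rw [← mul_assoc, ← mul_assoc, ← mul_assoc, ← mul_assoc, ← zpow_add, ← zpow_add]
      have h10 : k ω - k (S.map V hVF ω) + (-(k ω)) + k (S.map V hVF ω) = 0 := by ring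
      rw [h10, zpow_zero, one_mul]
    rw [mul_assoc, h9]
    group
  have hνv : ∀ ω, ν (v (S.map V hVF ω)) = ν (v ω) := by
    intro ω
    have h1 := (v (S.map V hVF ω) * resF F V hVF (v ω)).2
    rw [hvv] at h1
    have h2 := iso_unram_zpow V hν.mul hνr ω.1 ω.2.out.out _ h1
    have h3 : (⟨_, h1⟩ : V) = v (S.map V hVF ω) * resF F V hVF (v ω) := Subtype.ext (hvv ω).symm
    rw [h3, hν.mul, hνF] at h2
    have h4 : ν (v ω) + ν (v ω) = 0 := CharTwo.add_self_eq_zero _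
    linear_combination h2 - h4
  have hν0 : ∀ ω, S.map V hVF ω = ω → ν (v ω) = 0 := by
    intro ω hω
    apply hνT
    apply Subtype.ext
    have h1 := hvv ω
    rw [hω, sub_self, zpow_zero, mul_one, inv_mul_cancel] at h1
    exact h1
  -- the difference with `e + e ∘ F`
  have hdiff : IsHom fun g => d g - (e g + e (resF F V hVF g)) := by
    refine ⟨fun g h => ?_, hdl.sub (hel.add (hel.comp_continuous (resF F V hVF).continuous))⟩
    rw [hd, he, map_mul, he, hνF]
    ring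
  have hsum : ∑ ω : Cusps c V, cval c V (fun g => d g - (e g + e (resF F V hVF g))) ω = 0 :=
    sum_cval V hV _ hdiff
  have hval : ∀ ω, cval c V d ω = cval c V (fun g => d g - (e g + e (resF F V hVF g))) ω +
      (e (C ω) + e (C (S.map V hVF ω)) + E (C ω) * ν (v ω)) := by
    intro ω
    have h1 := heF ω
    rw [hEF] at h1
    change d (C ω) = d (C ω) - (e (C ω) + e (resF F V hVF (C ω))) + _
    rw [h1]
    ring
  rw [Fintype.sum_congr _ _ hval, sum_add_distrib, hsum, zero_add, sum_add_distrib,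
    sum_add_distrib]
  have hperm : ∑ ω : Cusps c V, e (C (S.map V hVF ω)) = ∑ ω : Cusps c V, e (C ω) :=
    (Function.Involutive.bijective (map_map V S hVF)).sum_comp fun ω => e (C ω)
  rw [hperm, CharTwo.add_self_eq_zero, zero_add]
  refine sum_involution (fun ω _ => S.map V hVF ω) ?_ ?_ ?_ ?_
  · intro ω _
    rw [hEF, hνv]
    exact CharTwo.add_self_eq_zero _
  · intro ω _ hne hω
    apply hne
    rw [hν0 ω hω, mul_zero]
  · intro ω _
    exact mem_univ _
  · intro ω _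
    exact map_map V S hVF ω

end

end Pool.Agent.GTT
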