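import Pool.Agent.Lib.MP_2cc432_al.Defs3

/-!
# TRN: transfer and class functions on the cusps
-/

open Filter Topology Finset

namespace Pool.Agent.GTT

section Cusps

variable {P : Type} [Group P] [TopologicalSpace P] [IsTopologicalGroup P] [CompactSpace P]
  [T2Space P] [TotallyDisconnectedSpace P] {n : ℕ} {c : Fin n → P}

variable (V : Subgroup P) [hVn : V.Normal]

omit [TopologicalSpace P] [IsTopologicalGroup P] [CompactSpace P] [T2Space P]
  [TotallyDisconnectedSpace P] in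
/-- change of the representative of a cusp -/
theorem trn_cuspEl (a g h : P) (hgh : cuspMk V a g = cuspMk V a h) :
    ∃ v : V, cuspEl V a g = v⁻¹ * cuspEl V a h * v := by
  obtain ⟨k, hk⟩ := (cuspMk_eq V a g h).1 hgh
  refine ⟨⟨_, hk⟩, Subtype.ext ?_⟩
  simp only [cuspEl, Subgroup.coe_mul, Subgroup.coe_inv]
  group

omit [TopologicalSpace P] [IsTopologicalGroup P] [CompactSpace P] [T2Space P]
  [TotallyDisconnectedSpace P] in
theorem trn_out (a g : P) :
    cuspMk V a (cuspMk V a g).out.out = cuspMk V a g := by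
  unfold cuspMk
  rw [QuotientGroup.out_eq', Quotient.out_eq']

omit [IsTopologicalGroup P] [CompactSpace P] [T2Space P] [TotallyDisconnectedSpace P] in
/-- TRN: class functions -/
theorem cval_mk {N : ℕ} (φ ψ d : V → ZMod N) (hφ : IsHom φ) (hψ : IsHom ψ) (hφr : UnramN c V φ)
    (hψr : UnramN c V ψ) (hd : ∀ g h, d (g * h) = d g + d h + φ g * ψ h)
    (i : Option (Fin n)) (g : P) :
    cval c V d ⟨i, cuspMk V (cusp c i) g⟩ = d (cuspEl V (cusp c i) g) := by
  obtain ⟨v, hv⟩ := trn_cuspEl V (cusp c i) _ g (trn_out V (cusp c i) g)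
  show d (cuspEl V (cusp c i) (cuspMk V (cusp c i) g).out.out) = _
  rw [hv]
  have hφc : φ (cuspEl V (cusp c i) g) = 0 := hφr i g _ _
  have hψc : ψ (cuspEl V (cusp c i) g) = 0 := hψr i g _ _
  have hφ1 : φ 1 = 0 := by
    have h := hφ.mul 1 1
    rw [mul_one] at h
    exact left_eq_add.1 h
  have hd1 : d 1 = 0 := by
    have h := hd 1 1
    rw [mul_one, hφ1, zero_mul, add_zero] at h
    exact left_eq_add.1 h
  have hφi : φ v⁻¹ = - φ v := by
    have h := hφ.mul v⁻¹ v
    rw [inv_mul_cancel, hφ1] at h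
    exact eq_neg_of_add_eq_zero_left h.symm
  have h2 : d v⁻¹ + d v - φ v * ψ v = 0 := by
    have h := hd v⁻¹ v
    rw [inv_mul_cancel, hd1, hφi] at h
    rw [h]
    ring
  rw [mul_assoc, hd, hd, hψ.mul, hφc, hψc, hφi]
  linear_combination h2

omit [IsTopologicalGroup P] [CompactSpace P] [T2Space P] [TotallyDisconnectedSpace P] in
/-- TRN: class functions -/
theorem cval_mk' {N : ℕ} (D : V → ZMod N) (hD : IsHom D) (i : Option (Fin n)) (g : P) :
    cval c V D ⟨i, cuspMk V (cusp c i) g⟩ = D (cuspEl V (cusp c i) g) := by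
  obtain ⟨v, hv⟩ := trn_cuspEl V (cusp c i) _ g (trn_out V (cusp c i) g)
  show D (cuspEl V (cusp c i) (cuspMk V (cusp c i) g).out.out) = _
  rw [hv]
  have hD1 : D 1 = 0 := by
    have h := hD.mul 1 1
    rw [mul_one] at h
    exact left_eq_add.1 h
  have h := hD.mul v⁻¹ v
  rw [inv_mul_cancel, hD1] at h
  rw [hD.mul, hD.mul]
  linear_combination -h

/-- a homomorphism as a homomorphism to the multiplicative group -/
def trnHom {N : ℕ} {D : V → ZMod N} (hD : IsHom D) : V →* Multiplicative (ZMod N) where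
  toFun v := Multiplicative.ofAdd (D v)
  map_one' := by
    have h := hD.mul 1 1
    rw [mul_one] at h
    rw [left_eq_add.1 h]
    rfl
  map_mul' a b := by
    rw [hD.mul]
    rfl

/-- TRN -/
theorem sum_cval (hV : IsOpen (V : Set P)) [Fintype (Cusps c V)] {N : ℕ} (D : V → ZMod N)
    (hD : IsHom D) : ∑ ω : Cusps c V, cval c V D ω = 0 := by
  classical
  have : Finite (P ⧸ V) := Subgroup.quotient_finite_of_isOpen V hV
  have : V.FiniteIndex := Subgroup.finiteIndex_of_finite_quotient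
  let _ : ∀ i, Fintype (cuspO V (cusp c i)) := fun i => Fintype.ofFinite _
  have key : ∀ (inst : Fintype (Cusps c V)),
      (@Finset.sum _ _ _ (@Finset.univ _ inst) (cval c V D)) =
        ∑ i, ∑ ω : cuspO V (cusp c i), cval c V D ⟨i, ω⟩ := by
    intro inst
    rw [Subsingleton.elim inst (Sigma.instFintype)]
    exact Fintype.sum_sigma _
  rw [key]
  have h1 : ∀ i, ∑ ω : cuspO V (cusp c i), cval c V D ⟨i, ω⟩ =
      Multiplicative.toAdd (MonoidHom.transfer (trnHom V hD) (cusp c i)) := by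
    intro i
    rw [cusp_transfer]
    rfl
  rw [sum_congr rfl fun i _ => h1 i, ← toAdd_prod, Fintype.prod_option]
  have h2 : MonoidHom.transfer (trnHom V hD) (cusp c none) *
      ∏ i : Fin n, MonoidHom.transfer (trnHom V hD) (cusp c (some i)) = 1 := by
    show MonoidHom.transfer (trnHom V hD) ((List.ofFn c).prod)⁻¹ *
      ∏ i : Fin n, MonoidHom.transfer (trnHom V hD) (c i) = 1
    rw [map_inv, map_list_prod, List.map_ofFn, List.prod_ofFn]
    exact inv_mul_cancel _
  rw [h2]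
  rfl

omit [IsTopologicalGroup P] [CompactSpace P] [T2Space P] [TotallyDisconnectedSpace P] in
/-- TRN -/
theorem unramN_iff {N : ℕ} (D : V → ZMod N) (hD : IsHom D) :
    UnramN c V D ↔ ∀ ω : Cusps c V, cval c V D ω = 0 := by
  constructor
  · intro h ω
    exact h ω.1 _ _ _
  · intro h i g k hk
    have h1 : (cusp c i) ^ k ∈ V := by
      have h2 := hVn.conj_mem _ hk g
      have h3 : g * (g⁻¹ * cusp c i ^ k * g) * g⁻¹ = cusp c i ^ k := by group
      rwa [h3] at h2
    have h2 : (QuotientGroup.mk (cusp c i) : P ⧸ V) ^ k = 1 := by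
      rw [← QuotientGroup.mk_pow, QuotientGroup.eq_one_iff]
      exact h1
    obtain ⟨j, hj⟩ := orderOf_dvd_iff_pow_eq_one.2 h2
    have h3 : (⟨_, hk⟩ : V) = cuspEl V (cusp c i) g ^ j := by
      apply Subtype.ext
      rw [Subgroup.coe_pow]
      show g⁻¹ * cusp c i ^ k * g =
        (g⁻¹ * cusp c i ^ orderOf (QuotientGroup.mk (cusp c i) : P ⧸ V) * g) ^ j
      have h4 := conj_pow (i := j) (a := g⁻¹)
        (b := cusp c i ^ orderOf (QuotientGroup.mk (cusp c i) : P ⧸ V))
      rw [inv_inv] at h4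
      rw [h4, ← pow_mul, ← hj]
    have h4 : D (cuspEl V (cusp c i) g) = 0 := by
      rw [← cval_mk' V D hD i g]
      exact h _
    rw [h3]
    have h5 := congrArg Multiplicative.toAdd (map_pow (trnHom V hD) (cuspEl V (cusp c i) g) j)
    have h6 : D (cuspEl V (cusp c i) g ^ j) = j • D (cuspEl V (cusp c i) g) := h5
    rw [h6, h4, smul_zero]

variable {F : P ≃ₜ* P} (S : RealStr c F) (hVF : ∀ g, F g ∈ V ↔ g ∈ V)

omit hVn [TopologicalSpace P] [IsTopologicalGroup P] [CompactSpace P] [T2Space P]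
  [TotallyDisconnectedSpace P] in
theorem trn_idx {i j : Option (Fin n)} (h : j = i) (g : P) :
    (⟨j, cuspMk V (cusp c j) g⟩ : Cusps c V) = ⟨i, cuspMk V (cusp c i) g⟩ := by
  subst h
  rfl

omit hVn [TopologicalSpace P] [IsTopologicalGroup P] [CompactSpace P] [T2Space P]
  [TotallyDisconnectedSpace P] in
theorem trn_surj (ω : Cusps c V) : ∃ i g, ω = ⟨i, cuspMk V (cusp c i) g⟩ := by
  obtain ⟨i, ω⟩ := ω
  obtain ⟨g, rfl⟩ := cuspMk_surj V _ ω
  exact ⟨i, g, rfl⟩

omit hVn [IsTopologicalGroup P] [CompactSpace P] [T2Space P] [TotallyDisconnectedSpace P] in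
/-- TRN -/
theorem map_map (ω : Cusps c V) : S.map V hVF (S.map V hVF ω) = ω := by
  obtain ⟨i, g, rfl⟩ := trn_surj V ω
  rw [S.map_mk, S.map_mk, map_mul, ← mul_assoc, S.inv i, one_mul]
  have h1 : F (F g) = g := S.hF g
  rw [h1]
  exact trn_idx V (S.ππ i) g

omit [IsTopologicalGroup P] [CompactSpace P] [T2Space P] [TotallyDisconnectedSpace P] in
include hVF in
theorem trn_order (i : Option (Fin n)) :
    orderOf (QuotientGroup.mk (cusp c (S.π i)) : P ⧸ V) =
      orderOf (QuotientGroup.mk (cusp c i) : P ⧸ V) := by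
  refine orderOf_eq_orderOf_iff.2 fun k => ?_
  rw [← QuotientGroup.mk_pow, ← QuotientGroup.mk_pow, QuotientGroup.eq_one_iff,
    QuotientGroup.eq_one_iff, ← hVF (cusp c i ^ k)]
  have h1 := cusp_zpow_aux F (S.cusp_F i) (k : ℤ)
  rw [zpow_natCast, zpow_neg, zpow_natCast] at h1
  have h2 : F (cusp c i ^ k) = (S.f i)⁻¹ * (cusp c (S.π i) ^ k)⁻¹ * S.f i := by
    rw [mul_assoc, ← h1, inv_mul_cancel_left]
  rw [h2]
  constructor
  · intro h
    have h3 := hVn.conj_mem _ (V.inv_mem h) (S.f i)⁻¹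
    rwa [inv_inv] at h3
  · intro h
    have h3 := V.inv_mem (hVn.conj_mem _ h (S.f i))
    have h4 : (S.f i * ((S.f i)⁻¹ * (cusp c (S.π i) ^ k)⁻¹ * S.f i) * (S.f i)⁻¹)⁻¹ =
        cusp c (S.π i) ^ k := by group
    rwa [h4] at h3

omit [IsTopologicalGroup P] [CompactSpace P] [T2Space P] [TotallyDisconnectedSpace P] in
theorem trn_F (i : Option (Fin n)) (g : P) :
    resF F V hVF (cuspEl V (cusp c i) g) = (cuspEl V (cusp c (S.π i)) (S.f i * F g))⁻¹ := by
  apply Subtype.ext
  rw [resF_apply, Subgroup.coe_inv]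
  show F (g⁻¹ * cusp c i ^ orderOf (QuotientGroup.mk (cusp c i) : P ⧸ V) * g) =
    ((S.f i * F g)⁻¹ * cusp c (S.π i) ^ orderOf (QuotientGroup.mk (cusp c (S.π i)) : P ⧸ V) *
      (S.f i * F g))⁻¹
  rw [trn_order V S hVF i]
  set e := orderOf (QuotientGroup.mk (cusp c i) : P ⧸ V)
  have h1 := cusp_zpow_aux F (S.cusp_F i) (e : ℤ)
  rw [zpow_natCast, zpow_neg, zpow_natCast] at h1
  have h2 : F (cusp c i ^ e) = (S.f i)⁻¹ * (cusp c (S.π i) ^ e)⁻¹ * S.f i := by
    rw [mul_assoc, ← h1, inv_mul_cancel_left]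
  rw [map_mul, map_mul, map_inv, h2]
  group

omit [IsTopologicalGroup P] [CompactSpace P] [T2Space P] [TotallyDisconnectedSpace P] in
/-- TRN -/
theorem cval_F {N : ℕ} (D : V → ZMod N) (hD : IsHom D) (ω : Cusps c V) :
    cval c V (fun v => D (resF F V hVF v)) ω = - cval c V D (S.map V hVF ω) := by
  obtain ⟨i, g, rfl⟩ := trn_surj V ω
  have hDF : IsHom fun v => D (resF F V hVF v) :=
    { mul := fun a b => by rw [map_mul, hD.mul]
      lc := hD.lc.comp_continuous (resF F V hVF).continuous }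
  rw [S.map_mk, cval_mk' V _ hDF, cval_mk' V _ hD, trn_F V S hVF i g]
  have hD1 : D 1 = 0 := by
    have h := hD.mul 1 1
    rw [mul_one] at h
    exact left_eq_add.1 h
  have h := hD.mul (cuspEl V (cusp c (S.π i)) (S.f i * F g))⁻¹
    (cuspEl V (cusp c (S.π i)) (S.f i * F g))
  rw [inv_mul_cancel, hD1] at h
  exact eq_neg_of_add_eq_zero_left h.symm

end Cusps

end Pool.Agent.GTT
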