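import Pool.Agent.Lib.MP_2cc432_al.Defs3
import Pool.Agent.Lib.MP_2cc432_al.FreeN
import Pool.Agent.Lib.MP_2cc432_al.DualN
import Pool.Agent.Lib.MP_2cc432_al.Trn
import Pool.Agent.Lib.MP_2cc432_al.Iso

/-!
# Counting unramified homomorphisms with the pairing (module PAIR)
-/

set_option autoImplicit false

open Filter Topology Finset

namespace Pool.Agent.GTT

/-! ## linear algebra -/

/-- a subspace orthogonal to another one for a pairing which is nondegenerate on the left -/
theorem pair_orth {K W : Type*} [Field K] [AddCommGroup W] [Module K W] [FiniteDimensional K W]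
    (B : W →ₗ[K] Module.Dual K W) (hB : Function.Injective B) (Z N : Submodule K W)
    (h : ∀ z ∈ Z, ∀ n ∈ N, B z n = 0) :
    Module.finrank K Z + Module.finrank K N ≤ Module.finrank K W := by
  have h1 : Module.finrank K Z = Module.finrank K (Z.map B) :=
    (LinearEquiv.finrank_eq (Submodule.equivMapOfInjective B hB Z))
  have h2 : Z.map B ≤ N.dualAnnihilator := by
    rintro _ ⟨z, hz, rfl⟩
    rw [Submodule.mem_dualAnnihilator]
    exact fun n hn => h z hz n hn
  have h3 := Submodule.finrank_mono h2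
  have h4 := Subspace.finrank_add_finrank_dualAnnihilator_eq N
  omega

/-! ## multiplication by 2 -/

/-- the map `ℤ / 2 → ℤ / 4`, `1 ↦ 2` -/
def pairDbl : ZMod 2 → ZMod 4 := fun x => if x = 0 then 0 else 2

theorem pairDbl_add : ∀ a b : ZMod 2, pairDbl (a + b) = pairDbl a + pairDbl b := by decide

theorem pairDbl_zero : pairDbl 0 = 0 := rfl

theorem pairDbl_eq_zero : ∀ a : ZMod 2, pairDbl a = 0 → a = 0 := by decide

theorem pairDbl_inj : Function.Injective pairDbl := by decide

theorem pair_red_eq_zero : ∀ a : ZMod 4, red42 a = 0 → ∃ b, a = pairDbl b := by decide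

theorem pair_add_self : ∀ a : ZMod 2, a + a = 0 := by decide

/-! ## homomorphisms -/

section

variable {P : Type} [Group P] [TopologicalSpace P]

theorem pair_isHom_zero {N : ℕ} : IsHom (fun _ : P => (0 : ZMod N)) :=
  ⟨fun _ _ => (add_zero _).symm, IsLocallyConstant.const 0⟩

theorem pair_isHom_add {N : ℕ} {D E : P → ZMod N} (hD : IsHom D) (hE : IsHom E) :
    IsHom (fun g => D g + E g) :=
  ⟨fun g h => by rw [hD.mul, hE.mul]; ring, hD.lc.add hE.lc⟩

theorem pair_isHom_neg {N : ℕ} {D : P → ZMod N} (hD : IsHom D) : IsHom (fun g => -D g) :=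
  ⟨fun g h => by rw [hD.mul]; ring, hD.lc.neg⟩

theorem pair_isHom_comp {N : ℕ} {D : P → ZMod N} (hD : IsHom D) (F : P ≃ₜ* P) :
    IsHom (fun g => D (F g)) :=
  ⟨fun g h => by rw [map_mul, hD.mul], hD.lc.comp_continuous F.continuous⟩

theorem pair_isHom_red {D : P → ZMod 4} (hD : IsHom D) : IsHom (fun g => red42 (D g)) :=
  ⟨fun g h => by rw [hD.mul, map_add], hD.lc.comp red42⟩

theorem pair_isHom_one {N : ℕ} {D : P → ZMod N} (hD : IsHom D) : D 1 = 0 := by
  have h := hD.mul 1 1
  rw [mul_one] at h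
  have : D 1 + 0 = D 1 + D 1 := by rw [add_zero]; exact h
  exact (add_left_cancel this).symm

theorem pair_isHom_inv {N : ℕ} {D : P → ZMod N} (hD : IsHom D) (g : P) : D g⁻¹ = -D g := by
  have h := hD.mul g g⁻¹
  rw [mul_inv_cancel, pair_isHom_one hD] at h
  exact (neg_eq_of_add_eq_zero_right h.symm).symm

theorem pair_norm_isHom {F : P ≃ₜ* P} {N : ℕ} {D : P → ZMod N} (hD : D ∈ normHoms F N) :
    IsHom D := by
  obtain ⟨E, hE, h⟩ := hD
  have : D = fun g => E g + E (F g) := funext h
  rw [this]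
  exact pair_isHom_add hE (pair_isHom_comp hE F)

/-- the equation `d (g h) = d g + d h + φ g ψ h` has a solution -/
theorem pair_exists_d (hL : DerLift P 2) {φ ψ : P → ZMod 2} (hφ : IsHom φ) (hψ : IsHom ψ) :
    ∃ d : P → ZMod 2, IsLocallyConstant d ∧ ∀ g h, d (g * h) = d g + d h + φ g * ψ h := by
  let ρ : P →* AddMonoid.End (ZMod 2 × ZMod 2) :=
    { toFun := fun g =>
        { toFun := fun t => (t.1 + φ g * t.2, t.2)
          map_zero' := by simp
          map_add' := fun s t => by
            ext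
            · simp only [Prod.fst_add, Prod.snd_add]; ring
            · simp }
      map_one' := by
        refine AddMonoidHom.ext fun t => ?_
        change ((t.1 + φ 1 * t.2, t.2) : ZMod 2 × ZMod 2) = t
        rw [pair_isHom_one hφ, zero_mul, add_zero]
      map_mul' := fun g h => by
        refine AddMonoidHom.ext fun t => ?_
        change ((t.1 + φ (g * h) * t.2, t.2) : ZMod 2 × ZMod 2) =
          ((t.1 + φ h * t.2) + φ g * t.2, t.2)
        rw [hφ.mul]
        ext
        · simp only; ring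
        · rfl }
  have hρ : ∀ g t, ρ g t = (t.1 + φ g * t.2, t.2) := fun g t => rfl
  have hφ1 : ∀ᶠ g in 𝓝 (1 : P), φ g = 0 := by
    have := hφ.lc.eventually_eq 1
    rwa [pair_isHom_one hφ] at this
  obtain ⟨δ, hδ, hδ2⟩ := hL (ZMod 2 × ZMod 2) (ZMod 2) ρ 1 (AddMonoidHom.snd _ _)
    (fun t => by
      have h1 := pair_add_self t.1
      have h2 := pair_add_self t.2
      ext
      · rw [two_nsmul]; exact h1
      · rw [two_nsmul]; exact h2)
    (fun t => hφ1.mono fun g hg => by rw [hρ, hg, zero_mul, add_zero])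
    (fun t => Filter.Eventually.of_forall fun g => rfl)
    (fun a => ⟨(0, a), rfl⟩) (fun g t => rfl) ψ ⟨fun g h => hψ.mul g h, hψ.lc⟩
  refine ⟨fun g => (δ g).1, hδ.lc.comp Prod.fst, fun g h => ?_⟩
  have h1 := hδ.mul g h
  rw [hρ] at h1
  have h2 : (δ h).2 = ψ h := hδ2 h
  have h3 := congrArg Prod.fst h1
  simp only [Prod.fst_add] at h3
  change (δ (g * h)).1 = (δ g).1 + (δ h).1 + φ g * ψ h
  rw [h3, h2]
  ring

end

/-! ## unramified homomorphisms -/

section

variable {P : Type} [Group P] [TopologicalSpace P] {n : ℕ} (c : Fin n → P)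
  (V : Subgroup P)

/-- the unramified homomorphisms `V → ℤ / 2` -/
def pairW : Submodule (ZMod 2) (V → ZMod 2) :=
  AddSubgroup.toZModSubmodule 2
    { carrier := {D | IsHom D ∧ UnramN c V D}
      add_mem' := by
        rintro D E ⟨hD, hD'⟩ ⟨hE, hE'⟩
        refine ⟨pair_isHom_add hD hE, fun i g k h => ?_⟩
        rw [Pi.add_apply, hD' i g k h, hE' i g k h, add_zero]
      zero_mem' := ⟨pair_isHom_zero, fun _ _ _ _ => rfl⟩
      neg_mem' := by
        rintro D ⟨hD, hD'⟩
        refine ⟨pair_isHom_neg hD, fun i g k h => ?_⟩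
        rw [Pi.neg_apply, hD' i g k h, neg_zero] }

variable {c V}

theorem mem_pairW {D : V → ZMod 2} : D ∈ pairW c V ↔ IsHom D ∧ UnramN c V D := Iff.rfl

end

section

variable {P : Type} [Group P] [TopologicalSpace P] [IsTopologicalGroup P] [CompactSpace P]
  [T2Space P] [TotallyDisconnectedSpace P] {n : ℕ} {c : Fin n → P} (V : Subgroup P)
  [hVn : V.Normal]

theorem pair_sum_unique (hV : IsOpen (V : Set P)) [Fintype (Cusps c V)] {φ ψ d d' : V → ZMod 2}
    (hd : IsLocallyConstant d) (hd' : IsLocallyConstant d')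
    (h : ∀ g h, d (g * h) = d g + d h + φ g * ψ h)
    (h' : ∀ g h, d' (g * h) = d' g + d' h + φ g * ψ h) :
    ∑ ω : Cusps c V, cval c V d ω = ∑ ω : Cusps c V, cval c V d' ω := by
  have h1 : IsHom (fun g => d g - d' g) := ⟨fun g k => by rw [h, h']; ring, hd.sub hd'⟩
  have h2 := sum_cval (c := c) V hV _ h1
  rw [← sub_eq_zero, ← Finset.sum_sub_distrib]
  exact h2

/-- a solution of the equation -/
noncomputable def pairD (hL : DerLift V 2) (φ ψ : pairW c V) : V → ZMod 2 :=
  (pair_exists_d hL φ.2.1 ψ.2.1).choose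

theorem pairD_lc (hL : DerLift V 2) (φ ψ : pairW c V) : IsLocallyConstant (pairD V hL φ ψ) :=
  (pair_exists_d hL φ.2.1 ψ.2.1).choose_spec.1

theorem pairD_mul (hL : DerLift V 2) (φ ψ : pairW c V) (g h : V) :
    pairD V hL φ ψ (g * h) = pairD V hL φ ψ g + pairD V hL φ ψ h + φ.1 g * ψ.1 h :=
  (pair_exists_d hL φ.2.1 ψ.2.1).choose_spec.2 g h

/-- the pairing -/
noncomputable def pairB (hV : IsOpen (V : Set P)) (hL : DerLift V 2) [Fintype (Cusps c V)] :
    pairW c V →ₗ[ZMod 2] Module.Dual (ZMod 2) (pairW c V) :=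
  AddMonoidHom.toZModLinearMap 2 <| AddMonoidHom.mk'
    (fun φ => AddMonoidHom.toZModLinearMap 2 <| AddMonoidHom.mk'
      (fun ψ => ∑ ω : Cusps c V, cval c V (pairD V hL φ ψ) ω) (by
        intro ψ ψ'
        have h := pair_sum_unique (c := c) V hV (φ := φ.1) (ψ := (ψ + ψ').1)
          (pairD_lc V hL φ (ψ + ψ')) ((pairD_lc V hL φ ψ).add (pairD_lc V hL φ ψ'))
          (pairD_mul V hL φ (ψ + ψ')) (fun g h => by
            rw [Pi.add_apply, Pi.add_apply, Pi.add_apply, pairD_mul, pairD_mul]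
            change _ = _ + φ.1 g * (ψ.1 h + ψ'.1 h)
            ring)
        rw [h, ← Finset.sum_add_distrib]
        rfl)) (by
    intro φ φ'
    refine LinearMap.ext fun ψ => ?_
    have h := pair_sum_unique (c := c) V hV (φ := (φ + φ').1) (ψ := ψ.1)
      (pairD_lc V hL (φ + φ') ψ) ((pairD_lc V hL φ ψ).add (pairD_lc V hL φ' ψ))
      (pairD_mul V hL (φ + φ') ψ) (fun g h => by
        rw [Pi.add_apply, Pi.add_apply, Pi.add_apply, pairD_mul, pairD_mul]
        change _ = _ + (φ.1 g + φ'.1 g) * ψ.1 h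
        ring)
    change ∑ ω : Cusps c V, cval c V (pairD V hL (φ + φ') ψ) ω =
      ∑ ω : Cusps c V, cval c V (pairD V hL φ ψ) ω +
        ∑ ω : Cusps c V, cval c V (pairD V hL φ' ψ) ω
    rw [h, ← Finset.sum_add_distrib]
    rfl)

theorem pairB_apply (hV : IsOpen (V : Set P)) (hL : DerLift V 2) [Fintype (Cusps c V)]
    (φ ψ : pairW c V) :
    pairB V hV hL φ ψ = ∑ ω : Cusps c V, cval c V (pairD V hL φ ψ) ω := rfl

theorem pairB_inj (h : FreeProfN P c) (hV : IsOpen (V : Set P)) (hL : DerLift V 2)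
    [Fintype (Cusps c V)] : Function.Injective (pairB (c := c) V hV hL) := by
  rw [injective_iff_map_eq_zero]
  intro φ hφ
  by_contra hne
  have h1 : ∃ v, φ.1 v ≠ 0 := by
    by_contra h0
    push Not at h0
    exact hne (Subtype.ext (funext h0))
  obtain ⟨ψ, d, hψ, hψ', hd, hdm, hs⟩ := dualityN V h hV φ.1 φ.2.1 φ.2.2 h1
  have h2 := congrArg (fun f => f (⟨ψ, hψ, hψ'⟩ : pairW c V)) hφ
  simp only [pairB_apply, LinearMap.zero_apply] at h2
  rw [pair_sum_unique (c := c) V hV (pairD_lc V hL φ ⟨ψ, hψ, hψ'⟩) hd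
    (pairD_mul V hL φ ⟨ψ, hψ, hψ'⟩) hdm, hs] at h2
  exact one_ne_zero h2

variable {F : P ≃ₜ* P} (S : RealStr c F) (hVF : ∀ g, F g ∈ V ↔ g ∈ V)

/-- the unramified norms mod 4 -/
def pairZ (c : Fin n → P) : AddSubgroup (V → ZMod 4) where
  carrier := {D | D ∈ normHoms (resF F V hVF) 4 ∧ UnramN c V D}
  add_mem' := by
    rintro D D' ⟨⟨E, hE, hD⟩, hu⟩ ⟨⟨E', hE', hD'⟩, hu'⟩
    refine ⟨⟨_, pair_isHom_add hE hE', fun g => ?_⟩, fun i g k h => ?_⟩
    · rw [Pi.add_apply, hD, hD']
      ring
    · rw [Pi.add_apply, hu i g k h, hu' i g k h, add_zero]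
  zero_mem' := ⟨⟨_, pair_isHom_zero, fun g => (add_zero _).symm⟩, fun _ _ _ _ => rfl⟩
  neg_mem' := by
    rintro D ⟨⟨E, hE, hD⟩, hu⟩
    refine ⟨⟨_, pair_isHom_neg hE, fun g => ?_⟩, fun i g k h => ?_⟩
    · rw [Pi.neg_apply, hD]
      ring
    · rw [Pi.neg_apply, hu i g k h, neg_zero]

/-- the reduction modulo 2 -/
def pairR (c : Fin n → P) : pairZ V hVF c →+ pairW c V :=
  AddMonoidHom.mk' (fun D => ⟨fun v => red42 (D.1 v), pair_isHom_red (pair_norm_isHom D.2.1),
    fun i g k h => by
      change red42 (D.1 ⟨_, h⟩) = 0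
      rw [D.2.2 i g k h, map_zero]⟩) (fun D D' => Subtype.ext (funext fun v => by
      change red42 (D.1 v + D'.1 v) = red42 (D.1 v) + red42 (D'.1 v)
      rw [map_add]))

/-- the unramified homomorphisms mod 2 whose double is an unramified norm -/
def pairN (c : Fin n → P) : Submodule (ZMod 2) (pairW c V) :=
  AddSubgroup.toZModSubmodule 2
    { carrier := {φ | (fun v => pairDbl (φ.1 v)) ∈ pairZ V hVF c}
      add_mem' := by
        intro φ ψ hφ hψ
        have h := (pairZ V hVF c).add_mem hφ hψ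
        have h2 : (fun v => pairDbl ((φ + ψ).1 v)) =
            (fun v => pairDbl (φ.1 v)) + (fun v => pairDbl (ψ.1 v)) :=
          funext fun v => pairDbl_add _ _
        change (fun v => pairDbl ((φ + ψ).1 v)) ∈ pairZ V hVF c
        rw [h2]
        exact h
      zero_mem' := (pairZ V hVF c).zero_mem
      neg_mem' := by
        intro φ hφ
        have h2 : (-φ) = φ := by
          rw [neg_eq_iff_add_eq_zero]
          exact Subtype.ext (funext fun v => pair_add_self _)
        rw [h2]
        exact hφ }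

theorem mem_pairN (φ : pairW c V) :
    φ ∈ pairN V hVF c ↔ (fun v => pairDbl (φ.1 v)) ∈ pairZ V hVF c := Iff.rfl

include S in
/-- reductions of unramified norms are orthogonal to `pairN` -/
theorem pair_orthogonal (hV : IsOpen (V : Set P)) (hL : DerLift V 2) [Fintype (Cusps c V)]
    (D : pairZ V hVF c) (ν : pairW c V) (hν : ν ∈ pairN V hVF c) :
    pairB V hV hL (pairR V hVF c D) ν = 0 := by
  rw [pairB_apply]
  obtain ⟨⟨E, hE, hD⟩, hu⟩ := D.2
  rw [mem_pairN] at hν
  obtain ⟨⟨E', hE', hν0⟩, hν2⟩ := hν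
  have hν1 : ∀ v, pairDbl (ν.1 v) = E' v + E' (resF F V hVF v) := hν0
  have hF : ∀ v : V, resF F V hVF (resF F V hVF v) = v := fun v => resF_hF V hVF S.hF v
  have h1 : ∀ v, (pairR V hVF c D).1 v = red42 (E v) + red42 (E (resF F V hVF v)) := by
    intro v
    change red42 (D.1 v) = _
    rw [hD, map_add]
  refine iso_orth V S hVF hV hL (fun v => red42 (E v)) ν.1 _ (pair_isHom_red hE) ν.2.1 ν.2.2
    (fun v => ?_) (fun v hv => ?_) (fun i g k h => ?_) (pairD_lc V hL _ _) (fun g h => ?_)
  · apply pairDbl_inj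
    rw [hν1, hν1, hF, add_comm]
  · apply pairDbl_eq_zero
    rw [hν1, eq_inv_of_mul_eq_one_right hv, pair_isHom_inv hE', add_neg_cancel]
  · have := (pairR V hVF c D).2.2 i g k h
    rw [h1] at this
    exact this
  · rw [pairD_mul, h1]

include S in
/-- PAIR -/
theorem pair_card (h : FreeProfN P c) (hV : IsOpen (V : Set P)) :
    {D : V → ZMod 4 | D ∈ normHoms (resF F V hVF) 4 ∧ UnramN c V D}.ncard ≤
      {D : V → ZMod 2 | IsHom D ∧ UnramN c V D}.ncard := by
  have hL : DerLift V 2 := derLiftN h V hV (by norm_num)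
  have hfin : Finite (P ⧸ V) := V.quotient_finite_of_isOpen hV
  letI : Fintype (Cusps c V) := Fintype.ofFinite _
  have h4 : Finite (pairZ V hVF c) :=
    ((homsN_finite h V hV (N := 4) (by norm_num)).subset fun D hD => pair_norm_isHom hD.1).to_subtype
  have h2 : Finite (pairW c V) :=
    ((homsN_finite h V hV (N := 2) (by norm_num)).subset fun D hD => hD.1).to_subtype
  have hW : Module.Finite (ZMod 2) (pairW c V) := Module.Finite.of_finite
  -- the range and the kernel of the reduction
  let Zb : Submodule (ZMod 2) (pairW c V) := AddSubgroup.toZModSubmodule 2 (pairR V hVF c).range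
  have h5 := pair_orth (pairB (c := c) V hV hL) (pairB_inj V h hV hL) Zb (pairN V hVF c) (by
    rintro _ ⟨D, rfl⟩ ν hν
    exact pair_orthogonal V S hVF hV hL D ν hν)
  have h6 : Nat.card (pairZ V hVF c) = Nat.card Zb * Nat.card (pairR V hVF c).ker := by
    rw [AddSubgroup.card_eq_card_quotient_mul_card_addSubgroup (pairR V hVF c).ker]
    congr 1
    exact Nat.card_congr (QuotientAddGroup.quotientKerEquivRange (pairR V hVF c)).toEquiv
  have h7 : Nat.card (pairR V hVF c).ker ≤ Nat.card (pairN V hVF c) := by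
    have h8 : ∀ D : (pairR V hVF c).ker, ∃ ν : pairN V hVF c, ∀ v, D.1.1 v = pairDbl (ν.1.1 v) := by
      intro D
      have h9 : ∀ v, red42 (D.1.1 v) = 0 := fun v => congrFun (congrArg Subtype.val D.2) v
      have h10 : ∀ v, ∃ b, D.1.1 v = pairDbl b := fun v => pair_red_eq_zero _ (h9 v)
      choose ν hν using h10
      have hD := pair_norm_isHom D.1.2.1
      have hν1 : IsHom ν := by
        refine ⟨fun g k => pairDbl_inj ?_, ?_⟩
        · rw [pairDbl_add, ← hν, ← hν, ← hν, hD.mul]
        · have : ν = (fun a : ZMod 4 => if a = 0 then (0 : ZMod 2) else 1) ∘ D.1.1 := by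
            funext v
            have key : ∀ b : ZMod 2, b = if pairDbl b = 0 then (0 : ZMod 2) else 1 := by decide
            change ν v = if D.1.1 v = 0 then (0 : ZMod 2) else 1
            rw [hν v]
            exact key _
          rw [this]
          exact hD.lc.comp _
      have hν2 : UnramN c V ν := by
        intro i g k hk
        apply pairDbl_eq_zero
        rw [← hν]
        exact D.1.2.2 i g k hk
      refine ⟨⟨⟨ν, hν1, hν2⟩, ?_⟩, hν⟩
      rw [mem_pairN]
      have : (fun v => pairDbl (ν v)) = D.1.1 := funext fun v => (hν v).symm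
      change (fun v => pairDbl (ν v)) ∈ pairZ V hVF c
      rw [this]
      exact D.1.2
    choose f hf using h8
    exact Nat.card_le_card_of_injective f fun D D' hDD => by
      apply Subtype.ext
      apply Subtype.ext
      funext v
      rw [hf, hf, hDD]
  have h8 : Nat.card Zb * Nat.card (pairN V hVF c) ≤ Nat.card (pairW c V) := by
    rw [Module.natCard_eq_pow_finrank (K := ZMod 2) (V := Zb),
      Module.natCard_eq_pow_finrank (K := ZMod 2) (V := pairN V hVF c),
      Module.natCard_eq_pow_finrank (K := ZMod 2) (V := pairW c V), ← pow_add]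
    exact Nat.pow_le_pow_right Nat.card_pos h5
  calc _ = Nat.card (pairZ V hVF c) := rfl
    _ = Nat.card Zb * Nat.card (pairR V hVF c).ker := h6
    _ ≤ Nat.card Zb * Nat.card (pairN V hVF c) := Nat.mul_le_mul_left _ h7
    _ ≤ Nat.card (pairW c V) := h8
    _ = _ := rfl

end

end Pool.Agent.GTT
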