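import Pool.Agent.Lib.MP_2cc432_al.Defs3
import Pool.Agent.Lib.MP_2cc432_al.PD
import Pool.Agent.Lib.MP_2cc432_al.FreeN
import Pool.Agent.Lib.MP_2cc432_al.Ext
import Pool.Agent.Lib.MP_2cc432_al.Trn

/-!
# RESN: homomorphisms with prescribed residues at the cusps
-/

open Filter Topology Finset

namespace Pool.Agent.GTT

section Resn

variable {P : Type} [Group P] [TopologicalSpace P] [IsTopologicalGroup P] [CompactSpace P]
  [T2Space P] [TotallyDisconnectedSpace P] {n : ℕ} {c : Fin n → P}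

variable (V : Subgroup P) [hVn : V.Normal]

/-- the coinduced module -/
abbrev resnT : Type := pdT V (fun _ : V => (0 : ZMod 2))

/-- its action -/
abbrev resnρ : P →* AddMonoid.End (resnT V) := pdρ V (fun _ : V => (0 : ZMod 2))

omit [IsTopologicalGroup P] [CompactSpace P] [T2Space P] [TotallyDisconnectedSpace P] hVn in
theorem resn_zero_hom : IsHom (fun _ : V => (0 : ZMod 2)) :=
  ⟨fun _ _ => (add_zero 0).symm, IsLocallyConstant.const 0⟩

omit [TopologicalSpace P] [IsTopologicalGroup P] [CompactSpace P] [T2Space P]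
  [TotallyDisconnectedSpace P] hVn in
theorem resn_tors (t : resnT V) : 2 • t = 0 := by
  refine Subtype.ext (funext fun g => ?_)
  change 2 • t.1 g = 0
  rw [two_nsmul]
  exact Prod.ext (CharTwo.add_self_eq_zero _) (CharTwo.add_self_eq_zero _)

open Classical in
/-- the function `h ↦ [h g₁ ∈ V]` -/
noncomputable def resnM (g₁ : P) : resnT V := ⟨fun h => if h * g₁ ∈ V then (0, 1) else 0, by
  intro v h
  have h1 : (v : P) * h * g₁ ∈ V ↔ h * g₁ ∈ V := by
    rw [mul_assoc]
    exact V.mul_mem_cancel_left v.2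
  simp only [h1]
  split_ifs
  · simp
  · simp only [Prod.fst_zero, Prod.snd_zero, mul_zero, add_zero]
    rfl⟩

/-- the hom belonging to a derivation -/
def resnD (δ : P → resnT V) : V → ZMod 2 := fun v => ((δ v).1 1).2

omit [IsTopologicalGroup P] [CompactSpace P] [T2Space P] [TotallyDisconnectedSpace P] hVn in
theorem resn_hom {δ : P → resnT V} (hδ : IsDer (resnρ V) δ) : IsHom (resnD V δ) := by
  refine ⟨fun v w => ?_, ?_⟩
  · change ((δ ((v * w : V) : P)).1 1).2 = ((δ v).1 1).2 + ((δ w).1 1).2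
    rw [Subgroup.coe_mul, hδ.mul]
    change ((δ v).1 1).2 + ((δ w).1 (1 * v)).2 = _
    have h1 : (1 : P) * v = v * 1 := by rw [one_mul, mul_one]
    rw [h1, pdT_apply]
  · exact (hδ.lc.comp_continuous continuous_subtype_val).comp fun t : resnT V => (t.1 1).2

omit [IsTopologicalGroup P] [CompactSpace P] [T2Space P] [TotallyDisconnectedSpace P] in
/-- the value at a cusp -/
theorem resn_value {δ : P → resnT V} (hδ : IsDer (resnρ V) δ) (a g : P) :
    resnD V δ (cuspEl V a g) = ∑ r ∈ range (orderOf (QuotientGroup.mk a : P ⧸ V)),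
      ((δ a).1 (g⁻¹ * a ^ r)).2 := by
  change ((δ (g⁻¹ * a ^ orderOf (QuotientGroup.mk a : P ⧸ V) * g)).1 1).2 = _
  rw [pd_conj hδ g _ (cusp_mem V a g) rfl, pd_pow_sum hδ, Prod.snd_sum]

omit [IsTopologicalGroup P] [CompactSpace P] [T2Space P] [TotallyDisconnectedSpace P] in
theorem resn_value_add {δ : P → resnT V} (hδ : IsDer (resnρ V) δ) (a g : P) (m b : resnT V)
    (h : δ a = m + (resnρ V a b - b)) :
    resnD V δ (cuspEl V a g) = ∑ r ∈ range (orderOf (QuotientGroup.mk a : P ⧸ V)),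
      (m.1 (g⁻¹ * a ^ r)).2 := by
  rw [resn_value V hδ, h]
  have h1 : ∀ r : ℕ, (((m + (resnρ V a b - b) : resnT V)).1 (g⁻¹ * a ^ r)).2 =
      (m.1 (g⁻¹ * a ^ r)).2 + ((b.1 (g⁻¹ * a ^ (r + 1))).2 - (b.1 (g⁻¹ * a ^ r)).2) := by
    intro r
    rw [pow_succ, ← mul_assoc]
    rfl
  rw [sum_congr rfl fun r _ => h1 r, sum_add_distrib,
    sum_range_sub (fun r => (b.1 (g⁻¹ * a ^ r)).2)]
  have h2 : g⁻¹ * a ^ orderOf (QuotientGroup.mk a : P ⧸ V) =
      (⟨_, cusp_mem V a g⟩ : V) * g⁻¹ := by simp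
  rw [h2, pdT_apply, pow_zero, mul_one, sub_self, add_zero]

omit [IsTopologicalGroup P] [CompactSpace P] [T2Space P] [TotallyDisconnectedSpace P]
  [TopologicalSpace P] in
open Classical in
theorem resn_count [Finite (P ⧸ V)] (a g g₁ : P) :
    ∑ r ∈ range (orderOf (QuotientGroup.mk a : P ⧸ V)), ((resnM V g₁).1 (g⁻¹ * a ^ r)).2 =
      if cuspMk V a g = cuspMk V a g₁ then 1 else 0 := by
  have hval : ∀ r : ℕ, ((resnM V g₁).1 (g⁻¹ * a ^ r)).2 =
      if (QuotientGroup.mk a : P ⧸ V) ^ r = QuotientGroup.mk g * (QuotientGroup.mk g₁)⁻¹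
        then 1 else 0 := by
    intro r
    have h1 : g⁻¹ * a ^ r * g₁ ∈ V ↔
        (QuotientGroup.mk a : P ⧸ V) ^ r = QuotientGroup.mk g * (QuotientGroup.mk g₁)⁻¹ := by
      rw [← QuotientGroup.eq_one_iff, QuotientGroup.mk_mul, QuotientGroup.mk_mul,
        QuotientGroup.mk_pow, QuotientGroup.mk_inv, mul_eq_one_iff_eq_inv, inv_mul_eq_iff_eq_mul]
    change ((if g⁻¹ * a ^ r * g₁ ∈ V then ((0 : ZMod 2), (1 : ZMod 2)) else 0)).2 = _
    simp only [h1]
    split_ifs <;> rfl
  rw [sum_congr rfl fun r _ => hval r]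
  have hiff : cuspMk V a g = cuspMk V a g₁ ↔
      QuotientGroup.mk g * (QuotientGroup.mk g₁)⁻¹ ∈
        Subgroup.zpowers (QuotientGroup.mk a : P ⧸ V) := by
    rw [cuspMk_eq, Subgroup.mem_zpowers_iff]
    refine exists_congr fun k => ?_
    rw [← QuotientGroup.eq_one_iff, QuotientGroup.mk_mul, QuotientGroup.mk_inv,
      QuotientGroup.mk_mul, QuotientGroup.mk_zpow, inv_mul_eq_one, eq_mul_inv_iff_mul_eq]
  by_cases hmem : QuotientGroup.mk g * (QuotientGroup.mk g₁)⁻¹ ∈
      Subgroup.zpowers (QuotientGroup.mk a : P ⧸ V)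
  · rw [if_pos (hiff.2 hmem)]
    rw [mem_zpowers_iff_mem_range_orderOf, mem_image] at hmem
    obtain ⟨r₀, hr₀, h0⟩ := hmem
    rw [sum_eq_single r₀, if_pos h0]
    · intro r hr hne
      rw [if_neg]
      intro h1
      refine hne (pow_injOn_Iio_orderOf ?_ ?_ (h1.trans h0.symm))
      · exact mem_range.1 hr
      · exact mem_range.1 hr₀
    · intro h1
      exact absurd hr₀ h1
  · rw [if_neg fun h => hmem (hiff.1 h)]
    refine sum_eq_zero fun r _ => if_neg fun h1 => hmem ?_
    rw [← h1]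
    exact Subgroup.npow_mem_zpowers _ _

omit [IsTopologicalGroup P] [CompactSpace P] [T2Space P] [TotallyDisconnectedSpace P]
  [TopologicalSpace P] hVn in
open Classical in
theorem resn_augment (g₁ g₂ : P) :
    resnM V g₁ - resnM V g₂ ∈
      AddSubgroup.closure {t : resnT V | ∃ g s, t = resnρ V g s - s} := by
  refine AddSubgroup.subset_closure ⟨g₁ * g₂⁻¹, resnM V g₂, ?_⟩
  congr 1
  refine Subtype.ext (funext fun h => ?_)
  change (if h * g₁ ∈ V then ((0 : ZMod 2), (1 : ZMod 2)) else 0) =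
    if h * (g₁ * g₂⁻¹) * g₂ ∈ V then (0, 1) else 0
  have h1 : h * (g₁ * g₂⁻¹) * g₂ = h * g₁ := by group
  rw [h1]

variable (c) in
/-- the group of the residue vectors of homomorphisms -/
def resnR : AddSubgroup (Cusps c V → ZMod 2) where
  carrier := {r | ∃ D : V → ZMod 2, IsHom D ∧ ∀ ω, cval c V D ω = r ω}
  add_mem' := by
    rintro r r' ⟨D, hD, h⟩ ⟨D', hD', h'⟩
    refine ⟨fun v => D v + D' v, ⟨fun v w => ?_, hD.lc.add hD'.lc⟩, fun ω => ?_⟩
    · change D (v * w) + D' (v * w) = _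
      rw [hD.mul, hD'.mul]
      abel
    · rw [Pi.add_apply, ← h ω, ← h' ω]
      rfl
  zero_mem' := ⟨fun _ => 0, resn_zero_hom V, fun _ => rfl⟩
  neg_mem' := by
    rintro r ⟨D, hD, h⟩
    refine ⟨fun v => -D v, ⟨fun v w => ?_, hD.lc.neg⟩, fun ω => ?_⟩
    · change -D (v * w) = _
      rw [hD.mul]
      abel
    · rw [Pi.neg_apply, ← h ω]
      rfl

omit [IsTopologicalGroup P] [CompactSpace P] [T2Space P] [TotallyDisconnectedSpace P] in
/-- the residue vector of a derivation -/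
theorem resn_mem {δ : P → resnT V} (hδ : IsDer (resnρ V) δ) :
    (fun ω : Cusps c V => cval c V (resnD V δ) ω) ∈ resnR c V :=
  ⟨_, resn_hom V hδ, fun _ => rfl⟩

open Classical in
theorem resn_same (h : FreeProfN P c) (hV : IsOpen (V : Set P)) (i : Option (Fin n))
    (x y : cuspO V (cusp c i)) :
    (Pi.single ⟨i, x⟩ 1 + Pi.single ⟨i, y⟩ 1 : Cusps c V → ZMod 2) ∈ resnR c V := by
  have hfin : Finite (P ⧸ V) := V.quotient_finite_of_isOpen hV
  obtain ⟨g₁, rfl⟩ := cuspMk_surj V _ x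
  obtain ⟨g₂, rfl⟩ := cuspMk_surj V _ y
  obtain ⟨δ, hδ, ⟨b, hb⟩, hδ'⟩ := ext_der h (N := 2) two_pos (resn_tors V) (resnρ V)
    (pd_smooth V hV _ (resn_zero_hom V)) _ (resn_augment V g₁ g₂) i
  convert resn_mem V (c := c) hδ using 1
  funext ω
  obtain ⟨j, z⟩ := ω
  obtain ⟨g, rfl⟩ := cuspMk_surj V _ z
  rw [cval_mk' V _ (resn_hom V hδ), Pi.add_apply, Pi.single_apply, Pi.single_apply]
  by_cases hj : j = i
  · subst hj
    rw [resn_value_add V hδ _ g _ b hb]
    have h1 : ∀ r : ℕ, ((resnM V g₁ - resnM V g₂ : resnT V).1 (g⁻¹ * cusp c j ^ r)).2 =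
        ((resnM V g₁).1 (g⁻¹ * cusp c j ^ r)).2 + ((resnM V g₂).1 (g⁻¹ * cusp c j ^ r)).2 := by
      intro r
      rw [← CharTwo.sub_eq_add]
      rfl
    rw [sum_congr rfl fun r _ => h1 r, sum_add_distrib, resn_count, resn_count]
    simp
  · obtain ⟨b', hb'⟩ := hδ' j hj
    have h0 : ((⟨j, cuspMk V (cusp c j) g⟩ : Cusps c V) = ⟨i, cuspMk V (cusp c i) g₁⟩) = False := by
      simp [hj]
    have h0' : ((⟨j, cuspMk V (cusp c j) g⟩ : Cusps c V) = ⟨i, cuspMk V (cusp c i) g₂⟩) = False := by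
      simp [hj]
    rw [resn_value_add V hδ _ g 0 b' (by rw [hb', zero_add])]
    simp only [h0, h0', if_false, add_zero]
    exact (sum_eq_zero fun r _ => rfl).symm

open Classical in
theorem resn_cross (h : FreeProfN P c) (hV : IsOpen (V : Set P)) (i : Fin n)
    (x : cuspO V (cusp c (some i))) (z : cuspO V (cusp c none)) :
    (Pi.single ⟨some i, x⟩ 1 + Pi.single ⟨none, z⟩ 1 : Cusps c V → ZMod 2) ∈ resnR c V := by
  have hfin : Finite (P ⧸ V) := V.quotient_finite_of_isOpen hV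
  have hfo : ∀ a, Finite (cuspO V a) := fun a => Quotient.finite _
  let _ : ∀ i, Fintype (cuspO V (cusp c i)) := fun i => Fintype.ofFinite _
  obtain ⟨g₁, rfl⟩ := cuspMk_surj V _ x
  obtain ⟨δ, hδ, hδc⟩ := exists_derN h (N := 2) two_pos (resn_tors V) (resnρ V)
    (pd_smooth V hV _ (resn_zero_hom V)) (fun j => if j = i then resnM V g₁ else 0)
  set q : Cusps c V → ZMod 2 := fun ω => cval c V (resnD V δ) ω with hq
  have hqR : q ∈ resnR c V := resn_mem V hδ
  have hsum : ∑ ω, q ω = 0 := sum_cval V hV _ (resn_hom V hδ)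
  -- the values of `q` at the cusps over `c j`
  have hval : ∀ (j : Fin n) (w : cuspO V (cusp c (some j))), q ⟨some j, w⟩ =
      if (⟨some j, w⟩ : Cusps c V) = ⟨some i, cuspMk V (cusp c (some i)) g₁⟩ then 1 else 0 := by
    intro j w
    obtain ⟨g, rfl⟩ := cuspMk_surj V _ w
    change cval c V (resnD V δ) _ = _
    rw [cval_mk' V _ (resn_hom V hδ)]
    by_cases hj : j = i
    · subst hj
      have hb : δ (cusp c (some j)) = resnM V g₁ +
          (resnρ V (cusp c (some j)) 0 - 0) := by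
        have := hδc j
        rw [if_pos rfl] at this
        rw [map_zero, sub_zero, add_zero]
        exact this
      rw [resn_value_add V hδ _ g _ 0 hb, resn_count]
      simp
    · have hb : δ (cusp c (some j)) = 0 + (resnρ V (cusp c (some j)) 0 - 0) := by
        have := hδc j
        rw [if_neg hj] at this
        rw [map_zero, sub_zero, add_zero]
        exact this
      have h0 : ((⟨some j, cuspMk V (cusp c (some j)) g⟩ : Cusps c V) =
          ⟨some i, cuspMk V (cusp c (some i)) g₁⟩) = False := by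
        simp [hj]
      rw [resn_value_add V hδ _ g _ 0 hb]
      simp only [h0, if_false]
      exact sum_eq_zero fun r _ => rfl
  -- the sum over the cusps over the last one
  have hnone : ∑ w : cuspO V (cusp c none), q ⟨none, w⟩ = 1 := by
    have h1 : ∑ ω : Cusps c V,
        (if ω = ⟨some i, cuspMk V (cusp c (some i)) g₁⟩ then (1 : ZMod 2) else 0) = 1 := by
      rw [sum_ite_eq', if_pos (mem_univ _)]
    rw [Fintype.sum_sigma, Fintype.sum_option] at h1 hsum
    have h2 : ∑ w : cuspO V (cusp c none),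
        (if (⟨none, w⟩ : Cusps c V) = ⟨some i, cuspMk V (cusp c (some i)) g₁⟩
          then (1 : ZMod 2) else 0) = 0 := sum_eq_zero fun w _ => if_neg (by simp)
    rw [h2, zero_add] at h1
    have h3 : ∑ j : Fin n, ∑ w : cuspO V (cusp c (some j)), q ⟨some j, w⟩ = 1 := by
      rw [← h1]
      exact sum_congr rfl fun j _ => sum_congr rfl fun w _ => hval j w
    rw [h3] at hsum
    have h4 := eq_neg_of_add_eq_zero_left hsum
    rw [h4]
    decide
  have key : (Pi.single ⟨some i, cuspMk V (cusp c (some i)) g₁⟩ 1 + Pi.single ⟨none, z⟩ 1 :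
      Cusps c V → ZMod 2) =
      q + ∑ w : cuspO V (cusp c none), (q ⟨none, w⟩).val •
        (Pi.single ⟨none, w⟩ 1 + Pi.single ⟨none, z⟩ 1) := by
    funext ω
    rw [Pi.add_apply, Pi.add_apply, Finset.sum_apply]
    have h1 : ∀ w : cuspO V (cusp c none), ((q ⟨none, w⟩).val •
        (Pi.single ⟨none, w⟩ 1 + Pi.single ⟨none, z⟩ 1 : Cusps c V → ZMod 2)) ω =
        q ⟨none, w⟩ * (Pi.single ⟨none, w⟩ 1 : Cusps c V → ZMod 2) ω +
          q ⟨none, w⟩ * (Pi.single ⟨none, z⟩ 1 : Cusps c V → ZMod 2) ω := by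
      intro w
      rw [Pi.smul_apply, nsmul_eq_mul, ZMod.natCast_zmod_val, Pi.add_apply, mul_add]
    rw [sum_congr rfl fun w _ => h1 w, sum_add_distrib, ← sum_mul, hnone, one_mul, ← add_assoc]
    congr 1
    obtain ⟨j, w₀⟩ := ω
    cases j with
    | none =>
      have h2 : ∑ w : cuspO V (cusp c none), q ⟨none, w⟩ *
          (Pi.single ⟨none, w⟩ 1 : Cusps c V → ZMod 2) ⟨none, w₀⟩ = q ⟨none, w₀⟩ := by
        rw [sum_eq_single w₀]
        · rw [Pi.single_eq_same, mul_one]
        · intro w _ hw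
          rw [Pi.single_eq_of_ne, mul_zero]
          intro h3
          apply hw
          have := (Sigma.mk.inj_iff.1 h3).2
          exact (eq_of_heq this).symm
        · intro h3
          exact absurd (mem_univ _) h3
      rw [h2, CharTwo.add_self_eq_zero, Pi.single_eq_of_ne (by simp)]
    | some j =>
      have h2 : ∑ w : cuspO V (cusp c none), q ⟨none, w⟩ *
          (Pi.single ⟨none, w⟩ 1 : Cusps c V → ZMod 2) ⟨some j, w₀⟩ = 0 :=
        sum_eq_zero fun w _ => by rw [Pi.single_eq_of_ne (by simp), mul_zero]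
      rw [h2, add_zero, hval, Pi.single_apply]
  rw [key]
  exact (resnR c V).add_mem hqR (AddSubgroup.sum_mem _ fun w _ =>
    (resnR c V).nsmul_mem (resn_same V h hV none w z) _)

open Classical in
theorem resn_any (h : FreeProfN P c) (hV : IsOpen (V : Set P)) (ω₁ ω₂ : Cusps c V) :
    (Pi.single ω₁ 1 + Pi.single ω₂ 1 : Cusps c V → ZMod 2) ∈ resnR c V := by
  let z : cuspO V (cusp c none) := cuspMk V _ 1
  obtain ⟨i, x⟩ := ω₁
  obtain ⟨j, y⟩ := ω₂
  cases i with
  | none =>
    cases j with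
    | none => exact resn_same V h hV none x y
    | some j =>
      rw [add_comm]
      exact resn_cross V h hV j y x
  | some i =>
    cases j with
    | none => exact resn_cross V h hV i x y
    | some j =>
      have h1 := (resnR c V).add_mem (resn_cross V h hV i x z) (resn_cross V h hV j y z)
      convert h1 using 1
      have h2 : (Pi.single ⟨none, z⟩ 1 + Pi.single ⟨none, z⟩ 1 : Cusps c V → ZMod 2) = 0 := by
        funext ω
        exact CharTwo.add_self_eq_zero _
      rw [add_add_add_comm, h2, add_zero]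

theorem resn_single {ι : Type} (i₁ i₂ : DecidableEq ι) (x y : ι) :
    @Pi.single ι (fun _ => ZMod 2) _ i₁ x 1 y = @ite _ (y = x) (i₂ y x) 1 0 := by
  have h : i₁ = i₂ := Subsingleton.elim _ _
  subst h
  exact Pi.single_apply x 1 y

/-- RESN (uses EXT) -/
theorem exists_res (h : FreeProfN P c) (hV : IsOpen (V : Set P)) [DecidableEq (Cusps c V)]
    (ω₁ ω₂ : Cusps c V) (hω : ω₁ ≠ ω₂) :
    ∃ D : V → ZMod 2, IsHom D ∧
      ∀ ω, cval c V D ω = (if ω = ω₁ then 1 else 0) + (if ω = ω₂ then 1 else 0) := by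
  obtain ⟨D, hD, hr⟩ := resn_any V h hV ω₁ ω₂
  refine ⟨D, hD, fun ω => ?_⟩
  rw [hr ω, Pi.add_apply]
  exact congrArg₂ (· + ·) (resn_single _ _ ω₁ ω) (resn_single _ _ ω₂ ω)

end Resn

end Pool.Agent.GTT
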