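import Pool.Agent.Lib.MP_2cc432_al.Trn
import Pool.Agent.Lib.MP_2cc432_al.ResN
import Pool.Agent.Lib.MP_2cc432_al.Pair

/-!
# Upper bound for the number of norms (module CNT2)
-/

open Filter Topology Finset

namespace Pool.Agent.GTT

theorem cnt2_card {X Y : Type} [AddCommGroup X] [AddCommGroup Y] (A : AddSubgroup X)
    (f : X →+ Y) :
    (A : Set X).ncard = {x : X | x ∈ A ∧ f x = 0}.ncard * (f '' (A : Set X)).ncard := by
  set g : A →+ Y := f.comp A.subtype with hg
  have h1 := AddSubgroup.card_mul_index g.ker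
  rw [AddSubgroup.index_ker] at h1
  have h2 : Nat.card A = (A : Set X).ncard := Nat.card_coe_set_eq _
  have h3 : Nat.card g.range = (f '' (A : Set X)).ncard := by
    rw [← Nat.card_coe_set_eq]
    apply Nat.card_congr
    apply Equiv.setCongr
    ext y
    constructor
    · rintro ⟨x, rfl⟩
      exact ⟨x.1, x.2, rfl⟩
    · rintro ⟨x, hx, rfl⟩
      exact ⟨⟨x, hx⟩, rfl⟩
  have h4 : Nat.card g.ker = {x : X | x ∈ A ∧ f x = 0}.ncard := by
    have h5 : {x : X | x ∈ A ∧ f x = 0} = Subtype.val '' (g.ker : Set A) := by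
      ext x
      constructor
      · rintro ⟨hx, hfx⟩
        exact ⟨⟨x, hx⟩, hfx, rfl⟩
      · rintro ⟨x, hx, rfl⟩
        exact ⟨x.2, hx⟩
    rw [h5, Set.ncard_image_of_injective _ Subtype.val_injective]
    exact Nat.card_coe_set_eq _
  rw [← h2, ← h1, h3, h4]

theorem cnt2_W {C : Type} [Finite C] (σ : C → C) (hσ : ∀ ω, σ (σ ω) = ω) :
    {x : C → ZMod 4 | ∀ ω, x (σ ω) = -x ω ∧ (σ ω = ω → x ω = 0)}.ncard *
      2 ^ Nat.card {ω : C // σ ω = ω} ≤ 2 ^ Nat.card C := by
  classical
  let _ : Fintype C := Fintype.ofFinite C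
  let e : C ≃ Fin (Nat.card C) := Finite.equivFin C
  set W : Set (C → ZMod 4) := {x | ∀ ω, x (σ ω) = -x ω ∧ (σ ω = ω → x ω = 0)} with hW
  let A : Finset C := univ.filter fun ω => e ω < e (σ ω)
  let B : Finset C := univ.filter fun ω => e (σ ω) < e ω
  let K : Finset C := univ.filter fun ω => σ ω = ω
  have hAB : A.card = B.card := by
    refine Finset.card_bij (fun ω _ => σ ω) ?_ ?_ ?_
    · intro ω hω
      have h := (Finset.mem_filter.1 hω).2
      refine Finset.mem_filter.2 ⟨Finset.mem_univ _, ?_⟩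
      rw [hσ]
      exact h
    · intro ω _ ω' _ h
      rw [← hσ ω, h, hσ]
    · intro ω hω
      have h := (Finset.mem_filter.1 hω).2
      refine ⟨σ ω, Finset.mem_filter.2 ⟨Finset.mem_univ _, ?_⟩, hσ ω⟩
      rw [hσ]
      exact h
  have hsum : A.card + B.card + K.card = Nat.card C := by
    rw [Nat.card_eq_fintype_card, ← Finset.card_univ, Finset.card_filter, Finset.card_filter,
      Finset.card_filter, ← Finset.sum_add_distrib, ← Finset.sum_add_distrib, Finset.card_eq_sum_ones]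
    refine Finset.sum_congr rfl fun ω _ => ?_
    rcases lt_trichotomy (e ω) (e (σ ω)) with h | h | h
    · have h1 : ¬ e (σ ω) < e ω := not_lt.2 h.le
      have h2 : σ ω ≠ ω := fun h' => by rw [h'] at h; exact lt_irrefl _ h
      rw [if_pos h, if_neg h1, if_neg h2]
    · have h2 : σ ω = ω := (e.injective h).symm
      rw [if_neg (by rw [h2]; exact lt_irrefl _), if_neg (by rw [h2]; exact lt_irrefl _),
        if_pos h2]
    · have h1 : ¬ e ω < e (σ ω) := not_lt.2 h.le
      have h2 : σ ω ≠ ω := fun h' => by rw [h'] at h; exact lt_irrefl _ h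
      rw [if_neg h1, if_pos h, if_neg h2]
  have hK : Nat.card {ω : C // σ ω = ω} = K.card := by
    rw [Nat.card_eq_fintype_card, Fintype.card_subtype]
  have hWA : W.ncard ≤ 4 ^ A.card := by
    have h1 : Function.Injective fun x : W => fun a : A => (x : C → ZMod 4) a := by
      intro x y hxy
      apply Subtype.ext
      funext ω
      have hval : ∀ ω ∈ A, (x : C → ZMod 4) ω = (y : C → ZMod 4) ω := fun ω hω =>
        congr_fun hxy ⟨ω, hω⟩
      rcases lt_trichotomy (e ω) (e (σ ω)) with h | h | h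
      · exact hval ω (Finset.mem_filter.2 ⟨Finset.mem_univ _, h⟩)
      · have h2 : σ ω = ω := (e.injective h).symm
        rw [(x.2 ω).2 h2, (y.2 ω).2 h2]
      · have h3 := hval (σ ω) (Finset.mem_filter.2 ⟨Finset.mem_univ _, by rw [hσ]; exact h⟩)
        rw [(x.2 ω).1, (y.2 ω).1] at h3
        exact neg_injective h3
    have h2 := Nat.card_le_card_of_injective _ h1
    rw [Nat.card_coe_set_eq] at h2
    refine h2.trans (le_of_eq ?_)
    rw [Nat.card_eq_fintype_card, Fintype.card_fun, ZMod.card, Fintype.card_coe]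
  calc W.ncard * 2 ^ Nat.card {ω : C // σ ω = ω} ≤ 4 ^ A.card * 2 ^ K.card := by
        rw [hK]
        exact Nat.mul_le_mul_right _ hWA
    _ = 2 ^ Nat.card C := by
        rw [← hsum, ← hAB, show (4 : ℕ) = 2 ^ 2 by norm_num, ← pow_mul, ← pow_add]
        congr 1
        ring

theorem cnt2_Y {C : Type} [Finite C] [DecidableEq C] (R : AddSubgroup (C → ZMod 2)) (ω₀ : C)
    (hR : ∀ ω₁ ω₂ : C, ω₁ ≠ ω₂ →
      (fun ω => (if ω = ω₁ then (1 : ZMod 2) else 0) + (if ω = ω₂ then 1 else 0)) ∈ R) :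
    2 ^ Nat.card C ≤ 2 * (R : Set (C → ZMod 2)).ncard := by
  let _ : Fintype C := Fintype.ofFinite C
  have hmem : ∀ x : C → ZMod 2,
      (fun ω => x ω + (∑ ω', x ω') * (if ω = ω₀ then 1 else 0)) ∈ R := by
    intro x
    have h1 : (fun ω => x ω + (∑ ω', x ω') * (if ω = ω₀ then (1 : ZMod 2) else 0)) =
        ∑ ω₁, (x ω₁).val •
          (fun ω => (if ω = ω₁ then (1 : ZMod 2) else 0) + (if ω = ω₀ then 1 else 0)) := by
      funext ω
      rw [Finset.sum_apply]
      simp only [Pi.smul_apply, nsmul_eq_mul, ZMod.natCast_val, ZMod.cast_id', id_eq, mul_add,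
        Finset.sum_add_distrib, Finset.sum_mul]
      congr 1
      rw [Finset.sum_eq_single ω]
      · simp
      · intro b _ hb
        rw [if_neg (Ne.symm hb), mul_zero]
      · intro h
        exact absurd (Finset.mem_univ _) h
    rw [h1]
    refine R.sum_mem fun ω₁ _ => R.nsmul_mem ?_ _
    by_cases h : ω₁ = ω₀
    · have h2 : (fun ω => (if ω = ω₁ then (1 : ZMod 2) else 0) + (if ω = ω₀ then 1 else 0)) = 0 := by
        funext ω
        rw [h]
        split_ifs
        · exact (by decide : (1 : ZMod 2) + 1 = 0)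
        · simp
      rw [h2]
      exact R.zero_mem
    · exact hR ω₁ ω₀ h
  have hinj : Function.Injective fun x : C → ZMod 2 =>
      ((⟨_, hmem x⟩ : R), ∑ ω', x ω') := by
    intro x y hxy
    have h1 := congrArg Prod.fst hxy
    have h2 : ∑ ω', x ω' = ∑ ω', y ω' := congrArg Prod.snd hxy
    have h3 := congrArg Subtype.val h1
    funext ω
    have h4 := congr_fun h3 ω
    simp only at h4
    rw [h2] at h4
    exact add_right_cancel h4
  have h := Nat.card_le_card_of_injective _ hinj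
  rw [Nat.card_prod, Nat.card_eq_fintype_card, Fintype.card_fun, ZMod.card,
    Nat.card_eq_fintype_card (α := ZMod 2), ZMod.card] at h
  rw [Nat.card_eq_fintype_card, mul_comm]
  exact h

section Cusps

variable {P : Type} [Group P] [TopologicalSpace P] [IsTopologicalGroup P] [CompactSpace P]
  [T2Space P] [TotallyDisconnectedSpace P] {n : ℕ} {c : Fin n → P}

/-- the values at the cusps -/
noncomputable def cnt2_res (c : Fin n → P) (V : Subgroup P) [V.Normal] (N : ℕ) :
    (V → ZMod N) →+ (Cusps c V → ZMod N) where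
  toFun D := fun ω => cval c V D ω
  map_zero' := rfl
  map_add' _ _ := rfl

variable (V : Subgroup P) [hVn : V.Normal]

omit [T2Space P] [TotallyDisconnectedSpace P] hVn in
theorem cnt2_fin (hV : IsOpen (V : Set P)) : Finite (Cusps c V) := by
  have : Finite (P ⧸ V) := Subgroup.quotient_finite_of_isOpen V hV
  have : ∀ i, Finite (cuspO V (cusp c i)) := fun i => Quotient.finite _
  infer_instance

variable {F : P ≃ₜ* P} (S : RealStr c F) (hVF : ∀ g, F g ∈ V ↔ g ∈ V)

omit [IsTopologicalGroup P] [CompactSpace P] [T2Space P] [TotallyDisconnectedSpace P] hVn in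
theorem cnt2_hom {N : ℕ} {D : V → ZMod N} (hD : D ∈ normHoms (resF F V hVF) N) : IsHom D := by
  obtain ⟨E, hE, h⟩ := hD
  have h1 : D = fun g => E g + E (resF F V hVF g) := funext h
  rw [h1]
  refine ⟨fun g g' => ?_, ?_⟩
  · rw [map_mul, hE.mul, hE.mul]
    abel
  · exact hE.lc.add (hE.lc.comp_continuous (resF F V hVF).continuous)

/-- CNT2 (uses PAIR, RESN, TRN) -/
theorem cnt2 (h : FreeProfN P c) (hV : IsOpen (V : Set P)) :
    (normHoms (resF F V hVF) 4).ncard * 2 ^ Nat.card {ω : Cusps c V // S.map V hVF ω = ω} ≤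
      2 * (homs V 2).ncard := by
  classical
  have := cnt2_fin (c := c) V hV
  have hadd : ∀ {N : ℕ} {D D' : V → ZMod N}, IsHom D → IsHom D' → IsHom (D + D') := by
    intro N D D' hD hD'
    refine ⟨fun g g' => ?_, hD.lc.add hD'.lc⟩
    simp only [Pi.add_apply, hD.mul, hD'.mul]
    abel
  have hzero : ∀ {N : ℕ}, IsHom (0 : V → ZMod N) := fun {N} =>
    ⟨fun g g' => by simp, IsLocallyConstant.const 0⟩
  have hneg : ∀ {N : ℕ} {D : V → ZMod N}, IsHom D → IsHom (-D) := by
    intro N D hD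
    refine ⟨fun g g' => ?_, hD.lc.neg⟩
    simp only [Pi.neg_apply, hD.mul]
    abel
  let N4 : AddSubgroup (V → ZMod 4) :=
    { carrier := normHoms (resF F V hVF) 4
      add_mem' := by
        rintro D D' ⟨E, hE, hDE⟩ ⟨E', hE', hDE'⟩
        refine ⟨E + E', hadd hE hE', fun g => ?_⟩
        simp only [Pi.add_apply, hDE, hDE']
        abel
      zero_mem' := ⟨0, hzero, fun g => by simp⟩
      neg_mem' := by
        rintro D ⟨E, hE, hDE⟩
        refine ⟨-E, hneg hE, fun g => ?_⟩
        simp only [Pi.neg_apply, hDE]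
        abel }
  let R2 : AddSubgroup (V → ZMod 2) :=
    { carrier := homs V 2
      add_mem' := fun hD hD' => hadd hD hD'
      zero_mem' := hzero
      neg_mem' := fun hD => hneg hD }
  have e1 := cnt2_card N4 (cnt2_res c V 4)
  have e2 := cnt2_card R2 (cnt2_res c V 2)
  have hN4 : (N4 : Set (V → ZMod 4)) = normHoms (resF F V hVF) 4 := rfl
  have hR2 : (R2 : Set (V → ZMod 2)) = homs V 2 := rfl
  have k1 : {D : V → ZMod 4 | D ∈ N4 ∧ cnt2_res c V 4 D = 0} =
      {D : V → ZMod 4 | D ∈ normHoms (resF F V hVF) 4 ∧ UnramN c V D} := by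
    ext D
    constructor
    · rintro ⟨hD, h0⟩
      exact ⟨hD, (unramN_iff V D (cnt2_hom V hVF hD)).2 fun ω => congr_fun h0 ω⟩
    · rintro ⟨hD, h0⟩
      exact ⟨hD, funext fun ω => (unramN_iff V D (cnt2_hom V hVF hD)).1 h0 ω⟩
  have k2 : {D : V → ZMod 2 | D ∈ R2 ∧ cnt2_res c V 2 D = 0} =
      {D : V → ZMod 2 | IsHom D ∧ UnramN c V D} := by
    ext D
    constructor
    · rintro ⟨hD, h0⟩
      exact ⟨hD, (unramN_iff V D hD).2 fun ω => congr_fun h0 ω⟩
    · rintro ⟨hD, h0⟩
      exact ⟨hD, funext fun ω => (unramN_iff V D hD).1 h0 ω⟩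
  have w1 : (cnt2_res c V 4 '' (N4 : Set (V → ZMod 4))).ncard ≤
      {x : Cusps c V → ZMod 4 | ∀ ω, x (S.map V hVF ω) = -x ω ∧
        (S.map V hVF ω = ω → x ω = 0)}.ncard := by
    refine Set.ncard_le_ncard ?_ (Set.toFinite _)
    rintro _ ⟨D, ⟨E, hE, hDE⟩, rfl⟩
    have h1 : ∀ ω, cval c V D ω = cval c V E ω - cval c V E (S.map V hVF ω) := by
      intro ω
      have h2 : cval c V D ω = cval c V E ω + cval c V (fun v => E (resF F V hVF v)) ω :=
        hDE _
      rw [h2, cval_F V S hVF E hE ω, sub_eq_add_neg]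
    intro ω
    constructor
    · change cval c V D (S.map V hVF ω) = -cval c V D ω
      rw [h1, h1, map_map V S hVF]
      abel
    · intro hω
      change cval c V D ω = 0
      rw [h1, hω, sub_self]
  have w2 := cnt2_W (S.map V hVF) (map_map V S hVF)
  have y1 := cnt2_Y (R2.map (cnt2_res c V 2)) (⟨none, cuspMk V (cusp c none) 1⟩ : Cusps c V)
    (by
      intro ω₁ ω₂ hω
      obtain ⟨D, hD, hres⟩ := exists_res V h hV ω₁ ω₂ hω
      exact ⟨D, hD, funext fun ω => hres ω⟩)
  have y2 : ((R2.map (cnt2_res c V 2) : AddSubgroup (Cusps c V → ZMod 2)) : Set _) =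
      cnt2_res c V 2 '' (R2 : Set (V → ZMod 2)) := rfl
  have p1 := pair_card V S hVF h hV
  rw [k1] at e1
  rw [k2] at e2
  rw [y2] at y1
  rw [← hN4, ← hR2, e1, e2]
  calc _ ≤ {D : V → ZMod 2 | IsHom D ∧ UnramN c V D}.ncard *
        {x : Cusps c V → ZMod 4 | ∀ ω, x (S.map V hVF ω) = -x ω ∧
          (S.map V hVF ω = ω → x ω = 0)}.ncard *
        2 ^ Nat.card {ω : Cusps c V // S.map V hVF ω = ω} :=
        Nat.mul_le_mul_right _ (Nat.mul_le_mul p1 w1)
    _ ≤ {D : V → ZMod 2 | IsHom D ∧ UnramN c V D}.ncard * 2 ^ Nat.card (Cusps c V) := by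
        rw [mul_assoc]
        exact Nat.mul_le_mul_left _ w2
    _ ≤ {D : V → ZMod 2 | IsHom D ∧ UnramN c V D}.ncard *
        (2 * (cnt2_res c V 2 '' (R2 : Set (V → ZMod 2))).ncard) := Nat.mul_le_mul_left _ y1
    _ = _ := by ring

end Cusps

end Pool.Agent.GTT
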