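import Pool.Agent.Lib.MP_2cc432_al.HomN

/-!
# Module CNT3: counting classes of involutions
-/

open Filter Topology Finset

namespace Pool.Agent.GTT

section Two

variable {P : Type} [Group P] [TopologicalSpace P] [IsTopologicalGroup P] [CompactSpace P]
  [T2Space P] [TotallyDisconnectedSpace P] {F : P ≃ₜ* P}

omit [IsTopologicalGroup P] [CompactSpace P] [T2Space P] [TotallyDisconnectedSpace P] in
theorem cnt3_one {N : ℕ} {D : P → ZMod N} (hD : IsHom D) : D 1 = 0 := by
  have h := hD.mul 1 1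
  rw [mul_one] at h
  exact left_eq_add.1 h

omit [IsTopologicalGroup P] [CompactSpace P] [T2Space P] [TotallyDisconnectedSpace P] in
theorem cnt3_inv {N : ℕ} {D : P → ZMod N} (hD : IsHom D) (g : P) : D g⁻¹ = -D g := by
  have h := hD.mul g⁻¹ g
  rw [inv_mul_cancel, cnt3_one hD] at h
  exact eq_neg_of_add_eq_zero_left h.symm

omit [IsTopologicalGroup P] [CompactSpace P] [T2Space P] [TotallyDisconnectedSpace P] in
theorem cnt3_sub {N : ℕ} {D D' : P → ZMod N} (hD : IsHom D) (hD' : IsHom D') :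
    IsHom (D - D') :=
  ⟨fun g h => by simp only [Pi.sub_apply, hD.mul, hD'.mul]; ring, hD.lc.sub hD'.lc⟩

omit [IsTopologicalGroup P] [CompactSpace P] [T2Space P] [TotallyDisconnectedSpace P] in
theorem cnt3_anti_hom {D : P → ZMod 2} (hD : D ∈ antiHoms F) : IsHom D := by
  obtain ⟨E, hE, -, h⟩ := hD
  have h1 : D = fun g => red42 (E g) := funext h
  rw [h1]
  exact ⟨fun g h => by rw [hE.mul, map_add], hE.lc.comp _⟩

omit [IsTopologicalGroup P] [CompactSpace P] [T2Space P] [TotallyDisconnectedSpace P] in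
theorem cnt3_norm_hom {N : ℕ} {D : P → ZMod N} (hD : D ∈ normHoms F N) : IsHom D := by
  obtain ⟨E, hE, h⟩ := hD
  have h1 : D = E + E ∘ F := funext h
  rw [h1]
  refine ⟨fun g h => ?_, hE.lc.add (hE.lc.comp_continuous F.continuous)⟩
  simp only [Pi.add_apply, Function.comp_apply, map_mul, hE.mul]
  ring

theorem cnt3_red (x : ZMod 4) : red42 (-x) = red42 x := by
  rw [map_neg, ZMod.neg_eq_self_mod_two]

theorem cnt3_red0 : ∀ x : ZMod 4, x = -x → red42 x = 0 := by
  intro x hx
  have h : x = 0 ∨ x = 2 := by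
    revert x
    decide
  rcases h with rfl | rfl
  · exact map_zero _
  · have : red42 2 = ((2 : ℕ) : ZMod 2) := by
      rw [← map_natCast red42 2]
      rfl
    rw [this]
    rfl

omit [IsTopologicalGroup P] [CompactSpace P] [T2Space P] [TotallyDisconnectedSpace P] in
theorem cnt3_anti_F {D : P → ZMod 2} (hD : D ∈ antiHoms F) (g : P) : D (F g) = D g := by
  obtain ⟨E, hE, hEF, h⟩ := hD
  rw [h, h, hEF, cnt3_red]

theorem cnt3_anti_act {D : P → ZMod 2} (hD : D ∈ antiHoms F) (hF : ∀ g, F^[2] g = g) (g : P)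
    (v : (tSpace F 2 hF).Z) : D ((tSpace F 2 hF).act g v).1 = D v.1 := by
  change D (g * v.1 * (F g)⁻¹) = D v.1
  have hh := cnt3_anti_hom hD
  rw [hh.mul, hh.mul, cnt3_inv hh, cnt3_anti_F hD]
  ring

theorem cnt3_anti_fix {D : P → ZMod 2} (hD : D ∈ antiHoms F) (hF : ∀ g, F^[2] g = g) (u : P)
    (v : (tSpace F 2 hF).Z) (h : (tSpace F 2 hF).act u v = v) : D u = 0 := by
  obtain ⟨E, hE, hEF, hDE⟩ := hD
  have h1 : u * v.1 * (F u)⁻¹ = v.1 := congrArg Subtype.val h
  have h2 := congrArg E h1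
  rw [hE.mul, hE.mul, cnt3_inv hE, hEF, neg_neg] at h2
  rw [hDE]
  apply cnt3_red0
  have h3 : E u + E u = 0 := by linear_combination h2
  exact eq_neg_of_add_eq_zero_left h3

/-- the values of a function on the classes of involutions -/
noncomputable def cnt3_val (hF : ∀ g, F^[2] g = g) (D : P → ZMod 2) :
    Quotient (tRel hF) → ZMod 2 := fun q => D q.out.1

theorem cnt3_val_mk {D : P → ZMod 2} (hD : D ∈ antiHoms F) (hF : ∀ g, F^[2] g = g)
    (v : (tSpace F 2 hF).Z) : D v.1 = cnt3_val hF D (Quotient.mk (tRel hF) v) := by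
  obtain ⟨g, hg⟩ : ∃ g, (tSpace F 2 hF).act g (Quotient.mk (tRel hF) v).out = v :=
    Quotient.exact (Quotient.out_eq (Quotient.mk (tRel hF) v))
  have h := cnt3_anti_act hD hF g (Quotient.mk (tRel hF) v).out
  rw [hg] at h
  exact h

theorem cnt3_ker (hL : DerLift P 2) (tr : Tree P 2) (hF : ∀ g, F^[2] g = g)
    [Finite (Quotient (tRel hF))] {D D' : P → ZMod 2} (hD : D ∈ antiHoms F)
    (hD' : D' ∈ antiHoms F) (h : cnt3_val hF D = cnt3_val hF D') : D - D' ∈ normHoms F 2 := by
  refine hom_norm hL tr hF (D - D') (cnt3_sub (cnt3_anti_hom hD) (cnt3_anti_hom hD')) ?_ ?_ ?_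
  · intro g
    simp only [Pi.sub_apply, cnt3_anti_F hD, cnt3_anti_F hD']
  · intro v
    simp only [Pi.sub_apply]
    rw [cnt3_val_mk hD hF v, cnt3_val_mk hD' hF v, h, sub_self]
  · intro u v huv
    simp only [Pi.sub_apply]
    rw [cnt3_anti_fix hD hF u v huv, cnt3_anti_fix hD' hF u v huv, sub_zero]

theorem cnt3_card {Q : Type} [Fintype Q] [DecidableEq Q] (q₀ : Q) (S : Finset (Q → ZMod 2))
    (hS : ∀ f ∈ S, f q₀ = 0) : S.card * 2 ≤ 2 ^ Fintype.card Q := by
  have h1 : (S ×ˢ (Finset.univ : Finset (ZMod 2))).card ≤ (Finset.univ : Finset (Q → ZMod 2)).card :=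
    Finset.card_le_card_of_injOn (fun a q => a.1 q + a.2) (fun _ _ => Finset.mem_univ _) (by
      rintro ⟨f, a⟩ ha ⟨f', a'⟩ ha' h
      simp only [Finset.coe_product, Set.mem_prod, Finset.mem_coe] at ha ha'
      have h0 := congrFun h q₀
      simp only [hS f ha.1, hS f' ha'.1, zero_add] at h0
      subst h0
      have h2 : f = f' := by
        funext q
        have h3 := congrFun h q
        simpa using h3
      rw [h2])
  rw [Finset.card_product, Finset.card_univ, Finset.card_univ, Fintype.card_fun] at h1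
  simpa [ZMod.card] using h1

/-- CNT3 (uses HOMN) -/
theorem cnt3 (hL : DerLift P 2) (tr : Tree P 2) (hF : ∀ g, F^[2] g = g)
    (hfin : (homs P 2).Finite) [Finite (Quotient (tRel hF))] :
    (antiHoms F).ncard * 2 ≤ (normHoms F 2).ncard * 2 ^ Nat.card (Quotient (tRel hF)) := by
  classical
  haveI : Fintype (Quotient (tRel hF)) := Fintype.ofFinite _
  have hBfin : (antiHoms F).Finite := hfin.subset fun D hD => cnt3_anti_hom hD
  have hNfin : (normHoms F 2).Finite := hfin.subset fun D hD => cnt3_norm_hom hD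
  rw [Set.ncard_eq_toFinset_card _ hBfin, Set.ncard_eq_toFinset_card _ hNfin,
    Nat.card_eq_fintype_card]
  have h1 : hBfin.toFinset.card ≤
      hNfin.toFinset.card * (hBfin.toFinset.image (cnt3_val hF)).card := by
    refine Finset.card_le_mul_card_image _ _ fun f hf => ?_
    obtain ⟨D₀, hD₀, rfl⟩ := Finset.mem_image.1 hf
    refine Finset.card_le_card_of_injOn (fun D => D - D₀) ?_ ?_
    · intro D hD
      rw [Finset.mem_coe, Finset.mem_filter, Set.Finite.mem_toFinset] at hD
      rw [Finset.mem_coe, Set.Finite.mem_toFinset]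
      exact cnt3_ker hL tr hF hD.1 (hBfin.mem_toFinset.1 hD₀) hD.2
    · intro D _ D' _ h
      exact sub_left_injective h
  have h2 : (hBfin.toFinset.image (cnt3_val hF)).card * 2 ≤
      2 ^ Fintype.card (Quotient (tRel hF)) := by
    refine cnt3_card (Quotient.mk (tRel hF) (tOne hF)) _ fun f hf => ?_
    obtain ⟨D, hD, rfl⟩ := Finset.mem_image.1 hf
    rw [Set.Finite.mem_toFinset] at hD
    rw [← cnt3_val_mk hD hF (tOne hF)]
    exact cnt3_one (cnt3_anti_hom hD)
  calc hBfin.toFinset.card * 2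
      ≤ hNfin.toFinset.card * (hBfin.toFinset.image (cnt3_val hF)).card * 2 :=
        Nat.mul_le_mul_right _ h1
    _ = hNfin.toFinset.card * ((hBfin.toFinset.image (cnt3_val hF)).card * 2) := by ring
    _ ≤ hNfin.toFinset.card * 2 ^ Fintype.card (Quotient (tRel hF)) :=
        Nat.mul_le_mul_left _ h2

end Two

end Pool.Agent.GTT
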