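import Pool.Agent.Lib.MP_2cc432_al.Cnt1
import Pool.Agent.Lib.MP_2cc432_al.Cnt2
import Pool.Agent.Lib.MP_2cc432_al.Cnt3
import Pool.Agent.Lib.MP_2cc432_al.FreeN

/-!
# Real cusps and classes of involutions: the count
-/

open Filter Topology Finset

namespace Pool.Agent.GTT

theorem cnt_isHom_zero (Q : Type) [Group Q] [TopologicalSpace Q] (N : ℕ) :
    IsHom (fun _ : Q => (0 : ZMod N)) :=
  ⟨fun _ _ => (add_zero 0).symm, IsLocallyConstant.const 0⟩

theorem cnt_normHoms_sub {Q : Type} [Group Q] [TopologicalSpace Q] (F : Q ≃ₜ* Q) (N : ℕ) :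
    normHoms F N ⊆ homs Q N := by
  rintro D ⟨E, hE, hD⟩
  have e : D = fun g => E g + E (F g) := funext hD
  rw [e]
  refine ⟨fun g h => ?_, ?_⟩
  · simp only [map_mul, hE.mul]
    ring
  · exact hE.lc.add (hE.lc.comp_continuous F.continuous)

theorem cnt_normHoms_zero {Q : Type} [Group Q] [TopologicalSpace Q] (F : Q ≃ₜ* Q) (N : ℕ) :
    (fun _ : Q => (0 : ZMod N)) ∈ normHoms F N :=
  ⟨_, cnt_isHom_zero Q N, fun _ => (add_zero 0).symm⟩

section

variable {P : Type} [Group P] [TopologicalSpace P] [IsTopologicalGroup P] [CompactSpace P]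
  [T2Space P] [TotallyDisconnectedSpace P] {n : ℕ} {c : Fin n → P}

variable (V : Subgroup P) [hVn : V.Normal]

variable {F : P ≃ₜ* P} (S : RealStr c F) (hVF : ∀ g, F g ∈ V ↔ g ∈ V)

/-- CNT (CNT1 + CNT2 + CNT3): at least as many classes of involutions as real cusps -/
theorem cnt [CompactSpace V] (h : FreeProfN P c) (hV : IsOpen (V : Set P)) (tr : Tree V 2)
    [Finite (Quotient (tRel (resF_hF V hVF S.hF)))] :
    Nat.card {ω : Cusps c V // S.map V hVF ω = ω} ≤
      Nat.card (Quotient (tRel (resF_hF V hVF S.hF))) := by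
  have hF := resF_hF V hVF S.hF
  have e1 := cnt1 (F := resF F V hVF) hF (homsN_finite h V hV (N := 4) (by norm_num))
    (homsN_lift h V hV)
  have e2 := cnt2 V S hVF h hV
  have hfin2 := homsN_finite h V hV (N := 2) (by norm_num)
  have e3 := cnt3 (derLiftN h V hV (N := 2) (by norm_num)) tr (resF_hF V hVF S.hF) hfin2
  have h2 : 0 < (homs V 2).ncard :=
    (Set.ncard_pos hfin2).mpr ⟨_, cnt_isHom_zero V 2⟩
  have h3 : 0 < (normHoms (resF F V hVF) 2).ncard :=
    (Set.ncard_pos (hfin2.subset (cnt_normHoms_sub _ _))).mpr ⟨_, cnt_normHoms_zero _ 2⟩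
  set B := (antiHoms (resF F V hVF)).ncard
  set N4 := (normHoms (resF F V hVF) 4).ncard
  set N2 := (normHoms (resF F V hVF) 2).ncard
  set R2 := (homs V 2).ncard
  set κ := Nat.card {ω : Cusps c V // S.map V hVF ω = ω}
  set m := Nat.card (Quotient (tRel (resF_hF V hVF S.hF)))
  have h4 : 0 < B * N4 := by rw [e1]; positivity
  have h5 : (B * N4) * 2 ^ κ ≤ (B * N4) * 2 ^ m := by
    calc (B * N4) * 2 ^ κ = B * (N4 * 2 ^ κ) := by ring
      _ ≤ B * (2 * R2) := Nat.mul_le_mul_left _ e2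
      _ = R2 * (B * 2) := by ring
      _ ≤ R2 * (N2 * 2 ^ m) := Nat.mul_le_mul_left _ e3
      _ = (B * N4) * 2 ^ m := by rw [e1]; ring
  have h6 : 2 ^ κ ≤ 2 ^ m := Nat.le_of_mul_le_mul_left h5 h4
  exact (Nat.pow_le_pow_iff_right (by norm_num)).mp h6

end

end Pool.Agent.GTT
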