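import Pool.Agent.Lib.MP_2cc432_al.Defs3

/-!
Module CNT1 of TGT2 (MP_2cc432_al): counting homomorphisms to `ℤ / 4` and `ℤ / 2`.
-/

open Filter Topology Finset

namespace Pool.Agent.GTT

theorem cnt1_card {G H : Type} [AddCommGroup G] [AddCommGroup H] (A : AddSubgroup G)
    (f : G →+ H) :
    Nat.card A = Nat.card (A ⊓ f.ker : AddSubgroup G) * Nat.card (A.map f) := by
  have h1 := AddSubgroup.card_mul_index (f.comp A.subtype).ker
  rw [AddSubgroup.index_ker] at h1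
  have h2 : (f.comp A.subtype).range = A.map f := by
    rw [AddMonoidHom.range_comp, AddSubgroup.range_subtype]
  have h3 : Nat.card (f.comp A.subtype).ker = Nat.card (A ⊓ f.ker : AddSubgroup G) := by
    refine Nat.card_congr ⟨fun x => ⟨(x : A).1, (x : A).2, x.2⟩,
      fun x => ⟨⟨x.1, x.2.1⟩, x.2.2⟩, fun x => rfl, fun x => rfl⟩
  rw [← h1, h3, h2]

theorem cnt1_card_inj {G H : Type} [AddCommGroup G] [AddCommGroup H] (A : AddSubgroup G)
    (f : G →+ H) (hf : Function.Injective f) : Nat.card (A.map f) = Nat.card A := by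
  rw [cnt1_card A f, (AddMonoidHom.ker_eq_bot_iff f).2 hf, inf_bot_eq]
  rw [AddSubgroup.card_bot, one_mul]

/-- the map `x ↦ 2 x` -/
def cnt1_two : ZMod 2 →+ ZMod 4 :=
  AddMonoidHom.mk' (fun x => if x = 1 then 2 else 0) (by decide)

/-- division by 2 -/
def cnt1_half (x : ZMod 4) : ZMod 2 := if x = 2 then 1 else 0

theorem cnt1_two_inj : ∀ x y : ZMod 2, cnt1_two x = cnt1_two y → x = y := by decide

theorem cnt1_red_two : ∀ x : ZMod 2, red42 (cnt1_two x) = 0 := by decide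

theorem cnt1_two_half : ∀ x : ZMod 4, red42 x = 0 → cnt1_two (cnt1_half x) = x := by decide

theorem cnt1_half_add : ∀ x y : ZMod 4, red42 x = 0 → red42 y = 0 →
    cnt1_half (x + y) = cnt1_half x + cnt1_half y := by decide

section

variable {P : Type} [Group P] [TopologicalSpace P]

theorem cnt1_isHom_add {N : ℕ} {D E : P → ZMod N} (hD : IsHom D) (hE : IsHom E) :
    IsHom (D + E) where
  mul g h := by
    simp only [Pi.add_apply]
    rw [hD.mul, hE.mul]
    ring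
  lc := hD.lc.add hE.lc

theorem cnt1_isHom_zero {N : ℕ} : IsHom (0 : P → ZMod N) where
  mul g h := by simp
  lc := IsLocallyConstant.const 0

theorem cnt1_isHom_neg {N : ℕ} {D : P → ZMod N} (hD : IsHom D) : IsHom (-D) where
  mul g h := by
    simp only [Pi.neg_apply]
    rw [hD.mul]
    ring
  lc := hD.lc.neg

theorem cnt1_isHom_comp {N M : ℕ} {D : P → ZMod N} (hD : IsHom D) (f : ZMod N →+ ZMod M) :
    IsHom (fun g => f (D g)) where
  mul g h := by rw [hD.mul, map_add]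
  lc := hD.lc.comp f

/-- the group of homomorphisms -/
def cnt1_R (P : Type) [Group P] [TopologicalSpace P] (N : ℕ) : AddSubgroup (P → ZMod N) where
  carrier := homs P N
  add_mem' := cnt1_isHom_add
  zero_mem' := cnt1_isHom_zero
  neg_mem' := cnt1_isHom_neg

theorem cnt1_mem {N : ℕ} {D : P → ZMod N} : D ∈ cnt1_R P N ↔ IsHom D := Iff.rfl

/-- composition with a homomorphism of the coefficients -/
def cnt1_comp (P : Type) {N M : ℕ} (f : ZMod N →+ ZMod M) : (P → ZMod N) →+ (P → ZMod M) :=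
  AddMonoidHom.mk' (fun D g => f (D g)) fun D E => by
    ext g
    simp

omit [Group P] [TopologicalSpace P] in
theorem cnt1_comp_apply {N M : ℕ} (f : ZMod N →+ ZMod M) (D : P → ZMod N) (g : P) :
    cnt1_comp P f D g = f (D g) := rfl

/-- the norm `D ↦ D + D ∘ F` -/
def cnt1_n (F : P ≃ₜ* P) (N : ℕ) : (P → ZMod N) →+ (P → ZMod N) :=
  AddMonoidHom.mk' (fun D g => D g + D (F g)) fun D E => by
    ext g
    simp only [Pi.add_apply]
    ring

theorem cnt1_n_apply (F : P ≃ₜ* P) (N : ℕ) (D : P → ZMod N) (g : P) :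
    cnt1_n F N D g = D g + D (F g) := rfl

theorem cnt1_map_n (F : P ≃ₜ* P) (N : ℕ) :
    (((cnt1_R P N).map (cnt1_n F N) : AddSubgroup (P → ZMod N)) : Set (P → ZMod N)) =
      normHoms F N := by
  ext D
  constructor
  · rintro ⟨E, hE, rfl⟩
    exact ⟨E, hE, fun g => rfl⟩
  · rintro ⟨E, hE, h⟩
    exact ⟨E, hE, funext fun g => (h g).symm⟩

theorem cnt1_map_red (F : P ≃ₜ* P) :
    (((cnt1_R P 4 ⊓ (cnt1_n F 4).ker).map (cnt1_comp P (red42 : ZMod 4 →+ ZMod 2)) :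
      AddSubgroup (P → ZMod 2)) : Set (P → ZMod 2)) = antiHoms F := by
  ext D
  constructor
  · rintro ⟨E, hE, rfl⟩
    refine ⟨E, hE.1, fun g => ?_, fun g => rfl⟩
    have h := congrFun (AddMonoidHom.mem_ker.1 hE.2) g
    rw [cnt1_n_apply] at h
    exact (neg_eq_of_add_eq_zero_right h).symm
  · rintro ⟨E, hE, h1, h2⟩
    refine ⟨E, ⟨hE, AddMonoidHom.mem_ker.2 ?_⟩, funext fun g => (h2 g).symm⟩
    ext g
    rw [cnt1_n_apply, h1, add_neg_cancel]
    rfl

theorem cnt1_map_two :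
    (cnt1_R P 2).map (cnt1_comp P cnt1_two) =
      cnt1_R P 4 ⊓ (cnt1_comp P (red42 : ZMod 4 →+ ZMod 2)).ker := by
  ext E
  constructor
  · rintro ⟨D, hD, rfl⟩
    refine ⟨cnt1_isHom_comp hD cnt1_two, AddMonoidHom.mem_ker.2 ?_⟩
    ext g
    exact cnt1_red_two (D g)
  · rintro ⟨hE, h⟩
    have h1 : ∀ g, red42 (E g) = 0 := fun g => congrFun (AddMonoidHom.mem_ker.1 h) g
    have hE' : IsHom E := hE
    refine ⟨fun g => cnt1_half (E g), ⟨fun a b => ?_, hE'.lc.comp cnt1_half⟩, ?_⟩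
    · show cnt1_half (E (a * b)) = cnt1_half (E a) + cnt1_half (E b)
      rw [hE'.mul, cnt1_half_add _ _ (h1 a) (h1 b)]
    · ext g
      exact cnt1_two_half (E g) (h1 g)

omit [Group P] [TopologicalSpace P] in
theorem cnt1_two_injective : Function.Injective (cnt1_comp P cnt1_two) := by
  intro D E h
  ext g
  exact cnt1_two_inj _ _ (congrFun h g)

theorem cnt1_map_two' (F : P ≃ₜ* P) :
    (cnt1_R P 2 ⊓ (cnt1_n F 2).ker).map (cnt1_comp P cnt1_two) =
      (cnt1_R P 4 ⊓ (cnt1_n F 4).ker) ⊓ (cnt1_comp P (red42 : ZMod 4 →+ ZMod 2)).ker := by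
  have hcomm : ∀ D : P → ZMod 2, cnt1_n F 4 (cnt1_comp P cnt1_two D) =
      cnt1_comp P cnt1_two (cnt1_n F 2 D) := by
    intro D
    ext g
    rw [cnt1_n_apply, cnt1_comp_apply, cnt1_comp_apply, cnt1_comp_apply, cnt1_n_apply, map_add]
  ext E
  constructor
  · rintro ⟨D, ⟨hD, hDn⟩, rfl⟩
    have h1 : cnt1_comp P cnt1_two D ∈ (cnt1_R P 2).map (cnt1_comp P cnt1_two) := ⟨D, hD, rfl⟩
    rw [cnt1_map_two] at h1
    refine ⟨⟨h1.1, AddMonoidHom.mem_ker.2 ?_⟩, h1.2⟩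
    rw [hcomm, AddMonoidHom.mem_ker.1 hDn, map_zero]
  · rintro ⟨⟨hE, hEn⟩, hEr⟩
    have h1 : E ∈ cnt1_R P 4 ⊓ (cnt1_comp P (red42 : ZMod 4 →+ ZMod 2)).ker := ⟨hE, hEr⟩
    rw [← cnt1_map_two] at h1
    obtain ⟨D, hD, rfl⟩ := h1
    refine ⟨D, ⟨hD, AddMonoidHom.mem_ker.2 (cnt1_two_injective ?_)⟩, rfl⟩
    rw [← hcomm, AddMonoidHom.mem_ker.1 hEn, map_zero]

theorem cnt1_ncard {G : Type} [AddCommGroup G] (A : AddSubgroup G) (s : Set G)
    (h : (A : Set G) = s) : s.ncard = Nat.card A := by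
  rw [← h]
  exact (Nat.card_coe_set_eq (A : Set G)).symm

end

section Two

variable {P : Type} [Group P] [TopologicalSpace P] [IsTopologicalGroup P] [CompactSpace P]
  [T2Space P] [TotallyDisconnectedSpace P] {F : P ≃ₜ* P}

/-- CNT1 -/
theorem cnt1 (hF : ∀ g, F^[2] g = g) (hfin : (homs P 4).Finite)
    (hred : ∀ D : P → ZMod 2, IsHom D →
      ∃ E : P → ZMod 4, IsHom E ∧ ∀ g, D g = red42 (E g)) :
    (antiHoms F).ncard * (normHoms F 4).ncard = (homs P 2).ncard * (normHoms F 2).ncard := by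
  have hmr : (cnt1_R P 4).map (cnt1_comp P (red42 : ZMod 4 →+ ZMod 2)) = cnt1_R P 2 := by
    ext D
    constructor
    · rintro ⟨E, hE, rfl⟩
      exact cnt1_isHom_comp hE (red42 : ZMod 4 →+ ZMod 2)
    · intro hD
      obtain ⟨E, hE, h⟩ := hred D hD
      exact ⟨E, hE, funext fun g => (h g).symm⟩
  have e1 := cnt1_card (cnt1_R P 4) (cnt1_comp P (red42 : ZMod 4 →+ ZMod 2))
  rw [hmr, ← cnt1_map_two, cnt1_card_inj _ _ cnt1_two_injective] at e1
  have e2 := cnt1_card (cnt1_R P 4) (cnt1_n F 4)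
  have e3 := cnt1_card (cnt1_R P 2) (cnt1_n F 2)
  have e4 := cnt1_card (cnt1_R P 4 ⊓ (cnt1_n F 4).ker)
    (cnt1_comp P (red42 : ZMod 4 →+ ZMod 2))
  rw [← cnt1_map_two', cnt1_card_inj _ _ cnt1_two_injective] at e4
  rw [cnt1_ncard _ _ (cnt1_map_red F), cnt1_ncard _ _ (cnt1_map_n F 4),
    cnt1_ncard _ _ (cnt1_map_n F 2), cnt1_ncard (cnt1_R P 2) (homs P 2) rfl]
  have hfin4 : Finite (cnt1_R P 4) := hfin
  have hpos4 : 0 < Nat.card (cnt1_R P 4) := Nat.card_pos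
  set a := Nat.card (cnt1_R P 4)
  set b := Nat.card (cnt1_R P 2)
  set x := Nat.card ((cnt1_R P 4 ⊓ (cnt1_n F 4).ker : AddSubgroup (P → ZMod 4)))
  set y := Nat.card ((cnt1_R P 2 ⊓ (cnt1_n F 2).ker : AddSubgroup (P → ZMod 2)))
  set n4 := Nat.card ((cnt1_R P 4).map (cnt1_n F 4))
  set n2 := Nat.card ((cnt1_R P 2).map (cnt1_n F 2))
  set an := Nat.card ((cnt1_R P 4 ⊓ (cnt1_n F 4).ker).map
    (cnt1_comp P (red42 : ZMod 4 →+ ZMod 2)))
  have hy : 0 < y := by
    rcases Nat.eq_zero_or_pos y with h | h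
    · rw [h, zero_mul] at e4
      rw [e4, zero_mul] at e2
      omega
    · exact h
  refine Nat.eq_of_mul_eq_mul_left hy ?_
  calc y * (an * n4) = (y * an) * n4 := by ring
    _ = b * b := by rw [← e4, ← e2, e1]
    _ = b * (y * n2) := by rw [← e3]
    _ = y * (b * n2) := by ring

end Two

end Pool.Agent.GTT
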