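import Pool.Agent.Lib.MP_2cc432_al.CT

/-!
# TGT, module EXACT: `KM` passes to the kernel in exact sequences
-/

set_option linter.unusedSectionVars false

open Filter Topology Finset

namespace Pool.Agent.GTT

variable {P : Type} [Group P] [TopologicalSpace P] [IsTopologicalGroup P] [CompactSpace P]
  [T2Space P] [TotallyDisconnectedSpace P] {F : P ≃ₜ* P} {p : ℕ} [Fact p.Prime]

namespace Exact

omit [IsTopologicalGroup P] [CompactSpace P] [T2Space P] [TotallyDisconnectedSpace P]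
  [Fact p.Prime]

theorem der_tors (M : FMod P F p) (δ : M.Der) : p • δ = 0 := by
  apply Subtype.ext
  funext g
  rw [AddSubgroup.coe_nsmul, Pi.smul_apply, M.tors]
  rfl

theorem derΦ_pow_apply (M : FMod P F p) (n : ℕ) (δ : M.Der) (g : P) :
    ((M.derΦ ^ n) δ).1 g = (M.Φ ^ n) (δ.1 (F.symm^[n] g)) := by
  induction n generalizing g with
  | zero => rfl
  | succ n ih =>
    rw [pow_succ', AddMonoid.End.coe_mul, Function.comp_apply, M.derΦ_apply, ih, pow_succ',
      AddMonoid.End.coe_mul, Function.comp_apply, Function.iterate_succ_apply]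

theorem derΦ_pow (hF : ∀ g, F^[p] g = g) (M : FMod P F p) : M.derΦ ^ p = 1 := by
  have hs : ∀ g, F.symm^[p] g = g := by
    intro g
    have h2 : F.symm^[p] (F^[p] g) = g :=
      Function.LeftInverse.iterate (fun z => F.symm_apply_apply z) p g
    rwa [hF] at h2
  ext δ g
  rw [derΦ_pow_apply, M.pow, hs]
  rfl

/-- the map on derivations -/
def derMap {A B : FMod P F p} (i : A.T →+ B.T) (hi : ∀ g a, i (A.ρ g a) = B.ρ g (i a)) :
    A.Der →+ B.Der where
  toFun δ := ⟨fun g => i (δ.1 g), fun g h => by rw [δ.2.mul, map_add, hi], δ.2.lc.comp i⟩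
  map_zero' := by
    apply Subtype.ext
    funext g
    exact map_zero i
  map_add' a b := by
    apply Subtype.ext
    funext g
    exact map_add i _ _

theorem derMap_apply {A B : FMod P F p} (i : A.T →+ B.T)
    (hi : ∀ g a, i (A.ρ g a) = B.ρ g (i a)) (δ : A.Der) (g : P) :
    (derMap i hi δ).1 g = i (δ.1 g) := rfl

theorem derMap_derΦ {A B : FMod P F p} (i : A.T →+ B.T)
    (hi : ∀ g a, i (A.ρ g a) = B.ρ g (i a)) (hΦ : ∀ a, i (A.Φ a) = B.Φ (i a)) (δ : A.Der) :
    derMap i hi (A.derΦ δ) = B.derΦ (derMap i hi δ) := by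
  apply Subtype.ext
  funext g
  rw [derMap_apply, A.derΦ_apply, hΦ, B.derΦ_apply, derMap_apply]

end Exact

open Exact in
theorem km_exact (hF : ∀ g, F^[p] g = g) (hL : DerLift P p) (A B C : FMod P F p) (i : A.T →+ B.T) (q : B.T →+ C.T)
    (hi : Function.Injective i) (hq : Function.Surjective q)
    (hex : ∀ b, q b = 0 → ∃ a, i a = b) (hqi : ∀ a, q (i a) = 0)
    (hiρ : ∀ g a, i (A.ρ g a) = B.ρ g (i a)) (hqρ : ∀ g b, q (B.ρ g b) = C.ρ g (q b))
    (hiΦ : ∀ a, i (A.Φ a) = B.Φ (i a)) (hqΦ : ∀ b, q (B.Φ b) = C.Φ (q b))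
    (hB : B.KM) (hC : C.KM) : A.KM := by
  refine ct_sub (der_tors A) (der_tors B) (der_tors C) A.derΦ B.derΦ C.derΦ (derΦ_pow hF A)
    (derΦ_pow hF B) (derΦ_pow hF C) (derMap i hiρ) (derMap q hqρ) ?_ ?_ ?_ ?_
    (derMap_derΦ i hiρ hiΦ) (derMap_derΦ q hqρ hqΦ) hB hC
  · intro a b hab
    apply Subtype.ext
    funext g
    apply hi
    rw [← derMap_apply i hiρ, hab, derMap_apply]
  · intro δ'
    obtain ⟨δ, hδ, hδ'⟩ := hL B.T C.T B.ρ C.ρ q B.tors B.smooth C.smooth hq hqρ δ'.1 δ'.2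
    exact ⟨⟨δ, hδ⟩, Subtype.ext (funext hδ')⟩
  · intro b hb
    have h0 : ∀ g, q (b.1 g) = 0 := by
      intro g
      rw [← derMap_apply q hqρ, hb]
      rfl
    choose a ha using fun g => hex (b.1 g) (h0 g)
    refine ⟨⟨a, fun g h => hi ?_, IsLocallyConstant.desc a i ?_ hi⟩, Subtype.ext (funext ha)⟩
    · rw [map_add, ha, hiρ, ha, ha, b.2.mul]
    · have : i ∘ a = b.1 := funext ha
      rw [this]
      exact b.2.lc
  · intro a
    apply Subtype.ext
    funext g
    exact hqi _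

end Pool.Agent.GTT
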