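import Pool.Agent.Lib.MP_2cc432_al.FilDefs

/-!
# Torsion in the profinite Grothendieck–Teichmüller group: stability of the filtration
-/

open Filter Topology Finset

namespace Pool.Agent.GTT

variable {P : Type} [Group P] [TopologicalSpace P] [IsTopologicalGroup P]
  {F : P ≃ₜ* P} {p : ℕ} [Fact p.Prime]

namespace Fil1

/-- alternating sums over a set which contains an unused coordinate vanish -/
theorem alt_zero {ι : Type} [Fintype ι] [DecidableEq ι] {Y T : Type} [AddCommGroup T]
    (f : (ι → Y) → T) (S K : Finset ι)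
    (hf : ∀ y y', (∀ i ∈ K, y i = y' i) → f y = f y') (hS : ¬ S ⊆ K) (y y' : ι → Y) :
    alt S f y y' = 0 := by
  obtain ⟨i, hiS, hiK⟩ := not_subset.1 hS
  have hval : ∀ R : Finset ι, f ((insert i R).piecewise y' y) = f (R.piecewise y' y) := by
    intro R
    apply hf
    intro k hk
    have hki : k ≠ i := fun h => hiK (h ▸ hk)
    by_cases hkR : k ∈ R
    · rw [piecewise_eq_of_mem _ _ _ (mem_insert_of_mem hkR), piecewise_eq_of_mem _ _ _ hkR]
    · rw [piecewise_eq_of_notMem _ _ _ (by simp [hki, hkR]), piecewise_eq_of_notMem _ _ _ hkR]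
  unfold alt
  have hins : S = insert i (S.erase i) := (insert_erase hiS).symm
  rw [hins, sum_powerset_insert (notMem_erase i S), ← sum_add_distrib]
  apply sum_eq_zero
  intro R hR
  have hiR : i ∉ R := fun h => notMem_erase i S (mem_powerset.1 hR h)
  rw [hval, card_insert_of_notMem hiR, pow_succ]
  simp

omit [IsTopologicalGroup P] in
theorem cube_act_apply (tr : Tree P p) (hF : ∀ g, F^[p] g = g) (g : P) (y : ZMod p → tr.Y)
    (i : ZMod p) : (cube tr hF).act g y i = tr.act (F^[i.val] g) (y i) := rfl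

/-- the translation of functions on the cube -/
def cR (tr : Tree P p) (hF : ∀ g, F^[p] g = g) (M : FMod P F p) (g : P) :
    AddMonoid.End (CubeFun tr M.T) := (cube tr hF).fρ M g

/-- the action of `F` on the functions on the cube -/
def cΦ (tr : Tree P p) (hF : ∀ g, F^[p] g = g) (M : FMod P F p) :
    AddMonoid.End (CubeFun tr M.T) := (cube tr hF).fΦ M

/-- the translation of functions on the cells -/
def zR (tr : Tree P p) (hF : ∀ g, F^[p] g = g) (M : FMod P F p) (j : ℕ) (g : P) :
    AddMonoid.End (LocallyConstant (cells tr hF j).Z M.T) := (cells tr hF j).fρ M g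

/-- the action of `F` on the functions on the cells -/
def zΦ (tr : Tree P p) (hF : ∀ g, F^[p] g = g) (M : FMod P F p) (j : ℕ) :
    AddMonoid.End (LocallyConstant (cells tr hF j).Z M.T) := (cells tr hF j).fΦ M

omit [IsTopologicalGroup P] in
theorem rho_apply (tr : Tree P p) (hF : ∀ g, F^[p] g = g) (M : FMod P F p) (g : P)
    (f : CubeFun tr M.T) (y : ZMod p → tr.Y) :
    cR tr hF M g f y = M.ρ g (f ((cube tr hF).act g⁻¹ y)) := rfl

omit [IsTopologicalGroup P] in
theorem phi_apply (tr : Tree P p) (hF : ∀ g, F^[p] g = g) (M : FMod P F p)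
    (f : CubeFun tr M.T) (y : ZMod p → tr.Y) :
    cΦ tr hF M f y = M.Φ (f ((shift p tr.Y).symm y)) := rfl

omit [IsTopologicalGroup P] in
/-- translates of functions which depend on few coordinates -/
theorem rho_dep (tr : Tree P p) (hF : ∀ g, F^[p] g = g) (M : FMod P F p) (g : P)
    (S : Finset (ZMod p)) (f : CubeFun tr M.T)
    (hf : ∀ y y', (∀ i ∈ S, y i = y' i) → f y = f y') (y y' : ZMod p → tr.Y)
    (h : ∀ i ∈ S, y i = y' i) : cR tr hF M g f y = cR tr hF M g f y' := by
  rw [rho_apply, rho_apply]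
  congr 1
  apply hf
  intro i hi
  rw [cube_act_apply, cube_act_apply, h i hi]

/-- the shift of sets of coordinates -/
def up (p : ℕ) : Finset (ZMod p) ≃ Finset (ZMod p) := (Equiv.addRight (1 : ZMod p)).finsetCongr

omit [Fact p.Prime] in
theorem card_up (S : Finset (ZMod p)) : (up p S).card = S.card := by
  simp [up]

theorem mem_up (S : Finset (ZMod p)) (i : ZMod p) : i ∈ up p S ↔ i - 1 ∈ S := by
  simp [up, Equiv.finsetCongr_apply, mem_map_equiv, sub_eq_add_neg]

theorem shift_symm_apply {X : Type} [TopologicalSpace X] (y : ZMod p → X) (i : ZMod p) :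
    (shift p X).symm y i = y (i - 1) := rfl

end Fil1

open Fil1

theorem fil_rho (tr : Tree P p) (hF : ∀ g, F^[p] g = g) (M : FMod P F p) (j : ℕ) (g : P) :
    ∀ f ∈ fil tr M.T j, ((cube tr hF).funMod M).ρ g f ∈ fil tr M.T j := by
  rintro f ⟨h, h1, rfl⟩
  refine ⟨fun S => cR tr hF M g (h S), fun S y y' e => ?_, ?_⟩
  · exact rho_dep tr hF M g S (h S) (h1 S) y y' e
  · exact map_sum (cR tr hF M g) _ _

theorem fil_phi (tr : Tree P p) (hF : ∀ g, F^[p] g = g) (M : FMod P F p) (j : ℕ) :
    ∀ f ∈ fil tr M.T j, ((cube tr hF).funMod M).Φ f ∈ fil tr M.T j := by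
  rintro f ⟨h, h1, rfl⟩
  refine ⟨fun S => cΦ tr hF M (h (up p S)), fun S y y' e => ?_, ?_⟩
  · rw [phi_apply, phi_apply]
    congr 1
    apply h1
    intro i hi
    rw [shift_symm_apply, shift_symm_apply]
    exact e _ ((mem_up S i).1 hi)
  · refine (map_sum (cΦ tr hF M) _ _).trans ?_
    symm
    refine sum_equiv (up p) (fun S => ?_) (fun S _ => rfl)
    simp [card_up]

theorem bdryHom_rho (tr : Tree P p) (hF : ∀ g, F^[p] g = g) (M : FMod P F p) (j : ℕ) (g : P) :
    ∀ f ∈ fil tr M.T j, bdryHom tr hF M.T j (((cube tr hF).funMod M).ρ g f) =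
      ((cells tr hF j).funMod M).ρ g (bdryHom tr hF M.T j f) := by
  rintro f ⟨h, h1, rfl⟩
  have key : ∀ S ∈ univ.filter (fun S : Finset (ZMod p) => S.card ≤ j),
      bdryHom tr hF M.T j (cR tr hF M g (h S)) =
      zR tr hF M j g (bdryHom tr hF M.T j (h S)) := by
    intro S hS
    have hcard : S.card ≤ j := (mem_filter.1 hS).2
    ext ζ
    have hR : zR tr hF M j g (bdryHom tr hF M.T j (h S)) ζ =
        M.ρ g (bdry tr (h S) (fun i => Coord.act (F^[i.val] g⁻¹) (ζ.1 i))) := rfl
    rw [hR, bdryHom_apply]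
    unfold bdry
    rw [supp_act]
    by_cases hK : supp ζ.1 ⊆ S
    · have hKS : supp ζ.1 = S := eq_of_subset_of_card_le hK (by rw [ζ.2]; exact hcard)
      unfold alt
      rw [map_sum]
      apply sum_congr rfl
      intro R _
      rw [map_zsmul, rho_apply]
      congr 2
      apply h1 S
      intro i hi
      rw [← hKS] at hi
      have hl : (ζ.1 i).isLeft := (mem_supp _ _).1 hi
      rw [cube_act_apply]
      by_cases hiR : i ∈ R
      · rw [piecewise_eq_of_mem _ _ _ hiR, piecewise_eq_of_mem _ _ _ hiR, Coord.lb_act,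
          Coord.pt_act _ hl, tr.r_act]
      · rw [piecewise_eq_of_notMem _ _ _ hiR, piecewise_eq_of_notMem _ _ _ hiR,
          Coord.pt_act _ hl]
    · have e1 := alt_zero (fun y => cR tr hF M g (h S) y)
        (supp ζ.1) S (rho_dep tr hF M g S (h S) (h1 S)) hK
        (fun i => Coord.pt (ζ.1 i)) (fun i => tr.r (Coord.lb (ζ.1 i)) (Coord.pt (ζ.1 i)))
      refine e1.trans ?_
      rw [alt_zero (fun y => h S y) (supp ζ.1) S (h1 S) hK, map_zero]
  change bdryHom tr hF M.T j (cR tr hF M g _) = zR tr hF M j g (bdryHom tr hF M.T j _)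
  rw [map_sum, map_sum, map_sum, map_sum]
  exact sum_congr rfl key

theorem bdryHom_phi (tr : Tree P p) (hF : ∀ g, F^[p] g = g) (M : FMod P F p) (j : ℕ) :
    ∀ f ∈ fil tr M.T j, bdryHom tr hF M.T j (((cube tr hF).funMod M).Φ f) =
      ((cells tr hF j).funMod M).Φ (bdryHom tr hF M.T j f) := by
  intro f _
  change bdryHom tr hF M.T j (cΦ tr hF M f) = zΦ tr hF M j (bdryHom tr hF M.T j f)
  ext ζ
  have hR : zΦ tr hF M j (bdryHom tr hF M.T j f) ζ =
      M.Φ (bdry tr f ((shift p _).symm ζ.1)) := rfl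
  rw [hR, bdryHom_apply]
  unfold bdry
  have hs : supp ((shift p (Coord tr)).symm ζ.1) = up p (supp ζ.1) := by
    ext i
    rw [mem_up, mem_supp, mem_supp, shift_symm_apply]
  rw [hs]
  unfold alt
  rw [map_sum]
  refine sum_equiv (up p) (fun R => ?_) (fun R _ => ?_)
  · rw [mem_powerset, mem_powerset]
    constructor
    · intro h i hi
      rw [mem_up] at hi ⊢
      exact h hi
    · intro h i hi
      have h2 := h ((mem_up R (i + 1)).2 (by simpa using hi))
      rw [mem_up] at h2
      simpa using h2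
  · rw [map_zsmul, phi_apply, card_up]
    congr 2
    congr 1
    ext i
    rw [shift_symm_apply]
    by_cases hi : i - 1 ∈ R
    · rw [piecewise_eq_of_mem _ _ _ hi, piecewise_eq_of_mem _ _ _ ((mem_up R i).2 hi)]
      rfl
    · rw [piecewise_eq_of_notMem _ _ _ hi,
        piecewise_eq_of_notMem _ _ _ (fun h => hi ((mem_up R i).1 h))]
      rfl

end Pool.Agent.GTT
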