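import Pool.Agent.Lib.MP_2cc432_al.Delta

/-!
# The filtration of the functions on the cube: exactness (module FIL2)
-/

open Filter Topology Finset

namespace Pool.Agent.GTT

variable {P : Type} [Group P] [TopologicalSpace P] [IsTopologicalGroup P]
  {F : P ≃ₜ* P} {p : ℕ} [Fact p.Prime]

theorem fil2_sum_apply {Y T κ : Type} [TopologicalSpace Y] [AddCommGroup T] (K : Finset κ)
    (h : κ → LocallyConstant Y T) (y : Y) : (∑ k ∈ K, h k) y = ∑ k ∈ K, h k y := by
  have h1 := map_sum (LocallyConstant.coeFnAddMonoidHom (X := Y) (Y := T)) h K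
  have h2 := congrFun h1 y
  rw [Finset.sum_apply] at h2
  exact h2

theorem fil2_alt_sum {ι : Type} [Fintype ι] [DecidableEq ι] {Y T κ : Type} [TopologicalSpace Y]
    [AddCommGroup T] (S : Finset ι) (K : Finset κ) (h : κ → LocallyConstant (ι → Y) T)
    (y y' : ι → Y) : alt S (∑ k ∈ K, h k : LocallyConstant (ι → Y) T) y y' =
      ∑ k ∈ K, alt S (h k) y y' := by
  unfold alt
  rw [sum_comm]
  refine sum_congr rfl fun R _ => ?_
  rw [fil2_sum_apply, smul_sum]

/-- `alt S f` depends only on the coordinates in `S` if `f` does -/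
theorem fil2_alt_congr {ι : Type} [Fintype ι] [DecidableEq ι] {Y T : Type} [AddCommGroup T]
    (S : Finset ι) (f : (ι → Y) → T) (hf : ∀ y y', (∀ i ∈ S, y i = y' i) → f y = f y')
    {y y' z z' : ι → Y} (h : ∀ i ∈ S, y i = z i) (h' : ∀ i ∈ S, y' i = z' i) :
    alt S f y y' = alt S f z z' := by
  unfold alt
  refine sum_congr rfl fun R _ => ?_
  congr 1
  refine hf _ _ fun i hi => ?_
  by_cases hR : i ∈ R
  · rw [piecewise_eq_of_mem _ _ _ hR, piecewise_eq_of_mem _ _ _ hR, h' i hi]
  · rw [piecewise_eq_of_notMem _ _ _ hR, piecewise_eq_of_notMem _ _ _ hR, h i hi]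

/-- a function which depends only on `j` coordinates -/
theorem fil2_mem (tr : Tree P p) {T : Type} [AddCommGroup T] {j : ℕ} (S : Finset (ZMod p))
    (hS : S.card ≤ j) (f : CubeFun tr T) (hf : ∀ y y', (∀ i ∈ S, y i = y' i) → f y = f y') :
    f ∈ fil tr T j := by
  classical
  refine ⟨fun S' => if S' = S then f else 0, ?_, ?_⟩
  · intro S' y y' h
    by_cases hS' : S' = S
    · subst hS'
      simp only [if_true]
      exact hf y y' h
    · simp only [if_neg hS']
      rfl
  · rw [sum_ite_eq' (univ.filter fun S : Finset (ZMod p) => S.card ≤ j) S fun _ => f, if_pos]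
    exact mem_filter.2 ⟨mem_univ _, hS⟩

theorem fil_mono (tr : Tree P p) (T : Type) [AddCommGroup T] {i j : ℕ} (h : i ≤ j) :
    fil tr T i ≤ fil tr T j := by
  rintro f ⟨g, hg, rfl⟩
  refine AddSubgroup.sum_mem _ fun S hS => ?_
  exact fil2_mem tr S ((mem_filter.1 hS).2.trans h) (g S) (hg S)

theorem fil_zero (tr : Tree P p) (T : Type) [AddCommGroup T] (f : CubeFun tr T) :
    f ∈ fil tr T 0 ↔ ∃ t, f = LocallyConstant.const _ t := by
  constructor
  · rintro ⟨h, h1, h2⟩
    have h3 : (univ.filter fun S : Finset (ZMod p) => S.card ≤ 0) = {∅} := by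
      ext S
      rw [mem_filter, mem_singleton, Nat.le_zero, card_eq_zero]
      exact ⟨fun h => h.2, fun h => ⟨mem_univ _, h⟩⟩
    rw [h3, sum_singleton] at h2
    refine ⟨f fun _ => tr.y₀, ?_⟩
    ext y
    rw [h2]
    exact h1 ∅ _ _ fun i hi => absurd hi (notMem_empty i)
  · rintro ⟨t, rfl⟩
    exact fil2_mem tr ∅ (by simp) _ fun _ _ _ => rfl

theorem fil_top (tr : Tree P p) (T : Type) [AddCommGroup T] : fil tr T p = ⊤ := by
  rw [eq_top_iff]
  intro f _
  refine fil2_mem tr univ ?_ f fun y y' h => ?_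
  · rw [card_univ, ZMod.card]
  · rw [show y = y' from funext fun i => h i (mem_univ i)]

theorem bdryHom_zero (tr : Tree P p) (hF : ∀ g, F^[p] g = g) (T : Type) [AddCommGroup T] (j : ℕ) :
    ∀ f ∈ fil tr T j, bdryHom tr hF T (j + 1) f = 0 := by
  rintro f ⟨h, h1, rfl⟩
  ext ζ
  rw [bdryHom_apply]
  unfold bdry
  rw [fil2_alt_sum]
  refine sum_eq_zero fun S hS => ?_
  refine alt_eq_zero _ _ S (h1 S) (fun hsub => ?_) _ _
  have h2 := card_le_card hsub
  have h3 := (mem_filter.1 hS).2
  have h4 : (supp ζ.1).card = j + 1 := ζ.2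
  omega

/-- the cell with the used coordinates `S` -/
def fil2_cell (tr : Tree P p) (S : Finset (ZMod p)) (y : ZMod p → tr.Y) (e : ZMod p → Fin 2) :
    ZMod p → Coord tr := fun i => if i ∈ S then Sum.inl (y i, e i) else Sum.inr ()

theorem fil2_supp_cell (tr : Tree P p) (S : Finset (ZMod p)) (y : ZMod p → tr.Y)
    (e : ZMod p → Fin 2) : supp (fil2_cell tr S y e) = S := by
  ext i
  rw [mem_supp]
  unfold fil2_cell
  by_cases hi : i ∈ S
  · simp [hi]
  · simp [hi]

theorem fil2_pt_cell (tr : Tree P p) (S : Finset (ZMod p)) (y : ZMod p → tr.Y)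
    (e : ZMod p → Fin 2) {i : ZMod p} (hi : i ∈ S) : Coord.pt (fil2_cell tr S y e i) = y i := by
  unfold fil2_cell
  rw [if_pos hi]
  rfl

theorem fil2_lb_cell (tr : Tree P p) (S : Finset (ZMod p)) (y : ZMod p → tr.Y)
    (e : ZMod p → Fin 2) {i : ZMod p} (hi : i ∈ S) : Coord.lb (fil2_cell tr S y e i) = e i := by
  unfold fil2_cell
  rw [if_pos hi]
  rfl

theorem fil2_cell_self (tr : Tree P p) (ζ : ZMod p → Coord tr) :
    fil2_cell tr (supp ζ) (fun i => Coord.pt (ζ i)) (fun i => Coord.lb (ζ i)) = ζ := by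
  funext i
  unfold fil2_cell
  by_cases hi : i ∈ supp ζ
  · rw [if_pos hi]
    have h1 := (mem_supp ζ i).1 hi
    change Sum.inl (Coord.pt (ζ i), Coord.lb (ζ i)) = ζ i
    rcases hζ : ζ i with ⟨y, e⟩ | u
    · rfl
    · rw [hζ] at h1
      exact absurd h1 (by simp)
  · rw [if_neg hi]
    have h1 : ¬ (ζ i).isLeft := fun h => hi ((mem_supp ζ i).2 h)
    rcases hζ : ζ i with ⟨y, e⟩ | u
    · rw [hζ] at h1
      exact absurd rfl h1
    · rfl

theorem fil2_cont_cell (tr : Tree P p) (S : Finset (ZMod p)) (e : ZMod p → Fin 2) :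
    Continuous fun y : ZMod p → tr.Y => fil2_cell tr S y e := by
  refine continuous_pi fun i => ?_
  unfold fil2_cell
  by_cases hi : i ∈ S
  · simp only [hi, if_true]
    exact continuous_inl.comp ((continuous_apply i).prodMk continuous_const)
  · simp only [hi, if_false]
    exact continuous_const

/-- the boundary of a sum of functions depending on few coordinates -/
theorem fil2_bdry (tr : Tree P p) {T : Type} [AddCommGroup T] {j : ℕ}
    (h : Finset (ZMod p) → CubeFun tr T) (K : Finset (Finset (ZMod p)))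
    (hK : ∀ S ∈ K, S.card ≤ j)
    (h1 : ∀ S y y', (∀ i ∈ S, y i = y' i) → h S y = h S y') (ζ : ZMod p → Coord tr)
    (hζ : (supp ζ).card = j) (hm : supp ζ ∈ K) :
    bdry tr (∑ S ∈ K, h S) ζ = alt (supp ζ) (h (supp ζ)) (fun i => Coord.pt (ζ i))
      (fun i => tr.r (Coord.lb (ζ i)) (Coord.pt (ζ i))) := by
  unfold bdry
  rw [fil2_alt_sum]
  refine sum_eq_single (supp ζ) (fun S hS hne => ?_) fun hn => absurd hm hn
  refine alt_eq_zero _ _ S (h1 S) (fun hsub => hne ?_) _ _
  exact (eq_of_subset_of_card_le hsub (by rw [hζ]; exact hK S hS)).symm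

theorem bdryHom_ker (tr : Tree P p) (hF : ∀ g, F^[p] g = g) (T : Type) [AddCommGroup T] (j : ℕ) :
    ∀ f ∈ fil tr T (j + 1), bdryHom tr hF T (j + 1) f = 0 → f ∈ fil tr T j := by
  classical
  rintro f ⟨h, h1, rfl⟩ h0
  refine AddSubgroup.sum_mem _ fun S hS => ?_
  have hcard := (mem_filter.1 hS).2
  rcases Nat.lt_or_ge j S.card with hlt | hge
  · have hS1 : S.card = j + 1 := by omega
    -- the alternating sums vanish on edges
    have hv : ∀ (e : ZMod p → Fin 2) y, alt S (h S) y (fun i => tr.r (e i) (y i)) = 0 := by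
      intro e y
      set ζ := fil2_cell tr S y e with hζdef
      have hsupp : supp ζ = S := fil2_supp_cell tr S y e
      have hb : bdry tr (∑ S ∈ univ.filter (fun S : Finset (ZMod p) => S.card ≤ j + 1), h S) ζ =
          0 := by
        have h2 := DFunLike.congr_fun h0 (⟨ζ, by rw [hsupp]; exact hS1⟩ : (cells tr hF (j + 1)).Z)
        exact h2
      rw [fil2_bdry tr h _ (fun S hS => (mem_filter.1 hS).2) h1 ζ (by rw [hsupp]; exact hS1)
        (by rw [hsupp]; exact hS), hsupp] at hb
      rw [← hb]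
      refine fil2_alt_congr S _ (h1 S) (fun i hi => ?_) fun i hi => ?_
      · rw [hζdef, fil2_pt_cell tr S y e hi]
      · rw [hζdef, fil2_pt_cell tr S y e hi, fil2_lb_cell tr S y e hi]
    have hv' := alt_vanish tr (h S) (h S).isLocallyConstant S hv
    -- the functions with some coordinates fixed
    have hpc : ∀ R : Finset (ZMod p), Continuous fun y : ZMod p → tr.Y =>
        R.piecewise (fun _ => tr.y₀) y := by
      intro R
      refine continuous_pi fun i => ?_
      by_cases hi : i ∈ R
      · simp only [hi, piecewise_eq_of_mem]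
        exact continuous_const
      · simp only [hi, not_false_eq_true, piecewise_eq_of_notMem]
        exact continuous_apply i
    set G : Finset (ZMod p) → CubeFun tr T := fun R =>
      ⟨fun y => (-1 : ℤ) ^ R.card • h S (R.piecewise (fun _ => tr.y₀) y),
        ((h S).isLocallyConstant.comp_continuous (hpc R)).comp fun t => (-1 : ℤ) ^ R.card • t⟩
      with hG
    have hGmem : ∀ R ∈ S.powerset.erase ∅, G R ∈ fil tr T j := by
      intro R hR
      have hRS : R ⊆ S := mem_powerset.1 (mem_of_mem_erase hR)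
      have hRne : R.Nonempty := nonempty_iff_ne_empty.2 (ne_of_mem_erase hR)
      refine fil2_mem tr (S \ R) ?_ _ ?_
      · rw [card_sdiff_of_subset hRS]
        have := hRne.card_pos
        omega
      · intro y y' hyy
        change (-1 : ℤ) ^ R.card • h S _ = (-1 : ℤ) ^ R.card • h S _
        congr 1
        refine h1 S _ _ fun i hi => ?_
        by_cases hiR : i ∈ R
        · rw [piecewise_eq_of_mem _ _ _ hiR, piecewise_eq_of_mem _ _ _ hiR]
        · rw [piecewise_eq_of_notMem _ _ _ hiR, piecewise_eq_of_notMem _ _ _ hiR]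
          exact hyy i (mem_sdiff.2 ⟨hi, hiR⟩)
    have hsum : h S = -∑ R ∈ S.powerset.erase ∅, G R := by
      ext y
      have h2 := hv' y fun _ => tr.y₀
      unfold alt at h2
      rw [← add_sum_erase _ _ (empty_mem_powerset S)] at h2
      rw [card_empty, pow_zero, one_smul, piecewise_empty] at h2
      rw [eq_neg_of_add_eq_zero_left h2]
      change _ = -((∑ R ∈ S.powerset.erase ∅, G R) y)
      rw [fil2_sum_apply]
      rfl
    rw [hsum]
    exact (fil tr T j).neg_mem (AddSubgroup.sum_mem _ hGmem)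
  · exact fil2_mem tr S hge (h S) (h1 S)

theorem bdryHom_surj (tr : Tree P p) (hF : ∀ g, F^[p] g = g) (T : Type) [AddCommGroup T]
    (hT : ∀ t : T, p • t = 0) (j : ℕ) (h : LocallyConstant (cells tr hF j).Z T) :
    ∃ f ∈ fil tr T j, bdryHom tr hF T j f = h := by
  classical
  have key : ∀ S : Finset (ZMod p), ∃ g : CubeFun tr T,
      (∀ y y', (∀ i ∈ S, y i = y' i) → g y = g y') ∧
      ∀ hS : S.card = j, ∀ e y, alt S g y (fun i => tr.r (e i) (y i)) =
        h ⟨fil2_cell tr S y e, by rw [fil2_supp_cell]; exact hS⟩ := by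
    intro S
    by_cases hS : S.card = j
    · have hs : ∀ (y : ZMod p → tr.Y) (e : ZMod p → Fin 2),
          (supp (fil2_cell tr S y e)).card = j := fun y e => by
        rw [fil2_supp_cell]; exact hS
      obtain ⟨g, hg1, hg2, hg3⟩ := alt_surj tr hT S
        (fun e y => h ⟨fil2_cell tr S y e, hs y e⟩) (fun e =>
          h.isLocallyConstant.comp_continuous ((fil2_cont_cell tr S e).subtype_mk fun y => hs y e))
        (fun e e' hee => by
          funext y
          congr 1
          apply Subtype.ext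
          funext i
          unfold fil2_cell
          by_cases hi : i ∈ S
          · simp only [hi, if_true]
            rw [hee i hi]
          · simp only [hi, if_false])
        (fun e y y' hyy => by
          congr 1
          apply Subtype.ext
          funext i
          unfold fil2_cell
          by_cases hi : i ∈ S
          · simp only [hi, if_true]
            rw [hyy i hi]
          · simp only [hi, if_false])
      exact ⟨⟨g, hg1⟩, hg2, fun _ e y => hg3 e y⟩
    · exact ⟨0, fun _ _ _ => rfl, fun h' => absurd h' hS⟩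
  choose g hg1 hg2 using key
  refine ⟨∑ S ∈ univ.filter (fun S : Finset (ZMod p) => S.card = j), g S, ?_, ?_⟩
  · refine AddSubgroup.sum_mem _ fun S hS => ?_
    exact fil2_mem tr S (mem_filter.1 hS).2.le (g S) (hg1 S)
  · ext ζ
    have hζ : (supp ζ.1).card = j := ζ.2
    rw [bdryHom_apply, fil2_bdry tr g _ (fun S hS => (mem_filter.1 hS).2.le) hg1 ζ.1 hζ
      (mem_filter.2 ⟨mem_univ _, hζ⟩),
      hg2 (supp ζ.1) hζ (fun i => Coord.lb (ζ.1 i)) (fun i => Coord.pt (ζ.1 i))]
    congr 1
    exact Subtype.ext (fil2_cell_self tr ζ.1)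

end Pool.Agent.GTT
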