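import Pool.Agent.Lib.MP_2cc432_al.Defs2
import Pool.Agent.Lib.MP_2cc432_al.CT
import Pool.Agent.Lib.MP_2cc432_al.LG

/-!
# Derivations with values in functions on a free space are cohomologically trivial
-/

open Filter Topology Finset

namespace Pool.Agent.GTT

/-! ## Extension from the slice `κ = 1` -/

section

variable {P : Type} [Group P] [TopologicalSpace P] [IsTopologicalGroup P] {F : P ≃ₜ* P} {p : ℕ}

theorem LemG_smooth_lc {T : Type} [AddCommGroup T] {ρ : P →* AddMonoid.End T} (hρ : Smooth ρ)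
    (t : T) : IsLocallyConstant fun g => ρ g t := by
  rw [IsLocallyConstant.iff_eventually_eq]
  intro g₀
  have h1 : Tendsto (fun g : P => g₀⁻¹ * g) (𝓝 g₀) (𝓝 1) :=
    (continuous_const.mul continuous_id).tendsto' g₀ 1 (by simp)
  filter_upwards [h1.eventually (hρ t)] with g hg
  have h2 : ρ g = ρ g₀ * ρ (g₀⁻¹ * g) := by rw [← map_mul, mul_inv_cancel_left]
  rw [h2, AddMonoid.End.coe_mul, Function.comp_apply, hg]

/-- the slice -/
abbrev LemG_B {Z : FSpace P F p} (s : Z.Sec) : Type := {z : Z.Z // s.κ z = 1}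

variable {Z : FSpace P F p} (s : Z.Sec)

omit [IsTopologicalGroup P] in
theorem LemG_compact [T1Space P] : CompactSpace (LemG_B s) :=
  isCompact_iff_compactSpace.1
    (isClosed_singleton.preimage s.cont : IsClosed {z : Z.Z | s.κ z = 1}).isCompact

/-- the retraction to the slice -/
def LemG_ret (z : Z.Z) : LemG_B s :=
  ⟨Z.act (s.κ z)⁻¹ z, by rw [s.act, inv_mul_cancel]⟩

theorem LemG_ret_val (z : Z.Z) : (LemG_ret s z).1 = Z.act (s.κ z)⁻¹ z := rfl

theorem LemG_ret_cont : Continuous (LemG_ret s) :=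
  Continuous.subtype_mk (Z.cont.comp (s.cont.inv.prodMk continuous_id)) _

theorem LemG_ret_act (g : P) (z : Z.Z) : LemG_ret s (Z.act g z) = LemG_ret s z := by
  apply Subtype.ext
  rw [LemG_ret_val, LemG_ret_val, s.act, mul_inv_rev, Z.act_mul, Z.act_inv_act]

theorem LemG_ret_coe (b : LemG_B s) : LemG_ret s b.1 = b := by
  apply Subtype.ext
  rw [LemG_ret_val, b.2, inv_one, Z.act_one]

theorem LemG_ret_FZ (z : Z.Z) : LemG_ret s (Z.FZ (LemG_ret s z).1) = LemG_ret s (Z.FZ z) := by
  rw [LemG_ret_val, Z.FZ_act, LemG_ret_act]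

theorem LemG_ret_FZ_symm (z : Z.Z) :
    LemG_ret s (Z.FZ.symm (LemG_ret s z).1) = LemG_ret s (Z.FZ.symm z) := by
  rw [LemG_ret_val, Z.FZ_symm_act, LemG_ret_act]

/-- the homeomorphism of the slice -/
def LemG_σ : LemG_B s ≃ₜ LemG_B s where
  toFun b := LemG_ret s (Z.FZ b.1)
  invFun b := LemG_ret s (Z.FZ.symm b.1)
  left_inv b := by
    change LemG_ret s (Z.FZ.symm (LemG_ret s (Z.FZ b.1)).1) = b
    rw [LemG_ret_FZ_symm, Homeomorph.symm_apply_apply, LemG_ret_coe]
  right_inv b := by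
    change LemG_ret s (Z.FZ (LemG_ret s (Z.FZ.symm b.1)).1) = b
    rw [LemG_ret_FZ, Homeomorph.apply_symm_apply, LemG_ret_coe]
  continuous_toFun := (LemG_ret_cont s).comp (Z.FZ.continuous.comp continuous_subtype_val)
  continuous_invFun := (LemG_ret_cont s).comp (Z.FZ.symm.continuous.comp continuous_subtype_val)

theorem LemG_σ_symm_apply (b : LemG_B s) : (LemG_σ s).symm b = LemG_ret s (Z.FZ.symm b.1) := rfl

theorem LemG_σ_ret (z : Z.Z) : LemG_σ s (LemG_ret s z) = LemG_ret s (Z.FZ z) :=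
  LemG_ret_FZ s z

theorem LemG_σ_pow (b : LemG_B s) : (LemG_σ s)^[p] b = b := by
  have h : ∀ n : ℕ, (LemG_σ s)^[n] b = LemG_ret s (Z.FZ^[n] b.1) := by
    intro n
    induction n with
    | zero => exact (LemG_ret_coe s b).symm
    | succ n ih => rw [Function.iterate_succ_apply', ih, LemG_σ_ret, Function.iterate_succ_apply']
  rw [h p, Z.FZ_pow, LemG_ret_coe]

variable (M : FMod P F p)

/-- the invariant extension of a function on the slice -/
def LemG_ext : LocallyConstant (LemG_B s) M.T →+ LocallyConstant Z.Z M.T where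
  toFun f := ⟨fun z => M.ρ (s.κ z) (f (LemG_ret s z)), by
    rw [IsLocallyConstant.iff_eventually_eq]
    intro z₀
    have h1 := (f.isLocallyConstant.comp_continuous (LemG_ret_cont s)).eventually_eq z₀
    have h2 := ((LemG_smooth_lc M.smooth (f (LemG_ret s z₀))).comp_continuous
      s.cont).eventually_eq z₀
    filter_upwards [h1, h2] with z e1 e2
    change f (LemG_ret s z) = f (LemG_ret s z₀) at e1
    rw [e1]
    exact e2⟩
  map_zero' := by
    ext z
    exact map_zero (M.ρ (s.κ z))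
  map_add' a b := by
    ext z
    exact map_add (M.ρ (s.κ z)) _ _

theorem LemG_ext_apply (f : LocallyConstant (LemG_B s) M.T) (z : Z.Z) :
    LemG_ext s M f z = M.ρ (s.κ z) (f (LemG_ret s z)) := rfl

/-- the restriction to the slice -/
def LemG_res : LocallyConstant Z.Z M.T →+ LocallyConstant (LemG_B s) M.T where
  toFun f := ⟨fun b => f b.1, f.isLocallyConstant.comp_continuous continuous_subtype_val⟩
  map_zero' := rfl
  map_add' _ _ := rfl

theorem LemG_res_apply (f : LocallyConstant Z.Z M.T) (b : LemG_B s) :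
    LemG_res s M f b = f b.1 := rfl

theorem LemG_res_ext (f : LocallyConstant (LemG_B s) M.T) : LemG_res s M (LemG_ext s M f) = f := by
  ext b
  rw [LemG_res_apply, LemG_ext_apply, b.2, map_one, LemG_ret_coe]
  rfl

theorem LemG_ext_inv (f : LocallyConstant (LemG_B s) M.T) (g : P) :
    Z.fρ M g (LemG_ext s M f) = LemG_ext s M f := by
  ext z
  rw [Z.fρ_apply, LemG_ext_apply, LemG_ext_apply, LemG_ret_act, s.act, map_mul,
    AddMonoid.End.coe_mul, Function.comp_apply]
  rw [← Function.comp_apply (f := M.ρ g), ← AddMonoid.End.coe_mul, ← map_mul, mul_inv_cancel,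
    map_one]
  rfl

theorem LemG_ext_res {f : LocallyConstant Z.Z M.T} (hf : ∀ g, Z.fρ M g f = f) :
    LemG_ext s M (LemG_res s M f) = f := by
  ext z
  rw [LemG_ext_apply, LemG_res_apply, LemG_ret_val]
  have h := congrArg (fun f' : LocallyConstant Z.Z M.T => f' z) (hf (s.κ z))
  exact h

theorem LemG_comm (g : P) (f : LocallyConstant Z.Z M.T) :
    Z.fΦ M (Z.fρ M g f) = Z.fρ M (F g) (Z.fΦ M f) := (Z.funMod M).comp g f

theorem LemG_inv_Φ {f : LocallyConstant Z.Z M.T} (hf : ∀ g, Z.fρ M g f = f) (g : P) :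
    Z.fρ M g (Z.fΦ M f) = Z.fΦ M f := by
  have h := LemG_comm M (F.symm g) f
  rw [hf, ContinuousMulEquiv.apply_symm_apply] at h
  exact h.symm

/-- the action of `F` on functions on the slice -/
def LemG_Ψ : AddMonoid.End (LocallyConstant (LemG_B s) M.T) :=
  ((LemG_res s M).comp (Z.fΦ M)).comp (LemG_ext s M)

theorem LemG_Ψ_def (f : LocallyConstant (LemG_B s) M.T) :
    LemG_Ψ s M f = LemG_res s M (Z.fΦ M (LemG_ext s M f)) := rfl

theorem LemG_Ψ_apply (f : LocallyConstant (LemG_B s) M.T) (b : LemG_B s) :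
    LemG_Ψ s M f b = (M.Φ * M.ρ (s.κ (Z.FZ.symm b.1))) (f ((LemG_σ s).symm b)) := rfl

theorem LemG_ext_Ψ (f : LocallyConstant (LemG_B s) M.T) :
    LemG_ext s M (LemG_Ψ s M f) = Z.fΦ M (LemG_ext s M f) := by
  rw [LemG_Ψ_def, LemG_ext_res]
  exact LemG_inv_Φ M (LemG_ext_inv s M f)

theorem LemG_ext_Ψ_pow (n : ℕ) (f : LocallyConstant (LemG_B s) M.T) :
    LemG_ext s M ((LemG_Ψ s M ^ n) f) = (Z.fΦ M ^ n) (LemG_ext s M f) := by
  induction n with
  | zero => rfl
  | succ n ih =>
    rw [pow_succ', AddMonoid.End.coe_mul, Function.comp_apply, LemG_ext_Ψ, ih, pow_succ',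
      AddMonoid.End.coe_mul, Function.comp_apply]

theorem LemG_Ψ_pow : LemG_Ψ s M ^ p = 1 := by
  ext1 f
  have h := LemG_ext_Ψ_pow s M p f
  have h2 : Z.fΦ M ^ p = 1 := (Z.funMod M).pow
  rw [h2] at h
  have h3 := congrArg (LemG_res s M) h
  rw [LemG_res_ext] at h3
  rw [h3]
  exact LemG_res_ext s M f

end

variable {P : Type} [Group P] [TopologicalSpace P] [IsTopologicalGroup P] [CompactSpace P]
  [T2Space P] [TotallyDisconnectedSpace P] {F : P ≃ₜ* P} {p : ℕ} [Fact p.Prime]

omit [IsTopologicalGroup P] [CompactSpace P] [T2Space P] [TotallyDisconnectedSpace P]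
  [Fact p.Prime] in
/-- an element `v F` which fixes a point of a free space has norm one -/
theorem LemG_nv {Z : FSpace P F p} (s : Z.Sec) {v : P} {b : Z.Z} (h : Z.act v (Z.FZ b) = b) :
    nv F p v = 1 := by
  have h1 : ∀ n : ℕ, Z.act (nv F n v) (Z.FZ^[n] b) = b := by
    intro n
    induction n with
    | zero => exact Z.act_one b
    | succ n ih =>
      rw [nv_succ, Z.act_mul, Function.iterate_succ_apply', ← Z.FZ_act, ih, h]
  have h2 := h1 p
  rw [Z.FZ_pow] at h2
  have h3 := congrArg s.κ h2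
  rw [s.act] at h3
  exact mul_eq_right.1 h3

/-- functions on `Z` are cohomologically trivial for `F` -/
theorem LemG_ct_fun (Z : FSpace P F p) (M : FMod P F p) (hM : M.SFree) : CT p (Z.fΦ M) := by
  intro f hf
  refine local_global (p := p) Z.FZ Z.FZ_pow (fun _ => M.Φ) (fun t => IsLocallyConstant.const _)
    (Z.fΦ M) (fun f b => rfl) (Z.funMod M).pow f hf ?_
  intro b hb
  have h := hM 1 (nv_one F p)
  rw [map_one, one_mul] at h
  apply h
  have h1 : Z.FZ.symm b = b := by
    conv_lhs => rw [← hb]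
    exact Z.FZ.symm_apply_apply b
  have h2 := congrArg (fun f' : LocallyConstant Z.Z M.T => f' b) hf
  rw [← h1] at h2
  have h3 : Z.fΦ M f b = M.Φ (f (Z.FZ.symm b)) := rfl
  have h4 : Z.fΦ M f b = f b := congrArg (fun f' : LocallyConstant Z.Z M.T => f' b) hf
  rw [h3, h1] at h4
  exact h4

/-- invariant functions on `Z` are cohomologically trivial for `F` -/
theorem LemG_ct_inv (Z : FSpace P F p) (s : Z.Sec) (M : FMod P F p) (hM : M.SFree)
    (f : LocallyConstant Z.Z M.T) (hf : ∀ g, Z.fρ M g f = f) (hΦ : Z.fΦ M f = f) :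
    ∃ f', (∀ g, Z.fρ M g f' = f') ∧ nrm p (Z.fΦ M) f' = f := by
  have := LemG_compact s
  set f₀ := LemG_res s M f with hf₀
  have he : LemG_ext s M f₀ = f := LemG_ext_res s M hf
  have hΨf : LemG_Ψ s M f₀ = f₀ := by
    rw [LemG_Ψ_def, he, hΦ]
  obtain ⟨f₁, hf₁⟩ := local_global (p := p) (LemG_σ s) (LemG_σ_pow s)
    (fun b => M.Φ * M.ρ (s.κ (Z.FZ.symm b.1)))
    (fun t => ((LemG_smooth_lc M.smooth t).comp_continuous
      (s.cont.comp (Z.FZ.symm.continuous.comp continuous_subtype_val))).comp M.Φ)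
    (LemG_Ψ s M) (LemG_Ψ_apply s M) (LemG_Ψ_pow s M) f₀ hΨf (by
      intro b hb
      have hb' : (LemG_σ s).symm b = b := by
        conv_lhs => rw [← hb]
        exact (LemG_σ s).symm_apply_apply b
      have hfix : Z.act (F (s.κ (Z.FZ.symm b.1))) (Z.FZ b.1) = b.1 := by
        have h1 : Z.act (s.κ (Z.FZ.symm b.1))⁻¹ (Z.FZ.symm b.1) = b.1 :=
          congrArg Subtype.val hb'
        have h2 := congrArg (Z.act (s.κ (Z.FZ.symm b.1))) h1
        rw [Z.act_act_inv] at h2
        rw [← Z.FZ_act, ← h2, Homeomorph.apply_symm_apply]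
      have hθ : M.Φ * M.ρ (s.κ (Z.FZ.symm b.1)) = M.ρ (F (s.κ (Z.FZ.symm b.1))) * M.Φ := by
        ext t
        exact M.comp _ t
      have h3 := hM _ (LemG_nv s hfix)
      rw [← hθ] at h3
      apply h3
      have h4 : LemG_Ψ s M f₀ b = f₀ b :=
        congrArg (fun f' : LocallyConstant (LemG_B s) M.T => f' b) hΨf
      rw [LemG_Ψ_apply, hb'] at h4
      exact h4)
  refine ⟨LemG_ext s M f₁, LemG_ext_inv s M f₁, ?_⟩
  rw [← he, ← hf₁]
  unfold nrm
  rw [map_sum]
  exact Finset.sum_congr rfl fun i _ => (LemG_ext_Ψ_pow s M i f₁).symm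

/-- every derivation with values in functions on a free space is inner -/
theorem LemG_inner (Z : FSpace P F p) (s : Z.Sec) (M : FMod P F p)
    (δ : P → LocallyConstant Z.Z M.T) (hmul : ∀ g h, δ (g * h) = δ g + Z.fρ M g (δ h))
    (hδ : IsLocallyConstant δ) : ∃ f, ∀ g, Z.fρ M g f - f = δ g := by
  have hlc : IsLocallyConstant fun z : Z.Z => δ (s.κ z) z := by
    rw [IsLocallyConstant.iff_eventually_eq]
    intro z₀
    have h1 := (hδ.comp_continuous s.cont).eventually_eq z₀
    have h2 := (δ (s.κ z₀)).isLocallyConstant.eventually_eq z₀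
    filter_upwards [h1, h2] with z e1 e2
    change δ (s.κ z) = δ (s.κ z₀) at e1
    rw [e1]
    exact e2
  refine ⟨-⟨fun z => δ (s.κ z) z, hlc⟩, fun g => ?_⟩
  ext z
  have h1 : δ (s.κ z) = δ g + Z.fρ M g (δ (s.κ (Z.act g⁻¹ z))) := by
    rw [s.act, ← hmul, mul_inv_cancel_left]
  have h2 : δ (s.κ z) z = δ g z + M.ρ g (δ (s.κ (Z.act g⁻¹ z)) (Z.act g⁻¹ z)) := by
    conv_lhs => rw [h1]
    rfl
  change M.ρ g (-(δ (s.κ (Z.act g⁻¹ z)) (Z.act g⁻¹ z))) - -(δ (s.κ z) z) = δ g z
  rw [h2, map_neg]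
  abel

/-- LEMG -/
theorem km_funMod (hF : ∀ g, F^[p] g = g) (Z : FSpace P F p) (s : Z.Sec) (M : FMod P F p)
    (hM : M.SFree) : (Z.funMod M).KM := by
  set N : FMod P F p := Z.funMod M with hN
  -- the invariants
  let A : AddSubgroup N.T :=
    { carrier := {f | ∀ g, N.ρ g f = f}
      add_mem' := fun {a b} ha hb g => by rw [map_add, ha, hb]
      zero_mem' := fun g => map_zero _
      neg_mem' := fun {a} ha g => by rw [map_neg, ha] }
  have hAΦ : ∀ t ∈ A, N.Φ t ∈ A := fun t ht g => by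
    have h := N.comp (F.symm g) t
    rw [ht, ContinuousMulEquiv.apply_symm_apply] at h
    exact h.symm
  -- the coboundary map
  let q : N.T →+ N.Der :=
    { toFun := fun f => ⟨fun g => N.ρ g f - f, by
        refine ⟨fun g h => ?_, (LemG_smooth_lc N.smooth f).sub (IsLocallyConstant.const f)⟩
        rw [map_mul, AddMonoid.End.coe_mul, Function.comp_apply, map_sub]
        abel⟩
      map_zero' := by
        apply Subtype.ext
        funext g
        change N.ρ g 0 - 0 = 0
        rw [map_zero, sub_zero]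
      map_add' := fun a b => by
        apply Subtype.ext
        funext g
        change N.ρ g (a + b) - (a + b) = (N.ρ g a - a) + (N.ρ g b - b)
        rw [map_add]
        abel }
  have hq_apply : ∀ f g, (q f).1 g = N.ρ g f - f := fun _ _ => rfl
  have hΦC : N.derΦ ^ p = 1 := by
    have key : ∀ (n : ℕ) (δ : N.Der) (g : P),
        ((N.derΦ ^ n) δ).1 g = (N.Φ ^ n) (δ.1 (F.symm^[n] g)) := by
      intro n
      induction n with
      | zero => intro δ g; rfl
      | succ n ih =>
        intro δ g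
        rw [pow_succ', AddMonoid.End.coe_mul, Function.comp_apply, N.derΦ_apply, ih, pow_succ',
          AddMonoid.End.coe_mul, Function.comp_apply, Function.iterate_succ_apply]
    refine AddMonoidHom.ext fun δ => Subtype.ext (funext fun g => (key p δ g).trans ?_)
    rw [N.pow]
    have h1 : F.symm^[p] g = g := by
      have h2 := hF (F.symm^[p] g)
      have h3 : F^[p] (F.symm^[p] g) = g :=
        Function.LeftInverse.iterate (fun z => F.apply_symm_apply z) p g
      rw [← h2, h3]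
    rw [h1]
    rfl
  refine ct_quot (p := p) (A := A) (B := N.T) (C := N.Der) (fun x => Subtype.ext (N.tors x.1))
    N.tors (fun x => Subtype.ext (funext fun g => N.tors (x.1 g))) (subEnd A N.Φ hAΦ) N.Φ N.derΦ
    ?_ N.pow hΦC A.subtype q Subtype.coe_injective ?_ ?_ ?_ (fun _ => rfl) ?_ ?_ ?_
  · ext t
    rw [subEnd_pow, N.pow]
    rfl
  · intro δ
    obtain ⟨f, hf⟩ := LemG_inner Z s M δ.1 δ.2.mul δ.2.lc
    exact ⟨f, Subtype.ext (funext hf)⟩
  · intro f hf
    refine ⟨⟨f, fun g => ?_⟩, rfl⟩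
    have h := congrArg (fun δ : N.Der => δ.1 g) hf
    exact sub_eq_zero.1 h
  · intro a
    apply Subtype.ext
    funext g
    rw [hq_apply]
    exact sub_eq_zero.2 (a.2 g)
  · intro f
    apply Subtype.ext
    funext g
    rw [N.derΦ_apply, hq_apply, hq_apply, map_sub, N.comp, ContinuousMulEquiv.apply_symm_apply]
  · intro t ht
    obtain ⟨f', h1, h2⟩ := LemG_ct_inv Z s M hM t.1 t.2 (congrArg Subtype.val ht)
    refine ⟨⟨f', h1⟩, Subtype.ext ?_⟩
    rw [← h2]
    unfold nrm
    change A.subtype (∑ i ∈ range p, ((subEnd A N.Φ hAΦ) ^ i) ⟨f', h1⟩) = _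
    rw [map_sum]
    exact Finset.sum_congr rfl fun i _ => subEnd_pow A N.Φ hAΦ i ⟨f', h1⟩
  · exact LemG_ct_fun Z M hM

end Pool.Agent.GTT
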