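import Pool.Agent.Lib.MP_2cc432_al.FilDefs
import Pool.Agent.Lib.MP_2cc432_al.LemG
import Pool.Agent.Lib.MP_2cc432_al.Exact
import Pool.Agent.Lib.MP_2cc432_al.Fil1
import Pool.Agent.Lib.MP_2cc432_al.Fil2

/-!
# Torsion in the profinite Grothendieck–Teichmüller group: the core theorem

If `M` is cohomologically trivial for each element of order `p`, the derivations `P → M` are
cohomologically trivial for `F`. Assembly of LEMG, EXACT, FIL1 and FIL2: the module of functions
on `Y ^ p` is filtered with the functions on the cells as graded pieces.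
-/

open Filter Topology Finset

namespace Pool.Agent.GTT

section CoreSection

variable {P : Type} [Group P] [TopologicalSpace P] [IsTopologicalGroup P]
  {F : P ≃ₜ* P} {p : ℕ} [Fact p.Prime]

/-- the zero module -/
def coreZero (P : Type) [Group P] [TopologicalSpace P] (F : P ≃ₜ* P) (p : ℕ) : FMod P F p where
  T := PUnit
  ρ := 1
  Φ := 1
  smooth := fun _ => Eventually.of_forall fun _ => rfl
  tors := fun _ => rfl
  comp := fun _ _ => rfl
  pow := one_pow _

omit [IsTopologicalGroup P] [Fact p.Prime] in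
theorem coreZero_KM : (coreZero P F p).KM := fun _ _ =>
  ⟨0, Subtype.ext (funext fun _ => rfl)⟩

/-- the steps of the filtration as modules -/
def coreFil (tr : Tree P p) (hF : ∀ g, F^[p] g = g) (M : FMod P F p) (j : ℕ) : FMod P F p :=
  ((cube tr hF).funMod M).sub (fil tr M.T j) (fun g => fil_rho tr hF M j g) (fil_phi tr hF M j)

variable [CompactSpace P] [T2Space P] [TotallyDisconnectedSpace P]

theorem coreFil_top (hL : DerLift P p) (tr : Tree P p) (hF : ∀ g, F^[p] g = g) (M : FMod P F p)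
    (hM : M.SFree) : (coreFil tr hF M p).KM := by
  refine km_exact hF hL (coreFil tr hF M p) ((cube tr hF).funMod M) (coreZero P F p)
    (fil tr M.T p).subtype 0 Subtype.val_injective ?_ ?_ ?_ ?_ ?_ ?_ ?_
    (km_funMod hF (cube tr hF) (cubeSec tr hF) M hM) coreZero_KM
  · intro c
    exact ⟨0, rfl⟩
  · intro b _
    exact ⟨⟨b, by rw [fil_top]; exact AddSubgroup.mem_top _⟩, rfl⟩
  · intro a
    rfl
  · intro g a
    rfl
  · intro g b
    rfl
  · intro a
    rfl
  · intro b
    rfl

theorem coreFil_step (hL : DerLift P p) (tr : Tree P p) (hF : ∀ g, F^[p] g = g)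
    (M : FMod P F p) (hM : M.SFree) (j : ℕ) (h : (coreFil tr hF M (j + 1)).KM) :
    (coreFil tr hF M j).KM := by
  refine km_exact hF hL (coreFil tr hF M j) (coreFil tr hF M (j + 1))
    ((cells tr hF (j + 1)).funMod M)
    (AddSubgroup.inclusion (fil_mono tr M.T (Nat.le_succ j)))
    ((bdryHom tr hF M.T (j + 1)).comp (fil tr M.T (j + 1)).subtype)
    (AddSubgroup.inclusion_injective _) ?_ ?_ ?_ ?_ ?_ ?_ ?_ h
    (km_funMod hF (cells tr hF (j + 1)) (cellsSec tr hF (j + 1) (Nat.succ_pos j)) M hM)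
  · intro c
    obtain ⟨f, hf, hfc⟩ := bdryHom_surj tr hF M.T M.tors (j + 1) c
    exact ⟨⟨f, hf⟩, hfc⟩
  · rintro ⟨b, hb⟩ hb0
    exact ⟨⟨b, bdryHom_ker tr hF M.T j b hb hb0⟩, rfl⟩
  · rintro ⟨a, ha⟩
    exact bdryHom_zero tr hF M.T j a ha
  · intro g a
    rfl
  · rintro g ⟨b, hb⟩
    exact bdryHom_rho tr hF M (j + 1) g b hb
  · intro a
    rfl
  · rintro ⟨b, hb⟩
    exact bdryHom_phi tr hF M (j + 1) b hb

theorem coreFil_all (hL : DerLift P p) (tr : Tree P p) (hF : ∀ g, F^[p] g = g)
    (M : FMod P F p) (hM : M.SFree) (k : ℕ) : ∀ j, j + k = p → (coreFil tr hF M j).KM := by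
  induction k with
  | zero =>
    intro j hj
    have hj' : j = p := by omega
    rw [hj']
    exact coreFil_top hL tr hF M hM
  | succ k ih =>
    intro j hj
    exact coreFil_step hL tr hF M hM j (ih (j + 1) (by omega))

/-- CORE -/
theorem core (hL : DerLift P p) (tr : Tree P p) (hF : ∀ g, F^[p] g = g) (M : FMod P F p)
    (hM : M.SFree) : M.KM := by
  refine km_exact hF hL M (coreFil tr hF M 0) (coreZero P F p)
    { toFun := fun t => ⟨LocallyConstant.const _ t, (fil_zero tr M.T _).2 ⟨t, rfl⟩⟩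
      map_zero' := rfl
      map_add' := fun _ _ => rfl } 0 ?_ ?_ ?_ ?_ ?_ ?_ ?_ ?_
    (coreFil_all hL tr hF M hM p 0 (by omega)) coreZero_KM
  · intro t t' h
    have h1 := congrArg Subtype.val h
    exact LocallyConstant.congr_fun h1 fun _ => tr.y₀
  · intro c
    exact ⟨0, rfl⟩
  · rintro ⟨b, hb⟩ _
    obtain ⟨t, ht⟩ := (fil_zero tr M.T _).1 hb
    exact ⟨t, Subtype.ext ht.symm⟩
  · intro a
    rfl
  · intro g a
    apply Subtype.ext
    exact LocallyConstant.ext fun z => rfl
  · intro g b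
    rfl
  · intro a
    apply Subtype.ext
    exact LocallyConstant.ext fun z => rfl
  · intro b
    rfl

end CoreSection

end Pool.Agent.GTT
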