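import Pool.Agent.Lib.MP_2cc432_al.Defs2

/-!
# Torsion in the profinite Grothendieck–Teichmüller group: powers of a tree

The space `Y ^ p` and the spaces of its `j`-dimensional cells, with the action of `P` twisted by
the powers of `F` and `F` acting by a cyclic shift.
-/

open Filter Topology Finset

namespace Pool.Agent.GTT

variable {P : Type} [Group P] [TopologicalSpace P] {F : P ≃ₜ* P} {p : ℕ}

theorem iterate_mul (n : ℕ) (g h : P) : F^[n] (g * h) = F^[n] g * F^[n] h := by
  induction n generalizing g h with
  | zero => rfl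
  | succ n ih => rw [Function.iterate_succ_apply, map_mul, ih]; rfl

theorem iterate_one (n : ℕ) : F^[n] (1 : P) = 1 := by
  induction n with
  | zero => rfl
  | succ n ih => rw [Function.iterate_succ_apply, map_one, ih]

/-- the powers of `F` with exponents in `ℤ / p` -/
theorem iterate_val_succ [Fact p.Prime] (hF : ∀ g, F^[p] g = g) (i : ZMod p) (g : P) :
    F^[(i + 1).val] g = F^[i.val] (F g) := by
  rcases Nat.lt_or_ge (i.val + 1) p with h | h
  · have h1 : (i + 1).val = i.val + 1 := by
      rw [ZMod.val_add, ZMod.val_one'' (Fact.out : p.Prime).one_lt.ne', Nat.mod_eq_of_lt h]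
    rw [h1, Function.iterate_succ_apply]
  · have h0 : i.val < p := ZMod.val_lt i
    have h1 : i.val + 1 = p := by omega
    have h2 : (i + 1).val = 0 := by
      rw [ZMod.val_add, ZMod.val_one'' (Fact.out : p.Prime).one_lt.ne', h1, Nat.mod_self]
    rw [h2, ← Function.iterate_succ_apply F, Nat.succ_eq_add_one, h1, hF]
    rfl

/-- the shift of the coordinates -/
def shift (p : ℕ) (X : Type) [TopologicalSpace X] : (ZMod p → X) ≃ₜ (ZMod p → X) where
  toFun y i := y (i + 1)
  invFun y i := y (i - 1)
  left_inv y := by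
    ext i
    simp
  right_inv y := by
    ext i
    simp
  continuous_toFun := continuous_pi fun i => continuous_apply (i + 1)
  continuous_invFun := continuous_pi fun i => continuous_apply (i - 1)

theorem shift_iterate {X : Type} [TopologicalSpace X] (n : ℕ) (y : ZMod p → X) (i : ZMod p) :
    (shift p X)^[n] y i = y (i + n) := by
  induction n generalizing y i with
  | zero => simp
  | succ n ih =>
    rw [Function.iterate_succ_apply, ih]
    change y (i + n + 1) = _
    rw [Nat.cast_add, Nat.cast_one, add_assoc]

theorem shift_pow {X : Type} [TopologicalSpace X] (y : ZMod p → X) :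
    (shift p X)^[p] y = y := by
  ext i
  rw [shift_iterate]
  simp

/-- the space `Y ^ p` -/
def cube [Fact p.Prime] (tr : Tree P p) (hF : ∀ g, F^[p] g = g) : FSpace P F p where
  Z := ZMod p → tr.Y
  act g y i := tr.act (F^[i.val] g) (y i)
  cont := by
    apply continuous_pi
    intro i
    have h1 : Continuous fun a : P × (ZMod p → tr.Y) => F^[i.val] a.1 :=
      (F.continuous.iterate _).comp continuous_fst
    exact tr.cont.comp (h1.prodMk ((continuous_apply i).comp continuous_snd))
  act_one y := by
    ext i
    rw [iterate_one, tr.act_one]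
  act_mul g h y := by
    ext i
    rw [iterate_mul, tr.act_mul]
  FZ := shift p tr.Y
  FZ_act g y := by
    ext i
    change tr.act (F^[(i + 1).val] g) (y (i + 1)) = tr.act (F^[i.val] (F g)) (y (i + 1))
    rw [iterate_val_succ hF]
  FZ_pow := shift_pow

/-- the section of `Y ^ p` -/
def cubeSec [Fact p.Prime] (tr : Tree P p) (hF : ∀ g, F^[p] g = g) : (cube tr hF).Sec where
  κ y := tr.κ (y 0)
  cont := tr.κ_cont.comp (continuous_apply 0)
  act g y := by
    change tr.κ (tr.act (F^[(0 : ZMod p).val] g) (y 0)) = _
    rw [ZMod.val_zero, tr.κ_act]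
    rfl

/-- a coordinate of a cell: either an edge (a point `y` and a label `e`, from `y` to `r e y`), or
unused -/
abbrev Coord (tr : Tree P p) : Type := (tr.Y × Fin 2) ⊕ Unit

/-- the point of a coordinate -/
def Coord.pt {tr : Tree P p} (c : Coord tr) : tr.Y := c.elim Prod.fst fun _ => tr.y₀

/-- the label of a coordinate -/
def Coord.lb {tr : Tree P p} (c : Coord tr) : Fin 2 := c.elim Prod.snd fun _ => 0

/-- the action of `P` on a coordinate -/
def Coord.act {tr : Tree P p} (g : P) (c : Coord tr) : Coord tr :=
  Sum.map (Prod.map (tr.act g) id) id c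

theorem Coord.act_one {tr : Tree P p} (c : Coord tr) : Coord.act 1 c = c := by
  rcases c with ⟨y, e⟩ | u
  · simp [Coord.act, tr.act_one]
  · rfl

theorem Coord.act_mul {tr : Tree P p} (g h : P) (c : Coord tr) :
    Coord.act (g * h) c = Coord.act g (Coord.act h c) := by
  rcases c with ⟨y, e⟩ | u
  · simp [Coord.act, tr.act_mul]
  · rfl

theorem Coord.isLeft_act {tr : Tree P p} (g : P) (c : Coord tr) :
    (Coord.act g c).isLeft = c.isLeft := by
  rcases c with ⟨y, e⟩ | u <;> rfl

theorem Coord.pt_act {tr : Tree P p} (g : P) {c : Coord tr} (hc : c.isLeft) :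
    (Coord.act g c).pt = tr.act g c.pt := by
  rcases c with ⟨y, e⟩ | u
  · rfl
  · exact absurd hc (by simp)

theorem Coord.lb_act {tr : Tree P p} (g : P) (c : Coord tr) : (Coord.act g c).lb = c.lb := by
  rcases c with ⟨y, e⟩ | u <;> rfl

theorem Coord.cont_act (tr : Tree P p) :
    Continuous fun a : P × Coord tr => Coord.act a.1 a.2 := by
  have h : Continuous ((fun a : P × Coord tr => Coord.act a.1 a.2) ∘
      (Homeomorph.prodSumDistrib (X := P) (Y := tr.Y × Fin 2) (Z := Unit)).symm) := by
    rw [continuous_sum_dom]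
    constructor
    · have h1 : Continuous fun a : P × (tr.Y × Fin 2) =>
          (Sum.inl (tr.act a.1 a.2.1, a.2.2) : Coord tr) :=
        continuous_inl.comp ((tr.cont.comp (continuous_fst.prodMk
          (continuous_fst.comp continuous_snd))).prodMk (continuous_snd.comp continuous_snd))
      exact h1
    · exact continuous_inr.comp (continuous_const (y := ()))
  have h2 := h.comp (Homeomorph.prodSumDistrib (X := P) (Y := tr.Y × Fin 2) (Z := Unit)).continuous
  convert h2 using 1
  ext a
  simp

theorem Coord.continuous_pt (tr : Tree P p) : Continuous (Coord.pt : Coord tr → tr.Y) :=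
  continuous_fst.sumElim continuous_const

theorem Coord.continuous_lb (tr : Tree P p) : Continuous (Coord.lb : Coord tr → Fin 2) :=
  continuous_snd.sumElim continuous_const

theorem Coord.continuous_isLeft (tr : Tree P p) :
    Continuous (Sum.isLeft : Coord tr → Bool) := by
  rw [continuous_sum_dom]
  exact ⟨continuous_const (y := true), continuous_const (y := false)⟩

variable [Fact p.Prime]

/-- the set of the used coordinates -/
def supp {tr : Tree P p} (ζ : ZMod p → Coord tr) : Finset (ZMod p) :=
  univ.filter fun i => (ζ i).isLeft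

theorem mem_supp {tr : Tree P p} (ζ : ZMod p → Coord tr) (i : ZMod p) :
    i ∈ supp ζ ↔ (ζ i).isLeft := by
  simp [supp]

theorem isLocallyConstant_supp (tr : Tree P p) :
    IsLocallyConstant (supp : (ZMod p → Coord tr) → Finset (ZMod p)) := by
  rw [IsLocallyConstant.iff_eventually_eq]
  intro ζ
  have h : ∀ i : ZMod p, ∀ᶠ ξ in 𝓝 ζ, (ξ i).isLeft = (ζ i).isLeft := by
    intro i
    have h1 : Continuous fun ξ : ZMod p → Coord tr => (ξ i).isLeft :=
      (Coord.continuous_isLeft tr).comp (continuous_apply i)
    exact (IsLocallyConstant.iff_continuous _).2 h1 |>.eventually_eq ζ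
  filter_upwards [eventually_all.2 h] with ξ hξ
  ext i
  rw [mem_supp, mem_supp, hξ]

theorem supp_act {tr : Tree P p} (g : P) (ζ : ZMod p → Coord tr) :
    supp (fun i => Coord.act (F^[i.val] g) (ζ i)) = supp ζ := by
  ext i
  rw [mem_supp, mem_supp, Coord.isLeft_act]

theorem mem_supp_shift {tr : Tree P p} (ζ : ZMod p → Coord tr) (i : ZMod p) :
    i ∈ supp (shift p _ ζ) ↔ i + 1 ∈ supp ζ := by
  rw [mem_supp, mem_supp]
  rfl

theorem card_supp_shift {tr : Tree P p} (ζ : ZMod p → Coord tr) :
    (supp (shift p _ ζ)).card = (supp ζ).card := by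
  apply card_bij (fun i _ => i + 1)
  · intro i hi
    exact (mem_supp_shift ζ i).1 hi
  · intro i _ j _ h
    exact add_right_cancel h
  · intro i hi
    refine ⟨i - 1, (mem_supp_shift ζ _).2 ?_, by ring⟩
    rwa [sub_add_cancel]

theorem card_supp_shift_symm {tr : Tree P p} (ζ : ZMod p → Coord tr) :
    (supp ((shift p _).symm ζ)).card = (supp ζ).card := by
  rw [← card_supp_shift, Homeomorph.apply_symm_apply]

/-- the shift of cells -/
def cellShift (tr : Tree P p) (j : ℕ) :
    {ζ : ZMod p → Coord tr // (supp ζ).card = j} ≃ₜ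
      {ζ : ZMod p → Coord tr // (supp ζ).card = j} where
  toFun ζ := ⟨shift p _ ζ.1, (card_supp_shift ζ.1).trans ζ.2⟩
  invFun ζ := ⟨(shift p _).symm ζ.1, (card_supp_shift_symm ζ.1).trans ζ.2⟩
  left_inv ζ := Subtype.ext ((shift p _).symm_apply_apply ζ.1)
  right_inv ζ := Subtype.ext ((shift p _).apply_symm_apply ζ.1)
  continuous_toFun := ((shift p _).continuous.comp continuous_subtype_val).subtype_mk _
  continuous_invFun := ((shift p _).symm.continuous.comp continuous_subtype_val).subtype_mk _

theorem cellShift_iterate (tr : Tree P p) (j n : ℕ)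
    (ζ : {ζ : ZMod p → Coord tr // (supp ζ).card = j}) :
    ((cellShift tr j)^[n] ζ).1 = (shift p _)^[n] ζ.1 := by
  induction n generalizing ζ with
  | zero => rfl
  | succ n ih =>
    rw [Function.iterate_succ_apply, ih, Function.iterate_succ_apply]
    rfl

/-- the space of the `j`-dimensional cells -/
def cells (tr : Tree P p) (hF : ∀ g, F^[p] g = g) (j : ℕ) : FSpace P F p where
  Z := {ζ : ZMod p → Coord tr // (supp ζ).card = j}
  cpt := by
    have h : IsClosed {ζ : ZMod p → Coord tr | (supp ζ).card = j} :=
      isOpen_compl_iff.1 (isLocallyConstant_supp tr {S | S.card = j}ᶜ)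
    exact isCompact_iff_compactSpace.1 h.isCompact
  act g ζ := ⟨fun i => Coord.act (F^[i.val] g) (ζ.1 i), by rw [supp_act]; exact ζ.2⟩
  cont := by
    apply Continuous.subtype_mk
    apply continuous_pi
    intro i
    exact (Coord.cont_act tr).comp (((F.continuous.iterate _).comp continuous_fst).prodMk
      ((continuous_apply i).comp (continuous_subtype_val.comp continuous_snd)))
  act_one ζ := by
    apply Subtype.ext
    ext i : 1
    change Coord.act (F^[i.val] 1) (ζ.1 i) = _
    rw [iterate_one, Coord.act_one]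
  act_mul g h ζ := by
    apply Subtype.ext
    ext i : 1
    change Coord.act (F^[i.val] (g * h)) (ζ.1 i) = _
    rw [iterate_mul, Coord.act_mul]
  FZ := cellShift tr j
  FZ_act g ζ := by
    apply Subtype.ext
    ext i : 1
    change Coord.act (F^[(i + 1).val] g) (ζ.1 (i + 1)) =
      Coord.act (F^[i.val] (F g)) (ζ.1 (i + 1))
    rw [iterate_val_succ hF]
  FZ_pow ζ := Subtype.ext ((cellShift_iterate tr j p ζ).trans (shift_pow ζ.1))

theorem supp_nonempty {tr : Tree P p} {hF : ∀ g, F^[p] g = g} {j : ℕ} (hj : 1 ≤ j)
    (ζ : (cells tr hF j).Z) : (supp ζ.1).Nonempty := by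
  rw [← card_pos, ζ.2]
  exact hj

/-- a used coordinate of a cell which depends on the support only -/
noncomputable def pick (S : Finset (ZMod p)) : ZMod p :=
  if h : S.Nonempty then h.choose else 0

theorem pick_mem {S : Finset (ZMod p)} (h : S.Nonempty) : pick S ∈ S := by
  rw [pick, dif_pos h]
  exact h.choose_spec

theorem symm_iterate_iterate (n : ℕ) (g : P) : F.symm^[n] (F^[n] g) = g :=
  Function.LeftInverse.iterate (fun z => F.symm_apply_apply z) n g

/-- the section of the space of cells -/
noncomputable def cellsSec (tr : Tree P p) (hF : ∀ g, F^[p] g = g) (j : ℕ) (hj : 1 ≤ j) :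
    (cells tr hF j).Sec where
  κ ζ := F.symm^[(pick (supp ζ.1)).val] (tr.κ (Coord.pt (ζ.1 (pick (supp ζ.1)))))
  cont := by
    have h1 : ∀ i : ZMod p, Continuous fun ζ : (cells tr hF j).Z =>
        F.symm^[i.val] (tr.κ (Coord.pt (ζ.1 i))) := fun i =>
      (F.symm.continuous.iterate _).comp (tr.κ_cont.comp ((Coord.continuous_pt tr).comp
        ((continuous_apply i).comp continuous_subtype_val)))
    rw [continuous_iff_continuousAt]
    intro ζ
    have h2 : ∀ᶠ ξ : (cells tr hF j).Z in 𝓝 ζ, supp ξ.1 = supp ζ.1 :=
      ((isLocallyConstant_supp tr).comp_continuous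
        (continuous_subtype_val : Continuous fun ξ : (cells tr hF j).Z => ξ.1)).eventually_eq ζ
    refine ((h1 (pick (supp ζ.1))).continuousAt (x := ζ)).congr ?_
    filter_upwards [h2] with ξ hξ
    rw [hξ]
  act g ζ := by
    have h1 : supp ((cells tr hF j).act g ζ).1 = supp ζ.1 := supp_act g ζ.1
    rw [h1]
    set i := pick (supp ζ.1) with hi
    have h2 : (ζ.1 i).isLeft := (mem_supp _ _).1 (pick_mem (supp_nonempty hj ζ))
    change F.symm^[i.val] (tr.κ (Coord.pt (Coord.act (F^[i.val] g) (ζ.1 i)))) = _
    rw [Coord.pt_act _ h2, tr.κ_act, iterate_mul, symm_iterate_iterate]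

end Pool.Agent.GTT
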