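import Pool.Agent.Lib.MP_2cc432_al.DOneA
import Pool.Agent.Lib.MP_2cc432_al.LG
import Pool.Agent.Lib.MP_2cc432_al.CT

/-!
# Torsion in the profinite Grothendieck–Teichmüller group: an invariant derivation (module DONE)
-/

open Filter Topology Finset

namespace Pool.Agent.GTT

/-- composition with a homeomorphism -/
def doneΨ {B : Type} [TopologicalSpace B] (p : ℕ) (σ : B ≃ₜ B) :
    AddMonoid.End (LocallyConstant B (ZMod p)) where
  toFun f := ⟨fun b => f (σ.symm b), f.isLocallyConstant.comp_continuous σ.symm.continuous⟩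
  map_zero' := by
    ext b
    simp
  map_add' a b := by
    ext b
    simp

theorem doneΨ_apply {B : Type} [TopologicalSpace B] (p : ℕ) (σ : B ≃ₜ B)
    (f : LocallyConstant B (ZMod p)) (b : B) : doneΨ p σ f b = f (σ.symm b) := rfl

theorem doneΨ_pow {B : Type} [TopologicalSpace B] (p : ℕ) (σ : B ≃ₜ B) (n : ℕ)
    (f : LocallyConstant B (ZMod p)) (b : B) : (doneΨ p σ ^ n) f b = f (σ.symm^[n] b) := by
  induction n generalizing f b with
  | zero => rfl
  | succ n ih =>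
    rw [pow_succ', AddMonoid.End.coe_mul, Function.comp_apply, doneΨ_apply, ih,
      Function.iterate_succ_apply]

/-- a function of norm `0` on a space without fixed points is a coboundary -/
theorem done_cobound {B : Type} [TopologicalSpace B] [CompactSpace B] [T2Space B]
    [TotallyDisconnectedSpace B] {p : ℕ} [Fact p.Prime]
    (σ : B ≃ₜ B) (hσ : ∀ b, σ^[p] b = b) (hfix : ∀ b, σ b ≠ b)
    (f : LocallyConstant B (ZMod p)) (hf : ∀ b, ∑ i ∈ range p, f (σ.symm^[i] b) = 0) :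
    ∃ f' : LocallyConstant B (ZMod p), ∀ b, f' (σ.symm b) - f' b = f b := by
  have hσ' : ∀ b, σ.symm^[p] b = b := fun b => by
    have h1 := hσ (σ.symm^[p] b)
    have h2 : σ^[p] (σ.symm^[p] b) = b :=
      Function.LeftInverse.iterate (fun z => σ.apply_symm_apply z) p b
    rw [← h1, h2]
  have hp : doneΨ p σ ^ p = 1 := by
    ext f b
    rw [doneΨ_pow, hσ']
    rfl
  have hX : ∀ x : LocallyConstant B (ZMod p), p • x = 0 := fun x => by
    ext b
    change p • (x b) = 0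
    rw [nsmul_eq_mul, CharP.cast_eq_zero, zero_mul]
  have hCT : CT p (doneΨ p σ) := fun f hf =>
    local_global σ hσ (fun _ => 1) (fun t => IsLocallyConstant.const t) (doneΨ p σ)
      (fun _ _ => rfl) hp f hf fun b hb => absurd hb (hfix b)
  have hn : nrm p (doneΨ p σ) f = 0 := by
    ext b
    have h1 : (nrm p (doneΨ p σ) f) b = ∑ i ∈ range p, ((doneΨ p σ ^ i) f) b := by
      unfold nrm
      exact map_sum (LocallyConstant.evalAddMonoidHom (Y := ZMod p) b) _ _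
    rw [h1]
    simp only [doneΨ_pow]
    exact hf b
  obtain ⟨f', hf'⟩ := ct_symm hX (doneΨ p σ) hp hCT f hn
  refine ⟨f', fun b => ?_⟩
  have := DFunLike.congr_fun hf' b
  exact this

section

variable {P : Type} [Group P] [TopologicalSpace P] {F : P ≃ₜ* P} {p : ℕ}

/-- a derivation which vanishes on stabilisers is a coboundary -/
theorem done_beta (Z : FSpace P F p) (L : Subgroup P) (U O : Set Z.Z)
    (hU : IsClopen U) (hO : IsClopen O) (hUO : U ⊆ O) (hOa : ∀ g v, v ∈ O → Z.act g v ∈ O)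
    (hOU : ∀ v ∈ O, ∃ g, Z.act g v ∈ U)
    (hkey : ∀ g v, v ∈ U → Z.act g v ∈ U → g ∈ L)
    (E : P → Z.Z → ZMod p) (hE : ∀ g h v, E (g * h) v = E g v + E h (Z.act g⁻¹ v))
    (hlc : ∀ g, IsLocallyConstant (E g)) (hE0 : ∀ l ∈ L, ∀ u ∈ U, E l u = 0) :
    ∃ β : Z.Z → ZMod p, IsLocallyConstant β ∧ (∀ u ∈ U, β u = 0) ∧
      ∀ g, ∀ v ∈ O, E g v = β (Z.act g⁻¹ v) - β v := by
  classical
  choose! γ hγ using hOU
  have hwd : ∀ g g' v, Z.act g v ∈ U → Z.act g' v ∈ U →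
      E g (Z.act g v) = E g' (Z.act g' v) := by
    intro g g' v h h'
    have h1 : g' * g⁻¹ ∈ L := by
      refine hkey _ (Z.act g v) h ?_
      rw [Z.act_mul, Z.act_inv_act]
      exact h'
    have h2 : E g' (Z.act g' v) = E (g' * g⁻¹ * g) (Z.act g' v) := by
      rw [inv_mul_cancel_right]
    rw [h2, hE, hE0 _ h1 _ h', zero_add, mul_inv_rev, inv_inv, Z.act_mul, Z.act_inv_act]
  let β : Z.Z → ZMod p := fun v => if v ∈ O then E (γ v) (Z.act (γ v) v) else 0
  have hβ : ∀ g v, Z.act g v ∈ U → β v = E g (Z.act g v) := by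
    intro g v h
    have hv : v ∈ O := by
      have := hOa g⁻¹ _ (hUO h)
      rwa [Z.act_inv_act] at this
    have h1 : β v = E (γ v) (Z.act (γ v) v) := if_pos hv
    rw [h1]
    exact hwd _ _ _ (hγ v hv) h
  refine ⟨β, ?_, ?_, ?_⟩
  · rw [IsLocallyConstant.iff_eventually_eq]
    intro v
    by_cases hv : v ∈ O
    · have h1 : ∀ᶠ w in 𝓝 v, Z.act (γ v) w ∈ U :=
        ((hU.isOpen.preimage (Z.cont_right (γ v))).mem_nhds (hγ v hv))
      have h2 : ∀ᶠ w in 𝓝 v, E (γ v) (Z.act (γ v) w) = E (γ v) (Z.act (γ v) v) :=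
        ((hlc (γ v)).comp_continuous (Z.cont_right (γ v))).eventually_eq v
      filter_upwards [h1, h2] with w e1 e2
      rw [hβ _ _ e1, e2, hβ _ _ (hγ v hv)]
    · filter_upwards [hO.compl.isOpen.mem_nhds hv] with w hw
      rw [show β w = 0 from if_neg hw, show β v = 0 from if_neg hv]
  · intro u hu
    have h1 := hβ 1 u (by rwa [Z.act_one])
    have h2 := hE 1 1 u
    rw [mul_one, inv_one, Z.act_one] at h2
    rw [h1, Z.act_one]
    simpa using h2
  · intro g v hv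
    have h1 := hβ (γ v * g) (Z.act g⁻¹ v) (by
      rw [Z.act_mul, Z.act_act_inv]
      exact hγ v hv)
    rw [h1, hβ _ _ (hγ v hv), Z.act_mul, Z.act_act_inv, hE, Z.act_inv_act]
    ring

/-- making a derivation invariant -/
theorem done_invariant [Fact p.Prime] (hF : ∀ g, F^[p] g = g) (Z : FSpace P F p)
    (L : Subgroup P) (U O : Set Z.Z)
    (hU : IsClopen U) (hO : IsClopen O) (hUO : U ⊆ O) (hOa : ∀ g v, v ∈ O → Z.act g v ∈ O)
    (hOU : ∀ v ∈ O, ∃ g, Z.act g v ∈ U)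
    (hkey : ∀ g v, v ∈ U → Z.act g v ∈ U → g ∈ L)
    (hUF : ∀ v, Z.FZ v ∈ U ↔ v ∈ U) (hOF : ∀ v, Z.FZ v ∈ O ↔ v ∈ O)
    (hfix : ∀ v, Z.FZ v = v → v ∈ O → v ∈ U)
    (D₀ : P → Z.Z → ZMod p) (hD : ∀ g h v, D₀ (g * h) v = D₀ g v + D₀ h (Z.act g⁻¹ v))
    (hlc : ∀ g, IsLocallyConstant (D₀ g))
    (hE0 : ∀ l ∈ L, ∀ u ∈ U, D₀ (F.symm l) (Z.FZ.symm u) = D₀ l u) :
    ∃ β' : LocallyConstant Z.Z (ZMod p), ∀ g, ∀ v ∈ O,
      D₀ (F g) (Z.FZ v) - (β' (Z.act (F g)⁻¹ (Z.FZ v)) - β' (Z.FZ v)) =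
        D₀ g v - (β' (Z.act g⁻¹ v) - β' v) := by
  classical
  obtain ⟨β, hβlc, hβ0, hβ⟩ := done_beta Z L U O hU hO hUO hOa hOU hkey
    (fun g v => D₀ (F.symm g) (Z.FZ.symm v) - D₀ g v)
    (fun g h v => by
      rw [map_mul, hD, hD, ← map_inv, ← Z.FZ_symm_act]
      ring)
    (fun g => ((hlc (F.symm g)).comp_continuous Z.FZ.symm.continuous).sub (hlc g))
    (fun l hl u hu => sub_eq_zero.2 (hE0 l hl u hu))
  have hUF' : ∀ v, Z.FZ.symm v ∈ U ↔ v ∈ U := fun v => by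
    rw [← hUF, Homeomorph.apply_symm_apply]
  have hOF' : ∀ v, Z.FZ.symm v ∈ O ↔ v ∈ O := fun v => by
    rw [← hOF, Homeomorph.apply_symm_apply]
  have hUFi : ∀ i v, Z.FZ.symm^[i] v ∈ U ↔ v ∈ U := fun i => by
    induction i with
    | zero => exact fun v => Iff.rfl
    | succ i ih =>
      intro v
      rw [Function.iterate_succ_apply, ih, hUF']
  have hOFi : ∀ i v, Z.FZ.symm^[i] v ∈ O ↔ v ∈ O := fun i => by
    induction i with
    | zero => exact fun v => Iff.rfl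
    | succ i ih =>
      intro v
      rw [Function.iterate_succ_apply, ih, hOF']
  have hFs : ∀ g, F.symm^[p] g = g := fun g => by
    have h1 := hF (F.symm^[p] g)
    have h2 : F^[p] (F.symm^[p] g) = g :=
      Function.LeftInverse.iterate (fun z => F.apply_symm_apply z) p g
    rw [← h1, h2]
  have hsi : ∀ i g v, Z.FZ.symm^[i] (Z.act g v) = Z.act (F.symm^[i] g) (Z.FZ.symm^[i] v) := by
    intro i
    induction i with
    | zero => exact fun g v => rfl
    | succ i ih =>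
      intro g v
      rw [Function.iterate_succ_apply, Z.FZ_symm_act, ih, Function.iterate_succ_apply,
        Function.iterate_succ_apply]
  -- the norm of `β` vanishes on `O`
  have hN : ∀ v ∈ O, ∑ i ∈ range p, β (Z.FZ.symm^[i] v) = 0 := by
    intro v hv
    obtain ⟨g, hg⟩ := hOU v hv
    have h1 : ∀ i, β (Z.FZ.symm^[i] (Z.act g v)) - β (Z.FZ.symm^[i] v) =
        D₀ (F.symm^[i + 1] g⁻¹) (Z.FZ.symm^[i + 1] v) -
          D₀ (F.symm^[i] g⁻¹) (Z.FZ.symm^[i] v) := by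
      intro i
      have h2 := hβ (F.symm^[i] g⁻¹) (Z.FZ.symm^[i] v) ((hOFi i v).2 hv)
      rw [hsi, ← Function.iterate_succ_apply' F.symm, ← Function.iterate_succ_apply' Z.FZ.symm]
      at *
      rw [h2, iterate_map_inv, inv_inv]
    have h3 : ∑ i ∈ range p, (β (Z.FZ.symm^[i] (Z.act g v)) - β (Z.FZ.symm^[i] v)) = 0 := by
      rw [Finset.sum_congr rfl fun i _ => h1 i,
        Finset.sum_range_sub (fun i => D₀ (F.symm^[i] g⁻¹) (Z.FZ.symm^[i] v)), hFs,
        Z.FZ_symm_pow]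
      exact sub_self _
    have h4 : ∑ i ∈ range p, β (Z.FZ.symm^[i] (Z.act g v)) = 0 :=
      Finset.sum_eq_zero fun i _ => hβ0 _ ((hUFi i _).2 hg)
    rw [Finset.sum_sub_distrib, h4, zero_sub, neg_eq_zero] at h3
    exact h3
  -- the space without fixed points
  have hB : IsClopen (O \ U) := hO.diff hU
  have hBF : ∀ v, v ∈ O \ U ↔ Z.FZ v ∈ O \ U := fun v => by
    rw [Set.mem_sdiff, Set.mem_sdiff, hUF, hOF]
  let σ : ↥(O \ U) ≃ₜ ↥(O \ U) := Z.FZ.subtype hBF
  have hσ : ∀ b : ↥(O \ U), (σ b : Z.Z) = Z.FZ b := fun b => rfl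
  have hσs : ∀ b : ↥(O \ U), (σ.symm b : Z.Z) = Z.FZ.symm b := fun b => rfl
  have hσi : ∀ (i : ℕ) (b : ↥(O \ U)), (σ^[i] b : Z.Z) = Z.FZ^[i] b := by
    intro i
    induction i with
    | zero => exact fun b => rfl
    | succ i ih =>
      intro b
      rw [Function.iterate_succ_apply, ih, Function.iterate_succ_apply, hσ]
  have hσsi : ∀ (i : ℕ) (b : ↥(O \ U)), (σ.symm^[i] b : Z.Z) = Z.FZ.symm^[i] b := by
    intro i
    induction i with
    | zero => exact fun b => rfl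
    | succ i ih =>
      intro b
      rw [Function.iterate_succ_apply, ih, Function.iterate_succ_apply, hσs]
  have : CompactSpace ↥(O \ U) := isCompact_iff_compactSpace.1 hB.isClosed.isCompact
  obtain ⟨f', hf'⟩ := done_cobound σ
    (fun b => Subtype.ext ((hσi p b).trans (Z.FZ_pow b)))
    (fun b hb => b.2.2 (hfix b.1 (congrArg Subtype.val hb) b.2.1))
    ⟨fun b => β b.1, hβlc.comp_continuous continuous_subtype_val⟩
    (fun b => by
      change ∑ i ∈ range p, β (σ.symm^[i] b).1 = 0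
      simp only [hσsi]
      exact hN b.1 b.2.1)
  have hf'' : ∀ b : ↥(O \ U), f' (σ.symm b) - f' b = β b.1 := hf'
  let β₁ : Z.Z → ZMod p := fun v => if h : v ∈ O \ U then f' ⟨v, h⟩ else 0
  have hβ₁ : ∀ b : ↥(O \ U), β₁ b.1 = f' b := fun b => dif_pos b.2
  have hβ₁' : ∀ v ∉ O \ U, β₁ v = 0 := fun v hv => dif_neg hv
  have hβ₁lc : IsLocallyConstant β₁ := by
    rw [IsLocallyConstant.iff_eventually_eq]
    intro v
    by_cases hv : v ∈ O \ U
    · have h1 := (f'.isLocallyConstant.eventually_eq ⟨v, hv⟩)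
      have h2 : Filter.map (Subtype.val : ↥(O \ U) → Z.Z) (𝓝 ⟨v, hv⟩) = 𝓝 v :=
        map_nhds_subtype_coe_eq_nhds hv (hB.isOpen.mem_nhds hv)
      rw [← h2, Filter.eventually_map]
      filter_upwards [h1] with w hw
      rw [hβ₁ w, hβ₁ ⟨v, hv⟩]
      exact hw
    · filter_upwards [hB.compl.isOpen.mem_nhds hv] with w hw
      rw [hβ₁' w hw, hβ₁' v hv]
  have hβ₁β : ∀ v ∈ O, β₁ (Z.FZ.symm v) - β₁ v = β v := by
    intro v hv
    by_cases hvU : v ∈ U
    · rw [hβ₁' v fun h => h.2 hvU, hβ₁' (Z.FZ.symm v) fun h => h.2 ((hUF' v).2 hvU), hβ0 v hvU,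
        sub_zero]
    · have h1 := hf'' ⟨v, hv, hvU⟩
      rw [← hβ₁, ← hβ₁] at h1
      exact h1
  refine ⟨⟨β₁, hβ₁lc⟩, fun g v hv => ?_⟩
  change D₀ (F g) (Z.FZ v) - (β₁ (Z.act (F g)⁻¹ (Z.FZ v)) - β₁ (Z.FZ v)) =
        D₀ g v - (β₁ (Z.act g⁻¹ v) - β₁ v)
  have h1 := hβ (F g) (Z.FZ v) ((hOF v).2 hv)
  rw [ContinuousMulEquiv.symm_apply_apply, Homeomorph.symm_apply_apply] at h1
  have h2 := hβ₁β (Z.FZ v) ((hOF v).2 hv)
  have h3 := hβ₁β (Z.act (F g)⁻¹ (Z.FZ v)) (hOa _ _ ((hOF v).2 hv))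
  rw [Homeomorph.symm_apply_apply] at h2
  rw [Z.FZ_symm_act, map_inv, ContinuousMulEquiv.symm_apply_apply,
    Homeomorph.symm_apply_apply] at h3
  linear_combination (-1 : ZMod p) * h1 + h3 - h2

end

variable {P : Type} [Group P] [TopologicalSpace P] [IsTopologicalGroup P] [CompactSpace P]
  [T2Space P] [TotallyDisconnectedSpace P] {F : P ≃ₜ* P} {p : ℕ} [Fact p.Prime]

/-- DONE: an invariant derivation -/
theorem exists_invariant_der (tf : ∀ u : P, u ^ p = 1 → u = 1) (hF : ∀ g, F^[p] g = g)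
    (φ ψ d : P → ZMod p) (hφ : IsHom φ) (hψ : IsHom ψ) (hd : IsLocallyConstant d)
    (hd' : ∀ g h, d (g * h) = d g + d h + (φ (F g) - φ g) * ψ h) :
    ∃ D : P → LocallyConstant (tSpace F p hF).Z (ZMod p), IsLocallyConstant D ∧
      (∀ g h v, D (g * h) v = D g v + D h ((tSpace F p hF).act g⁻¹ v)) ∧
      (∀ g v, D (F g) ((tSpace F p hF).FZ v) = D g v) ∧
      (∀ u, F u = u → D u (tOne hF) = d u) ∧
      ∀ v : (tSpace F p hF).Z, (∀ u, (tSpace F p hF).act u v = v → D u v = 0) ∨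
        (∀ u, (tSpace F p hF).act u v = v → D u v = d u + ψ u * φ v.1) := by
  classical
  have eφ1 : φ 1 = 0 := by
    have := hφ.mul 1 1
    rw [mul_one] at this
    simpa using this
  have eφi : ∀ g, φ g⁻¹ = - φ g := fun g => by
    have := hφ.mul g⁻¹ g
    rw [inv_mul_cancel, eφ1] at this
    exact eq_neg_of_add_eq_zero_left this.symm
  let Z := tSpace F p hF
  have hact : ∀ g (v : Z.Z), (Z.act g v).1 = g * v.1 * (F g)⁻¹ := fun g v => rfl
  have hFZ : ∀ v : Z.Z, (Z.FZ v).1 = F v.1 := fun v => rfl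
  let L := doneL φ ψ d hφ hd'
  let K : Subgroup P :=
    { carrier := {g | φ g = 0}
      mul_mem' := fun {a b} ha hb => by
        change φ (a * b) = 0
        rw [hφ.mul, show φ a = 0 from ha, show φ b = 0 from hb, add_zero]
      one_mem' := eφ1
      inv_mem' := fun {a} ha => by
        change φ a⁻¹ = 0
        rw [eφi, show φ a = 0 from ha, neg_zero] }
  have hKo : IsOpen (K : Set P) := hφ.lc {0}
  have hLo : IsOpen (L : Set P) := isOpen_doneL hF φ ψ d hφ hd hd'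
  obtain ⟨W, hWn, hWo, hWK, hWF, hWL⟩ := done_exists_W hF L K hLo hKo
    (fun u hu => doneL_fixed hu)
  have hLF : ∀ g, g ∈ L → F g ∈ L := doneL_stable φ ψ d hφ hd'
  have hLFi : ∀ n g, g ∈ L → F^[n] g ∈ L := by
    intro n
    induction n with
    | zero => exact fun g hg => hg
    | succ n ih =>
      intro g hg
      rw [Function.iterate_succ_apply]
      exact ih _ (hLF g hg)
  have hp : 0 < p := (Fact.out : p.Prime).pos
  have hLF' : ∀ g, F g ∈ L → g ∈ L := by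
    intro g hg
    have h1 := hLFi (p - 1) _ hg
    rwa [← Function.iterate_succ_apply, Nat.succ_eq_add_one, Nat.sub_add_cancel hp, hF] at h1
  let U₀ : Set Z.Z := {v | v.1 ∈ W}
  have hWc : IsClopen (W : Set P) := ⟨Subgroup.isClosed_of_isOpen W hWo, hWo⟩
  have hU₀ : IsClopen U₀ := hWc.preimage continuous_subtype_val
  let U : Set Z.Z := {v | ∃ l ∈ L, Z.act l v ∈ U₀}
  let O : Set Z.Z := {v | ∃ l ∈ (⊤ : Subgroup P), Z.act l v ∈ U₀}
  have hU : IsClopen U := done_clopen Z L hLo U₀ hU₀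
  have hO : IsClopen O := done_clopen Z ⊤ isOpen_univ U₀ hU₀
  have hUO : U ⊆ O := fun v ⟨l, _, h⟩ => ⟨l, Subgroup.mem_top l, h⟩
  have hOa : ∀ g v, v ∈ O → Z.act g v ∈ O := by
    rintro g v ⟨l, _, h⟩
    exact ⟨l * g⁻¹, Subgroup.mem_top _, by rwa [Z.act_mul, Z.act_inv_act]⟩
  have hOU : ∀ v ∈ O, ∃ g, Z.act g v ∈ U := by
    rintro v ⟨l, _, h⟩
    exact ⟨l, 1, one_mem _, by rwa [Z.act_one]⟩
  have hkey : ∀ g v, v ∈ U → Z.act g v ∈ U → g ∈ L := by
    rintro g v ⟨l, hl, h⟩ ⟨l', hl', h'⟩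
    -- `w = l v`, `η = l' g l⁻¹`
    have h1 : (l' * g * l⁻¹) * (Z.act l v).1 * (F (l' * g * l⁻¹))⁻¹ ∈ W := by
      have : Z.act (l' * g * l⁻¹) (Z.act l v) ∈ U₀ := by
        rw [← Z.act_mul, inv_mul_cancel_right, Z.act_mul]
        exact h'
      exact this
    set η := l' * g * l⁻¹ with hη
    have h2 : η * (F η)⁻¹ ∈ W := by
      have h3 : η * (F η)⁻¹ = (η * (Z.act l v).1 * η⁻¹)⁻¹ * (η * (Z.act l v).1 * (F η)⁻¹) := by
        group
      rw [h3]
      exact mul_mem (inv_mem (hWn.conj_mem _ h η)) h1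
    have h4 : η⁻¹ ∈ L := by
      apply hWL
      rw [inv_inv, map_inv]
      exact h2
    have h5 : g = l'⁻¹ * η * l := by
      rw [hη]
      group
    rw [h5]
    exact mul_mem (mul_mem (inv_mem hl') ((inv_mem_iff).1 h4)) hl
  have hFact : ∀ g v, Z.FZ (Z.act g v) = Z.act (F g) (Z.FZ v) := Z.FZ_act
  have hU₀F : ∀ v, Z.FZ v ∈ U₀ ↔ v ∈ U₀ := fun v => hWF v.1
  have hUF : ∀ v, Z.FZ v ∈ U ↔ v ∈ U := by
    intro v
    constructor
    · rintro ⟨l, hl, h⟩
      refine ⟨F.symm l, hLF' _ (by rwa [ContinuousMulEquiv.apply_symm_apply]), ?_⟩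
      rw [← hU₀F, hFact, ContinuousMulEquiv.apply_symm_apply]
      exact h
    · rintro ⟨l, hl, h⟩
      refine ⟨F l, hLF l hl, ?_⟩
      rw [← hFact, hU₀F]
      exact h
  have hOF : ∀ v, Z.FZ v ∈ O ↔ v ∈ O := by
    intro v
    constructor
    · rintro ⟨l, hl, h⟩
      refine ⟨F.symm l, Subgroup.mem_top _, ?_⟩
      rw [← hU₀F, hFact, ContinuousMulEquiv.apply_symm_apply]
      exact h
    · rintro ⟨l, hl, h⟩
      refine ⟨F l, Subgroup.mem_top _, ?_⟩
      rw [← hFact, hU₀F]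
      exact h
  have hnvfix : ∀ (n : ℕ) (v : P), F v = v → nv F n v = v ^ n := by
    intro n v hv
    induction n with
    | zero => rw [pow_zero]; rfl
    | succ n ih => rw [nv_succ, ih, map_pow, hv, pow_succ']
  have hfix : ∀ v, Z.FZ v = v → v ∈ O → v ∈ U := by
    intro v hv _
    have h1 : F v.1 = v.1 := congrArg Subtype.val hv
    have h2 : v.1 = 1 := tf _ (by rw [← hnvfix p v.1 h1]; exact v.2)
    refine ⟨1, one_mem _, ?_⟩
    rw [Z.act_one]
    change v.1 ∈ W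
    rw [h2]
    exact one_mem _
  have hφU : ∀ v ∈ U, φ v.1 = 0 := by
    rintro v ⟨l, hl, h⟩
    have h1 : φ (l * v.1 * (F l)⁻¹) = 0 := hWK h
    rw [hφ.mul, hφ.mul, eφi, show φ (F l) = φ l from (hl 1).1] at h1
    linear_combination h1
  -- the derivation `D₀`
  let D₀ : P → Z.Z → ZMod p := fun g v => d g + ψ g * φ v.1
  have hφact : ∀ g (v : Z.Z), φ (Z.act g⁻¹ v).1 = φ v.1 + (φ (F g) - φ g) := by
    intro g v
    rw [hact, hφ.mul, hφ.mul, eφi, eφi, map_inv, eφi]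
    ring
  have hD₀ : ∀ g h v, D₀ (g * h) v = D₀ g v + D₀ h (Z.act g⁻¹ v) := by
    intro g h v
    change d (g * h) + ψ (g * h) * φ v.1 = d g + ψ g * φ v.1 + (d h + ψ h * φ (Z.act g⁻¹ v).1)
    rw [hφact, hd', hψ.mul]
    ring
  have hφv : IsLocallyConstant fun v : Z.Z => φ v.1 :=
    hφ.lc.comp_continuous continuous_subtype_val
  have hlc : ∀ g, IsLocallyConstant (D₀ g) := fun g =>
    hφv.comp fun a => d g + ψ g * a
  have hE0 : ∀ l ∈ L, ∀ u ∈ U, D₀ (F.symm l) (Z.FZ.symm u) = D₀ l u := by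
    intro l hl u hu
    have h1 : Z.FZ.symm u ∈ U := by
      rw [← hUF, Homeomorph.apply_symm_apply]
      exact hu
    have h2 : F.symm l ∈ L := hLF' _ (by rwa [ContinuousMulEquiv.apply_symm_apply])
    have h3 : d (F (F.symm l)) = d (F.symm l) := (h2 1).2
    change d (F.symm l) + ψ (F.symm l) * φ (Z.FZ.symm u).1 = d l + ψ l * φ u.1
    rw [hφU _ h1, hφU _ hu, mul_zero, mul_zero, ← h3, ContinuousMulEquiv.apply_symm_apply]
  obtain ⟨β', hβ'⟩ := done_invariant hF Z L U O hU hO hUO hOa hOU hkey hUF hOF hfix D₀ hD₀ hlc hE0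
  have hOa' : ∀ g v, Z.act g v ∈ O ↔ v ∈ O := fun g v =>
    ⟨fun h => by
      have := hOa g⁻¹ _ h
      rwa [Z.act_inv_act] at this, hOa g v⟩
  -- the combination
  let G : ZMod p × ZMod p × LocallyConstant Z.Z (ZMod p) → LocallyConstant Z.Z (ZMod p) :=
    fun q => ⟨fun v => if v ∈ O then q.1 + q.2.1 * φ v.1 - (q.2.2 v - β' v) else 0, by
      rw [IsLocallyConstant.iff_eventually_eq]
      intro v
      have h1 := hφv.eventually_eq v
      have h2 := q.2.2.isLocallyConstant.eventually_eq v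
      have h3 := β'.isLocallyConstant.eventually_eq v
      by_cases hv : v ∈ O
      · filter_upwards [h1, h2, h3, hO.isOpen.mem_nhds hv] with w e1 e2 e3 e4
        rw [if_pos e4, if_pos hv, e1]
        congr 2
      · filter_upwards [hO.compl.isOpen.mem_nhds hv] with w e4
        rw [if_neg e4, if_neg hv]⟩
  have hG : ∀ q v, G q v = if v ∈ O then q.1 + q.2.1 * φ v.1 - (q.2.2 v - β' v) else 0 :=
    fun q v => rfl
  let D : P → LocallyConstant Z.Z (ZMod p) := fun g => G (d g, ψ g, (cMod hF).ρ g β')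
  have hDv : ∀ g v, D g v = if v ∈ O then D₀ g v - (β' (Z.act g⁻¹ v) - β' v) else 0 :=
    fun g v => rfl
  have hDstab : ∀ u v, v ∈ O → Z.act u v = v → D u v = D₀ u v := by
    intro u v hv h
    have h1 : Z.act u⁻¹ v = v := by
      conv_lhs => rw [← h]
      exact Z.act_inv_act u v
    rw [hDv, if_pos hv, h1, sub_self, sub_zero]
  refine ⟨D, ?_, ?_, ?_, ?_, ?_⟩
  · exact (hd.prodMk (hψ.lc.prodMk (done_smooth_lc (cMod hF).smooth β'))).comp G
  · intro g h v
    rw [hDv, hDv, hDv]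
    change _ = _ + if Z.act g⁻¹ v ∈ O then _ else _
    simp only [hOa']
    by_cases hv : v ∈ O
    · rw [if_pos hv, if_pos hv, if_pos hv, hD₀, mul_inv_rev, Z.act_mul]
      change _ = _ + (D₀ h (Z.act g⁻¹ v) - (β' (Z.act h⁻¹ (Z.act g⁻¹ v)) - β' (Z.act g⁻¹ v)))
      ring
    · rw [if_neg hv, if_neg hv, if_neg hv, add_zero]
  · intro g v
    rw [hDv, hDv]
    change (if Z.FZ v ∈ O then _ else _) = _
    by_cases hv : v ∈ O
    · rw [if_pos ((hOF v).2 hv), if_pos hv]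
      exact hβ' g v hv
    · rw [if_neg (fun h => hv ((hOF v).1 h)), if_neg hv]
  · intro u hu
    have h1 : tOne hF ∈ O := ⟨1, Subgroup.mem_top _, by
      rw [Z.act_one]
      exact one_mem W⟩
    have h2 : Z.act u (tOne hF) = tOne hF := Subtype.ext (by
      rw [hact, hu]
      change u * 1 * u⁻¹ = 1
      group)
    rw [hDstab u _ h1 h2]
    change d u + ψ u * φ 1 = d u
    rw [eφ1, mul_zero, add_zero]
  · intro v
    by_cases hv : v ∈ O
    · right
      intro u hu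
      exact hDstab u v hv hu
    · left
      intro u _
      rw [hDv]
      exact if_neg hv

end Pool.Agent.GTT
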