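import Pool.Agent.Lib.MP_2cc432_al.CT
import Pool.Agent.Lib.MP_2cc432_al.LG
import Pool.Agent.Lib.MP_2cc432_al.TF
import Pool.Agent.Lib.MP_2cc432_al.Core

/-!
# The key identity
-/

open Filter Topology Finset

set_option linter.unusedSectionVars false

namespace Pool.Agent.GTT

variable {P : Type} [Group P] [TopologicalSpace P] [IsTopologicalGroup P] [CompactSpace P]
  [T2Space P] [TotallyDisconnectedSpace P] {F : P ≃ₜ* P} {p : ℕ}

/-! ### Generalities -/

theorem ki_nrm_apply {X : Type} [AddCommGroup X] (Φ : AddMonoid.End X) (x : X) :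
    nrm p Φ x = ∑ i ∈ range p, (Φ ^ i) x := rfl

/-- norms are compatible with equivariant maps -/
theorem ki_map_nrm {X X' : Type} [AddCommGroup X] [AddCommGroup X'] (Φ : AddMonoid.End X)
    (Φ' : AddMonoid.End X') (q : X →+ X') (h : ∀ x, q (Φ x) = Φ' (q x)) (x : X) :
    q (nrm p Φ x) = nrm p Φ' (q x) := by
  have hp : ∀ n : ℕ, ∀ x, q ((Φ ^ n) x) = (Φ' ^ n) (q x) := by
    intro n
    induction n with
    | zero => intro x; rfl
    | succ n ih =>
      intro x
      rw [pow_succ', pow_succ', AddMonoid.End.coe_mul, AddMonoid.End.coe_mul,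
        Function.comp_apply, Function.comp_apply, h, ih]
  rw [ki_nrm_apply, ki_nrm_apply, map_sum]
  exact sum_congr rfl fun i _ => hp i x

theorem ki_nv_mul (u v : P) (h : u * v = v * F u) (n : ℕ) :
    nv F n (u * v) = u ^ n * nv F n v := by
  induction n with
  | zero => simp [nv]
  | succ n ih =>
    have h1 : ∀ m : ℕ, v * F u ^ m = u ^ m * v := by
      intro m
      induction m with
      | zero => simp
      | succ m ihm =>
        rw [pow_succ, ← mul_assoc, ihm, mul_assoc, ← h, ← mul_assoc, ← pow_succ]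
    rw [nv_succ, ih, map_mul, map_pow, nv_succ, pow_succ', mul_assoc u, ← mul_assoc v, h1]
    simp only [mul_assoc]

/-! ### The homeomorphism `w ↦ v F(w) F(v)⁻¹` -/

section

variable (hF : ∀ g, F^[p] g = g)

/-- the homeomorphism given by the element `v F` -/
def kiσ (v : P) : (tSpace F p hF).Z ≃ₜ (tSpace F p hF).Z where
  toFun w := (tSpace F p hF).act v ((tSpace F p hF).FZ w)
  invFun w := (tSpace F p hF).FZ.symm ((tSpace F p hF).act v⁻¹ w)
  left_inv w := by
    beta_reduce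
    rw [FSpace.act_inv_act, Homeomorph.symm_apply_apply]
  right_inv w := by
    beta_reduce
    rw [Homeomorph.apply_symm_apply, FSpace.act_act_inv]
  continuous_toFun := ((tSpace F p hF).cont_right v).comp (tSpace F p hF).FZ.continuous
  continuous_invFun := (tSpace F p hF).FZ.symm.continuous.comp ((tSpace F p hF).cont_right v⁻¹)

theorem kiσ_apply (v : P) (w : (tSpace F p hF).Z) :
    kiσ hF v w = (tSpace F p hF).act v ((tSpace F p hF).FZ w) := rfl

theorem kiσ_symm_apply (v : P) (w : (tSpace F p hF).Z) :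
    (kiσ hF v).symm w = (tSpace F p hF).FZ.symm ((tSpace F p hF).act v⁻¹ w) := rfl

theorem kiσ_iterate (v : P) (n : ℕ) (w : (tSpace F p hF).Z) :
    (kiσ hF v)^[n] w = (tSpace F p hF).act (nv F n v) ((tSpace F p hF).FZ^[n] w) := by
  induction n with
  | zero => exact ((tSpace F p hF).act_one w).symm
  | succ n ih =>
    rw [Function.iterate_succ_apply', ih, kiσ_apply, FSpace.FZ_act, ← FSpace.act_mul,
      ← nv_succ, ← Function.iterate_succ_apply' (tSpace F p hF).FZ]

theorem tSpace_act_val (g : P) (w : (tSpace F p hF).Z) :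
    ((tSpace F p hF).act g w).1 = g * w.1 * (F g)⁻¹ := rfl

theorem tSpace_FZ_val (w : (tSpace F p hF).Z) : ((tSpace F p hF).FZ w).1 = F w.1 := rfl

theorem tSpace_FZ_symm_val (w : (tSpace F p hF).Z) :
    ((tSpace F p hF).FZ.symm w).1 = F.symm w.1 := rfl

theorem kiσ_pow {v : P} (hv : nv F p v = 1) (w : (tSpace F p hF).Z) :
    (kiσ hF v)^[p] w = w := by
  rw [kiσ_iterate, hv, FSpace.act_one, FSpace.FZ_pow]

theorem kiσ_symm_pow {v : P} (hv : nv F p v = 1) (w : (tSpace F p hF).Z) :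
    (kiσ hF v).symm^[p] w = w := by
  have h1 := kiσ_pow hF hv ((kiσ hF v).symm^[p] w)
  have h2 : (kiσ hF v)^[p] ((kiσ hF v).symm^[p] w) = w :=
    Function.LeftInverse.iterate (fun z => (kiσ hF v).apply_symm_apply z) p w
  rw [← h1, h2]

/-- `v F` fixes the point `v` -/
theorem kiσ_self {v : P} (hv : nv F p v = 1) : kiσ hF v ⟨v, hv⟩ = ⟨v, hv⟩ :=
  Subtype.ext (mul_inv_cancel_right v (F v))

/-- `v F` has no other fixed point -/
theorem kiσ_fix (tf : ∀ u : P, u ^ p = 1 → u = 1) {v : P} (hv : nv F p v = 1)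
    (w : (tSpace F p hF).Z) (hw : kiσ hF v w = w) : w = ⟨v, hv⟩ := by
  have h1 : v * F w.1 * (F v)⁻¹ = w.1 := congrArg Subtype.val hw
  have h2 : v * F w.1 = w.1 * F v := by
    have h := congrArg (fun a => a * F v) h1
    simpa using h
  have h3 : w.1 * v⁻¹ * v = v * F (w.1 * v⁻¹) := by
    rw [map_mul, map_inv, ← mul_assoc, h2, mul_inv_cancel_right, inv_mul_cancel_right]
  have h4 := ki_nv_mul (w.1 * v⁻¹) v h3 p
  rw [inv_mul_cancel_right, w.2, hv, mul_one] at h4
  have h5 := tf _ h4.symm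
  exact Subtype.ext (by rw [← inv_mul_cancel_right w.1 v, h5, one_mul])

/-! ### The module of functions -/

/-- the value of a function at a point -/
def kiv (f : (cMod (F := F) hF).T) (z : (tSpace F p hF).Z) : ZMod p :=
  (show LocallyConstant (tSpace F p hF).Z (ZMod p) from f) z

theorem kiv_ext {f g : (cMod (F := F) hF).T} (h : ∀ z, kiv hF f z = kiv hF g z) : f = g :=
  LocallyConstant.ext h

theorem kiv_add (f g : (cMod (F := F) hF).T) (z : (tSpace F p hF).Z) :
    kiv hF (f + g) z = kiv hF f z + kiv hF g z := rfl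

theorem kiv_sub (f g : (cMod (F := F) hF).T) (z : (tSpace F p hF).Z) :
    kiv hF (f - g) z = kiv hF f z - kiv hF g z := rfl

theorem kiv_neg (f : (cMod (F := F) hF).T) (z : (tSpace F p hF).Z) :
    kiv hF (-f) z = -kiv hF f z := rfl

theorem kiv_ρ (g : P) (f : (cMod (F := F) hF).T) (z : (tSpace F p hF).Z) :
    kiv hF ((cMod hF).ρ g f) z = kiv hF f ((tSpace F p hF).act g⁻¹ z) := rfl

theorem kiv_Φ (f : (cMod (F := F) hF).T) (z : (tSpace F p hF).Z) :
    kiv hF ((cMod hF).Φ f) z = kiv hF f ((tSpace F p hF).FZ.symm z) := rfl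

/-- evaluation at a point as a homomorphism -/
def kiev (z : (tSpace F p hF).Z) : (cMod (F := F) hF).T →+ ZMod p where
  toFun f := kiv hF f z
  map_zero' := rfl
  map_add' _ _ := rfl

/-- the constant functions -/
def kiA : AddSubgroup (cMod (F := F) hF).T where
  carrier := {f | ∃ c : ZMod p, ∀ z, kiv hF f z = c}
  add_mem' := by
    rintro a b ⟨c, hc⟩ ⟨d, hd⟩
    exact ⟨c + d, fun z => by rw [kiv_add, hc, hd]⟩
  zero_mem' := ⟨0, fun z => rfl⟩
  neg_mem' := by
    rintro a ⟨c, hc⟩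
    exact ⟨-c, fun z => by rw [kiv_neg, hc]⟩

theorem mem_kiA (f : (cMod (F := F) hF).T) : f ∈ kiA hF ↔ ∃ c : ZMod p, ∀ z, kiv hF f z = c :=
  Iff.rfl

theorem kiA_ρ (g : P) (f : (cMod (F := F) hF).T) (hf : f ∈ kiA hF) :
    (cMod hF).ρ g f ∈ kiA hF := by
  obtain ⟨c, hc⟩ := hf
  exact ⟨c, fun z => by rw [kiv_ρ, hc]⟩

theorem kiA_Φ (f : (cMod (F := F) hF).T) (hf : f ∈ kiA hF) : (cMod hF).Φ f ∈ kiA hF := by
  obtain ⟨c, hc⟩ := hf
  exact ⟨c, fun z => by rw [kiv_Φ, hc]⟩

/-- functions modulo constants -/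
def kiJ : FMod P F p := (cMod hF).quot (kiA hF) (kiA_ρ hF) (kiA_Φ hF)

/-- the projection -/
def kiq : (cMod (F := F) hF).T →+ (kiJ (F := F) hF).T := QuotientAddGroup.mk' (kiA hF)

theorem kiq_surj : Function.Surjective (kiq (F := F) hF) := QuotientAddGroup.mk'_surjective _

theorem kiq_eq_zero (f : (cMod (F := F) hF).T) : kiq hF f = 0 ↔ f ∈ kiA hF :=
  QuotientAddGroup.eq_zero_iff f

theorem kiq_ρ (g : P) (f : (cMod (F := F) hF).T) :
    kiq hF ((cMod hF).ρ g f) = (kiJ hF).ρ g (kiq hF f) := rfl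

theorem kiq_Φ (f : (cMod (F := F) hF).T) :
    kiq hF ((cMod hF).Φ f) = (kiJ hF).Φ (kiq hF f) := rfl

/-- the action of `v F` on functions -/
def kiS (v : P) : AddMonoid.End (cMod (F := F) hF).T := (cMod hF).ρ v * (cMod hF).Φ

theorem kiv_S (v : P) (f : (cMod (F := F) hF).T) (z : (tSpace F p hF).Z) :
    kiv hF (kiS hF v f) z = kiv hF f ((kiσ hF v).symm z) := rfl

theorem kiv_S_pow (v : P) (n : ℕ) (f : (cMod (F := F) hF).T) (z : (tSpace F p hF).Z) :
    kiv hF ((kiS hF v ^ n) f) z = kiv hF f ((kiσ hF v).symm^[n] z) := by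
  induction n generalizing f z with
  | zero => rfl
  | succ n ih =>
    rw [pow_succ', AddMonoid.End.coe_mul, Function.comp_apply, kiv_S, ih,
      Function.iterate_succ_apply]

end

section

variable [Fact p.Prime] (hF : ∀ g, F^[p] g = g)

/-- functions modulo constants are cohomologically trivial -/
theorem kiJ_sfree (tf : ∀ u : P, u ^ p = 1 → u = 1) : (kiJ (F := F) hF).SFree := by
  intro v hv x hx
  obtain ⟨f, rfl⟩ := kiq_surj hF x
  have hx' : kiq hF (kiS hF v f) = kiq hF f := hx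
  have h1 : kiS hF v f - f ∈ kiA hF := by
    rw [← kiq_eq_zero, map_sub, hx', sub_self]
  obtain ⟨c, hc⟩ := h1
  have hfixsymm : (kiσ hF v).symm ⟨v, hv⟩ = ⟨v, hv⟩ := by
    rw [Homeomorph.symm_apply_eq, kiσ_self hF hv]
  have hc0 : c = 0 := by
    rw [← hc ⟨v, hv⟩, kiv_sub, kiv_S, hfixsymm, sub_self]
  have hS : kiS hF v f = f := by
    apply kiv_ext
    intro z
    have h2 := hc z
    rw [hc0, kiv_sub, sub_eq_zero] at h2
    exact h2
  -- subtract the value at the fixed point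
  have hgc : ∃ g : (cMod (F := F) hF).T, ∀ z, kiv hF g z = kiv hF f ⟨v, hv⟩ :=
    ⟨(LocallyConstant.const _ (kiv hF f ⟨v, hv⟩) :
      LocallyConstant (tSpace F p hF).Z (ZMod p)), fun z => rfl⟩
  obtain ⟨g, hg⟩ := hgc
  have hSf1 : kiS hF v (f - g) = f - g := by
    rw [map_sub, hS]
    congr 1
    apply kiv_ext
    intro z
    rw [kiv_S, hg, hg]
  have hpow : kiS hF v ^ p = 1 := by
    ext f'
    apply kiv_ext
    intro z
    rw [kiv_S_pow, kiσ_symm_pow hF hv]
    rfl
  have hex : ∃ f' : (cMod (F := F) hF).T, nrm p (kiS hF v) f' = f - g := local_global (p := p) (B := (tSpace F p hF).Z) (T := ZMod p)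
    (kiσ hF v) (kiσ_pow hF hv) (fun _ => 1) (fun t => IsLocallyConstant.const _) (kiS hF v)
    (fun f z => kiv_S hF v f z) hpow (f - g) hSf1 (fun b hb => by
      refine ⟨0, ?_⟩
      rw [kiσ_fix hF tf hv b hb]
      have h3 : kiv hF (f - g) ⟨v, hv⟩ = 0 := by
        rw [kiv_sub, hg, sub_self]
      have h4 : nrm p (1 : AddMonoid.End (ZMod p)) 0 = 0 := by
        rw [ki_nrm_apply]
        exact sum_eq_zero fun i _ => map_zero _
      rw [h4]
      exact h3.symm)
  obtain ⟨f', hf'⟩ := hex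
  refine ⟨kiq hF f', ?_⟩
  have h5 : kiq hF (nrm p (kiS hF v) f') = nrm p ((kiJ hF).ρ v * (kiJ hF).Φ) (kiq hF f') :=
    ki_map_nrm (kiS hF v) _ (kiq hF) (fun x => rfl) f'
  rw [← h5, hf', map_sub, sub_eq_self, kiq_eq_zero]
  exact ⟨_, hg⟩

theorem kiv_derΦ (δ : (cMod (F := F) hF).Der) (g : P) (z : (tSpace F p hF).Z) :
    kiv hF (((cMod hF).derΦ δ).1 g) z =
      kiv hF (δ.1 (F.symm g)) ((tSpace F p hF).FZ.symm z) := rfl

theorem kiv_derΦ_pow (n : ℕ) (δ : (cMod (F := F) hF).Der) (g : P) (z : (tSpace F p hF).Z) :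
    kiv hF ((((cMod hF).derΦ ^ n) δ).1 g) z =
      kiv hF (δ.1 (F.symm^[n] g)) ((tSpace F p hF).FZ.symm^[n] z) := by
  induction n generalizing g z with
  | zero => rfl
  | succ n ih =>
    rw [pow_succ', AddMonoid.End.coe_mul, Function.comp_apply, kiv_derΦ, ih,
      Function.iterate_succ_apply, Function.iterate_succ_apply]

include hF in
theorem ki_symm_pow (g : P) : F.symm^[p] g = g := by
  have h1 := hF (F.symm^[p] g)
  have h2 : F^[p] (F.symm^[p] g) = g :=
    Function.LeftInverse.iterate (fun z => F.apply_symm_apply z) p g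
  rw [← h1, h2]

theorem ki_der_pow : (cMod (F := F) hF).derΦ ^ p = 1 := by
  ext δ g
  apply kiv_ext
  intro z
  rw [kiv_derΦ_pow, ki_symm_pow hF, FSpace.FZ_symm_pow]
  rfl

/-- derivations at points of the stabilizer -/
theorem kiv_der_step (δ : (cMod (F := F) hF).Der) (u : P) (v : (tSpace F p hF).Z)
    (huv : (tSpace F p hF).act u v = v) :
    kiv hF (δ.1 (F.symm u)) ((tSpace F p hF).FZ.symm v) = kiv hF (δ.1 u) v := by
  set w := (tSpace F p hF).FZ.symm v with hw
  have hmul : ∀ g h z, kiv hF (δ.1 (g * h)) z =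
      kiv hF (δ.1 g) z + kiv hF (δ.1 h) ((tSpace F p hF).act g⁻¹ z) := by
    intro g h z
    rw [δ.2.mul, kiv_add, kiv_ρ]
  have h1 : (tSpace F p hF).act (F.symm u) w = w := by
    rw [hw, ← FSpace.FZ_symm_act, huv]
  have h1' : (tSpace F p hF).act (F.symm u)⁻¹ w = w := by
    have h := (tSpace F p hF).act_inv_act (F.symm u) w
    rw [h1] at h
    exact h
  have h2 : (tSpace F p hF).act (w.1)⁻¹ w = v := by
    apply Subtype.ext
    rw [tSpace_act_val, map_inv, inv_inv, inv_mul_cancel, one_mul, hw, tSpace_FZ_symm_val,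
      ContinuousMulEquiv.apply_symm_apply]
  have h3 : F.symm u * w.1 = w.1 * u := by
    have h4 : u * v.1 * (F u)⁻¹ = v.1 := congrArg Subtype.val huv
    have h5 : u * v.1 = v.1 * F u := by
      have h := congrArg (fun a => a * F u) h4
      simpa using h
    have h6 := congrArg F.symm h5
    rw [map_mul, map_mul, ContinuousMulEquiv.symm_apply_apply] at h6
    exact h6
  have h7 : kiv hF (δ.1 (F.symm u * w.1)) w = kiv hF (δ.1 (w.1 * u)) w := by rw [h3]
  rw [hmul, hmul, h1', h2, add_comm] at h7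
  exact add_left_cancel h7

theorem kiv_der_iter (δ : (cMod (F := F) hF).Der) (n : ℕ) (u : P) (v : (tSpace F p hF).Z)
    (huv : (tSpace F p hF).act u v = v) :
    kiv hF (δ.1 (F.symm^[n] u)) ((tSpace F p hF).FZ.symm^[n] v) = kiv hF (δ.1 u) v := by
  induction n generalizing u v with
  | zero => rfl
  | succ n ih =>
    rw [Function.iterate_succ_apply, Function.iterate_succ_apply, ih]
    · exact kiv_der_step hF δ u v huv
    · rw [← FSpace.FZ_symm_act, huv]

/-- norms of derivations vanish on stabilizers -/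
theorem kiv_nrm (δ : (cMod (F := F) hF).Der) (u : P) (v : (tSpace F p hF).Z)
    (huv : (tSpace F p hF).act u v = v) :
    kiv hF ((nrm p (cMod hF).derΦ δ).1 u) v = 0 := by
  have h1 : kiv hF ((nrm p (cMod hF).derΦ δ).1 u) v =
      ∑ i ∈ range p, kiv hF ((((cMod hF).derΦ ^ i) δ).1 u) v := by
    rw [ki_nrm_apply]
    let E : (cMod (F := F) hF).Der →+ ZMod p :=
      { toFun := fun δ => kiv hF (δ.1 u) v
        map_zero' := rfl
        map_add' := fun _ _ => rfl }
    exact map_sum E _ _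
  rw [h1]
  have h2 : ∀ i ∈ range p, kiv hF ((((cMod hF).derΦ ^ i) δ).1 u) v = kiv hF (δ.1 u) v := by
    intro i _
    rw [kiv_derΦ_pow, kiv_der_iter hF δ i u v huv]
  rw [sum_congr rfl h2, sum_const, card_range, nsmul_eq_mul, CharP.cast_eq_zero, zero_mul]

end

/-- KI: the key identity -/
theorem key_identity [Fact p.Prime] (hL : DerLift P p) (tr : Tree P p) (hF : ∀ g, F^[p] g = g)
    (D : P → LocallyConstant (tSpace F p hF).Z (ZMod p)) (hlc : IsLocallyConstant D)
    (hD : ∀ g h v, D (g * h) v = D g v + D h ((tSpace F p hF).act g⁻¹ v))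
    (hDF : ∀ g v, D (F g) ((tSpace F p hF).FZ v) = D g v) :
    ∃ δ : P → ZMod p, IsHom δ ∧ (∀ g, δ (F g) = δ g) ∧
      ∀ (u : P) (v : (tSpace F p hF).Z), (tSpace F p hF).act u v = v → δ u = D u v := by
  have tf : ∀ u : P, u ^ p = 1 → u = 1 := fun u hu => torsion_free tr u hu
  -- the derivation
  have hDer : IsDer (cMod hF).ρ (fun g => (D g : (cMod hF).T)) :=
    ⟨fun g h => kiv_ext hF fun z => hD g h z, hlc⟩
  let D₀ : (cMod (F := F) hF).Der := ⟨fun g => D g, hDer⟩
  have hD₀ : ∀ g z, kiv hF (D₀.1 g) z = D g z := fun _ _ => rfl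
  have hD₀inv : (cMod hF).derΦ D₀ = D₀ := by
    apply Subtype.ext
    funext g
    apply kiv_ext
    intro z
    rw [kiv_derΦ, hD₀, hD₀]
    have h := hDF (F.symm g) ((tSpace F p hF).FZ.symm z)
    rw [ContinuousMulEquiv.apply_symm_apply, Homeomorph.apply_symm_apply] at h
    exact h.symm
  -- its image modulo constants
  have hbar : IsDer (kiJ hF).ρ (fun g => kiq hF (D₀.1 g)) :=
    ⟨fun g h => by rw [D₀.2.mul, map_add, kiq_ρ], D₀.2.lc.comp (kiq hF)⟩
  let Dbar : (kiJ (F := F) hF).Der := ⟨fun g => kiq hF (D₀.1 g), hbar⟩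
  have hbarinv : (kiJ hF).derΦ Dbar = Dbar := by
    apply Subtype.ext
    funext g
    have h := congrArg (fun d => kiq hF (d.1 g)) hD₀inv
    exact h
  obtain ⟨E, hE⟩ := core hL tr hF (kiJ hF) (kiJ_sfree hF tf) Dbar hbarinv
  obtain ⟨D', hD', hqD'⟩ := hL (cMod (F := F) hF).T (kiJ (F := F) hF).T (cMod hF).ρ (kiJ hF).ρ
    (kiq hF) (cMod hF).tors (cMod hF).smooth (kiJ hF).smooth (kiq_surj hF)
    (fun g t => kiq_ρ hF g t) E.1 E.2
  let D1 : (cMod (F := F) hF).Der := ⟨D', hD'⟩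
  -- the projection on derivations
  let Q : (cMod (F := F) hF).Der →+ (kiJ (F := F) hF).Der :=
    { toFun := fun d => ⟨fun g => kiq hF (d.1 g),
        ⟨fun g h => by rw [d.2.mul, map_add, kiq_ρ], d.2.lc.comp (kiq hF)⟩⟩
      map_zero' := rfl
      map_add' := fun _ _ => rfl }
  have hQD1 : Q D1 = E := Subtype.ext (funext hqD')
  have hQN : Q (nrm p (cMod hF).derΦ D1) = Dbar := by
    rw [ki_map_nrm (cMod hF).derΦ (kiJ hF).derΦ Q (fun x => rfl), hQD1, hE]
  set E1 : (cMod (F := F) hF).Der := D₀ - nrm p (cMod hF).derΦ D1 with hE1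
  have hE1q : ∀ g, kiq hF (E1.1 g) = 0 := by
    intro g
    have h : Q E1 = 0 := by
      rw [hE1, map_sub, hQN]
      exact sub_self Dbar
    exact congrFun (congrArg Subtype.val h) g
  have hE1c : ∀ g, ∃ c : ZMod p, ∀ z, kiv hF (E1.1 g) z = c := fun g =>
    (kiq_eq_zero hF _).1 (hE1q g)
  choose δ hδ using hE1c
  have hE1inv : (cMod hF).derΦ E1 = E1 := by
    rw [hE1, map_sub, hD₀inv, nrm_invariant _ (ki_der_pow hF)]
  refine ⟨δ, ⟨?_, ?_⟩, ?_, ?_⟩
  · intro g h
    rw [← hδ (g * h) (tOne hF), E1.2.mul, kiv_add, kiv_ρ, hδ, hδ]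
  · have h : δ = fun g => kiv hF (E1.1 g) (tOne hF) := by
      funext g
      rw [hδ]
    rw [h]
    exact E1.2.lc.comp fun f => kiv hF f (tOne hF)
  · intro g
    have h : kiv hF (((cMod hF).derΦ E1).1 (F g)) (tOne hF) = kiv hF (E1.1 (F g)) (tOne hF) := by
      rw [hE1inv]
    rw [kiv_derΦ, hδ, hδ, ContinuousMulEquiv.symm_apply_apply] at h
    exact h.symm
  · intro u v huv
    have h : kiv hF (E1.1 u) v = kiv hF (D₀.1 u) v -
        kiv hF ((nrm p (cMod hF).derΦ D1).1 u) v := rfl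
    rw [hδ, kiv_nrm hF D1 u v huv, sub_zero, hD₀] at h
    exact h

end Pool.Agent.GTT
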