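import Pool.Agent.Lib.MP_2cc432_al.CuspA
import Pool.Agent.Lib.MP_2cc432_al.DL
import Pool.Agent.Lib.MP_2cc432_al.TreeM
import Pool.Agent.Lib.MP_2cc432_al.TF
import Pool.Agent.Lib.MP_2cc432_al.KI
import Pool.Agent.Lib.MP_2cc432_al.DOne
import Pool.Agent.Lib.MP_2cc432_al.PD

/-!
# CUSP: unramified homomorphisms are invariant
-/

open Filter Topology Finset

namespace Pool.Agent.GTT

/-- CUSP -/
theorem unram_invariant {𝔽 : Type} [Group 𝔽] [TopologicalSpace 𝔽] [IsTopologicalGroup 𝔽]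
    [CompactSpace 𝔽] [T2Space 𝔽] [TotallyDisconnectedSpace 𝔽] {x y : 𝔽} {p : ℕ} [Fact p.Prime]
    (h : FreeProf 𝔽 x y) (F : 𝔽 ≃ₜ* 𝔽) (hF : ∀ g, F^[p] g = g)
    (hx : F x = x) (b c : 𝔽) (hb : b * F y * b⁻¹ = y) (hbN : nv F p b = 1)
    (hc : c * F (x * y) * c⁻¹ = x * y) (hcN : nv F p c = 1)
    (V : Subgroup 𝔽) [V.Normal] (hV : IsOpen (V : Set 𝔽)) (hVF : ∀ g, F g ∈ V ↔ g ∈ V)
    (φ : V → ZMod p) (hφ : IsHom φ) (hur : Unram x y V φ) (v : V) :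
    φ (resF F V hVF v) = φ v := by
  classical
  have : CompactSpace V := isCompact_iff_compactSpace.1 (V.isClosed_of_isOpen hV).isCompact
  have : Finite (𝔽 ⧸ V) := V.quotient_finite_of_isOpen hV
  have : V.FiniteIndex := Subgroup.finiteIndex_of_finite_quotient
  by_contra hne
  have hF' : ∀ g, (resF F V hVF)^[p] g = g := fun g =>
    Subtype.ext (by rw [resF_iterate, hF])
  have hφ' : IsHom (fun v => φ (resF F V hVF v) - φ v) := by
    refine ⟨fun g h => ?_, (hφ.lc.comp_continuous (resF F V hVF).continuous).sub hφ.lc⟩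
    simp only [map_mul, hφ.mul]
    ring
  have hx' : 1 * F x * 1⁻¹ = x := by rw [hx, one_mul, inv_one, mul_one]
  have hcase : ∀ a, (a = x ∨ a = y ∨ a = x * y) → ∃ f, f * F a * f⁻¹ = a := by
    rintro a (rfl | rfl | rfl)
    · exact ⟨1, hx'⟩
    · exact ⟨b, hb⟩
    · exact ⟨c, hc⟩
  have hur' : Unram x y V (fun v => φ (resF F V hVF v) - φ v) := by
    intro a ha g n hg
    obtain ⟨f, hf⟩ := hcase a ha
    change φ (resF F V hVF ⟨_, hg⟩) - φ ⟨_, hg⟩ = 0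
    rw [hur a ha g n hg, sub_zero]
    have h1 : F (g⁻¹ * a ^ n * g) = (f * F g)⁻¹ * a ^ n * (f * F g) := by
      have h2 := cusp_F F f hf n
      rw [zpow_natCast] at h2
      rw [map_mul, map_mul, map_inv]
      calc (F g)⁻¹ * F (a ^ n) * F g = (F g)⁻¹ * f⁻¹ * (f * F (a ^ n)) * F g := by group
        _ = (F g)⁻¹ * f⁻¹ * (a ^ n * f) * F g := by rw [h2]
        _ = _ := by group
    have h2 : (f * F g)⁻¹ * a ^ n * (f * F g) ∈ V := by
      rw [← h1, hVF]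
      exact hg
    have h3 : resF F V hVF ⟨_, hg⟩ = ⟨_, h2⟩ := Subtype.ext h1
    rw [h3]
    exact hur a ha _ n h2
  obtain ⟨ψ, d, hψ, hd, hd', hurψ, hd1, hd2, hd3⟩ :=
    duality h V hV _ hφ' hur' ⟨v, sub_ne_zero.2 hne⟩
  obtain ⟨tr⟩ := tree_open (p := p) h V hV
  have hL := derLift_open (p := p) h V hV
  obtain ⟨D, hDl, hDm, hDF, hD1, hD2⟩ :=
    exists_invariant_der (torsion_free tr) hF' φ ψ d hφ hψ hd hd'
  obtain ⟨δ, hδ, hδF, hδD⟩ := key_identity hL tr hF' D hDl hDm hDF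
  let δ' : V →* Multiplicative (ZMod p) :=
    MonoidHom.mk' (fun v => Multiplicative.ofAdd (δ v)) (fun g h => by rw [hδ.mul]; rfl)
  have hδ' : ∀ v, δ' (resF F V hVF v) = δ' v := fun v =>
    congrArg Multiplicative.ofAdd (hδF v)
  have key : ∀ a f, (a = x ∨ a = y ∨ a = x * y) → f * F a * f⁻¹ = a → nv F p f = 1 →
      ∀ g, g⁻¹ * (f * F g) ∈ V → d ⟨_, cusp_mem V a g⟩ = 0 → cuspB V δ' a g = 0 := by
    intro a f ha hf hfN g hg hdg
    have h1 : nv (resF F V hVF) p ⟨_, hg⟩ = 1 := by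
      apply Subtype.ext
      rw [resF_nv]
      have h2 : g⁻¹ * (f * F g) = g⁻¹ * f * (F g⁻¹)⁻¹ := by
        rw [map_inv, inv_inv, mul_assoc]
      change nv F p (g⁻¹ * (f * F g)) = 1
      rw [h2, nv_conj, hfN, hF, mul_one, mul_inv_cancel]
    have h2 : (tSpace (resF F V hVF) p hF').act ⟨_, cusp_mem V a g⟩ ⟨⟨_, hg⟩, h1⟩ =
        ⟨⟨_, hg⟩, h1⟩ := by
      apply Subtype.ext
      apply Subtype.ext
      change (g⁻¹ * a ^ orderOf (QuotientGroup.mk a : 𝔽 ⧸ V) * g) * (g⁻¹ * (f * F g)) *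
        (F (g⁻¹ * a ^ orderOf (QuotientGroup.mk a : 𝔽 ⧸ V) * g))⁻¹ = g⁻¹ * (f * F g)
      have h3 := cusp_F F f hf (orderOf (QuotientGroup.mk a : 𝔽 ⧸ V))
      rw [zpow_natCast] at h3
      rw [map_mul, map_mul, map_inv]
      calc (g⁻¹ * a ^ orderOf (QuotientGroup.mk a : 𝔽 ⧸ V) * g) * (g⁻¹ * (f * F g)) *
          ((F g)⁻¹ * F (a ^ orderOf (QuotientGroup.mk a : 𝔽 ⧸ V)) * F g)⁻¹ =
          g⁻¹ * (a ^ orderOf (QuotientGroup.mk a : 𝔽 ⧸ V) * f) *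
          (F (a ^ orderOf (QuotientGroup.mk a : 𝔽 ⧸ V)))⁻¹ * F g := by group
        _ = g⁻¹ * (f * F (a ^ orderOf (QuotientGroup.mk a : 𝔽 ⧸ V))) *
          (F (a ^ orderOf (QuotientGroup.mk a : 𝔽 ⧸ V)))⁻¹ * F g := by rw [h3]
        _ = _ := by group
    have h3 := hδD _ _ h2
    change δ ⟨_, cusp_mem V a g⟩ = 0
    rw [h3]
    rcases hD2 ⟨⟨_, hg⟩, h1⟩ with h4 | h4
    · exact h4 _ h2
    · rw [h4 _ h2, hdg, hurψ a ha g _ (cusp_mem V a g), zero_mul, zero_add]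
  have hy0 : Multiplicative.toAdd (MonoidHom.transfer δ' y) = 0 :=
    cusp_transfer_zero V F hVF b δ' hδ' hF hb hbN fun g hg =>
      key y b (Or.inr (Or.inl rfl)) hb hbN g hg (hd1 y (Or.inl rfl) g _ _)
  have hxy0 : Multiplicative.toAdd (MonoidHom.transfer δ' (x * y)) = 0 :=
    cusp_transfer_zero V F hVF c δ' hδ' hF hc hcN fun g hg =>
      key (x * y) c (Or.inr (Or.inr rfl)) hc hcN g hg (hd1 (x * y) (Or.inr rfl) g _ _)
  have hx1 : Multiplicative.toAdd (MonoidHom.transfer δ' x) = 1 := by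
    refine cusp_transfer_one V F hVF δ' hδ' hF hx' (fun g hg hi => ?_) ?_
    · exact key x 1 (Or.inl rfl) hx' (nv_one F p) g hg (hd2 g _ _ hi)
    · have h0 : x ^ orderOf (QuotientGroup.mk x : 𝔽 ⧸ V) ∈ V := by
        rw [← QuotientGroup.eq_one_iff, QuotientGroup.mk_pow, pow_orderOf_eq_one]
      have h1 : (⟨_, cusp_mem V x 1⟩ : V) = ⟨_, h0⟩ := by
        apply Subtype.ext
        change (1 : 𝔽)⁻¹ * x ^ orderOf (QuotientGroup.mk x : 𝔽 ⧸ V) * 1 = _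
        rw [inv_one, one_mul, mul_one]
      have h2 : resF F V hVF ⟨_, h0⟩ = ⟨_, h0⟩ := by
        apply Subtype.ext
        change F (x ^ orderOf (QuotientGroup.mk x : 𝔽 ⧸ V)) = _
        rw [map_pow, hx]
      have h3 : (tSpace (resF F V hVF) p hF').act ⟨_, h0⟩ (tOne hF') = tOne hF' := by
        apply Subtype.ext
        change (⟨_, h0⟩ : V) * 1 * (resF F V hVF ⟨_, h0⟩)⁻¹ = 1
        rw [h2, mul_one, mul_inv_cancel]
      change δ ⟨_, cusp_mem V x 1⟩ = 1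
      rw [h1, hδD _ _ h3, hD1 _ h2, hd3 h0]
  rw [map_mul, toAdd_mul, hy0, hx1, add_zero] at hxy0
  exact one_ne_zero hxy0

end Pool.Agent.GTT
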