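import Pool.Agent.Lib.MP_2cc432_al.Cusp
import Pool.Agent.Lib.MP_2cc432_al.HPow
import Pool.Agent.Lib.MP_2cc432_al.ZArith

/-!
# CUSP2: unramified homomorphisms are invariant, for `F x = x ^ ν`
-/

open Filter Topology Finset

namespace Pool.Agent.GTT

theorem cusp2_mod_p {p : ℕ} [Fact p.Prime] (ν : Zhat) (h : Zhat.mod (p ^ 2) ν = 1) :
    Zhat.mod p ν = 1 := by
  have hp : 0 < p := (Fact.out : p.Prime).pos
  have h1 := ν.2 ⟨p, hp⟩ ⟨p ^ 2, pow_pos hp 2⟩ (dvd_pow_self p two_ne_zero)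
  have h2 : ν.1 ⟨p ^ 2, pow_pos hp 2⟩ = 1 := h
  rw [h2, map_one] at h1
  exact h1.symm

section

variable {𝔽 : Type} [Group 𝔽] [TopologicalSpace 𝔽] [IsTopologicalGroup 𝔽] [CompactSpace 𝔽]
  [T2Space 𝔽] [TotallyDisconnectedSpace 𝔽] {p : ℕ}

theorem cusp2_F (F : 𝔽 ≃ₜ* 𝔽) {a f : 𝔽} {ν : Zhat} (ha : f * F a * f⁻¹ = hpow a ν) (l : Zhat) :
    f * F (hpow a l) = hpow a (ν * l) * f := by
  have h1 : F (hpow a l) = hpow (F a) l := map_hpow (F.toMulEquiv : 𝔽 →* 𝔽) F.continuous a l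
  rw [h1, hpow_mul, ← ha, ← conj_hpow, inv_mul_cancel_right]

/-- `F` on the conjugates of the powers of a cusp element -/
theorem cusp2_Fw (F : 𝔽 ≃ₜ* 𝔽) {a f : 𝔽} {ν : Zhat} (ha : f * F a * f⁻¹ = hpow a ν) (g : 𝔽)
    (n : ℕ) : F (g⁻¹ * a ^ n * g) = hpow ((f * F g)⁻¹ * a ^ n * (f * F g)) ν := by
  have h1 := cusp2_F F ha (n : Zhat)
  rw [hpow_natCast] at h1
  have h2 := conj_hpow ((f * F g)⁻¹) (a ^ n) ν
  rw [inv_inv] at h2
  rw [← h2, ← hpow_natCast a n, ← hpow_mul, mul_comm (n : Zhat) ν, hpow_natCast, map_mul, map_mul,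
    map_inv]
  calc (F g)⁻¹ * F (a ^ n) * F g = (F g)⁻¹ * f⁻¹ * (f * F (a ^ n)) * F g := by group
    _ = (F g)⁻¹ * f⁻¹ * (hpow a (ν * n) * f) * F g := by rw [h1]
    _ = _ := by group

/-- the norm of `a ^ l f` -/
theorem cusp2_nv (F : 𝔽 ≃ₜ* 𝔽) {a f : 𝔽} {ν : Zhat} (ha : f * F a * f⁻¹ = hpow a ν) (l : Zhat)
    (n : ℕ) : nv F n (hpow a l * f) = hpow a (l * ∑ i ∈ range n, ν ^ i) * nv F n f := by
  induction n with
  | zero => simp [nv, hpow_zero]
  | succ n ih =>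
    have h1 := cusp2_F F ha (l * ∑ i ∈ range n, ν ^ i)
    rw [nv_succ, ih, nv_succ, map_mul]
    calc hpow a l * f * (F (hpow a (l * ∑ i ∈ range n, ν ^ i)) * F (nv F n f)) =
        hpow a l * (f * F (hpow a (l * ∑ i ∈ range n, ν ^ i))) * F (nv F n f) := by group
      _ = hpow a l * (hpow a (ν * (l * ∑ i ∈ range n, ν ^ i)) * f) * F (nv F n f) := by rw [h1]
      _ = hpow a l * hpow a (ν * (l * ∑ i ∈ range n, ν ^ i)) * (f * F (nv F n f)) := by group
      _ = hpow a (l * ∑ i ∈ range (n + 1), ν ^ i) * (f * F (nv F n f)) := by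
        rw [← hpow_add]
        congr 2
        rw [sum_range_succ', pow_zero, mul_add, mul_one, add_comm]
        congr 1
        rw [mul_left_comm, mul_sum, ← mul_sum]
        congr 1
        rw [mul_sum]
        exact sum_congr rfl fun i _ => (pow_succ' ν i).symm

variable (V : Subgroup 𝔽) [hVn : V.Normal]

omit [T2Space 𝔽] [TotallyDisconnectedSpace 𝔽] in
theorem cusp2_pos (hV : IsOpen (V : Set 𝔽)) (a : 𝔽) :
    0 < orderOf (QuotientGroup.mk a : 𝔽 ⧸ V) := by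
  have : Finite (𝔽 ⧸ V) := V.quotient_finite_of_isOpen hV
  exact orderOf_pos _

theorem cusp2_int (hV : IsOpen (V : Set 𝔽)) (a : 𝔽) (l : Zhat) :
    ∃ k : ℕ, (a ^ k)⁻¹ * hpow a l ∈ V := by
  have h := isHpow_hpow a l V hVn hV ⟨_, cusp2_pos V hV a⟩ (by
    change a ^ orderOf (QuotientGroup.mk a : 𝔽 ⧸ V) ∈ V
    rw [← QuotientGroup.eq_one_iff, QuotientGroup.mk_pow, pow_orderOf_eq_one])
  exact ⟨_, h⟩

/-- the powers in an open normal subgroup -/
theorem cusp2_mem (hV : IsOpen (V : Set 𝔽)) (a : 𝔽) (l : Zhat)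
    [NeZero (orderOf (QuotientGroup.mk a : 𝔽 ⧸ V))] :
    hpow a l ∈ V ↔ Zhat.mod (orderOf (QuotientGroup.mk a : 𝔽 ⧸ V)) l = 0 := by
  have h := isHpow_hpow a l V hVn hV ⟨_, cusp2_pos V hV a⟩ (by
    change a ^ orderOf (QuotientGroup.mk a : 𝔽 ⧸ V) ∈ V
    rw [← QuotientGroup.eq_one_iff, QuotientGroup.mk_pow, pow_orderOf_eq_one])
  set z : ZMod (orderOf (QuotientGroup.mk a : 𝔽 ⧸ V)) :=
    Zhat.mod (orderOf (QuotientGroup.mk a : 𝔽 ⧸ V)) l with hz
  have h' : (a ^ z.val)⁻¹ * hpow a l ∈ V := h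
  have h1 : hpow a l ∈ V ↔ a ^ z.val ∈ V := by
    constructor
    · intro h2
      have h3 := V.mul_mem h2 (V.inv_mem h')
      have h4 : hpow a l * ((a ^ z.val)⁻¹ * hpow a l)⁻¹ = a ^ z.val := by group
      rwa [h4] at h3
    · intro h2
      have h3 := V.mul_mem h2 h'
      rwa [mul_inv_cancel_left] at h3
  rw [h1, ← QuotientGroup.eq_one_iff, QuotientGroup.mk_pow, ← orderOf_dvd_iff_pow_eq_one]
  constructor
  · intro h2
    have h3 := Nat.eq_zero_of_dvd_of_lt h2 (ZMod.val_lt z)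
    exact (ZMod.val_eq_zero z).1 h3
  · intro h2
    rw [h2, ZMod.val_zero]
    exact dvd_zero _

variable (F : 𝔽 ≃ₜ* 𝔽) (hVF : ∀ g, F g ∈ V ↔ g ∈ V) (f : 𝔽) {ν : Zhat}

/-- the action of `f F` on the cusps -/
def cusp2S (hV : IsOpen (V : Set 𝔽)) {a : 𝔽} (ha : f * F a * f⁻¹ = hpow a ν) :
    cuspO V a → cuspO V a :=
  Quotient.map' (cuspT V F hVF f) (by
    intro q q' hq
    rw [MulAction.orbitRel_apply] at hq ⊢
    obtain ⟨g, rfl⟩ := QuotientGroup.mk_surjective q'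
    obtain ⟨⟨_, k, rfl⟩, hk⟩ := hq
    obtain ⟨j, hj⟩ := cusp2_int V hV a (ν * (k : Zhat))
    refine ⟨⟨_, j, rfl⟩, ?_⟩
    rw [← hk]
    change (QuotientGroup.mk (a ^ (j : ℤ) * (f * F g)) : 𝔽 ⧸ V) =
      QuotientGroup.mk (f * F (a ^ k * g))
    have h1 := cusp2_F F ha (k : Zhat)
    rw [hpow_intCast] at h1
    rw [map_mul, ← mul_assoc f, h1, QuotientGroup.eq, zpow_natCast]
    have h2 : (a ^ j * (f * F g))⁻¹ * (hpow a (ν * (k : Zhat)) * f * F g) =
        (f * F g)⁻¹ * ((a ^ j)⁻¹ * hpow a (ν * (k : Zhat))) * (f * F g) := by group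
    rw [h2]
    simpa using hVn.conj_mem _ hj (f * F g)⁻¹)

theorem cusp2S_mk (hV : IsOpen (V : Set 𝔽)) {a : 𝔽} (ha : f * F a * f⁻¹ = hpow a ν) (g : 𝔽) :
    cusp2S V F hVF f hV ha (cuspMk V a g) = cuspMk V a (f * F g) := rfl

theorem cusp2S_iterate (hV : IsOpen (V : Set 𝔽)) {a : 𝔽} (ha : f * F a * f⁻¹ = hpow a ν) (n : ℕ)
    (g : 𝔽) : (cusp2S V F hVF f hV ha)^[n] (cuspMk V a g) = cuspMk V a (nv F n f * F^[n] g) := by
  induction n with
  | zero => simp [nv]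
  | succ n ih =>
    rw [Function.iterate_succ_apply', ih, cusp2S_mk, nv_succ, Function.iterate_succ_apply',
      map_mul, mul_assoc]

theorem cusp2S_pow (hV : IsOpen (V : Set 𝔽)) {a : 𝔽} (ha : f * F a * f⁻¹ = hpow a ν)
    (hF : ∀ g, F^[p] g = g) (hf : nv F p f = 1) (ω : cuspO V a) :
    (cusp2S V F hVF f hV ha)^[p] ω = ω := by
  obtain ⟨g, rfl⟩ := cuspMk_surj V a ω
  rw [cusp2S_iterate, hf, hF, one_mul]

section

variable [CompactSpace V]

omit hVn in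
theorem cusp2_coe (w : V) (l : Zhat) : ((hpow w l : V) : 𝔽) = hpow (w : 𝔽) l :=
  map_hpow V.subtype continuous_subtype_val w l

omit hVn [CompactSpace V] in
include hVF in
/-- `(f F g)⁻¹ a ^ n (f F g) ∈ V` if `g⁻¹ a ^ n g ∈ V` -/
theorem cusp2_mem_F (hV : IsOpen (V : Set 𝔽)) (hν : ν ^ p = 1) (hp : 0 < p) {a : 𝔽}
    (ha : f * F a * f⁻¹ = hpow a ν) (g : 𝔽) (n : ℕ) (h : g⁻¹ * a ^ n * g ∈ V) :
    (f * F g)⁻¹ * a ^ n * (f * F g) ∈ V := by
  have h1 : hpow ((f * F g)⁻¹ * a ^ n * (f * F g)) ν ∈ V := by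
    rw [← cusp2_Fw F ha, hVF]
    exact h
  have h2 := hpow_mem V (V.isClosed_of_isOpen hV) _ h1 (ν ^ (p - 1))
  rwa [← hpow_mul, ← pow_succ', Nat.sub_add_cancel hp, hν, hpow_one] at h2

omit hVn in
/-- values of an unramified or invariant homomorphism -/
theorem cusp2_hom (hV : IsOpen (V : Set 𝔽)) [Fact p.Prime] (hν : ν ^ p = 1)
    (hν1 : Zhat.mod p ν = 1) (δ : V → ZMod p) (hδ : IsHom δ) {a : 𝔽}
    (ha : f * F a * f⁻¹ = hpow a ν) (g : 𝔽) (n : ℕ) (h : g⁻¹ * a ^ n * g ∈ V) :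
    δ (resF F V hVF ⟨_, h⟩) = δ ⟨_, cusp2_mem_F V F hVF f hV hν
      (Fact.out : p.Prime).pos ha g n h⟩ := by
  have h1 : resF F V hVF ⟨_, h⟩ = hpow (⟨_, cusp2_mem_F V F hVF f hV hν
      (Fact.out : p.Prime).pos ha g n h⟩ : V) ν := by
    apply Subtype.ext
    rw [cusp2_coe, resF_apply]
    exact cusp2_Fw F ha g n
  rw [h1, isHom_hpow δ hδ, hν1, one_mul]

theorem cusp2β_inv (hV : IsOpen (V : Set 𝔽)) [Fact p.Prime] (hν : ν ^ p = 1)
    (hν1 : Zhat.mod p ν = 1) (δ : V → ZMod p) (hδ : IsHom δ)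
    (δ' : V →* Multiplicative (ZMod p)) (hδ' : ∀ v, Multiplicative.toAdd (δ' v) = δ v)
    (hδF : ∀ v, δ (resF F V hVF v) = δ v)
    {a : 𝔽} (ha : f * F a * f⁻¹ = hpow a ν) (ω : cuspO V a) :
    cuspβ V δ' a (cusp2S V F hVF f hV ha ω) = cuspβ V δ' a ω := by
  obtain ⟨g, rfl⟩ := cuspMk_surj V a ω
  rw [cusp2S_mk, cuspβ_mk, cuspβ_mk]
  unfold cuspB
  rw [hδ', hδ', ← hδF ⟨_, cusp_mem V a g⟩,
    cusp2_hom V F hVF f hV hν hν1 δ hδ ha g _ (cusp_mem V a g)]

/-- the fixed cusps -/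
theorem cusp2_fixed (hV : IsOpen (V : Set 𝔽)) [Fact p.Prime] (N' : Zhat)
    (hN : (p : Zhat) * N' = ∑ i ∈ range p, ν ^ i) (hνN : ν * N' = N')
    (δ : V → ZMod p) (hδ : IsHom δ) (hδF : ∀ v, δ (resF F V hVF v) = δ v)
    (hF : ∀ g, F^[p] g = g) {a : 𝔽} (ha : f * F a * f⁻¹ = hpow a ν) (hf : nv F p f = 1) (g : 𝔽)
    (hg : cusp2S V F hVF f hV ha (cuspMk V a g) = cuspMk V a g) :
    δ ⟨_, cusp_mem V a g⟩ = 0 ∨ ∃ v : V, nv F p (v : 𝔽) = 1 ∧
      (v : 𝔽) * F (hpow (g⁻¹ * a ^ orderOf (QuotientGroup.mk a : 𝔽 ⧸ V) * g) N') =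
        hpow (g⁻¹ * a ^ orderOf (QuotientGroup.mk a : 𝔽 ⧸ V) * g) N' * v := by
  have hp : p.Prime := Fact.out
  have hpos := cusp2_pos V hV a
  have : NeZero (orderOf (QuotientGroup.mk a : 𝔽 ⧸ V)) := ⟨hpos.ne'⟩
  set e := orderOf (QuotientGroup.mk a : 𝔽 ⧸ V) with he
  have hNN : N' * N' = N' := by
    have h1 : (p : Zhat) * (N' * N' - N') = 0 := by
      have h2 : ∀ i : ℕ, ν ^ i * N' = N' := by
        intro i
        induction i with
        | zero => rw [pow_zero, one_mul]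
        | succ i ih => rw [pow_succ, mul_assoc, hνN, ih]
      have h3 : (∑ i ∈ range p, ν ^ i) * N' = (p : Zhat) * N' := by
        rw [sum_mul, sum_congr rfl fun i _ => h2 i, sum_const, card_range, nsmul_eq_mul]
      rw [mul_sub, ← mul_assoc, hN, h3, hN, sub_self]
    exact sub_eq_zero.1 (zhat_torsion_free p hp.ne_zero _ h1)
  have hconj : ∀ l : Zhat, hpow (g⁻¹ * a ^ e * g) l = g⁻¹ * hpow a (e * l) * g := by
    intro l
    have h1 := conj_hpow g⁻¹ (a ^ e) l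
    rw [inv_inv] at h1
    rw [← h1, ← hpow_natCast a e, ← hpow_mul]
  rw [cusp2S_mk, cuspMk_eq] at hg
  obtain ⟨k, hk⟩ := hg
  set l : Zhat := ((-k : ℤ) : Zhat) with hl
  have hal : hpow a l = a ^ (-k) := hpow_intCast a (-k)
  set v : V := ⟨(a ^ k * g)⁻¹ * (f * F g), hk⟩ with hv
  have hv1 : ∀ l' : Zhat, g⁻¹ * (hpow a l' * f) * (F g⁻¹)⁻¹ = g⁻¹ * hpow a l' * (f * F g) := by
    intro l'
    rw [map_inv]
    group
  have hv2 : (v : 𝔽) = g⁻¹ * (hpow a l * f) * (F g⁻¹)⁻¹ := by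
    rw [hv1, hal]
    change (a ^ k * g)⁻¹ * (f * F g) = _
    group
  have hnv : ∀ l' : Zhat, nv F p (g⁻¹ * (hpow a l' * f) * (F g⁻¹)⁻¹) =
      g⁻¹ * hpow a (l' * ((p : Zhat) * N')) * g := by
    intro l'
    rw [nv_conj, cusp2_nv F ha, hf, hF, mul_one, inv_inv, hN]
  have hm1 : g⁻¹ * hpow a (l * ((p : Zhat) * N')) * g ∈ V := by
    rw [← hnv, ← hv2, ← resF_nv F V hVF]
    exact (nv (resF F V hVF) p v).2
  have hconjV : ∀ z : 𝔽, g⁻¹ * z * g ∈ V ↔ z ∈ V := by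
    intro z
    constructor
    · intro h1
      have h2 := hVn.conj_mem _ h1 g
      have h3 : g * (g⁻¹ * z * g) * g⁻¹ = z := by group
      rwa [h3] at h2
    · intro h1
      simpa using hVn.conj_mem _ h1 g⁻¹
  rw [hconjV, cusp2_mem V hV] at hm1
  obtain ⟨k', hk'⟩ := zhat_dvd e _ hm1
  by_cases hA : Zhat.mod e (l * N') = 0
  · right
    have hA' : hpow a (l * N') ∈ V := (cusp2_mem V hV a _).2 hA
    set l' : Zhat := l * (1 - N') with hl'
    have hmem : g⁻¹ * (hpow a l' * f) * (F g⁻¹)⁻¹ ∈ V := by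
      have h1 : hpow a l' = (hpow a (l * N'))⁻¹ * hpow a l := by
        rw [← hpow_neg, ← hpow_add]
        congr 1
        rw [hl']
        ring
      have h2 : g⁻¹ * (hpow a l' * f) * (F g⁻¹)⁻¹ =
          (g⁻¹ * (hpow a (l * N'))⁻¹ * g) * v := by
        rw [hv2, h1]
        group
      rw [h2]
      exact V.mul_mem ((hconjV _).2 (V.inv_mem hA')) v.2
    refine ⟨⟨_, hmem⟩, ?_, ?_⟩
    · change nv F p (g⁻¹ * (hpow a l' * f) * (F g⁻¹)⁻¹) = 1
      rw [hnv]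
      have h1 : l' * ((p : Zhat) * N') = 0 := by
        have h2 : (1 - N') * N' = 0 := by rw [sub_mul, one_mul, hNN, sub_self]
        rw [hl', mul_assoc, mul_left_comm (1 - N'), h2, mul_zero, mul_zero]
      rw [h1, hpow_zero, mul_one, inv_mul_cancel]
    · change (g⁻¹ * (hpow a l' * f) * (F g⁻¹)⁻¹) * F (hpow (g⁻¹ * a ^ e * g) N') =
        hpow (g⁻¹ * a ^ e * g) N' * (g⁻¹ * (hpow a l' * f) * (F g⁻¹)⁻¹)
      rw [hconj, map_mul, map_mul, map_inv]
      have h1 := cusp2_F F ha ((e : Zhat) * N')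
      have h2 : ν * ((e : Zhat) * N') = (e : Zhat) * N' := by rw [mul_left_comm, hνN]
      rw [h2] at h1
      have h3 : hpow a l' * hpow a ((e : Zhat) * N') = hpow a ((e : Zhat) * N') * hpow a l' := by
        rw [← hpow_add, ← hpow_add, add_comm]
      calc (g⁻¹ * (hpow a l' * f) * ((F g)⁻¹)⁻¹) *
          ((F g)⁻¹ * F (hpow a ((e : Zhat) * N')) * F g) =
          g⁻¹ * hpow a l' * (f * F (hpow a ((e : Zhat) * N'))) * F g := by group
        _ = g⁻¹ * hpow a l' * (hpow a ((e : Zhat) * N') * f) * F g := by rw [h1]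
        _ = g⁻¹ * (hpow a l' * hpow a ((e : Zhat) * N')) * f * F g := by group
        _ = g⁻¹ * (hpow a ((e : Zhat) * N') * hpow a l') * f * F g := by rw [h3]
        _ = _ := by group
  · left
    have hsum : ∀ n : ℕ, δ (nv (resF F V hVF) n v) = n * δ v := by
      intro n
      induction n with
      | zero =>
        have h1 := hδ.mul 1 1
        rw [mul_one] at h1
        have h2 : δ 1 = 0 := by simpa using h1
        simp [nv, h2]
      | succ n ih =>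
        rw [nv_succ, hδ.mul, hδF, ih]
        push_cast
        ring
    have h1 : δ (nv (resF F V hVF) p v) = 0 := by
      rw [hsum, CharP.cast_eq_zero, zero_mul]
    have h2 : nv (resF F V hVF) p v = hpow (⟨_, cusp_mem V a g⟩ : V) k' := by
      apply Subtype.ext
      rw [resF_nv, hv2, hnv, cusp2_coe]
      change _ = hpow (g⁻¹ * a ^ e * g) k'
      rw [hconj, hk']
    rw [h2, isHom_hpow δ hδ] at h1
    rcases mul_eq_zero.1 h1 with h3 | h3
    · exfalso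
      apply hA
      obtain ⟨k'', rfl⟩ := zhat_dvd p k' h3
      have h4 : (p : Zhat) * (l * N' - (e : Zhat) * k'') = 0 := by
        rw [mul_sub, mul_left_comm, hk', mul_left_comm (p : Zhat) (e : Zhat), sub_self]
      have h5 := sub_eq_zero.1 (zhat_torsion_free p hp.ne_zero _ h4)
      rw [h5, map_mul, map_natCast, CharP.cast_eq_zero, zero_mul]
    · exact h3

end

end

/-- CUSP2 -/
theorem unram_invariant2 {𝔽 : Type} [Group 𝔽] [TopologicalSpace 𝔽] [IsTopologicalGroup 𝔽]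
    [CompactSpace 𝔽] [T2Space 𝔽] [TotallyDisconnectedSpace 𝔽] {x y : 𝔽} {p : ℕ} [Fact p.Prime]
    (h : FreeProf 𝔽 x y) (F : 𝔽 ≃ₜ* 𝔽) (hF : ∀ g, F^[p] g = g)
    (ν : Zhat) (hν : ν ^ p = 1) (hν1 : Zhat.mod (p ^ 2) ν = 1)
    (hx : F x = hpow x ν) (b c : 𝔽) (hb : b * F y * b⁻¹ = hpow y ν) (hbN : nv F p b = 1)
    (hc : c * F (x * y) * c⁻¹ = hpow (x * y) ν) (hcN : nv F p c = 1)
    (V : Subgroup 𝔽) [V.Normal] (hV : IsOpen (V : Set 𝔽)) (hVF : ∀ g, F g ∈ V ↔ g ∈ V)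
    (φ : V → ZMod p) (hφ : IsHom φ) (hur : Unram x y V φ) (v : V) :
    φ (resF F V hVF v) = φ v := by
  classical
  have : CompactSpace V := isCompact_iff_compactSpace.1 (V.isClosed_of_isOpen hV).isCompact
  have : Finite (𝔽 ⧸ V) := V.quotient_finite_of_isOpen hV
  have : V.FiniteIndex := Subgroup.finiteIndex_of_finite_quotient
  by_contra hne
  have hF' : ∀ g, (resF F V hVF)^[p] g = g := fun g =>
    Subtype.ext (by rw [resF_iterate, hF])
  have hνp : Zhat.mod p ν = 1 := cusp2_mod_p ν hν1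
  obtain ⟨N', hN, hνN, hN1⟩ := zhat_norm p ν hν hν1
  have hφ' : IsHom (fun v => φ (resF F V hVF v) - φ v) := by
    refine ⟨fun g h => ?_, (hφ.lc.comp_continuous (resF F V hVF).continuous).sub hφ.lc⟩
    simp only [map_mul, hφ.mul]
    ring
  have hx' : 1 * F x * 1⁻¹ = hpow x ν := by rw [hx, one_mul, inv_one, mul_one]
  have hcase : ∀ a, (a = x ∨ a = y ∨ a = x * y) → ∃ f, f * F a * f⁻¹ = hpow a ν := by
    rintro a (rfl | rfl | rfl)
    · exact ⟨1, hx'⟩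
    · exact ⟨b, hb⟩
    · exact ⟨c, hc⟩
  have hur' : Unram x y V (fun v => φ (resF F V hVF v) - φ v) := by
    intro a ha g n hg
    obtain ⟨f, hf⟩ := hcase a ha
    change φ (resF F V hVF ⟨_, hg⟩) - φ ⟨_, hg⟩ = 0
    rw [hur a ha g n hg, sub_zero, cusp2_hom V F hVF f hV hν hνp φ hφ hf g n hg]
    exact hur a ha _ n _
  obtain ⟨ψ, d, hψ, hd, hd', hurψ, hd1, hd2, hd3⟩ :=
    duality h V hV _ hφ' hur' ⟨v, sub_ne_zero.2 hne⟩
  obtain ⟨tr⟩ := tree_open (p := p) h V hV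
  have hL := derLift_open (p := p) h V hV
  obtain ⟨D, hDl, hDm, hDF, hD1, hD2⟩ :=
    exists_invariant_der (torsion_free tr) hF' φ ψ d hφ hψ hd hd'
  obtain ⟨δ, hδ, hδF, hδD⟩ := key_identity hL tr hF' D hDl hDm hDF
  let δ' : V →* Multiplicative (ZMod p) :=
    MonoidHom.mk' (fun v => Multiplicative.ofAdd (δ v)) (fun g h => by rw [hδ.mul]; rfl)
  have hδ' : ∀ v, Multiplicative.toAdd (δ' v) = δ v := fun v => rfl
  -- `d` on the powers of a cusp element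
  have hψker : ∀ w : V, ψ w = 0 → ∀ l : Zhat, d (hpow w l) = Zhat.mod p l * d w := by
    intro w hw l
    let K : Subgroup V :=
      { carrier := {g | ψ g = 0}
        mul_mem' := by
          intro g g' hg hg'
          change ψ (g * g') = 0
          rw [hψ.mul, show ψ g = 0 from hg, show ψ g' = 0 from hg', add_zero]
        one_mem' := by
          change ψ 1 = 0
          have h1 := hψ.mul 1 1
          rw [mul_one] at h1
          simpa using h1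
        inv_mem' := by
          intro g hg
          change ψ g⁻¹ = 0
          have h1 := hψ.mul g⁻¹ g
          have h2 := hψ.mul 1 1
          rw [mul_one] at h2
          have h3 : ψ 1 = 0 := by simpa using h2
          rw [inv_mul_cancel, h3, show ψ g = 0 from hg, add_zero] at h1
          exact h1.symm }
    have hK : IsClosed (K : Set V) := (hψ.lc.isClosed_fiber 0)
    refine isHom_hpow' d hd K hK (fun g _ g' hg' => ?_) w hw l
    rw [hd' g g', show ψ g' = 0 from hg', mul_zero, add_zero]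
  have key : ∀ a f, (a = x ∨ a = y ∨ a = x * y) → ∀ (hf : f * F a * f⁻¹ = hpow a ν),
      nv F p f = 1 → ∀ g, cusp2S V F hVF f hV hf (cuspMk V a g) = cuspMk V a g →
      d ⟨_, cusp_mem V a g⟩ = 0 → cuspB V δ' a g = 0 := by
    intro a f ha hf hfN g hg hdg
    change δ ⟨_, cusp_mem V a g⟩ = 0
    rcases cusp2_fixed V F hVF f hV N' hN hνN δ hδ hδF hF hf hfN g hg with h1 | ⟨v', h1, h2⟩
    · exact h1
    set w : V := ⟨_, cusp_mem V a g⟩ with hw
    have hu : ((hpow w N' : V) : 𝔽) =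
        hpow (g⁻¹ * a ^ orderOf (QuotientGroup.mk a : 𝔽 ⧸ V) * g) N' := cusp2_coe V w N'
    have h3 : nv (resF F V hVF) p v' = 1 := by
      apply Subtype.ext
      rw [resF_nv, h1]
      rfl
    have h4 : (tSpace (resF F V hVF) p hF').act (hpow w N') ⟨v', h3⟩ = ⟨v', h3⟩ := by
      apply Subtype.ext
      apply Subtype.ext
      change ((hpow w N' : V) : 𝔽) * (v' : 𝔽) * (F ((hpow w N' : V) : 𝔽))⁻¹ = v'
      rw [hu, ← h2, mul_inv_cancel_right]
    have h5 := hδD _ _ h4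
    have h6 : δ (hpow w N') = δ w := by rw [isHom_hpow δ hδ, hN1, one_mul]
    have h7 : ψ w = 0 := hurψ a ha g _ (cusp_mem V a g)
    rw [← h6, h5]
    rcases hD2 ⟨v', h3⟩ with h8 | h8
    · exact h8 _ h4
    · rw [h8 _ h4, hψker w h7, hdg, mul_zero, isHom_hpow ψ hψ, h7, mul_zero, zero_mul, add_zero]
  let : ∀ a, Fintype (cuspO V a) := fun a => Fintype.ofFinite _
  have hzero : ∀ a f, (a = y ∨ a = x * y) → ∀ (hf : f * F a * f⁻¹ = hpow a ν),
      nv F p f = 1 → Multiplicative.toAdd (MonoidHom.transfer δ' a) = 0 := by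
    intro a f ha hf hfN
    rw [cusp_transfer, cusp_sum_fixed (cusp2S V F hVF f hV hf)
      (cusp2S_pow V F hVF f hV hf hF hfN) _ (cusp2β_inv V F hVF f hV hν hνp δ hδ δ' hδ' hδF hf)]
    refine sum_eq_zero fun ω hω => ?_
    obtain ⟨g, rfl⟩ := cuspMk_surj V a ω
    rw [cuspβ_mk]
    exact key a f (Or.inr ha) hf hfN g (mem_filter.1 hω).2 (hd1 a ha g _ _)
  have hone : Multiplicative.toAdd (MonoidHom.transfer δ' x) = 1 := by
    have hB : cuspB V δ' x 1 = 1 := by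
      have h0 : x ^ orderOf (QuotientGroup.mk x : 𝔽 ⧸ V) ∈ V := by
        rw [← QuotientGroup.eq_one_iff, QuotientGroup.mk_pow, pow_orderOf_eq_one]
      have h1 : (⟨_, cusp_mem V x 1⟩ : V) = ⟨_, h0⟩ := by
        apply Subtype.ext
        change (1 : 𝔽)⁻¹ * x ^ orderOf (QuotientGroup.mk x : 𝔽 ⧸ V) * 1 = _
        rw [inv_one, one_mul, mul_one]
      set w : V := ⟨_, h0⟩ with hw
      have h2 : resF F V hVF (hpow w N') = hpow w N' := by
        apply Subtype.ext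
        rw [resF_apply, cusp2_coe]
        change F (hpow (x ^ orderOf (QuotientGroup.mk x : 𝔽 ⧸ V)) N') =
          hpow (x ^ orderOf (QuotientGroup.mk x : 𝔽 ⧸ V)) N'
        rw [← hpow_natCast, ← hpow_mul]
        have h3 := cusp2_F F hx' ((orderOf (QuotientGroup.mk x : 𝔽 ⧸ V) : Zhat) * N')
        rw [one_mul, mul_one, mul_left_comm, hνN] at h3
        exact h3
      have h3 : (tSpace (resF F V hVF) p hF').act (hpow w N') (tOne hF') = tOne hF' := by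
        apply Subtype.ext
        change (hpow w N' : V) * 1 * (resF F V hVF (hpow w N'))⁻¹ = 1
        rw [h2, mul_one, mul_inv_cancel]
      have h4 : ψ w = 0 := by
        have h5 := hurψ x (Or.inl rfl) 1 _ (cusp_mem V x 1)
        rwa [h1] at h5
      have h6 : δ (hpow w N') = δ w := by rw [isHom_hpow δ hδ, hN1, one_mul]
      change δ ⟨_, cusp_mem V x 1⟩ = 1
      rw [h1, ← h6, hδD _ _ h3, hD1 _ h2, hψker w h4, hN1, one_mul, hd3 h0]
    rw [cusp_transfer, cusp_sum_fixed (cusp2S V F hVF 1 hV hx')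
      (cusp2S_pow V F hVF 1 hV hx' hF (nv_one F p)) _
      (cusp2β_inv V F hVF 1 hV hν hνp δ hδ δ' hδ' hδF hx'), sum_eq_single (cuspMk V x 1)]
    · rw [cuspβ_mk, hB]
    · intro ω hω hne
      obtain ⟨g, rfl⟩ := cuspMk_surj V x ω
      rw [cuspβ_mk]
      refine key x 1 (Or.inl rfl) hx' (nv_one F p) g (mem_filter.1 hω).2
        (hd2 g _ _ fun i hi => hne ?_)
      rw [cuspMk_eq]
      refine ⟨i, ?_⟩
      have h3 : (x ^ (i : ℤ) * 1)⁻¹ * g = (g⁻¹ * x ^ i)⁻¹ := by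
        rw [zpow_natCast]
        group
      rw [h3]
      exact V.inv_mem hi
    · intro hn
      exfalso
      apply hn
      rw [mem_filter]
      refine ⟨mem_univ _, ?_⟩
      rw [cusp2S_mk, map_one, one_mul]
  have hy0 := hzero y b (Or.inl rfl) hb hbN
  have hxy0 := hzero (x * y) c (Or.inr rfl) hc hcN
  rw [map_mul, toAdd_mul, hy0, hone, add_zero] at hxy0
  exact one_ne_zero hxy0

end Pool.Agent.GTT
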