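import Pool.Agent.Lib.MP_2cc432_al.Defs2

/-!
# CUSP: the value of the transfer at the generators
-/

open Filter Topology Finset

namespace Pool.Agent.GTT

/-! ### Sums over a finite set with a map of order `p` -/

theorem cusp_sum_fixed {p : ℕ} [Fact p.Prime] {Ω : Type*} [Fintype Ω] [DecidableEq Ω]
    (S : Ω → Ω) (hS : ∀ ω, S^[p] ω = ω) (β : Ω → ZMod p) (hβ : ∀ ω, β (S ω) = β ω) :
    ∑ ω, β ω = ∑ ω with S ω = ω, β ω := by
  classical
  have hcard : ∀ t : ZMod p, (((univ.filter fun ω => β ω = t).card : ℕ) : ZMod p) =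
      (((univ.filter fun ω => S ω = ω).filter fun ω => β ω = t).card : ℕ) := by
    intro t
    let f : Function.End {ω // β ω = t} := fun ω => ⟨S ω.1, by rw [hβ, ω.2]⟩
    have hfn : ∀ (n : ℕ) (ω : {ω // β ω = t}), ((f ^ n) ω).1 = S^[n] ω.1 := by
      intro n
      induction n with
      | zero => intro ω; rfl
      | succ n ih =>
        intro ω
        rw [pow_succ', Function.iterate_succ_apply', ← ih ω]
        rfl
    have hf : f ^ p ^ 1 = 1 := by
      funext ω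
      apply Subtype.ext
      rw [pow_one, hfn, hS]
      rfl
    have h := Equiv.Perm.card_fixedPoints_modEq hf
    rw [← ZMod.natCast_eq_natCast_iff] at h
    rw [← Fintype.card_subtype, h]
    congr 1
    rw [filter_filter, ← Fintype.card_subtype]
    refine Fintype.card_congr
      { toFun := fun ω => ⟨ω.1.1, congrArg Subtype.val ω.2, ω.1.2⟩
        invFun := fun ω => ⟨⟨ω.1, ω.2.2⟩, Subtype.ext ω.2.1⟩
        left_inv := fun _ => rfl
        right_inv := fun _ => rfl }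
  rw [← sum_fiberwise univ β β, ← sum_fiberwise (univ.filter fun ω => S ω = ω) β β]
  refine sum_congr rfl fun t _ => ?_
  rw [sum_congr rfl (g := fun _ => t) fun ω hω => (mem_filter.1 hω).2,
    sum_congr rfl (g := fun _ => t) fun ω hω => (mem_filter.1 hω).2, sum_const, sum_const,
    nsmul_eq_mul, nsmul_eq_mul, hcard]

section

variable {𝔽 : Type} [Group 𝔽] [TopologicalSpace 𝔽] {p : ℕ} (V : Subgroup 𝔽) [hVn : V.Normal]

omit [TopologicalSpace 𝔽] in
theorem cusp_mem (a g : 𝔽) : g⁻¹ * a ^ orderOf (QuotientGroup.mk a : 𝔽 ⧸ V) * g ∈ V := by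
  have h1 : a ^ orderOf (QuotientGroup.mk a : 𝔽 ⧸ V) ∈ V := by
    rw [← QuotientGroup.eq_one_iff, QuotientGroup.mk_pow, pow_orderOf_eq_one]
  simpa using hVn.conj_mem _ h1 g⁻¹

/-- the value of `δ` at the conjugates of a generator of the decomposition group of a cusp -/
noncomputable def cuspB (δ : V →* Multiplicative (ZMod p)) (a g : 𝔽) : ZMod p :=
  Multiplicative.toAdd (δ ⟨_, cusp_mem V a g⟩)

omit [TopologicalSpace 𝔽] in
theorem cuspB_right (δ : V →* Multiplicative (ZMod p)) (a g v : 𝔽) (hv : v ∈ V) :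
    cuspB V δ a (g * v) = cuspB V δ a g := by
  unfold cuspB
  have h : (⟨_, cusp_mem V a (g * v)⟩ : V) = ⟨v, hv⟩⁻¹ * ⟨_, cusp_mem V a g⟩ * ⟨v, hv⟩ := by
    apply Subtype.ext
    simp only [Subgroup.coe_mul, Subgroup.coe_inv]
    group
  rw [h]
  refine congrArg Multiplicative.toAdd ?_
  rw [map_mul, map_mul, map_inv, mul_comm, mul_inv_cancel_left]

omit [TopologicalSpace 𝔽] in
theorem cuspB_left (δ : V →* Multiplicative (ZMod p)) (a g : 𝔽) (k : ℤ) :
    cuspB V δ a (a ^ k * g) = cuspB V δ a g := by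
  unfold cuspB
  congr 2
  apply Subtype.ext
  change (a ^ k * g)⁻¹ * a ^ orderOf (QuotientGroup.mk a : 𝔽 ⧸ V) * (a ^ k * g) =
    g⁻¹ * a ^ orderOf (QuotientGroup.mk a : 𝔽 ⧸ V) * g
  group

variable (F : 𝔽 ≃ₜ* 𝔽) (hVF : ∀ g, F g ∈ V ↔ g ∈ V) (f : 𝔽)

/-- the action of `f F` on the cosets -/
def cuspT : 𝔽 ⧸ V → 𝔽 ⧸ V :=
  Quotient.map' (fun g => f * F g) (by
    intro g h hgh
    rw [QuotientGroup.leftRel_apply] at hgh ⊢
    have h1 : (f * F g)⁻¹ * (f * F h) = F (g⁻¹ * h) := by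
      rw [map_mul, map_inv]
      group
    rw [h1, hVF]
    exact hgh)

omit hVn in
theorem cuspT_mk (g : 𝔽) :
    cuspT V F hVF f (QuotientGroup.mk g) = QuotientGroup.mk (f * F g) := rfl

theorem cuspT_iterate (n : ℕ) (g : 𝔽) :
    (cuspT V F hVF f)^[n] (QuotientGroup.mk g) = QuotientGroup.mk (nv F n f * F^[n] g) := by
  induction n with
  | zero => simp [nv]
  | succ n ih =>
    rw [Function.iterate_succ_apply', ih, cuspT_mk, nv_succ, Function.iterate_succ_apply',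
      map_mul, mul_assoc]

theorem cusp_F {a : 𝔽} (ha : f * F a * f⁻¹ = a) (k : ℤ) : f * F (a ^ k) = a ^ k * f := by
  have h : SemiconjBy f (F a) a := by
    change f * F a = a * f
    rw [← mul_inv_eq_iff_eq_mul]
    exact ha
  rw [map_zpow]
  exact h.zpow_right k

/-- the set of cusps over the cusp of `a` -/
abbrev cuspO (a : 𝔽) : Type := Quotient (MulAction.orbitRel (Subgroup.zpowers a) (𝔽 ⧸ V))

/-- the class of `g` -/
def cuspMk (a g : 𝔽) : cuspO V a := Quotient.mk'' (QuotientGroup.mk g : 𝔽 ⧸ V)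

omit [TopologicalSpace 𝔽] hVn in
theorem cuspMk_surj (a : 𝔽) (ω : cuspO V a) : ∃ g, cuspMk V a g = ω := by
  obtain ⟨q, rfl⟩ := Quotient.exists_rep ω
  obtain ⟨g, rfl⟩ := QuotientGroup.mk_surjective q
  exact ⟨g, rfl⟩

omit [TopologicalSpace 𝔽] hVn in
theorem cuspMk_eq (a g h : 𝔽) :
    cuspMk V a g = cuspMk V a h ↔ ∃ k : ℤ, (a ^ k * h)⁻¹ * g ∈ V := by
  unfold cuspMk
  rw [Quotient.eq'', MulAction.orbitRel_apply]
  constructor
  · rintro ⟨⟨_, k, rfl⟩, hk⟩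
    refine ⟨k, ?_⟩
    rw [← QuotientGroup.eq]
    exact hk
  · rintro ⟨k, hk⟩
    rw [← QuotientGroup.eq] at hk
    exact ⟨⟨a ^ k, k, rfl⟩, hk⟩

/-- the action of `f F` on the cusps -/
def cuspS {a : 𝔽} (ha : f * F a * f⁻¹ = a) : cuspO V a → cuspO V a :=
  Quotient.map' (cuspT V F hVF f) (by
    intro q q' hq
    rw [MulAction.orbitRel_apply] at hq ⊢
    obtain ⟨g, rfl⟩ := QuotientGroup.mk_surjective q'
    obtain ⟨⟨_, k, rfl⟩, hk⟩ := hq
    refine ⟨⟨_, k, rfl⟩, ?_⟩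
    rw [← hk]
    change (QuotientGroup.mk (a ^ k * (f * F g)) : 𝔽 ⧸ V) =
      QuotientGroup.mk (f * F (a ^ k * g))
    rw [map_mul, ← mul_assoc f, cusp_F F f ha, mul_assoc])

omit hVn in
theorem cuspS_mk {a : 𝔽} (ha : f * F a * f⁻¹ = a) (g : 𝔽) :
    cuspS V F hVF f ha (cuspMk V a g) = cuspMk V a (f * F g) := rfl

theorem cuspS_iterate {a : 𝔽} (ha : f * F a * f⁻¹ = a) (n : ℕ) (g : 𝔽) :
    (cuspS V F hVF f ha)^[n] (cuspMk V a g) = cuspMk V a (nv F n f * F^[n] g) := by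
  induction n with
  | zero => simp [nv]
  | succ n ih =>
    rw [Function.iterate_succ_apply', ih, cuspS_mk, nv_succ, Function.iterate_succ_apply',
      map_mul, mul_assoc]

theorem cuspS_pow {a : 𝔽} (ha : f * F a * f⁻¹ = a) (hF : ∀ g, F^[p] g = g)
    (hf : nv F p f = 1) (ω : cuspO V a) : (cuspS V F hVF f ha)^[p] ω = ω := by
  obtain ⟨g, rfl⟩ := cuspMk_surj V a ω
  rw [cuspS_iterate, hf, hF, one_mul]

theorem cuspB_mk (δ : V →* Multiplicative (ZMod p)) (a g h : 𝔽)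
    (hgh : cuspMk V a g = cuspMk V a h) : cuspB V δ a g = cuspB V δ a h := by
  obtain ⟨k, hk⟩ := (cuspMk_eq V a g h).1 hgh
  have h1 : g = (a ^ k * h) * ((a ^ k * h)⁻¹ * g) := by group
  rw [h1, cuspB_right V δ a _ _ hk, cuspB_left]

/-- the value of `δ` on the cusps -/
noncomputable def cuspβ (δ : V →* Multiplicative (ZMod p)) (a : 𝔽) (ω : cuspO V a) : ZMod p :=
  cuspB V δ a ω.out.out

theorem cuspβ_mk (δ : V →* Multiplicative (ZMod p)) (a g : 𝔽) :
    cuspβ V δ a (cuspMk V a g) = cuspB V δ a g := by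
  apply cuspB_mk
  unfold cuspMk
  rw [QuotientGroup.out_eq', Quotient.out_eq']

omit [TopologicalSpace 𝔽] in
theorem cusp_period (a : 𝔽) (q : 𝔽 ⧸ V) :
    Function.minimalPeriod (a • ·) q = orderOf (QuotientGroup.mk a : 𝔽 ⧸ V) := by
  unfold orderOf
  rw [Function.minimalPeriod_eq_minimalPeriod_iff]
  intro n
  obtain ⟨g, rfl⟩ := QuotientGroup.mk_surjective q
  unfold Function.IsPeriodicPt Function.IsFixedPt
  rw [smul_iterate, mul_left_iterate]
  have h1 : a ^ n • (QuotientGroup.mk g : 𝔽 ⧸ V) =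
      (QuotientGroup.mk a : 𝔽 ⧸ V) ^ n * QuotientGroup.mk g := by
    rw [← QuotientGroup.mk_pow]
    rfl
  change a ^ n • (QuotientGroup.mk g : 𝔽 ⧸ V) = _ ↔ (QuotientGroup.mk a : 𝔽 ⧸ V) ^ n * 1 = 1
  rw [h1, mul_one]
  exact mul_eq_right

omit [TopologicalSpace 𝔽] in
theorem cusp_transfer [V.FiniteIndex] (δ : V →* Multiplicative (ZMod p)) (a : 𝔽)
    [Fintype (cuspO V a)] :
    Multiplicative.toAdd (MonoidHom.transfer δ a) = ∑ ω : cuspO V a, cuspβ V δ a ω := by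
  rw [MonoidHom.transfer_eq_prod_quotient_orbitRel_zpowers_quot, toAdd_prod]
  refine sum_congr rfl fun ω _ => ?_
  unfold cuspβ cuspB
  congr 2
  apply Subtype.ext
  change (Quotient.out ω.out)⁻¹ * a ^ Function.minimalPeriod (fun x => a • x) ω.out *
    Quotient.out ω.out = (Quotient.out ω.out)⁻¹ * a ^ orderOf (QuotientGroup.mk a : 𝔽 ⧸ V) *
    Quotient.out ω.out
  rw [cusp_period V a ω.out]

theorem cuspβ_inv (δ : V →* Multiplicative (ZMod p)) (hδ : ∀ v, δ (resF F V hVF v) = δ v)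
    {a : 𝔽} (ha : f * F a * f⁻¹ = a) (ω : cuspO V a) :
    cuspβ V δ a (cuspS V F hVF f ha ω) = cuspβ V δ a ω := by
  obtain ⟨g, rfl⟩ := cuspMk_surj V a ω
  rw [cuspS_mk, cuspβ_mk, cuspβ_mk]
  unfold cuspB
  have h : (⟨_, cusp_mem V a (f * F g)⟩ : V) = resF F V hVF ⟨_, cusp_mem V a g⟩ := by
    apply Subtype.ext
    rw [resF_apply]
    change (f * F g)⁻¹ * a ^ orderOf (QuotientGroup.mk a : 𝔽 ⧸ V) * (f * F g) =
      F (g⁻¹ * a ^ orderOf (QuotientGroup.mk a : 𝔽 ⧸ V) * g)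
    rw [map_mul, map_mul, map_inv]
    have h1 := cusp_F F f ha (orderOf (QuotientGroup.mk a : 𝔽 ⧸ V))
    rw [zpow_natCast] at h1
    calc (f * F g)⁻¹ * a ^ orderOf (QuotientGroup.mk a : 𝔽 ⧸ V) * (f * F g) =
        (F g)⁻¹ * f⁻¹ * (a ^ orderOf (QuotientGroup.mk a : 𝔽 ⧸ V) * f) * F g := by group
      _ = (F g)⁻¹ * f⁻¹ * (f * F (a ^ orderOf (QuotientGroup.mk a : 𝔽 ⧸ V))) * F g := by
        rw [h1]
      _ = _ := by group
  rw [h, hδ]

theorem cusp_nv {a : 𝔽} (ha : f * F a * f⁻¹ = a) (n : ℕ) (k : ℤ) :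
    nv F n (a ^ k * f) = a ^ (k * n) * nv F n f := by
  induction n with
  | zero => simp [nv]
  | succ n ih =>
    rw [nv_succ, ih, nv_succ, map_mul]
    have h1 := cusp_F F f ha (k * n)
    calc a ^ k * f * (F (a ^ (k * (n : ℤ))) * F (nv F n f)) =
        a ^ k * (f * F (a ^ (k * (n : ℤ)))) * F (nv F n f) := by group
      _ = a ^ k * (a ^ (k * (n : ℤ)) * f) * F (nv F n f) := by rw [h1]
      _ = a ^ k * a ^ (k * (n : ℤ)) * (f * F (nv F n f)) := by group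
      _ = a ^ (k * ((n + 1 : ℕ) : ℤ)) * (f * F (nv F n f)) := by
        rw [← zpow_add]
        congr 2
        push_cast
        ring

theorem cusp_fixed [Fact p.Prime] (δ : V →* Multiplicative (ZMod p))
    (hδ : ∀ v, δ (resF F V hVF v) = δ v) (hF : ∀ g, F^[p] g = g) {a : 𝔽}
    (ha : f * F a * f⁻¹ = a) (hf : nv F p f = 1) (g : 𝔽)
    (hg : cuspS V F hVF f ha (cuspMk V a g) = cuspMk V a g) :
    cuspB V δ a g = 0 ∨ g⁻¹ * (f * F g) ∈ V := by
  rw [cuspS_mk, cuspMk_eq] at hg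
  obtain ⟨k, hk⟩ := hg
  by_cases hak : a ^ k ∈ V
  · right
    have h1 : g⁻¹ * (f * F g) = (g⁻¹ * a ^ k * g) * ((a ^ k * g)⁻¹ * (f * F g)) := by group
    rw [h1]
    refine V.mul_mem ?_ hk
    simpa using hVn.conj_mem _ hak g⁻¹
  · left
    set v : V := ⟨(a ^ k * g)⁻¹ * (f * F g), hk⟩ with hv
    have hnv : ((nv (resF F V hVF) p v : V) : 𝔽) = g⁻¹ * a ^ (-k * p) * g := by
      rw [resF_nv]
      have h1 : (v : 𝔽) = g⁻¹ * (a ^ (-k) * f) * (F g⁻¹)⁻¹ := by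
        change (a ^ k * g)⁻¹ * (f * F g) = _
        rw [map_inv]
        group
      rw [h1, nv_conj, cusp_nv F f ha, hf, hF, mul_one, inv_inv]
    have hsum : ∀ n, δ (nv (resF F V hVF) n v) = δ v ^ n := by
      intro n
      induction n with
      | zero => rw [pow_zero]; exact map_one δ
      | succ n ih => rw [nv_succ, map_mul, hδ, ih, pow_succ']
    have h1 : δ (nv (resF F V hVF) p v) = 1 := by
      rw [hsum]
      apply Multiplicative.toAdd.injective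
      rw [toAdd_pow, nsmul_eq_mul, CharP.cast_eq_zero, zero_mul, toAdd_one]
    have h2 : (QuotientGroup.mk a : 𝔽 ⧸ V) ^ (k * (p : ℤ)) = 1 := by
      rw [← QuotientGroup.mk_zpow, QuotientGroup.eq_one_iff]
      have h3 : g⁻¹ * a ^ (-k * p) * g ∈ V := by
        rw [← hnv]
        exact (nv (resF F V hVF) p v).2
      have h4 := V.inv_mem (hVn.conj_mem _ h3 g)
      have h5 : (g * (g⁻¹ * a ^ (-k * (p : ℤ)) * g) * g⁻¹)⁻¹ = a ^ (k * (p : ℤ)) := by
        have h6 : g * (g⁻¹ * a ^ (-k * (p : ℤ)) * g) * g⁻¹ = a ^ (-k * (p : ℤ)) := by group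
        rw [h6, ← zpow_neg]
        congr 1
        ring
      rw [h5] at h4
      exact h4
    obtain ⟨j, hj⟩ := orderOf_dvd_iff_zpow_eq_one.2 h2
    have hp0 : (p : ℤ) ≠ 0 := by
      exact_mod_cast (Fact.out : p.Prime).ne_zero
    have hpj : ¬ (p : ℤ) ∣ j := by
      rintro ⟨j', rfl⟩
      apply hak
      rw [← QuotientGroup.eq_one_iff, QuotientGroup.mk_zpow, ← orderOf_dvd_iff_zpow_eq_one]
      refine ⟨j', ?_⟩
      apply mul_right_cancel₀ hp0
      rw [hj]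
      ring
    have h3 : nv (resF F V hVF) p v = (⟨_, cusp_mem V a g⟩ : V) ^ (-j) := by
      apply Subtype.ext
      rw [hnv, Subgroup.coe_zpow]
      change g⁻¹ * a ^ (-k * (p : ℤ)) * g =
        (g⁻¹ * a ^ orderOf (QuotientGroup.mk a : 𝔽 ⧸ V) * g) ^ (-j)
      have h4 : g⁻¹ * a ^ orderOf (QuotientGroup.mk a : 𝔽 ⧸ V) * g =
          g⁻¹ * a ^ orderOf (QuotientGroup.mk a : 𝔽 ⧸ V) * g⁻¹⁻¹ := by rw [inv_inv]
      rw [h4, conj_zpow, inv_inv, ← zpow_natCast, ← zpow_mul]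
      congr 3
      rw [neg_mul, hj]
      ring
    rw [h3, map_zpow] at h1
    have h4 := congrArg Multiplicative.toAdd h1
    rw [toAdd_zpow, toAdd_one, zsmul_eq_mul] at h4
    rcases mul_eq_zero.1 h4 with h5 | h5
    · exfalso
      apply hpj
      rw [Int.cast_neg, neg_eq_zero] at h5
      exact (ZMod.intCast_zmod_eq_zero_iff_dvd j p).1 h5
    · exact h5

theorem cusp_transfer_zero [Fact p.Prime] [Finite (𝔽 ⧸ V)] [V.FiniteIndex]
    (δ : V →* Multiplicative (ZMod p))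
    (hδ : ∀ v, δ (resF F V hVF v) = δ v) (hF : ∀ g, F^[p] g = g) {a : 𝔽}
    (ha : f * F a * f⁻¹ = a) (hf : nv F p f = 1)
    (hA : ∀ g, g⁻¹ * (f * F g) ∈ V → cuspB V δ a g = 0) :
    Multiplicative.toAdd (MonoidHom.transfer δ a) = 0 := by
  classical
  letI : Fintype (cuspO V a) := Fintype.ofFinite _
  rw [cusp_transfer, cusp_sum_fixed (cuspS V F hVF f ha) (cuspS_pow V F hVF f ha hF hf) _
    (cuspβ_inv V F hVF f δ hδ ha)]
  refine sum_eq_zero fun ω hω => ?_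
  obtain ⟨g, rfl⟩ := cuspMk_surj V a ω
  rw [cuspβ_mk]
  rcases cusp_fixed V F hVF f δ hδ hF ha hf g (mem_filter.1 hω).2 with h1 | h1
  · exact h1
  · exact hA g h1

theorem cusp_transfer_one [Fact p.Prime] [Finite (𝔽 ⧸ V)] [V.FiniteIndex]
    (δ : V →* Multiplicative (ZMod p))
    (hδ : ∀ v, δ (resF F V hVF v) = δ v) (hF : ∀ g, F^[p] g = g) {a : 𝔽}
    (ha : 1 * F a * 1⁻¹ = a)
    (hA : ∀ g, g⁻¹ * (1 * F g) ∈ V → (∀ i : ℕ, g⁻¹ * a ^ i ∉ V) → cuspB V δ a g = 0)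
    (h1 : cuspB V δ a 1 = 1) :
    Multiplicative.toAdd (MonoidHom.transfer δ a) = 1 := by
  classical
  letI : Fintype (cuspO V a) := Fintype.ofFinite _
  rw [cusp_transfer, cusp_sum_fixed (cuspS V F hVF 1 ha) (cuspS_pow V F hVF 1 ha hF (nv_one F p)) _
    (cuspβ_inv V F hVF 1 δ hδ ha), sum_eq_single (cuspMk V a 1)]
  · rw [cuspβ_mk, h1]
  · intro ω hω hne
    obtain ⟨g, rfl⟩ := cuspMk_surj V a ω
    rw [cuspβ_mk]
    rcases cusp_fixed V F hVF 1 δ hδ hF ha (nv_one F p) g (mem_filter.1 hω).2 with h2 | h2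
    · exact h2
    · refine hA g h2 fun i hi => hne ?_
      rw [cuspMk_eq]
      refine ⟨i, ?_⟩
      have h3 : (a ^ (i : ℤ) * 1)⁻¹ * g = (g⁻¹ * a ^ i)⁻¹ := by
        rw [zpow_natCast]
        group
      rw [h3]
      exact V.inv_mem hi
  · intro hn
    exfalso
    apply hn
    rw [mem_filter]
    refine ⟨mem_univ _, ?_⟩
    rw [cuspS_mk, map_one, one_mul]

end

end Pool.Agent.GTT
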