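import Pool.Agent.Lib.MP_2cc432_al.Defs2

/-!
# Torsion in the profinite Grothendieck–Teichmüller group: DONE, preparations
-/

open Filter Topology Finset

namespace Pool.Agent.GTT

variable {P : Type} [Group P] [TopologicalSpace P] {F : P ≃ₜ* P} {p : ℕ}

theorem done_iter_mod (hF : ∀ g, F^[p] g = g) (i : ℕ) (g : P) : F^[i % p] g = F^[i] g :=
  Function.IsPeriodicPt.iterate_mod_apply (hF g : Function.IsPeriodicPt F p g) i

theorem done_iter_cont (i : ℕ) : Continuous (F^[i]) := F.continuous.iterate i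

/-- an `F`-stable open normal subgroup which is small -/
theorem done_exists_W [IsTopologicalGroup P] [CompactSpace P] [T2Space P]
    [TotallyDisconnectedSpace P] [Fact p.Prime] (hF : ∀ g, F^[p] g = g) (L K : Subgroup P)
    (hL : IsOpen (L : Set P)) (hK : IsOpen (K : Set P)) (hLF : ∀ u, F u = u → u ∈ L) :
    ∃ W : Subgroup P, W.Normal ∧ IsOpen (W : Set P) ∧ W ≤ K ∧ (∀ g, F g ∈ W ↔ g ∈ W) ∧
      ∀ g, g⁻¹ * F g ∈ W → g ∈ L := by
  classical
  have hp : 0 < p := (Fact.out : p.Prime).pos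
  set C : Set P := (fun g => g⁻¹ * F g) '' ((L : Set P)ᶜ) with hC
  have hCc : IsCompact C :=
    hL.isClosed_compl.isCompact.image (continuous_inv.mul F.continuous)
  have h1 : (1 : P) ∉ C := by
    rintro ⟨g, hg, h⟩
    exact hg (hLF g (inv_mul_eq_one.1 h).symm)
  obtain ⟨H, hH⟩ := ProfiniteGrp.exist_openNormalSubgroup_sub_open_nhds_of_one (G := P)
    (U := Cᶜ ∩ K) (hCc.isClosed.isOpen_compl.inter hK) ⟨h1, K.one_mem⟩
  have hHn : H.toSubgroup.Normal := H.isNormal'
  have hHo : IsOpen (H.toSubgroup : Set P) := H.isOpen'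
  let W : Subgroup P :=
    { carrier := {g | ∀ i : ℕ, F^[i] g ∈ H.toSubgroup}
      mul_mem' := fun {a b} ha hb i => by
        rw [iterate_map_mul]
        exact mul_mem (ha i) (hb i)
      one_mem' := fun i => by
        rw [iterate_map_one]
        exact one_mem _
      inv_mem' := fun {a} ha i => by
        rw [iterate_map_inv]
        exact inv_mem (ha i) }
  have hWmem : ∀ g, g ∈ W ↔ ∀ i : ℕ, F^[i] g ∈ H.toSubgroup := fun g => Iff.rfl
  refine ⟨W, ⟨fun n hn g i => ?_⟩, ?_, ?_, ?_, ?_⟩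
  · rw [iterate_map_mul, iterate_map_mul, iterate_map_inv]
    exact hHn.conj_mem _ (hn i) _
  · have h2 : (W : Set P) = ⋂ i ∈ range p, F^[i] ⁻¹' (H.toSubgroup : Set P) := by
      ext g
      simp only [SetLike.mem_coe, hWmem, Set.mem_iInter, Set.mem_preimage, mem_range]
      constructor
      · intro h i _
        exact h i
      · intro h i
        rw [← done_iter_mod hF]
        exact h _ (Nat.mod_lt _ hp)
    rw [h2]
    exact isOpen_biInter_finset fun i _ => hHo.preimage (done_iter_cont i)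
  · intro g hg
    exact (hH (hg 0)).2
  · intro g
    rw [hWmem, hWmem]
    constructor
    · intro h i
      have h3 := h (i + (p - 1))
      rw [← Function.iterate_succ_apply, show (i + (p - 1)).succ = i + p by omega,
        Function.iterate_add_apply, hF] at h3
      exact h3
    · intro h i
      rw [← Function.iterate_succ_apply]
      exact h _
  · intro g hg
    by_contra hgL
    have h4 : g⁻¹ * F g ∈ Cᶜ := (hH (hg 0)).1
    exact h4 ⟨g, hgL, rfl⟩

/-- the subgroup `L` -/
def doneL (φ ψ d : P → ZMod p) (hφ : IsHom φ)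
    (hd' : ∀ g h, d (g * h) = d g + d h + (φ (F g) - φ g) * ψ h) : Subgroup P where
  carrier := {l | ∀ i : ℕ, φ (F^[i] l) = φ l ∧ d (F^[i] l) = d l}
  mul_mem' := fun {a b} ha hb i => by
    have h1 : ∀ i, φ (F^[i] (a * b)) = φ (a * b) := fun i => by
      rw [iterate_map_mul, hφ.mul, hφ.mul, (ha i).1, (hb i).1]
    refine ⟨h1 i, ?_⟩
    have h2 : φ (F (F^[i] a)) = φ (F^[i] a) := by
      rw [← Function.iterate_succ_apply' F, (ha _).1, (ha _).1]
    have h3 : φ (F a) = φ a := (ha 1).1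
    rw [iterate_map_mul, hd', hd', h2, h3, (ha i).2, (hb i).2]
    simp
  one_mem' := fun i => by
    rw [iterate_map_one]
    exact ⟨rfl, rfl⟩
  inv_mem' := fun {a} ha i => by
    have e1 : φ 1 = 0 := by
      have := hφ.mul 1 1
      rw [mul_one] at this
      simpa using this
    have e2 : d 1 = 0 := by
      have := hd' 1 1
      rw [mul_one, map_one] at this
      simpa using this
    have e3 : ∀ g, φ g⁻¹ = - φ g := fun g => by
      have := hφ.mul g⁻¹ g
      rw [inv_mul_cancel, e1] at this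
      exact eq_neg_of_add_eq_zero_left this.symm
    have e4 : ∀ g, φ (F g) = φ g → d g⁻¹ = - d g := fun g hg => by
      have := hd' g⁻¹ g
      rw [inv_mul_cancel, e2, map_inv, e3, e3, hg] at this
      simp only [sub_self, zero_mul, add_zero] at this
      exact eq_neg_of_add_eq_zero_left this.symm
    have h2 : φ (F (F^[i] a)) = φ (F^[i] a) := by
      rw [← Function.iterate_succ_apply' F, (ha _).1, (ha _).1]
    rw [iterate_map_inv]
    refine ⟨by rw [e3, e3, (ha i).1], ?_⟩
    rw [e4 _ h2, e4 a (ha 1).1, (ha i).2]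

theorem mem_doneL {φ ψ d : P → ZMod p} {hφ : IsHom φ}
    {hd' : ∀ g h, d (g * h) = d g + d h + (φ (F g) - φ g) * ψ h} {l : P} :
    l ∈ doneL φ ψ d hφ hd' ↔ ∀ i : ℕ, φ (F^[i] l) = φ l ∧ d (F^[i] l) = d l := Iff.rfl

theorem isOpen_doneL [Fact p.Prime] (hF : ∀ g, F^[p] g = g) (φ ψ d : P → ZMod p) (hφ : IsHom φ)
    (hd : IsLocallyConstant d)
    (hd' : ∀ g h, d (g * h) = d g + d h + (φ (F g) - φ g) * ψ h) :
    IsOpen (doneL φ ψ d hφ hd' : Set P) := by
  have hp : 0 < p := (Fact.out : p.Prime).pos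
  have h2 : (doneL φ ψ d hφ hd' : Set P) = ⋂ i ∈ range p,
      {l | φ (F^[i] l) = φ l ∧ d (F^[i] l) = d l} := by
    ext g
    simp only [SetLike.mem_coe, mem_doneL, Set.mem_iInter, Set.mem_ofPred_eq, mem_range]
    constructor
    · intro h i _
      exact h i
    · intro h i
      rw [← done_iter_mod hF]
      exact h _ (Nat.mod_lt _ hp)
  rw [h2]
  refine isOpen_biInter_finset fun i _ => ?_
  have h3 : IsLocallyConstant fun l => ((φ (F^[i] l), φ l), (d (F^[i] l), d l)) :=
    ((hφ.lc.comp_continuous (done_iter_cont i)).prodMk hφ.lc).prodMk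
      ((hd.comp_continuous (done_iter_cont i)).prodMk hd)
  exact h3 {q | q.1.1 = q.1.2 ∧ q.2.1 = q.2.2}

theorem doneL_stable (φ ψ d : P → ZMod p) (hφ : IsHom φ)
    (hd' : ∀ g h, d (g * h) = d g + d h + (φ (F g) - φ g) * ψ h) (g : P)
    (hg : g ∈ doneL φ ψ d hφ hd') : F g ∈ doneL φ ψ d hφ hd' := by
  intro i
  rw [← Function.iterate_succ_apply, (hg _).1, (hg _).2]
  exact ⟨(hg 1).1.symm, (hg 1).2.symm⟩

theorem doneL_fixed {φ ψ d : P → ZMod p} {hφ : IsHom φ}
    {hd' : ∀ g h, d (g * h) = d g + d h + (φ (F g) - φ g) * ψ h} {u : P} (hu : F u = u) :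
    u ∈ doneL φ ψ d hφ hd' := by
  intro i
  rw [Function.iterate_fixed hu]
  exact ⟨rfl, rfl⟩

/-- orbits under a smooth action are locally constant -/
theorem done_smooth_lc [IsTopologicalGroup P] {T : Type} [AddCommGroup T] {ρ : P →* AddMonoid.End T}
    (h : Smooth ρ) (t : T) : IsLocallyConstant fun g => ρ g t := by
  rw [IsLocallyConstant.iff_eventually_eq]
  intro g
  have h1 : Tendsto (fun h : P => g⁻¹ * h) (𝓝 g) (𝓝 1) := by
    have : ContinuousAt (fun h : P => g⁻¹ * h) g := (continuous_const.mul continuous_id).continuousAt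
    have h2 := this.tendsto
    simpa using h2
  filter_upwards [h1.eventually (h t)] with k hk
  have : k = g * (g⁻¹ * k) := by group
  rw [this, map_mul, AddMonoid.End.coe_mul, Function.comp_apply, hk]

/-- `H · U₀` is clopen -/
theorem done_clopen [IsTopologicalGroup P] [CompactSpace P] (Z : FSpace P F p)
    (H : Subgroup P) (hH : IsOpen (H : Set P)) (U₀ : Set Z.Z) (hU : IsClopen U₀) :
    IsClopen {v | ∃ l ∈ H, Z.act l v ∈ U₀} := by
  constructor
  · have h1 : {v | ∃ l ∈ H, Z.act l v ∈ U₀} =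
        (fun a : P × Z.Z => Z.act a.1 a.2) '' ((H : Set P) ×ˢ U₀) := by
      ext v
      constructor
      · rintro ⟨l, hl, h⟩
        exact ⟨(l⁻¹, Z.act l v), ⟨inv_mem hl, h⟩, Z.act_inv_act l v⟩
      · rintro ⟨⟨l, w⟩, ⟨hl, hw⟩, rfl⟩
        exact ⟨l⁻¹, inv_mem hl, by
          change Z.act l⁻¹ (Z.act l w) ∈ U₀
          rw [Z.act_inv_act]
          exact hw⟩
    rw [h1]
    have hHc : IsClosed (H : Set P) := Subgroup.isClosed_of_isOpen H hH
    exact ((hHc.isCompact.prod hU.isClosed.isCompact).image Z.cont).isClosed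
  · have h1 : {v | ∃ l ∈ H, Z.act l v ∈ U₀} = ⋃ l ∈ H, (Z.act l) ⁻¹' U₀ := by
      ext v
      simp
    rw [h1]
    exact isOpen_biUnion fun l _ => hU.isOpen.preimage (Z.cont_right l)

end Pool.Agent.GTT
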