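import Mathlib

/-!
# Torsion in the profinite Grothendieck–Teichmüller group: basic definitions

`P` is a profinite group with an automorphism `F` with `F ^ p = 1`.
-/

open Filter Topology Finset

namespace Pool.Agent.GTT

/-! ## Norms and cohomological triviality -/

/-- the norm `1 + Φ + … + Φ ^ (p - 1)` -/
def nrm (p : ℕ) {X : Type} [AddCommGroup X] (Φ : AddMonoid.End X) (x : X) : X :=
  ∑ i ∈ range p, (Φ ^ i) x

/-- every invariant element is a norm -/
def CT (p : ℕ) {X : Type} [AddCommGroup X] (Φ : AddMonoid.End X) : Prop :=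
  ∀ x, Φ x = x → ∃ y, nrm p Φ y = x

/-! ## Derivations -/

section

variable {P : Type} [Group P] [TopologicalSpace P]

/-- locally constant derivations -/
structure IsDer {T : Type} [AddCommGroup T] (ρ : P →* AddMonoid.End T) (δ : P → T) : Prop where
  mul : ∀ g h, δ (g * h) = δ g + ρ g (δ h)
  lc : IsLocallyConstant δ

/-- smooth actions: each element is fixed by a neighbourhood of `1` -/
def Smooth {T : Type} [AddCommGroup T] (ρ : P →* AddMonoid.End T) : Prop :=
  ∀ t, ∀ᶠ g in 𝓝 (1 : P), ρ g t = t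

/-- locally constant homomorphisms to `ℤ / p` -/
structure IsHom {p : ℕ} (φ : P → ZMod p) : Prop where
  mul : ∀ g h, φ (g * h) = φ g + φ h
  lc : IsLocallyConstant φ

/-- derivations can be lifted along surjections of smooth modules killed by `p` -/
def DerLift (P : Type) [Group P] [TopologicalSpace P] (p : ℕ) : Prop :=
  ∀ (T T' : Type) [AddCommGroup T] [AddCommGroup T'] (ρ : P →* AddMonoid.End T)
    (ρ' : P →* AddMonoid.End T') (π : T →+ T'),
    (∀ t : T, p • t = 0) → Smooth ρ → Smooth ρ' → Function.Surjective π →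
    (∀ g t, π (ρ g t) = ρ' g (π t)) →
    ∀ δ' : P → T', IsDer ρ' δ' → ∃ δ : P → T, IsDer ρ δ ∧ ∀ g, π (δ g) = δ' g

/-- `nv F n v = v * F v * ⋯ * F ^ (n - 1) v` -/
def nv (F : P → P) : ℕ → P → P
  | 0, _ => 1
  | n + 1, v => v * F (nv F n v)

end

/-! ## Modules with an action of `P` and `F` -/

/-- smooth `P`-modules killed by `p` with a compatible automorphism `Φ`, `Φ ^ p = 1` -/
structure FMod (P : Type) [Group P] [TopologicalSpace P] (F : P ≃ₜ* P) (p : ℕ) where
  T : Type
  [acg : AddCommGroup T]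
  ρ : P →* AddMonoid.End T
  Φ : AddMonoid.End T
  smooth : Smooth ρ
  tors : ∀ t : T, p • t = 0
  comp : ∀ g t, Φ (ρ g t) = ρ (F g) (Φ t)
  pow : Φ ^ p = 1

attribute [instance] FMod.acg

variable {P : Type} [Group P] [TopologicalSpace P] {F : P ≃ₜ* P} {p : ℕ}

namespace FMod

variable (M : FMod P F p)

/-- cohomologically trivial for each element `v F` of order `p` -/
def SFree : Prop := ∀ v : P, nv F p v = 1 → CT p (M.ρ v * M.Φ)

/-- the group of locally constant derivations -/
def Der : AddSubgroup (P → M.T) where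
  carrier := {δ | IsDer M.ρ δ}
  add_mem' := by
    intro a b ha hb
    refine ⟨fun g h => ?_, ha.lc.add hb.lc⟩
    simp only [Pi.add_apply, ha.mul, hb.mul, map_add]
    abel
  zero_mem' := ⟨fun g h => by simp, IsLocallyConstant.const 0⟩
  neg_mem' := by
    intro a ha
    refine ⟨fun g h => ?_, ha.lc.neg⟩
    simp only [Pi.neg_apply, ha.mul, map_neg]
    abel

theorem mem_Der {δ : P → M.T} : δ ∈ M.Der ↔ IsDer M.ρ δ := Iff.rfl

/-- the action of `F` on derivations: `δ ↦ Φ ∘ δ ∘ F⁻¹` -/
def derΦ : AddMonoid.End M.Der where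
  toFun δ := ⟨fun g => M.Φ (δ.1 (F.symm g)), by
    refine ⟨fun g h => ?_, ?_⟩
    · rw [map_mul, δ.2.mul, map_add, M.comp, ContinuousMulEquiv.apply_symm_apply]
    · exact (δ.2.lc.comp_continuous F.symm.continuous).comp M.Φ⟩
  map_zero' := by
    ext g
    simp
  map_add' a b := by
    ext g
    simp

theorem derΦ_apply (δ : M.Der) (g : P) : (M.derΦ δ).1 g = M.Φ (δ.1 (F.symm g)) := rfl

/-- the derivations are cohomologically trivial for the action of `F` -/
def KM : Prop := CT p M.derΦ

end FMod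

/-! ## Spaces with an action of `P` and `F` -/

/-- compact totally disconnected spaces with a continuous action of `P` and a compatible
homeomorphism of order `p` -/
structure FSpace (P : Type) [Group P] [TopologicalSpace P] (F : P ≃ₜ* P) (p : ℕ) where
  Z : Type
  [top : TopologicalSpace Z]
  [cpt : CompactSpace Z]
  [t2 : T2Space Z]
  [td : TotallyDisconnectedSpace Z]
  act : P → Z → Z
  cont : Continuous fun a : P × Z => act a.1 a.2
  act_one : ∀ z, act 1 z = z
  act_mul : ∀ g h z, act (g * h) z = act g (act h z)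
  FZ : Z ≃ₜ Z
  FZ_act : ∀ g z, FZ (act g z) = act (F g) (FZ z)
  FZ_pow : ∀ z, FZ^[p] z = z

attribute [instance] FSpace.top FSpace.cpt FSpace.t2 FSpace.td

namespace FSpace

variable (Z : FSpace P F p)

theorem cont_right (g : P) : Continuous (Z.act g) :=
  Z.cont.comp (continuous_const.prodMk continuous_id)

theorem act_inv_act (g : P) (z : Z.Z) : Z.act g⁻¹ (Z.act g z) = z := by
  rw [← Z.act_mul, inv_mul_cancel, Z.act_one]

theorem act_act_inv (g : P) (z : Z.Z) : Z.act g (Z.act g⁻¹ z) = z := by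
  rw [← Z.act_mul, mul_inv_cancel, Z.act_one]

theorem FZ_symm_act (g : P) (z : Z.Z) :
    Z.FZ.symm (Z.act g z) = Z.act (F.symm g) (Z.FZ.symm z) := by
  apply Z.FZ.injective
  rw [Homeomorph.apply_symm_apply, Z.FZ_act, ContinuousMulEquiv.apply_symm_apply,
    Homeomorph.apply_symm_apply]

/-- a continuous `P`-map from `Z` to `P` (so that `P` acts freely on `Z`) -/
structure Sec where
  κ : Z.Z → P
  cont : Continuous κ
  act : ∀ g z, κ (Z.act g z) = g * κ z

end FSpace

/-- `(g f) z = g (f (g⁻¹ z))` -/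
def FSpace.fρ (Z : FSpace P F p) (M : FMod P F p) (g : P) :
    AddMonoid.End (LocallyConstant Z.Z M.T) where
  toFun f := ⟨fun z => M.ρ g (f (Z.act g⁻¹ z)),
    (f.isLocallyConstant.comp_continuous (Z.cont_right g⁻¹)).comp (M.ρ g)⟩
  map_zero' := by
    ext z
    simp
  map_add' a b := by
    ext z
    simp

/-- `(F f) z = F (f (F⁻¹ z))` -/
def FSpace.fΦ (Z : FSpace P F p) (M : FMod P F p) : AddMonoid.End (LocallyConstant Z.Z M.T) where
  toFun f := ⟨fun z => M.Φ (f (Z.FZ.symm z)),
    (f.isLocallyConstant.comp_continuous Z.FZ.symm.continuous).comp M.Φ⟩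
  map_zero' := by
    ext z
    simp
  map_add' a b := by
    ext z
    simp

theorem FSpace.fρ_apply (Z : FSpace P F p) (M : FMod P F p) (g : P)
    (f : LocallyConstant Z.Z M.T) (z : Z.Z) : Z.fρ M g f z = M.ρ g (f (Z.act g⁻¹ z)) := rfl

theorem FSpace.fΦ_apply (Z : FSpace P F p) (M : FMod P F p)
    (f : LocallyConstant Z.Z M.T) (z : Z.Z) : Z.fΦ M f z = M.Φ (f (Z.FZ.symm z)) := rfl

theorem FSpace.fΦ_pow_apply (Z : FSpace P F p) (M : FMod P F p) (n : ℕ)
    (f : LocallyConstant Z.Z M.T) (z : Z.Z) :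
    (Z.fΦ M ^ n) f z = (M.Φ ^ n) (f (Z.FZ.symm^[n] z)) := by
  induction n generalizing f z with
  | zero => rfl
  | succ n ih =>
    rw [pow_succ', AddMonoid.End.coe_mul, Function.comp_apply, Z.fΦ_apply, ih, pow_succ',
      AddMonoid.End.coe_mul, Function.comp_apply, Function.iterate_succ_apply]

theorem FSpace.FZ_symm_pow (Z : FSpace P F p) (z : Z.Z) : Z.FZ.symm^[p] z = z := by
  have h1 := Z.FZ_pow (Z.FZ.symm^[p] z)
  have h2 : Z.FZ^[p] (Z.FZ.symm^[p] z) = z :=
    Function.LeftInverse.iterate (fun z => Z.FZ.apply_symm_apply z) p z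
  rw [← h1, h2]

/-- the module of locally constant functions `Z → M`, with
`(g f) z = g (f (g⁻¹ z))` and `(F f) z = F (f (F⁻¹ z))` -/
def FSpace.funMod [IsTopologicalGroup P] (Z : FSpace P F p) (M : FMod P F p) : FMod P F p where
  T := LocallyConstant Z.Z M.T
  ρ :=
    { toFun := Z.fρ M
      map_one' := by
        ext f z
        rw [Z.fρ_apply, inv_one, Z.act_one, map_one]
        rfl
      map_mul' := fun g h => by
        ext f z
        rw [AddMonoid.End.coe_mul, Function.comp_apply, Z.fρ_apply, Z.fρ_apply, Z.fρ_apply,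
          mul_inv_rev, Z.act_mul, map_mul]
        rfl }
  Φ := Z.fΦ M
  smooth := by
    intro f
    have key : ∀ z ∈ (Set.univ : Set Z.Z), ∀ᶠ q : P × Z.Z in 𝓝 1 ×ˢ 𝓝 z,
        M.ρ q.1 (f (Z.act q.1⁻¹ q.2)) = f q.2 := by
      intro z _
      have h1 : ∀ᶠ q : P × Z.Z in 𝓝 1 ×ˢ 𝓝 z, f (Z.act q.1⁻¹ q.2) = f z := by
        have hc : Continuous fun q : P × Z.Z => Z.act q.1⁻¹ q.2 :=
          Z.cont.comp (continuous_fst.inv.prodMk continuous_snd)
        have h := (f.isLocallyConstant.comp_continuous hc).eventually_eq (1, z)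
        rw [nhds_prod_eq] at h
        filter_upwards [h] with q hq
        have hq' : f (Z.act q.1⁻¹ q.2) = f (Z.act (1 : P)⁻¹ z) := hq
        rw [hq', inv_one, Z.act_one]
      have h2 : ∀ᶠ q : P × Z.Z in 𝓝 1 ×ˢ 𝓝 z, f q.2 = f z :=
        (f.isLocallyConstant.eventually_eq z).prod_inr _
      have h3 : ∀ᶠ q : P × Z.Z in 𝓝 1 ×ˢ 𝓝 z, M.ρ q.1 (f z) = f z :=
        (M.smooth (f z)).prod_inl _
      filter_upwards [h1, h2, h3] with q e1 e2 e3
      rw [e1, e3, e2]
    have h := isCompact_univ.eventually_forall_of_forall_eventually (x₀ := (1 : P))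
      (P := fun g z => M.ρ g (f (Z.act g⁻¹ z)) = f z) (fun z hz => by
        rw [nhds_prod_eq]
        exact key z hz)
    filter_upwards [h] with g hg
    ext z
    exact hg z (Set.mem_univ z)
  tors f := by
    ext z
    exact M.tors (f z)
  comp g f := by
    ext z
    change Z.fΦ M (Z.fρ M g f) z = Z.fρ M (F g) (Z.fΦ M f) z
    rw [Z.fΦ_apply, Z.fρ_apply, Z.fρ_apply, Z.fΦ_apply, M.comp, Z.FZ_symm_act, map_inv,
      ContinuousMulEquiv.symm_apply_apply]
  pow := by
    ext f z
    rw [Z.fΦ_pow_apply, M.pow, Z.FZ_symm_pow]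
    rfl

/-! ## Trees -/

/-- A replacement for the Cayley graph of a free profinite group on two generators: a free
`P`-space with two `P`-maps `r 0`, `r 1` such that the complex
`0 → A → C(Y, A) → C(Y, A)²` is exact for each group `A` killed by `p`. -/
structure Tree (P : Type) [Group P] [TopologicalSpace P] (p : ℕ) where
  Y : Type
  [top : TopologicalSpace Y]
  [cpt : CompactSpace Y]
  [t2 : T2Space Y]
  [td : TotallyDisconnectedSpace Y]
  y₀ : Y
  act : P → Y → Y
  cont : Continuous fun a : P × Y => act a.1 a.2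
  act_one : ∀ y, act 1 y = y
  act_mul : ∀ g h y, act (g * h) y = act g (act h y)
  κ : Y → P
  κ_cont : Continuous κ
  κ_act : ∀ g y, κ (act g y) = g * κ y
  r : Fin 2 → Y → Y
  r_cont : ∀ e, Continuous (r e)
  r_act : ∀ e g y, r e (act g y) = act g (r e y)
  T0 : ∀ (A : Type) (f : Y → A), IsLocallyConstant f → (∀ e y, f (r e y) = f y) →
    ∀ y y', f y = f y'
  T1 : ∀ (A : Type) [AddCommGroup A], (∀ a : A, p • a = 0) → ∀ g : Fin 2 → Y → A,
    (∀ e, IsLocallyConstant (g e)) →
      ∃ f : Y → A, IsLocallyConstant f ∧ ∀ e y, f (r e y) - f y = g e y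

attribute [instance] Tree.top Tree.cpt Tree.t2 Tree.td

/-! ## Free profinite groups on two generators -/

/-- the universal property of the free profinite group on `x`, `y` -/
structure FreeProf (𝔽 : Type) [Group 𝔽] [TopologicalSpace 𝔽] (x y : 𝔽) : Prop where
  dense : ∀ S : Subgroup 𝔽, IsClosed (S : Set 𝔽) → x ∈ S → y ∈ S → S = ⊤
  lift : ∀ (G : Type) [Group G] [Finite G] (a b : G),
    ∃ φ : 𝔽 →* G, IsLocallyConstant φ ∧ φ x = a ∧ φ y = b

end Pool.Agent.GTT
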