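import Pool.Agent.Lib.MP_2cc432_al.Defs

/-!
# Torsion in the profinite Grothendieck–Teichmüller group: constructions
-/

open Filter Topology Finset

namespace Pool.Agent.GTT

variable {P : Type} [Group P] [TopologicalSpace P] {F : P ≃ₜ* P} {p : ℕ}

/-! ## Submodules, quotients, the trivial module -/

/-- the restriction of an endomorphism to a subgroup -/
def subEnd {T : Type} [AddCommGroup T] (A : AddSubgroup T) (f : AddMonoid.End T)
    (h : ∀ t ∈ A, f t ∈ A) : AddMonoid.End A where
  toFun t := ⟨f t.1, h t.1 t.2⟩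
  map_zero' := Subtype.ext (map_zero f)
  map_add' a b := Subtype.ext (map_add f a.1 b.1)

theorem subEnd_pow {T : Type} [AddCommGroup T] (A : AddSubgroup T) (f : AddMonoid.End T)
    (h : ∀ t ∈ A, f t ∈ A) (n : ℕ) (t : A) : ((subEnd A f h ^ n) t : T) = (f ^ n) t := by
  induction n generalizing t with
  | zero => rfl
  | succ n ih =>
    rw [pow_succ', AddMonoid.End.coe_mul, Function.comp_apply, pow_succ',
      AddMonoid.End.coe_mul, Function.comp_apply, ← ih]
    rfl

/-- the endomorphism of a quotient -/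
def quotEnd {T : Type} [AddCommGroup T] (A : AddSubgroup T) (f : AddMonoid.End T)
    (h : ∀ t ∈ A, f t ∈ A) : AddMonoid.End (T ⧸ A) :=
  QuotientAddGroup.map A A f fun t ht => h t ht

theorem quotEnd_mk {T : Type} [AddCommGroup T] (A : AddSubgroup T) (f : AddMonoid.End T)
    (h : ∀ t ∈ A, f t ∈ A) (t : T) :
    quotEnd A f h (QuotientAddGroup.mk t) = QuotientAddGroup.mk (f t) := rfl

theorem quotEnd_pow {T : Type} [AddCommGroup T] (A : AddSubgroup T) (f : AddMonoid.End T)
    (h : ∀ t ∈ A, f t ∈ A) (n : ℕ) (t : T) :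
    (quotEnd A f h ^ n) (QuotientAddGroup.mk t) = QuotientAddGroup.mk ((f ^ n) t) := by
  induction n generalizing t with
  | zero => rfl
  | succ n ih =>
    rw [pow_succ', AddMonoid.End.coe_mul, Function.comp_apply, ih, pow_succ',
      AddMonoid.End.coe_mul, Function.comp_apply]
    rfl

/-- a submodule -/
def FMod.sub (M : FMod P F p) (A : AddSubgroup M.T) (hρ : ∀ g, ∀ t ∈ A, M.ρ g t ∈ A)
    (hΦ : ∀ t ∈ A, M.Φ t ∈ A) : FMod P F p where
  T := A
  ρ :=
    { toFun := fun g => subEnd A (M.ρ g) (hρ g)
      map_one' := by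
        ext t
        change M.ρ 1 t.1 = t.1
        rw [map_one]
        rfl
      map_mul' := fun g h => by
        ext t
        change M.ρ (g * h) t.1 = M.ρ g (M.ρ h t.1)
        rw [map_mul]
        rfl }
  Φ := subEnd A M.Φ hΦ
  smooth := fun t => by
    filter_upwards [M.smooth t.1] with g hg
    exact Subtype.ext hg
  tors := fun t => Subtype.ext (by
    rw [AddSubgroup.coe_nsmul, M.tors]
    rfl)
  comp := fun g t => Subtype.ext (M.comp g t.1)
  pow := by
    ext t
    rw [subEnd_pow, M.pow]
    rfl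

/-- a quotient module -/
def FMod.quot (M : FMod P F p) (A : AddSubgroup M.T) (hρ : ∀ g, ∀ t ∈ A, M.ρ g t ∈ A)
    (hΦ : ∀ t ∈ A, M.Φ t ∈ A) : FMod P F p where
  T := M.T ⧸ A
  ρ :=
    { toFun := fun g => quotEnd A (M.ρ g) (hρ g)
      map_one' := by
        ext t
        obtain ⟨t, rfl⟩ := QuotientAddGroup.mk_surjective t
        rw [quotEnd_mk, map_one]
        rfl
      map_mul' := fun g h => by
        ext t
        obtain ⟨t, rfl⟩ := QuotientAddGroup.mk_surjective t
        rw [quotEnd_mk, map_mul]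
        rfl }
  Φ := quotEnd A M.Φ hΦ
  smooth := fun t => by
    obtain ⟨t, rfl⟩ := QuotientAddGroup.mk_surjective t
    filter_upwards [M.smooth t] with g hg
    exact congrArg QuotientAddGroup.mk hg
  tors := fun t => by
    obtain ⟨t, rfl⟩ := QuotientAddGroup.mk_surjective t
    change (QuotientAddGroup.mk (p • t) : M.T ⧸ A) = _
    rw [M.tors]
    rfl
  comp := fun g t => by
    obtain ⟨t, rfl⟩ := QuotientAddGroup.mk_surjective t
    exact congrArg QuotientAddGroup.mk (M.comp g t)
  pow := by
    ext t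
    obtain ⟨t, rfl⟩ := QuotientAddGroup.mk_surjective t
    rw [quotEnd_pow, M.pow]
    rfl

/-- the trivial module `ℤ / p` -/
def triv (P : Type) [Group P] [TopologicalSpace P] (F : P ≃ₜ* P) (p : ℕ) : FMod P F p where
  T := ZMod p
  ρ := 1
  Φ := 1
  smooth := fun _ => Eventually.of_forall fun _ => rfl
  tors := fun t => by
    rw [nsmul_eq_mul, CharP.cast_eq_zero, zero_mul]
  comp := fun _ _ => rfl
  pow := one_pow _

/-! ## The space of complements -/

omit [TopologicalSpace P] in
theorem nv_succ (F : P → P) (n : ℕ) (v : P) : nv F (n + 1) v = v * F (nv F n v) := rfl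

theorem nv_succ' (F : P ≃ₜ* P) (n : ℕ) (v : P) : nv F (n + 1) v = nv F n v * F^[n] v := by
  induction n with
  | zero => simp [nv]
  | succ n ih =>
    rw [nv_succ, ih, map_mul, ← mul_assoc, ← nv_succ, ← Function.iterate_succ_apply' F, ih]

theorem nv_conj (F : P ≃ₜ* P) (n : ℕ) (g v : P) :
    nv F n (g * v * (F g)⁻¹) = g * nv F n v * (F^[n] g)⁻¹ := by
  induction n with
  | zero => simp [nv]
  | succ n ih =>
    rw [nv_succ, ih, map_mul, map_mul, map_inv, nv_succ, Function.iterate_succ_apply']
    group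

theorem nv_map (F : P ≃ₜ* P) (n : ℕ) (v : P) : nv F n (F v) = F (nv F n v) := by
  induction n with
  | zero => simp [nv]
  | succ n ih => rw [nv_succ, ih, nv_succ, map_mul]

theorem continuous_nv [ContinuousMul P] (F : P ≃ₜ* P) (n : ℕ) : Continuous (nv F n) := by
  induction n with
  | zero => exact continuous_const
  | succ n ih => exact continuous_id.mul (F.continuous.comp ih)

theorem nv_one (F : P ≃ₜ* P) (n : ℕ) : nv F n 1 = 1 := by
  induction n with
  | zero => rfl
  | succ n ih => rw [nv_succ, ih, map_one, mul_one]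

theorem nv_symm_eq_one {F : P ≃ₜ* P} {n : ℕ} {v : P} (h : nv F n v = 1) :
    nv F n (F.symm v) = 1 := by
  have h' := nv_map F n (F.symm v)
  rw [ContinuousMulEquiv.apply_symm_apply, h] at h'
  apply F.injective
  rw [← h', map_one]

theorem nv_map_eq_one {F : P ≃ₜ* P} {n : ℕ} {v : P} (h : nv F n v = 1) :
    nv F n (F v) = 1 := by
  rw [nv_map, h, map_one]

/-- the map `F` on the elements of norm `1` -/
def tF (F : P ≃ₜ* P) (p : ℕ) : {v : P // nv F p v = 1} ≃ₜ {v : P // nv F p v = 1} where
  toFun := fun v => ⟨F v.1, nv_map_eq_one v.2⟩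
  invFun := fun v => ⟨F.symm v.1, nv_symm_eq_one v.2⟩
  left_inv := fun v => Subtype.ext (F.symm_apply_apply v.1)
  right_inv := fun v => Subtype.ext (F.apply_symm_apply v.1)
  continuous_toFun := (F.continuous.comp continuous_subtype_val).subtype_mk _
  continuous_invFun := (F.symm.continuous.comp continuous_subtype_val).subtype_mk _

theorem tF_apply (F : P ≃ₜ* P) (p : ℕ) (v : {v : P // nv F p v = 1}) :
    (tF F p v).1 = F v.1 := rfl

theorem tF_iterate (F : P ≃ₜ* P) (p : ℕ) (n : ℕ) (v : {v : P // nv F p v = 1}) :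
    ((tF F p)^[n] v).1 = F^[n] v.1 := by
  induction n generalizing v with
  | zero => rfl
  | succ n ih => rw [Function.iterate_succ_apply, ih, Function.iterate_succ_apply, tF_apply]

/-- the space of all `v` with `v F(v) ⋯ F^(p-1)(v) = 1`, i.e. of the elements `v F` of order `p`,
with the action by conjugation -/
def tSpace [IsTopologicalGroup P] [CompactSpace P] [T2Space P] [TotallyDisconnectedSpace P]
    (F : P ≃ₜ* P) (p : ℕ) (hF : ∀ g, F^[p] g = g) : FSpace P F p where
  Z := {v : P // nv F p v = 1}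
  cpt := isCompact_iff_compactSpace.1
    (isClosed_singleton.preimage (continuous_nv F p) : IsClosed {v : P | nv F p v = 1}).isCompact
  act := fun g v => ⟨g * v.1 * (F g)⁻¹, by rw [nv_conj, v.2, hF, mul_one, mul_inv_cancel]⟩
  cont := by
    apply Continuous.subtype_mk
    exact (continuous_fst.mul (continuous_subtype_val.comp continuous_snd)).mul
      (F.continuous.comp continuous_fst).inv
  act_one := fun z => Subtype.ext (by simp)
  act_mul := fun g h z => Subtype.ext (by
    simp only [map_mul]
    group)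
  FZ := tF F p
  FZ_act := fun g z => Subtype.ext (by
    simp only [tF_apply, map_mul, map_inv])
  FZ_pow := fun z => Subtype.ext ((tF_iterate F p p z).trans (hF z.1))

section

variable [IsTopologicalGroup P] [CompactSpace P] [T2Space P] [TotallyDisconnectedSpace P]
  (hF : ∀ g, F^[p] g = g)

/-- the module of locally constant functions on the space of complements -/
def cMod : FMod P F p := (tSpace F p hF).funMod (triv P F p)

/-- the base point `1` of `tSpace`, i.e. the element `F` -/
def tOne : (tSpace F p hF).Z := ⟨1, nv_one F p⟩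

end

/-! ## Restriction to subgroups -/

/-- the restriction of `F` to a subgroup -/
def resF (F : P ≃ₜ* P) (V : Subgroup P) (hVF : ∀ g, F g ∈ V ↔ g ∈ V) : V ≃ₜ* V where
  toFun v := ⟨F v.1, (hVF _).2 v.2⟩
  invFun v := ⟨F.symm v.1, (hVF _).1 (by rw [ContinuousMulEquiv.apply_symm_apply]; exact v.2)⟩
  left_inv v := Subtype.ext (by simp)
  right_inv v := Subtype.ext (by simp)
  map_mul' a b := Subtype.ext (by simp)
  continuous_toFun := (F.continuous.comp continuous_subtype_val).subtype_mk _
  continuous_invFun := (F.symm.continuous.comp continuous_subtype_val).subtype_mk _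

theorem resF_apply (F : P ≃ₜ* P) (V : Subgroup P) (hVF : ∀ g, F g ∈ V ↔ g ∈ V) (v : V) :
    (resF F V hVF v : P) = F v := rfl

theorem resF_iterate (F : P ≃ₜ* P) (V : Subgroup P) (hVF : ∀ g, F g ∈ V ↔ g ∈ V) (n : ℕ) (v : V) :
    ((resF F V hVF)^[n] v : P) = F^[n] v := by
  induction n generalizing v with
  | zero => rfl
  | succ n ih => rw [Function.iterate_succ_apply, ih, Function.iterate_succ_apply, resF_apply]

theorem resF_nv (F : P ≃ₜ* P) (V : Subgroup P) (hVF : ∀ g, F g ∈ V ↔ g ∈ V) (n : ℕ) (v : V) :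
    ((nv (resF F V hVF) n v : V) : P) = nv F n (v : P) := by
  induction n with
  | zero => rfl
  | succ n ih => rw [nv_succ, Subgroup.coe_mul, resF_apply, ih, nv_succ]

/-- `φ` vanishes on the conjugates of powers of `x`, `y` and `x * y` -/
def Unram (x y : P) (V : Subgroup P) (φ : V → ZMod p) : Prop :=
  ∀ a, (a = x ∨ a = y ∨ a = x * y) → ∀ (g : P) (n : ℕ) (h : g⁻¹ * a ^ n * g ∈ V), φ ⟨_, h⟩ = 0

end Pool.Agent.GTT
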