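import Pool.Agent.Lib.MP_2cc432_al.CuspA

/-!
# Free profinite groups with cusps and involutions
-/

open Filter Topology Finset

namespace Pool.Agent.GTT

/-- the universal property of the free profinite group on `c 0, …, c (n - 1)` -/
structure FreeProfN (P : Type) [Group P] [TopologicalSpace P] {n : ℕ} (c : Fin n → P) : Prop where
  dense : ∀ S : Subgroup P, IsClosed (S : Set P) → (∀ i, c i ∈ S) → S = ⊤
  lift : ∀ (G : Type) [Group G] [Finite G] (a : Fin n → G),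
    ∃ φ : P →* G, IsLocallyConstant φ ∧ ∀ i, φ (c i) = a i

/-- the cusps: `c 0, …, c (n - 1)` and `(c 0 ⋯ c (n - 1))⁻¹` -/
def cusp {P : Type} [Group P] {n : ℕ} (c : Fin n → P) : Option (Fin n) → P
  | some i => c i
  | none => ((List.ofFn c).prod)⁻¹

section

variable {P : Type} [Group P] [TopologicalSpace P] {n : ℕ} (c : Fin n → P) (F : P ≃ₜ* P)

/-- an involution `F` of `P` which maps each cusp to a conjugate of the inverse of a cusp -/
structure RealStr where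
  π : Option (Fin n) → Option (Fin n)
  f : Option (Fin n) → P
  hF : ∀ g, F^[2] g = g
  cusp_F : ∀ i, F (cusp c i) = (f i)⁻¹ * (cusp c (π i))⁻¹ * f i
  inv : ∀ i, f (π i) * F (f i) = 1
  ππ : ∀ i, π (π i) = i

variable (V : Subgroup P) [hVn : V.Normal]

/-- the set of cusps of the open normal subgroup `V` -/
abbrev Cusps : Type := Σ i : Option (Fin n), cuspO V (cusp c i)

/-- a generator of the inertia group of the cusp `a` at `g` -/
noncomputable def cuspEl (a g : P) : V := ⟨g⁻¹ * a ^ orderOf (QuotientGroup.mk a : P ⧸ V) * g, cusp_mem V a g⟩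

/-- the value of a function at a cusp -/
noncomputable def cval {A : Type} (φ : V → A) (ω : Cusps c V) : A :=
  φ (cuspEl V (cusp c ω.1) ω.2.out.out)

/-- unramified functions: zero on all conjugates of powers of the cusps -/
def UnramN {N : ℕ} (φ : V → ZMod N) : Prop :=
  ∀ (i : Option (Fin n)) (g : P) (k : ℕ) (h : g⁻¹ * cusp c i ^ k * g ∈ V), φ ⟨_, h⟩ = 0

variable {c F}

theorem cusp_zpow_aux (F : P ≃ₜ* P) {a b f : P} (ha : F a = f⁻¹ * b⁻¹ * f) (k : ℤ) :
    f * F (a ^ k) = b ^ (-k) * f := by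
  have h : F (a ^ k) = f⁻¹ * b ^ (-k) * f := by
    rw [map_zpow, ha]
    have h1 : f⁻¹ * b⁻¹ * f = f⁻¹ * b⁻¹ * (f⁻¹)⁻¹ := by rw [inv_inv]
    have h2 : f⁻¹ * b ^ (-k) * f = f⁻¹ * b ^ (-k) * (f⁻¹)⁻¹ := by rw [inv_inv]
    rw [h1, h2, conj_zpow, inv_zpow, zpow_neg]
  rw [h]
  group

/-- the action of `F` on the cusps of `V`: `(i, [g]) ↦ (π i, [f i * F g])` -/
def RealStr.map (S : RealStr c F) (hVF : ∀ g, F g ∈ V ↔ g ∈ V) : Cusps c V → Cusps c V :=
  fun ω => ⟨S.π ω.1, Quotient.map' (cuspT V F hVF (S.f ω.1)) (by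
    intro q q' hq
    rw [MulAction.orbitRel_apply] at hq ⊢
    obtain ⟨g, rfl⟩ := QuotientGroup.mk_surjective q'
    obtain ⟨⟨_, k, rfl⟩, hk⟩ := hq
    refine ⟨⟨_, -k, rfl⟩, ?_⟩
    rw [← hk]
    change (QuotientGroup.mk (cusp c (S.π ω.1) ^ (-k) * (S.f ω.1 * F g)) : P ⧸ V) =
      QuotientGroup.mk (S.f ω.1 * F (cusp c ω.1 ^ k * g))
    rw [map_mul, ← mul_assoc (S.f ω.1), cusp_zpow_aux F (S.cusp_F ω.1) k, mul_assoc]) ω.2⟩

omit hVn in
theorem RealStr.map_mk (S : RealStr c F) (hVF : ∀ g, F g ∈ V ↔ g ∈ V) (i : Option (Fin n))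
    (g : P) : S.map V hVF ⟨i, cuspMk V (cusp c i) g⟩ =
      ⟨S.π i, cuspMk V (cusp c (S.π i)) (S.f i * F g)⟩ := rfl

end

section

variable {P : Type} [Group P] [TopologicalSpace P] [IsTopologicalGroup P] [CompactSpace P]
  [T2Space P] [TotallyDisconnectedSpace P] {F : P ≃ₜ* P}

/-- conjugacy of elements `v F` of order `p` -/
def tRel {p : ℕ} (hF : ∀ g, F^[p] g = g) : Setoid (tSpace F p hF).Z where
  r v w := ∃ g, (tSpace F p hF).act g v = w
  iseqv := ⟨fun v => ⟨1, (tSpace F p hF).act_one v⟩, by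
    rintro v w ⟨g, rfl⟩
    exact ⟨g⁻¹, (tSpace F p hF).act_inv_act g v⟩, by
    rintro v w u ⟨g, rfl⟩ ⟨h, rfl⟩
    exact ⟨h * g, (tSpace F p hF).act_mul h g v⟩⟩

omit [IsTopologicalGroup P] [CompactSpace P] [T2Space P] [TotallyDisconnectedSpace P] in
theorem resF_hF (V : Subgroup P) (hVF : ∀ g, F g ∈ V ↔ g ∈ V) {p : ℕ} (hF : ∀ g, F^[p] g = g)
    (g : V) : (resF F V hVF)^[p] g = g := Subtype.ext (by rw [resF_iterate, hF])

/-- the two elements `f i F` and `c i f i F` of order 2 at a real cusp `i` -/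
def RealStr.entry {n : ℕ} {c : Fin n → P} (S : RealStr c F)
    (s : {i : Option (Fin n) // S.π i = i} × Bool) : (tSpace F 2 S.hF).Z :=
  ⟨(if s.2 then cusp c s.1.1 else 1) * S.f s.1.1, by
    have h1 : S.f s.1.1 * F (S.f s.1.1) = 1 := by
      have h := S.inv s.1.1
      rwa [s.1.2] at h
    have h2 : F (cusp c s.1.1) = (S.f s.1.1)⁻¹ * (cusp c s.1.1)⁻¹ * S.f s.1.1 := by
      have h := S.cusp_F s.1.1
      rwa [s.1.2] at h
    have h3 : F (S.f s.1.1) = (S.f s.1.1)⁻¹ := eq_inv_of_mul_eq_one_right h1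
    change (if s.2 then cusp c s.1.1 else 1) * S.f s.1.1 *
      F ((if s.2 then cusp c s.1.1 else 1) * S.f s.1.1 * F 1) = 1
    rcases s with ⟨i, _ | _⟩
    · simp only [Bool.false_eq_true, if_false, one_mul, map_one, mul_one]
      exact h1
    · simp only [if_true, map_one, mul_one, map_mul]
      rw [h2, h3]
      group⟩

end

/-! ## homomorphisms to `ℤ / 2` and `ℤ / 4` -/

section

variable {P : Type} [Group P] [TopologicalSpace P]

/-- the locally constant homomorphisms to `ℤ / N` -/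
def homs (P : Type) [Group P] [TopologicalSpace P] (N : ℕ) : Set (P → ZMod N) := {D | IsHom D}

/-- the norms `E + E ∘ F` -/
def normHoms (F : P ≃ₜ* P) (N : ℕ) : Set (P → ZMod N) :=
  {D | ∃ E : P → ZMod N, IsHom E ∧ ∀ g, D g = E g + E (F g)}

/-- the reduction `ℤ / 4 → ℤ / 2` -/
def red42 : ZMod 4 →+* ZMod 2 := ZMod.castHom (by decide : 2 ∣ 4) (ZMod 2)

/-- the reductions of the homomorphisms `E : P → ℤ / 4` with `E ∘ F = -E` -/
def antiHoms (F : P ≃ₜ* P) : Set (P → ZMod 2) :=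
  {D | ∃ E : P → ZMod 4, IsHom E ∧ (∀ g, E (F g) = -E g) ∧ ∀ g, D g = red42 (E g)}

end

end Pool.Agent.GTT
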