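import Pool.Agent.Lib.MP_2cc432_al.FilDefs

/-!
Alternating sums of locally constant functions on powers of a tree (module DELTA of the project
TGT, MP_2cc432_al).
-/

open Filter Topology Finset

namespace Pool.Agent.GTT

namespace Delta

section Alt
variable {ι : Type} [Fintype ι] [DecidableEq ι] {Y T : Type} [AddCommGroup T]

theorem pw_update (R : Finset ι) {i : ι} (hi : i ∉ R) (y y' : ι → Y) (t : Y) :
    Function.update (R.piecewise y' y) i t = R.piecewise y' (Function.update y i t) := by
  funext j
  by_cases hj : j = i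
  · rw [hj, Function.update_self, Finset.piecewise_eq_of_notMem _ _ _ hi, Function.update_self]
  · rw [Function.update_of_ne hj]
    by_cases hR : j ∈ R
    · rw [Finset.piecewise_eq_of_mem _ _ _ hR, Finset.piecewise_eq_of_mem _ _ _ hR]
    · rw [Finset.piecewise_eq_of_notMem _ _ _ hR, Finset.piecewise_eq_of_notMem _ _ _ hR,
        Function.update_of_ne hj]

theorem alt_empty (f : (ι → Y) → T) (y y' : ι → Y) : alt ∅ f y y' = f y := by
  unfold alt
  rw [Finset.powerset_empty, Finset.sum_singleton, Finset.card_empty, pow_zero, one_zsmul,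
    Finset.piecewise_empty]

theorem alt_insert {i : ι} {S : Finset ι} (hi : i ∉ S) (f : (ι → Y) → T) (y y' : ι → Y) :
    alt (insert i S) f y y' = alt S f y y' - alt S f (Function.update y i (y' i)) y' := by
  unfold alt
  rw [Finset.sum_powerset_insert hi, sub_eq_add_neg, ← Finset.sum_neg_distrib]
  congr 1
  refine Finset.sum_congr rfl fun R hR => ?_
  have hiR : i ∉ R := fun h => hi (Finset.mem_powerset.1 hR h)
  rw [Finset.card_insert_of_notMem hiR, pow_succ, mul_neg_one, neg_smul, ← pw_update R hiR,
    Finset.piecewise_insert]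

theorem alt_congr_right {S : Finset ι} (f : (ι → Y) → T) (y : ι → Y) {y' y'' : ι → Y}
    (h : ∀ i ∈ S, y' i = y'' i) : alt S f y y' = alt S f y y'' := by
  unfold alt
  refine Finset.sum_congr rfl fun R hR => ?_
  have hRS := Finset.mem_powerset.1 hR
  congr 2
  funext j
  by_cases hj : j ∈ R
  · rw [Finset.piecewise_eq_of_mem _ _ _ hj, Finset.piecewise_eq_of_mem _ _ _ hj, h j (hRS hj)]
  · rw [Finset.piecewise_eq_of_notMem _ _ _ hj, Finset.piecewise_eq_of_notMem _ _ _ hj]

theorem alt_congr {S : Finset ι} {f g : (ι → Y) → T} {y y' : ι → Y}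
    (h : ∀ R ⊆ S, f (R.piecewise y' y) = g (R.piecewise y' y)) : alt S f y y' = alt S g y y' := by
  unfold alt
  refine Finset.sum_congr rfl fun R hR => ?_
  rw [h R (Finset.mem_powerset.1 hR)]

theorem alt_sub (S : Finset ι) (f g : (ι → Y) → T) (y y' : ι → Y) :
    alt S (fun z => f z - g z) y y' = alt S f y y' - alt S g y y' := by
  unfold alt
  rw [← Finset.sum_sub_distrib]
  refine Finset.sum_congr rfl fun R _ => ?_
  rw [smul_sub]

theorem alt_update {i : ι} {S : Finset ι} (hi : i ∉ S) (f : (ι → Y) → T) (a : Y → Y)
    (y y' : ι → Y) :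
    alt S (fun z => f (Function.update z i (a (z i)))) y y' =
      alt S f (Function.update y i (a (y i))) y' := by
  unfold alt
  refine Finset.sum_congr rfl fun R hR => ?_
  have hiR : i ∉ R := fun h => hi (Finset.mem_powerset.1 hR h)
  change (-1 : ℤ) ^ R.card • f (Function.update (R.piecewise y' y) i (a (R.piecewise y' y i))) = _
  rw [pw_update R hiR, Finset.piecewise_eq_of_notMem _ _ _ hiR]

variable [TopologicalSpace Y]

theorem continuous_pw (R : Finset ι) {X : Type} [TopologicalSpace X] {a b : X → ι → Y}
    (ha : Continuous a) (hb : Continuous b) : Continuous fun x => R.piecewise (a x) (b x) := by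
  refine continuous_pi fun j => ?_
  by_cases hj : j ∈ R
  · simp only [Finset.piecewise_eq_of_mem _ _ _ hj]
    exact (continuous_apply j).comp ha
  · simp only [Finset.piecewise_eq_of_notMem _ _ _ hj]
    exact (continuous_apply j).comp hb

theorem lc_sum {X κ : Type} [TopologicalSpace X] (s : Finset κ) (f : κ → X → T)
    (h : ∀ a ∈ s, IsLocallyConstant (f a)) : IsLocallyConstant fun x => ∑ a ∈ s, f a x := by
  classical
  induction s using Finset.induction_on with
  | empty =>
    simp only [Finset.sum_empty]
    exact IsLocallyConstant.const 0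
  | insert a s ha ih =>
    simp only [Finset.sum_insert ha]
    exact (h a (Finset.mem_insert_self a s)).add (ih fun b hb => h b (Finset.mem_insert_of_mem hb))

theorem alt_lc {X : Type} [TopologicalSpace X] (S : Finset ι) {f : (ι → Y) → T}
    (hf : IsLocallyConstant f) {a b : X → ι → Y} (ha : Continuous a) (hb : Continuous b) :
    IsLocallyConstant fun x => alt S f (a x) (b x) := by
  unfold alt
  refine lc_sum _ _ fun R _ => ?_
  exact (hf.comp_continuous (continuous_pw R hb ha)).comp fun t => (-1 : ℤ) ^ R.card • t

end Alt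

end Delta

theorem alt_eq_zero {ι : Type} [Fintype ι] [DecidableEq ι] {Y T : Type} [AddCommGroup T]
    (f : (ι → Y) → T) (S K : Finset ι)
    (hf : ∀ y y', (∀ i ∈ K, y i = y' i) → f y = f y') (hS : ¬ S ⊆ K) (y y' : ι → Y) :
    alt S f y y' = 0 := by
  obtain ⟨i, hi, hiK⟩ := not_subset.1 hS
  have h1 := Delta.alt_update (notMem_erase i S) f (fun _ => y' i) y y'
  have h2 := Delta.alt_insert (notMem_erase i S) f y y'
  rw [insert_erase hi, ← h1] at h2
  rw [h2, sub_eq_zero]
  refine Delta.alt_congr fun R _ => hf _ _ fun j hj => ?_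
  have hji : j ≠ i := fun h => hiK (h ▸ hj)
  rw [Function.update_of_ne hji]

namespace Delta

section Curry
variable {Y Z T : Type} [TopologicalSpace Y] [TopologicalSpace Z]

theorem curry_lc [CompactSpace Z] (G : Y × Z → T) (hG : IsLocallyConstant G)
    (g : Y → LocallyConstant Z T) (hg : ∀ t z, g t z = G (t, z)) : IsLocallyConstant g := by
  rw [IsLocallyConstant.iff_eventually_eq]
  intro t₀
  have h1 : ∀ᶠ t in 𝓝 t₀, ∀ z ∈ (Set.univ : Set Z), G (t, z) = G (t₀, z) := by
    refine IsCompact.eventually_forall_of_forall_eventually isCompact_univ fun z _ => ?_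
    have h2 : ∀ᶠ w in 𝓝 ((t₀, z) : Y × Z), G w = G (t₀, z) :=
      (IsLocallyConstant.iff_eventually_eq G).1 hG (t₀, z)
    have hc : Continuous fun w : Y × Z => ((t₀, w.2) : Y × Z) := by fun_prop
    have h3 : ∀ᶠ w in 𝓝 ((t₀, z) : Y × Z), G (t₀, w.2) = G (t₀, z) :=
      (hc.tendsto (t₀, z)).eventually h2
    filter_upwards [h2, h3] with w hw1 hw2
    rw [hw2]
    exact hw1
  filter_upwards [h1] with t ht
  ext z
  rw [hg, hg]
  exact ht z (Set.mem_univ z)

theorem uncurry_lc (g : Y → LocallyConstant Z T) (hg : IsLocallyConstant g) :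
    IsLocallyConstant fun w : Y × Z => g w.1 w.2 := by
  rw [IsLocallyConstant.iff_eventually_eq]
  rintro ⟨t₀, z₀⟩
  have h1 : ∀ᶠ w in 𝓝 ((t₀, z₀) : Y × Z), g w.1 = g t₀ :=
    (continuous_fst.tendsto (t₀, z₀)).eventually
      ((IsLocallyConstant.iff_eventually_eq g).1 hg t₀)
  have h2 : ∀ᶠ w in 𝓝 ((t₀, z₀) : Y × Z), g t₀ w.2 = g t₀ z₀ :=
    (continuous_snd.tendsto (t₀, z₀)).eventually
      ((IsLocallyConstant.iff_eventually_eq (g t₀)).1 (g t₀).isLocallyConstant z₀)
  filter_upwards [h1, h2] with w hw1 hw2
  rw [hw1]
  exact hw2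

end Curry

end Delta

variable {P : Type} [Group P] [TopologicalSpace P] [IsTopologicalGroup P]
  {F : P ≃ₜ* P} {p : ℕ} [Fact p.Prime]

section Delta

variable {ι : Type} [Fintype ι] [DecidableEq ι]

open Delta

theorem alt_vanish (tr : Tree P p) {T : Type} [AddCommGroup T] (f : (ι → tr.Y) → T)
    (hf : IsLocallyConstant f) (S : Finset ι)
    (h : ∀ (e : ι → Fin 2) y, alt S f y (fun i => tr.r (e i) (y i)) = 0) (y y' : ι → tr.Y) :
    alt S f y y' = 0 := by
  induction S using Finset.induction_on generalizing f y y' with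
  | empty =>
    rw [alt_empty, ← alt_empty f y (fun i => tr.r ((fun _ => 0 : ι → Fin 2) i) (y i))]
    exact h _ y
  | insert i S hi ih =>
    have h1 : ∀ (e : ι → Fin 2) (z : ι → tr.Y) (t t' : tr.Y),
        alt S f (Function.update z i t) (fun j => tr.r (e j) (z j)) =
          alt S f (Function.update z i t') (fun j => tr.r (e j) (z j)) := by
      intro e z
      refine tr.T0 T (fun t => alt S f (Function.update z i t) (fun j => tr.r (e j) (z j))) ?_ ?_
      · refine alt_lc S hf ?_ continuous_const
        exact continuous_const.update i continuous_id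
      · intro ε t
        have h2 := h (Function.update e i ε) (Function.update z i t)
        rw [alt_insert hi] at h2
        simp only [Function.update_self, Function.update_idem] at h2
        have h3 : ∀ j ∈ S, tr.r (Function.update e i ε j) (Function.update z i t j) =
            tr.r (e j) (z j) := by
          intro j hj
          have hji : j ≠ i := fun h => hi (h ▸ hj)
          rw [Function.update_of_ne hji, Function.update_of_ne hji]
        rw [alt_congr_right f _ h3, alt_congr_right f _ h3] at h2
        exact (sub_eq_zero.1 h2).symm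
    have h2 : ∀ (t : tr.Y) (z z' : ι → tr.Y),
        alt S (fun x => f x - f (Function.update x i t)) z z' = 0 := by
      intro t
      refine ih (fun x => f x - f (Function.update x i t)) ?_ ?_
      · exact hf.sub (hf.comp_continuous (continuous_id.update i continuous_const))
      · intro e z
        rw [alt_sub, alt_update hi f (fun _ => t)]
        have h3 := h1 e z (z i) t
        rw [Function.update_eq_self] at h3
        rw [h3, sub_self]
    rw [alt_insert hi]
    have h3 := h2 (y' i) y y'
    rw [alt_sub, alt_update hi f (fun _ => y' i)] at h3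
    exact h3

theorem Delta.surj (tr : Tree P p) {T : Type} [AddCommGroup T] (hT : ∀ t : T, p • t = 0)
    (S : Finset ι) (h : (ι → Fin 2) → (ι → tr.Y) → T) (hlc : ∀ e, IsLocallyConstant (h e))
    (he : ∀ e e', (∀ i ∈ S, e i = e' i) → h e = h e') :
    ∃ f : (ι → tr.Y) → T, IsLocallyConstant f ∧
      ∀ e y, alt S f y (fun i => tr.r (e i) (y i)) = h e y := by
  induction S using Finset.induction_on generalizing h with
  | empty =>
    refine ⟨h fun _ => 0, hlc _, fun e y => ?_⟩
    rw [alt_empty, he (fun _ => 0) e fun i hi => absurd hi (Finset.notMem_empty i)]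
  | insert i S hi ih =>
    have h1 : ∀ ε : Fin 2, ∃ f : (ι → tr.Y) → T, IsLocallyConstant f ∧
        ∀ e y, alt S f y (fun i => tr.r (e i) (y i)) = h (Function.update e i ε) y := by
      intro ε
      refine ih (fun e => h (Function.update e i ε)) (fun e => hlc _) fun e e' hee => ?_
      refine he _ _ fun j hj => ?_
      by_cases hji : j = i
      · rw [hji, Function.update_self, Function.update_self]
      · rw [Function.update_of_ne hji, Function.update_of_ne hji]
        exact hee j ((Finset.mem_insert.1 hj).resolve_left hji)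
    choose G hGlc hG using h1
    let g : Fin 2 → tr.Y → LocallyConstant (ι → tr.Y) T := fun ε t =>
      ⟨fun z => -G ε (Function.update z i t),
        ((hGlc ε).comp_continuous (continuous_id.update i continuous_const)).neg⟩
    have hg : ∀ ε, IsLocallyConstant (g ε) := by
      intro ε
      refine curry_lc (fun w : tr.Y × (ι → tr.Y) => -G ε (Function.update w.2 i w.1)) ?_ (g ε)
        fun t z => rfl
      exact ((hGlc ε).comp_continuous (continuous_snd.update i continuous_fst)).neg
    obtain ⟨f₁, hf₁, hf₂⟩ := tr.T1 (LocallyConstant (ι → tr.Y) T) (fun a => by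
      ext z
      exact hT (a z)) g hg
    refine ⟨fun y => f₁ (y i) (Function.update y i tr.y₀), ?_, ?_⟩
    · have hc : Continuous fun y : ι → tr.Y => (y i, Function.update y i tr.y₀) :=
        (continuous_apply i).prodMk (continuous_id.update i continuous_const)
      exact (uncurry_lc f₁ hf₁).comp_continuous hc
    · intro e y
      have h2 : ∀ (ε : Fin 2) (z : ι → tr.Y), f₁ (z i) (Function.update z i tr.y₀) -
          f₁ (tr.r ε (z i)) (Function.update z i tr.y₀) = G ε z := by
        intro ε z
        have h3 := congrArg (fun a : LocallyConstant (ι → tr.Y) T => a (Function.update z i tr.y₀))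
          (hf₂ ε (z i))
        have h4 : f₁ (tr.r ε (z i)) (Function.update z i tr.y₀) -
            f₁ (z i) (Function.update z i tr.y₀) = -G ε z := by
          refine Eq.trans h3 ?_
          change -G ε (Function.update (Function.update z i tr.y₀) i (z i)) = -G ε z
          rw [Function.update_idem, Function.update_eq_self]
        rw [← neg_sub, h4, neg_neg]
      rw [alt_insert hi, ← alt_update hi (fun y => f₁ (y i) (Function.update y i tr.y₀))
        (fun t => tr.r (e i) t), ← alt_sub]
      have h5 : (fun z : ι → tr.Y => f₁ (z i) (Function.update z i tr.y₀) -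
          f₁ (Function.update z i (tr.r (e i) (z i)) i)
            (Function.update (Function.update z i (tr.r (e i) (z i))) i tr.y₀)) = G (e i) := by
        funext z
        rw [Function.update_self, Function.update_idem]
        exact h2 (e i) z
      rw [h5, hG, Function.update_eq_self]

theorem alt_surj (tr : Tree P p) {T : Type} [AddCommGroup T] (hT : ∀ t : T, p • t = 0)
    (S : Finset ι) (h : (ι → Fin 2) → (ι → tr.Y) → T) (hlc : ∀ e, IsLocallyConstant (h e))
    (he : ∀ e e', (∀ i ∈ S, e i = e' i) → h e = h e')
    (hy : ∀ e y y', (∀ i ∈ S, y i = y' i) → h e y = h e y') :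
    ∃ f : (ι → tr.Y) → T, IsLocallyConstant f ∧ (∀ y y', (∀ i ∈ S, y i = y' i) → f y = f y') ∧
      ∀ e y, alt S f y (fun i => tr.r (e i) (y i)) = h e y := by
  obtain ⟨f, hf, hf'⟩ := Delta.surj tr hT S h hlc he
  refine ⟨fun y => f (S.piecewise y fun _ => tr.y₀), ?_, ?_, ?_⟩
  · exact hf.comp_continuous (continuous_pw S continuous_id continuous_const)
  · intro y y' hyy
    have h1 : S.piecewise y (fun _ => tr.y₀) = S.piecewise y' (fun _ => tr.y₀) := by
      funext j
      by_cases hj : j ∈ S
      · rw [Finset.piecewise_eq_of_mem _ _ _ hj, Finset.piecewise_eq_of_mem _ _ _ hj, hyy j hj]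
      · rw [Finset.piecewise_eq_of_notMem _ _ _ hj, Finset.piecewise_eq_of_notMem _ _ _ hj]
    simp only [h1]
  · intro e y
    have h1 := hf' e (S.piecewise y fun _ => tr.y₀)
    have h2 : h e (S.piecewise y fun _ => tr.y₀) = h e y :=
      hy e _ _ fun j hj => Finset.piecewise_eq_of_mem _ _ _ hj
    rw [h2] at h1
    rw [← h1]
    unfold alt
    refine Finset.sum_congr rfl fun R hR => ?_
    have hRS := Finset.mem_powerset.1 hR
    change (-1 : ℤ) ^ R.card • f (S.piecewise (R.piecewise (fun i => tr.r (e i) (y i)) y)
      fun _ => tr.y₀) = _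
    congr 2
    funext j
    by_cases hj : j ∈ S
    · rw [Finset.piecewise_eq_of_mem _ _ _ hj]
      by_cases hjR : j ∈ R
      · rw [Finset.piecewise_eq_of_mem _ _ _ hjR, Finset.piecewise_eq_of_mem _ _ _ hjR,
          Finset.piecewise_eq_of_mem _ _ _ hj]
      · rw [Finset.piecewise_eq_of_notMem _ _ _ hjR, Finset.piecewise_eq_of_notMem _ _ _ hjR,
          Finset.piecewise_eq_of_mem _ _ _ hj]
    · have hjR : j ∉ R := fun h => hj (hRS h)
      rw [Finset.piecewise_eq_of_notMem _ _ _ hj, Finset.piecewise_eq_of_notMem _ _ _ hjR,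
        Finset.piecewise_eq_of_notMem _ _ _ hj]

end Delta

end Pool.Agent.GTT
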