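import Pool.Agent.Lib.MP_2cc432_al.GTF
import Pool.Agent.Lib.MP_2cc432_al.GT

/-!
# FI: substitutions and the involutions of `F2hat`
-/

open CategoryTheory

namespace Pool.Agent.GTT

section FI

theorem commute_ev {G : ProfiniteGrp.{0}} {a b t : G} (hta : Commute t a) (htb : Commute t b)
    (w : F2hat) : Commute t (ev a b w) := by
  let S : Subgroup F2hat :=
    { carrier := {w | Commute t (ev a b w)}
      mul_mem' := fun {v w} hv hw => by
        show Commute t (ev a b (v * w))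
        rw [map_mul]
        exact Commute.mul_right hv hw
      one_mem' := by
        show Commute t (ev a b 1)
        rw [map_one]
        exact Commute.one_right t
      inv_mem' := fun {w} hw => by
        show Commute t (ev a b w⁻¹)
        rw [map_inv]
        exact Commute.inv_right hw }
  have hS : IsClosed (S : Set F2hat) :=
    isClosed_eq (continuous_const.mul (ev a b).continuous) ((ev a b).continuous.mul continuous_const)
  have h1 : S = ⊤ := dense_F2hat S hS (by show Commute t (ev a b gx); rwa [ev_gx])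
    (by show Commute t (ev a b gy); rwa [ev_gy])
  have h2 : w ∈ S := h1 ▸ Subgroup.mem_top w
  exact h2

theorem fi_commute {G : ProfiniteGrp.{0}} {a b : G} (h : Commute a b) (v w : F2hat) :
    Commute (ev a b v) (ev a b w) :=
  commute_ev (commute_ev (Commute.refl a) h v).symm (commute_ev h.symm (Commute.refl b) v).symm w

theorem ev_commute_one {G : ProfiniteGrp.{0}} {a b : G} (h : Commute a b) {f : F2hat}
    (hf : f ∈ (commutator F2hat).topologicalClosure) : ev a b f = 1 := by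
  have h1 : commutator F2hat ≤ (ev a b : F2hat →* G).ker := by
    rw [commutator_def, Subgroup.commutator_le]
    intro v _ w _
    rw [MonoidHom.mem_ker, map_commutatorElement, commutatorElement_eq_one_iff_commute]
    exact fi_commute h v w
  have h2 : IsClosed (((ev a b : F2hat →* G).ker : Subgroup F2hat) : Set F2hat) :=
    isClosed_eq (ev a b).continuous continuous_const
  exact Subgroup.topologicalClosure_minimal _ h1 h2 hf

/-- the product of two homomorphisms with commuting values -/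
noncomputable def fiMul {G : ProfiniteGrp.{0}} (φ ψ : F2hat →ₜ* G)
    (h : ∀ v w, Commute (φ v) (ψ w)) : F2hat →ₜ* G where
  toFun w := φ w * ψ w
  map_one' := by rw [map_one, map_one, mul_one]
  map_mul' v w := by
    rw [map_mul, map_mul]
    calc φ v * φ w * (ψ v * ψ w) = φ v * (φ w * ψ v) * ψ w := by group
      _ = φ v * (ψ v * φ w) * ψ w := by rw [(h w v).eq]
      _ = _ := by group
  continuous_toFun := φ.continuous.mul ψ.continuous

theorem ev_mul_central {G : ProfiniteGrp.{0}} {a b t s : G} (hta : Commute t a)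
    (htb : Commute t b) (hsa : Commute s a) (hsb : Commute s b) (hts : Commute t s) {f : F2hat}
    (hf : f ∈ (commutator F2hat).topologicalClosure) : ev (a * t) (b * s) f = ev a b f := by
  have hc : ∀ v w, Commute (ev a b v) (ev t s w) := fun v w =>
    commute_ev (commute_ev hta htb v).symm (commute_ev hsa hsb v).symm w
  have h1 : ev (a * t) (b * s) = fiMul (ev a b) (ev t s) hc := by
    apply ev_ext
    · rw [ev_gx]
      show _ = ev a b gx * ev t s gx
      rw [ev_gx, ev_gx]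
    · rw [ev_gy]
      show _ = ev a b gy * ev t s gy
      rw [ev_gy, ev_gy]
  rw [h1]
  show ev a b f * ev t s f = _
  rw [ev_commute_one hts hf, mul_one]

variable {f : F2hat}

theorem gtI_gx (f : F2hat) : gtI f gx = gx⁻¹ := ev_gx _ _

theorem gtI_gy (f : F2hat) : gtI f gy = f⁻¹ * gy⁻¹ * f := ev_gy _ _

theorem gtI_self (hf : IsInv f) : gtI f f = f⁻¹ := eq_inv_of_mul_eq_one_right hf.inv

theorem gtI_invol (hf : IsInv f) (w : F2hat) : gtI f (gtI f w) = w := by
  have h : (gtI f).comp (gtI f) = ContinuousMonoidHom.id F2hat := by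
    apply ev_ext
    · show gtI f (gtI f gx) = gx
      rw [gtI_gx, map_inv, gtI_gx, inv_inv]
    · show gtI f (gtI f gy) = gy
      rw [gtI_gy, map_mul, map_mul, map_inv, map_inv, gtI_self hf, gtI_gy]
      group
  exact congrArg (fun k : F2hat →ₜ* F2hat => k w) h

theorem fi_two_theta (hf : IsInv f) : ev gz gy f = f * ev gz gx f := by
  have h := congrArg (ev gy gx) hf.II
  rw [map_mul, map_mul, map_mul, map_mul, map_mul, ev_comp, ev_comp, map_inv, map_inv, map_inv,
    ev_gx, ev_gy, map_one] at h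
  have hz : ev gy gx gz = (gy * gx)⁻¹ := by
    rw [gz, map_inv, map_mul, ev_gx, ev_gy]
  have hz1 : (gy * gx)⁻¹ = gx⁻¹ * gz * gx := by
    rw [gz]
    group
  have hz2 : (gy * gx)⁻¹ = gy * gz * gy⁻¹ := by
    rw [gz]
    group
  have h3 : ev ((gy * gx)⁻¹) gy f = gy * ev gz gy f * gy⁻¹ := by
    rw [hz2, ← ev_conj]
    congr 2
    group
  have h4 : ev gx ((gy * gx)⁻¹) f = gx⁻¹ * ev gx gz f * gx := by
    have h5 := ev_conj gx⁻¹ gx gz f
    rw [inv_inv] at h5
    rw [hz1, ← h5]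
    congr 2
    group
  rw [hz, h3, h4, rel_one' hf.I gx gy, ev_self, rel_one' hf.I gz gx] at h
  -- `y f(z,y) y⁻¹ (yx) x⁻¹ f(z,x)⁻¹ x x⁻¹ f⁻¹ y⁻¹ = 1`
  have h6 : ev gz gy f * (ev gz gx f)⁻¹ * f⁻¹ = 1 := by
    calc ev gz gy f * (ev gz gx f)⁻¹ * f⁻¹ = gy⁻¹ * (gy * ev gz gy f * gy⁻¹ * ((gy * gx)⁻¹)⁻¹ *
          (gx⁻¹ * (ev gz gx f)⁻¹ * gx) * gx⁻¹ * f⁻¹ * gy⁻¹) * gy := by group
      _ = 1 := by
        rw [h]
        group
  calc ev gz gy f = (ev gz gy f * (ev gz gx f)⁻¹ * f⁻¹) * f * ev gz gx f := by group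
    _ = f * ev gz gx f := by rw [h6, one_mul]

theorem gtI_gz (hf : IsInv f) :
    gtI f gz = (ev gx gz f * gx)⁻¹ * gz⁻¹ * (ev gx gz f * gx) := by
  have hA := fi_two_theta hf
  have hB : ev gz gy f = gy⁻¹ * f * gx⁻¹ * ev gz gx f * gz⁻¹ := by
    have h := hf.II
    rw [rel_one' hf.I gz gy] at h
    -- `f(z,x) z⁻¹ f(z,y)⁻¹ y⁻¹ f x⁻¹ = 1`
    have h1 : ev gz gy f = gy⁻¹ * f * gx⁻¹ *
        (ev gz gx f * gz⁻¹ * (ev gz gy f)⁻¹ * gy⁻¹ * f * gx⁻¹) * gx * f⁻¹ * gy * ev gz gy f := by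
      rw [h]
      group
    calc ev gz gy f = gy⁻¹ * f * gx⁻¹ *
        (ev gz gx f * gz⁻¹ * (ev gz gy f)⁻¹ * gy⁻¹ * f * gx⁻¹) * gx * f⁻¹ * gy * ev gz gy f := h1
      _ = _ := by group
  have hxz : ev gx gz f = (ev gz gx f)⁻¹ := rel_one' hf.I gz gx
  have hz : gtI f gz = f⁻¹ * gy * f * gx := by
    rw [gz, map_inv, map_mul, gtI_gx, gtI_gy]
    group
  rw [hz, hxz]
  have h2 : gy * f * ev gz gx f = f * gx⁻¹ * ev gz gx f * gz⁻¹ := by
    rw [mul_assoc, ← hA, hB]
    group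
  calc f⁻¹ * gy * f * gx = f⁻¹ * (gy * f * ev gz gx f) * (ev gz gx f)⁻¹ * gx := by group
    _ = f⁻¹ * (f * gx⁻¹ * ev gz gx f * gz⁻¹) * (ev gz gx f)⁻¹ * gx := by rw [h2]
    _ = _ := by group

/-- conjugation by `u` after `φ` -/
noncomputable def fiConj {G : ProfiniteGrp.{0}} (u : G) (φ : F2hat →ₜ* G) : F2hat →ₜ* G where
  toFun w := u * φ w * u⁻¹
  map_one' := by
    rw [map_one]
    group
  map_mul' v w := by
    rw [map_mul]
    group
  continuous_toFun := (continuous_const.mul φ.continuous).mul continuous_const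

/-- the involution in any group: if `E a = a⁻¹` and `E b = f(a,b)⁻¹ b⁻¹ f(a,b)` -/
theorem ev_gtI {G : ProfiniteGrp.{0}} (E : G →ₜ* G) (u a b : G)
    (ha : E a = u * a⁻¹ * u⁻¹)
    (hb : E b = u * ((ev a b f)⁻¹ * b⁻¹ * ev a b f) * u⁻¹) (w : F2hat) :
    E (ev a b w) = u * ev a b (gtI f w) * u⁻¹ := by
  have h : E.comp (ev a b) = fiConj u ((ev a b).comp (gtI f)) := by
    apply ev_ext
    · show E (ev a b gx) = u * ev a b (gtI f gx) * u⁻¹
      rw [ev_gx, gtI_gx, map_inv, ev_gx, ha]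
    · show E (ev a b gy) = u * ev a b (gtI f gy) * u⁻¹
      rw [ev_gy, gtI_gy, map_mul, map_mul, map_inv, map_inv, ev_gy, hb]
  exact congrArg (fun k : F2hat →ₜ* G => k w) h

theorem gtT_gx : gtT gx = gx := ev_gx _ _

theorem gtT_gy : gtT gy = gz := ev_gy _ _

theorem gtT_gz : gtT gz = gx * gy * gx⁻¹ := by
  have h : gtT gz = (gtT gx * gtT gy)⁻¹ := by
    rw [← map_mul, ← map_inv]
    rfl
  rw [h, gtT_gx, gtT_gy, gz]
  group

theorem gtT_sq (w : F2hat) : gtT (gtT w) = gx * w * gx⁻¹ := by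
  have h : gtT.comp gtT = fiConj gx (ContinuousMonoidHom.id F2hat) := by
    apply ev_ext
    · show gtT (gtT gx) = gx * gx * gx⁻¹
      rw [gtT_gx, gtT_gx]
      group
    · show gtT (gtT gy) = gx * gy * gx⁻¹
      rw [gtT_gy, gtT_gz]
  exact congrArg (fun k : F2hat →ₜ* F2hat => k w) h

theorem gtR_gx (hf : IsInv f) : gtR f gx = gx⁻¹ := by
  show gtT (gtI f gx) = gx⁻¹
  rw [gtI_gx, map_inv, gtT_gx]

theorem gtR_gy (hf : IsInv f) :
    gtR f gy = (ev gx gz f)⁻¹ * gz⁻¹ * ev gx gz f := by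
  show gtT (gtI f gy) = _
  rw [gtI_gy, map_mul, map_mul, map_inv, map_inv, gtT_gy]
  rfl

theorem fi_gtI_fz (hf : IsInv f) : gtI f (ev gx gz f) = gx⁻¹ * (ev gx gz f)⁻¹ * gx := by
  rw [ev_gtI (f := f) (gtI f) gx⁻¹ gx gz (by rw [gtI_gx]; group)
    (by rw [gtI_gz hf]; group) f, gtI_self hf, map_inv, inv_inv]

theorem fi_gtR_fz (hf : IsInv f) : gtR f (ev gx gz f) = f⁻¹ := by
  show gtT (gtI f (ev gx gz f)) = f⁻¹
  rw [fi_gtI_fz hf, map_mul, map_mul, map_inv, map_inv, gtT_gx]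
  have h : gtT (ev gx gz f) = gx * f * gx⁻¹ := gtT_sq f
  rw [h]
  group

theorem fi_gtR_gz (hf : IsInv f) : gtR f gz = f⁻¹ * gy⁻¹ * f := by
  show gtT (gtI f gz) = _
  have h : gtT (ev gx gz f) = gx * f * gx⁻¹ := gtT_sq f
  rw [gtI_gz hf, map_mul, map_mul, map_inv, map_inv, map_mul, gtT_gx, gtT_gz, h]
  group

theorem gtR_invol (hf : IsInv f) (w : F2hat) : gtR f (gtR f w) = w := by
  have h : (gtR f).comp (gtR f) = ContinuousMonoidHom.id F2hat := by
    apply ev_ext
    · show gtR f (gtR f gx) = gx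
      rw [gtR_gx hf, map_inv, gtR_gx hf, inv_inv]
    · show gtR f (gtR f gy) = gy
      rw [gtR_gy hf, map_mul, map_mul, map_inv, map_inv, fi_gtR_fz hf, fi_gtR_gz hf]
      group
  exact congrArg (fun k : F2hat →ₜ* F2hat => k w) h

end FI

end Pool.Agent.GTT
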