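import Pool.Agent.Lib.MP_2cc432_al.Cube

/-!
# Torsion in the profinite Grothendieck–Teichmüller group: the filtration by cells
-/

open Filter Topology Finset

namespace Pool.Agent.GTT

/-- alternating sum over the subsets `R` of `S` of the values of `f` at the points which agree
with `y'` on `R` and with `y` outside `R` -/
def alt {ι : Type} [Fintype ι] [DecidableEq ι] {Y T : Type} [AddCommGroup T] (S : Finset ι)
    (f : (ι → Y) → T) (y y' : ι → Y) : T :=
  ∑ R ∈ S.powerset, (-1 : ℤ) ^ R.card • f (R.piecewise y' y)

variable {P : Type} [Group P] [TopologicalSpace P] [IsTopologicalGroup P]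
  {F : P ≃ₜ* P} {p : ℕ} [Fact p.Prime]

/-- functions on the cube -/
abbrev CubeFun (tr : Tree P p) (T : Type) : Type := LocallyConstant (ZMod p → tr.Y) T

/-- the sums of functions each of which depends on at most `j` coordinates -/
def fil (tr : Tree P p) (T : Type) [AddCommGroup T] (j : ℕ) : AddSubgroup (CubeFun tr T) where
  carrier := {f | ∃ h : Finset (ZMod p) → CubeFun tr T,
    (∀ S y y', (∀ i ∈ S, y i = y' i) → h S y = h S y') ∧
      f = ∑ S ∈ univ.filter (fun S : Finset (ZMod p) => S.card ≤ j), h S}
  add_mem' := by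
    rintro a b ⟨h, h1, h2⟩ ⟨h', h1', h2'⟩
    refine ⟨h + h', fun S y y' e => ?_, ?_⟩
    · change h S y + h' S y = h S y' + h' S y'
      rw [h1 S y y' e, h1' S y y' e]
    · rw [h2, h2', ← sum_add_distrib]
      rfl
  zero_mem' := ⟨0, fun _ _ _ _ => rfl, by simp⟩
  neg_mem' := by
    rintro a ⟨h, h1, h2⟩
    refine ⟨-h, fun S y y' e => ?_, ?_⟩
    · change -h S y = -h S y'
      rw [h1 S y y' e]
    · rw [h2, ← sum_neg_distrib]
      rfl

/-- the value on a cell: the alternating sum over its vertices -/
def bdry (tr : Tree P p) {T : Type} [AddCommGroup T] (f : CubeFun tr T) (ζ : ZMod p → Coord tr) :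
    T :=
  alt (supp ζ) f (fun i => Coord.pt (ζ i)) (fun i => tr.r (Coord.lb (ζ i)) (Coord.pt (ζ i)))

theorem isLocallyConstant_bdry (tr : Tree P p) {T : Type} [AddCommGroup T]
    (f : CubeFun tr T) : IsLocallyConstant (bdry tr f) := by
  rw [IsLocallyConstant.iff_eventually_eq]
  intro ζ
  have h1 := (isLocallyConstant_supp tr).eventually_eq ζ
  have h2 : ∀ R : Finset (ZMod p), ∀ᶠ ξ in 𝓝 ζ,
      f (R.piecewise (fun i => tr.r (Coord.lb (ξ i)) (Coord.pt (ξ i))) fun i => Coord.pt (ξ i)) =
      f (R.piecewise (fun i => tr.r (Coord.lb (ζ i)) (Coord.pt (ζ i))) fun i =>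
        Coord.pt (ζ i)) := by
    intro R
    have hc : Continuous fun ξ : ZMod p → Coord tr =>
        R.piecewise (fun i => tr.r (Coord.lb (ξ i)) (Coord.pt (ξ i))) fun i => Coord.pt (ξ i) := by
      apply continuous_pi
      intro i
      by_cases hi : i ∈ R
      · simp only [hi, piecewise_eq_of_mem]
        have hr : Continuous fun a : Fin 2 × tr.Y => tr.r a.1 a.2 := by
          rw [continuous_iff_continuousAt]
          rintro ⟨e, y⟩
          have h3 : ∀ᶠ a : Fin 2 × tr.Y in 𝓝 (e, y), a.1 = e := by
            rw [nhds_prod_eq]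
            have h4 : ∀ᶠ a in 𝓝 e, a = e := by
              rw [nhds_discrete]
              exact eventually_pure.2 rfl
            exact h4.prod_inl _
          refine (((tr.r_cont e).comp continuous_snd).continuousAt (x := (e, y))).congr ?_
          filter_upwards [h3] with a ha
          rw [Function.comp_apply, ha]
        exact hr.comp (((Coord.continuous_lb tr).comp (continuous_apply i)).prodMk
          ((Coord.continuous_pt tr).comp (continuous_apply i)))
      · simp only [hi, not_false_eq_true, piecewise_eq_of_notMem]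
        exact (Coord.continuous_pt tr).comp (continuous_apply i)
    exact (f.isLocallyConstant.comp_continuous hc).eventually_eq ζ
  filter_upwards [h1, eventually_all.2 h2] with ξ e1 e2
  rw [bdry, bdry, alt, alt, e1]
  exact sum_congr rfl fun R _ => by rw [e2 R]

/-- the map to the functions on the `j`-cells -/
def bdryHom (tr : Tree P p) (hF : ∀ g, F^[p] g = g) (T : Type) [AddCommGroup T] (j : ℕ) :
    CubeFun tr T →+ LocallyConstant (cells tr hF j).Z T where
  toFun f := ⟨fun ζ => bdry tr f ζ.1,
    (isLocallyConstant_bdry tr f).comp_continuous continuous_subtype_val⟩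
  map_zero' := by
    ext ζ
    simp [bdry, alt]
  map_add' a b := by
    ext ζ
    simp [bdry, alt, smul_add, sum_add_distrib]

theorem bdryHom_apply (tr : Tree P p) (hF : ∀ g, F^[p] g = g) (T : Type) [AddCommGroup T] (j : ℕ)
    (f : CubeFun tr T) (ζ : (cells tr hF j).Z) : bdryHom tr hF T j f ζ = bdry tr f ζ.1 := rfl

end Pool.Agent.GTT
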