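import Pool.Agent.Lib.MP_2cc432_al.Defs3

/-!
# FIXC: fixed points of `f F` and `a f F` on the orbits of `a`
-/

open Filter Topology Finset

namespace Pool.Agent.GTT

section Cusps

variable {P : Type} [Group P] [TopologicalSpace P] [IsTopologicalGroup P] [CompactSpace P]
  [T2Space P] [TotallyDisconnectedSpace P] {n : ℕ} {c : Fin n → P}

/-- the exponent of `a` in the two involutions -/
def fixcE (ε : Bool) : ℤ := if ε then 1 else 0

/-- the fixed point equation -/
def fixcP {V : Subgroup P} {F : P ≃ₜ* P} (hVF : ∀ g, F g ∈ V ↔ g ∈ V) (a f : P) (ε : Bool)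
    (q : P ⧸ V) : Prop :=
  if ε then cuspT V F hVF (a * f) q = q else cuspT V F hVF f q = q

omit [IsTopologicalGroup P] [CompactSpace P] [T2Space P] [TotallyDisconnectedSpace P] in
theorem fixcP_mk {V : Subgroup P} {F : P ≃ₜ* P} (hVF : ∀ g, F g ∈ V ↔ g ∈ V) (a f : P) (ε : Bool)
    (g : P) : fixcP hVF a f ε (QuotientGroup.mk g) ↔
      (QuotientGroup.mk (a ^ fixcE ε * (f * F g)) : P ⧸ V) = QuotientGroup.mk g := by
  unfold fixcP fixcE
  cases ε
  · simp only [Bool.false_eq_true, if_false, zpow_zero, one_mul]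
    rfl
  · simp only [if_true, zpow_one]
    rw [← mul_assoc]
    rfl

omit [IsTopologicalGroup P] [CompactSpace P] [T2Space P] [TotallyDisconnectedSpace P] in
theorem fixc_iff {V : Subgroup P} [V.Normal] {F : P ≃ₜ* P} (hVF : ∀ g, F g ∈ V ↔ g ∈ V)
    (a f : P) (ha : F a = f⁻¹ * a⁻¹ * f) (g : P) (k : ℤ)
    (hk : (QuotientGroup.mk (f * F g) : P ⧸ V) = QuotientGroup.mk (a ^ k * g)) (ε : Bool) (j : ℤ) :
    fixcP hVF a f ε (QuotientGroup.mk (a ^ j * g)) ↔
      (orderOf (QuotientGroup.mk a : P ⧸ V) : ℤ) ∣ k + fixcE ε - 2 * j := by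
  rw [fixcP_mk]
  have h1 : f * F (a ^ j * g) = a ^ (-j) * (f * F g) := by
    rw [map_mul, ← mul_assoc, cusp_zpow_aux F ha j, mul_assoc]
  have h2 : (QuotientGroup.mk (a ^ fixcE ε * (f * F (a ^ j * g))) : P ⧸ V) =
      QuotientGroup.mk a ^ (k + fixcE ε - j) * QuotientGroup.mk g := by
    rw [h1, QuotientGroup.mk_mul, QuotientGroup.mk_mul, hk, QuotientGroup.mk_mul]
    simp only [QuotientGroup.mk_zpow]
    rw [← mul_assoc, ← mul_assoc, ← zpow_add, ← zpow_add]
    congr 2
    ring
  rw [h2, QuotientGroup.mk_mul, QuotientGroup.mk_zpow, mul_left_inj, orderOf_dvd_iff_zpow_eq_one,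
    ← mul_inv_eq_one, ← zpow_neg, ← zpow_add]
  have h3 : k + fixcE ε - j + -j = k + fixcE ε - 2 * j := by ring
  rw [h3]

omit [TopologicalSpace P] [IsTopologicalGroup P] [CompactSpace P] [T2Space P]
  [TotallyDisconnectedSpace P] in
theorem fixc_mk_eq {V : Subgroup P} [V.Normal] (a g h : P) :
    cuspMk V a g = cuspMk V a h ↔
      ∃ k : ℤ, (QuotientGroup.mk g : P ⧸ V) = QuotientGroup.mk (a ^ k * h) := by
  rw [cuspMk_eq]
  refine exists_congr fun k => ?_
  rw [← QuotientGroup.eq, eq_comm]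

/-- FIXC -/
theorem fix_count {V : Subgroup P} [V.Normal] {F : P ≃ₜ* P} (hVF : ∀ g, F g ∈ V ↔ g ∈ V)
    (hV : IsOpen (V : Set P)) (a f : P) (ha : F a = f⁻¹ * a⁻¹ * f)
    (σ : cuspO V a → cuspO V a) (hσ : ∀ g, σ (cuspMk V a g) = cuspMk V a (f * F g)) :
    Nat.card {q : P ⧸ V // cuspT V F hVF f q = q} +
      Nat.card {q : P ⧸ V // cuspT V F hVF (a * f) q = q} =
      2 * Nat.card {ω : cuspO V a // σ ω = ω} := by
  classical
  have hfin : Finite (P ⧸ V) := V.quotient_finite_of_isOpen hV
  set e : ℕ := orderOf (QuotientGroup.mk a : P ⧸ V) with he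
  have he0 : 0 < e := orderOf_pos _
  -- the left side is the number of pairs
  have hL : Nat.card {q : P ⧸ V // cuspT V F hVF f q = q} +
      Nat.card {q : P ⧸ V // cuspT V F hVF (a * f) q = q} =
      Nat.card {x : (P ⧸ V) × Bool // fixcP hVF a f x.2 x.1} := by
    rw [← Nat.card_sum]
    refine Nat.card_congr
      { toFun := Sum.elim (fun q => ⟨(q.1, false), by
            show fixcP hVF a f false q.1
            unfold fixcP
            rw [if_neg Bool.false_ne_true]
            exact q.2⟩) (fun q => ⟨(q.1, true), by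
            show fixcP hVF a f true q.1
            unfold fixcP
            rw [if_pos rfl]
            exact q.2⟩)
        invFun := fun x => match x with
          | ⟨(q, false), h⟩ => Sum.inl ⟨q, by
              have h1 : fixcP hVF a f false q := h
              unfold fixcP at h1
              rw [if_neg Bool.false_ne_true] at h1
              exact h1⟩
          | ⟨(q, true), h⟩ => Sum.inr ⟨q, by
              have h1 : fixcP hVF a f true q := h
              unfold fixcP at h1
              rw [if_pos rfl] at h1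
              exact h1⟩
        left_inv := by
          rintro (q | q)
          · rfl
          · rfl
        right_inv := by
          rintro ⟨⟨q, ε⟩, h⟩
          cases ε
          · rfl
          · rfl }
  have hR : 2 * Nat.card {ω : cuspO V a // σ ω = ω} =
      Nat.card ({ω : cuspO V a // σ ω = ω} × Bool) := by
    rw [Nat.card_prod, Nat.card_eq_fintype_card (α := Bool), Fintype.card_bool, mul_comm]
  rw [hL, hR]
  -- representatives
  have hrep : ∀ ω : {ω : cuspO V a // σ ω = ω}, ∃ (g : P) (k : ℤ), cuspMk V a g = ω.1 ∧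
      (QuotientGroup.mk (f * F g) : P ⧸ V) = QuotientGroup.mk (a ^ k * g) := by
    rintro ⟨ω, hω⟩
    obtain ⟨g, rfl⟩ := cuspMk_surj V a ω
    rw [hσ, fixc_mk_eq] at hω
    obtain ⟨k, hk⟩ := hω
    exact ⟨g, k, rfl, hk⟩
  choose g k hg hk using hrep
  set ν : {ω : cuspO V a // σ ω = ω} × Bool → ℤ := fun x => k x.1 + if x.2 then (e : ℤ) else 0
    with hν
  have hE : ∀ t : ℤ, t + fixcE (decide (t % 2 = 1)) - 2 * ((t + 1) / 2) = 0 := by
    intro t
    unfold fixcE
    rcases Int.emod_two_eq_zero_or_one t with h | h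
    · rw [h]
      simp only [zero_ne_one, decide_false, Bool.false_eq_true, if_false]
      omega
    · rw [h]
      simp only [decide_true, if_true]
      omega
  let Ψ : {ω : cuspO V a // σ ω = ω} × Bool → {x : (P ⧸ V) × Bool // fixcP hVF a f x.2 x.1} :=
    fun x => ⟨(QuotientGroup.mk (a ^ ((ν x + 1) / 2) * g x.1), decide (ν x % 2 = 1)), by
      show fixcP hVF a f (decide (ν x % 2 = 1)) (QuotientGroup.mk (a ^ ((ν x + 1) / 2) * g x.1))
      rw [fixc_iff hVF a f ha (g x.1) (k x.1) (hk x.1)]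
      have h1 := hE (ν x)
      have h2 : k x.1 + fixcE (decide (ν x % 2 = 1)) - 2 * ((ν x + 1) / 2) =
          k x.1 - ν x := by linarith
      rw [h2, hν]
      dsimp only
      split_ifs
      · exact ⟨-1, by rw [he]; ring⟩
      · exact ⟨0, by ring⟩⟩
  refine (Nat.card_eq_of_bijective Ψ ⟨?_, ?_⟩).symm
  · rintro ⟨ω, b⟩ ⟨ω', b'⟩ h
    have h1 : (QuotientGroup.mk (a ^ ((ν (ω, b) + 1) / 2) * g ω) : P ⧸ V) =
        QuotientGroup.mk (a ^ ((ν (ω', b') + 1) / 2) * g ω') :=
      congrArg (fun x => x.1.1) h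
    have h2 : decide (ν (ω, b) % 2 = 1) = decide (ν (ω', b') % 2 = 1) :=
      congrArg (fun x => x.1.2) h
    have h3 : ω = ω' := by
      apply Subtype.ext
      rw [← hg ω, ← hg ω', fixc_mk_eq]
      refine ⟨-((ν (ω, b) + 1) / 2) + (ν (ω', b') + 1) / 2, ?_⟩
      have h4 : (QuotientGroup.mk (g ω) : P ⧸ V) = QuotientGroup.mk (a ^ (-((ν (ω, b) + 1) / 2))) *
          QuotientGroup.mk (a ^ ((ν (ω, b) + 1) / 2) * g ω) := by
        rw [← QuotientGroup.mk_mul, ← mul_assoc, ← zpow_add, neg_add_cancel, zpow_zero, one_mul]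
      rw [h4, h1, ← QuotientGroup.mk_mul, ← mul_assoc, ← zpow_add]
    subst h3
    have h4 : (e : ℤ) ∣ (ν (ω, b) + 1) / 2 - (ν (ω, b') + 1) / 2 := by
      rw [he, orderOf_dvd_iff_zpow_eq_one, zpow_sub, ← QuotientGroup.mk_zpow,
        ← QuotientGroup.mk_zpow, mul_inv_eq_one]
      rw [QuotientGroup.mk_mul, QuotientGroup.mk_mul] at h1
      exact mul_right_cancel h1
    have h5 : (ν (ω, b) % 2 = 1 ↔ ν (ω, b') % 2 = 1) := by
      rw [← decide_eq_decide]
      exact h2
    have h6 : ν (ω, b) - ν (ω, b') = 2 * ((ν (ω, b) + 1) / 2 - (ν (ω, b') + 1) / 2) := by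
      omega
    obtain ⟨t, ht⟩ := h4
    rw [ht] at h6
    have h7 : b = b' := by
      by_contra hne
      have he0' : (0 : ℤ) < e := by exact_mod_cast he0
      have h8 : ν (ω, b) - ν (ω, b') = e ∨ ν (ω, b) - ν (ω, b') = -e := by
        rw [hν]
        cases b <;> cases b' <;> simp at hne ⊢
      have h9 : 2 * t = 1 ∨ 2 * t = -1 := by
        rcases h8 with h8 | h8
        · left
          rw [h6] at h8
          have : (e : ℤ) * (2 * t) = e * 1 := by linarith
          exact mul_left_cancel₀ he0'.ne' this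
        · right
          rw [h6] at h8
          have : (e : ℤ) * (2 * t) = e * (-1) := by linarith
          exact mul_left_cancel₀ he0'.ne' this
      omega
    rw [h7]
  · rintro ⟨⟨q, ε⟩, hq⟩
    obtain ⟨u, rfl⟩ := QuotientGroup.mk_surjective q
    have hq' : fixcP hVF a f ε (QuotientGroup.mk u) := hq
    have hfix : σ (cuspMk V a u) = cuspMk V a u := by
      rw [hσ, fixc_mk_eq]
      rw [fixcP_mk] at hq'
      refine ⟨-fixcE ε, ?_⟩
      have h9 : (QuotientGroup.mk (a ^ (-fixcE ε) * u) : P ⧸ V) =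
          QuotientGroup.mk (a ^ (-fixcE ε)) * QuotientGroup.mk u := rfl
      rw [h9, ← hq', ← QuotientGroup.mk_mul, ← mul_assoc, ← zpow_add, neg_add_cancel, zpow_zero,
        one_mul]
    set ω : {ω : cuspO V a // σ ω = ω} := ⟨cuspMk V a u, hfix⟩ with hω
    have h1 : cuspMk V a u = cuspMk V a (g ω) := (hg ω).symm
    rw [fixc_mk_eq] at h1
    obtain ⟨i, hi⟩ := h1
    rw [hi, fixc_iff hVF a f ha (g ω) (k ω) (hk ω)] at hq'
    obtain ⟨t, ht⟩ := hq'
    rw [← he] at ht
    -- `2 i - ε = k - e t`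
    have hbt : ∃ (b : Bool) (s : ℤ), -t = (if b then 1 else 0) + 2 * s := by
      rcases Int.emod_two_eq_zero_or_one (-t) with h | h
      · exact ⟨false, -t / 2, by simp only [Bool.false_eq_true, if_false]; omega⟩
      · exact ⟨true, -t / 2, by simp only [if_true]; omega⟩
    obtain ⟨b, s, hbs⟩ := hbt
    have hn : ν (ω, b) = 2 * (i - e * s) - fixcE ε := by
      have h2 : ν (ω, b) = k ω + e * (if b then 1 else 0) := by
        rw [hν]
        cases b <;> simp
      have h3 : (e : ℤ) * (-t) = e * (if b then 1 else 0) + 2 * (e * s) := by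
        rw [hbs]
        ring
      rw [h2]
      linarith
    refine ⟨(ω, b), ?_⟩
    apply Subtype.ext
    have hj : (ν (ω, b) + 1) / 2 = i - e * s := by
      rw [hn]
      unfold fixcE
      split_ifs
      · omega
      · omega
    have hε : decide (ν (ω, b) % 2 = 1) = ε := by
      rw [hn]
      unfold fixcE
      cases ε
      · simp only [Bool.false_eq_true, if_false, decide_eq_false_iff_not]
        omega
      · simp only [if_true, decide_eq_true_eq]
        omega
    show ((QuotientGroup.mk (a ^ ((ν (ω, b) + 1) / 2) * g ω) : P ⧸ V), decide (ν (ω, b) % 2 = 1)) =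
      (QuotientGroup.mk u, ε)
    rw [hε, hj, hi]
    congr 1
    rw [QuotientGroup.mk_mul, QuotientGroup.mk_mul, QuotientGroup.mk_zpow, QuotientGroup.mk_zpow,
      zpow_sub, zpow_mul, zpow_natCast, he, pow_orderOf_eq_one, one_zpow, inv_one, mul_one]

end Cusps

end Pool.Agent.GTT
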