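import Pool.Agent.Lib.MP_2cc432_al.Hit
import Pool.Agent.Lib.MP_2cc432_al.FixC
import Pool.Agent.Lib.MP_2cc432_al.Cnt

/-!
# FIXG: an involution with a real cusp has no fixed points
-/

open Filter Topology Finset

namespace Pool.Agent.GTT

section Cusps

variable {P : Type} [Group P] [TopologicalSpace P] [IsTopologicalGroup P] [CompactSpace P]
  [T2Space P] [TotallyDisconnectedSpace P] {n : ℕ} {c : Fin n → P}

variable (V : Subgroup P) [hVn : V.Normal]

variable {F : P ≃ₜ* P} (S : RealStr c F) (hVF : ∀ g, F g ∈ V ↔ g ∈ V)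

/-! ### The action on the cusps over a real cusp -/

/-- the action of `f F` on the cusps over `a` -/
def fixgσ (a f : P) (ha : F a = f⁻¹ * a⁻¹ * f) : cuspO V a → cuspO V a :=
  Quotient.map' (cuspT V F hVF f) (by
    intro q q' hq
    rw [MulAction.orbitRel_apply] at hq ⊢
    obtain ⟨g, rfl⟩ := QuotientGroup.mk_surjective q'
    obtain ⟨⟨_, k, rfl⟩, hk⟩ := hq
    refine ⟨⟨_, -k, rfl⟩, ?_⟩
    rw [← hk]
    change (QuotientGroup.mk (a ^ (-k) * (f * F g)) : P ⧸ V) =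
      QuotientGroup.mk (f * F (a ^ k * g))
    rw [map_mul, ← mul_assoc f, cusp_zpow_aux F ha k, mul_assoc])

omit [IsTopologicalGroup P] [CompactSpace P] [T2Space P] [TotallyDisconnectedSpace P] hVn in
theorem fixgσ_mk (a f : P) (ha : F a = f⁻¹ * a⁻¹ * f) (g : P) :
    fixgσ V hVF a f ha (cuspMk V a g) = cuspMk V a (f * F g) := rfl

omit [IsTopologicalGroup P] [CompactSpace P] [T2Space P] [TotallyDisconnectedSpace P] in
theorem fixg_real (i : {i : Option (Fin n) // S.π i = i}) :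
    F (cusp c i.1) = (S.f i.1)⁻¹ * (cusp c i.1)⁻¹ * S.f i.1 := by
  have h := S.cusp_F i.1
  rwa [i.2] at h

omit [IsTopologicalGroup P] [CompactSpace P] [T2Space P] [TotallyDisconnectedSpace P] hVn in
theorem fixg_map (i : {i : Option (Fin n) // S.π i = i})
    (hi : F (cusp c i.1) = (S.f i.1)⁻¹ * (cusp c i.1)⁻¹ * S.f i.1) (ω : cuspO V (cusp c i.1)) :
    S.map V hVF ⟨i.1, ω⟩ = ⟨i.1, fixgσ V hVF (cusp c i.1) (S.f i.1) hi ω⟩ := by
  obtain ⟨g, rfl⟩ := cuspMk_surj V (cusp c i.1) ω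
  rw [S.map_mk V hVF, fixgσ_mk]
  exact congrArg (fun j => (⟨j, cuspMk V (cusp c j) (S.f i.1 * F g)⟩ : Cusps c V)) i.2

/-- the fixed cusps -/
def fixgEquiv : {ω : Cusps c V // S.map V hVF ω = ω} ≃
    Σ i : {i : Option (Fin n) // S.π i = i},
      {ω : cuspO V (cusp c i.1) // fixgσ V hVF (cusp c i.1) (S.f i.1) (fixg_real S i) ω = ω} where
  toFun x := ⟨⟨x.1.1, congrArg Sigma.fst x.2⟩, ⟨x.1.2, by
    have h1 := fixg_map V S hVF ⟨x.1.1, congrArg Sigma.fst x.2⟩
      (fixg_real S ⟨x.1.1, congrArg Sigma.fst x.2⟩) x.1.2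
    have h2 : S.map V hVF ⟨x.1.1, x.1.2⟩ = ⟨x.1.1, x.1.2⟩ := x.2
    have h3 := h2.symm.trans h1
    exact (eq_of_heq (Sigma.mk.inj_iff.1 h3).2).symm⟩⟩
  invFun y := ⟨⟨y.1.1, y.2.1⟩, by
    rw [fixg_map V S hVF y.1 (fixg_real S y.1) y.2.1, y.2.2]⟩
  left_inv _ := rfl
  right_inv _ := rfl

/-- the fixed points of the elements of order 2 at the real cusps -/
abbrev FixgX : Type := Σ s : {i : Option (Fin n) // S.π i = i} × Bool,
  {q : P ⧸ V // cuspT V F hVF (S.entry s).1 q = q}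

theorem fixg_card [Finite (P ⧸ V)] (hV : IsOpen (V : Set P)) : Nat.card (FixgX V S hVF) =
    2 * Nat.card {ω : Cusps c V // S.map V hVF ω = ω} := by
  classical
  rw [Nat.card_congr (fixgEquiv V S hVF), Nat.card_sigma, Nat.card_sigma,
    Fintype.sum_prod_type, Finset.mul_sum]
  refine Finset.sum_congr rfl fun i _ => ?_
  rw [Fintype.sum_bool, ← fix_count hVF hV (cusp c i.1) (S.f i.1) (fixg_real S i)
    (fixgσ V hVF (cusp c i.1) (S.f i.1) (fixg_real S i))
    (fun g => fixgσ_mk V hVF (cusp c i.1) (S.f i.1) (fixg_real S i) g), add_comm]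
  have e1 : (S.entry (i, false)).1 = S.f i.1 := by
    show (if false = true then cusp c i.1 else 1) * S.f i.1 = S.f i.1
    rw [if_neg Bool.false_ne_true, one_mul]
  have e2 : (S.entry (i, true)).1 = cusp c i.1 * S.f i.1 := by
    show (if true = true then cusp c i.1 else 1) * S.f i.1 = cusp c i.1 * S.f i.1
    rw [if_pos rfl]
  rw [e1, e2]

/-! ### The map to the classes -/

/-- the element `g⁻¹ e F` of order 2 -/
def fixgEl [CompactSpace V] (e : (tSpace F 2 S.hF).Z) (g : P) (h : g⁻¹ * e.1 * F g ∈ V) :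
    (tSpace (resF F V hVF) 2 (resF_hF V hVF S.hF)).Z :=
  ⟨⟨g⁻¹ * e.1 * F g, h⟩, by
    apply Subtype.ext
    rw [resF_nv]
    have h1 := nv_conj F 2 g⁻¹ e.1
    rw [map_inv, inv_inv, e.2, S.hF, mul_one, inv_inv, inv_mul_cancel] at h1
    exact h1⟩

omit hVn in
theorem fixgEl_rel [CompactSpace V] (e : (tSpace F 2 S.hF).Z) (g g' : P)
    (h : g⁻¹ * e.1 * F g ∈ V) (h' : g'⁻¹ * e.1 * F g' ∈ V)
    (hg : (QuotientGroup.mk g : P ⧸ V) = QuotientGroup.mk g') :
    (Quotient.mk (tRel (resF_hF V hVF S.hF)) (fixgEl V S hVF e g h)) =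
      Quotient.mk (tRel (resF_hF V hVF S.hF)) (fixgEl V S hVF e g' h') := by
  rw [QuotientGroup.eq] at hg
  refine (Quotient.sound ?_ : Quotient.mk (tRel (resF_hF V hVF S.hF)) (fixgEl V S hVF e g' h') =
    Quotient.mk (tRel (resF_hF V hVF S.hF)) (fixgEl V S hVF e g h)).symm
  refine ⟨⟨g⁻¹ * g', hg⟩, ?_⟩
  apply Subtype.ext
  apply Subtype.ext
  show g⁻¹ * g' * (g'⁻¹ * e.1 * F g') * (F (g⁻¹ * g'))⁻¹ = g⁻¹ * e.1 * F g
  rw [map_mul, map_inv]
  group

omit [IsTopologicalGroup P] [CompactSpace P] [T2Space P] [TotallyDisconnectedSpace P] hVn in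
theorem fixg_mem_of_fix (e : P) (g : P)
    (h : cuspT V F hVF e (QuotientGroup.mk g) = QuotientGroup.mk g) : g⁻¹ * e * F g ∈ V := by
  rw [cuspT_mk, eq_comm, QuotientGroup.eq, ← mul_assoc] at h
  exact h

omit [IsTopologicalGroup P] [CompactSpace P] [T2Space P] [TotallyDisconnectedSpace P] hVn in
theorem fixg_fix_of_mem (e : P) (g : P) (h : g⁻¹ * e * F g ∈ V) :
    cuspT V F hVF e (QuotientGroup.mk g) = QuotientGroup.mk g := by
  rw [cuspT_mk, eq_comm, QuotientGroup.eq, ← mul_assoc]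
  exact h

theorem fixg_out (x : FixgX V S hVF) :
    (x.2.1.out)⁻¹ * (S.entry x.1).1 * F x.2.1.out ∈ V := by
  apply fixg_mem_of_fix V hVF
  rw [QuotientGroup.out_eq']
  exact x.2.2

/-- the map to the classes of `V` -/
noncomputable def fixgM [CompactSpace V] (x : FixgX V S hVF) :
    Quotient (tRel (resF_hF V hVF S.hF)) :=
  Quotient.mk _ (fixgEl V S hVF (S.entry x.1) x.2.1.out (fixg_out V S hVF x))

theorem fixgM_mk [CompactSpace V] (s : {i : Option (Fin n) // S.π i = i} × Bool) (g : P)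
    (h : g⁻¹ * (S.entry s).1 * F g ∈ V) :
    fixgM V S hVF ⟨s, ⟨QuotientGroup.mk g, fixg_fix_of_mem V hVF _ g h⟩⟩ =
      Quotient.mk _ (fixgEl V S hVF (S.entry s) g h) :=
  fixgEl_rel V S hVF _ _ _ _ _ (QuotientGroup.out_eq' _)

/-- each class has two preimages -/
theorem fixg_two [CompactSpace V] (h : FreeProfN P c) (tr : Tree P 2) (i₀ : Option (Fin n))
    (h0 : S.π i₀ = i₀) (ω : Quotient (tRel (resF_hF V hVF S.hF))) :
    ∃ x y : FixgX V S hVF, x.1 ≠ y.1 ∧ fixgM V S hVF x = ω ∧ fixgM V S hVF y = ω := by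
  obtain ⟨w, rfl⟩ := Quotient.exists_rep ω
  have hw : nv F 2 (w.1 : P) = 1 := by
    have h1 := congrArg Subtype.val w.2
    rw [resF_nv] at h1
    exact h1
  obtain ⟨s, t, hst, ⟨g, hg⟩, ⟨k, hk⟩⟩ := hit S h tr i₀ h0 ⟨(w.1 : P), hw⟩
  have key : ∀ (s : {i : Option (Fin n) // S.π i = i} × Bool) (g : P),
      (tSpace F 2 S.hF).act g (S.entry s) = ⟨(w.1 : P), hw⟩ →
      ∃ x : FixgX V S hVF, x.1 = s ∧
        fixgM V S hVF x = Quotient.mk (tRel (resF_hF V hVF S.hF)) w := by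
    intro s g hg
    have h1 : g * (S.entry s).1 * (F g)⁻¹ = (w.1 : P) := congrArg Subtype.val hg
    have h2 : (g⁻¹)⁻¹ * (S.entry s).1 * F g⁻¹ = (w.1 : P) := by
      rw [inv_inv, map_inv]
      exact h1
    have h3 : (g⁻¹)⁻¹ * (S.entry s).1 * F g⁻¹ ∈ V := by
      rw [h2]
      exact w.1.2
    refine ⟨⟨s, ⟨QuotientGroup.mk g⁻¹, fixg_fix_of_mem V hVF _ _ h3⟩⟩, rfl, ?_⟩
    rw [fixgM_mk V S hVF s g⁻¹ h3]
    congr 1
    apply Subtype.ext
    apply Subtype.ext
    exact h2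
  obtain ⟨x, hx, hx'⟩ := key s g hg
  obtain ⟨y, hy, hy'⟩ := key t k hk
  exact ⟨x, y, by rw [hx, hy]; exact hst, hx', hy'⟩

include hVF in
theorem fixg_mem (h : FreeProfN P c) (tr : Tree P 2) (hV : IsOpen (V : Set P)) (trV : Tree V 2)
    (i₀ : Option (Fin n)) (h0 : S.π i₀ = i₀) (h1 : S.f i₀ = 1) (u : P) (hu : F u = u) :
    u ∈ V := by
  classical
  have hcl : IsClosed (V : Set P) := V.isClosed_of_isOpen hV
  have : CompactSpace V := isCompact_iff_compactSpace.1 hcl.isCompact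
  have : Finite (P ⧸ V) := V.quotient_finite_of_isOpen hV
  have hsurj : Function.Surjective (fixgM V S hVF) := by
    intro ω
    obtain ⟨x, -, -, hx, -⟩ := fixg_two V S hVF h tr i₀ h0 ω
    exact ⟨x, hx⟩
  have : Finite (Quotient (tRel (resF_hF V hVF S.hF))) := Finite.of_surjective _ hsurj
  by_contra huV
  have hcard := fixg_card V S hVF hV
  have hcnt := cnt V S hVF h hV trV
  have := Fintype.ofFinite (FixgX V S hVF)
  have := Fintype.ofFinite (Quotient (tRel (resF_hF V hVF S.hF)))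
  have hX : Nat.card (FixgX V S hVF) = Fintype.card (FixgX V S hVF) := Nat.card_eq_fintype_card
  have hQ : Nat.card (Quotient (tRel (resF_hF V hVF S.hF))) =
    Fintype.card (Quotient (tRel (resF_hF V hVF S.hF))) := Nat.card_eq_fintype_card
  rw [hX] at hcard
  rw [hQ] at hcnt
  -- the three elements over the class of 1
  have e0 : (S.entry (⟨i₀, h0⟩, false)).1 = 1 := by
    show (if false = true then cusp c i₀ else 1) * S.f i₀ = 1
    rw [if_neg Bool.false_ne_true, one_mul, h1]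
  have m1 : (1 : P)⁻¹ * (S.entry (⟨i₀, h0⟩, false)).1 * F 1 ∈ V := by
    rw [e0, map_one, inv_one, one_mul, one_mul]
    exact V.one_mem
  have m2 : u⁻¹ * (S.entry (⟨i₀, h0⟩, false)).1 * F u ∈ V := by
    rw [e0, hu, mul_one, inv_mul_cancel]
    exact V.one_mem
  set ω₁ := Quotient.mk (tRel (resF_hF V hVF S.hF))
    (fixgEl V S hVF (S.entry (⟨i₀, h0⟩, false)) 1 m1) with hω₁
  set x1 : FixgX V S hVF := ⟨(⟨i₀, h0⟩, false),
    ⟨QuotientGroup.mk 1, fixg_fix_of_mem V hVF _ 1 m1⟩⟩ with hx1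
  set x2 : FixgX V S hVF := ⟨(⟨i₀, h0⟩, false),
    ⟨QuotientGroup.mk u, fixg_fix_of_mem V hVF _ u m2⟩⟩ with hx2
  have f1 : fixgM V S hVF x1 = ω₁ := fixgM_mk V S hVF _ 1 m1
  have f2 : fixgM V S hVF x2 = ω₁ := by
    rw [hx2, fixgM_mk V S hVF _ u m2, hω₁]
    congr 1
    apply Subtype.ext
    apply Subtype.ext
    show u⁻¹ * (S.entry (⟨i₀, h0⟩, false)).1 * F u = 1⁻¹ * (S.entry (⟨i₀, h0⟩, false)).1 * F 1
    rw [e0, hu, map_one]
    group
  have hne : x1 ≠ x2 := by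
    intro h12
    have h3 : (QuotientGroup.mk 1 : P ⧸ V) = QuotientGroup.mk u := by
      have h4 := (Sigma.mk.inj_iff.1 h12).2
      exact congrArg Subtype.val (eq_of_heq h4)
    rw [QuotientGroup.eq, inv_one, one_mul] at h3
    exact huV h3
  obtain ⟨x3, hx3, f3⟩ : ∃ x3 : FixgX V S hVF, x3.1 ≠ (⟨i₀, h0⟩, false) ∧
      fixgM V S hVF x3 = ω₁ := by
    obtain ⟨x, y, hxy, hx, hy⟩ := fixg_two V S hVF h tr i₀ h0 ω₁
    by_cases hx0 : x.1 = (⟨i₀, h0⟩, false)
    · exact ⟨y, fun hy0 => hxy (hx0.trans hy0.symm), hy⟩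
    · exact ⟨x, hx0, hx⟩
  have h13 : x1 ≠ x3 := fun h => hx3 (by rw [← h])
  have h23 : x2 ≠ x3 := fun h => hx3 (by rw [← h])
  -- the count
  have hfib : ∀ ω : Quotient (tRel (resF_hF V hVF S.hF)), (2 + if ω = ω₁ then 1 else 0) ≤
      (univ.filter fun x : FixgX V S hVF => fixgM V S hVF x = ω).card := by
    intro ω
    by_cases hω : ω = ω₁
    · rw [if_pos hω, hω]
      exact Finset.two_lt_card.2 ⟨x1, by simp [f1], x2, by simp [f2], x3, by simp [f3],
        hne, h13, h23⟩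
    · rw [if_neg hω]
      obtain ⟨x, y, hxy, hx, hy⟩ := fixg_two V S hVF h tr i₀ h0 ω
      exact Finset.one_lt_card.2 ⟨x, by simp [hx], y, by simp [hy], fun h => hxy (by rw [h])⟩
  have hsum := Finset.card_eq_sum_card_fiberwise (f := fixgM V S hVF)
    (s := (univ : Finset (FixgX V S hVF))) (t := univ) (fun x _ => by simp)
  have hle := Finset.sum_le_sum (s := univ) fun ω _ => hfib ω
  rw [← hsum, Finset.sum_add_distrib, Finset.sum_const, Finset.sum_ite_eq' univ ω₁ (fun _ => 1),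
    if_pos (Finset.mem_univ _), Finset.card_univ, Finset.card_univ, smul_eq_mul] at hle
  omega

/-- FIXG (uses HIT, FIXC, CNT): THEOREM G -/
theorem fixed_trivial (h : FreeProfN P c) (tr : Tree P 2)
    (hT : ∀ V : Subgroup P, IsOpen (V : Set P) → Nonempty (Tree V 2))
    (i₀ : Option (Fin n)) (h0 : S.π i₀ = i₀) (h1 : S.f i₀ = 1) (u : P) (hu : F u = u) :
    u = 1 := by
  by_contra hne
  obtain ⟨W, hW⟩ := ProfiniteGrp.exist_openNormalSubgroup_sub_open_nhds_of_one (G := P)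
    (isOpen_compl_singleton (x := u)) (fun h => hne (Set.mem_singleton_iff.1 h).symm)
  have hF2 : ∀ g, F (F g) = g := fun g => S.hF g
  set V : Subgroup P := W.toSubgroup ⊓ W.toSubgroup.comap (F : P →* P) with hVdef
  have : V.Normal := inferInstance
  have hVF : ∀ g, F g ∈ V ↔ g ∈ V := by
    intro g
    constructor
    · rintro ⟨a, b⟩
      have b' : F (F g) ∈ W.toSubgroup := b
      rw [hF2] at b'
      exact ⟨b', a⟩
    · rintro ⟨a, b⟩
      refine ⟨b, ?_⟩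
      show F (F g) ∈ W.toSubgroup
      rw [hF2]
      exact a
  have hV : IsOpen (V : Set P) := W.isOpen'.inter (W.isOpen'.preimage F.continuous)
  obtain ⟨trV⟩ := hT V hV
  have h2 := fixg_mem V S hVF h tr hV trV i₀ h0 h1 u hu
  exact hW h2.1 rfl

end Cusps

end Pool.Agent.GTT
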