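import Pool.Agent.Lib.MP_2cc432_al.Main
import Pool.Agent.Lib.MP_2cc432_al.Cusp2

/-!
# MAIN2: the main theorem for automorphisms with `F x = x ^ ν`
-/

open Filter Topology Finset

namespace Pool.Agent.GTT

section Main2

variable {𝔽 : Type} [Group 𝔽] [TopologicalSpace 𝔽] [IsTopologicalGroup 𝔽] [CompactSpace 𝔽]
  [T2Space 𝔽] [TotallyDisconnectedSpace 𝔽] {x y : 𝔽} {p : ℕ} [Fact p.Prime]

/-- MAIN2 -/
theorem main_abstract2 (h : FreeProf 𝔽 x y) (F : 𝔽 ≃ₜ* 𝔽) (hF : ∀ g, F^[p] g = g)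
    (ν : Zhat) (hν : ν ^ p = 1) (hν1 : Zhat.mod (p ^ 2) ν = 1)
    (hx : F x = hpow x ν) (b c : 𝔽) (hb : b * F y * b⁻¹ = hpow y ν) (hbN : nv F p b = 1)
    (hc : c * F (x * y) * c⁻¹ = hpow (x * y) ν) (hcN : nv F p c = 1) (g : 𝔽) : F g = g := by
  by_contra hne
  have hw : g⁻¹ * F g ≠ 1 := fun h1 => hne (inv_mul_eq_one.mp h1).symm
  obtain ⟨V, hVn, hV, hVF, hwV, h7⟩ := exists_deep h F hF _ hw
  obtain ⟨φ, hφ, hur, v, hv⟩ := faithful (p := p) h V hV h7 _ hwV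
  apply hv
  -- invariance of all conjugates
  have key : ∀ (k : 𝔽) (u : V), φ (mainConj V k (resF F V hVF u)) = φ (mainConj V k u) :=
    fun k u => unram_invariant2 h F hF ν hν hν1 hx b c hb hbN hc hcN V hV hVF _
      (mainConj_isHom V k hφ) (mainConj_unram V k hur) u
  set t : V := (resF F V hVF).symm v with ht
  have ht' : resF F V hVF t = v := (resF F V hVF).apply_symm_apply v
  have h1 : φ v = φ t := by
    have := key 1 t
    rw [ht'] at this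
    have e : ∀ u : V, mainConj V 1 u = u := fun u => Subtype.ext (by
      change 1 * (u : 𝔽) * 1⁻¹ = u
      group)
    rwa [e, e] at this
  have h2 := key g⁻¹ (mainConj V g t)
  have e1 : mainConj V g⁻¹ (mainConj V g t) = t := Subtype.ext (by
    change g⁻¹ * (g * (t : 𝔽) * g⁻¹) * g⁻¹⁻¹ = t
    group)
  have e2 : mainConj V g⁻¹ (resF F V hVF (mainConj V g t)) =
      ⟨(g⁻¹ * F g) * v * (g⁻¹ * F g)⁻¹, hVn.conj_mem _ v.2 _⟩ := Subtype.ext (by
    change g⁻¹ * F (g * (t : 𝔽) * g⁻¹) * g⁻¹⁻¹ = (g⁻¹ * F g) * v * (g⁻¹ * F g)⁻¹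
    rw [map_mul, map_mul, map_inv, show (F (t : 𝔽)) = v from congrArg Subtype.val ht']
    group)
  rw [e1, e2] at h2
  rw [h1]
  exact h2

end Main2

end Pool.Agent.GTT
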