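import Pool.Agent.Lib.MP_2cc432_al.GTZ
import Pool.Agent.Lib.MP_2cc432_al.Main2
import Pool.Agent.Lib.MP_2cc432_al.ZArith
import Pool.Agent.Lib.MP_2cc432_al.GT

/-!
# Torsion of the profinite Grothendieck–Teichmüller group has order 1 or 2
-/

open CategoryTheory

namespace Pool.Agent.GTT

/-! ## Iterates of endomorphisms and norms -/

theorem gt2_gtF_gx (l : Zhat) (f : F2hat) : gtF l f gx = hpow gx l := ev_gx _ _

theorem gt2_gtF_gy (l : Zhat) (f : F2hat) : gtF l f gy = f⁻¹ * hpow gy l * f := ev_gy _ _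

theorem gt2_nv_one (k : F2hat →ₜ* F2hat) (n : ℕ) : nv k n 1 = 1 := by
  induction n with
  | zero => rfl
  | succ n ih => rw [nv_succ, ih, map_one, mul_one]

theorem gt2_nv_add (k : F2hat →ₜ* F2hat) (m n : ℕ) (v : F2hat) :
    nv k (m + n) v = nv k m v * k^[m] (nv k n v) := by
  induction m with
  | zero =>
    rw [Nat.zero_add]
    change _ = 1 * _
    rw [one_mul]
    rfl
  | succ m ih =>
    rw [show m + 1 + n = (m + n) + 1 by ring, nv_succ, ih, map_mul, nv_succ, mul_assoc,
      ← Function.iterate_succ_apply' k]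

theorem gt2_nv_iterate (k : F2hat →ₜ* F2hat) (m j : ℕ) (v : F2hat) :
    nv (k^[m]) j (nv k m v) = nv k (m * j) v := by
  induction j with
  | zero => rfl
  | succ j ih =>
    rw [nv_succ, ih, Nat.mul_succ, Nat.add_comm, gt2_nv_add]

/-- if `k w = u⁻¹ w ^ l u` then `k^n w = (nv k n u)⁻¹ w ^ (l ^ n) (nv k n u)` -/
theorem gt2_iter_conj (k : F2hat →ₜ* F2hat) (l : Zhat) (u w : F2hat)
    (h : k w = u⁻¹ * hpow w l * u) (n : ℕ) :
    k^[n] w = (nv k n u)⁻¹ * hpow w (l ^ n) * nv k n u := by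
  induction n with
  | zero =>
    change w = 1⁻¹ * hpow w (l ^ 0) * 1
    rw [pow_zero, hpow_one]
    simp
  | succ n ih =>
    have h1 : k (hpow w (l ^ n)) = u⁻¹ * hpow w (l ^ (n + 1)) * u := by
      have h2 : k (hpow w (l ^ n)) = hpow (k w) (l ^ n) :=
        map_hpow (k : F2hat →* F2hat) k.continuous w (l ^ n)
      have h3 : u⁻¹ * hpow w l * u = u⁻¹ * hpow w l * u⁻¹⁻¹ := by rw [inv_inv]
      rw [h2, h, h3, ← conj_hpow, ← hpow_mul, pow_succ', inv_inv]
    rw [Function.iterate_succ_apply', ih, map_mul, map_mul, map_inv, h1, nv_succ]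
    group

theorem gt2_iter_gx (l : Zhat) (f : F2hat) (n : ℕ) :
    (gtF l f)^[n] gx = hpow gx (l ^ n) := by
  have h := gt2_iter_conj (gtF l f) l 1 gx (by rw [gt2_gtF_gx]; simp) n
  rw [gt2_nv_one] at h
  rw [h]
  simp

theorem gt2_gtPower (l : Zhat) (f : F2hat) (n : ℕ) :
    gtPower (l, f) n = (l ^ n, nv (gtF l f) n f) := by
  induction n with
  | zero =>
    rw [pow_zero]
    rfl
  | succ n ih =>
    have h : gtPower (l, f) (n + 1) = gtMul (l, f) (gtPower (l, f) n) := rfl
    rw [h, ih, pow_succ', nv_succ]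
    rfl

theorem gt2_gtPower_one (l : Zhat) (f : F2hat) : gtPower (l, f) 1 = (l, f) := by
  rw [gt2_gtPower, pow_one]
  have h : nv (gtF l f) 1 f = f * gtF l f 1 := rfl
  rw [h, map_one, mul_one]

/-- the iterates as homomorphisms -/
noncomputable def gt2IterHom (k : F2hat →ₜ* F2hat) (m : ℕ) : F2hat →ₜ* F2hat where
  toFun := k^[m]
  map_one' := iterate_map_one k m
  map_mul' := iterate_map_mul k m
  continuous_toFun := k.continuous.iterate m

/-- the automorphism of an element of finite order -/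
theorem gt2_iter_eq {l : Zhat} {f : F2hat} {n : ℕ} (h : gtPower (l, f) n = (1, 1)) (w : F2hat) :
    (gtF l f)^[n] w = w := by
  rw [gt2_gtPower] at h
  have hl : l ^ n = 1 := congrArg Prod.fst h
  have hf : nv (gtF l f) n f = 1 := congrArg Prod.snd h
  have hk : gt2IterHom (gtF l f) n = ContinuousMonoidHom.id F2hat := by
    apply ev_ext
    · change (gtF l f)^[n] gx = gx
      rw [gt2_iter_gx, hl, hpow_one]
    · change (gtF l f)^[n] gy = gy
      rw [gt2_iter_conj (gtF l f) l f gy (gt2_gtF_gy l f), hl, hf, hpow_one]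
      simp
  exact congrArg (fun k : F2hat →ₜ* F2hat => k w) hk

/-- `(Inn u ∘ k)^n = Inn (nv k n u) ∘ k^n` -/
theorem gt2_inn_iterate (k : F2hat →ₜ* F2hat) (u : F2hat) (n : ℕ) (w : F2hat) :
    (fun w => u * k w * u⁻¹)^[n] w = nv k n u * k^[n] w * (nv k n u)⁻¹ := by
  induction n generalizing w with
  | zero =>
    change w = 1 * w * 1⁻¹
    simp
  | succ n ih =>
    rw [Function.iterate_succ_apply', ih, Function.iterate_succ_apply', nv_succ]
    simp only [map_mul, map_inv]
    group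

/-- an endomorphism `σ` which is onto, with `σ k = Inn u k σ`: if `k^n = 1` then `nv k n u = 1` -/
theorem gt2_nv_eq_one (k : F2hat →ₜ* F2hat) (σ : F2hat → F2hat) (hσ : Function.Surjective σ)
    (u : F2hat) (h : ∀ w, σ (k w) = u * k (σ w) * u⁻¹) (n : ℕ) (hn : ∀ w, k^[n] w = w) :
    nv k n u = 1 := by
  have key : ∀ j w, σ (k^[j] w) = (fun w => u * k w * u⁻¹)^[j] (σ w) := by
    intro j
    induction j with
    | zero => intro w; rfl
    | succ j ih =>
      intro w
      rw [Function.iterate_succ_apply, ih, h, Function.iterate_succ_apply]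
  apply center_trivial (freeProf_F2hat)
  intro v
  obtain ⟨w, rfl⟩ := hσ v
  have h3 := key n w
  rw [hn, gt2_inn_iterate, hn] at h3
  have h4 := eq_mul_inv_iff_mul_eq.1 h3
  exact h4.symm

/-- `x ^ ν` determines `ν` -/
theorem gt2_hpow_gx {ν : Zhat} (h : hpow gx ν = gx) : ν = 1 := by
  apply Subtype.ext
  funext n
  obtain ⟨φ, hφ, hx, -⟩ := freeProf_F2hat.lift (Multiplicative (ZMod n))
    (Multiplicative.ofAdd 1) 1
  have hδ : IsHom fun g => Multiplicative.toAdd (φ g) :=
    { mul := fun g h => by rw [map_mul, toAdd_mul]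
      lc := hφ.comp _ }
  have h1 := isHom_hpow _ hδ gx ν
  rw [h] at h1
  simp only [hx, toAdd_ofAdd, mul_one] at h1
  exact h1.symm

section GT2

variable {l m : Zhat} {f : F2hat} (hm : l = 2 * m + 1)
  (h1 : f * ev gy gx f = 1)
  (h2 : ev gz gx f * hpow gz m * ev gy gz f * hpow gy m * f * hpow gx m = 1)

theorem gt2_omega_surj : Function.Surjective (ev gy gz : F2hat → F2hat) := fun v =>
  ⟨ev gz gx v, omega_omega v⟩

include h1 h2 in
/-- `ω (y ^ m f) (y ^ m f) = z ^ m f_z` -/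
theorem gt2_fz : ev gy gz (hpow gy m * f) * (hpow gy m * f) =
    hpow gz m * (hpow gz (-m) * ev gx gz f * hpow gx (-m)) := by
  have e1 : ev gy gz (hpow gy m) = hpow gz m := by
    have h := map_hpow ((ev gy gz : F2hat →ₜ* F2hat) : F2hat →* F2hat)
      (ev gy gz : F2hat →ₜ* F2hat).continuous gy m
    have e : ((ev gy gz : F2hat →ₜ* F2hat) : F2hat →* F2hat) gy = gz := ev_gy _ _
    rw [e] at h
    exact h
  have e2 : (ev gz gx f)⁻¹ = ev gx gz f := (rel_one' h1 gz gx).symm
  have e3 : hpow gz m * ev gy gz f * (hpow gy m * f) = (ev gz gx f)⁻¹ * (hpow gx m)⁻¹ := by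
    have h := h2
    have h3 : ev gz gx f * (hpow gz m * ev gy gz f * (hpow gy m * f)) * hpow gx m = 1 := by
      rw [← h]
      group
    have h4 := mul_eq_one_iff_eq_inv.1 h3
    rw [← h4]
    group
  rw [map_mul, e1, e3, e2, hpow_neg gx m, hpow_neg gz m]
  group

include hm h1 h2 in
/-- `F z = (z ^ m f_z)⁻¹ z ^ l (z ^ m f_z)` -/
theorem gt2_gtF_gz : gtF l f gz =
    (ev gy gz (hpow gy m * f) * (hpow gy m * f))⁻¹ * hpow gz l *
      (ev gy gz (hpow gy m * f) * (hpow gy m * f)) := by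
  rw [gt2_fz h1 h2, gtF_gz hm h1 h2]
  have hc : Commute (hpow gz l) (hpow gz m) := hpow_commute (Commute.refl gz) l m
  generalize hpow gz (-m) * ev gx gz f * hpow gx (-m) = u
  calc u⁻¹ * hpow gz l * u = u⁻¹ * ((hpow gz m)⁻¹ * (hpow gz m * hpow gz l)) * u := by group
    _ = u⁻¹ * ((hpow gz m)⁻¹ * (hpow gz l * hpow gz m)) * u := by rw [hc.eq]
    _ = _ := by group

include hm h1 h2 in
theorem gt2_nv_fz {n : ℕ} (hn : gtPower (l, f) n = (1, 1)) :
    nv (gtF l f) n (ev gy gz (hpow gy m * f) * (hpow gy m * f)) = 1 := by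
  apply gt2_nv_eq_one (gtF l f) (fun w => ev gy gz (ev gy gz w))
    (gt2_omega_surj.comp gt2_omega_surj) _ _ n (gt2_iter_eq hn)
  intro w
  rw [omega_rel2 hm h1 h2, map_mul, map_mul (ev gy gz), map_inv, omega_rel2 hm h1 h2]
  group

include hm h1 h2 in
/-- the main step: an element `σ` of order `q p` with `l ^ q ≡ 1 mod p ^ 2` has `σ ^ q = 1` -/
theorem gt2_step (p : ℕ) [Fact p.Prime] (q : ℕ) (hN : gtPower (l, f) (q * p) = (1, 1))
    (hmod : Zhat.mod (p ^ 2) (l ^ q) = 1) : gtPower (l, f) q = (1, 1) := by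
  have hp : p.Prime := Fact.out
  have hN' := hN
  rw [gt2_gtPower] at hN'
  have hl : l ^ (q * p) = 1 := congrArg Prod.fst hN'
  have hf : nv (gtF l f) (q * p) f = 1 := congrArg Prod.snd hN'
  have hG : ∀ w, (gt2IterHom (gtF l f) q)^[p] w = w := by
    intro w
    change ((gtF l f)^[q])^[p] w = w
    rw [← Function.iterate_mul, gt2_iter_eq hN]
  let G : F2hat ≃ₜ* F2hat := mkAut (gt2IterHom (gtF l f) q) p hp.pos hG
  have hGv : ∀ w, G w = (gtF l f)^[q] w := fun _ => rfl
  set h : F2hat := ev gy gz (hpow gy m * f) * (hpow gy m * f) with hh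
  have hmain := main_abstract2 (p := p) freeProf_F2hat G (fun w => hG w) (l ^ q)
    (by rw [← pow_mul, hl]) hmod
    (by rw [hGv, gt2_iter_gx]) (nv (gtF l f) q f) (nv (gtF l f) q h)
    (by
      rw [hGv, gt2_iter_conj (gtF l f) l f gy (gt2_gtF_gy l f)]
      group)
    (by
      have h6 := gt2_nv_iterate (gtF l f) q p f
      rw [hf] at h6
      exact h6)
    (by
      have h7 : gx * gy = gz⁻¹ := by rw [gz, inv_inv]
      have h8 : hpow gz⁻¹ (l ^ q) = (hpow gz (l ^ q))⁻¹ := by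
        have h9 : gz⁻¹ = hpow gz (-1) := by rw [hpow_neg, hpow_one]
        rw [h9, ← hpow_mul, ← hpow_neg, neg_mul, one_mul]
      rw [hGv, h7, iterate_map_inv, gt2_iter_conj (gtF l f) l h gz (gt2_gtF_gz hm h1 h2), h8]
      group)
    (by
      have h6 := gt2_nv_iterate (gtF l f) q p h
      rw [gt2_nv_fz hm h1 h2 hN] at h6
      exact h6)
  have hν : l ^ q = 1 := by
    apply gt2_hpow_gx
    rw [← gt2_iter_gx l f q, ← hGv, hmain]
  have h8 : nv ((gtF l f)^[q]) p (nv (gtF l f) q f) = (nv (gtF l f) q f) ^ p := by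
    have h9 : ∀ k, nv ((gtF l f)^[q]) k (nv (gtF l f) q f) = (nv (gtF l f) q f) ^ k := by
      intro k
      induction k with
      | zero =>
        rw [pow_zero]
        rfl
      | succ k ih =>
        rw [nv_succ, ih, ← hGv, hmain, pow_succ']
    exact h9 p
  rw [gt2_nv_iterate, hf] at h8
  rw [gt2_gtPower, hν, torsion_free' freeProf_F2hat p hp.pos _ h8.symm]

end GT2

section GT2

variable {l m : Zhat} {f : F2hat} (hm : l = 2 * m + 1)
  (h1 : f * ev gy gx f = 1)
  (h2 : ev gz gx f * hpow gz m * ev gy gz f * hpow gy m * f * hpow gx m = 1)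

include hm h1 h2

/-- GT2 (uses GTZ, MAIN2, ZH): torsion has order 1 or 2 -/
theorem gt_order (hl : IsUnit l) (n : ℕ) (hn : 0 < n) (hpw : gtPower (l, f) n = (1, 1)) :
    (l = 1 ∧ f = 1) ∨ (gtMul (l, f) (l, f) = (1, 1) ∧ Zhat.mod 4 l = 3) := by
  classical
  have hex : ∃ n, 0 < n ∧ gtPower (l, f) n = (1, 1) := ⟨n, hn, hpw⟩
  obtain ⟨hN, hfN⟩ := Nat.find_spec hex
  have hmin : ∀ k, 0 < k → k < Nat.find hex → gtPower (l, f) k ≠ (1, 1) := by
    intro k hk hlt h
    exact Nat.find_min hex hlt ⟨hk, h⟩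
  set N := Nat.find hex with hNdef
  clear_value N
  -- the main step
  have key : ∀ (p : ℕ) (_ : Fact p.Prime) (q : ℕ), q * p = N →
      Zhat.mod (p ^ 2) (l ^ q) ≠ 1 := by
    intro p hp q hq hmod
    have hp' : p.Prime := hp.out
    have hq0 : 0 < q := by
      rcases Nat.eq_zero_or_pos q with h | h
      · rw [h, zero_mul] at hq
        omega
      · exact h
    apply hmin q hq0 _ (gt2_step hm h1 h2 p q (by rw [hq]; exact hfN) hmod)
    rw [← hq]
    exact (Nat.lt_mul_iff_one_lt_right hq0).2 hp'.one_lt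
  have hlN : l ^ N = 1 := by
    have h := hfN
    rw [gt2_gtPower] at h
    exact congrArg Prod.fst h
  have two : ∀ p : ℕ, p.Prime → ∀ q : ℕ, q * p = N → p = 2 := by
    intro p hp q hq
    by_contra hne
    have _ : Fact p.Prime := ⟨hp⟩
    exact key p ⟨hp⟩ q hq (zhat_odd p hne (l ^ q) (by rw [← pow_mul, hq, hlN]))
  by_cases hN1 : N = 1
  · left
    rw [hN1, gt2_gtPower_one] at hfN
    exact ⟨congrArg Prod.fst hfN, congrArg Prod.snd hfN⟩
  · right
    have hN2 : N = 2 := by
      obtain ⟨p, hp, q, hq⟩ := Nat.exists_prime_and_dvd hN1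
      have hp2 : p = 2 := two p hp q (by rw [hq, mul_comm])
      subst hp2
      by_cases hq1 : q = 1
      · rw [hq, hq1]
      · exfalso
        obtain ⟨p, hp, r, hr⟩ := Nat.exists_prime_and_dvd hq1
        have hp2 : p = 2 := two p hp (2 * r) (by rw [hq, hr]; ring)
        subst hp2
        apply key 2 ⟨Nat.prime_two⟩ q (by rw [hq, mul_comm])
        have h3 : l ^ q = (l ^ r) ^ 2 := by rw [hr, mul_comm, pow_mul]
        rw [h3]
        exact zhat_two (l ^ r) (hl.pow r)
    constructor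
    · rw [hN2] at hfN
      have h3 : gtPower (l, f) 2 = gtMul (l, f) (gtPower (l, f) 1) := rfl
      rw [h3, gt2_gtPower_one] at hfN
      exact hfN
    · have h3 : Zhat.mod 4 l ≠ 1 := by
        have h4 := key 2 ⟨Nat.prime_two⟩ 1 (by rw [hN2])
        rw [pow_one] at h4
        exact h4
      have h5 : Zhat.mod 4 l = 2 * Zhat.mod 4 m + 1 := by
        rw [hm, map_add, map_mul, map_one]
        congr 1
      rw [h5] at h3 ⊢
      revert h3
      generalize Zhat.mod 4 m = a
      revert a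
      decide

end GT2

end Pool.Agent.GTT
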