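import Pool.Agent.Lib.MP_2cc432_al.Defs2

/-!
# The profinite Grothendieck–Teichmüller group: the elements `(1, f)`
-/

open CategoryTheory

namespace Pool.Agent.GTT

/-- the profinite completion of the free group on two generators -/
noncomputable abbrev F2hat : ProfiniteGrp.{0} :=
  ProfiniteGrp.ProfiniteCompletion.completion (GrpCat.of (FreeGroup (Fin 2)))

/-- the generator `x` -/
noncomputable def gx : F2hat :=
  ProfiniteGrp.ProfiniteCompletion.etaFn (GrpCat.of (FreeGroup (Fin 2))) (FreeGroup.of 0)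

/-- the generator `y` -/
noncomputable def gy : F2hat :=
  ProfiniteGrp.ProfiniteCompletion.etaFn (GrpCat.of (FreeGroup (Fin 2))) (FreeGroup.of 1)

/-- the element `z` with `x y z = 1` -/
noncomputable def gz : F2hat := (gx * gy)⁻¹

/-- `ev a b f = f(a, b)`: the continuous homomorphism with `x ↦ a`, `y ↦ b` -/
noncomputable def ev {G : ProfiniteGrp.{0}} (a b : G) : F2hat →ₜ* G :=
  (ProfiniteGrp.ProfiniteCompletion.lift
    (GrpCat.ofHom (FreeGroup.lift ![a, b]) : GrpCat.of (FreeGroup (Fin 2)) ⟶ GrpCat.of G)).hom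

theorem ev_eta {G : ProfiniteGrp.{0}} (a b : G) (w : FreeGroup (Fin 2)) :
    ev a b (ProfiniteGrp.ProfiniteCompletion.etaFn (GrpCat.of (FreeGroup (Fin 2))) w) =
      FreeGroup.lift ![a, b] w := by
  have h := ProfiniteGrp.ProfiniteCompletion.lift_eta
    (GrpCat.ofHom (FreeGroup.lift ![a, b]) : GrpCat.of (FreeGroup (Fin 2)) ⟶ GrpCat.of G)
  exact ConcreteCategory.congr_hom h w

theorem ev_gx {G : ProfiniteGrp.{0}} (a b : G) : ev a b gx = a := by
  rw [gx, ev_eta]
  simp

theorem ev_gy {G : ProfiniteGrp.{0}} (a b : G) : ev a b gy = b := by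
  rw [gy, ev_eta]
  simp

theorem dense_eta : DenseRange
    (ProfiniteGrp.ProfiniteCompletion.etaFn (GrpCat.of (FreeGroup (Fin 2)))) :=
  ProfiniteGrp.ProfiniteCompletion.denseRange (GrpCat.of (FreeGroup (Fin 2)))

/-- a closed subgroup containing `x` and `y` is everything -/
theorem dense_F2hat (S : Subgroup F2hat) (hS : IsClosed (S : Set F2hat)) (hx : gx ∈ S)
    (hy : gy ∈ S) : S = ⊤ := by
  have h1 : ∀ w : FreeGroup (Fin 2),
      ProfiniteGrp.ProfiniteCompletion.etaFn (GrpCat.of (FreeGroup (Fin 2))) w ∈ S := by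
    intro w
    have h2 : w ∈ S.comap (ProfiniteGrp.ProfiniteCompletion.eta
        (GrpCat.of (FreeGroup (Fin 2)))).hom := by
      have h3 : (⊤ : Subgroup (FreeGroup (Fin 2))) ≤ S.comap
          (ProfiniteGrp.ProfiniteCompletion.eta (GrpCat.of (FreeGroup (Fin 2)))).hom := by
        rw [← FreeGroup.closure_range_of, Subgroup.closure_le]
        rintro _ ⟨i, rfl⟩
        fin_cases i
        · exact hx
        · exact hy
      exact h3 (Subgroup.mem_top w)
    exact h2
  have h2 : (S : Set F2hat) = Set.univ := by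
    rw [← hS.closure_eq]
    apply (dense_eta.mono ?_).closure_eq
    rintro _ ⟨w, rfl⟩
    exact h1 w
  exact (Subgroup.coe_eq_univ).1 h2

/-- two continuous homomorphisms which agree on `x`, `y` are equal -/
theorem ev_ext {G : Type} [Group G] [TopologicalSpace G] [T2Space G] (f g : F2hat →ₜ* G)
    (hx : f gx = g gx) (hy : f gy = g gy) : f = g := by
  have h : (MonoidHom.eqLocus (f : F2hat →* G) (g : F2hat →* G)) = ⊤ :=
    dense_F2hat _ (isClosed_eq f.continuous g.continuous) hx hy
  ext w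
  have hw : w ∈ (MonoidHom.eqLocus (f : F2hat →* G) (g : F2hat →* G)) := h ▸ Subgroup.mem_top w
  exact hw

theorem freeProf_F2hat : FreeProf F2hat gx gy where
  dense := dense_F2hat
  lift := by
    intro G _ _ a b
    let _ : TopologicalSpace G := ⊥
    have _ : DiscreteTopology G := ⟨rfl⟩
    let G' : ProfiniteGrp.{0} := ProfiniteGrp.of G
    let φ : F2hat →ₜ* G' := ev (G := G') a b
    exact ⟨φ.toMonoidHom, (IsLocallyConstant.iff_continuous _).2 φ.continuous, ev_gx _ _,
      ev_gy _ _⟩

/-- The endomorphism of `F2hat` given by `(1, f)`: `x ↦ x`, `y ↦ f⁻¹ y f`. -/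
noncomputable def gtEnd (f : F2hat) : F2hat →ₜ* F2hat := ev gx (f⁻¹ * gy * f)

/-- the second component of the `n`-th power of `(1, f)` for the law
`(1, f) * (1, g) = (1, f * F(g))`, `F = gtEnd f` -/
noncomputable def gtPow (f : F2hat) : ℕ → F2hat
  | 0 => 1
  | n + 1 => f * gtEnd f (gtPow f n)

end Pool.Agent.GTT
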