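import Pool.Agent.Lib.MP_2cc432_al.K5Defs

/-!
# The profinite Grothendieck–Teichmüller group
-/

open CategoryTheory

namespace Pool.Agent.GTT

/-- the endomorphism `F` of `F2hat` given by `(l, f)`: `x ↦ x ^ l`, `y ↦ f⁻¹ y ^ l f` -/
noncomputable def gtF (l : Zhat) (f : F2hat) : F2hat →ₜ* F2hat :=
  ev (hpow gx l) (f⁻¹ * hpow gy l * f)

/-- the law `(l, f) (m, g) = (l m, f F(g))` -/
noncomputable def gtMul (σ τ : Zhat × F2hat) : Zhat × F2hat :=
  (σ.1 * τ.1, σ.2 * gtF σ.1 σ.2 τ.2)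

/-- powers for the law `gtMul` -/
noncomputable def gtPower (σ : Zhat × F2hat) : ℕ → Zhat × F2hat
  | 0 => (1, 1)
  | n + 1 => gtMul σ (gtPower σ n)

/-- `(l, f)` is an element of the profinite Grothendieck–Teichmüller group: `l` is a unit, `f` lies
in the closure of the commutator subgroup, (I), (II) with `m = (l - 1) / 2`, (III), and `F` is an
automorphism -/
structure IsGT (σ : Zhat × F2hat) : Prop where
  unit : IsUnit σ.1
  comm : σ.2 ∈ (commutator F2hat).topologicalClosure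
  I : σ.2 * ev gy gx σ.2 = 1
  II : ∃ m : Zhat, σ.1 = 2 * m + 1 ∧
    ev gz gx σ.2 * hpow gz m * ev gy gz σ.2 * hpow gy m * σ.2 * hpow gx m = 1
  III : pent σ.2 ka = 1
  bij : Function.Bijective (gtF σ.1 σ.2)

end Pool.Agent.GTT
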