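import Pool.Agent.Lib.MP_2cc432_al.GTF
import Pool.Agent.Lib.MP_2cc432_al.GT
import Pool.Agent.Lib.MP_2cc432_al.HPow

/-!
# TGT2, module GTZ: the value `F z` and the relation with `ω`, for all `λ`
-/

open Filter Topology Finset

namespace Pool.Agent.GTT

section GTZ

variable {l m : Zhat} {f : F2hat} (hm : l = 2 * m + 1)
  (h1 : f * ev gy gx f = 1)
  (h2 : ev gz gx f * hpow gz m * ev gy gz f * hpow gy m * f * hpow gx m = 1)

theorem gtz_gtF_gx (l : Zhat) (f : F2hat) : gtF l f gx = hpow gx l := ev_gx _ _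

theorem gtz_gtF_gy (l : Zhat) (f : F2hat) : gtF l f gy = f⁻¹ * hpow gy l * f := ev_gy _ _

theorem gtz_ev_hpow (a b c : F2hat) (k : Zhat) : ev a b (hpow c k) = hpow (ev a b c) k :=
  map_hpow (ev a b).toMonoidHom (ev a b).continuous c k

theorem gtz_succ (a : F2hat) (k : Zhat) : hpow a (k + 1) = hpow a k * a := by
  rw [hpow_add, hpow_one]

theorem gtz_succ' (a : F2hat) (k : Zhat) : hpow a (k + 1) = a * hpow a k := by
  rw [add_comm, hpow_add, hpow_one]

include h1 h2 in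
/-- the relation (II) with `x` and `y` exchanged -/
theorem gtz_theta : ev gz gy f * hpow gz (m + 1) * ev gx gz f =
    (hpow gy (m + 1))⁻¹ * f * (hpow gx (m + 1))⁻¹ := by
  have h := congrArg (ev gy gx) h2
  simp only [map_mul, ev_comp, gtz_ev_hpow, ev_gx, ev_gy, map_one] at h
  have hz1 : ev gy gx gz = gx⁻¹ * gz * gx := by
    rw [gz, map_inv, map_mul, ev_gx, ev_gy]
    group
  have hz2 : ev gy gx gz = gy * gz * gy⁻¹ := by
    rw [gz, map_inv, map_mul, ev_gx, ev_gy]
    group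
  have h3 : ev (ev gy gx gz) gy f = gy * ev gz gy f * gy⁻¹ := by
    rw [hz2, ← ev_conj]
    congr 2
    group
  have h4 : ev gx (ev gy gx gz) f = gx⁻¹ * ev gx gz f * gx := by
    have h5 := ev_conj gx⁻¹ gx gz f
    rw [inv_inv] at h5
    rw [hz1, ← h5]
    congr 2
    group
  have h6 : hpow (ev gy gx gz) m = gy * hpow gz m * gy⁻¹ := by
    rw [hz2, conj_hpow]
  have h8 : gy⁻¹ * gx⁻¹ = gz := by
    rw [gz, mul_inv_rev]
  rw [h3, h4, h6, rel_one' h1 gx gy, ev_self] at h
  have h9 : gy * ev gz gy f * (hpow gz m * (gy⁻¹ * gx⁻¹)) * ev gx gz f * (gx * hpow gx m) *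
      f⁻¹ * hpow gy m = 1 := by
    rw [← h]
    group
  rw [h8, ← gtz_succ, ← gtz_succ'] at h9
  have h10 : gy * (ev gz gy f * hpow gz (m + 1) * ev gx gz f) * hpow gx (m + 1) * f⁻¹ *
      hpow gy m = 1 := by
    rw [← h9]
    group
  have h11 : ev gz gy f * hpow gz (m + 1) * ev gx gz f =
      gy⁻¹ * (hpow gy m)⁻¹ * f * (hpow gx (m + 1))⁻¹ := by
    calc ev gz gy f * hpow gz (m + 1) * ev gx gz f
        = gy⁻¹ * (gy * (ev gz gy f * hpow gz (m + 1) * ev gx gz f) * hpow gx (m + 1) * f⁻¹ *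
          hpow gy m) * (hpow gy m)⁻¹ * f * (hpow gx (m + 1))⁻¹ := by group
      _ = _ := by rw [h10, mul_one]
  rw [h11, gtz_succ gy, mul_inv_rev]

include h1 h2 in
/-- the inverse of the relation (II) -/
theorem gtz_inv : ev gz gy f * hpow gz (-m) * ev gx gz f = hpow gy m * f * hpow gx m := by
  have h := h2
  rw [rel_one' h1 gx gz, rel_one' h1 gz gy] at h
  rw [hpow_neg]
  have h3 : hpow gy m * f * hpow gx m =
      ((ev gx gz f)⁻¹ * hpow gz m * (ev gz gy f)⁻¹)⁻¹ := by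
    symm
    apply inv_eq_of_mul_eq_one_right
    rw [← h]
    group
  rw [h3]
  group

include hm h1 h2

/-- GTZ: `F z = f_z⁻¹ z ^ l f_z` with `f_z = z ^ (-m) f(x, z) x ^ (-m)` -/
theorem gtF_gz : gtF l f gz =
    (hpow gz (-m) * ev gx gz f * hpow gx (-m))⁻¹ * hpow gz l *
      (hpow gz (-m) * ev gx gz f * hpow gx (-m)) := by
  have e1 := gtz_theta h1 h2
  have e2 := gtz_inv h1 h2
  have e3 : gtF l f gz = (hpow gx l * (f⁻¹ * hpow gy l * f))⁻¹ := by
    rw [gz, map_inv, map_mul, gtz_gtF_gx, gtz_gtF_gy]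
  have hl : ∀ a : F2hat, hpow a l = hpow a m * hpow a (m + 1) := by
    intro a
    rw [← hpow_add, hm]
    congr 1
    ring
  have hl' : ∀ a : F2hat, hpow a l = hpow a (m + 1) * hpow a m := by
    intro a
    rw [← hpow_add, hm]
    congr 1
    ring
  have hzl : hpow gz l = (hpow gz (-m))⁻¹ * hpow gz (m + 1) := by
    rw [hpow_neg, inv_inv, hl]
  -- `f(x,z)⁻¹ z ^ l f(x,z)` as a quotient of the two relations
  have e4 : (ev gx gz f)⁻¹ * hpow gz l * ev gx gz f =
      (hpow gy m * f * hpow gx m)⁻¹ * ((hpow gy (m + 1))⁻¹ * f * (hpow gx (m + 1))⁻¹) := by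
    rw [← e1, ← e2, hzl]
    group
  have e5 : (hpow gz (-m) * ev gx gz f * hpow gx (-m))⁻¹ * hpow gz l *
      (hpow gz (-m) * ev gx gz f * hpow gx (-m)) =
      hpow gx m * ((ev gx gz f)⁻¹ * (hpow gz m * hpow gz l * (hpow gz m)⁻¹) * ev gx gz f) *
        (hpow gx m)⁻¹ := by
    rw [hpow_neg, hpow_neg]
    group
  have e6 : hpow gz m * hpow gz l * (hpow gz m)⁻¹ = hpow gz l := by
    have h := hpow_commute (Commute.refl gz) m l
    rw [h.eq]
    group
  rw [e5, e6, e4, e3, hl' gy, hl gx]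
  group

/-- GTZ: `ω F = (y ^ m f) F ω (y ^ m f)⁻¹` for `ω : x ↦ y ↦ z ↦ x` -/
theorem omega_rel2 (w : F2hat) :
    ev gy gz (gtF l f w) = (hpow gy m * f) * gtF l f (ev gy gz w) * (hpow gy m * f)⁻¹ := by
  let u : F2hat := hpow gy m * f
  let c : F2hat →ₜ* F2hat :=
    { toMonoidHom := (MulAut.conj u).toMonoidHom
      continuous_toFun := by
        change Continuous fun w : F2hat => u * w * u⁻¹
        fun_prop }
  have h : (ev gy gz).comp (gtF l f) = (c.comp (gtF l f)).comp (ev gy gz) := by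
    apply ev_ext
    · change ev gy gz (gtF l f gx) = (hpow gy m * f) * gtF l f (ev gy gz gx) * (hpow gy m * f)⁻¹
      rw [gtz_gtF_gx, gtz_ev_hpow, ev_gx, gtz_gtF_gy]
      have h3 := hpow_commute (Commute.refl gy) m l
      calc hpow gy l = hpow gy l * hpow gy m * (hpow gy m)⁻¹ := by group
        _ = hpow gy m * hpow gy l * (hpow gy m)⁻¹ := by rw [h3.eq]
        _ = _ := by group
    · change ev gy gz (gtF l f gy) = (hpow gy m * f) * gtF l f (ev gy gz gy) * (hpow gy m * f)⁻¹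
      rw [ev_gy, gtF_gz hm h1 h2, gtz_gtF_gy, map_mul, map_mul, map_inv, gtz_ev_hpow, ev_gy]
      have e : (hpow gz (-m) * ev gx gz f * hpow gx (-m)) * (hpow gy m * f)⁻¹ =
          ev gy gz f := by
        have h := h2
        rw [rel_one' h1 gx gz] at h
        have h3 : ev gx gz f = hpow gz m * ev gy gz f * hpow gy m * f * hpow gx m := by
          apply inv_mul_eq_one.1
          rw [← h]
          group
        rw [h3, hpow_neg, hpow_neg]
        group
      rw [← e]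
      group
  exact congrArg (fun k : F2hat →ₜ* F2hat => k w) h

end GTZ

end Pool.Agent.GTT
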