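import Pool.Agent.Lib.MP_2cc432_al.Inv
import Pool.Agent.Lib.MP_2cc432_al.FreeN

/-!
# Each class of involutions is hit at least twice by the real cusps (module HIT)
-/

open Filter Topology Finset

namespace Pool.Agent.GTT

section Cusps

variable {P : Type} [Group P] [TopologicalSpace P]

theorem hit_one {D : P → ZMod 2} (hD : IsHom D) : D 1 = 0 := by
  have h := hD.mul 1 1
  rw [mul_one] at h
  simpa using h

theorem hit_two (x : ZMod 2) : x + x = 0 := by
  revert x
  decide

theorem hit_inv {D : P → ZMod 2} (hD : IsHom D) (g : P) : D g⁻¹ = D g := by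
  have h := hD.mul g g⁻¹
  rw [mul_inv_cancel, hit_one hD] at h
  have h2 := hit_two (D g)
  have h3 : D g + D g⁻¹ = D g + D g := by rw [← h, h2]
  exact add_left_cancel h3

/-- homomorphisms to `ℤ / 2` as homomorphisms of groups -/
def hitMul {D : P → ZMod 2} (hD : IsHom D) : P →* Multiplicative (ZMod 2) where
  toFun g := Multiplicative.ofAdd (D g)
  map_one' := by rw [hit_one hD]; rfl
  map_mul' g h := by rw [hD.mul]; rfl

variable {n : ℕ} {c : Fin n → P}

theorem hit_prod {D : P → ZMod 2} (hD : IsHom D) :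
    D (List.ofFn c).prod = ∑ i, D (c i) := by
  have h : hitMul hD (List.ofFn c).prod = ∏ i, hitMul hD (c i) := by
    rw [map_list_prod, List.map_ofFn, List.prod_ofFn]
    rfl
  have h2 := congrArg Multiplicative.toAdd h
  rw [toAdd_prod] at h2
  exact h2

theorem hit_sum {D : P → ZMod 2} (hD : IsHom D) :
    ∑ i : Option (Fin n), D (cusp c i) = 0 := by
  rw [Fintype.sum_option]
  change D ((List.ofFn c).prod)⁻¹ + ∑ i, D (c i) = 0
  rw [hit_inv hD, hit_prod hD, hit_two]

theorem hit_ext (h : FreeProfN P c) {D D' : P → ZMod 2} (hD : IsHom D) (hD' : IsHom D')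
    (hc : ∀ i, D (c i) = D' (c i)) : D = D' := by
  let S : Subgroup P :=
    { carrier := {g | D g = D' g}
      mul_mem' := by
        intro g g' hg hg'
        change D g = D' g at hg
        change D g' = D' g' at hg'
        change D (g * g') = D' (g * g')
        rw [hD.mul, hD'.mul, hg, hg']
      one_mem' := by
        change D 1 = D' 1
        rw [hit_one hD, hit_one hD']
      inv_mem' := by
        intro g hg
        change D g = D' g at hg
        change D g⁻¹ = D' g⁻¹
        rw [hit_inv hD, hit_inv hD', hg] }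
  have hcl : IsClosed (S : Set P) := by
    exact isClosed_eq hD.lc.continuous hD'.lc.continuous
  have hS := h.dense S hcl hc
  funext g
  have : g ∈ S := by rw [hS]; trivial
  exact this

theorem hit_exists (h : FreeProfN P c) (a : Fin n → ZMod 2) :
    ∃ D : P → ZMod 2, IsHom D ∧ ∀ i, D (c i) = a i := by
  obtain ⟨φ, hφ, hi⟩ := h.lift (Multiplicative (ZMod 2)) (fun i => Multiplicative.ofAdd (a i))
  refine ⟨fun g => Multiplicative.toAdd (φ g), ⟨fun g g' => ?_, ?_⟩, fun i => ?_⟩
  · rw [map_mul]
    rfl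
  · exact hφ.comp _
  · change Multiplicative.toAdd (φ (c i)) = a i
    rw [hi]
    rfl

theorem hit_finite (h : FreeProfN P c) : (homs P 2).Finite := by
  refine Set.Finite.of_finite_image (f := fun (D : P → ZMod 2) (i : Fin n) => D (c i))
    (Set.toFinite _) ?_
  intro D hD D' hD' hDD
  exact hit_ext h hD hD' fun i => congrFun hDD i

variable {F : P ≃ₜ* P}

theorem hit_cusp (S : RealStr c F) {D : P → ZMod 2} (hD : IsHom D) (i : Option (Fin n)) :
    D (F (cusp c i)) = D (cusp c (S.π i)) := by
  rw [S.cusp_F, hD.mul, hD.mul, hit_inv hD, hit_inv hD]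
  have h := hit_two (D (S.f i))
  calc D (S.f i) + D (cusp c (S.π i)) + D (S.f i)
      = D (cusp c (S.π i)) + (D (S.f i) + D (S.f i)) := by ring
    _ = D (cusp c (S.π i)) := by rw [h, add_zero]

/-- the sum over the real cusps -/
theorem hit_real (S : RealStr c F) {D : P → ZMod 2} (hD : IsHom D)
    (hDF : ∀ g, D (F g) = D g) :
    ∑ i : {i : Option (Fin n) // S.π i = i}, D (cusp c i.1) = 0 := by
  have h1 := hit_sum (c := c) hD
  rw [← Finset.sum_filter_add_sum_filter_not Finset.univ (fun i => S.π i = i)] at h1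
  have h2 : ∑ i ∈ Finset.univ.filter (fun i => ¬ S.π i = i), D (cusp c i) = 0 := by
    refine Finset.sum_involution (fun i _ => S.π i) ?_ ?_ ?_ ?_
    · intro i _
      rw [← hit_cusp S hD, hDF, hit_two]
    · intro i hi _
      exact (Finset.mem_filter.1 hi).2
    · intro i hi
      have h3 := (Finset.mem_filter.1 hi).2
      refine Finset.mem_filter.2 ⟨Finset.mem_univ _, fun h4 => h3 ?_⟩
      rw [S.ππ] at h4
      exact h4.symm
    · intro i _
      exact S.ππ i
  rw [h2, add_zero] at h1
  rw [← h1]
  exact (Finset.sum_subtype (Finset.univ.filter fun i => S.π i = i) (by simp)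
    (fun i => D (cusp c i))).symm

/-- a homomorphism vanishing at the real cusps is a norm -/
theorem hit_norm (h : FreeProfN P c) (S : RealStr c F) (i₀ : Option (Fin n))
    (h0 : S.π i₀ = i₀) {D : P → ZMod 2} (hD : IsHom D) (hDF : ∀ g, D (F g) = D g)
    (hr : ∀ i, S.π i = i → D (cusp c i) = 0) :
    ∃ E : P → ZMod 2, IsHom E ∧ ∀ g, D g = E g + E (F g) := by
  let r : Option (Fin n) → ℕ := fun o => o.elim 0 (fun i => i.1 + 1)
  have hrinj : ∀ i j, r i = r j → i = j := by
    intro i j hij
    rcases i with _ | i <;> rcases j with _ | j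
    · rfl
    · simp [r] at hij
    · simp [r] at hij
    · simp only [r, Option.elim, Nat.add_right_cancel_iff] at hij
      rw [Fin.ext hij]
  let e₀ : Option (Fin n) → ZMod 2 := fun i => if r i < r (S.π i) then D (cusp c i) else 0
  let s := ∑ i, e₀ i
  let e : Option (Fin n) → ZMod 2 := fun i => e₀ i + if i = i₀ then s else 0
  have hsum : ∑ i, e i = 0 := by
    simp only [e]
    rw [Finset.sum_add_distrib, Finset.sum_ite_eq' Finset.univ i₀ (fun _ => s)]
    simp only [Finset.mem_univ, if_true]
    exact hit_two s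
  have hpair : ∀ i, e i + e (S.π i) = D (cusp c i) := by
    intro i
    have h1 : D (cusp c (S.π i)) = D (cusp c i) := by rw [← hit_cusp S hD, hDF]
    by_cases hi : S.π i = i
    · rw [hi, hit_two, hr i hi]
    · have hi0 : i ≠ i₀ := by rintro rfl; exact hi h0
      have hi1 : S.π i ≠ i₀ := by
        intro h2
        have h3 := S.ππ i
        rw [h2, h0] at h3
        exact hi0 h3.symm
      simp only [e, e₀, if_neg hi0, if_neg hi1, add_zero, S.ππ, h1]
      have hne : r i ≠ r (S.π i) := fun h2 => hi (hrinj _ _ h2).symm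
      rcases lt_or_gt_of_ne hne with h2 | h2
      · rw [if_pos h2, if_neg (by omega), add_zero]
      · rw [if_neg (by omega), if_pos h2, zero_add]
  obtain ⟨E, hE, hEc⟩ := hit_exists h (fun i => e (some i))
  have hEcusp : ∀ i, E (cusp c i) = e i := by
    intro i
    rcases i with _ | i
    · change E ((List.ofFn c).prod)⁻¹ = e none
      rw [hit_inv hE, hit_prod hE, Finset.sum_congr rfl fun i _ => hEc i]
      rw [Fintype.sum_option] at hsum
      have h2 := hit_two (e none)
      have h3 : e none + ∑ i, e (some i) = e none + e none := by rw [hsum, h2]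
      exact add_left_cancel h3
    · exact hEc i
  refine ⟨E, hE, ?_⟩
  have hN : IsHom (fun g => E g + E (F g)) := by
    refine ⟨fun g g' => ?_, ?_⟩
    · simp only [map_mul, hE.mul]
      ring
    · exact hE.lc.add (hE.lc.comp_continuous F.continuous)
  have h2 := hit_ext h hD hN (fun i => by
    have h3 := hpair (some i)
    change D (c i) = E (c i) + E (F (c i))
    have h4 := hit_cusp S hE (some i)
    change E (F (c i)) = _ at h4
    rw [h4, hEcusp]
    have h5 := hEcusp (some i)
    change E (c i) = _ at h5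
    rw [h5]
    exact h3.symm)
  exact fun g => congrFun h2 g

variable [IsTopologicalGroup P] [CompactSpace P] [T2Space P] [TotallyDisconnectedSpace P]

theorem hit_mem (hF : ∀ g, F^[2] g = g) (w : (tSpace F 2 hF).Z) : w.1 * F w.1 = 1 := by
  have h : nv F 2 w.1 = 1 := w.2
  change w.1 * F (w.1 * F 1) = 1 at h
  rwa [map_one, mul_one] at h

/-- HIT -/
theorem hit (S : RealStr c F) (h : FreeProfN P c) (tr : Tree P 2) (i₀ : Option (Fin n))
    (h0 : S.π i₀ = i₀)
    (v : (tSpace F 2 S.hF).Z) : ∃ s t : {i : Option (Fin n) // S.π i = i} × Bool, s ≠ t ∧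
      (∃ g, (tSpace F 2 S.hF).act g (S.entry s) = v) ∧
      (∃ g, (tSpace F 2 S.hF).act g (S.entry t) = v) := by
  classical
  have hL : DerLift P 2 := derLiftN_self h (by norm_num)
  have hact : ∀ (D : P → ZMod 2), IsHom D → (∀ g, D (F g) = D g) →
      ∀ (g : P) (w : (tSpace F 2 S.hF).Z), D ((tSpace F 2 S.hF).act g w).1 = D w.1 := by
    intro D hD hDF g w
    change D (g * w.1 * (F g)⁻¹) = D w.1
    rw [hD.mul, hD.mul, hit_inv hD, hDF]
    have h2 := hit_two (D g)
    calc D g + D w.1 + D g = D w.1 + (D g + D g) := by ring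
      _ = D w.1 := by rw [h2, add_zero]
  let H : Set (P → ZMod 2) := {D | IsHom D ∧ ∀ g, D (F g) = D g}
  have hH : H.Finite := (hit_finite h).subset fun D hD => hD.1
  let U : Set (tSpace F 2 S.hF).Z := {w | ∀ D ∈ H, D w.1 = D v.1}
  have hU : IsClopen U := by
    have h1 : U = ⋂ D ∈ H, {w : (tSpace F 2 S.hF).Z | D w.1 = D v.1} := by
      ext w
      simp [U]
    rw [h1]
    refine hH.isClopen_biInter fun D hD => ?_
    have h2 : IsLocallyConstant fun w : (tSpace F 2 S.hF).Z => D w.1 :=
      hD.1.lc.comp_continuous continuous_subtype_val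
    exact h2.isClopen_fiber (D v.1)
  have hUv : ∀ w, w ∈ U ↔ ∃ g, (tSpace F 2 S.hF).act g w = v := by
    intro w
    constructor
    · intro hw
      exact conj_of_hom hL tr S.hF w v fun D hD hDF => hw D ⟨hD, hDF⟩
    · rintro ⟨g, rfl⟩ D hD
      exact (hact D hD.1 hD.2 g w).symm
  let a : LocallyConstant (tSpace F 2 S.hF).Z (ZMod 2) := LocallyConstant.charFn (ZMod 2) hU
  have ha1 : ∀ w, a w = if w ∈ U then 1 else 0 := by
    intro w
    change (LocallyConstant.charFn (ZMod 2) hU : _ → ZMod 2) w = _
    rw [LocallyConstant.coe_charFn, Set.indicator_apply]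
    rfl
  have ha : ∀ g w, a ((tSpace F 2 S.hF).act g w) = a w := by
    intro g w
    rw [ha1, ha1]
    have h2 : (tSpace F 2 S.hF).act g w ∈ U ↔ w ∈ U := by
      constructor
      · intro h3 D hD
        rw [← h3 D hD, hact D hD.1 hD.2]
      · intro h3 D hD
        rw [hact D hD.1 hD.2, h3 D hD]
    rw [if_congr h2 rfl rfl]
  obtain ⟨D, c₀, hD, hDF, haD⟩ := inv_affine hL tr S.hF a ha
  have hvU : v ∈ U := fun D _ => rfl
  have hv : a v = 1 := by rw [ha1, if_pos hvU]
  -- the two entries at a real cusp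
  have hreal : ∀ i : {i : Option (Fin n) // S.π i = i},
      a (S.entry (i, true)) + a (S.entry (i, false)) = D (cusp c i.1) := by
    intro i
    rw [haD, haD]
    have h1 : (S.entry (i, true)).1 = cusp c i.1 * S.f i.1 := by
      change (if true then cusp c i.1 else 1) * S.f i.1 = _
      simp
    have h2 : (S.entry (i, false)).1 = S.f i.1 := by
      change (if false then cusp c i.1 else 1) * S.f i.1 = _
      simp
    rw [h1, h2, hD.mul]
    have e1 := hit_two c₀
    have e2 := hit_two (D (S.f i.1))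
    calc c₀ + (D (cusp c i.1) + D (S.f i.1)) + (c₀ + D (S.f i.1))
        = (c₀ + c₀) + (D (S.f i.1) + D (S.f i.1)) + D (cusp c i.1) := by ring
      _ = D (cusp c i.1) := by rw [e1, e2]; ring
  have hex : ∃ s, a (S.entry s) ≠ 0 := by
    by_contra hcon
    push Not at hcon
    obtain ⟨E, hE, hDE⟩ := hit_norm h S i₀ h0 hD hDF (by
      intro i hi
      rw [← hreal ⟨i, hi⟩, hcon, hcon, add_zero])
    have hz : ∀ w : (tSpace F 2 S.hF).Z, D w.1 = 0 := by
      intro w
      rw [hDE, ← hE.mul, hit_mem S.hF w, hit_one hE]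
    have h1 := hcon (⟨i₀, h0⟩, false)
    rw [haD, hz, add_zero] at h1
    rw [haD, hz, add_zero, h1] at hv
    exact absurd hv (by decide)
  obtain ⟨s, hs⟩ := hex
  have hsum : ∑ t, a (S.entry t) = 0 := by
    rw [Fintype.sum_prod_type]
    rw [← hit_real S hD hDF]
    refine Finset.sum_congr rfl fun i _ => ?_
    rw [Fintype.sum_bool]
    exact hreal i
  have hex2 : ∃ t, t ≠ s ∧ a (S.entry t) ≠ 0 := by
    by_contra hcon
    push Not at hcon
    rw [Finset.sum_eq_single s (fun t _ ht => hcon t ht)
      (fun h => absurd (Finset.mem_univ s) h)] at hsum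
    exact hs hsum
  obtain ⟨t, hts, ht⟩ := hex2
  have hfin : ∀ w, a w ≠ 0 → ∃ g, (tSpace F 2 S.hF).act g w = v := by
    intro w hw
    rw [← hUv]
    by_contra hn
    rw [ha1, if_neg hn] at hw
    exact hw rfl
  exact ⟨s, t, hts.symm, hfin _ hs, hfin _ ht⟩

end Cusps

end Pool.Agent.GTT
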