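import Pool.Agent.Lib.MP_2cc432_al.Defs3
import Pool.Agent.Lib.MP_2cc432_al.KI

/-!
# Homomorphisms to `ℤ / 2` which are trivial on involutions and their centralizers are norms
-/

open Filter Topology Finset

namespace Pool.Agent.GTT

section Two

variable {P : Type} [Group P] [TopologicalSpace P] {F : P ≃ₜ* P}

theorem homn_nrm_two {X : Type} [AddCommGroup X] (Φ : AddMonoid.End X) (x : X) :
    nrm 2 Φ x = x + Φ x := by
  unfold nrm
  rw [sum_range_succ, sum_range_one, pow_zero, pow_one]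
  rfl

theorem homn_inv {D : P → ZMod 2} (hD : IsHom D) (g : P) : D g⁻¹ = D g := by
  have h1 : D 1 = 0 := by
    have h := hD.mul 1 1
    rw [mul_one] at h
    simpa using h
  have h2 := hD.mul g g⁻¹
  rw [mul_inv_cancel, h1] at h2
  have h3 : D g + D g = 0 := CharTwo.add_self_eq_zero (D g)
  exact add_left_cancel (h2.symm.trans h3.symm)

variable [IsTopologicalGroup P] [CompactSpace P] [T2Space P] [TotallyDisconnectedSpace P]

/-- `F v = v⁻¹` on the elements of norm one -/
theorem homn_FZ (hF : ∀ g, F^[2] g = g) (v : (tSpace F 2 hF).Z) :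
    (tSpace F 2 hF).FZ.symm v = (tSpace F 2 hF).act (v.1)⁻¹ v := by
  have h0 : v.1 * F (v.1 * F 1) = 1 := v.2
  rw [map_one, mul_one] at h0
  have h1 : F v.1 = (v.1)⁻¹ := eq_inv_of_mul_eq_one_right h0
  rw [Homeomorph.symm_apply_eq]
  apply Subtype.ext
  have key : ∀ u : P, F u = u⁻¹ → F (u⁻¹ * u * (F u⁻¹)⁻¹) = u := by
    intro u hu
    rw [inv_mul_cancel, one_mul]
    simp only [map_inv, inv_inv, hu]
  exact (key v.1 h1).symm

/-- the function with coboundary `D` -/
theorem homn_potential (hF : ∀ g, F^[2] g = g) [Finite (Quotient (tRel hF))]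
    (D : P → ZMod 2) (hD : IsHom D)
    (h2 : ∀ (u : P) (v : (tSpace F 2 hF).Z), (tSpace F 2 hF).act u v = v → D u = 0) :
    ∃ b : LocallyConstant (tSpace F 2 hF).Z (ZMod 2),
      ∀ g w, b ((tSpace F 2 hF).act g w) = D g + b w := by
  have hrep : ∀ w : (tSpace F 2 hF).Z, ∃ g,
      (tSpace F 2 hF).act g (Quotient.mk (tRel hF) w).out = w := fun w =>
    Quotient.exact (Quotient.out_eq (Quotient.mk (tRel hF) w))
  choose γ hγ using hrep
  have hwd : ∀ (g : P) (v : (tSpace F 2 hF).Z) (h : P),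
      (tSpace F 2 hF).act g v = (tSpace F 2 hF).act h v → D g = D h := by
    intro g v h hgh
    have h3 : (tSpace F 2 hF).act (h⁻¹ * g) v = v := by
      rw [FSpace.act_mul, hgh, FSpace.act_inv_act]
    have h4 := h2 _ _ h3
    rw [hD.mul, homn_inv hD] at h4
    have h5 : D h + D h = 0 := CharTwo.add_self_eq_zero (D h)
    exact add_left_cancel (h4.trans h5.symm)
  have hval : ∀ (q : Quotient (tRel hF)) (g : P) (w : (tSpace F 2 hF).Z),
      (tSpace F 2 hF).act g q.out = w → D (γ w) = D g := by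
    intro q g w hw
    have h3 : Quotient.mk (tRel hF) w = q := by
      rw [← Quotient.out_eq q]
      exact (Quotient.sound (s := tRel hF) ⟨g, hw⟩).symm
    have h4 := hγ w
    rw [h3, ← hw] at h4
    rw [← hw]
    exact hwd _ _ _ h4
  have hclosed : ∀ s : ZMod 2, IsClosed {w : (tSpace F 2 hF).Z | D (γ w) = s} := by
    intro s
    have h3 : {w : (tSpace F 2 hF).Z | D (γ w) = s} =
        ⋃ q : Quotient (tRel hF), (fun g => (tSpace F 2 hF).act g q.out) '' {g | D g = s} := by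
      ext w
      simp only [Set.mem_iUnion, Set.mem_image]
      constructor
      · intro h
        exact ⟨_, γ w, h, hγ w⟩
      · rintro ⟨q, g, hg, hw⟩
        exact (hval q g w hw).trans hg
    rw [h3]
    refine isClosed_iUnion_of_finite fun q => ?_
    refine (IsCompact.image ?_ ?_).isClosed
    · exact (hD.lc.isClosed_fiber s).isCompact
    · exact (tSpace F 2 hF).cont.comp (continuous_id.prodMk continuous_const)
  have hlc : IsLocallyConstant (fun w => D (γ w)) := by
    rw [IsLocallyConstant.iff_isOpen_fiber]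
    intro s
    have h3 : (fun w => D (γ w)) ⁻¹' {s} =
        (⋃ t ∈ {t : ZMod 2 | t ≠ s}, {w : (tSpace F 2 hF).Z | D (γ w) = t})ᶜ := by
      ext w
      simp only [Set.mem_preimage, Set.mem_singleton_iff, Set.mem_compl_iff, Set.mem_iUnion,
        exists_prop, not_exists, not_and]
      constructor
      · intro h t ht h'
        exact ht (h'.symm.trans h)
      · intro h
        by_contra hne
        exact h _ hne rfl
    rw [h3, isOpen_compl_iff]
    exact Set.Finite.isClosed_biUnion (Set.toFinite _) fun t _ => hclosed t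
  refine ⟨⟨fun w => D (γ w), hlc⟩, fun g w => ?_⟩
  change D (γ ((tSpace F 2 hF).act g w)) = D g + D (γ w)
  rw [← hD.mul]
  apply hval (Quotient.mk (tRel hF) w)
  rw [FSpace.act_mul, hγ]

/-- HOMN -/
theorem hom_norm (hL : DerLift P 2) (tr : Tree P 2) (hF : ∀ g, F^[2] g = g)
    [Finite (Quotient (tRel hF))]
    (D : P → ZMod 2) (hD : IsHom D) (hDF : ∀ g, D (F g) = D g)
    (h1 : ∀ v : (tSpace F 2 hF).Z, D v.1 = 0)
    (h2 : ∀ (u : P) (v : (tSpace F 2 hF).Z), (tSpace F 2 hF).act u v = v → D u = 0) :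
    ∃ E : P → ZMod 2, IsHom E ∧ ∀ g, D g = E g + E (F g) := by
  have tf : ∀ u : P, u ^ 2 = 1 → u = 1 := fun u hu => torsion_free tr u hu
  have hFsymm : ∀ g, F.symm g = F g := fun g => by
    apply F.injective
    rw [ContinuousMulEquiv.apply_symm_apply]
    exact (hF g).symm
  obtain ⟨b0, hb0⟩ := homn_potential hF D hD h2
  let b : (cMod (F := F) hF).T := b0
  have hb : ∀ z, kiv hF b z = b0 z := fun _ => rfl
  have hbΦ : (cMod hF).Φ b = b := by
    apply kiv_ext
    intro z
    rw [kiv_Φ, homn_FZ hF z, hb, hb, hb0, homn_inv hD, h1, zero_add]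
  -- the invariant element of `J`
  have hct := kiJ_sfree hF tf 1 (nv_one F 2)
  rw [map_one, one_mul] at hct
  have hbbar : (kiJ hF).Φ (kiq hF b) = kiq hF b := by rw [← kiq_Φ, hbΦ]
  obtain ⟨ebar, hebar⟩ := hct _ hbbar
  obtain ⟨e, rfl⟩ := kiq_surj hF ebar
  have he : b - nrm 2 (cMod hF).Φ e ∈ kiA hF := by
    rw [← kiq_eq_zero, map_sub, ki_map_nrm (cMod hF).Φ (kiJ hF).Φ (kiq hF)
      (fun x => kiq_Φ hF x) e, hebar, sub_self]
  obtain ⟨c0, hc0⟩ := he
  -- the coboundary of `e`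
  have hcob : ∀ f : (cMod (F := F) hF).T,
      IsDer (cMod hF).ρ (fun g => (cMod hF).ρ g f - f) := by
    intro f
    refine ⟨fun g h => ?_, ?_⟩
    · have h3 : (cMod hF).ρ (g * h) f = (cMod hF).ρ g ((cMod hF).ρ h f) := by
        rw [map_mul]
        rfl
      rw [h3, map_sub]
      abel
    · rw [IsLocallyConstant.iff_eventually_eq]
      intro g
      have h3 : Tendsto (fun g' : P => g⁻¹ * g') (𝓝 g) (𝓝 1) := by
        have h4 : Tendsto (fun g' : P => g⁻¹ * g') (𝓝 g) (𝓝 (g⁻¹ * g)) :=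
          (continuous_const.mul continuous_id).tendsto g
        rwa [inv_mul_cancel] at h4
      filter_upwards [h3.eventually ((cMod hF).smooth f)] with g' hg'
      have h5 : (cMod hF).ρ g' f = (cMod hF).ρ g ((cMod hF).ρ (g⁻¹ * g') f) := by
        have h6 : (cMod hF).ρ (g * (g⁻¹ * g')) f =
            (cMod hF).ρ g ((cMod hF).ρ (g⁻¹ * g') f) := by
          rw [map_mul]
          rfl
        rw [← h6, mul_inv_cancel_left]
      rw [h5, hg']
  let de : (cMod (F := F) hF).Der := ⟨_, hcob e⟩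
  have hde : ∀ g z, kiv hF (de.1 g) z = kiv hF e ((tSpace F 2 hF).act g⁻¹ z) - kiv hF e z :=
    fun g z => rfl
  -- the norm of `de` is the derivation `D` with constant values
  have hnde : ∀ g z, kiv hF ((nrm 2 (cMod hF).derΦ de).1 g) z = D g := by
    intro g z
    have h3 : kiv hF ((nrm 2 (cMod hF).derΦ de).1 g) z =
        kiv hF (de.1 g) z + kiv hF (((cMod hF).derΦ de).1 g) z := by
      rw [homn_nrm_two]
      rfl
    have h4 : ∀ z, kiv hF e z + kiv hF e ((tSpace F 2 hF).FZ.symm z) = b0 z - c0 := by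
      intro z
      have h5 := hc0 z
      rw [homn_nrm_two, kiv_sub, kiv_add, kiv_Φ, hb] at h5
      rw [← h5]
      abel
    have h5 : (tSpace F 2 hF).act (F.symm g)⁻¹ ((tSpace F 2 hF).FZ.symm z) =
        (tSpace F 2 hF).FZ.symm ((tSpace F 2 hF).act g⁻¹ z) := by
      rw [FSpace.FZ_symm_act, map_inv]
    rw [h3, kiv_derΦ, hde, hde, h5]
    have h6 := h4 ((tSpace F 2 hF).act g⁻¹ z)
    have h7 := h4 z
    have h8 : b0 ((tSpace F 2 hF).act g⁻¹ z) = D g + b0 z := by
      rw [hb0, homn_inv hD]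
    rw [h8] at h6
    have h9 : kiv hF e ((tSpace F 2 hF).act g⁻¹ z) - kiv hF e z +
        (kiv hF e ((tSpace F 2 hF).FZ.symm ((tSpace F 2 hF).act g⁻¹ z)) -
          kiv hF e ((tSpace F 2 hF).FZ.symm z)) =
        (kiv hF e ((tSpace F 2 hF).act g⁻¹ z) +
          kiv hF e ((tSpace F 2 hF).FZ.symm ((tSpace F 2 hF).act g⁻¹ z))) -
        (kiv hF e z + kiv hF e ((tSpace F 2 hF).FZ.symm z)) := by abel
    rw [h9, h6, h7]
    abel
  -- the projection on derivations
  let Q : (cMod (F := F) hF).Der →+ (kiJ (F := F) hF).Der :=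
    { toFun := fun d => ⟨fun g => kiq hF (d.1 g),
        ⟨fun g h => by rw [d.2.mul, map_add, kiq_ρ], d.2.lc.comp (kiq hF)⟩⟩
      map_zero' := rfl
      map_add' := fun _ _ => rfl }
  have hQnrm : ∀ x, Q (nrm 2 (cMod hF).derΦ x) = nrm 2 (kiJ hF).derΦ (Q x) := fun x =>
    ki_map_nrm (cMod hF).derΦ (kiJ hF).derΦ Q (fun x => rfl) x
  have hQde : nrm 2 (kiJ hF).derΦ (Q de) = 0 := by
    rw [← hQnrm]
    apply Subtype.ext
    funext g
    exact (kiq_eq_zero hF _).2 ⟨D g, hnde g⟩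
  have htwo : ∀ x : (kiJ (F := F) hF).Der, x + x = 0 := by
    intro x
    apply Subtype.ext
    funext g
    have h3 := (kiJ hF).tors (x.1 g)
    rw [two_nsmul] at h3
    exact h3
  have hQinv : (kiJ hF).derΦ (Q de) = Q de := by
    rw [homn_nrm_two] at hQde
    exact add_left_cancel (hQde.trans (htwo _).symm)
  obtain ⟨E, hE⟩ := core hL tr hF (kiJ hF) (kiJ_sfree hF tf) (Q de) hQinv
  obtain ⟨E', hE', hqE'⟩ := hL (cMod (F := F) hF).T (kiJ (F := F) hF).T (cMod hF).ρ (kiJ hF).ρ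
    (kiq hF) (cMod hF).tors (cMod hF).smooth (kiJ hF).smooth (kiq_surj hF)
    (fun g t => kiq_ρ hF g t) E.1 E.2
  let E1 : (cMod (F := F) hF).Der := ⟨E', hE'⟩
  have hQE1 : Q E1 = E := Subtype.ext (funext hqE')
  set δ : (cMod (F := F) hF).Der := de - nrm 2 (cMod hF).derΦ E1 with hδdef
  have hδq : ∀ g, kiq hF (δ.1 g) = 0 := by
    intro g
    have h : Q δ = 0 := by
      rw [hδdef, map_sub, hQnrm, hQE1, hE]
      exact sub_self (Q de)
    exact congrFun (congrArg Subtype.val h) g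
  have hδc : ∀ g, ∃ c : ZMod 2, ∀ z, kiv hF (δ.1 g) z = c := fun g =>
    (kiq_eq_zero hF _).1 (hδq g)
  choose d hd using hδc
  have htwo' : ∀ x : (cMod (F := F) hF).Der, x + x = 0 := by
    intro x
    apply Subtype.ext
    funext g
    have h3 := (cMod hF).tors (x.1 g)
    rw [two_nsmul] at h3
    exact h3
  have hnn : nrm 2 (cMod hF).derΦ (nrm 2 (cMod hF).derΦ E1) = 0 := by
    rw [homn_nrm_two (cMod hF).derΦ (nrm 2 (cMod hF).derΦ E1),
      nrm_invariant _ (ki_der_pow hF)]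
    exact htwo' _
  have hnδ : nrm 2 (cMod hF).derΦ δ = nrm 2 (cMod hF).derΦ de := by
    have h3 : nrm 2 (cMod hF).derΦ δ =
        nrm 2 (cMod hF).derΦ de - nrm 2 (cMod hF).derΦ (nrm 2 (cMod hF).derΦ E1) := by
      rw [hδdef, homn_nrm_two, homn_nrm_two (cMod hF).derΦ de,
        homn_nrm_two (cMod hF).derΦ (nrm 2 (cMod hF).derΦ E1), map_sub]
      abel
    rw [h3, hnn, sub_zero]
  refine ⟨d, ⟨?_, ?_⟩, ?_⟩
  · intro g h
    rw [← hd (g * h) (tOne hF), δ.2.mul, kiv_add, kiv_ρ, hd, hd]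
  · have h : d = fun g => kiv hF (δ.1 g) (tOne hF) := by
      funext g
      rw [hd]
    rw [h]
    exact δ.2.lc.comp fun f => kiv hF f (tOne hF)
  · intro g
    have h3 := hnde g (tOne hF)
    rw [← hnδ] at h3
    have h4 : kiv hF ((nrm 2 (cMod hF).derΦ δ).1 g) (tOne hF) =
        kiv hF (δ.1 g) (tOne hF) + kiv hF (((cMod hF).derΦ δ).1 g) (tOne hF) := by
      rw [homn_nrm_two]
      rfl
    rw [h4, kiv_derΦ, hd, hd, hFsymm] at h3
    exact h3.symm

end Two

end Pool.Agent.GTT
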