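import Pool.Agent.Lib.MP_2cc432_al.Defs3
import Pool.Agent.Lib.MP_2cc432_al.KI

/-!
# Invariant functions on the space of involutions
-/

open Filter Topology Finset

set_option linter.unusedSectionVars false

namespace Pool.Agent.GTT

section Two

variable {P : Type} [Group P] [TopologicalSpace P] [IsTopologicalGroup P] [CompactSpace P]
  [T2Space P] [TotallyDisconnectedSpace P] {F : P ≃ₜ* P}

theorem inv_nrm {X : Type} [AddCommGroup X] (Φ : AddMonoid.End X) (x : X) :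
    nrm 2 Φ x = x + Φ x := by
  unfold nrm
  rw [sum_range_succ, sum_range_one, pow_zero, pow_one]
  rfl

section

variable (hF : ∀ g, F^[2] g = g)

include hF in
theorem inv_symm (g : P) : F.symm g = F g := by
  apply F.injective
  rw [ContinuousMulEquiv.apply_symm_apply]
  exact (hF g).symm

theorem inv_F (v : (tSpace F 2 hF).Z) : F v.1 = v.1⁻¹ := by
  have h : v.1 * F (v.1 * F 1) = 1 := v.2
  rw [map_one, mul_one] at h
  exact eq_inv_of_mul_eq_one_right h

theorem inv_FZ_symm (v : (tSpace F 2 hF).Z) :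
    (tSpace F 2 hF).FZ.symm v = (tSpace F 2 hF).act v.1⁻¹ v := by
  apply Subtype.ext
  rw [tSpace_FZ_symm_val, tSpace_act_val, inv_symm hF, inv_F, map_inv, inv_F, inv_inv,
    inv_mul_cancel, one_mul]

/-- `v ∈ 𝒯` is `act v (F v)` -/
theorem inv_act_FZ (v : (tSpace F 2 hF).Z) :
    (tSpace F 2 hF).act v.1 ((tSpace F 2 hF).FZ.symm v) = v := by
  rw [inv_FZ_symm, FSpace.act_act_inv]

end

/-- INV -/
theorem inv_affine (hL : DerLift P 2) (tr : Tree P 2) (hF : ∀ g, F^[2] g = g)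
    (a : LocallyConstant (tSpace F 2 hF).Z (ZMod 2))
    (ha : ∀ g v, a ((tSpace F 2 hF).act g v) = a v) :
    ∃ (D : P → ZMod 2) (c : ZMod 2), IsHom D ∧ (∀ g, D (F g) = D g) ∧ ∀ v, a v = c + D v.1 := by
  have : Fact (Nat.Prime 2) := ⟨Nat.prime_two⟩
  have tf : ∀ u : P, u ^ 2 = 1 → u = 1 := fun u hu => torsion_free tr u hu
  have two : ∀ x : ZMod 2, x + x = 0 := fun x => CharTwo.add_self_eq_zero x
  let a' : (cMod (F := F) hF).T := a
  have ha' : ∀ z, kiv hF a' z = a z := fun z => rfl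
  -- `a` is invariant under `F`
  have haΦ : (cMod hF).Φ a' = a' := by
    apply kiv_ext
    intro z
    rw [kiv_Φ, ha', ha', inv_FZ_symm, ha]
  have haρ : ∀ g, (cMod hF).ρ g a' = a' := by
    intro g
    apply kiv_ext
    intro z
    rw [kiv_ρ, ha', ha', ha]
  -- `a = b + Φ b + c`
  have hbar : (kiJ hF).Φ (kiq hF a') = kiq hF a' := by
    rw [← kiq_Φ, haΦ]
  obtain ⟨bb, hbb⟩ : ∃ y, nrm 2 (kiJ (F := F) hF).Φ y = kiq hF a' := by
    have h1 := kiJ_sfree hF tf 1 (nv_one F 2)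
    rw [map_one, one_mul] at h1
    exact h1 _ hbar
  obtain ⟨b, rfl⟩ := kiq_surj hF bb
  have hb1 : kiq hF (nrm 2 (cMod hF).Φ b - a') = 0 := by
    rw [map_sub, ki_map_nrm (cMod hF).Φ (kiJ hF).Φ (kiq hF) (fun x => kiq_Φ hF x), hbb, sub_self]
  obtain ⟨c, hc⟩ := (kiq_eq_zero hF _).1 hb1
  -- the derivation `∂b`
  have hDer : IsDer (cMod hF).ρ (fun g => (cMod hF).ρ g b - b) := by
    refine ⟨fun g h => ?_, ?_⟩
    · rw [map_mul, AddMonoid.End.coe_mul, Function.comp_apply, map_sub]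
      abel
    · exact (LemG_smooth_lc (cMod hF).smooth b).comp fun t => t - b
  let D₀ : (cMod (F := F) hF).Der := ⟨_, hDer⟩
  have hD₀ : ∀ g z, kiv hF (D₀.1 g) z = kiv hF b ((tSpace F 2 hF).act g⁻¹ z) - kiv hF b z := by
    intro g z
    rfl
  have hD₀inv : (cMod hF).derΦ D₀ = D₀ := by
    apply Subtype.ext
    funext g
    apply kiv_ext
    intro z
    rw [kiv_derΦ, hD₀, hD₀]
    -- the values of `b + Φ b` are invariant
    have h1 : ∀ z, kiv hF b z + kiv hF b ((tSpace F 2 hF).FZ.symm z) = a z + c := by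
      intro z
      have h2 := hc z
      rw [kiv_sub, inv_nrm, kiv_add, kiv_Φ, ha'] at h2
      rw [← h2]
      ring
    have h3 := h1 z
    have h4 := h1 ((tSpace F 2 hF).act g⁻¹ z)
    rw [ha, FSpace.FZ_symm_act, map_inv] at h4
    have h5 := h4.trans h3.symm
    have h6 := two (kiv hF b z)
    have h7 := two (kiv hF b ((tSpace F 2 hF).act g⁻¹ z))
    linear_combination h5 + h6 - h7
  have hbard : IsDer (kiJ hF).ρ (fun g => kiq hF (D₀.1 g)) :=
    ⟨fun g h => by rw [D₀.2.mul, map_add, kiq_ρ], D₀.2.lc.comp (kiq hF)⟩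
  let Dbar : (kiJ (F := F) hF).Der := ⟨fun g => kiq hF (D₀.1 g), hbard⟩
  have hbarinv : (kiJ hF).derΦ Dbar = Dbar := by
    apply Subtype.ext
    funext g
    have h := congrArg (fun d => kiq hF (d.1 g)) hD₀inv
    exact h
  obtain ⟨E, hE⟩ := core hL tr hF (kiJ hF) (kiJ_sfree hF tf) Dbar hbarinv
  obtain ⟨D', hD', hqD'⟩ := hL (cMod (F := F) hF).T (kiJ (F := F) hF).T (cMod hF).ρ (kiJ hF).ρ
    (kiq hF) (cMod hF).tors (cMod hF).smooth (kiJ hF).smooth (kiq_surj hF)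
    (fun g t => kiq_ρ hF g t) E.1 E.2
  let D1 : (cMod (F := F) hF).Der := ⟨D', hD'⟩
  let Q : (cMod (F := F) hF).Der →+ (kiJ (F := F) hF).Der :=
    { toFun := fun d => ⟨fun g => kiq hF (d.1 g),
        ⟨fun g h => by rw [d.2.mul, map_add, kiq_ρ], d.2.lc.comp (kiq hF)⟩⟩
      map_zero' := rfl
      map_add' := fun _ _ => rfl }
  have hQD1 : Q D1 = E := Subtype.ext (funext hqD')
  have hQN : Q (nrm 2 (cMod hF).derΦ D1) = Dbar := by
    rw [ki_map_nrm (cMod hF).derΦ (kiJ hF).derΦ Q (fun x => rfl), hQD1, hE]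
  set E1 : (cMod (F := F) hF).Der := D₀ - nrm 2 (cMod hF).derΦ D1 with hE1
  have hE1q : ∀ g, kiq hF (E1.1 g) = 0 := by
    intro g
    have h : Q E1 = 0 := by
      rw [hE1, map_sub, hQN]
      exact sub_self Dbar
    exact congrFun (congrArg Subtype.val h) g
  have hE1c : ∀ g, ∃ c : ZMod 2, ∀ z, kiv hF (E1.1 g) z = c := fun g =>
    (kiq_eq_zero hF _).1 (hE1q g)
  choose δ hδ using hE1c
  have hE1inv : (cMod hF).derΦ E1 = E1 := by
    rw [hE1, map_sub, hD₀inv, nrm_invariant _ (ki_der_pow hF)]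
  refine ⟨δ, -c, ⟨?_, ?_⟩, ?_, ?_⟩
  · intro g h
    rw [← hδ (g * h) (tOne hF), E1.2.mul, kiv_add, kiv_ρ, hδ, hδ]
  · have h : δ = fun g => kiv hF (E1.1 g) (tOne hF) := by
      funext g
      rw [hδ]
    rw [h]
    exact E1.2.lc.comp fun f => kiv hF f (tOne hF)
  · intro g
    have h : kiv hF (((cMod hF).derΦ E1).1 (F g)) (tOne hF) = kiv hF (E1.1 (F g)) (tOne hF) := by
      rw [hE1inv]
    rw [kiv_derΦ, hδ, hδ, ContinuousMulEquiv.symm_apply_apply] at h
    exact h.symm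
  · intro v
    have h : kiv hF (E1.1 v.1) v = kiv hF (D₀.1 v.1) v -
        kiv hF ((nrm 2 (cMod hF).derΦ D1).1 v.1) v := rfl
    have h1 : kiv hF ((nrm 2 (cMod hF).derΦ D1).1 v.1) v = 0 := by
      rw [inv_nrm]
      have h2 : kiv hF ((D1 + (cMod hF).derΦ D1).1 v.1) v =
        kiv hF (D1.1 v.1) v + kiv hF (D1.1 (F.symm v.1)) ((tSpace F 2 hF).FZ.symm v) := rfl
      have h3 : kiv hF (D1.1 (v.1 * v.1⁻¹)) v = kiv hF (D1.1 v.1) v +
          kiv hF (D1.1 v.1⁻¹) ((tSpace F 2 hF).act v.1⁻¹ v) := by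
        rw [D1.2.mul, kiv_add, kiv_ρ]
      have h4 : D1.1 (1 : P) = 0 := by
        have h5 := D1.2.mul 1 1
        rw [mul_one, map_one] at h5
        exact (left_eq_add.1 h5)
      rw [h2, inv_symm hF, inv_F, inv_FZ_symm, ← h3, mul_inv_cancel, h4]
      rfl
    rw [hδ, h1, sub_zero, hD₀] at h
    have h2 := hc v
    rw [kiv_sub, inv_nrm, kiv_add, kiv_Φ, ha', inv_FZ_symm] at h2
    rw [h, ← h2]
    have h3 := two (kiv hF b v)
    linear_combination h3

/-- INV -/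
theorem conj_of_hom (hL : DerLift P 2) (tr : Tree P 2) (hF : ∀ g, F^[2] g = g)
    (v w : (tSpace F 2 hF).Z)
    (h : ∀ D : P → ZMod 2, IsHom D → (∀ g, D (F g) = D g) → D v.1 = D w.1) :
    ∃ g, (tSpace F 2 hF).act g v = w := by
  by_contra hno
  have hO : IsClosed (Set.range fun g => (tSpace F 2 hF).act g v) := by
    have hc : Continuous fun g => (tSpace F 2 hF).act g v :=
      (tSpace F 2 hF).cont.comp (continuous_id.prodMk continuous_const)
    exact (isCompact_range hc).isClosed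
  have hw : w ∈ (Set.range fun g => (tSpace F 2 hF).act g v)ᶜ := by
    rintro ⟨g, hg⟩
    exact hno ⟨g, hg⟩
  obtain ⟨B, hB, hwB, hBO⟩ := compact_exists_isClopen_in_isOpen hO.isOpen_compl hw
  -- the saturation of `B`
  set A : Set (tSpace F 2 hF).Z := {z | ∃ g, (tSpace F 2 hF).act g z ∈ B} with hA
  have hAopen : IsOpen A := by
    have : A = ⋃ g, ((tSpace F 2 hF).act g) ⁻¹' B := by
      ext z
      simp [hA]
    rw [this]
    exact isOpen_iUnion fun g => hB.isOpen.preimage ((tSpace F 2 hF).cont_right g)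
  have hAclosed : IsClosed A := by
    have : A = (fun q : P × (tSpace F 2 hF).Z => (tSpace F 2 hF).act q.1 q.2) '' (Set.univ ×ˢ B) := by
      ext z
      constructor
      · rintro ⟨g, hg⟩
        exact ⟨(g⁻¹, (tSpace F 2 hF).act g z), ⟨Set.mem_univ _, hg⟩, (tSpace F 2 hF).act_inv_act g z⟩
      · rintro ⟨⟨g, b⟩, ⟨-, hb⟩, rfl⟩
        refine ⟨g⁻¹, ?_⟩
        change (tSpace F 2 hF).act g⁻¹ ((tSpace F 2 hF).act g b) ∈ B
        rw [(tSpace F 2 hF).act_inv_act]
        exact hb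
    rw [this]
    exact ((isCompact_univ.prod hB.isClosed.isCompact).image (tSpace F 2 hF).cont).isClosed
  have hAclopen : IsClopen A := ⟨hAclosed, hAopen⟩
  have hAinv : ∀ g z, (tSpace F 2 hF).act g z ∈ A ↔ z ∈ A := by
    intro g z
    constructor
    · rintro ⟨k, hk⟩
      exact ⟨k * g, by rw [(tSpace F 2 hF).act_mul]; exact hk⟩
    · rintro ⟨k, hk⟩
      exact ⟨k * g⁻¹, by rw [(tSpace F 2 hF).act_mul, (tSpace F 2 hF).act_inv_act]; exact hk⟩
  have hwA : w ∈ A := ⟨1, by rw [(tSpace F 2 hF).act_one]; exact hwB⟩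
  have hvA : v ∉ A := by
    rintro ⟨g, hg⟩
    exact hBO hg ⟨g, rfl⟩
  classical
  let a : LocallyConstant (tSpace F 2 hF).Z (ZMod 2) := LocallyConstant.charFn (ZMod 2) hAclopen
  have ha1 : ∀ z, z ∈ A → a z = 1 := fun z hz =>
    (LocallyConstant.charFn_eq_one (ZMod 2) z hAclopen).2 hz
  have ha0 : ∀ z, z ∉ A → a z = 0 := fun z hz =>
    (LocallyConstant.charFn_eq_zero (ZMod 2) z hAclopen).2 hz
  have hainv : ∀ g z, a ((tSpace F 2 hF).act g z) = a z := by
    intro g z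
    by_cases hz : z ∈ A
    · rw [ha1 z hz, ha1 _ ((hAinv g z).2 hz)]
    · rw [ha0 z hz, ha0 _ fun h => hz ((hAinv g z).1 h)]
  obtain ⟨D, c, hD, hDF, hDa⟩ := inv_affine hL tr hF a hainv
  have h1 := hDa v
  have h2 := hDa w
  rw [ha0 v hvA] at h1
  rw [ha1 w hwA, ← h D hD hDF, ← h1] at h2
  exact one_ne_zero h2

end Two

end Pool.Agent.GTT
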