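import Pool.Agent.Lib.MP_2cc432_al.GTDefs

/-!
# The profinite completion of `K(0, 5)`
-/

open CategoryTheory

namespace Pool.Agent.GTT

/-- The relations of Ihara's presentation of the pure mapping class group `K(0, 5)` of the sphere
with 5 marked points, for `b 0, b 1, b 2, b 3, b 4 = x₁₂, x₂₃, x₃₄, x₄₅, x₅₁` -/
structure IsK5 {G : Type} [Group G] (b : Fin 5 → G) : Prop where
  comm : ∀ i, b i * b (i + 2) = b (i + 2) * b i
  long : b 4 * (b 1)⁻¹ * b 0 * (b 2)⁻¹ * b 1 * (b 3)⁻¹ * b 2 * (b 4)⁻¹ * b 3 * (b 0)⁻¹ = 1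

/-- the relators of `K(0, 5)` -/
def K5rels : Set (FreeGroup (Fin 5)) :=
  {r | (∃ i : Fin 5, r = FreeGroup.of i * FreeGroup.of (i + 2) *
      (FreeGroup.of (i + 2) * FreeGroup.of i)⁻¹) ∨
    r = FreeGroup.of 4 * (FreeGroup.of 1)⁻¹ * FreeGroup.of 0 * (FreeGroup.of 2)⁻¹ *
      FreeGroup.of 1 * (FreeGroup.of 3)⁻¹ * FreeGroup.of 2 * (FreeGroup.of 4)⁻¹ *
      FreeGroup.of 3 * (FreeGroup.of 0)⁻¹}

/-- `K(0, 5)` -/
abbrev K5 : Type := PresentedGroup K5rels

theorem K5_isK5 : IsK5 (fun i : Fin 5 => (PresentedGroup.of i : K5)) where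
  comm := by
    intro i
    have h : PresentedGroup.mk K5rels (FreeGroup.of i * FreeGroup.of (i + 2) *
      (FreeGroup.of (i + 2) * FreeGroup.of i)⁻¹) = 1 :=
      (QuotientGroup.eq_one_iff _).2 (Subgroup.subset_normalClosure (Or.inl ⟨i, rfl⟩))
    rw [map_mul, map_inv, mul_inv_eq_one, map_mul, map_mul] at h
    exact h
  long := by
    have h : PresentedGroup.mk K5rels (FreeGroup.of 4 * (FreeGroup.of 1)⁻¹ * FreeGroup.of 0 *
      (FreeGroup.of 2)⁻¹ * FreeGroup.of 1 * (FreeGroup.of 3)⁻¹ * FreeGroup.of 2 *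
      (FreeGroup.of 4)⁻¹ * FreeGroup.of 3 * (FreeGroup.of 0)⁻¹) = 1 :=
      (QuotientGroup.eq_one_iff _).2 (Subgroup.subset_normalClosure (Or.inr rfl))
    simp only [map_mul, map_inv] at h
    exact h

/-- the homomorphism from `K(0, 5)` given by five elements with the relations -/
def K5lift {G : Type} [Group G] (b : Fin 5 → G) (hb : IsK5 b) : K5 →* G :=
  PresentedGroup.toGroup (f := b) (by
    rintro r (⟨i, rfl⟩ | rfl)
    · rw [map_mul, map_inv, mul_inv_eq_one, map_mul, map_mul, FreeGroup.lift_apply_of,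
        FreeGroup.lift_apply_of]
      exact hb.comm i
    · simp only [map_mul, map_inv, FreeGroup.lift_apply_of]
      exact hb.long)

/-- the profinite completion of `K(0, 5)` -/
noncomputable abbrev K5hat : ProfiniteGrp.{0} :=
  ProfiniteGrp.ProfiniteCompletion.completion (GrpCat.of K5)

/-- the generators `ka 0, …, ka 4 = x₁₂, x₂₃, x₃₄, x₄₅, x₅₁` -/
noncomputable def ka (i : Fin 5) : K5hat :=
  ProfiniteGrp.ProfiniteCompletion.etaFn (GrpCat.of K5) (PresentedGroup.of i)

theorem IsK5.map {G H : Type} [Group G] [Group H] (φ : G →* H) {b : Fin 5 → G} (hb : IsK5 b) :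
    IsK5 fun i => φ (b i) where
  comm := fun i => by
    have h := congrArg φ (hb.comm i)
    rwa [map_mul, map_mul] at h
  long := by
    have h := congrArg φ hb.long
    simpa only [map_mul, map_inv, map_one] using h

theorem ka_isK5 : IsK5 ka :=
  K5_isK5.map (ProfiniteGrp.ProfiniteCompletion.eta (GrpCat.of K5)).hom

/-- the continuous homomorphism given by five elements with the relations -/
noncomputable def evK {G : ProfiniteGrp.{0}} (b : Fin 5 → G) (hb : IsK5 b) : K5hat →ₜ* G :=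
  (ProfiniteGrp.ProfiniteCompletion.lift
    (GrpCat.ofHom (K5lift b hb) : GrpCat.of K5 ⟶ GrpCat.of G)).hom

theorem evK_ka {G : ProfiniteGrp.{0}} (b : Fin 5 → G) (hb : IsK5 b) (i : Fin 5) :
    evK b hb (ka i) = b i := by
  have h := ProfiniteGrp.ProfiniteCompletion.lift_eta
    (GrpCat.ofHom (K5lift b hb) : GrpCat.of K5 ⟶ GrpCat.of G)
  have h2 : evK b hb (ka i) = K5lift b hb (PresentedGroup.of i) :=
    ConcreteCategory.congr_hom h (PresentedGroup.of i : K5)
  rw [h2, K5lift, PresentedGroup.toGroup.of]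

/-- a closed subgroup containing the generators is everything -/
theorem dense_K5hat (S : Subgroup K5hat) (hS : IsClosed (S : Set K5hat)) (h : ∀ i, ka i ∈ S) :
    S = ⊤ := by
  have h1 : ∀ w : K5, ProfiniteGrp.ProfiniteCompletion.etaFn (GrpCat.of K5) w ∈ S := by
    intro w
    have h2 : w ∈ S.comap (ProfiniteGrp.ProfiniteCompletion.eta (GrpCat.of K5)).hom := by
      have h3 : (⊤ : Subgroup K5) ≤
          S.comap (ProfiniteGrp.ProfiniteCompletion.eta (GrpCat.of K5)).hom := by
        rw [← PresentedGroup.closure_range_of, Subgroup.closure_le]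
        rintro _ ⟨i, rfl⟩
        exact h i
      exact h3 (Subgroup.mem_top w)
    exact h2
  have h2 : (S : Set K5hat) = Set.univ := by
    rw [← hS.closure_eq]
    apply ((ProfiniteGrp.ProfiniteCompletion.denseRange (GrpCat.of K5)).mono ?_).closure_eq
    rintro _ ⟨w, rfl⟩
    exact h1 w
  exact (Subgroup.coe_eq_univ).1 h2

/-- two continuous homomorphisms which agree on the generators are equal -/
theorem evK_ext {G : Type} [Group G] [TopologicalSpace G] [T2Space G] (f g : K5hat →ₜ* G)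
    (h : ∀ i, f (ka i) = g (ka i)) : f = g := by
  have h1 : (MonoidHom.eqLocus (f : K5hat →* G) (g : K5hat →* G)) = ⊤ :=
    dense_K5hat _ (isClosed_eq f.continuous g.continuous) h
  ext w
  have hw : w ∈ (MonoidHom.eqLocus (f : K5hat →* G) (g : K5hat →* G)) := h1 ▸ Subgroup.mem_top w
  exact hw

/-- substitutions commute with continuous homomorphisms -/
theorem map_ev {G H : ProfiniteGrp.{0}} (φ : G →ₜ* H) (a b : G) (w : F2hat) :
    φ (ev a b w) = ev (φ a) (φ b) w := by
  have h : φ.comp (ev a b) = ev (φ a) (φ b) := by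
    apply ev_ext
    · change φ (ev a b gx) = _
      rw [ev_gx, ev_gx]
    · change φ (ev a b gy) = _
      rw [ev_gy, ev_gy]
  exact congrArg (fun k : F2hat →ₜ* H => k w) h

end Pool.Agent.GTT
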