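import Pool.Agent.Lib.MP_2cc432_al.K5Defs

/-!
# Group theory of the relations of `K(0, 5)`
-/

set_option linter.unusedSimpArgs false

namespace Pool.Agent.GTT

section K5AUT

variable {G : Type} [Group G] {b : Fin 5 → G}

/-- the relations in normal form: `x, y, z` generate a normal subgroup, `p, q` act on it -/
structure K5autN (p q x y z : G) : Prop where
  py : p * y = y * p
  pz : p * z = z * p
  px : p * x = y * (z * (x * (z⁻¹ * (y⁻¹ * p))))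
  qx : q * x = x * q
  qy : q * y = y * q
  qz : q * z = x * (y * (z * (y⁻¹ * (x⁻¹ * q))))

/-- the generators in terms of `p, q, x, y, z` -/
def k5autS (p q x y z : G) : Fin 5 → G := ![p, q, p * (z⁻¹ * y⁻¹), y, x]

theorem k5aut_comm8 {c d : G} (h : c * d = d * c) :
    c * d = d * c ∧ (∀ t, c * (d * t) = d * (c * t)) ∧
    c * d⁻¹ = d⁻¹ * c ∧ (∀ t, c * (d⁻¹ * t) = d⁻¹ * (c * t)) ∧
    c⁻¹ * d = d * c⁻¹ ∧ (∀ t, c⁻¹ * (d * t) = d * (c⁻¹ * t)) ∧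
    c⁻¹ * d⁻¹ = d⁻¹ * c⁻¹ ∧ (∀ t, c⁻¹ * (d⁻¹ * t) = d⁻¹ * (c⁻¹ * t)) := by
  have h0 : Commute c d := h
  have h1 : Commute c d⁻¹ := h0.inv_right
  have h2 : Commute c⁻¹ d := h0.inv_left
  have h3 : Commute c⁻¹ d⁻¹ := h0.inv_inv
  exact ⟨h0.eq, fun t => h0.left_comm t, h1.eq, fun t => h1.left_comm t, h2.eq,
    fun t => h2.left_comm t, h3.eq, fun t => h3.left_comm t⟩

theorem k5aut_conj8 {c d u v : G} (h : c * d = u * (v * (d * (v⁻¹ * (u⁻¹ * c)))))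
    (hu : c * u = u * c) (hv : c * v = v * c) :
    c * d = u * (v * (d * (v⁻¹ * (u⁻¹ * c)))) ∧
    (∀ t, c * (d * t) = u * (v * (d * (v⁻¹ * (u⁻¹ * (c * t)))))) ∧
    c * d⁻¹ = u * (v * (d⁻¹ * (v⁻¹ * (u⁻¹ * c)))) ∧
    (∀ t, c * (d⁻¹ * t) = u * (v * (d⁻¹ * (v⁻¹ * (u⁻¹ * (c * t)))))) ∧
    c⁻¹ * d = v⁻¹ * (u⁻¹ * (d * (u * (v * c⁻¹)))) ∧
    (∀ t, c⁻¹ * (d * t) = v⁻¹ * (u⁻¹ * (d * (u * (v * (c⁻¹ * t)))))) ∧
    c⁻¹ * d⁻¹ = v⁻¹ * (u⁻¹ * (d⁻¹ * (u * (v * c⁻¹)))) ∧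
    (∀ t, c⁻¹ * (d⁻¹ * t) = v⁻¹ * (u⁻¹ * (d⁻¹ * (u * (v * (c⁻¹ * t)))))) := by
  have e1 : c * d * c⁻¹ = (u * v) * d * (u * v)⁻¹ := by
    rw [h]; group
  have hc : Commute c (u * v) := Commute.mul_right hu hv
  have e2 : c⁻¹ * d * c = (u * v)⁻¹ * d * (u * v) := by
    have h3 : d * c = c * ((u * v)⁻¹ * d * (u * v)) := by
      have h4 : c * (u * v)⁻¹ = (u * v)⁻¹ * c := hc.inv_right.eq
      calc d * c = (u * v)⁻¹ * ((u * v) * d * (u * v)⁻¹) * ((u * v) * c) := by group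
        _ = (u * v)⁻¹ * (c * d * c⁻¹) * (c * (u * v)) := by rw [e1, hc.eq]
        _ = ((u * v)⁻¹ * c) * d * (u * v) := by group
        _ = (c * (u * v)⁻¹) * d * (u * v) := by rw [h4]
        _ = _ := by group
    calc c⁻¹ * d * c = c⁻¹ * (d * c) := by group
      _ = c⁻¹ * (c * ((u * v)⁻¹ * d * (u * v))) := by rw [h3]
      _ = _ := by group
  have e3 : c * d⁻¹ * c⁻¹ = (u * v) * d⁻¹ * (u * v)⁻¹ := by
    have := congrArg (·⁻¹) e1
    simpa [mul_assoc] using this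
  have e4 : c⁻¹ * d⁻¹ * c = (u * v)⁻¹ * d⁻¹ * (u * v) := by
    have := congrArg (·⁻¹) e2
    simpa [mul_assoc] using this
  have f1 : ∀ t, c * (d * t) = u * (v * (d * (v⁻¹ * (u⁻¹ * (c * t))))) := fun t => by
    calc c * (d * t) = (c * d * c⁻¹) * (c * t) := by group
      _ = _ := by rw [e1]; group
  have f2 : ∀ t, c * (d⁻¹ * t) = u * (v * (d⁻¹ * (v⁻¹ * (u⁻¹ * (c * t))))) := fun t => by
    calc c * (d⁻¹ * t) = (c * d⁻¹ * c⁻¹) * (c * t) := by group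
      _ = _ := by rw [e3]; group
  have f3 : ∀ t, c⁻¹ * (d * t) = v⁻¹ * (u⁻¹ * (d * (u * (v * (c⁻¹ * t))))) := fun t => by
    calc c⁻¹ * (d * t) = (c⁻¹ * d * c) * (c⁻¹ * t) := by group
      _ = _ := by rw [e2]; group
  have f4 : ∀ t, c⁻¹ * (d⁻¹ * t) = v⁻¹ * (u⁻¹ * (d⁻¹ * (u * (v * (c⁻¹ * t))))) := fun t => by
    calc c⁻¹ * (d⁻¹ * t) = (c⁻¹ * d⁻¹ * c) * (c⁻¹ * t) := by group
      _ = _ := by rw [e4]; group
  refine ⟨h, f1, ?_, f2, ?_, f3, ?_, f4⟩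
  · simpa using f2 1
  · simpa using f3 1
  · simpa using f4 1

theorem k5aut_std (hc : ∀ i, b i * b (i + 2) = b (i + 2) * b i) :
    ∃ p q x y z : G, b = k5autS p q x y z ∧ p * y = y * p ∧ p * z = z * p ∧
      p * x = y * (z * (x * (z⁻¹ * (y⁻¹ * p)))) ∧ q * x = x * q ∧ q * y = y * q := by
  have h03 : b 0 * b 3 = b 3 * b 0 := (hc 3).symm
  have h02 : b 0 * b 2 = b 2 * b 0 := hc 0
  have h24 : b 2 * b 4 = b 4 * b 2 := hc 2
  have h13 : b 1 * b 3 = b 3 * b 1 := hc 1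
  have h14 : b 1 * b 4 = b 4 * b 1 := (hc 4).symm
  refine ⟨b 0, b 1, b 4, b 3, (b 2 * b 3)⁻¹ * b 0, ?_, h03, ?_, ?_, h14, h13⟩
  · funext i
    fin_cases i
    · rfl
    · rfl
    · show b 2 = b 0 * (((b 2 * b 3)⁻¹ * b 0)⁻¹ * (b 3)⁻¹)
      group
    · rfl
    · rfl
  · have h1 : Commute (b 0) (b 2) := h02
    have h2 : Commute (b 0) (b 3) := h03
    exact ((h1.mul_right h2).inv_right.mul_right (Commute.refl _)).eq
  · have h1 : b 3 * ((b 2 * b 3)⁻¹ * b 0) = (b 2)⁻¹ * b 0 := by group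
    have h2 : ((b 2 * b 3)⁻¹ * b 0)⁻¹ * ((b 3)⁻¹ * b 0) = b 2 := by
      have h3 : ((b 2 * b 3)⁻¹ * b 0)⁻¹ * ((b 3)⁻¹ * b 0) = (b 0)⁻¹ * (b 2 * b 0) := by group
      rw [h3, ← h02]
      group
    have h4 : b 3 * ((b 2 * b 3)⁻¹ * b 0 * (b 4 * (((b 2 * b 3)⁻¹ * b 0)⁻¹ *
        ((b 3)⁻¹ * b 0)))) = (b 3 * ((b 2 * b 3)⁻¹ * b 0)) * (b 4 *
        (((b 2 * b 3)⁻¹ * b 0)⁻¹ * ((b 3)⁻¹ * b 0))) := by group
    rw [h4, h1, h2, ← h24]
    have h5 : (b 2)⁻¹ * b 0 = b 0 * (b 2)⁻¹ := by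
      have h6 : Commute (b 0) (b 2) := h02
      exact h6.inv_right.eq.symm
    rw [h5]
    group

/-- the six relations imply the relations of `K(0, 5)` -/
theorem k5aut_isK5 {p q x y z : G} (h : K5autN p q x y z) : IsK5 (k5autS p q x y z) := by
  have R1 := k5aut_comm8 h.py
  have R2 := k5aut_comm8 h.pz
  have R3 := k5aut_conj8 h.px h.py h.pz
  have R4 := k5aut_comm8 h.qx
  have R5 := k5aut_comm8 h.qy
  have R6 := k5aut_conj8 h.qz h.qx h.qy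
  constructor
  · intro i
    fin_cases i
    · show p * (p * (z⁻¹ * y⁻¹)) = (p * (z⁻¹ * y⁻¹)) * p
      simp only [mul_assoc, mul_inv_rev, inv_inv, mul_inv_cancel_left, inv_mul_cancel_left,
        mul_inv_cancel, inv_mul_cancel, mul_one, one_mul, R1, R2]
    · show q * y = y * q
      exact h.qy
    · show (p * (z⁻¹ * y⁻¹)) * x = x * (p * (z⁻¹ * y⁻¹))
      simp only [mul_assoc, mul_inv_rev, inv_inv, mul_inv_cancel_left, inv_mul_cancel_left,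
        mul_inv_cancel, inv_mul_cancel, mul_one, one_mul, R1, R2, R3]
    · show y * p = p * y
      exact h.py.symm
    · show x * q = q * x
      exact h.qx.symm
  · show x * q⁻¹ * p * (p * (z⁻¹ * y⁻¹))⁻¹ * q * y⁻¹ * (p * (z⁻¹ * y⁻¹)) * x⁻¹ * y * p⁻¹ = 1
    simp only [mul_assoc, mul_inv_rev, inv_inv, mul_inv_cancel_left, inv_mul_cancel_left,
      mul_inv_cancel, inv_mul_cancel, mul_one, one_mul, R1, R2, R3, R4, R5, R6]

/-- the relations of `K(0, 5)` in normal form -/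
theorem k5aut_nf (hb : IsK5 b) :
    ∃ p q x y z : G, b = k5autS p q x y z ∧ K5autN p q x y z := by
  obtain ⟨p, q, x, y, z, hS, py, pz, px, qx, qy⟩ := k5aut_std hb.comm
  refine ⟨p, q, x, y, z, hS, py, pz, px, qx, qy, ?_⟩
  have hl := hb.long
  rw [hS] at hl
  change x * q⁻¹ * p * (p * (z⁻¹ * y⁻¹))⁻¹ * q * y⁻¹ * (p * (z⁻¹ * y⁻¹)) * x⁻¹ * y * p⁻¹ = 1
    at hl
  have R1 := k5aut_comm8 py
  have R2 := k5aut_comm8 pz
  have R3 := k5aut_conj8 px py pz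
  have R4 := k5aut_comm8 qx
  have R5 := k5aut_comm8 qy
  simp only [mul_assoc, mul_inv_rev, inv_inv, mul_inv_cancel_left, inv_mul_cancel_left,
    mul_inv_cancel, inv_mul_cancel, mul_one, one_mul, R1, R2, R3, R4, R5] at hl
  have h1 : z * (y⁻¹ * (x⁻¹ * q)) = q * (y⁻¹ * (x⁻¹ * z)) := by
    calc z * (y⁻¹ * (x⁻¹ * q)) =
        q * (y⁻¹ * (x⁻¹ * ((x * (y * (q⁻¹ * (z * (y⁻¹ * (x⁻¹ * (q * z⁻¹))))))) * z))) := by group
      _ = _ := by rw [hl, one_mul]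
  simp only [R4, R5] at h1
  rw [h1, mul_inv_cancel_left, mul_inv_cancel_left]

theorem k5_of_bc (hc : ∀ i, b i * b (i + 2) = b (i + 2) * b i)
    (h : k5b b * k5c b = k5c b * k5b b) : IsK5 b := by
  obtain ⟨p, q, x, y, z, rfl, py, pz, px, qx, qy⟩ := k5aut_std hc
  refine k5aut_isK5 ⟨py, pz, px, qx, qy, ?_⟩
  change ((p * (z⁻¹ * y⁻¹)) * y)⁻¹ * p * ((x * y)⁻¹ * q) =
    (x * y)⁻¹ * q * (((p * (z⁻¹ * y⁻¹)) * y)⁻¹ * p) at h
  have R1 := k5aut_comm8 py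
  have R2 := k5aut_comm8 pz
  have R3 := k5aut_conj8 px py pz
  have R4 := k5aut_comm8 qx
  have R5 := k5aut_comm8 qy
  simp only [mul_assoc, mul_inv_rev, inv_inv, mul_inv_cancel_left, inv_mul_cancel_left,
    mul_inv_cancel, inv_mul_cancel, mul_one, one_mul, R1, R2, R3, R4, R5] at h
  rw [h, mul_inv_cancel_left, mul_inv_cancel_left]

theorem k5aut_b {p q x y z : G} : k5b (k5autS p q x y z) = ((p * (z⁻¹ * y⁻¹)) * y)⁻¹ * p := rfl

theorem k5aut_c {p q x y z : G} : k5c (k5autS p q x y z) = (x * y)⁻¹ * q := rfl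

theorem k5aut_d {p q x y z : G} : k5d (k5autS p q x y z) = (x * p)⁻¹ * (p * (z⁻¹ * y⁻¹)) := rfl

theorem k5_bc (hb : IsK5 b) : k5b b * k5c b = k5c b * k5b b := by
  obtain ⟨p, q, x, y, z, rfl, h⟩ := k5aut_nf hb
  have R1 := k5aut_comm8 h.py
  have R2 := k5aut_comm8 h.pz
  have R3 := k5aut_conj8 h.px h.py h.pz
  have R4 := k5aut_comm8 h.qx
  have R5 := k5aut_comm8 h.qy
  have R6 := k5aut_conj8 h.qz h.qx h.qy
  rw [k5aut_b, k5aut_c]
  simp only [mul_assoc, mul_inv_rev, inv_inv, mul_inv_cancel_left, inv_mul_cancel_left,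
    mul_inv_cancel, inv_mul_cancel, mul_one, one_mul, R1, R2, R3, R4, R5, R6]

theorem k5d_eq (hb : IsK5 b) : k5d b = (b 4 * b 3 * k5b b)⁻¹ := by
  obtain ⟨p, q, x, y, z, rfl, h⟩ := k5aut_nf hb
  have R1 := k5aut_comm8 h.py
  have R2 := k5aut_comm8 h.pz
  have R3 := k5aut_conj8 h.px h.py h.pz
  have R4 := k5aut_comm8 h.qx
  have R5 := k5aut_comm8 h.qy
  have R6 := k5aut_conj8 h.qz h.qx h.qy
  rw [k5aut_b, k5aut_d]
  change (x * p)⁻¹ * (p * (z⁻¹ * y⁻¹)) = (x * y * (((p * (z⁻¹ * y⁻¹)) * y)⁻¹ * p))⁻¹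
  simp only [mul_assoc, mul_inv_rev, inv_inv, mul_inv_cancel_left, inv_mul_cancel_left,
    mul_inv_cancel, inv_mul_cancel, mul_one, one_mul, R1, R2, R3, R4, R5, R6]

theorem k5_conj04 (hb : IsK5 b) :
    b 0 * b 4 * (b 0)⁻¹ = (b 3 * k5b b) * b 4 * (b 3 * k5b b)⁻¹ := by
  obtain ⟨p, q, x, y, z, rfl, h⟩ := k5aut_nf hb
  have R1 := k5aut_comm8 h.py
  have R2 := k5aut_comm8 h.pz
  have R3 := k5aut_conj8 h.px h.py h.pz
  have R4 := k5aut_comm8 h.qx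
  have R5 := k5aut_comm8 h.qy
  have R6 := k5aut_conj8 h.qz h.qx h.qy
  rw [k5aut_b]
  change p * x * p⁻¹ = (y * (((p * (z⁻¹ * y⁻¹)) * y)⁻¹ * p)) * x *
    (y * (((p * (z⁻¹ * y⁻¹)) * y)⁻¹ * p))⁻¹
  simp only [mul_assoc, mul_inv_rev, inv_inv, mul_inv_cancel_left, inv_mul_cancel_left,
    mul_inv_cancel, inv_mul_cancel, mul_one, one_mul, R1, R2, R3, R4, R5, R6]

theorem k5_conj1b (hb : IsK5 b) :
    b 1 * k5b b * (b 1)⁻¹ = (b 4 * b 3) * k5b b * (b 4 * b 3)⁻¹ := by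
  obtain ⟨p, q, x, y, z, rfl, h⟩ := k5aut_nf hb
  have R1 := k5aut_comm8 h.py
  have R2 := k5aut_comm8 h.pz
  have R3 := k5aut_conj8 h.px h.py h.pz
  have R4 := k5aut_comm8 h.qx
  have R5 := k5aut_comm8 h.qy
  have R6 := k5aut_conj8 h.qz h.qx h.qy
  rw [k5aut_b]
  change q * (((p * (z⁻¹ * y⁻¹)) * y)⁻¹ * p) * q⁻¹ =
    (x * y) * (((p * (z⁻¹ * y⁻¹)) * y)⁻¹ * p) * (x * y)⁻¹
  simp only [mul_assoc, mul_inv_rev, inv_inv, mul_inv_cancel_left, inv_mul_cancel_left,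
    mul_inv_cancel, inv_mul_cancel, mul_one, one_mul, R1, R2, R3, R4, R5, R6]

theorem k5t_isK5 (hb : IsK5 b) : IsK5 (k5t b) := by
  obtain ⟨p, q, x, y, z, rfl, h⟩ := k5aut_nf hb
  have R1 := k5aut_comm8 h.py
  have R2 := k5aut_comm8 h.pz
  have R3 := k5aut_conj8 h.px h.py h.pz
  have R4 := k5aut_comm8 h.qx
  have R5 := k5aut_comm8 h.qy
  have R6 := k5aut_conj8 h.qz h.qx h.qy
  have e : k5t (k5autS p q x y z) = ![p, y * q⁻¹ * p⁻¹, p * (z⁻¹ * y⁻¹), y,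
    (p * (z⁻¹ * y⁻¹)) * x⁻¹ * p⁻¹] := rfl
  rw [e]
  refine k5_of_bc ?_ ?_
  · intro i
    fin_cases i
    · change p * (p * (z⁻¹ * y⁻¹)) = (p * (z⁻¹ * y⁻¹)) * p
      simp only [mul_assoc, mul_inv_rev, inv_inv, mul_inv_cancel_left, inv_mul_cancel_left,
      mul_inv_cancel, inv_mul_cancel, mul_one, one_mul, R1, R2, R3, R4, R5, R6]
    · change (y * q⁻¹ * p⁻¹) * y = y * (y * q⁻¹ * p⁻¹)
      simp only [mul_assoc, mul_inv_rev, inv_inv, mul_inv_cancel_left, inv_mul_cancel_left,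
      mul_inv_cancel, inv_mul_cancel, mul_one, one_mul, R1, R2, R3, R4, R5, R6]
    · change (p * (z⁻¹ * y⁻¹)) * ((p * (z⁻¹ * y⁻¹)) * x⁻¹ * p⁻¹) =
        ((p * (z⁻¹ * y⁻¹)) * x⁻¹ * p⁻¹) * (p * (z⁻¹ * y⁻¹))
      simp only [mul_assoc, mul_inv_rev, inv_inv, mul_inv_cancel_left, inv_mul_cancel_left,
      mul_inv_cancel, inv_mul_cancel, mul_one, one_mul, R1, R2, R3, R4, R5, R6]
    · change y * p = p * y
      simp only [mul_assoc, mul_inv_rev, inv_inv, mul_inv_cancel_left, inv_mul_cancel_left,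
      mul_inv_cancel, inv_mul_cancel, mul_one, one_mul, R1, R2, R3, R4, R5, R6]
    · change ((p * (z⁻¹ * y⁻¹)) * x⁻¹ * p⁻¹) * (y * q⁻¹ * p⁻¹) =
        (y * q⁻¹ * p⁻¹) * ((p * (z⁻¹ * y⁻¹)) * x⁻¹ * p⁻¹)
      simp only [mul_assoc, mul_inv_rev, inv_inv, mul_inv_cancel_left, inv_mul_cancel_left,
      mul_inv_cancel, inv_mul_cancel, mul_one, one_mul, R1, R2, R3, R4, R5, R6]
  · change ((p * (z⁻¹ * y⁻¹)) * y)⁻¹ * p *
      ((((p * (z⁻¹ * y⁻¹)) * x⁻¹ * p⁻¹) * y)⁻¹ * (y * q⁻¹ * p⁻¹)) =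
      ((((p * (z⁻¹ * y⁻¹)) * x⁻¹ * p⁻¹) * y)⁻¹ * (y * q⁻¹ * p⁻¹)) *
      (((p * (z⁻¹ * y⁻¹)) * y)⁻¹ * p)
    simp only [mul_assoc, mul_inv_rev, inv_inv, mul_inv_cancel_left, inv_mul_cancel_left,
      mul_inv_cancel, inv_mul_cancel, mul_one, one_mul, R1, R2, R3, R4, R5, R6]

theorem k5e_isK5 (hb : IsK5 b) : IsK5 (k5e b) := by
  obtain ⟨p, q, x, y, z, rfl, h⟩ := k5aut_nf hb
  have R1 := k5aut_comm8 h.py
  have R2 := k5aut_comm8 h.pz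
  have R3 := k5aut_conj8 h.px h.py h.pz
  have R4 := k5aut_comm8 h.qx
  have R5 := k5aut_comm8 h.qy
  have R6 := k5aut_conj8 h.qz h.qx h.qy
  have e : k5e (k5autS p q x y z) = ![y, p * (z⁻¹ * y⁻¹), q, p, x] := rfl
  rw [e]
  refine k5_of_bc ?_ ?_
  · intro i
    fin_cases i
    · change y * q = q * y
      simp only [mul_assoc, mul_inv_rev, inv_inv, mul_inv_cancel_left, inv_mul_cancel_left,
      mul_inv_cancel, inv_mul_cancel, mul_one, one_mul, R1, R2, R3, R4, R5, R6]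
    · change (p * (z⁻¹ * y⁻¹)) * p = p * (p * (z⁻¹ * y⁻¹))
      simp only [mul_assoc, mul_inv_rev, inv_inv, mul_inv_cancel_left, inv_mul_cancel_left,
      mul_inv_cancel, inv_mul_cancel, mul_one, one_mul, R1, R2, R3, R4, R5, R6]
    · change q * x = x * q
      simp only [mul_assoc, mul_inv_rev, inv_inv, mul_inv_cancel_left, inv_mul_cancel_left,
      mul_inv_cancel, inv_mul_cancel, mul_one, one_mul, R1, R2, R3, R4, R5, R6]
    · change p * y = y * p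
      simp only [mul_assoc, mul_inv_rev, inv_inv, mul_inv_cancel_left, inv_mul_cancel_left,
      mul_inv_cancel, inv_mul_cancel, mul_one, one_mul, R1, R2, R3, R4, R5, R6]
    · change x * (p * (z⁻¹ * y⁻¹)) = (p * (z⁻¹ * y⁻¹)) * x
      simp only [mul_assoc, mul_inv_rev, inv_inv, mul_inv_cancel_left, inv_mul_cancel_left,
      mul_inv_cancel, inv_mul_cancel, mul_one, one_mul, R1, R2, R3, R4, R5, R6]
  · change (q * p)⁻¹ * y * ((x * p)⁻¹ * (p * (z⁻¹ * y⁻¹))) =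
      (x * p)⁻¹ * (p * (z⁻¹ * y⁻¹)) * ((q * p)⁻¹ * y)
    simp only [mul_assoc, mul_inv_rev, inv_inv, mul_inv_cancel_left, inv_mul_cancel_left,
      mul_inv_cancel, inv_mul_cancel, mul_one, one_mul, R1, R2, R3, R4, R5, R6]

theorem k5e1_isK5 (hb : IsK5 b) : IsK5 (k5e1 b) := by
  obtain ⟨p, q, x, y, z, rfl, h⟩ := k5aut_nf hb
  have R1 := k5aut_comm8 h.py
  have R2 := k5aut_comm8 h.pz
  have R3 := k5aut_conj8 h.px h.py h.pz
  have R4 := k5aut_comm8 h.qx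
  have R5 := k5aut_comm8 h.qy
  have R6 := k5aut_conj8 h.qz h.qx h.qy
  have e : k5e1 (k5autS p q x y z) = ![p, x, y, p * (z⁻¹ * y⁻¹), q] := rfl
  rw [e]
  refine k5_of_bc ?_ ?_
  · intro i
    fin_cases i
    · change p * y = y * p
      simp only [mul_assoc, mul_inv_rev, inv_inv, mul_inv_cancel_left, inv_mul_cancel_left,
      mul_inv_cancel, inv_mul_cancel, mul_one, one_mul, R1, R2, R3, R4, R5, R6]
    · change x * (p * (z⁻¹ * y⁻¹)) = (p * (z⁻¹ * y⁻¹)) * x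
      simp only [mul_assoc, mul_inv_rev, inv_inv, mul_inv_cancel_left, inv_mul_cancel_left,
      mul_inv_cancel, inv_mul_cancel, mul_one, one_mul, R1, R2, R3, R4, R5, R6]
    · change y * q = q * y
      simp only [mul_assoc, mul_inv_rev, inv_inv, mul_inv_cancel_left, inv_mul_cancel_left,
      mul_inv_cancel, inv_mul_cancel, mul_one, one_mul, R1, R2, R3, R4, R5, R6]
    · change (p * (z⁻¹ * y⁻¹)) * p = p * (p * (z⁻¹ * y⁻¹))
      simp only [mul_assoc, mul_inv_rev, inv_inv, mul_inv_cancel_left, inv_mul_cancel_left,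
      mul_inv_cancel, inv_mul_cancel, mul_one, one_mul, R1, R2, R3, R4, R5, R6]
    · change q * x = x * q
      simp only [mul_assoc, mul_inv_rev, inv_inv, mul_inv_cancel_left, inv_mul_cancel_left,
      mul_inv_cancel, inv_mul_cancel, mul_one, one_mul, R1, R2, R3, R4, R5, R6]
  · change (y * (p * (z⁻¹ * y⁻¹)))⁻¹ * p * ((q * (p * (z⁻¹ * y⁻¹)))⁻¹ * x) =
      (q * (p * (z⁻¹ * y⁻¹)))⁻¹ * x * ((y * (p * (z⁻¹ * y⁻¹)))⁻¹ * p)
    simp only [mul_assoc, mul_inv_rev, inv_inv, mul_inv_cancel_left, inv_mul_cancel_left,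
      mul_inv_cancel, inv_mul_cancel, mul_one, one_mul, R1, R2, R3, R4, R5, R6]

theorem k5a_isK5 (hb : IsK5 b) : IsK5 (k5a b) := by
  obtain ⟨p, q, x, y, z, rfl, h⟩ := k5aut_nf hb
  have R1 := k5aut_comm8 h.py
  have R2 := k5aut_comm8 h.pz
  have R3 := k5aut_conj8 h.px h.py h.pz
  have R4 := k5aut_comm8 h.qx
  have R5 := k5aut_comm8 h.qy
  have R6 := k5aut_conj8 h.qz h.qx h.qy
  have e : k5a (k5autS p q x y z) = ![(x * y)⁻¹ * q, y, ((p * (z⁻¹ * y⁻¹)) * y)⁻¹ * p, q, p] :=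
    rfl
  have e2 : ((p * (z⁻¹ * y⁻¹)) * y)⁻¹ * p = z := by
    simp only [mul_assoc, mul_inv_rev, inv_inv, mul_inv_cancel_left, inv_mul_cancel_left,
      mul_inv_cancel, inv_mul_cancel, mul_one, one_mul, R1, R2, R3, R4, R5, R6]
  rw [e, e2]
  refine k5_of_bc ?_ ?_
  · intro i
    fin_cases i
    · change ((x * y)⁻¹ * q) * z = z * ((x * y)⁻¹ * q)
      simp only [mul_assoc, mul_inv_rev, inv_inv, mul_inv_cancel_left, inv_mul_cancel_left,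
      mul_inv_cancel, inv_mul_cancel, mul_one, one_mul, R1, R2, R3, R4, R5, R6]
    · change y * q = q * y
      simp only [mul_assoc, mul_inv_rev, inv_inv, mul_inv_cancel_left, inv_mul_cancel_left,
      mul_inv_cancel, inv_mul_cancel, mul_one, one_mul, R1, R2, R3, R4, R5, R6]
    · change z * p = p * z
      simp only [mul_assoc, mul_inv_rev, inv_inv, mul_inv_cancel_left, inv_mul_cancel_left,
      mul_inv_cancel, inv_mul_cancel, mul_one, one_mul, R1, R2, R3, R4, R5, R6]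
    · change q * ((x * y)⁻¹ * q) = ((x * y)⁻¹ * q) * q
      simp only [mul_assoc, mul_inv_rev, inv_inv, mul_inv_cancel_left, inv_mul_cancel_left,
      mul_inv_cancel, inv_mul_cancel, mul_one, one_mul, R1, R2, R3, R4, R5, R6]
    · change p * y = y * p
      simp only [mul_assoc, mul_inv_rev, inv_inv, mul_inv_cancel_left, inv_mul_cancel_left,
      mul_inv_cancel, inv_mul_cancel, mul_one, one_mul, R1, R2, R3, R4, R5, R6]
  · change (z * q)⁻¹ * ((x * y)⁻¹ * q) * ((p * q)⁻¹ * y) =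
      (p * q)⁻¹ * y * ((z * q)⁻¹ * ((x * y)⁻¹ * q))
    simp only [mul_assoc, mul_inv_rev, inv_inv, mul_inv_cancel_left, inv_mul_cancel_left,
      mul_inv_cancel, inv_mul_cancel, mul_one, one_mul, R1, R2, R3, R4, R5, R6]

theorem k5t_t (hb : IsK5 b) (i : Fin 5) : k5t (k5t b) i = b 0 * b i * (b 0)⁻¹ := by
  obtain ⟨p, q, x, y, z, rfl, h⟩ := k5aut_nf hb
  have R1 := k5aut_comm8 h.py
  have R2 := k5aut_comm8 h.pz
  have R3 := k5aut_conj8 h.px h.py h.pz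
  have R4 := k5aut_comm8 h.qx
  have R5 := k5aut_comm8 h.qy
  have R6 := k5aut_conj8 h.qz h.qx h.qy
  fin_cases i
  · change p = p * p * p⁻¹
    simp only [mul_assoc, mul_inv_rev, inv_inv, mul_inv_cancel_left, inv_mul_cancel_left,
      mul_inv_cancel, inv_mul_cancel, mul_one, one_mul, R1, R2, R3, R4, R5, R6]
  · change y * (y * q⁻¹ * p⁻¹)⁻¹ * p⁻¹ = p * q * p⁻¹
    simp only [mul_assoc, mul_inv_rev, inv_inv, mul_inv_cancel_left, inv_mul_cancel_left,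
      mul_inv_cancel, inv_mul_cancel, mul_one, one_mul, R1, R2, R3, R4, R5, R6]
  · change p * (z⁻¹ * y⁻¹) = p * (p * (z⁻¹ * y⁻¹)) * p⁻¹
    simp only [mul_assoc, mul_inv_rev, inv_inv, mul_inv_cancel_left, inv_mul_cancel_left,
      mul_inv_cancel, inv_mul_cancel, mul_one, one_mul, R1, R2, R3, R4, R5, R6]
  · change y = p * y * p⁻¹
    simp only [mul_assoc, mul_inv_rev, inv_inv, mul_inv_cancel_left, inv_mul_cancel_left,
      mul_inv_cancel, inv_mul_cancel, mul_one, one_mul, R1, R2, R3, R4, R5, R6]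
  · change (p * (z⁻¹ * y⁻¹)) * ((p * (z⁻¹ * y⁻¹)) * x⁻¹ * p⁻¹)⁻¹ * p⁻¹ = p * x * p⁻¹
    simp only [mul_assoc, mul_inv_rev, inv_inv, mul_inv_cancel_left, inv_mul_cancel_left,
      mul_inv_cancel, inv_mul_cancel, mul_one, one_mul, R1, R2, R3, R4, R5, R6]

theorem k5t_b (hb : IsK5 b) : k5b (k5t b) = k5b b := rfl

theorem k5t_4 (hb : IsK5 b) : k5t b 4 = b 0 * k5d b * (b 0)⁻¹ := by
  obtain ⟨p, q, x, y, z, rfl, h⟩ := k5aut_nf hb
  have R1 := k5aut_comm8 h.py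
  have R2 := k5aut_comm8 h.pz
  have R3 := k5aut_conj8 h.px h.py h.pz
  have R4 := k5aut_comm8 h.qx
  have R5 := k5aut_comm8 h.qy
  have R6 := k5aut_conj8 h.qz h.qx h.qy
  change (p * (z⁻¹ * y⁻¹)) * x⁻¹ * p⁻¹ = p * ((x * p)⁻¹ * (p * (z⁻¹ * y⁻¹))) * p⁻¹
  simp only [mul_assoc, mul_inv_rev, inv_inv, mul_inv_cancel_left, inv_mul_cancel_left,
    mul_inv_cancel, inv_mul_cancel, mul_one, one_mul, R1, R2, R3, R4, R5, R6]

theorem k5t_d (hb : IsK5 b) : k5d (k5t b) = b 4 := by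
  obtain ⟨p, q, x, y, z, rfl, h⟩ := k5aut_nf hb
  have R1 := k5aut_comm8 h.py
  have R2 := k5aut_comm8 h.pz
  have R3 := k5aut_conj8 h.px h.py h.pz
  have R4 := k5aut_comm8 h.qx
  have R5 := k5aut_comm8 h.qy
  have R6 := k5aut_conj8 h.qz h.qx h.qy
  change (((p * (z⁻¹ * y⁻¹)) * x⁻¹ * p⁻¹) * p)⁻¹ * (p * (z⁻¹ * y⁻¹)) = x
  simp only [mul_assoc, mul_inv_rev, inv_inv, mul_inv_cancel_left, inv_mul_cancel_left,
    mul_inv_cancel, inv_mul_cancel, mul_one, one_mul, R1, R2, R3, R4, R5, R6]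

theorem k5e_e (i : Fin 5) : k5e (k5e b) i = b i := by
  fin_cases i <;> rfl

theorem k5e1_e1 (i : Fin 5) : k5e1 (k5e1 b) i = b i := by
  fin_cases i <;> rfl

theorem k5t_e1 (hb : IsK5 b) (i : Fin 5) : k5t (k5e1 b) i = k5e1 (k5t b) i := by
  obtain ⟨p, q, x, y, z, rfl, h⟩ := k5aut_nf hb
  have R1 := k5aut_comm8 h.py
  have R2 := k5aut_comm8 h.pz
  have R3 := k5aut_conj8 h.px h.py h.pz
  have R4 := k5aut_comm8 h.qx
  have R5 := k5aut_comm8 h.qy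
  have R6 := k5aut_conj8 h.qz h.qx h.qy
  fin_cases i
  · rfl
  · change (p * (z⁻¹ * y⁻¹)) * x⁻¹ * p⁻¹ = (p * (z⁻¹ * y⁻¹)) * x⁻¹ * p⁻¹
    rfl
  · rfl
  · rfl
  · change y * q⁻¹ * p⁻¹ = y * q⁻¹ * p⁻¹
    rfl

/-- the half twists `τ₁₂` and `τ₄₅` commute -/
theorem k5t_e_comm (hb : IsK5 b) (i : Fin 5) :
    k5e (k5t (k5e (k5t b))) i = k5t (k5e (k5t (k5e b))) i := by
  obtain ⟨p, q, x, y, z, rfl, h⟩ := k5aut_nf hb
  have R1 := k5aut_comm8 h.py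
  have R2 := k5aut_comm8 h.pz
  have R3 := k5aut_conj8 h.px h.py h.pz
  have R4 := k5aut_comm8 h.qx
  have R5 := k5aut_comm8 h.qy
  have R6 := k5aut_conj8 h.qz h.qx h.qy
  set a2 : G := p * (z⁻¹ * y⁻¹) with ha2
  have e1 : k5e (k5t (k5autS p q x y z)) = ![y, a2, y * q⁻¹ * p⁻¹, p, a2 * x⁻¹ * p⁻¹] := rfl
  have e2 : k5e (k5autS p q x y z) = ![y, a2, q, p, x] := rfl
  have e3 : k5e (k5t (k5e (k5autS p q x y z))) = ![p, q, p * a2⁻¹ * y⁻¹, y, q * x⁻¹ * y⁻¹] := rfl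
  rw [e1, e3]
  fin_cases i
  · change p = p
    rfl
  · change y * q⁻¹ * p⁻¹ = y * q⁻¹ * p⁻¹
    rfl
  · change p * a2⁻¹ * y⁻¹ = p * a2⁻¹ * y⁻¹
    rfl
  · change y = y
    rfl
  · change (y * q⁻¹ * p⁻¹) * (a2 * x⁻¹ * p⁻¹)⁻¹ * y⁻¹ = (p * a2⁻¹ * y⁻¹) * (q * x⁻¹ * y⁻¹)⁻¹ * p⁻¹
    rw [ha2]
    simp only [mul_assoc, mul_inv_rev, inv_inv, mul_inv_cancel_left, inv_mul_cancel_left,
      mul_inv_cancel, inv_mul_cancel, mul_one, one_mul, R1, R2, R3, R4, R5, R6]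

end K5AUT

end Pool.Agent.GTT
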