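import Pool.Agent.Lib.MP_2cc432_al.GTDefs

/-!
# The ring `Ẑ` and powers `a ^ l`, `l ∈ Ẑ`, in profinite groups
-/

open Filter Topology Finset

namespace Pool.Agent.GTT

/-- compatible families of residues -/
def ZhatSub : Subring (∀ n : ℕ+, ZMod n) where
  carrier := {a | ∀ (m n : ℕ+) (h : (m : ℕ) ∣ n), ZMod.castHom h (ZMod m) (a n) = a m}
  mul_mem' := by
    intro a b ha hb m n h
    rw [Pi.mul_apply, map_mul, ha m n h, hb m n h, Pi.mul_apply]
  one_mem' := by
    intro m n h
    rw [Pi.one_apply, map_one, Pi.one_apply]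
  add_mem' := by
    intro a b ha hb m n h
    rw [Pi.add_apply, map_add, ha m n h, hb m n h, Pi.add_apply]
  zero_mem' := by
    intro m n h
    rw [Pi.zero_apply, map_zero, Pi.zero_apply]
  neg_mem' := by
    intro a ha m n h
    rw [Pi.neg_apply, map_neg, ha m n h, Pi.neg_apply]

/-- the ring `Ẑ` of profinite integers -/
abbrev Zhat : Type := ZhatSub

/-- the projection `Ẑ → ℤ / n` -/
def Zhat.mod (n : ℕ) [NeZero n] : Zhat →+* ZMod n :=
  (Pi.evalRingHom (fun n : ℕ+ => ZMod n) (⟨n, Nat.pos_of_ne_zero (NeZero.ne n)⟩ : ℕ+)).comp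
    ZhatSub.subtype

section

variable {G : Type} [Group G] [TopologicalSpace G]

/-- `b = a ^ l`: modulo each open normal subgroup `U`, `b` is `a ^ k` with `k = l mod n`, for each
`n` with `a ^ n ∈ U` -/
def IsHpow (a : G) (l : Zhat) (b : G) : Prop :=
  ∀ U : Subgroup G, U.Normal → IsOpen (U : Set G) → ∀ n : ℕ+, a ^ (n : ℕ) ∈ U →
    (a ^ (l.1 n).val)⁻¹ * b ∈ U

/-- the power `a ^ l` for `l ∈ Ẑ` (in a profinite group there is exactly one `b` with
`IsHpow a l b`, see `isHpow_hpow` and `hpow_unique`) -/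
noncomputable def hpow (a : G) (l : Zhat) : G := Classical.epsilon (IsHpow a l)

end

end Pool.Agent.GTT
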