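import Pool.Agent.Lib.MP_2cc432_al.K5
import Pool.Agent.Lib.MP_2cc432_al.Zhat

/-!
# Involutions `(-1, f)` acting on `F2hat` and on `K5hat`: definitions
-/

open CategoryTheory

namespace Pool.Agent.GTT

section General

variable {G : Type} [Group G]

/-- a twist `x₃₅` -/
def k5b (b : Fin 5 → G) : G := (b 2 * b 3)⁻¹ * b 0

/-- a twist `x₁₄` -/
def k5c (b : Fin 5 → G) : G := (b 4 * b 3)⁻¹ * b 1

/-- a twist `x₂₅` -/
def k5d (b : Fin 5 → G) : G := (b 4 * b 0)⁻¹ * b 2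

/-- conjugation by the half twist `τ₁₂` -/
def k5t (b : Fin 5 → G) : Fin 5 → G :=
  ![b 0, b 3 * (b 1)⁻¹ * (b 0)⁻¹, b 2, b 3, b 2 * (b 4)⁻¹ * (b 0)⁻¹]

/-- the reflection of the pentagon which exchanges the sides 12 and 45 -/
def k5e (b : Fin 5 → G) : Fin 5 → G := ![b 3, b 2, b 1, b 0, b 4]

/-- the reflection of the pentagon which fixes the side 12 -/
def k5e1 (b : Fin 5 → G) : Fin 5 → G := ![b 0, b 4, b 3, b 2, b 1]

/-- another pentagon -/
def k5a (b : Fin 5 → G) : Fin 5 → G := ![k5c b, b 3, k5b b, b 1, b 0]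

end General

/-- the product of the pentagon relation (III) -/
noncomputable def pent {G : ProfiniteGrp.{0}} (f : F2hat) (b : Fin 5 → G) : G :=
  ev (b 0) (b 1) f * ev (b 2) (b 3) f * ev (b 4) (b 0) f * ev (b 1) (b 2) f * ev (b 3) (b 4) f

/-- the endomorphism of `F2hat` given by `(-1, f)` -/
noncomputable def gtI (f : F2hat) : F2hat →ₜ* F2hat := ev gx⁻¹ (f⁻¹ * gy⁻¹ * f)

/-- `(-1, f)` satisfies (I), (II), (III) and has order 2 -/
structure IsInv (f : F2hat) : Prop where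
  comm : f ∈ (commutator F2hat).topologicalClosure
  I : f * ev gy gx f = 1
  II : ev gz gx f * gz⁻¹ * ev gy gz f * gy⁻¹ * f * gx⁻¹ = 1
  III : pent f ka = 1
  inv : f * gtI f f = 1

/-- conjugation by `τ₁` on `F2hat`: `x ↦ x`, `y ↦ z` -/
noncomputable def gtT : F2hat →ₜ* F2hat := ev gx gz

/-- the involution `τ₁ F` of `F2hat` -/
noncomputable def gtR (f : F2hat) : F2hat →ₜ* F2hat := gtT.comp (gtI f)

/-- the images of the generators under the action of `(-1, f)` on `K5hat` -/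
noncomputable def kFv {G : ProfiniteGrp.{0}} (f : F2hat) (b : Fin 5 → G) : Fin 5 → G :=
  ![(b 0)⁻¹,
    (ev (b 0) (b 1) f)⁻¹ * (b 1)⁻¹ * ev (b 0) (b 1) f,
    ev (b 2) (b 3) f * (b 2)⁻¹ * (ev (b 2) (b 3) f)⁻¹,
    (b 3)⁻¹,
    ev (b 2) (b 3) f * ev (b 4) (b 0) f * (b 4)⁻¹ * (ev (b 2) (b 3) f * ev (b 4) (b 0) f)⁻¹]

theorem kp5_isK5 : IsK5 ![gx, gy, gx, 1, 1] where
  comm := by
    intro i
    fin_cases i <;> simp
  long := by
    simp

theorem kp1_isK5 : IsK5 ![1, gy, gx, gy, 1] where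
  comm := by
    intro i
    fin_cases i <;> simp
  long := by
    simp

/-- forget the point 5 -/
noncomputable def kp5 : K5hat →ₜ* F2hat := evK ![gx, gy, gx, 1, 1] kp5_isK5

/-- forget the point 1 -/
noncomputable def kp1 : K5hat →ₜ* F2hat := evK ![1, gy, gx, gy, 1] kp1_isK5

/-- the kernel of `kp5` -/
noncomputable def kN : Subgroup K5hat := (kp5 : K5hat →* F2hat).ker

theorem mem_kN (w : K5hat) : w ∈ kN ↔ kp5 w = 1 := Iff.rfl

theorem ka4_mem : ka 4 ∈ kN := evK_ka _ _ 4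

theorem ka3_mem : ka 3 ∈ kN := evK_ka _ _ 3

theorem kb_mem : k5b ka ∈ kN := by
  rw [mem_kN, k5b, map_mul, map_inv, map_mul, kp5, evK_ka, evK_ka, evK_ka]
  simp

/-- the three generators `x₁₅, x₄₅, x₃₅` of `kN` -/
noncomputable def knc : Fin 3 → kN := ![⟨ka 4, ka4_mem⟩, ⟨ka 3, ka3_mem⟩, ⟨k5b ka, kb_mem⟩]

/-- an endomorphism of order 2 as an automorphism -/
def mkInv {G : Type} [Group G] [TopologicalSpace G] (k : G →ₜ* G) (h : ∀ w, k (k w) = w) :
    G ≃ₜ* G where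
  toFun := k
  invFun := k
  left_inv := h
  right_inv := h
  map_mul' := map_mul k
  continuous_toFun := k.continuous
  continuous_invFun := k.continuous

theorem mkInv_apply {G : Type} [Group G] [TopologicalSpace G] (k : G →ₜ* G)
    (h : ∀ w, k (k w) = w) (w : G) : mkInv k h w = k w := rfl

end Pool.Agent.GTT
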