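import Pool.Agent.Lib.MP_2cc432_al.GTF
import Pool.Agent.Lib.MP_2cc432_al.GT
import Pool.Agent.Lib.MP_2cc432_al.FI
import Pool.Agent.Lib.MP_2cc432_al.K5Aut

/-!
# TGT2, module K5F1: the action of `(-1, f)` on `K5hat`
-/

open CategoryTheory

namespace Pool.Agent.GTT

section K5F1

variable {f : F2hat}

/-- conjugation in substitutions -/
theorem k5f1_conj {G : ProfiniteGrp.{0}} (g a b : G) (w : F2hat) :
    ev (g * a * g⁻¹) (g * b * g⁻¹) w = g * ev a b w * g⁻¹ := by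
  let c : G →ₜ* G :=
    { toMonoidHom := (MulAut.conj g).toMonoidHom
      continuous_toFun := by
        change Continuous fun w : G => g * w * g⁻¹
        fun_prop }
  exact (map_ev c a b w).symm

/-- (I) in any group -/
theorem k5f1_one {G : ProfiniteGrp.{0}} (h1 : f * ev gy gx f = 1) (a b : G) :
    ev b a f = (ev a b f)⁻¹ := by
  have h := congrArg (ev a b) h1
  rw [map_mul, ev_comp, ev_gx, ev_gy, map_one] at h
  exact eq_inv_of_mul_eq_one_right h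

/-- (II) in any group -/
theorem k5f1_two {G : ProfiniteGrp.{0}}
    (h2 : ev gz gx f * gz⁻¹ * ev gy gz f * gy⁻¹ * f * gx⁻¹ = 1) (a b : G) :
    ev (a * b)⁻¹ a f * (a * b) * ev b (a * b)⁻¹ f * b⁻¹ * ev a b f * a⁻¹ = 1 := by
  have h := congrArg (ev a b) h2
  have hz : ev a b gz = (a * b)⁻¹ := by
    rw [gz, map_inv, map_mul, ev_gx, ev_gy]
  simp only [map_mul, map_inv, ev_comp, ev_gx, ev_gy, map_one, hz, inv_inv] at h
  exact h

/-- (II) for the pairs `(a, b)` and `(b, a)`: `f(a, b) = f(c, b) f(a, c)` for `c = (a b)⁻¹` -/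
theorem k5f1_three {G : ProfiniteGrp.{0}} (hf : IsInv f) (a b : G) :
    ev a b f = ev (a * b)⁻¹ b f * ev a (a * b)⁻¹ f := by
  have h := k5f1_two hf.II b a
  have h3 : ev (b * a)⁻¹ b f = b * ev (a * b)⁻¹ b f * b⁻¹ := by
    rw [← k5f1_conj]
    congr 2
    · group
    · group
  have h4 : ev a (b * a)⁻¹ f = a⁻¹ * ev a (a * b)⁻¹ f * a := by
    have h5 := k5f1_conj a⁻¹ a (a * b)⁻¹ f
    rw [inv_inv] at h5
    rw [← h5]
    congr 2
    · group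
    · group
  rw [h3, h4, k5f1_one hf.I a b] at h
  have h6 : b * (ev (a * b)⁻¹ b f * ev a (a * b)⁻¹ f * (ev a b f)⁻¹) * b⁻¹ = 1 := by
    rw [← h]
    group
  have h7 : ev (a * b)⁻¹ b f * ev a (a * b)⁻¹ f * (ev a b f)⁻¹ = 1 := by
    have h8 := congrArg (fun w => b⁻¹ * w * b) h6
    simpa [mul_assoc] using h8
  exact (mul_inv_eq_one.1 h7).symm

/-- KB -/
theorem kb_lemma {G : ProfiniteGrp.{0}} (hf : IsInv f) (a b t : G) (ha : Commute t a)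
    (hb : Commute t b) :
    (ev a b f * a⁻¹ * (ev a b f)⁻¹ * b⁻¹)⁻¹ * t⁻¹ =
      (b * ev ((a * b)⁻¹ * t) b f) * ((a * b)⁻¹ * t)⁻¹ * (b * ev ((a * b)⁻¹ * t) b f)⁻¹ := by
  have hab : Commute t (a * b)⁻¹ := (ha.mul_right hb).inv_right
  have e1 : ev ((a * b)⁻¹ * t) b f = ev (a * b)⁻¹ b f := by
    have h := ev_mul_central (s := 1) hab hb (Commute.one_left _) (Commute.one_left _)
      (Commute.one_right _) hf.comm
    rwa [mul_one] at h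
  have h2 := k5f1_two hf.II a b
  have h3 := k5f1_three hf a b
  rw [k5f1_one hf.I a (a * b)⁻¹, k5f1_one hf.I (a * b)⁻¹ b] at h2
  rw [e1]
  set u := ev (a * b)⁻¹ b f with hu
  set v := ev a (a * b)⁻¹ f with hv
  have htu : Commute t (b * u) := hb.mul_right (commute_ev hab hb f)
  have e2 : ((a * b)⁻¹ * t)⁻¹ = (a * b) * t⁻¹ := by
    have h := hab.inv_inv.eq
    rw [inv_inv] at h
    rw [mul_inv_rev, inv_inv, h]
  have e3 : (b * u) * ((a * b) * t⁻¹) * (b * u)⁻¹ = (b * u) * (a * b) * (b * u)⁻¹ * t⁻¹ := by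
    have h4 : t⁻¹ * (b * u)⁻¹ = (b * u)⁻¹ * t⁻¹ := htu.inv_inv.eq
    calc (b * u) * ((a * b) * t⁻¹) * (b * u)⁻¹ = (b * u) * (a * b) * (t⁻¹ * (b * u)⁻¹) := by group
      _ = _ := by rw [h4]; group
  rw [e2, e3]
  congr 1
  -- the relation (II) for `(a, b)`
  have h5 : ev a b f * a⁻¹ = b * u * (a * b)⁻¹ * v := by
    have h6 : b * u * (a * b)⁻¹ * v * (v⁻¹ * (a * b) * u⁻¹ * b⁻¹ * ev a b f * a⁻¹) =
      b * u * (a * b)⁻¹ * v := by rw [h2, mul_one]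
    rw [← h6]
    group
  rw [h5]
  have h7 : (ev a b f)⁻¹ = v⁻¹ * u⁻¹ := by rw [h3, mul_inv_rev]
  rw [h7]
  group

theorem pent_of_ka {G : ProfiniteGrp.{0}} (hf : pent f ka = 1) (b : Fin 5 → G) (hb : IsK5 b) :
    pent f b = 1 := by
  have h := congrArg (evK b hb) hf
  rw [map_one] at h
  rw [← h]
  simp only [pent, map_mul, map_ev, evK_ka]

theorem kF_isK5 {G : ProfiniteGrp.{0}} (hf : IsInv f) (b : Fin 5 → G) (hb : IsK5 b) :
    IsK5 (kFv f b) := by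
  -- commutations
  have c02 : Commute (b 0) (b 2) := hb.comm 0
  have c13 : Commute (b 1) (b 3) := hb.comm 1
  have c24 : Commute (b 2) (b 4) := hb.comm 2
  have c30 : Commute (b 3) (b 0) := hb.comm 3
  have c41 : Commute (b 4) (b 1) := hb.comm 4
  set f01 := ev (b 0) (b 1) f with hf01
  set f12 := ev (b 1) (b 2) f with hf12
  set f23 := ev (b 2) (b 3) f with hf23
  set f34 := ev (b 3) (b 4) f with hf34
  set f40 := ev (b 4) (b 0) f with hf40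
  have hp : f01 * f23 * f40 * f12 * f34 = 1 := pent_of_ka hf.III b hb
  have hp2 : f23 * f40 = f01⁻¹ * f34⁻¹ * f12⁻¹ := by
    have h : f01⁻¹ * (f01 * f23 * f40 * f12 * f34) * f34⁻¹ * f12⁻¹ = f01⁻¹ * f34⁻¹ * f12⁻¹ := by
      rw [hp, mul_one]
    rw [← h]
    group
  have c3f : Commute (b 3) f01 := commute_ev c30 c13.symm f
  have c0f : Commute (b 0) f23 := commute_ev c02 c30.symm f
  have c4f : Commute (b 4) f12 := commute_ev c41 c24.symm f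
  -- the values
  have F4 : f23 * f40 * (b 4)⁻¹ * (f23 * f40)⁻¹ = f01⁻¹ * (f34⁻¹ * (b 4)⁻¹ * f34) * f01 := by
    rw [hp2]
    have h : f12⁻¹ * (b 4)⁻¹ = (b 4)⁻¹ * f12⁻¹ := c4f.symm.inv_inv.eq
    calc f01⁻¹ * f34⁻¹ * f12⁻¹ * (b 4)⁻¹ * (f01⁻¹ * f34⁻¹ * f12⁻¹)⁻¹
        = f01⁻¹ * f34⁻¹ * (f12⁻¹ * (b 4)⁻¹) * (f01⁻¹ * f34⁻¹ * f12⁻¹)⁻¹ := by group
      _ = _ := by rw [h]; group
  -- `B F` and `C F`
  have hB := kb_lemma hf (b 2) (b 3) (b 0) c02 c30.symm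
  have hC := kb_lemma hf (b 4) (b 3) (b 1) c41.symm c13
  rw [k5f1_one hf.I (b 3) (b 4)] at hC
  have eB : (b 2 * b 3)⁻¹ * b 0 = k5b b := rfl
  have eC : (b 4 * b 3)⁻¹ * b 1 = k5c b := rfl
  rw [eB] at hB
  rw [eC] at hC
  rw [← hf23] at hB
  rw [← hf34] at hC
  set B := k5b b with hBdef
  set C := k5c b with hCdef
  have cBC : Commute B C := k5_bc hb
  have c0B : Commute (b 0) B := ((c02.mul_right c30.symm).inv_right).mul_right (Commute.refl _)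
  have c1C : Commute (b 1) C := ((c41.symm.mul_right c13).inv_right).mul_right (Commute.refl _)
  have hpa := pent_of_ka hf.III (k5a b) (k5a_isK5 hb)
  have hpa2 : ev C (b 3) f * ev B (b 1) f * ev (b 0) C f * ev (b 3) B f * ev (b 1) (b 0) f = 1 :=
    hpa
  rw [k5f1_one hf.I (b 1) B, k5f1_one hf.I C (b 0), k5f1_one hf.I B (b 3),
    k5f1_one hf.I (b 0) (b 1)] at hpa2
  set p := ev C (b 3) f with hpdef
  set q := ev (b 1) B f with hqdef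
  set r := ev C (b 0) f with hrdef
  set s := ev B (b 3) f with hsdef
  rw [← hf01] at hpa2
  have hpa3 : f01⁻¹ * p = s * r * q := by
    have h : f01⁻¹ * (p * q⁻¹ * r⁻¹ * s⁻¹ * f01⁻¹) * f01 * s * r * q = s * r * q := by
      rw [hpa2]
      group
    rw [← h]
    group
  have cCq : Commute C q := commute_ev c1C.symm cBC.symm f
  have hC2 : f01⁻¹ * ((f34⁻¹ * (b 4)⁻¹ * (f34⁻¹)⁻¹ * (b 3)⁻¹)⁻¹ * (b 1)⁻¹) * f01 =
      (b 3 * s) * (r * C⁻¹ * r⁻¹) * (b 3 * s)⁻¹ := by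
    rw [hC]
    have h3 : f01⁻¹ * b 3 = b 3 * f01⁻¹ := c3f.symm.inv_left.eq
    have h4 : q * C⁻¹ = C⁻¹ * q := cCq.symm.inv_right.eq
    calc f01⁻¹ * (b 3 * p * C⁻¹ * (b 3 * p)⁻¹) * f01
        = (f01⁻¹ * b 3) * p * C⁻¹ * ((f01⁻¹ * b 3) * p)⁻¹ := by group
      _ = b 3 * (f01⁻¹ * p) * C⁻¹ * (b 3 * (f01⁻¹ * p))⁻¹ := by
        rw [h3]
        group
      _ = b 3 * s * r * (q * C⁻¹) * (b 3 * (s * r * q))⁻¹ := by
        rw [hpa3]
        group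
      _ = _ := by
        rw [h4]
        group
  apply k5_of_bc
  · have d : ∀ i : Fin 5, Commute (kFv f b i) (kFv f b (i + 2)) := by
      intro i
      fin_cases i
      · -- `0`, `2`
        change Commute (b 0)⁻¹ (f23 * (b 2)⁻¹ * f23⁻¹)
        exact (((c0f.mul_right c02.inv_right).mul_right c0f.inv_right)).inv_left
      · -- `1`, `3`
        change Commute (f01⁻¹ * (b 1)⁻¹ * f01) (b 3)⁻¹
        exact ((((c3f.inv_right).mul_right c13.symm.inv_right).mul_right c3f).inv_left).symm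
      · -- `2`, `4`
        change Commute (f23 * (b 2)⁻¹ * f23⁻¹) (f23 * f40 * (b 4)⁻¹ * (f23 * f40)⁻¹)
        have c2f : Commute (b 2) f40 := commute_ev c24 c02.symm f
        have h : Commute (b 2)⁻¹ (f40 * (b 4)⁻¹ * f40⁻¹) :=
          ((c2f.mul_right c24.inv_right).mul_right c2f.inv_right).inv_left
        have h2 : (b 2)⁻¹ * (f40 * (b 4)⁻¹ * f40⁻¹) = (f40 * (b 4)⁻¹ * f40⁻¹) * (b 2)⁻¹ := h.eq
        change f23 * (b 2)⁻¹ * f23⁻¹ * (f23 * f40 * (b 4)⁻¹ * (f23 * f40)⁻¹) =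
          f23 * f40 * (b 4)⁻¹ * (f23 * f40)⁻¹ * (f23 * (b 2)⁻¹ * f23⁻¹)
        calc f23 * (b 2)⁻¹ * f23⁻¹ * (f23 * f40 * (b 4)⁻¹ * (f23 * f40)⁻¹)
            = f23 * ((b 2)⁻¹ * (f40 * (b 4)⁻¹ * f40⁻¹)) * f23⁻¹ := by group
          _ = _ := by rw [h2]; group
      · -- `3`, `0`
        change Commute (b 3)⁻¹ (b 0)⁻¹
        exact c30.inv_inv
      · -- `4`, `1`
        change Commute (f23 * f40 * (b 4)⁻¹ * (f23 * f40)⁻¹) (f01⁻¹ * (b 1)⁻¹ * f01)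
        rw [F4]
        have c1f : Commute (b 1) f34 := commute_ev c13 c41.symm f
        have h : Commute (b 1)⁻¹ (f34⁻¹ * (b 4)⁻¹ * f34) :=
          ((c1f.inv_right.mul_right c41.symm.inv_right).mul_right c1f).inv_left
        have h2 : (b 1)⁻¹ * (f34⁻¹ * (b 4)⁻¹ * f34) = (f34⁻¹ * (b 4)⁻¹ * f34) * (b 1)⁻¹ := h.eq
        change f01⁻¹ * (f34⁻¹ * (b 4)⁻¹ * f34) * f01 * (f01⁻¹ * (b 1)⁻¹ * f01) =
          f01⁻¹ * (b 1)⁻¹ * f01 * (f01⁻¹ * (f34⁻¹ * (b 4)⁻¹ * f34) * f01)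
        calc f01⁻¹ * (f34⁻¹ * (b 4)⁻¹ * f34) * f01 * (f01⁻¹ * (b 1)⁻¹ * f01)
            = f01⁻¹ * ((f34⁻¹ * (b 4)⁻¹ * f34) * (b 1)⁻¹) * f01 := by group
          _ = _ := by rw [← h2]; group
    exact fun i => (d i).eq
  · have hB3 : k5b (kFv f b) = b 3 * s * B⁻¹ * (b 3 * s)⁻¹ := by
      rw [← hB]
      rfl
    have hC3 : k5c (kFv f b) = (b 3 * s) * (r * C⁻¹ * r⁻¹) * (b 3 * s)⁻¹ := by
      rw [← hC2]
      change (f23 * f40 * (b 4)⁻¹ * (f23 * f40)⁻¹ * (b 3)⁻¹)⁻¹ * (f01⁻¹ * (b 1)⁻¹ * f01) = _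
      rw [F4]
      have h3 : f01 * (b 3)⁻¹ = (b 3)⁻¹ * f01 := c3f.symm.inv_right.eq
      calc (f01⁻¹ * (f34⁻¹ * (b 4)⁻¹ * f34) * f01 * (b 3)⁻¹)⁻¹ * (f01⁻¹ * (b 1)⁻¹ * f01)
          = (f01⁻¹ * (f34⁻¹ * (b 4)⁻¹ * f34) * (f01 * (b 3)⁻¹))⁻¹ * (f01⁻¹ * (b 1)⁻¹ * f01) := by
            group
        _ = _ := by
          rw [h3]
          group
    rw [hB3, hC3]
    have cBr : Commute B r := commute_ev cBC c0B.symm f
    have h : Commute B⁻¹ (r * C⁻¹ * r⁻¹) :=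
      ((cBr.mul_right cBC.inv_right).mul_right cBr.inv_right).inv_left
    have h2 : B⁻¹ * (r * C⁻¹ * r⁻¹) = (r * C⁻¹ * r⁻¹) * B⁻¹ := h.eq
    calc b 3 * s * B⁻¹ * (b 3 * s)⁻¹ * (b 3 * s * (r * C⁻¹ * r⁻¹) * (b 3 * s)⁻¹)
        = b 3 * s * (B⁻¹ * (r * C⁻¹ * r⁻¹)) * (b 3 * s)⁻¹ := by group
      _ = _ := by
        rw [h2]
        group

/-- the action of `(-1, f)` on `K5hat` -/
noncomputable def kF5 (hf : IsInv f) : K5hat →ₜ* K5hat := evK (kFv f ka) (kF_isK5 hf ka ka_isK5)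

end K5F1

end Pool.Agent.GTT
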