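import Pool.Agent.Lib.MP_2cc432_al.K5F1
import Pool.Agent.Lib.MP_2cc432_al.FI
import Pool.Agent.Lib.MP_2cc432_al.K5Aut

/-!
# The action of `(-1, f)` on `K5hat` (module K5F2)
-/

open CategoryTheory

namespace Pool.Agent.GTT

section Grp

variable {G : Type} [Group G]

theorem k5f2_g1 {p q a : G} (h : Commute p a) :
    a⁻¹ = (p * q) * (q⁻¹ * a⁻¹ * q) * (p * q)⁻¹ := by
  have h1 : p * a⁻¹ * p⁻¹ = a⁻¹ := by
    rw [(h.inv_right).eq, mul_assoc, mul_inv_cancel, mul_one]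
  calc a⁻¹ = p * a⁻¹ * p⁻¹ := h1.symm
    _ = _ := by group

theorem k5f2_conj {p a : G} (h : Commute p a) : p * a * p⁻¹ = a := by
  rw [h.eq, mul_assoc, mul_inv_cancel, mul_one]

theorem k5f2_conj' {p a : G} (h : Commute p a) : p⁻¹ * a * p = a := by
  rw [h.inv_left.eq, mul_assoc, inv_mul_cancel, mul_one]

theorem k5f2_g2 {p q a : G} (h : Commute q a) :
    p⁻¹ * a⁻¹ * p = (p⁻¹ * q⁻¹) * a⁻¹ * (p⁻¹ * q⁻¹)⁻¹ := by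
  have h1 := k5f2_conj' h.inv_right
  calc p⁻¹ * a⁻¹ * p = p⁻¹ * (q⁻¹ * a⁻¹ * q) * p := by rw [h1]
    _ = _ := by group

theorem k5f2_g3 {u v p q r a : G} (h : Commute v a) (hr : u * v = p⁻¹ * q⁻¹ * r⁻¹) :
    u * a⁻¹ * u⁻¹ = (p⁻¹ * q⁻¹) * (r⁻¹ * a⁻¹ * r) * (p⁻¹ * q⁻¹)⁻¹ := by
  have h1 := k5f2_conj h.inv_right
  calc u * a⁻¹ * u⁻¹ = u * (v * a⁻¹ * v⁻¹) * u⁻¹ := by rw [h1]
    _ = (u * v) * a⁻¹ * (u * v)⁻¹ := by group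
    _ = _ := by rw [hr]; group

theorem k5f2_g4 {u v p q r a : G} (h : Commute r a) (hr : u * v = p⁻¹ * q⁻¹ * r⁻¹) :
    (u * v) * a⁻¹ * (u * v)⁻¹ = p⁻¹ * (q⁻¹ * a⁻¹ * q) * p⁻¹⁻¹ := by
  have h1 := k5f2_conj' h.inv_right
  calc (u * v) * a⁻¹ * (u * v)⁻¹ = p⁻¹ * q⁻¹ * (r⁻¹ * a⁻¹ * r) * q * p := by rw [hr]; group
    _ = p⁻¹ * q⁻¹ * a⁻¹ * q * p := by rw [h1]
    _ = _ := by group

theorem k5f2_g5 {p q a b c : G} (h : Commute p a) :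
    ((p * q) * b * (p * q)⁻¹ * a⁻¹)⁻¹ * (p * c * p⁻¹) =
      p * ((q * b * q⁻¹ * a⁻¹)⁻¹ * c) * p⁻¹ := by
  have h1 := k5f2_conj h.inv_right
  calc ((p * q) * b * (p * q)⁻¹ * a⁻¹)⁻¹ * (p * c * p⁻¹)
      = ((p * q) * b * (p * q)⁻¹ * (p * a⁻¹ * p⁻¹))⁻¹ * (p * c * p⁻¹) := by rw [h1]
    _ = _ := by group

theorem k5f2_three {a b c d e : G} (h : a * b * c * d * e = 1) : b * c = a⁻¹ * e⁻¹ * d⁻¹ := by
  have h1 : b * c = a⁻¹ * (a * b * c * d * e) * e⁻¹ * d⁻¹ := by group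
  rw [h1, h, mul_one]

end Grp

section K5F

variable {f : F2hat}

theorem k5f2_0 (hf : IsInv f) : kF5 hf (ka 0) = (ka 0)⁻¹ := evK_ka _ _ 0

theorem k5f2_1 (hf : IsInv f) :
    kF5 hf (ka 1) = (ev (ka 0) (ka 1) f)⁻¹ * (ka 1)⁻¹ * ev (ka 0) (ka 1) f := evK_ka _ _ 1

theorem k5f2_2 (hf : IsInv f) :
    kF5 hf (ka 2) = ev (ka 2) (ka 3) f * (ka 2)⁻¹ * (ev (ka 2) (ka 3) f)⁻¹ := evK_ka _ _ 2

theorem k5f2_3 (hf : IsInv f) : kF5 hf (ka 3) = (ka 3)⁻¹ := evK_ka _ _ 3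

theorem k5f2_4 (hf : IsInv f) : kF5 hf (ka 4) = ev (ka 2) (ka 3) f * ev (ka 4) (ka 0) f *
    (ka 4)⁻¹ * (ev (ka 2) (ka 3) f * ev (ka 4) (ka 0) f)⁻¹ := evK_ka _ _ 4

theorem k5f2_c02 : Commute (ka 0) (ka 2) := ka_isK5.comm 0

theorem k5f2_c13 : Commute (ka 1) (ka 3) := ka_isK5.comm 1

theorem k5f2_c24 : Commute (ka 2) (ka 4) := ka_isK5.comm 2

theorem k5f2_c30 : Commute (ka 3) (ka 0) := ka_isK5.comm 3

theorem k5f2_c41 : Commute (ka 4) (ka 1) := ka_isK5.comm 4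

/-- (III) -/
theorem k5f2_pent (hf : IsInv f) : ev (ka 2) (ka 3) f * ev (ka 4) (ka 0) f =
    (ev (ka 0) (ka 1) f)⁻¹ * (ev (ka 3) (ka 4) f)⁻¹ * (ev (ka 1) (ka 2) f)⁻¹ :=
  k5f2_three hf.III

/-- K5F2 -/
theorem kF5_ev01 (hf : IsInv f) (w : F2hat) :
    kF5 hf (ev (ka 0) (ka 1) w) = ev (ka 0) (ka 1) (gtI f w) := by
  have h := ev_gtI (f := f) (kF5 hf) 1 (ka 0) (ka 1)
    (by rw [k5f2_0]; group) (by rw [k5f2_1]; group) w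
  rw [h]
  group

/-- K5F2 -/
theorem kF5_ev23 (hf : IsInv f) (w : F2hat) : kF5 hf (ev (ka 2) (ka 3) w) =
    ev (ka 2) (ka 3) f * ev (ka 2) (ka 3) (gtI f w) * (ev (ka 2) (ka 3) f)⁻¹ :=
  ev_gtI (f := f) (kF5 hf) (ev (ka 2) (ka 3) f) (ka 2) (ka 3)
    (by rw [k5f2_2]) (by rw [k5f2_3]; group) w

/-- K5F2 -/
theorem kF5_ev40 (hf : IsInv f) (w : F2hat) : kF5 hf (ev (ka 4) (ka 0) w) =
    (ev (ka 2) (ka 3) f * ev (ka 4) (ka 0) f) * ev (ka 4) (ka 0) (gtI f w) *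
      (ev (ka 2) (ka 3) f * ev (ka 4) (ka 0) f)⁻¹ :=
  ev_gtI (f := f) (kF5 hf) (ev (ka 2) (ka 3) f * ev (ka 4) (ka 0) f) (ka 4) (ka 0)
    (by rw [k5f2_4]) (by
      rw [k5f2_0]
      exact k5f2_g1 (commute_ev k5f2_c02 k5f2_c30.symm f).symm) w

/-- K5F2 -/
theorem kF5_ev12 (hf : IsInv f) (w : F2hat) : kF5 hf (ev (ka 1) (ka 2) w) =
    ((ev (ka 0) (ka 1) f)⁻¹ * (ev (ka 3) (ka 4) f)⁻¹) * ev (ka 1) (ka 2) (gtI f w) *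
      ((ev (ka 0) (ka 1) f)⁻¹ * (ev (ka 3) (ka 4) f)⁻¹)⁻¹ :=
  ev_gtI (f := f) (kF5 hf) ((ev (ka 0) (ka 1) f)⁻¹ * (ev (ka 3) (ka 4) f)⁻¹) (ka 1) (ka 2)
    (by
      rw [k5f2_1]
      exact k5f2_g2 (commute_ev k5f2_c13 k5f2_c41.symm f).symm) (by
      rw [k5f2_2]
      exact k5f2_g3 (commute_ev k5f2_c24 k5f2_c02.symm f).symm (k5f2_pent hf)) w

/-- K5F2 -/
theorem kF5_ev34 (hf : IsInv f) (w : F2hat) : kF5 hf (ev (ka 3) (ka 4) w) =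
    (ev (ka 0) (ka 1) f)⁻¹ * ev (ka 3) (ka 4) (gtI f w) * ev (ka 0) (ka 1) f := by
  have h := ev_gtI (f := f) (kF5 hf) (ev (ka 0) (ka 1) f)⁻¹ (ka 3) (ka 4)
    (by
      rw [k5f2_3, inv_inv]
      exact (k5f2_conj' (commute_ev k5f2_c30 k5f2_c13.symm f).symm.inv_right).symm) (by
      rw [k5f2_4]
      exact k5f2_g4 (commute_ev k5f2_c41 k5f2_c24.symm f).symm (k5f2_pent hf)) w
  rw [h, inv_inv]

/-- K5F2 -/
theorem kF5_b (hf : IsInv f) : kF5 hf (k5b ka) =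
    (ka 3 * ev (k5b ka) (ka 3) f) * (k5b ka)⁻¹ * (ka 3 * ev (k5b ka) (ka 3) f)⁻¹ := by
  have h := kb_lemma hf (ka 2) (ka 3) (ka 0) k5f2_c02 k5f2_c30.symm
  have h1 : kF5 hf (k5b ka) =
      (ev (ka 2) (ka 3) f * (ka 2)⁻¹ * (ev (ka 2) (ka 3) f)⁻¹ * (ka 3)⁻¹)⁻¹ * (ka 0)⁻¹ := by
    rw [k5b, map_mul, map_inv, map_mul, k5f2_0, k5f2_2, k5f2_3]
  rw [h1]
  exact h

/-- K5F2 -/
theorem kF5_d (hf : IsInv f) : kF5 hf (k5d ka) =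
    (ev (ka 2) (ka 3) f * ka 0 * ev (k5d ka) (ka 0) f) * (k5d ka)⁻¹ *
      (ev (ka 2) (ka 3) f * ka 0 * ev (k5d ka) (ka 0) f)⁻¹ := by
  have h := kb_lemma hf (ka 4) (ka 0) (ka 2) k5f2_c24 k5f2_c02.symm
  have h1 : kF5 hf (k5d ka) = ev (ka 2) (ka 3) f *
      ((ev (ka 4) (ka 0) f * (ka 4)⁻¹ * (ev (ka 4) (ka 0) f)⁻¹ * (ka 0)⁻¹)⁻¹ * (ka 2)⁻¹) *
        (ev (ka 2) (ka 3) f)⁻¹ := by
    rw [k5d, map_mul, map_inv, map_mul, k5f2_0, k5f2_2, k5f2_4]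
    exact k5f2_g5 (commute_ev k5f2_c02 k5f2_c30.symm f).symm
  rw [h1, h]
  change ev (ka 2) (ka 3) f * (ka 0 * ev (k5d ka) (ka 0) f * (k5d ka)⁻¹ *
    (ka 0 * ev (k5d ka) (ka 0) f)⁻¹) * (ev (ka 2) (ka 3) f)⁻¹ = _
  group

theorem k5f2_f01 (hf : IsInv f) :
    kF5 hf (ev (ka 0) (ka 1) f) = (ev (ka 0) (ka 1) f)⁻¹ := by
  rw [kF5_ev01, gtI_self hf, map_inv]

theorem k5f2_f23 (hf : IsInv f) :
    kF5 hf (ev (ka 2) (ka 3) f) = (ev (ka 2) (ka 3) f)⁻¹ := by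
  rw [kF5_ev23, gtI_self hf, map_inv]
  group

theorem k5f2_f40 (hf : IsInv f) : kF5 hf (ev (ka 2) (ka 3) f * ev (ka 4) (ka 0) f) =
    (ev (ka 2) (ka 3) f * ev (ka 4) (ka 0) f)⁻¹ := by
  rw [map_mul, k5f2_f23, kF5_ev40, gtI_self hf, map_inv]
  group

/-- K5F2 -/
theorem kF5_invol (hf : IsInv f) (w : K5hat) : kF5 hf (kF5 hf w) = w := by
  have h : (kF5 hf).comp (kF5 hf) = ContinuousMonoidHom.id K5hat := by
    apply evK_ext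
    intro i
    change kF5 hf (kF5 hf (ka i)) = ka i
    fin_cases i
    · change kF5 hf (kF5 hf (ka 0)) = ka 0
      rw [k5f2_0, map_inv, k5f2_0, inv_inv]
    · change kF5 hf (kF5 hf (ka 1)) = ka 1
      rw [k5f2_1, map_mul, map_mul, map_inv, map_inv, k5f2_f01, k5f2_1]
      group
    · change kF5 hf (kF5 hf (ka 2)) = ka 2
      rw [k5f2_2, map_mul, map_mul, map_inv, map_inv, k5f2_f23, k5f2_2]
      group
    · change kF5 hf (kF5 hf (ka 3)) = ka 3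
      rw [k5f2_3, map_inv, k5f2_3, inv_inv]
    · change kF5 hf (kF5 hf (ka 4)) = ka 4
      rw [k5f2_4, map_mul, map_inv, map_mul, k5f2_f40, map_inv, k5f2_4]
      group
  exact congrArg (fun k : K5hat →ₜ* K5hat => k w) h

theorem k5f2_kp (i : Fin 5) : kp5 (ka i) = (![gx, gy, gx, 1, 1] : Fin 5 → F2hat) i :=
  evK_ka _ _ i

/-- K5F2 -/
theorem kp5_kF5 (hf : IsInv f) (w : K5hat) : kp5 (kF5 hf w) = gtI f (kp5 w) := by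
  have h0 : kp5 (ka 0) = gx := k5f2_kp 0
  have h1 : kp5 (ka 1) = gy := k5f2_kp 1
  have h2 : kp5 (ka 2) = gx := k5f2_kp 2
  have h3 : kp5 (ka 3) = 1 := k5f2_kp 3
  have h4 : kp5 (ka 4) = 1 := k5f2_kp 4
  have hx : gtI f gx = gx⁻¹ := ev_gx _ _
  have hy : gtI f gy = f⁻¹ * gy⁻¹ * f := ev_gy _ _
  have h : kp5.comp (kF5 hf) = (gtI f).comp kp5 := by
    apply evK_ext
    intro i
    change kp5 (kF5 hf (ka i)) = gtI f (kp5 (ka i))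
    fin_cases i
    · change kp5 (kF5 hf (ka 0)) = gtI f (kp5 (ka 0))
      rw [k5f2_0, map_inv, h0, hx]
    · change kp5 (kF5 hf (ka 1)) = gtI f (kp5 (ka 1))
      rw [k5f2_1, map_mul, map_mul, map_inv, map_inv, map_ev, h0, h1, ev_self, hy]
    · change kp5 (kF5 hf (ka 2)) = gtI f (kp5 (ka 2))
      rw [k5f2_2, map_mul, map_mul, map_inv, map_inv, map_ev, h2, h3,
        ev_commute_one (Commute.one_right gx) hf.comm, hx]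
      group
    · change kp5 (kF5 hf (ka 3)) = gtI f (kp5 (ka 3))
      rw [k5f2_3, map_inv, h3, map_one, inv_one]
    · change kp5 (kF5 hf (ka 4)) = gtI f (kp5 (ka 4))
      rw [k5f2_4, map_mul, map_mul, map_inv, map_inv, h4, map_one]
      group
  exact congrArg (fun k : K5hat →ₜ* F2hat => k w) h

end K5F

end Pool.Agent.GTT
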