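import Pool.Agent.Lib.MP_2cc432_al.K5Defs
import Pool.Agent.Lib.MP_2cc432_al.K5Aut
import Pool.Agent.Lib.MP_2cc432_al.FI
import Pool.Agent.Lib.MP_2cc432_al.K5F1
import Pool.Agent.Lib.MP_2cc432_al.K5F2

/-!
# K5F3: the action of `(-1, f)` on `K5hat` and the half twist, the reflections of the pentagon

`kT` is conjugation by `τ₁₂`, `kE` and `kE1` are reflections of the pentagon; `kT_kF5_kT` says
`F τ₁₂ F = τ₁₂⁻¹`, and `kR = τ₁₂ F` is an involution.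
-/

open CategoryTheory

namespace Pool.Agent.GTT

section K5F

variable {f : F2hat}

/-- conjugation by `τ₁₂` on `K5hat` -/
noncomputable def kT : K5hat →ₜ* K5hat := evK (k5t ka) (k5t_isK5 ka_isK5)

/-- the reflections of the pentagon -/
noncomputable def kE : K5hat →ₜ* K5hat := evK (k5e ka) (k5e_isK5 ka_isK5)

noncomputable def kE1 : K5hat →ₜ* K5hat := evK (k5e1 ka) (k5e1_isK5 ka_isK5)

/-! #### values on the generators -/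

theorem k5f3_T (i : Fin 5) : kT (ka i) = k5t ka i := evK_ka _ _ i

theorem k5f3_E (i : Fin 5) : kE (ka i) = k5e ka i := evK_ka _ _ i

theorem k5f3_E1 (i : Fin 5) : kE1 (ka i) = k5e1 ka i := evK_ka _ _ i

theorem k5f3_F (hf : IsInv f) (i : Fin 5) : kF5 hf (ka i) = kFv f ka i := evK_ka _ _ i

theorem k5f3_T0 : kT (ka 0) = ka 0 := k5f3_T 0
theorem k5f3_T1 : kT (ka 1) = ka 3 * (ka 1)⁻¹ * (ka 0)⁻¹ := k5f3_T 1
theorem k5f3_T2 : kT (ka 2) = ka 2 := k5f3_T 2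
theorem k5f3_T3 : kT (ka 3) = ka 3 := k5f3_T 3
theorem k5f3_T4 : kT (ka 4) = ka 2 * (ka 4)⁻¹ * (ka 0)⁻¹ := k5f3_T 4

theorem k5f3_E0 : kE (ka 0) = ka 3 := k5f3_E 0
theorem k5f3_Ea1 : kE (ka 1) = ka 2 := k5f3_E 1
theorem k5f3_E2 : kE (ka 2) = ka 1 := k5f3_E 2
theorem k5f3_E3 : kE (ka 3) = ka 0 := k5f3_E 3
theorem k5f3_E4 : kE (ka 4) = ka 4 := k5f3_E 4

theorem k5f3_E10 : kE1 (ka 0) = ka 0 := k5f3_E1 0
theorem k5f3_E11 : kE1 (ka 1) = ka 4 := k5f3_E1 1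
theorem k5f3_E12 : kE1 (ka 2) = ka 3 := k5f3_E1 2
theorem k5f3_E13 : kE1 (ka 3) = ka 2 := k5f3_E1 3
theorem k5f3_E14 : kE1 (ka 4) = ka 1 := k5f3_E1 4

theorem k5f3_F0 (hf : IsInv f) : kF5 hf (ka 0) = (ka 0)⁻¹ := k5f3_F hf 0
theorem k5f3_F1 (hf : IsInv f) : kF5 hf (ka 1) =
    (ev (ka 0) (ka 1) f)⁻¹ * (ka 1)⁻¹ * ev (ka 0) (ka 1) f := k5f3_F hf 1
theorem k5f3_F2 (hf : IsInv f) : kF5 hf (ka 2) =
    ev (ka 2) (ka 3) f * (ka 2)⁻¹ * (ev (ka 2) (ka 3) f)⁻¹ := k5f3_F hf 2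
theorem k5f3_F3 (hf : IsInv f) : kF5 hf (ka 3) = (ka 3)⁻¹ := k5f3_F hf 3
theorem k5f3_F4 (hf : IsInv f) : kF5 hf (ka 4) =
    ev (ka 2) (ka 3) f * ev (ka 4) (ka 0) f * (ka 4)⁻¹ *
      (ev (ka 2) (ka 3) f * ev (ka 4) (ka 0) f)⁻¹ := k5f3_F hf 4

/-! #### commuting generators -/

theorem k5f3_c02 : Commute (ka 0) (ka 2) := ka_isK5.comm 0
theorem k5f3_c13 : Commute (ka 1) (ka 3) := ka_isK5.comm 1
theorem k5f3_c24 : Commute (ka 2) (ka 4) := ka_isK5.comm 2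
theorem k5f3_c30 : Commute (ka 3) (ka 0) := ka_isK5.comm 3
theorem k5f3_c41 : Commute (ka 4) (ka 1) := ka_isK5.comm 4

theorem k5f3_c0_23 (w : F2hat) : Commute (ka 0) (ev (ka 2) (ka 3) w) :=
  commute_ev k5f3_c02 k5f3_c30.symm w

/-- relation (I) in any group -/
theorem k5f3_I {G : ProfiniteGrp.{0}} (hf : IsInv f) (a b : G) :
    ev b a f = (ev a b f)⁻¹ := by
  have h := congrArg (ev a b) hf.I
  rw [map_mul, map_one] at h
  have h2 : ev a b (ev gy gx f) = ev b a f := by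
    rw [map_ev, ev_gx, ev_gy]
  rw [h2] at h
  exact (inv_eq_of_mul_eq_one_right h).symm

/-- conjugation as a continuous homomorphism -/
noncomputable def k5f3_cj (c : K5hat) : K5hat →ₜ* K5hat :=
  { toMonoidHom := (MulAut.conj c).toMonoidHom
    continuous_toFun := by
      change Continuous fun w : K5hat => c * w * c⁻¹
      fun_prop }

theorem k5f3_cj_apply (c w : K5hat) : k5f3_cj c w = c * w * c⁻¹ := rfl

/-- conjugation of a substitution -/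
theorem k5f3_ev_cj (c a b : K5hat) (w : F2hat) :
    ev (c * a * c⁻¹) (c * b * c⁻¹) w = c * ev a b w * c⁻¹ :=
  (map_ev (k5f3_cj c) a b w).symm

/-- homomorphisms which agree on the generators -/
theorem k5f3_ext (φ ψ : K5hat →ₜ* K5hat) (h : ∀ i, φ (ka i) = ψ (ka i)) (w : K5hat) :
    φ w = ψ w := by
  rw [evK_ext φ ψ h]

theorem k5f3_kT_k5t (i : Fin 5) : kT (k5t ka i) = k5t (fun j => kT (ka j)) i := by
  fin_cases i
  · rfl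
  · change kT (ka 3 * (ka 1)⁻¹ * (ka 0)⁻¹) = kT (ka 3) * (kT (ka 1))⁻¹ * (kT (ka 0))⁻¹
    simp only [map_mul, map_inv]
  · rfl
  · rfl
  · change kT (ka 2 * (ka 4)⁻¹ * (ka 0)⁻¹) = kT (ka 2) * (kT (ka 4))⁻¹ * (kT (ka 0))⁻¹
    simp only [map_mul, map_inv]

theorem k5f3_TT (i : Fin 5) : kT (kT (ka i)) = ka 0 * ka i * (ka 0)⁻¹ := by
  rw [k5f3_T, k5f3_kT_k5t]
  have h : (fun j => kT (ka j)) = k5t ka := funext k5f3_T
  rw [h, k5t_t ka_isK5]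

theorem k5f3_TD : kT (k5d ka) = ka 4 := by
  have h : kT (k5d ka) = k5d (fun j => kT (ka j)) := by
    unfold k5d
    simp only [map_mul, map_inv]
  have h2 : (fun j => kT (ka j)) = k5t ka := funext k5f3_T
  rw [h, h2, k5t_d ka_isK5]

theorem k5f3_T4D : kT (ka 4) = ka 0 * k5d ka * (ka 0)⁻¹ := by
  rw [k5f3_T, k5t_4 ka_isK5]

/-- `kF5` on `kT (ka 1)` -/
theorem k5f3_FT1 (hf : IsInv f) : kF5 hf (kT (ka 1)) =
    (ev (ka 0) (kT (ka 1)) f * ka 0)⁻¹ * (kT (ka 1))⁻¹ * (ev (ka 0) (kT (ka 1)) f * ka 0) := by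
  set z : K5hat := (ka 0 * ka 1)⁻¹ with hz
  have h30 : Commute (ka 3) (ka 0) := k5f3_c30
  have h31 : Commute (ka 3) (ka 1) := k5f3_c13.symm
  have h3z : Commute (ka 3) z := (h30.mul_right h31).inv_right
  have ht : kT (ka 1) = z * ka 3 := by
    rw [k5f3_T1, ← h3z.eq, hz, mul_inv_rev, mul_assoc]
  have hev : ev (ka 0) (kT (ka 1)) f = ev (ka 0) z f := by
    have h := ev_mul_central (a := ka 0) (b := z) (t := 1) (s := ka 3) (Commute.one_left _)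
      (Commute.one_left _) h30 h3z (Commute.one_left _) hf.comm
    rw [mul_one] at h
    rw [ht, h]
  have hFz : kF5 hf z = (ev (ka 0) z f * ka 0)⁻¹ * z⁻¹ * (ev (ka 0) z f * ka 0) := by
    have h1 : ev (ka 0) (ka 1) gz = z := by
      rw [gz, map_inv, map_mul, ev_gx, ev_gy]
    have h := kF5_ev01 hf gz
    rw [h1, gtI_gz hf] at h
    rw [h]
    simp only [map_mul, map_inv, map_ev, ev_gx, h1]
  have hc : Commute (ka 3) (ev (ka 0) z f * ka 0) :=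
    (commute_ev h30 h3z f).mul_right h30
  rw [hev, ht, map_mul, hFz, k5f3_F3, mul_inv_rev z (ka 3)]
  set P := ev (ka 0) z f * ka 0 with hP
  have h1 : P⁻¹ * ((ka 3)⁻¹ * z⁻¹) * P = P⁻¹ * z⁻¹ * P * (ka 3)⁻¹ := by
    have e1 : (ka 3)⁻¹ * z⁻¹ = z⁻¹ * (ka 3)⁻¹ := (h3z.inv_inv).eq
    have e2 : (ka 3)⁻¹ * P = P * (ka 3)⁻¹ := (hc.inv_left).eq
    rw [e1, ← mul_assoc P⁻¹, mul_assoc (P⁻¹ * z⁻¹), e2, ← mul_assoc]
  exact h1.symm

/-- the other form of `kF5 (ka 4)` -/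
theorem k5f3_F4' (hf : IsInv f) : kF5 hf (ka 4) =
    (ev (ka 0) (ka 1) f)⁻¹ * (ev (ka 3) (ka 4) f)⁻¹ * (ka 4)⁻¹ *
      ((ev (ka 0) (ka 1) f)⁻¹ * (ev (ka 3) (ka 4) f)⁻¹)⁻¹ := by
  have h3 := hf.III
  unfold pent at h3
  have h4 : Commute (ka 4) (ev (ka 1) (ka 2) f) := commute_ev k5f3_c41 k5f3_c24.symm f
  set A := ev (ka 0) (ka 1) f
  set B := ev (ka 2) (ka 3) f with hB
  set C := ev (ka 4) (ka 0) f with hC
  set D := ev (ka 1) (ka 2) f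
  set E := ev (ka 3) (ka 4) f
  have h5 : B * C = A⁻¹ * E⁻¹ * D⁻¹ := by
    have h6 : A * (B * C) * (D * E) = 1 := by
      rw [← h3]
      group
    have h7 : B * C = A⁻¹ * (A * (B * C) * (D * E)) * (D * E)⁻¹ := by group
    rw [h7, h6]
    group
  rw [k5f3_F4, ← hB, ← hC, h5]
  have e1 : D⁻¹ * (ka 4)⁻¹ = (ka 4)⁻¹ * D⁻¹ := (h4.symm.inv_inv).eq
  calc A⁻¹ * E⁻¹ * D⁻¹ * (ka 4)⁻¹ * (A⁻¹ * E⁻¹ * D⁻¹)⁻¹
      = A⁻¹ * E⁻¹ * (D⁻¹ * (ka 4)⁻¹) * (A⁻¹ * E⁻¹ * D⁻¹)⁻¹ := by group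
    _ = A⁻¹ * E⁻¹ * ((ka 4)⁻¹ * D⁻¹) * (A⁻¹ * E⁻¹ * D⁻¹)⁻¹ := by rw [e1]
    _ = A⁻¹ * E⁻¹ * (ka 4)⁻¹ * (A⁻¹ * E⁻¹)⁻¹ := by group

/-- `F τ₁₂ F = τ₁₂⁻¹` -/
theorem kT_kF5_kT (hf : IsInv f) (w : K5hat) : kT (kF5 hf (kT w)) = kF5 hf w := by
  refine k5f3_ext (kT.comp ((kF5 hf).comp kT)) (kF5 hf) (fun i => ?_) w
  change kT (kF5 hf (kT (ka i))) = kF5 hf (ka i)
  fin_cases i
  · change kT (kF5 hf (kT (ka 0))) = kF5 hf (ka 0)
    rw [k5f3_T0, k5f3_F0, map_inv, k5f3_T0]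
  · change kT (kF5 hf (kT (ka 1))) = kF5 hf (ka 1)
    rw [k5f3_FT1, k5f3_F1]
    simp only [map_mul, map_inv, map_ev, k5f3_T0, k5f3_TT 1]
    have h1 : ev (ka 0) (ka 0 * ka 1 * (ka 0)⁻¹) f =
        ka 0 * ev (ka 0) (ka 1) f * (ka 0)⁻¹ := by
      rw [← k5f3_ev_cj]
      congr 2
      group
    rw [h1]
    group
  · change kT (kF5 hf (kT (ka 2))) = kF5 hf (ka 2)
    rw [k5f3_T2, k5f3_F2]
    simp only [map_mul, map_inv, map_ev, k5f3_T2, k5f3_T3]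
  · change kT (kF5 hf (kT (ka 3))) = kF5 hf (ka 3)
    rw [k5f3_T3, k5f3_F3, map_inv, k5f3_T3]
  · change kT (kF5 hf (kT (ka 4))) = kF5 hf (ka 4)
    have e : kF5 hf (ka 0 * k5d ka * (ka 0)⁻¹) = (ka 0)⁻¹ * kF5 hf (k5d ka) * ka 0 := by
      rw [map_mul, map_mul, map_inv, k5f3_F0, inv_inv]
    rw [k5f3_T4D, e, kF5_d, k5f3_F4]
    simp only [map_mul, map_inv, map_ev, k5f3_T0, k5f3_T2, k5f3_T3, k5f3_TD]
    have h := (k5f3_c0_23 f).eq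
    set B := ev (ka 2) (ka 3) f
    set C := ev (ka 4) (ka 0) f
    have h1 : B * ka 0 * C = ka 0 * (B * C) := by rw [← h, mul_assoc]
    rw [h1]
    group

theorem kF5_kE (hf : IsInv f) (w : K5hat) : kF5 hf (kE w) = kE (kF5 hf w) := by
  refine k5f3_ext ((kF5 hf).comp kE) (kE.comp (kF5 hf)) (fun i => ?_) w
  change kF5 hf (kE (ka i)) = kE (kF5 hf (ka i))
  fin_cases i
  · change kF5 hf (kE (ka 0)) = kE (kF5 hf (ka 0))
    rw [k5f3_E0, k5f3_F3, k5f3_F0, map_inv, k5f3_E0]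
  · change kF5 hf (kE (ka 1)) = kE (kF5 hf (ka 1))
    rw [k5f3_Ea1, k5f3_F2, k5f3_F1]
    simp only [map_mul, map_inv, map_ev, k5f3_E0, k5f3_Ea1]
    rw [k5f3_I hf (ka 2) (ka 3), inv_inv]
  · change kF5 hf (kE (ka 2)) = kE (kF5 hf (ka 2))
    rw [k5f3_E2, k5f3_F1, k5f3_F2]
    simp only [map_mul, map_inv, map_ev, k5f3_E2, k5f3_E3]
    rw [k5f3_I hf (ka 0) (ka 1), inv_inv]
  · change kF5 hf (kE (ka 3)) = kE (kF5 hf (ka 3))
    rw [k5f3_E3, k5f3_F0, k5f3_F3, map_inv, k5f3_E3]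
  · change kF5 hf (kE (ka 4)) = kE (kF5 hf (ka 4))
    rw [k5f3_E4, k5f3_F4' hf]
    conv_rhs => rw [← k5f3_F4' hf, k5f3_F4]
    simp only [map_mul, map_inv, map_ev, k5f3_E0, k5f3_E2, k5f3_E3, k5f3_E4]
    rw [k5f3_I hf (ka 0) (ka 1), k5f3_I hf (ka 3) (ka 4)]

theorem kF5_kE1 (hf : IsInv f) (w : K5hat) :
    kF5 hf (kE1 w) = ev (ka 2) (ka 3) f * kE1 (kF5 hf w) * (ev (ka 2) (ka 3) f)⁻¹ := by
  set B := ev (ka 2) (ka 3) f with hB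
  refine k5f3_ext ((kF5 hf).comp kE1) ((k5f3_cj B).comp (kE1.comp (kF5 hf))) (fun i => ?_) w
  change kF5 hf (kE1 (ka i)) = B * kE1 (kF5 hf (ka i)) * B⁻¹
  have hc : ka 0 * B = B * ka 0 := (k5f3_c0_23 f).eq
  fin_cases i
  · change kF5 hf (kE1 (ka 0)) = B * kE1 (kF5 hf (ka 0)) * B⁻¹
    rw [k5f3_E10, k5f3_F0, map_inv, k5f3_E10]
    have h1 : B * (ka 0)⁻¹ = (ka 0)⁻¹ * B := by
      rw [eq_inv_mul_iff_mul_eq, ← mul_assoc, hc, mul_inv_cancel_right]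
    rw [h1, mul_inv_cancel_right]
  · change kF5 hf (kE1 (ka 1)) = B * kE1 (kF5 hf (ka 1)) * B⁻¹
    rw [k5f3_E11, k5f3_F4, k5f3_F1]
    simp only [map_mul, map_inv, map_ev, k5f3_E10, k5f3_E11]
    rw [k5f3_I hf (ka 4) (ka 0), ← hB]
    group
  · change kF5 hf (kE1 (ka 2)) = B * kE1 (kF5 hf (ka 2)) * B⁻¹
    rw [k5f3_E12, k5f3_F3, k5f3_F2]
    simp only [map_mul, map_inv, map_ev, k5f3_E12, k5f3_E13]
    rw [k5f3_I hf (ka 2) (ka 3), ← hB]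
    group
  · change kF5 hf (kE1 (ka 3)) = B * kE1 (kF5 hf (ka 3)) * B⁻¹
    rw [k5f3_E13, k5f3_F2, k5f3_F3, map_inv, k5f3_E13]
  · change kF5 hf (kE1 (ka 4)) = B * kE1 (kF5 hf (ka 4)) * B⁻¹
    rw [k5f3_E14, k5f3_F1, k5f3_F4]
    simp only [map_mul, map_inv, map_ev, k5f3_E10, k5f3_E12, k5f3_E13, k5f3_E14]
    rw [k5f3_I hf (ka 2) (ka 3), k5f3_I hf (ka 0) (ka 1), ← hB]
    group

theorem kT_kT (w : K5hat) : kT (kT w) = ka 0 * w * (ka 0)⁻¹ :=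
  k5f3_ext (kT.comp kT) (k5f3_cj (ka 0)) k5f3_TT w

/-- the involution `τ₁₂ F` -/
noncomputable def kR (hf : IsInv f) : K5hat →ₜ* K5hat := kT.comp (kF5 hf)

theorem kR_invol (hf : IsInv f) (w : K5hat) : kR hf (kR hf w) = w := by
  change kT (kF5 hf (kT (kF5 hf w))) = w
  rw [kT_kF5_kT, kF5_invol]

theorem k5f3_kp5_kT (w : K5hat) : kp5 (kT w) = gtT (kp5 w) := by
  have h : kp5.comp kT = gtT.comp kp5 := by
    apply evK_ext
    intro i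
    change kp5 (kT (ka i)) = gtT (kp5 (ka i))
    have hk : ∀ j, kp5 (ka j) = ![gx, gy, gx, 1, 1] j := fun j => evK_ka _ _ j
    have hx : gtT gx = gx := ev_gx _ _
    have hy : gtT gy = gz := ev_gy _ _
    fin_cases i
    · change kp5 (kT (ka 0)) = gtT (kp5 (ka 0))
      rw [k5f3_T0, hk 0]
      exact hx.symm
    · change kp5 (kT (ka 1)) = gtT (kp5 (ka 1))
      rw [k5f3_T1, map_mul, map_mul, map_inv, map_inv, hk 0, hk 1, hk 3]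
      change 1 * gy⁻¹ * gx⁻¹ = gtT gy
      rw [hy, gz, one_mul, mul_inv_rev]
    · change kp5 (kT (ka 2)) = gtT (kp5 (ka 2))
      rw [k5f3_T2, hk 2]
      exact hx.symm
    · change kp5 (kT (ka 3)) = gtT (kp5 (ka 3))
      rw [k5f3_T3, hk 3]
      exact (map_one gtT).symm
    · change kp5 (kT (ka 4)) = gtT (kp5 (ka 4))
      rw [k5f3_T4, map_mul, map_mul, map_inv, map_inv, hk 0, hk 2, hk 4]
      change gx * 1⁻¹ * gx⁻¹ = gtT 1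
      rw [map_one, inv_one, mul_one, mul_inv_cancel]
  exact congrArg (fun k : K5hat →ₜ* F2hat => k w) h

theorem kp5_kR (hf : IsInv f) (w : K5hat) : kp5 (kR hf w) = gtR f (kp5 w) := by
  change kp5 (kT (kF5 hf w)) = gtT (gtI f (kp5 w))
  rw [k5f3_kp5_kT, kp5_kF5]

end K5F

end Pool.Agent.GTT
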