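import Pool.Agent.Lib.MP_2cc432_al.K5Defs
import Pool.Agent.Lib.MP_2cc432_al.K5Aut
import Pool.Agent.Lib.MP_2cc432_al.Defs3

/-!
# The kernel of `K5hat → F2hat` is free of rank 3
-/

open CategoryTheory

namespace Pool.Agent.GTT

theorem kN_isClosed : IsClosed (kN : Set K5hat) := by
  have h : (kN : Set K5hat) = (fun w => kp5 w) ⁻¹' {1} := by
    ext w
    exact mem_kN w
  rw [h]
  exact isClosed_singleton.preimage kp5.continuous

/-! ## The wreath product -/

section Lift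

variable {G : Type} [Group G]

/-- the permutation given by `x₁₂` -/
def k5nP0 : Equiv.Perm (Fin 3 → G) where
  toFun h := ![(h 1 * h 2) * h 0 * (h 1 * h 2)⁻¹, h 1, h 2]
  invFun h := ![(h 1 * h 2)⁻¹ * h 0 * (h 1 * h 2), h 1, h 2]
  left_inv h := by
    funext i
    fin_cases i
    · simp
      group
    · rfl
    · rfl
  right_inv h := by
    funext i
    fin_cases i
    · simp
      group
    · rfl
    · rfl

/-- the permutation given by `x₂₃` -/
def k5nP1 : Equiv.Perm (Fin 3 → G) where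
  toFun h := ![h 0, h 1, (h 0 * h 1) * h 2 * (h 0 * h 1)⁻¹]
  invFun h := ![h 0, h 1, (h 0 * h 1)⁻¹ * h 2 * (h 0 * h 1)]
  left_inv h := by
    funext i
    fin_cases i
    · rfl
    · rfl
    · simp
      group
  right_inv h := by
    funext i
    fin_cases i
    · rfl
    · rfl
    · simp
      group

/-- permutations act on functions -/
def k5nPhi (H G : Type) [Group G] : Equiv.Perm H →* MulAut (H → G) where
  toFun σ :=
    { toFun := fun v => v ∘ (σ⁻¹ : Equiv.Perm H)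
      invFun := fun v => v ∘ σ
      left_inv := fun v => by
        funext h
        simp
      right_inv := fun v => by
        funext h
        simp
      map_mul' := fun v w => rfl }
  map_one' := rfl
  map_mul' := fun σ τ => by
    ext v h
    simp [mul_inv_rev]

/-- the wreath product -/
abbrev K5nG (G : Type) [Group G] : Type :=
  SemidirectProduct ((Fin 3 → G) → G) (Equiv.Perm (Fin 3 → G)) (k5nPhi (Fin 3 → G) G)

/-- functions in the wreath product -/
def k5nF (v : (Fin 3 → G) → G) : K5nG G := ⟨v, 1⟩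

/-- permutations in the wreath product -/
def k5nS (σ : Equiv.Perm (Fin 3 → G)) : K5nG G := ⟨1, σ⁻¹⟩

theorem k5nF_mul (v w : (Fin 3 → G) → G) : k5nF v * k5nF w = k5nF (v * w) := by
  apply SemidirectProduct.ext
  · rfl
  · rfl

theorem k5nS_mul (σ : Equiv.Perm (Fin 3 → G)) (v : (Fin 3 → G) → G) :
    k5nS σ * k5nF v = k5nF (v ∘ σ) * k5nS σ := by
  apply SemidirectProduct.ext
  · funext h
    change 1 * v ((σ⁻¹)⁻¹ h) = v (σ h) * 1
    rw [one_mul, mul_one, inv_inv]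
  · change σ⁻¹ * 1 = 1 * σ⁻¹
    rw [one_mul, mul_one]

/-- the images of the generators -/
def k5nb (G : Type) [Group G] : Fin 5 → K5nG G :=
  ![k5nS k5nP0, k5nS k5nP1, k5nS k5nP0 * (k5nF (fun h => h 1) * k5nF (fun h => h 2))⁻¹,
    k5nF (fun h => h 1), k5nF (fun h => h 0)]

theorem k5n_comm {A : Type} [Group A] {p x y z q : A}
    (h1 : p * y = y * p) (h2 : p * z = z * p)
    (h3 : p * x = ((y * z) * x * (y * z)⁻¹) * p) (h4 : q * x = x * q) (h5 : q * y = y * q)
    (h6 : q * z = ((x * y) * z * (x * y)⁻¹) * q) :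
    IsK5 ![p, q, p * (y * z)⁻¹, y, x] := by
  have h12 : p * (y * z) = (y * z) * p := by
    rw [← mul_assoc, h1, mul_assoc, h2, mul_assoc]
  have hp : p * (y * z)⁻¹ = (y * z)⁻¹ * p := by
    have h : Commute p (y * z) := h12
    exact (h.inv_right).eq
  apply k5_of_bc
  · intro i
    fin_cases i
    · change p * (p * (y * z)⁻¹) = p * (y * z)⁻¹ * p
      rw [mul_assoc, ← hp]
    · exact h5
    · change p * (y * z)⁻¹ * x = x * (p * (y * z)⁻¹)
      rw [hp, mul_assoc, h3]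
      group
    · exact h1.symm
    · exact h4.symm
  · have hB : k5b ![p, q, p * (y * z)⁻¹, y, x] = z := by
      change (p * (y * z)⁻¹ * y)⁻¹ * p = z
      group
    have hC : k5c ![p, q, p * (y * z)⁻¹, y, x] = (x * y)⁻¹ * q := rfl
    rw [hB, hC, mul_assoc, h6]
    group

theorem k5nb_isK5 : IsK5 (k5nb G) := by
  apply k5n_comm
  · rw [k5nS_mul]
    rfl
  · rw [k5nS_mul]
    rfl
  · rw [k5nS_mul]
    rfl
  · rw [k5nS_mul]
    rfl
  · rw [k5nS_mul]
    rfl
  · rw [k5nS_mul]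
    rfl

theorem k5nb_b : k5b (k5nb G) = k5nF (fun h => h 2) := by
  change (k5nS k5nP0 * (k5nF (fun h => h 1) * k5nF (fun h => h 2))⁻¹ *
    k5nF (fun h => h 1))⁻¹ * k5nS k5nP0 = k5nF (fun h => h 2)
  group

end Lift

theorem k5n_lift (G : Type) [Group G] [Finite G] (a : Fin 3 → G) :
    ∃ φ : kN →* G, IsLocallyConstant φ ∧ ∀ i, φ (knc i) = a i := by
  let _ : TopologicalSpace (K5nG G) := ⊥
  have _ : DiscreteTopology (K5nG G) := ⟨rfl⟩
  have _ : Finite (K5nG G) := Finite.of_equiv _ SemidirectProduct.equivProd.symm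
  let Γ : ProfiniteGrp.{0} := ProfiniteGrp.of (K5nG G)
  let Ψ : K5hat →ₜ* Γ := evK (G := Γ) (k5nb G) k5nb_isK5
  let _ : TopologicalSpace (Equiv.Perm (Fin 3 → G)) := ⊥
  have _ : DiscreteTopology (Equiv.Perm (Fin 3 → G)) := ⟨rfl⟩
  let Δ : ProfiniteGrp.{0} := ProfiniteGrp.of (Equiv.Perm (Fin 3 → G))
  let q : F2hat →ₜ* Δ := ev (G := Δ) (k5nP0⁻¹ : Equiv.Perm (Fin 3 → G)) (k5nP1⁻¹)
  let ρ : Γ →ₜ* Δ :=
    { toMonoidHom := SemidirectProduct.rightHom
      continuous_toFun := continuous_of_discreteTopology }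
  have hΨ : ∀ i, Ψ (ka i) = k5nb G i := fun i => evK_ka (G := Γ) (k5nb G) k5nb_isK5 i
  have hρF : ∀ v : (Fin 3 → G) → G, ρ (k5nF v : K5nG G) = (1 : Δ) := fun v => rfl
  have hqx : q gx = (k5nP0⁻¹ : Equiv.Perm (Fin 3 → G)) := ev_gx (G := Δ) _ _
  have hqy : q gy = (k5nP1⁻¹ : Equiv.Perm (Fin 3 → G)) := ev_gy (G := Δ) _ _
  have hkp : ∀ i, kp5 (ka i) = (![gx, gy, gx, 1, 1] : Fin 5 → F2hat) i := fun i =>
    evK_ka _ kp5_isK5 i
  have h1 : ρ.comp Ψ = q.comp kp5 := by
    apply evK_ext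
    intro i
    change ρ (Ψ (ka i)) = q (kp5 (ka i))
    rw [hΨ, hkp]
    fin_cases i
    · exact hqx.symm
    · exact hqy.symm
    · refine Eq.trans ?_ hqx.symm
      change SemidirectProduct.rightHom (k5nS k5nP0 * (k5nF (fun h => h 1) *
        k5nF (fun h => h 2))⁻¹ : K5nG G) = k5nP0⁻¹
      rw [map_mul, map_inv, map_mul]
      change k5nP0⁻¹ * (1 * 1)⁻¹ = k5nP0⁻¹
      rw [mul_one, inv_one, mul_one]
    · exact (map_one q).symm
    · exact (map_one q).symm
  have h2 : ∀ w : kN, SemidirectProduct.right (Ψ (w : K5hat) : K5nG G) = 1 := by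
    intro w
    have h3 : ρ (Ψ (w : K5hat)) = q (kp5 (w : K5hat)) :=
      congrArg (fun k : K5hat →ₜ* Δ => k (w : K5hat)) h1
    rw [(mem_kN _).1 w.2, map_one] at h3
    exact h3
  have hmul : ∀ w w' : kN, SemidirectProduct.left (Ψ ((w * w' : kN) : K5hat) : K5nG G) a =
      SemidirectProduct.left (Ψ (w : K5hat) : K5nG G) a *
        SemidirectProduct.left (Ψ (w' : K5hat) : K5nG G) a := by
    intro w w'
    have h3 : Ψ ((w * w' : kN) : K5hat) = Ψ (w : K5hat) * Ψ (w' : K5hat) := map_mul Ψ _ _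
    have h4 : SemidirectProduct.left (Ψ ((w * w' : kN) : K5hat) : K5nG G) =
        SemidirectProduct.left (Ψ (w : K5hat) : K5nG G) *
          k5nPhi (Fin 3 → G) G (SemidirectProduct.right (Ψ (w : K5hat) : K5nG G))
            (SemidirectProduct.left (Ψ (w' : K5hat) : K5nG G)) := by
      rw [h3]
      rfl
    rw [h4, h2, map_one]
    rfl
  refine ⟨MonoidHom.mk' (fun w : kN => SemidirectProduct.left (Ψ (w : K5hat) : K5nG G) a) hmul,
    ?_, ?_⟩
  · have h3 : Continuous (fun w : kN => Ψ (w : K5hat)) := Ψ.continuous.comp continuous_subtype_val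
    have h4 : IsLocallyConstant (fun w : kN => (Ψ (w : K5hat) : K5nG G)) :=
      (IsLocallyConstant.iff_continuous _).2 h3
    exact h4.comp (fun s : K5nG G => SemidirectProduct.left s a)
  · intro i
    fin_cases i
    · change SemidirectProduct.left (Ψ (ka 4) : K5nG G) a = a 0
      rw [hΨ]
      rfl
    · change SemidirectProduct.left (Ψ (ka 3) : K5nG G) a = a 1
      rw [hΨ]
      rfl
    · change SemidirectProduct.left (Ψ (k5b ka) : K5nG G) a = a 2
      have h3 : Ψ (k5b ka) = k5b (k5nb G) := by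
        rw [k5b, map_mul, map_inv, map_mul, hΨ, hΨ, hΨ]
        rfl
      rw [h3, k5nb_b]
      rfl

/-! ## Density -/

/-- the closed subgroup generated by the three generators -/
noncomputable def k5nC : Subgroup K5hat :=
  (Subgroup.closure {ka 4, ka 3, k5b ka}).topologicalClosure

theorem k5nC_isClosed : IsClosed (k5nC : Set K5hat) := Subgroup.isClosed_topologicalClosure _

theorem k5nC_4 : ka 4 ∈ k5nC :=
  Subgroup.le_topologicalClosure _ (Subgroup.subset_closure (by simp))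

theorem k5nC_3 : ka 3 ∈ k5nC :=
  Subgroup.le_topologicalClosure _ (Subgroup.subset_closure (by simp))

theorem k5nC_b : k5b ka ∈ k5nC :=
  Subgroup.le_topologicalClosure _ (Subgroup.subset_closure (by simp))

theorem k5nC_le (T : Subgroup K5hat) (hT : IsClosed (T : Set K5hat)) (h4 : ka 4 ∈ T)
    (h3 : ka 3 ∈ T) (hb : k5b ka ∈ T) : k5nC ≤ T := by
  apply Subgroup.topologicalClosure_minimal _ _ hT
  rw [Subgroup.closure_le]
  rintro w (rfl | rfl | rfl)
  · exact h4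
  · exact h3
  · exact hb

theorem k5n_conj (u : K5hat) (h4 : u * ka 4 * u⁻¹ ∈ k5nC) (h3 : u * ka 3 * u⁻¹ ∈ k5nC)
    (hb : u * k5b ka * u⁻¹ ∈ k5nC) (w : K5hat) (hw : w ∈ k5nC) : u * w * u⁻¹ ∈ k5nC := by
  have h : k5nC ≤ k5nC.comap (MulAut.conj u).toMonoidHom := by
    apply k5nC_le
    · have h1 : ((k5nC.comap (MulAut.conj u).toMonoidHom : Subgroup K5hat) : Set K5hat) =
          (fun w => u * w * u⁻¹) ⁻¹' (k5nC : Set K5hat) := rfl
      rw [h1]
      exact k5nC_isClosed.preimage (by fun_prop)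
    · exact h4
    · exact h3
    · exact hb
  exact h hw

/-- the normalizer -/
noncomputable def k5nT : Subgroup K5hat where
  carrier := {u | ∀ w ∈ k5nC, u * w * u⁻¹ ∈ k5nC ∧ u⁻¹ * w * u ∈ k5nC}
  one_mem' := by
    intro w hw
    simpa using hw
  mul_mem' := by
    intro u v hu hv w hw
    refine ⟨?_, ?_⟩
    · have h := (hu _ (hv w hw).1).1
      have e : u * (v * w * v⁻¹) * u⁻¹ = u * v * w * (u * v)⁻¹ := by group
      rwa [e] at h
    · have h := (hv _ (hu w hw).2).2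
      have e : v⁻¹ * (u⁻¹ * w * u) * v = (u * v)⁻¹ * w * (u * v) := by group
      rwa [e] at h
  inv_mem' := by
    intro u hu w hw
    rw [inv_inv]
    exact ⟨(hu w hw).2, (hu w hw).1⟩

theorem k5nT_isClosed : IsClosed (k5nT : Set K5hat) := by
  have h : (k5nT : Set K5hat) = ⋂ w, ⋂ (_ : w ∈ k5nC),
      (((fun u => u * w * u⁻¹) ⁻¹' (k5nC : Set K5hat)) ∩
        ((fun u => u⁻¹ * w * u) ⁻¹' (k5nC : Set K5hat))) := by
    ext u
    simp only [Set.mem_iInter]
    rfl
  rw [h]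
  exact isClosed_iInter fun w => isClosed_iInter fun _ =>
    (k5nC_isClosed.preimage (by fun_prop)).inter (k5nC_isClosed.preimage (by fun_prop))

theorem k5n_memT (u : K5hat) (h4 : u * ka 4 * u⁻¹ ∈ k5nC) (h3 : u * ka 3 * u⁻¹ ∈ k5nC)
    (hb : u * k5b ka * u⁻¹ ∈ k5nC) (h4' : u⁻¹ * ka 4 * u ∈ k5nC)
    (h3' : u⁻¹ * ka 3 * u ∈ k5nC) (hb' : u⁻¹ * k5b ka * u ∈ k5nC) : u ∈ k5nT := by
  intro w hw
  refine ⟨k5n_conj u h4 h3 hb w hw, ?_⟩
  have h := k5n_conj u⁻¹ (by rwa [inv_inv]) (by rwa [inv_inv]) (by rwa [inv_inv]) w hw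
  rwa [inv_inv] at h

theorem k5n_conj_eq {G : Type} [Group G] {u v : G} (h : Commute u v) : u * v * u⁻¹ = v := by
  rw [h.eq, mul_inv_cancel_right]

theorem k5n_conj_inv {G : Type} [Group G] {u v w : G} (h : Commute u v)
    (h1 : u * w * u⁻¹ = v * w * v⁻¹) : u⁻¹ * w * u = v⁻¹ * w * v := by
  have h2 : v⁻¹ * (u * w * u⁻¹) * v = w := by
    rw [h1]
    group
  have h3 : u⁻¹ * v⁻¹ = v⁻¹ * u⁻¹ := (h.inv_inv).eq
  calc u⁻¹ * w * u = u⁻¹ * (v⁻¹ * (u * w * u⁻¹) * v) * u := by rw [h2]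
    _ = (u⁻¹ * v⁻¹) * u * w * (u⁻¹ * (v * u)) := by group
    _ = v⁻¹ * u⁻¹ * u * w * (u⁻¹ * (u * v)) := by rw [h3, h.eq]
    _ = v⁻¹ * w * v := by group

theorem k5nT_top : k5nT = ⊤ := by
  have hb := ka_isK5
  have c02 : Commute (ka 0) (ka 2) := hb.comm 0
  have c03 : Commute (ka 0) (ka 3) := (hb.comm 3).symm
  have c13 : Commute (ka 1) (ka 3) := hb.comm 1
  have c14 : Commute (ka 1) (ka 4) := (hb.comm 4).symm
  have c0b : Commute (ka 0) (k5b ka) := by
    rw [k5b]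
    exact ((c02.mul_right c03).inv_right).mul_right (Commute.refl _)
  have e4 : ka 0 * ka 4 * (ka 0)⁻¹ = (ka 3 * k5b ka) * ka 4 * (ka 3 * k5b ka)⁻¹ :=
    k5_conj04 hb
  have eb : ka 1 * k5b ka * (ka 1)⁻¹ = (ka 4 * ka 3) * k5b ka * (ka 4 * ka 3)⁻¹ :=
    k5_conj1b hb
  have hC : k5nC ≤ k5nT := by
    intro u hu w hw
    exact ⟨mul_mem (mul_mem hu hw) (inv_mem hu), mul_mem (mul_mem (inv_mem hu) hw) hu⟩
  have h3b : ka 3 * k5b ka ∈ k5nC := mul_mem k5nC_3 k5nC_b
  have h43 : ka 4 * ka 3 ∈ k5nC := mul_mem k5nC_4 k5nC_3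
  have h0 : ka 0 ∈ k5nT := by
    apply k5n_memT
    · rw [e4]
      exact mul_mem (mul_mem h3b k5nC_4) (inv_mem h3b)
    · rw [k5n_conj_eq c03]
      exact k5nC_3
    · rw [k5n_conj_eq c0b]
      exact k5nC_b
    · rw [k5n_conj_inv (c03.mul_right c0b) e4]
      exact mul_mem (mul_mem (inv_mem h3b) k5nC_4) h3b
    · have h := k5n_conj_eq c03.inv_left
      rw [inv_inv] at h
      rw [h]
      exact k5nC_3
    · have h := k5n_conj_eq c0b.inv_left
      rw [inv_inv] at h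
      rw [h]
      exact k5nC_b
  have h1 : ka 1 ∈ k5nT := by
    apply k5n_memT
    · rw [k5n_conj_eq c14]
      exact k5nC_4
    · rw [k5n_conj_eq c13]
      exact k5nC_3
    · rw [eb]
      exact mul_mem (mul_mem h43 k5nC_b) (inv_mem h43)
    · have h := k5n_conj_eq c14.inv_left
      rw [inv_inv] at h
      rw [h]
      exact k5nC_4
    · have h := k5n_conj_eq c13.inv_left
      rw [inv_inv] at h
      rw [h]
      exact k5nC_3
    · rw [k5n_conj_inv (c14.mul_right c13) eb]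
      exact mul_mem (mul_mem (inv_mem h43) k5nC_b) h43
  apply dense_K5hat _ k5nT_isClosed
  intro i
  fin_cases i
  · exact h0
  · exact h1
  · have h2 : ka 2 = ka 0 * (ka 3 * k5b ka)⁻¹ := by
      rw [k5b]
      group
    change ka 2 ∈ k5nT
    rw [h2]
    exact mul_mem h0 (inv_mem (hC h3b))
  · exact hC k5nC_3
  · exact hC k5nC_4

theorem k5n_normal (u w : K5hat) (hw : w ∈ k5nC) : u * w * u⁻¹ ∈ k5nC := by
  have hu : u ∈ k5nT := k5nT_top ▸ Subgroup.mem_top u
  exact (hu w hw).1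

theorem k5n_dense (S : Subgroup kN) (hS : IsClosed (S : Set kN)) (h : ∀ i, knc i ∈ S) :
    S = ⊤ := by
  have h1 : ∀ w : K5hat, w⁻¹ * ev (ka 0) (ka 1) (kp5 w) ∈ k5nC := by
    let T : Subgroup K5hat :=
      { carrier := {w | w⁻¹ * ev (ka 0) (ka 1) (kp5 w) ∈ k5nC}
        one_mem' := by
          change (1 : K5hat)⁻¹ * ev (ka 0) (ka 1) (kp5 1) ∈ k5nC
          rw [map_one, map_one, inv_one, one_mul]
          exact one_mem _
        mul_mem' := by
          intro v w hv hw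
          change (v * w)⁻¹ * ev (ka 0) (ka 1) (kp5 (v * w)) ∈ k5nC
          have hv' : v⁻¹ * ev (ka 0) (ka 1) (kp5 v) ∈ k5nC := hv
          have hw' : w⁻¹ * ev (ka 0) (ka 1) (kp5 w) ∈ k5nC := hw
          have h2 := mul_mem hw' (k5n_normal (ev (ka 0) (ka 1) (kp5 w))⁻¹ _ hv')
          have h3 : w⁻¹ * ev (ka 0) (ka 1) (kp5 w) * ((ev (ka 0) (ka 1) (kp5 w))⁻¹ *
              (v⁻¹ * ev (ka 0) (ka 1) (kp5 v)) * ((ev (ka 0) (ka 1) (kp5 w))⁻¹)⁻¹) =
              (v * w)⁻¹ * ev (ka 0) (ka 1) (kp5 (v * w)) := by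
            rw [map_mul, map_mul]
            group
          rwa [h3] at h2
        inv_mem' := by
          intro v hv
          change (v⁻¹)⁻¹ * ev (ka 0) (ka 1) (kp5 v⁻¹) ∈ k5nC
          have hv' : v⁻¹ * ev (ka 0) (ka 1) (kp5 v) ∈ k5nC := hv
          have h2 := k5n_normal v _ (inv_mem hv')
          have h3 : v * (v⁻¹ * ev (ka 0) (ka 1) (kp5 v))⁻¹ * v⁻¹ =
              (v⁻¹)⁻¹ * ev (ka 0) (ka 1) (kp5 v⁻¹) := by
            rw [map_inv, map_inv]
            group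
          rwa [h3] at h2 }
    have hT : IsClosed (T : Set K5hat) := by
      have h2 : (T : Set K5hat) =
          (fun w => w⁻¹ * ev (ka 0) (ka 1) (kp5 w)) ⁻¹' (k5nC : Set K5hat) := rfl
      rw [h2]
      apply k5nC_isClosed.preimage
      exact continuous_inv.mul ((ev (ka 0) (ka 1)).continuous.comp kp5.continuous)
    have hkp : ∀ i, kp5 (ka i) = (![gx, gy, gx, 1, 1] : Fin 5 → F2hat) i := fun i =>
      evK_ka _ kp5_isK5 i
    have hT2 : T = ⊤ := by
      apply dense_K5hat T hT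
      intro i
      change (ka i)⁻¹ * ev (ka 0) (ka 1) (kp5 (ka i)) ∈ k5nC
      rw [hkp]
      fin_cases i
      · change (ka 0)⁻¹ * ev (ka 0) (ka 1) gx ∈ k5nC
        rw [ev_gx, inv_mul_cancel]
        exact one_mem _
      · change (ka 1)⁻¹ * ev (ka 0) (ka 1) gy ∈ k5nC
        rw [ev_gy, inv_mul_cancel]
        exact one_mem _
      · change (ka 2)⁻¹ * ev (ka 0) (ka 1) gx ∈ k5nC
        rw [ev_gx]
        have h2 : (ka 2)⁻¹ * ka 0 = ka 3 * k5b ka := by
          rw [k5b]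
          group
        rw [h2]
        exact mul_mem k5nC_3 k5nC_b
      · change (ka 3)⁻¹ * ev (ka 0) (ka 1) 1 ∈ k5nC
        rw [map_one, mul_one]
        exact inv_mem k5nC_3
      · change (ka 4)⁻¹ * ev (ka 0) (ka 1) 1 ∈ k5nC
        rw [map_one, mul_one]
        exact inv_mem k5nC_4
    intro w
    have hw : w ∈ T := hT2 ▸ Subgroup.mem_top w
    exact hw
  have h2 : k5nC ≤ S.map kN.subtype := by
    apply k5nC_le
    · rw [Subgroup.coe_map]
      exact (kN_isClosed.isClosedEmbedding_subtypeVal.isClosedMap) _ hS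
    · exact ⟨knc 0, h 0, rfl⟩
    · exact ⟨knc 1, h 1, rfl⟩
    · exact ⟨knc 2, h 2, rfl⟩
  rw [eq_top_iff]
  intro w _
  have h3 := h1 (w : K5hat)
  rw [(mem_kN _).1 w.2, map_one, mul_one] at h3
  have h4 : (w : K5hat) ∈ k5nC := by
    have h5 := inv_mem h3
    rwa [inv_inv] at h5
  obtain ⟨v, hv, hvw⟩ := h2 h4
  have h5 : v = w := Subtype.ext hvw
  rwa [← h5]

theorem kN_free : FreeProfN kN knc where
  dense := k5n_dense
  lift := k5n_lift

end Pool.Agent.GTT
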