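import Pool.Agent.Lib.MP_2cc432_al.TreeM
import Pool.Agent.Lib.MP_2cc432_al.Defs3
import Pool.Agent.Lib.MP_2cc432_al.FreeN

/-!
# Module RANK: trees for free profinite groups of rank 2 and 3
-/

open Filter Topology Finset

namespace Pool.Agent.GTT

section Ranks

variable {P : Type} [Group P] [TopologicalSpace P] [IsTopologicalGroup P] [CompactSpace P]
  [T2Space P] [TotallyDisconnectedSpace P]

omit [IsTopologicalGroup P] [CompactSpace P] [T2Space P] [TotallyDisconnectedSpace P] in
/-- RANK -/
theorem FreeProf.toN {x y : P} (h : FreeProf P x y) : FreeProfN P ![x, y] := by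
  refine ⟨fun S hS hc => h.dense S hS (hc 0) (hc 1), fun G _ _ a => ?_⟩
  obtain ⟨φ, hφ, h0, h1⟩ := h.lift G (a 0) (a 1)
  refine ⟨φ, hφ, fun i => ?_⟩
  fin_cases i
  · exact h0
  · exact h1

omit [CompactSpace P] [T2Space P] [TotallyDisconnectedSpace P] in
theorem rank_invariant {n : ℕ} {c : Fin n → P} (h : FreeProfN P c) (A : Type) (f : P → A)
    (hf : IsLocallyConstant f) (hc : ∀ i g, f (g * c i) = f g) (a b : P) : f a = f b := by
  let S : Subgroup P :=
    { carrier := {k | ∀ g, f (g * k) = f g}
      mul_mem' := by
        intro k l hk hl g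
        rw [← mul_assoc, hl, hk]
      one_mem' := fun g => by rw [mul_one]
      inv_mem' := by
        intro k hk g
        have := hk (g * k⁻¹)
        rw [inv_mul_cancel_right] at this
        exact this.symm }
  have hS : IsClosed (S : Set P) := by
    have : (S : Set P) = ⋂ g : P, {k | f (g * k) = f g} := by
      ext k
      simp only [Set.mem_iInter, Set.mem_ofPred_eq]
      rfl
    rw [this]
    refine isClosed_iInter fun g => ?_
    have h1 : IsLocallyConstant fun k => f (g * k) := hf.comp_continuous (continuous_const_mul g)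
    exact (h1.isClopen_fiber (f g)).isClosed
  have hT := h.dense S hS hc
  have h1 : a⁻¹ * b ∈ S := by
    rw [hT]
    exact Subgroup.mem_top _
  have h2 := h1 a
  rw [mul_inv_cancel_left] at h2
  exact h2.symm

/-- the two edge maps -/
def rankR (c : Fin 3 → P) (e : Fin 2) (y : P × Bool) : P × Bool :=
  if e = 0 then (y.1 * (if y.2 then c 1 else c 0), y.2)
  else (y.1 * (if y.2 then c 2 else 1), !y.2)

omit [TopologicalSpace P] [IsTopologicalGroup P] [CompactSpace P] [T2Space P]
  [TotallyDisconnectedSpace P] in
theorem rankR_0f (c : Fin 3 → P) (u : P) : rankR c 0 (u, false) = (u * c 0, false) := by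
  simp [rankR]

omit [TopologicalSpace P] [IsTopologicalGroup P] [CompactSpace P] [T2Space P]
  [TotallyDisconnectedSpace P] in
theorem rankR_0t (c : Fin 3 → P) (u : P) : rankR c 0 (u, true) = (u * c 1, true) := by
  simp [rankR]

omit [TopologicalSpace P] [IsTopologicalGroup P] [CompactSpace P] [T2Space P]
  [TotallyDisconnectedSpace P] in
theorem rankR_1f (c : Fin 3 → P) (u : P) : rankR c 1 (u, false) = (u, true) := by
  simp [rankR]

omit [TopologicalSpace P] [IsTopologicalGroup P] [CompactSpace P] [T2Space P]
  [TotallyDisconnectedSpace P] in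
theorem rankR_1t (c : Fin 3 → P) (u : P) : rankR c 1 (u, true) = (u * c 2, false) := by
  simp [rankR]

omit [CompactSpace P] [T2Space P] [TotallyDisconnectedSpace P] in
theorem rankR_cont (c : Fin 3 → P) (e : Fin 2) : Continuous (rankR c e) := by
  have h2 : Continuous fun y : P × Bool => y.2 := continuous_snd
  have h3 : ∀ a b : P, Continuous fun y : P × Bool => if y.2 then a else b := by
    intro a b
    have h4 : Continuous fun t : Bool => if t then a else b := continuous_of_discreteTopology
    exact h4.comp h2
  have h5 : Continuous fun t : Bool => !t := continuous_of_discreteTopology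
  by_cases he : e = 0
  · subst he
    exact (continuous_fst.mul (h3 _ _)).prodMk continuous_snd
  · have h6 : rankR c e = fun y : P × Bool => (y.1 * (if y.2 then c 2 else 1), !y.2) := by
      funext y
      simp only [rankR, if_neg he]
    rw [h6]
    exact (continuous_fst.mul (h3 _ _)).prodMk (h5.comp h2)

omit [TopologicalSpace P] [IsTopologicalGroup P] [CompactSpace P] [T2Space P]
  [TotallyDisconnectedSpace P] in
theorem rankR_act (c : Fin 3 → P) (e : Fin 2) (g : P) (y : P × Bool) :
    rankR c e (g * y.1, y.2) = (g * (rankR c e y).1, (rankR c e y).2) := by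
  unfold rankR
  split_ifs <;> simp [mul_assoc]

/-- RANK: `Tree` for open subgroups of a free profinite group of rank 3, by the isomorphism with
an open subgroup of index 2 of the group of rank 2 -/
theorem tree_rank3 {c : Fin 3 → P} (h : FreeProfN P c) (V : Subgroup P)
    (hV : IsOpen (V : Set P)) : Nonempty (Tree V 2) := by
  obtain ⟨κ, hκ, hκV, -⟩ := exists_section V hV
  refine ⟨{
    Y := P × Bool
    y₀ := (1, false)
    act := fun v y => ((v : P) * y.1, y.2)
    cont := ((continuous_subtype_val.comp continuous_fst).mul
      (continuous_fst.comp continuous_snd)).prodMk (continuous_snd.comp continuous_snd)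
    act_one := fun y => Prod.ext (one_mul y.1) rfl
    act_mul := fun v w y => Prod.ext (mul_assoc _ _ _) rfl
    κ := fun y => κ y.1
    κ_cont := hκ.comp continuous_fst
    κ_act := fun v y => hκV v y.1
    r := rankR c
    r_cont := rankR_cont c
    r_act := fun e v y => rankR_act c e v y
    T0 := ?_
    T1 := ?_ }⟩
  · intro A f hf hr
    have hff : IsLocallyConstant fun u : P => f (u, false) :=
      hf.comp_continuous (continuous_id.prodMk continuous_const)
    have h1 : ∀ u, f (u, true) = f (u, false) := by
      intro u
      have := hr 1 (u, false)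
      rwa [rankR_1f] at this
    have hinv : ∀ (i : Fin 3) (u : P), f (u * c i, false) = f (u, false) := by
      intro i u
      fin_cases i
      · have := hr 0 (u, false)
        rwa [rankR_0f] at this
      · have := hr 0 (u, true)
        rwa [rankR_0t, h1, h1] at this
      · have := hr 1 (u, true)
        rwa [rankR_1t, h1] at this
    have hcon : ∀ u u' : P, f (u, false) = f (u', false) :=
      rank_invariant h A (fun u => f (u, false)) hff hinv
    have hall : ∀ (y : P × Bool), f y = f (y.1, false) := by
      rintro ⟨u, _ | _⟩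
      · rfl
      · exact h1 u
    intro y y'
    rw [hall y, hall y']
    exact hcon _ _
  · intro A _ hA g hg
    have hgf : ∀ (e : Fin 2) (t : Bool), IsLocallyConstant fun u : P => g e (u, t) := fun e t =>
      (hg e).comp_continuous (continuous_id.prodMk continuous_const)
    have hgc : IsLocallyConstant fun u : P => g 1 (u * c 1, false) :=
      (hg 1).comp_continuous ((continuous_mul_const (c 1)).prodMk continuous_const)
    obtain ⟨δ, hδ, hc⟩ := exists_derN h (T := LocallyConstant P A) (N := 2) (by norm_num)
      (fun t => by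
        ext z
        exact hA (t z))
      (treeρ P A) (treeρ_smooth A)
      ![⟨fun u => g 0 (u, false), hgf 0 false⟩,
        ⟨fun u => g 0 (u, true) - g 1 (u * c 1, false) + g 1 (u, false),
          ((hgf 0 true).sub hgc).add (hgf 1 false)⟩,
        ⟨fun u => g 1 (u, true) + g 1 (u, false), (hgf 1 true).add (hgf 1 false)⟩]
    have key : ∀ (k a : P), δ (k * a) 1 - δ k 1 = δ a k := by
      intro k a
      rw [hδ.mul]
      change δ k 1 + δ a (1 * k) - δ k 1 = δ a k
      rw [one_mul, add_sub_cancel_left]
    have hF : IsLocallyConstant fun k => δ k 1 := hδ.lc.comp fun t : LocallyConstant P A => t 1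
    have k0 : ∀ u, δ (u * c 0) 1 - δ u 1 = g 0 (u, false) := by
      intro u
      rw [key, hc 0]
      rfl
    have k1 : ∀ u, δ (u * c 1) 1 - δ u 1 =
        g 0 (u, true) - g 1 (u * c 1, false) + g 1 (u, false) := by
      intro u
      rw [key, hc 1]
      rfl
    have k2 : ∀ u, δ (u * c 2) 1 - δ u 1 = g 1 (u, true) + g 1 (u, false) := by
      intro u
      rw [key, hc 2]
      rfl
    let Φ : P × Bool → A := fun y => if y.2 then δ y.1 1 + g 1 (y.1, false) else δ y.1 1
    have hΦf : ∀ u, Φ (u, false) = δ u 1 := fun u => rfl
    have hΦt : ∀ u, Φ (u, true) = δ u 1 + g 1 (u, false) := fun u => rfl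
    refine ⟨Φ, ?_, ?_⟩
    · have h1 : IsLocallyConstant fun y : P × Bool => δ y.1 1 := hF.comp_continuous continuous_fst
      have h2 : IsLocallyConstant fun y : P × Bool => g 1 (y.1, false) :=
        (hg 1).comp_continuous (continuous_fst.prodMk continuous_const)
      have h3 : IsLocallyConstant fun y : P × Bool => y.2 :=
        (IsLocallyConstant.iff_continuous _).2 continuous_snd
      exact ((h1.prodMk h2).prodMk h3).comp
        (fun q : (A × A) × Bool => if q.2 then q.1.1 + q.1.2 else q.1.1)
    · refine Fin.forall_fin_two.2 ⟨?_, ?_⟩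
      · rintro ⟨u, _ | _⟩
        · rw [rankR_0f, hΦf, hΦf, k0]
        · rw [rankR_0t, hΦt, hΦt]
          have e1 : δ (u * c 1) 1 = δ u 1 +
              (g 0 (u, true) - g 1 (u * c 1, false) + g 1 (u, false)) := by
            rw [← k1]
            abel
          rw [e1]
          abel
      · rintro ⟨u, _ | _⟩
        · rw [rankR_1f, hΦt, hΦf]
          abel
        · rw [rankR_1t, hΦf, hΦt]
          have e1 : δ (u * c 2) 1 = δ u 1 + (g 1 (u, true) + g 1 (u, false)) := by
            rw [← k2]
            abel
          rw [e1]
          abel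

omit [IsTopologicalGroup P] [CompactSpace P] [T2Space P] [TotallyDisconnectedSpace P] in
/-- RANK -/
theorem Tree.of_top (tr : Tree (⊤ : Subgroup P) 2) : Nonempty (Tree P 2) := by
  let j : P → (⊤ : Subgroup P) := fun g => ⟨g, Subgroup.mem_top g⟩
  have hj : Continuous j := continuous_id.subtype_mk _
  exact ⟨{
    Y := tr.Y
    y₀ := tr.y₀
    act := fun g y => tr.act (j g) y
    cont := tr.cont.comp ((hj.comp continuous_fst).prodMk continuous_snd)
    act_one := fun y => tr.act_one y
    act_mul := fun g h y => tr.act_mul (j g) (j h) y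
    κ := fun y => (tr.κ y : P)
    κ_cont := continuous_subtype_val.comp tr.κ_cont
    κ_act := fun g y => by
      rw [tr.κ_act]
      rfl
    r := tr.r
    r_cont := tr.r_cont
    r_act := fun e g y => tr.r_act e (j g) y
    T0 := tr.T0
    T1 := tr.T1 }⟩

end Ranks

end Pool.Agent.GTT
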