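import Pool.Agent.Lib.MP_2cc432_al.Root
import Pool.Agent.Lib.MP_2cc432_al.K5F3
import Pool.Agent.Lib.MP_2cc432_al.K5N
import Pool.Agent.Lib.MP_2cc432_al.FixG
import Pool.Agent.Lib.MP_2cc432_al.Rank

/-!
# The involutions of `K5hat` have no fixed points
-/

open CategoryTheory

namespace Pool.Agent.GTT

section K5FIX

/-- the four cusps of `kN` in `K5hat` -/
noncomputable def k5fixC : Option (Fin 3) → K5hat
  | none => k5d ka
  | some i => ![ka 4, ka 3, k5b ka] i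

theorem k5fix_cusp (i : Option (Fin 3)) : ((cusp knc i : kN) : K5hat) = k5fixC i := by
  rcases i with _ | i
  · change (((List.ofFn knc).prod)⁻¹ : K5hat) = k5d ka
    rw [k5d_eq ka_isK5]
    simp [List.ofFn_succ, knc, mul_assoc]
  · change ((knc i : kN) : K5hat) = k5fixC (some i)
    fin_cases i <;> rfl

theorem k5fix_core (k : K5hat →ₜ* K5hat) (hk : ∀ w, k (k w) = w) (hN : ∀ w ∈ kN, k w ∈ kN)
    (π : Option (Fin 3) → Option (Fin 3)) (hπ : ∀ i, π (π i) = i)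
    (φ : Option (Fin 3) → K5hat) (hφN : ∀ i, φ i ∈ kN)
    (hcusp : ∀ i, k (k5fixC i) = (φ i)⁻¹ * (k5fixC (π i))⁻¹ * φ i)
    (hinv : ∀ i, φ (π i) * k (φ i) = 1) (i₀ : Option (Fin 3)) (h0 : π i₀ = i₀)
    (h1 : φ i₀ = 1) (u : K5hat) (huN : u ∈ kN) (hu : k u = u) : u = 1 := by
  have hVF : ∀ g, mkInv k hk g ∈ kN ↔ g ∈ kN := by
    intro g
    rw [mkInv_apply]
    exact ⟨fun h => by rw [← hk g]; exact hN _ h, hN g⟩
  have : CompactSpace kN := isCompact_iff_compactSpace.1 kN_isClosed.isCompact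
  let S : RealStr knc (resF (mkInv k hk) kN hVF) :=
    { π := π
      f := fun i => ⟨φ i, hφN i⟩
      hF := fun g => Subtype.ext (hk g.1)
      cusp_F := fun i => Subtype.ext (by
        change k ((cusp knc i : kN) : K5hat) =
          (φ i)⁻¹ * ((cusp knc (π i) : kN) : K5hat)⁻¹ * φ i
        rw [k5fix_cusp, k5fix_cusp]
        exact hcusp i)
      inv := fun i => Subtype.ext (hinv i)
      ππ := hπ }
  obtain ⟨tr⟩ := tree_rank3 kN_free (⊤ : Subgroup kN) isOpen_univ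
  obtain ⟨tr'⟩ := Tree.of_top tr
  have h := fixed_trivial S kN_free tr' (fun V hV => tree_rank3 kN_free V hV) i₀ h0
    (Subtype.ext h1) ⟨u, huN⟩ (Subtype.ext hu)
  exact congrArg Subtype.val h

variable {f : F2hat}

/-! ### the elements `h`, `hB`, `hD` -/

/-- `f₂₃ f₄₀` -/
noncomputable def k5fixh (f : F2hat) : K5hat := ev (ka 2) (ka 3) f * ev (ka 4) (ka 0) f

/-- `a₃ f(B, a₃)` -/
noncomputable def k5fixB (f : F2hat) : K5hat := ka 3 * ev (k5b ka) (ka 3) f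

/-- `f₂₃ a₀ f(D, a₀)` -/
noncomputable def k5fixX (f : F2hat) : K5hat :=
  ev (ka 2) (ka 3) f * ka 0 * ev (k5d ka) (ka 0) f

theorem k5fix_c02 : Commute (ka 0) (ka 2) := ka_isK5.comm 0

theorem k5fix_c03 : Commute (ka 0) (ka 3) := (ka_isK5.comm 3).symm

theorem k5fix_c24 : Commute (ka 2) (ka 4) := ka_isK5.comm 2

theorem k5fix_c2D : Commute (ka 2) (k5d ka) := by
  unfold k5d
  exact ((k5fix_c24.mul_right k5fix_c02.symm).inv_right).mul_right (Commute.refl _)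

theorem k5fix_kp5 (hf : IsInv f) (a b : K5hat) (h : Commute (kp5 a) (kp5 b)) :
    kp5 (ev a b f) = 1 := by
  rw [map_ev]
  exact ev_commute_one h hf.comm

theorem k5fix_kp5_0 : kp5 (ka 0) = gx := evK_ka _ _ 0

theorem k5fix_kp5_2 : kp5 (ka 2) = gx := evK_ka _ _ 2

theorem k5fix_kp5_3 : kp5 (ka 3) = 1 := evK_ka _ _ 3

theorem k5fix_kp5_4 : kp5 (ka 4) = 1 := evK_ka _ _ 4

theorem k5fix_kp5_b : kp5 (k5b ka) = 1 := kb_mem

theorem k5fix_kp5_d : kp5 (k5d ka) = 1 := by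
  rw [k5d, map_mul, map_inv, map_mul, k5fix_kp5_0, k5fix_kp5_2, k5fix_kp5_4]
  simp

theorem k5fix_h_mem (hf : IsInv f) : k5fixh f ∈ kN := by
  rw [mem_kN, k5fixh, map_mul, k5fix_kp5 hf, k5fix_kp5 hf, one_mul]
  · rw [k5fix_kp5_4]
    exact Commute.one_left _
  · rw [k5fix_kp5_3]
    exact Commute.one_right _

theorem k5fix_B_mem (hf : IsInv f) : k5fixB f ∈ kN := by
  rw [mem_kN, k5fixB, map_mul, k5fix_kp5_3, one_mul, k5fix_kp5 hf]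
  rw [k5fix_kp5_3]
  exact Commute.one_right _

theorem k5fix_D_mem (hf : IsInv f) : k5fixX f * (ka 2)⁻¹ ∈ kN := by
  rw [mem_kN, k5fixX, map_mul, map_mul, map_mul, map_inv, k5fix_kp5 hf, k5fix_kp5 hf,
    k5fix_kp5_0, k5fix_kp5_2, one_mul, mul_one, mul_inv_cancel]
  · rw [k5fix_kp5_d]
    exact Commute.one_left _
  · rw [k5fix_kp5_3]
    exact Commute.one_right _

theorem k5fix_F23 (hf : IsInv f) : kF5 hf (ev (ka 2) (ka 3) f) = (ev (ka 2) (ka 3) f)⁻¹ := by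
  rw [kF5_ev23 hf, gtI_self hf, map_inv]
  group

theorem k5fix_Fh (hf : IsInv f) : kF5 hf (k5fixh f) = (k5fixh f)⁻¹ := by
  rw [k5fixh, map_mul, k5fix_F23 hf, kF5_ev40 hf, gtI_self hf, map_inv]
  group

theorem k5fix_F0 (hf : IsInv f) : kF5 hf (ka 0) = (ka 0)⁻¹ := evK_ka _ _ 0

theorem k5fix_F2 (hf : IsInv f) :
    kF5 hf (ka 2) = ev (ka 2) (ka 3) f * (ka 2)⁻¹ * (ev (ka 2) (ka 3) f)⁻¹ := evK_ka _ _ 2

theorem k5fix_F3 (hf : IsInv f) : kF5 hf (ka 3) = (ka 3)⁻¹ := evK_ka _ _ 3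

theorem k5fix_F4 (hf : IsInv f) :
    kF5 hf (ka 4) = k5fixh f * (ka 4)⁻¹ * (k5fixh f)⁻¹ := evK_ka _ _ 4

theorem k5fix_FB (hf : IsInv f) :
    kF5 hf (k5b ka) = k5fixB f * (k5b ka)⁻¹ * (k5fixB f)⁻¹ := kF5_b hf

theorem k5fix_FD (hf : IsInv f) :
    kF5 hf (k5d ka) = k5fixX f * (k5d ka)⁻¹ * (k5fixX f)⁻¹ := kF5_d hf

theorem k5fix_FhB (hf : IsInv f) : kF5 hf (k5fixB f) = (k5fixB f)⁻¹ := by
  have h := ev_gtI (f := f) (kF5 hf) (k5fixB f) (k5b ka) (ka 3) (k5fix_FB hf) (by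
    rw [k5fix_F3 hf, k5fixB]
    group) f
  conv_lhs => rw [k5fixB, map_mul, h, k5fix_F3 hf, gtI_self hf, map_inv]
  rw [k5fixB]
  group

theorem k5fix_c0_23 : Commute (ka 0) (ev (ka 2) (ka 3) f) :=
  commute_ev k5fix_c02 k5fix_c03 f

theorem k5fix_FX (hf : IsInv f) : kF5 hf (k5fixX f * (ka 2)⁻¹) = (k5fixX f * (ka 2)⁻¹)⁻¹ := by
  have hc : Commute (ka 0) (ev (ka 2) (ka 3) f) := k5fix_c0_23
  have hc' : ev (ka 2) (ka 3) f * (ka 0)⁻¹ * (ev (ka 2) (ka 3) f)⁻¹ = (ka 0)⁻¹ := by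
    rw [← (hc.inv_left).eq, mul_assoc, mul_inv_cancel, mul_one]
  have h := ev_gtI (f := f) (kF5 hf) (k5fixX f) (k5d ka) (ka 0) (k5fix_FD hf) (by
    rw [k5fix_F0 hf, k5fixX]
    have e : ev (ka 2) (ka 3) f * ka 0 * ev (k5d ka) (ka 0) f *
        ((ev (k5d ka) (ka 0) f)⁻¹ * (ka 0)⁻¹ * ev (k5d ka) (ka 0) f) *
        (ev (ka 2) (ka 3) f * ka 0 * ev (k5d ka) (ka 0) f)⁻¹ =
        ev (ka 2) (ka 3) f * (ka 0)⁻¹ * (ev (ka 2) (ka 3) f)⁻¹ := by group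
    rw [e, hc']) f
  have hd : Commute (ka 2) ((ev (k5d ka) (ka 0) f)⁻¹ * (ka 0)⁻¹) := by
    have h1 : Commute (ka 2) (ev (k5d ka) (ka 0) f) :=
      commute_ev k5fix_c2D k5fix_c02.symm f
    exact h1.inv_right.mul_right k5fix_c02.symm.inv_right
  have e1 : kF5 hf (k5fixX f * (ka 2)⁻¹) = (ev (ka 2) (ka 3) f)⁻¹ * (ka 0)⁻¹ *
      (k5fixX f * (ev (k5d ka) (ka 0) f)⁻¹ * (k5fixX f)⁻¹) *
      (ev (ka 2) (ka 3) f * ka 2 * (ev (ka 2) (ka 3) f)⁻¹) := by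
    conv_lhs => rw [map_mul, map_inv, k5fix_F2 hf]
    have e2 : kF5 hf (k5fixX f) = (ev (ka 2) (ka 3) f)⁻¹ * (ka 0)⁻¹ *
        (k5fixX f * (ev (k5d ka) (ka 0) f)⁻¹ * (k5fixX f)⁻¹) := by
      conv_lhs => rw [k5fixX, map_mul, map_mul, h, k5fix_F23 hf, k5fix_F0 hf, gtI_self hf,
        map_inv]
    rw [e2]
    group
  rw [e1]
  have e3 : k5fixX f * (ev (k5d ka) (ka 0) f)⁻¹ = ev (ka 2) (ka 3) f * ka 0 := by
    rw [k5fixX]
    group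
  rw [e3]
  have e4 : (ev (ka 2) (ka 3) f)⁻¹ * (ka 0)⁻¹ * (ev (ka 2) (ka 3) f * ka 0 * (k5fixX f)⁻¹) =
      (k5fixX f)⁻¹ := by
    rw [← hc.eq]
    group
  rw [e4]
  have e5 : (k5fixX f)⁻¹ * (ev (ka 2) (ka 3) f * ka 2 * (ev (ka 2) (ka 3) f)⁻¹) =
      ((ev (k5d ka) (ka 0) f)⁻¹ * (ka 0)⁻¹) * ka 2 * (ev (ka 2) (ka 3) f)⁻¹ := by
    rw [k5fixX]
    group
  rw [e5, ← hd.eq, k5fixX]
  group

theorem k5fix_conjD (f : F2hat) : (k5fixX f * (ka 2)⁻¹) * (k5d ka)⁻¹ * (k5fixX f * (ka 2)⁻¹)⁻¹ =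
    k5fixX f * (k5d ka)⁻¹ * (k5fixX f)⁻¹ := by
  have h := k5fix_c2D.inv_left.inv_right
  have e1 : (k5fixX f * (ka 2)⁻¹) * (k5d ka)⁻¹ * (k5fixX f * (ka 2)⁻¹)⁻¹ =
      k5fixX f * ((ka 2)⁻¹ * (k5d ka)⁻¹) * ka 2 * (k5fixX f)⁻¹ := by group
  rw [e1, h.eq]
  group

theorem kF5_fixed (hf : IsInv f) (u : K5hat) (hu : kF5 hf u = u) : u = 1 := by
  have huN : u ∈ kN := by
    rw [mem_kN]
    apply gtI_fixed hf
    rw [← kp5_kF5 hf, hu]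
  refine k5fix_core (kF5 hf) (kF5_invol hf) (fun w hw => ?_) (fun i => i) (fun _ => rfl)
    (fun i => match i with
      | none => (k5fixX f * (ka 2)⁻¹)⁻¹
      | some i => ![(k5fixh f)⁻¹, 1, (k5fixB f)⁻¹] i) ?_ ?_ ?_ (some 1) rfl rfl u huN hu
  · rw [mem_kN] at hw ⊢
    rw [kp5_kF5 hf, hw, map_one]
  · rintro (_ | i)
    · exact inv_mem (k5fix_D_mem hf)
    · fin_cases i
      · exact inv_mem (k5fix_h_mem hf)
      · exact one_mem _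
      · exact inv_mem (k5fix_B_mem hf)
  · rintro (_ | i)
    · change kF5 hf (k5d ka) = ((k5fixX f * (ka 2)⁻¹)⁻¹)⁻¹ * (k5d ka)⁻¹ *
        (k5fixX f * (ka 2)⁻¹)⁻¹
      rw [inv_inv, k5fix_conjD, k5fix_FD hf]
    · fin_cases i
      · change kF5 hf (ka 4) = ((k5fixh f)⁻¹)⁻¹ * (ka 4)⁻¹ * (k5fixh f)⁻¹
        rw [inv_inv, k5fix_F4 hf]
      · change kF5 hf (ka 3) = (1 : K5hat)⁻¹ * (ka 3)⁻¹ * 1
        rw [k5fix_F3 hf, inv_one, one_mul, mul_one]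
      · change kF5 hf (k5b ka) = ((k5fixB f)⁻¹)⁻¹ * (k5b ka)⁻¹ * (k5fixB f)⁻¹
        rw [inv_inv, k5fix_FB hf]
  · rintro (_ | i)
    · change (k5fixX f * (ka 2)⁻¹)⁻¹ * kF5 hf ((k5fixX f * (ka 2)⁻¹)⁻¹) = 1
      rw [map_inv, k5fix_FX hf, inv_inv, inv_mul_cancel]
    · fin_cases i
      · change (k5fixh f)⁻¹ * kF5 hf ((k5fixh f)⁻¹) = 1
        rw [map_inv, k5fix_Fh hf, inv_inv, inv_mul_cancel]
      · change (1 : K5hat) * kF5 hf 1 = 1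
        rw [map_one, mul_one]
      · change (k5fixB f)⁻¹ * kF5 hf ((k5fixB f)⁻¹) = 1
        rw [map_inv, k5fix_FhB hf, inv_inv, inv_mul_cancel]

/-! ### the involution `τ₁₂ F` -/

theorem k5fix_T0 : kT (ka 0) = ka 0 := evK_ka _ _ 0

theorem k5fix_T2 : kT (ka 2) = ka 2 := evK_ka _ _ 2

theorem k5fix_T3 : kT (ka 3) = ka 3 := evK_ka _ _ 3

theorem k5fix_T4 : kT (ka 4) = ka 0 * k5d ka * (ka 0)⁻¹ := by
  have h : kT (ka 4) = k5t ka 4 := evK_ka _ _ 4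
  rw [h, k5t_4 ka_isK5]

theorem k5fix_TB : kT (k5b ka) = k5b ka := by
  rw [k5b, map_mul, map_inv, map_mul, k5fix_T0, k5fix_T2, k5fix_T3]

theorem k5fix_ThB (f : F2hat) : kT (k5fixB f) = k5fixB f := by
  rw [k5fixB, map_mul, map_ev, k5fix_T3, k5fix_TB]

theorem k5fix_kR (hf : IsInv f) (w : K5hat) : kR hf w = kT (kF5 hf w) := rfl

theorem k5fix_Th (f : F2hat) : kT (k5fixh f) = k5fixX f * (ka 0)⁻¹ := by
  rw [k5fixh, map_mul, map_ev, map_ev, k5fix_T0, k5fix_T2, k5fix_T3, k5fix_T4]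
  have h := map_ev (G := K5hat) (H := K5hat)
    (⟨(MulAut.conj (ka 0)).toMonoidHom, by
      change Continuous fun x => ka 0 * x * (ka 0)⁻¹
      fun_prop⟩ : K5hat →ₜ* K5hat) (k5d ka) (ka 0) f
  have h' : ka 0 * ev (k5d ka) (ka 0) f * (ka 0)⁻¹ =
      ev (ka 0 * k5d ka * (ka 0)⁻¹) (ka 0 * ka 0 * (ka 0)⁻¹) f := h
  rw [mul_inv_cancel_right] at h'
  rw [← h', k5fixX]
  group

theorem k5fix_R4 (hf : IsInv f) : kR hf (ka 4) =
    (k5fixX f * (ka 2)⁻¹) * (k5d ka)⁻¹ * (k5fixX f * (ka 2)⁻¹)⁻¹ := by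
  rw [k5fix_conjD, k5fix_kR, k5fix_F4 hf, map_mul, map_mul, map_inv, map_inv, k5fix_Th,
    k5fix_T4]
  group

theorem kR_fixed (hf : IsInv f) (u : K5hat) (hu : kR hf u = u) : u = 1 := by
  have huN : u ∈ kN := by
    rw [mem_kN]
    apply gtR_fixed hf
    rw [← kp5_kR hf, hu]
  have hN : ∀ w ∈ kN, kR hf w ∈ kN := by
    intro w hw
    rw [mem_kN] at hw ⊢
    rw [kp5_kR hf, hw, map_one]
  have hRD : kR hf (k5d ka) = (kR hf (k5fixX f * (ka 2)⁻¹))⁻¹ * (ka 4)⁻¹ *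
      kR hf (k5fixX f * (ka 2)⁻¹) := by
    have h1 := kR_invol hf (ka 4)
    rw [k5fix_R4 hf, map_mul, map_mul, map_inv, map_inv] at h1
    rw [← h1]
    group
  have hRB : kR hf (k5fixB f) = (k5fixB f)⁻¹ := by
    rw [k5fix_kR, k5fix_FhB hf, map_inv, k5fix_ThB]
  refine k5fix_core (kR hf) (kR_invol hf) hN
    (fun i => match i with
      | none => some 0
      | some i => ![none, some 1, some 2] i) ?_
    (fun i => match i with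
      | none => kR hf (k5fixX f * (ka 2)⁻¹)
      | some i => ![(k5fixX f * (ka 2)⁻¹)⁻¹, 1, (k5fixB f)⁻¹] i) ?_ ?_ ?_ (some 1) rfl rfl
    u huN hu
  · rintro (_ | i)
    · rfl
    · fin_cases i <;> rfl
  · rintro (_ | i)
    · exact hN _ (k5fix_D_mem hf)
    · fin_cases i
      · exact inv_mem (k5fix_D_mem hf)
      · exact one_mem _
      · exact inv_mem (k5fix_B_mem hf)
  · rintro (_ | i)
    · exact hRD
    · fin_cases i
      · change kR hf (ka 4) = ((k5fixX f * (ka 2)⁻¹)⁻¹)⁻¹ * (k5d ka)⁻¹ *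
          (k5fixX f * (ka 2)⁻¹)⁻¹
        rw [inv_inv, k5fix_R4 hf]
      · change kR hf (ka 3) = (1 : K5hat)⁻¹ * (ka 3)⁻¹ * 1
        rw [k5fix_kR, k5fix_F3 hf, map_inv, k5fix_T3, inv_one, one_mul, mul_one]
      · change kR hf (k5b ka) = ((k5fixB f)⁻¹)⁻¹ * (k5b ka)⁻¹ * (k5fixB f)⁻¹
        rw [inv_inv, k5fix_kR, k5fix_FB hf, map_mul, map_mul, map_inv, map_inv, k5fix_ThB,
          k5fix_TB]
  · rintro (_ | i)
    · change (k5fixX f * (ka 2)⁻¹)⁻¹ * kR hf (kR hf (k5fixX f * (ka 2)⁻¹)) = 1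
      rw [kR_invol, inv_mul_cancel]
    · fin_cases i
      · change kR hf (k5fixX f * (ka 2)⁻¹) * kR hf ((k5fixX f * (ka 2)⁻¹)⁻¹) = 1
        rw [map_inv, mul_inv_cancel]
      · change (1 : K5hat) * kR hf 1 = 1
        rw [map_one, mul_one]
      · change (k5fixB f)⁻¹ * kR hf ((k5fixB f)⁻¹) = 1
        rw [map_inv, hRB, inv_inv, inv_mul_cancel]

end K5FIX

end Pool.Agent.GTT
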