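import Pool.Agent.Lib.MP_2cc432_al.K5F3
import Pool.Agent.Lib.MP_2cc432_al.HPow

/-!
# The hexagon relation (II) for the root `g`
-/

open CategoryTheory

namespace Pool.Agent.GTT

section K5II

/-! ## general facts -/

/-- conjugation -/
noncomputable def k5iiConj {G : ProfiniteGrp.{0}} (c : G) : G →ₜ* G :=
  { toMonoidHom := (MulAut.conj c).toMonoidHom
    continuous_toFun := by
      change Continuous fun w => c * w * c⁻¹
      exact (continuous_const.mul continuous_id).mul continuous_const }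

theorem k5ii_conj_apply {G : ProfiniteGrp.{0}} (c w : G) : k5iiConj c w = c * w * c⁻¹ := rfl

theorem k5ii_ev_conj {G : ProfiniteGrp.{0}} (c a b : G) (w : F2hat) :
    ev (c * a * c⁻¹) (c * b * c⁻¹) w = c * ev a b w * c⁻¹ :=
  (map_ev (k5iiConj c) a b w).symm

theorem k5ii_ev_gz {G : ProfiniteGrp.{0}} (a b : G) : ev a b gz = (a * b)⁻¹ := by
  rw [gz, map_inv, map_mul, ev_gx, ev_gy]

/-- (I) in any group -/
theorem k5ii_rel_one {G : ProfiniteGrp.{0}} {f : F2hat} (h : f * ev gy gx f = 1) (a b : G) :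
    ev b a f = (ev a b f)⁻¹ := by
  have h1 := congrArg (ev a b) h
  rw [map_mul, map_ev (ev a b) gy gx f, ev_gx, ev_gy, map_one] at h1
  exact eq_inv_of_mul_eq_one_right h1

/-- (II) in any group, inverse form -/
theorem k5ii_hex {G : ProfiniteGrp.{0}} {f : F2hat} (hf : IsInv f) (a b c : G)
    (habc : a * b * c = 1) :
    b * ev c b f * c * ev a c f * a * ev b a f = 1 := by
  have hc : c = (a * b)⁻¹ := eq_inv_of_mul_eq_one_right habc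
  have h1 := congrArg (ev a b) hf.II
  simp only [map_mul, map_inv, map_one, map_ev, ev_gx, ev_gy, k5ii_ev_gz, ← hc] at h1
  rw [k5ii_rel_one hf.I b c, k5ii_rel_one hf.I c a, k5ii_rel_one hf.I a b]
  have h2 : (ev c a f * c⁻¹ * ev b c f * b⁻¹ * ev a b f * a⁻¹)⁻¹ = 1 := by rw [h1, inv_one]
  have h3 : a * (ev a b f)⁻¹ * (b * (ev b c f)⁻¹ * c * (ev c a f)⁻¹) = 1 := by
    rw [← h2]
    group
  have h4 := mul_eq_one_iff_eq_inv.1 h3
  have h5 : b * (ev b c f)⁻¹ * c * (ev c a f)⁻¹ * (a * (ev a b f)⁻¹) = 1 := by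
    rw [h4, mul_inv_cancel]
  rw [← h5]
  group

theorem k5ii_hpow_inv {G : Type} [Group G] [TopologicalSpace G] [IsTopologicalGroup G]
    [CompactSpace G] [T2Space G] [TotallyDisconnectedSpace G] (a : G) (l : Zhat) :
    hpow a⁻¹ l = hpow a (-l) := by
  have h : -l = -1 * l := by ring
  rw [h, hpow_mul, hpow_neg, hpow_one]

/-- the computation with the order three element -/
theorem k5ii_norm {G : Type} [Group G] (R W : G →* G) (κ A a : G)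
    (hR : ∀ w, R (W w) = κ * W (R w) * κ⁻¹) (hA : R A = A * κ⁻¹) (ha : R a = a⁻¹)
    (hn : κ * W κ * W (W κ) = (a * a)⁻¹) :
    R (A * W A * W (W A) * a) = A * W A * W (W A) * a := by
  have h1 : R (W A) = κ * W A * (W κ)⁻¹ * κ⁻¹ := by
    rw [hR, hA, map_mul, map_inv]
    group
  have h2 : R (W (W A)) = κ * W κ * W (W A) * (W (W κ))⁻¹ * (W κ)⁻¹ * κ⁻¹ := by
    rw [hR, h1, map_mul, map_mul, map_mul, map_inv, map_inv]
    group
  have h3 : (W (W κ))⁻¹ * (W κ)⁻¹ * κ⁻¹ = a * a := by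
    have := congrArg (fun x => x⁻¹) hn
    simp only [mul_inv_rev, inv_inv] at this
    rw [← this]
    group
  rw [map_mul, map_mul, map_mul, h1, h2, hA, ha]
  have h4 : A * κ⁻¹ * (κ * W A * (W κ)⁻¹ * κ⁻¹) *
      (κ * W κ * W (W A) * (W (W κ))⁻¹ * (W κ)⁻¹ * κ⁻¹) * a⁻¹ =
      A * W A * W (W A) * ((W (W κ))⁻¹ * (W κ)⁻¹ * κ⁻¹) * a⁻¹ := by group
  rw [h4, h3]
  group

/-! ## values on the generators -/

theorem k5ii_c02 : Commute (ka 0) (ka 2) := ka_isK5.comm 0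
theorem k5ii_c13 : Commute (ka 1) (ka 3) := ka_isK5.comm 1
theorem k5ii_c30 : Commute (ka 3) (ka 0) := ka_isK5.comm 3
theorem k5ii_c41 : Commute (ka 4) (ka 1) := ka_isK5.comm 4

theorem k5ii_t0 : kT (ka 0) = ka 0 := evK_ka _ _ 0
theorem k5ii_t1 : kT (ka 1) = ka 3 * (ka 1)⁻¹ * (ka 0)⁻¹ := evK_ka _ _ 1
theorem k5ii_t2 : kT (ka 2) = ka 2 := evK_ka _ _ 2
theorem k5ii_t3 : kT (ka 3) = ka 3 := evK_ka _ _ 3
theorem k5ii_t4 : kT (ka 4) = ka 2 * (ka 4)⁻¹ * (ka 0)⁻¹ := evK_ka _ _ 4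
theorem k5ii_e0 : kE (ka 0) = ka 3 := evK_ka _ _ 0
theorem k5ii_e1 : kE (ka 1) = ka 2 := evK_ka _ _ 1
theorem k5ii_e2 : kE (ka 2) = ka 1 := evK_ka _ _ 2
theorem k5ii_e3 : kE (ka 3) = ka 0 := evK_ka _ _ 3
theorem k5ii_e4 : kE (ka 4) = ka 4 := evK_ka _ _ 4
theorem k5ii_s0 : kE1 (ka 0) = ka 0 := evK_ka _ _ 0
theorem k5ii_s1 : kE1 (ka 1) = ka 4 := evK_ka _ _ 1
theorem k5ii_s2 : kE1 (ka 2) = ka 3 := evK_ka _ _ 2
theorem k5ii_s3 : kE1 (ka 3) = ka 2 := evK_ka _ _ 3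
theorem k5ii_s4 : kE1 (ka 4) = ka 1 := evK_ka _ _ 4
theorem k5ii_p0 : kp1 (ka 0) = 1 := evK_ka _ _ 0
theorem k5ii_p1 : kp1 (ka 1) = gy := evK_ka _ _ 1
theorem k5ii_p2 : kp1 (ka 2) = gx := evK_ka _ _ 2
theorem k5ii_p3 : kp1 (ka 3) = gy := evK_ka _ _ 3
theorem k5ii_p4 : kp1 (ka 4) = 1 := evK_ka _ _ 4

theorem k5ii_map_t {H : Type} [Group H] (φ : K5hat →* H) (b : Fin 5 → K5hat) (i : Fin 5) :
    φ (k5t b i) = k5t (fun j => φ (b j)) i := by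
  fin_cases i
  · rfl
  · show φ (b 3 * (b 1)⁻¹ * (b 0)⁻¹) = φ (b 3) * (φ (b 1))⁻¹ * (φ (b 0))⁻¹
    rw [map_mul, map_mul, map_inv, map_inv]
  · rfl
  · rfl
  · show φ (b 2 * (b 4)⁻¹ * (b 0)⁻¹) = φ (b 2) * (φ (b 4))⁻¹ * (φ (b 0))⁻¹
    rw [map_mul, map_mul, map_inv, map_inv]

theorem k5ii_map_e {H : Type} [Group H] (φ : K5hat →* H) (b : Fin 5 → K5hat) (i : Fin 5) :
    φ (k5e b i) = k5e (fun j => φ (b j)) i := by
  fin_cases i <;> rfl

theorem k5ii_kE_kE (w : K5hat) : kE (kE w) = w := by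
  have h : kE.comp kE = ContinuousMonoidHom.id K5hat := by
    apply evK_ext
    intro i
    change kE (kE (ka i)) = ka i
    fin_cases i
    · exact (congrArg kE k5ii_e0).trans k5ii_e3
    · exact (congrArg kE k5ii_e1).trans k5ii_e2
    · exact (congrArg kE k5ii_e2).trans k5ii_e1
    · exact (congrArg kE k5ii_e3).trans k5ii_e0
    · exact (congrArg kE k5ii_e4).trans k5ii_e4
  exact congrArg (fun k : K5hat →ₜ* K5hat => k w) h

theorem k5ii_kT_kE1 (w : K5hat) : kE1 (kT w) = kT (kE1 w) := by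
  have h : kE1.comp kT = kT.comp kE1 := by
    apply evK_ext
    intro i
    change kE1 (kT (ka i)) = kT (kE1 (ka i))
    fin_cases i
    · change kE1 (kT (ka 0)) = kT (kE1 (ka 0))
      rw [k5ii_t0, k5ii_s0, k5ii_t0]
    · change kE1 (kT (ka 1)) = kT (kE1 (ka 1))
      rw [k5ii_t1, map_mul, map_mul, map_inv, map_inv, k5ii_s3, k5ii_s1, k5ii_s0, k5ii_t4]
    · change kE1 (kT (ka 2)) = kT (kE1 (ka 2))
      rw [k5ii_t2, k5ii_s2, k5ii_t3]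
    · change kE1 (kT (ka 3)) = kT (kE1 (ka 3))
      rw [k5ii_t3, k5ii_s3, k5ii_t2]
    · change kE1 (kT (ka 4)) = kT (kE1 (ka 4))
      rw [k5ii_t4, map_mul, map_mul, map_inv, map_inv, k5ii_s2, k5ii_s4, k5ii_s0, k5ii_t1]
  exact congrArg (fun k : K5hat →ₜ* K5hat => k w) h

/-- conjugation by the half twist `τ₄₅` -/
noncomputable def k5iiT : K5hat →ₜ* K5hat := kE.comp (kT.comp kE)

theorem k5iiT_apply (w : K5hat) : k5iiT w = kE (kT (kE w)) := rfl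

theorem k5iiT_0 : k5iiT (ka 0) = ka 0 := by
  rw [k5iiT_apply, k5ii_e0, k5ii_t3, k5ii_e3]

theorem k5iiT_1 : k5iiT (ka 1) = ka 1 := by
  rw [k5iiT_apply, k5ii_e1, k5ii_t2, k5ii_e2]

theorem k5iiT_2 : k5iiT (ka 2) = ka 0 * (ka 2)⁻¹ * (ka 3)⁻¹ := by
  rw [k5iiT_apply, k5ii_e2, k5ii_t1, map_mul, map_mul, map_inv, map_inv, k5ii_e3, k5ii_e1,
    k5ii_e0]

theorem k5iiT_3 : k5iiT (ka 3) = ka 3 := by
  rw [k5iiT_apply, k5ii_e3, k5ii_t0, k5ii_e0]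

theorem k5iiT_4 : k5iiT (ka 4) = ka 1 * (ka 4)⁻¹ * (ka 3)⁻¹ := by
  rw [k5iiT_apply, k5ii_e4, k5ii_t4, map_mul, map_mul, map_inv, map_inv, k5ii_e2, k5ii_e4,
    k5ii_e0]

theorem k5iiT_T (w : K5hat) : k5iiT (k5iiT w) = ka 3 * w * (ka 3)⁻¹ := by
  rw [k5iiT_apply, k5iiT_apply, k5ii_kE_kE, kT_kT, map_mul, map_mul, map_inv, k5ii_kE_kE,
    k5ii_e0]

theorem k5ii_kT_T (w : K5hat) : kT (k5iiT w) = k5iiT (kT w) := by
  have h : kT.comp k5iiT = k5iiT.comp kT := by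
    apply evK_ext
    intro i
    change kT (kE (kT (kE (ka i)))) = kE (kT (kE (kT (ka i))))
    have e1 : kE (ka i) = k5e ka i := evK_ka _ _ i
    have e2 : kT (ka i) = k5t ka i := evK_ka _ _ i
    have f1 : (fun j => kE (ka j)) = k5e ka := funext fun j => evK_ka _ _ j
    have f2 : (fun j => kT (ka j)) = k5t ka := funext fun j => evK_ka _ _ j
    have g1 : ∀ b : Fin 5 → K5hat, kT (k5e b i) = k5e (fun j => kT (b j)) i :=
      fun b => k5ii_map_e (kT : K5hat →* K5hat) b i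
    have g2 : ∀ b : Fin 5 → K5hat, kE (k5e b i) = k5e (fun j => kE (b j)) i :=
      fun b => k5ii_map_e (kE : K5hat →* K5hat) b i
    have g3 : ∀ b : Fin 5 → K5hat, kT (k5t b i) = k5t (fun j => kT (b j)) i :=
      fun b => k5ii_map_t (kT : K5hat →* K5hat) b i
    have g4 : ∀ b : Fin 5 → K5hat, kE (k5t b i) = k5t (fun j => kE (b j)) i :=
      fun b => k5ii_map_t (kE : K5hat →* K5hat) b i
    have g5 : ∀ b : Fin 5 → K5hat, (fun j => kE (k5t b j)) = k5t (fun j => kE (b j)) :=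
      fun b => funext fun j => k5ii_map_t (kE : K5hat →* K5hat) b j
    have g6 : ∀ b : Fin 5 → K5hat, (fun j => kT (k5e b j)) = k5e (fun j => kT (b j)) :=
      fun b => funext fun j => k5ii_map_e (kT : K5hat →* K5hat) b j
    have g7 : ∀ b : Fin 5 → K5hat, (fun j => kE (k5e b j)) = k5e (fun j => kE (b j)) :=
      fun b => funext fun j => k5ii_map_e (kE : K5hat →* K5hat) b j
    have g8 : ∀ b : Fin 5 → K5hat, (fun j => kT (k5t b j)) = k5t (fun j => kT (b j)) :=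
      fun b => funext fun j => k5ii_map_t (kT : K5hat →* K5hat) b j
    rw [e1, e2, g1, f2, g4, f1, g2, g5, f1, g3, g6, f2, g1, g8, g6, f2, g4, g7, g5, f1]
    exact k5t_e_comm ka_isK5 i
  exact congrArg (fun k : K5hat →ₜ* K5hat => k w) h

/-! ## the element of order three -/

/-- `Ω = τ₁₂ τ₄₅⁻¹ ε₁` -/
noncomputable def k5iiW : K5hat →ₜ* K5hat :=
  (k5iiConj (ka 3)⁻¹).comp (kT.comp (k5iiT.comp kE1))

theorem k5iiW_apply (w : K5hat) : k5iiW w = (ka 3)⁻¹ * kT (k5iiT (kE1 w)) * ka 3 := by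
  show (ka 3)⁻¹ * kT (k5iiT (kE1 w)) * ((ka 3)⁻¹)⁻¹ = _
  rw [inv_inv]

theorem k5iiW_0 : k5iiW (ka 0) = ka 0 := by
  rw [k5iiW_apply, k5ii_s0, k5iiT_0, k5ii_t0, mul_assoc, ← k5ii_c30.eq, ← mul_assoc,
    inv_mul_cancel, one_mul]

theorem k5iiW_1 : k5iiW (ka 1) =
    (ka 3)⁻¹ * (ka 3 * (ka 1)⁻¹ * (ka 0)⁻¹ * (ka 2 * (ka 4)⁻¹ * (ka 0)⁻¹)⁻¹ * (ka 3)⁻¹) *
      ka 3 := by
  rw [k5iiW_apply, k5ii_s1, k5iiT_4, map_mul, map_mul, map_inv, map_inv, k5ii_t1, k5ii_t4,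
    k5ii_t3]

theorem k5iiW_2 : k5iiW (ka 2) = ka 3 := by
  rw [k5iiW_apply, k5ii_s2, k5iiT_3, k5ii_t3, inv_mul_cancel, one_mul]

theorem k5ii_b : k5b ka = (ka 3)⁻¹ * (ka 0 * (ka 2)⁻¹) := by
  rw [k5b, mul_inv_rev, mul_assoc]
  congr 1
  exact (k5ii_c02.inv_right.eq).symm

theorem k5iiW_3 : k5iiW (ka 3) = k5b ka := by
  rw [k5iiW_apply, k5ii_s3, k5iiT_2, map_mul, map_mul, map_inv, map_inv, k5ii_t0, k5ii_t2,
    k5ii_t3, k5ii_b]
  group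

theorem k5iiW_4 : k5iiW (ka 4) = (ka 3)⁻¹ * (ka 3 * (ka 1)⁻¹ * (ka 0)⁻¹) * ka 3 := by
  rw [k5iiW_apply, k5ii_s4, k5iiT_1, k5ii_t1]

theorem k5iiW_b : k5iiW (k5b ka) = ka 2 := by
  have h : k5iiW (k5b ka) = (ka 3 * k5b ka)⁻¹ * ka 0 := by
    have e : k5iiW (k5b ka) = k5iiW ((ka 2 * ka 3)⁻¹ * ka 0) := rfl
    rw [e, map_mul, map_inv, map_mul, k5iiW_2, k5iiW_3, k5iiW_0]
  rw [h, k5ii_b, ← mul_assoc (ka 3), mul_inv_cancel, one_mul, mul_inv_rev, inv_inv, mul_assoc,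
    inv_mul_cancel, mul_one]

/-- `kp1 ∘ Ω = ω ∘ kp1` with `ω : x ↦ y ↦ z` -/
theorem k5ii_p1_W (w : K5hat) : kp1 (k5iiW w) = ev gy gz (kp1 w) := by
  have h : kp1.comp k5iiW = (ev gy gz).comp kp1 := by
    apply evK_ext
    intro i
    change kp1 (k5iiW (ka i)) = ev gy gz (kp1 (ka i))
    fin_cases i
    · change kp1 (k5iiW (ka 0)) = ev gy gz (kp1 (ka 0))
      rw [k5iiW_0, k5ii_p0, map_one]
    · change kp1 (k5iiW (ka 1)) = ev gy gz (kp1 (ka 1))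
      rw [k5iiW_1, k5ii_p1, ev_gy]
      simp only [map_mul, map_inv, k5ii_p0, k5ii_p1, k5ii_p2, k5ii_p3, k5ii_p4]
      rw [gz]
      group
    · change kp1 (k5iiW (ka 2)) = ev gy gz (kp1 (ka 2))
      rw [k5iiW_2, k5ii_p2, k5ii_p3, ev_gx]
    · change kp1 (k5iiW (ka 3)) = ev gy gz (kp1 (ka 3))
      rw [k5iiW_3, k5ii_p3, ev_gy, k5ii_b]
      simp only [map_mul, map_inv, k5ii_p0, k5ii_p2, k5ii_p3]
      rw [gz]
      group
    · change kp1 (k5iiW (ka 4)) = ev gy gz (kp1 (ka 4))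
      rw [k5iiW_4, k5ii_p4, map_one]
      simp only [map_mul, map_inv, k5ii_p0, k5ii_p1, k5ii_p3]
      group
  exact congrArg (fun k : K5hat →ₜ* F2hat => k w) h

/-! ## the involution `kR` -/

variable {f : F2hat}

theorem k5ii_F0 (hf : IsInv f) : kF5 hf (ka 0) = (ka 0)⁻¹ := evK_ka _ _ 0
theorem k5ii_F1 (hf : IsInv f) : kF5 hf (ka 1) =
    (ev (ka 0) (ka 1) f)⁻¹ * (ka 1)⁻¹ * ev (ka 0) (ka 1) f := evK_ka _ _ 1
theorem k5ii_F3 (hf : IsInv f) : kF5 hf (ka 3) = (ka 3)⁻¹ := evK_ka _ _ 3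

theorem k5ii_R_apply (hf : IsInv f) (w : K5hat) : kR hf w = kT (kF5 hf w) := rfl

theorem k5ii_R0 (hf : IsInv f) : kR hf (ka 0) = (ka 0)⁻¹ := by
  rw [k5ii_R_apply, k5ii_F0, map_inv, k5ii_t0]

theorem k5ii_R3 (hf : IsInv f) : kR hf (ka 3) = (ka 3)⁻¹ := by
  rw [k5ii_R_apply, k5ii_F3, map_inv, k5ii_t3]

/-- `T' F T' = F` -/
theorem k5ii_TFT (hf : IsInv f) (w : K5hat) : k5iiT (kF5 hf (k5iiT w)) = kF5 hf w := by
  rw [k5iiT_apply, k5iiT_apply, kF5_kE, k5ii_kE_kE, kT_kF5_kT, kF5_kE, k5ii_kE_kE]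

/-- `F T' = (conjugation by a₃⁻¹) T' F` -/
theorem k5ii_FT (hf : IsInv f) (w : K5hat) :
    ka 3 * kF5 hf (k5iiT w) * (ka 3)⁻¹ = k5iiT (kF5 hf w) := by
  rw [← k5iiT_T, k5ii_TFT]

theorem k5ii_b_conj : ka 3 * k5b ka * (ka 3)⁻¹ = ka 0 * (ka 2)⁻¹ * (ka 3)⁻¹ := by
  rw [k5ii_b, ← mul_assoc (ka 3), mul_inv_cancel, one_mul]

theorem k5ii_Tf : k5iiT (ev (ka 2) (ka 3) f) =
    ka 3 * ev (k5b ka) (ka 3) f * (ka 3)⁻¹ := by
  rw [map_ev, k5iiT_2, k5iiT_3, ← k5ii_b_conj]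
  have h : ka 3 = ka 3 * ka 3 * (ka 3)⁻¹ := by group
  conv_lhs => rw [h]
  have e : ka 3 * ka 3 * (ka 3)⁻¹ * k5b ka * (ka 3 * ka 3 * (ka 3)⁻¹)⁻¹ =
      ka 3 * k5b ka * (ka 3)⁻¹ := by group
  rw [e, k5ii_ev_conj]

/-- `R Ω = (conjugation by κ) Ω R`, `κ = a₃ f(B, a₃) a₀⁻¹` -/
theorem k5ii_R_W (hf : IsInv f) (w : K5hat) : kR hf (k5iiW w) =
    (ka 3 * ev (k5b ka) (ka 3) f * (ka 0)⁻¹) * k5iiW (kR hf w) *
      (ka 3 * ev (k5b ka) (ka 3) f * (ka 0)⁻¹)⁻¹ := by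
  have h1 : kR hf (k5iiW w) = k5iiT (kF5 hf (kE1 w)) := by
    have e : k5iiW w = kT ((ka 3)⁻¹ * k5iiT (kE1 w) * ka 3) := by
      rw [k5iiW_apply, map_mul, map_mul, map_inv, k5ii_t3]
    rw [k5ii_R_apply, e, kT_kF5_kT, map_mul, map_mul, map_inv, k5ii_F3, inv_inv, k5ii_FT]
  have h2 : k5iiW (kR hf w) =
      (ka 3)⁻¹ * (ka 0 * k5iiT (kE1 (kF5 hf w)) * (ka 0)⁻¹) * ka 3 := by
    rw [k5iiW_apply, k5ii_R_apply, k5ii_kT_kE1, ← k5ii_kT_T, kT_kT]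
  rw [h1, kF5_kE1, map_mul, map_mul, map_inv, k5ii_Tf, h2]
  have h3 : (ka 0)⁻¹ * (ka 3)⁻¹ * ka 0 = (ka 3)⁻¹ := by
    have := k5ii_c30.inv_left.eq
    rw [mul_assoc, this, ← mul_assoc, inv_mul_cancel, one_mul]
  have h4 : (ka 0)⁻¹ * ka 3 * ka 0 = ka 3 := by
    rw [mul_assoc, k5ii_c30.eq, ← mul_assoc, inv_mul_cancel, one_mul]
  set X := k5iiT (kE1 (kF5 hf w))
  set q := ev (k5b ka) (ka 3) f
  have h5 : ka 3 * q * (ka 0)⁻¹ * ((ka 3)⁻¹ * (ka 0 * X * (ka 0)⁻¹) * ka 3) *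
      (ka 3 * q * (ka 0)⁻¹)⁻¹ =
      ka 3 * q * ((ka 0)⁻¹ * (ka 3)⁻¹ * ka 0) * X * ((ka 0)⁻¹ * ka 3 * ka 0) * q⁻¹ *
        (ka 3)⁻¹ := by group
  rw [h5, h3, h4]
  group

/-- `R` on the subgroup of `x₁₂, x₂₃` -/
theorem k5ii_R_ev01 (hf : IsInv f) (w : F2hat) : kR hf (ev (ka 0) (ka 1) w) =
    ev (ka 0) (ka 1) (gtR f w) * ev 1 (ka 3)⁻¹ w := by
  have hc : ∀ u v : F2hat, Commute (ev (1 : K5hat) (ka 3)⁻¹ u) (ev (ka 0) (ka 1) v) := by
    intro u v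
    apply commute_ev
    · exact (commute_ev (Commute.one_right _) (k5ii_c30.inv_left.symm) u).symm
    · exact (commute_ev (Commute.one_right _) (k5ii_c13.inv_right) u).symm
  let r : F2hat →ₜ* K5hat :=
    { toFun := fun w => ev (ka 0) (ka 1) (gtR f w) * ev 1 (ka 3)⁻¹ w
      map_one' := by simp only [map_one, mul_one]
      map_mul' := fun u v => by
        simp only [map_mul]
        rw [mul_assoc, mul_assoc, ← mul_assoc (ev (ka 0) (ka 1) (gtR f v)),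
          ← (hc u (gtR f v)).eq]
        simp only [mul_assoc]
      continuous_toFun := by
        exact ((ev (ka 0) (ka 1)).continuous.comp (gtR f).continuous).mul
          (ev (1 : K5hat) (ka 3)⁻¹).continuous }
  have h : (kR hf).comp (ev (ka 0) (ka 1)) = r := by
    apply ev_ext
    · change kR hf (ev (ka 0) (ka 1) gx) = ev (ka 0) (ka 1) (gtR f gx) * ev 1 (ka 3)⁻¹ gx
      rw [ev_gx, ev_gx, mul_one, gtR_gx hf, map_inv, ev_gx, k5ii_R0]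
    · change kR hf (ev (ka 0) (ka 1) gy) = ev (ka 0) (ka 1) (gtR f gy) * ev 1 (ka 3)⁻¹ gy
      rw [ev_gy, ev_gy, gtR_gy hf, k5ii_R_apply, k5ii_F1]
      simp only [map_mul, map_inv, map_ev, ev_gx, ev_gy, k5ii_ev_gz, k5ii_t0, k5ii_t1]
      have c0 : Commute (ka 3) (ka 0 * ka 1)⁻¹ :=
        (k5ii_c30.mul_right k5ii_c13.symm).inv_right
      have e1 : ka 3 * (ka 1)⁻¹ * (ka 0)⁻¹ = (ka 0 * ka 1)⁻¹ * ka 3 := by
        rw [mul_assoc, ← mul_inv_rev, c0.eq]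
      have e2 : ev (ka 0) ((ka 0 * ka 1)⁻¹ * ka 3) f = ev (ka 0) (ka 0 * ka 1)⁻¹ f := by
        have := ev_mul_central (t := 1) (s := ka 3) (a := ka 0) (b := (ka 0 * ka 1)⁻¹)
          (Commute.one_left _) (Commute.one_left _) k5ii_c30 c0 (Commute.one_left _) hf.comm
        rwa [mul_one] at this
      rw [e1, e2]
      have c1 : Commute (ka 3) (ev (ka 0) (ka 0 * ka 1)⁻¹ f) := commute_ev k5ii_c30 c0 f
      set p := ev (ka 0) (ka 0 * ka 1)⁻¹ f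
      set z := (ka 0 * ka 1)⁻¹
      rw [mul_inv_rev, c0.inv_left.inv_right.eq]
      have c2 := c1.inv_left.eq
      simp only [mul_assoc]
      rw [c2]
  exact congrArg (fun k : F2hat →ₜ* K5hat => k w) h

end K5II

theorem k5_hexagon {f : F2hat} (hf : IsInv f) (g : F2hat)
    (hgc : g ∈ (commutator F2hat).topologicalClosure) (hg : f = g * (gtI f g)⁻¹)
    (hgI : g * ev gy gx g = 1) (h₁ : F2hat) (m : Zhat) (hh : gtR f h₁ = h₁ * gx)
    (hm : ∀ (K : ProfiniteGrp.{0}) (a b : K), Commute a b →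
      ev a b h₁ = hpow a m * hpow b (2 * m + 1))
    (hfix : ∀ u, kR hf u = u → u = 1) :
    ev gz gx g * hpow gz (-m - 1) * ev gy gz g * hpow gy (-m - 1) * g * hpow gx (-m - 1) = 1 := by
  set B : K5hat := k5b ka with hB
  have cB0 : Commute (ka 0) B := by
    rw [hB, k5ii_b]
    exact (k5ii_c30.symm.inv_right).mul_right ((Commute.refl _).mul_right k5ii_c02.inv_right)
  set v : K5hat := ka 3 * ev B (ka 3) f with hv
  set κ : K5hat := v * (ka 0)⁻¹ with hκ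
  set gB : K5hat := ev B (ka 3) g with hgB
  set u : K5hat := ev (ka 0) (ka 1) h₁ * hpow (ka 3) (-m) with hu
  have cf : Commute (ka 0) (ev B (ka 3) f) := commute_ev cB0 k5ii_c30.symm f
  have cg : Commute (ka 0) gB := commute_ev cB0 k5ii_c30.symm g
  -- `R u = u a₀ a₃⁻¹`
  have hRu : kR hf u = u * ka 0 * (ka 3)⁻¹ := by
    have e1 : kR hf (hpow (ka 3) (-m)) = hpow (ka 3) m := by
      have h1 := map_hpow (kR hf : K5hat →* K5hat) (kR hf).continuous (ka 3) (-m)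
      have h2 : (kR hf : K5hat →* K5hat) (ka 3) = (ka 3)⁻¹ := k5ii_R3 hf
      rw [h2, k5ii_hpow_inv, neg_neg] at h1
      exact h1
    have e2 : ev (1 : K5hat) (ka 3)⁻¹ h₁ = hpow (ka 3) (-(2 * m + 1)) := by
      rw [hm K5hat 1 (ka 3)⁻¹ (Commute.one_left _), one_hpow, one_mul, k5ii_hpow_inv]
    have e3 : (ka 3)⁻¹ = hpow (ka 3) (-1) := by rw [hpow_neg, hpow_one]
    have e4 : Commute (hpow (ka 3) (-m)) (ka 0) := by
      have := hpow_commute k5ii_c30 (-m) 1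
      rwa [hpow_one] at this
    rw [hu, map_mul, k5ii_R_ev01, hh, map_mul, ev_gx, e1, e2, e3]
    rw [mul_assoc, ← hpow_add, mul_assoc (ev (ka 0) (ka 1) h₁) (hpow (ka 3) (-m)), e4.eq,
      ← mul_assoc, mul_assoc (_ * ka 0), ← hpow_add]
    congr 2
    ring
  -- `R gB = v (f⁻¹ g)(B, a₃) v⁻¹`
  have hRB : kR hf B = v * B⁻¹ * v⁻¹ := by
    have e1 : kT B = B := by
      rw [hB, k5ii_b, map_mul, map_mul, map_inv, map_inv, k5ii_t3, k5ii_t0, k5ii_t2]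
    rw [k5ii_R_apply, hB, kF5_b]
    simp only [map_mul, map_inv, map_ev, k5ii_t3]
    rw [← hB, e1]
  have hRg : kR hf gB = ka 3 * gB * (ev B (ka 3) f)⁻¹ * (ka 3)⁻¹ := by
    have h1 := ev_gtI (f := f) (kR hf) v B (ka 3) hRB (by
      rw [k5ii_R3, hv]
      group) g
    have h2 : gtI f g = f⁻¹ * g := by
      have : g * (gtI f g)⁻¹ = f := hg.symm
      rw [mul_inv_eq_iff_eq_mul] at this
      exact eq_inv_mul_of_mul_eq this.symm
    rw [hgB, h1, h2, map_mul, map_inv, hv]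
    group
  -- `A = u gB`
  have hRA : kR hf (u * gB) = u * gB * κ⁻¹ := by
    rw [map_mul, hRu, hRg, hκ, hv]
    have e1 : u * ka 0 * (ka 3)⁻¹ * (ka 3 * gB * (ev B (ka 3) f)⁻¹ * (ka 3)⁻¹) =
        u * (ka 0 * gB) * (ev B (ka 3) f)⁻¹ * (ka 3)⁻¹ := by group
    rw [e1, cg.eq]
    group
  -- the norm of `κ`
  have hW : k5iiW κ = B * ev (ka 2) B f * (ka 0)⁻¹ := by
    rw [hκ, hv, map_mul, map_mul, map_inv, map_ev, k5iiW_3, k5iiW_0, ← hB]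
    rw [hB, k5iiW_b]
  have hWW : k5iiW (k5iiW κ) = ka 2 * ev (ka 3) (ka 2) f * (ka 0)⁻¹ := by
    rw [hW, map_mul, map_mul, map_inv, map_ev, k5iiW_2, k5iiW_0, hB, k5iiW_b]
  have hnorm : κ * k5iiW κ * k5iiW (k5iiW κ) = (ka 0 * ka 0)⁻¹ := by
    have e0 : ka 2 * ka 3 * (B * (ka 0)⁻¹) = 1 := by
      rw [hB, k5b]
      group
    have h1 := k5ii_hex hf (ka 2) (ka 3) (B * (ka 0)⁻¹) e0
    have e1 : ev (B * (ka 0)⁻¹) (ka 3) f = ev B (ka 3) f := by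
      have := ev_mul_central (t := (ka 0)⁻¹) (s := 1) (a := B) (b := ka 3)
        cB0.inv_left k5ii_c30.symm.inv_left (Commute.one_left _) (Commute.one_left _)
        (Commute.one_right _) hf.comm
      rwa [mul_one] at this
    have e2 : ev (ka 2) (B * (ka 0)⁻¹) f = ev (ka 2) B f := by
      have := ev_mul_central (t := 1) (s := (ka 0)⁻¹) (a := ka 2) (b := B)
        (Commute.one_left _) (Commute.one_left _) k5ii_c02.inv_left cB0.inv_left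
        (Commute.one_left _) hf.comm
      rwa [mul_one] at this
    rw [e1, e2] at h1
    have c1 : Commute (ka 0)⁻¹ B := cB0.inv_left
    have c2 : Commute (ka 0)⁻¹ (ka 2 * ev (ka 3) (ka 2) f) :=
      (k5ii_c02.mul_right (commute_ev k5ii_c30.symm k5ii_c02 f)).inv_left
    rw [hWW, hW, hκ, hv]
    have e3 : ka 3 * ev B (ka 3) f * (ka 0)⁻¹ * (B * ev (ka 2) B f * (ka 0)⁻¹) *
        (ka 2 * ev (ka 3) (ka 2) f * (ka 0)⁻¹) =
        ka 3 * ev B (ka 3) f * ((ka 0)⁻¹ * B) * ev (ka 2) B f *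
          ((ka 0)⁻¹ * (ka 2 * ev (ka 3) (ka 2) f)) * (ka 0)⁻¹ := by group
    rw [e3, c1.eq, c2.eq]
    have e4 : ka 3 * ev B (ka 3) f * (B * (ka 0)⁻¹) * ev (ka 2) B f *
        (ka 2 * ev (ka 3) (ka 2) f * (ka 0)⁻¹) * (ka 0)⁻¹ =
        (ka 3 * ev B (ka 3) f * (B * (ka 0)⁻¹) * ev (ka 2) B f * ka 2 *
          ev (ka 3) (ka 2) f) * ((ka 0)⁻¹ * (ka 0)⁻¹) := by group
    rw [e4, h1]
    group
  -- the fixed element
  have hE := k5ii_norm (kR hf : K5hat →* K5hat) (k5iiW : K5hat →* K5hat) κ (u * gB) (ka 0)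
    (fun w => k5ii_R_W hf w) hRA (k5ii_R0 hf) hnorm
  have hE1 : u * gB * k5iiW (u * gB) * k5iiW (k5iiW (u * gB)) * ka 0 = 1 := hfix _ hE
  -- forget the point 1
  have hp := congrArg kp1 hE1
  rw [map_mul, map_mul, map_mul, k5ii_p1_W, k5ii_p1_W, k5ii_p1_W, k5ii_p0, map_one, mul_one] at hp
  have hpB : kp1 B = gz := by
    rw [hB, k5b, map_mul, map_inv, map_mul, k5ii_p2, k5ii_p3, k5ii_p0, mul_one, gz]
  have hpA : kp1 (u * gB) = hpow gy (m + 1) * ev gz gy g := by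
    have e1 : kp1 (hpow (ka 3) (-m)) = hpow gy (-m) := by
      have h1 := map_hpow (kp1 : K5hat →* F2hat) kp1.continuous (ka 3) (-m)
      have h2 : (kp1 : K5hat →* F2hat) (ka 3) = gy := k5ii_p3
      rw [h2] at h1
      exact h1
    rw [map_mul, hu, hgB, map_mul, map_ev, map_ev, k5ii_p0, k5ii_p1, k5ii_p3, hpB, e1,
      hm F2hat 1 gy (Commute.one_left _), one_hpow, one_mul, ← hpow_add]
    congr 2
    ring
  have hgz : ev gy gz gz = gx := by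
    rw [k5ii_ev_gz, gz]
    group
  have hom : ∀ (a b : F2hat) (l : Zhat), ev a b (hpow gy l) = hpow b l := by
    intro a b l
    have h1 := map_hpow (ev a b : F2hat →* F2hat) (ev a b).continuous gy l
    have h2 : (ev a b : F2hat →* F2hat) gy = b := ev_gy a b
    rw [h2] at h1
    exact h1
  have hom' : ev gy gz (hpow gz (m + 1)) = hpow gx (m + 1) := by
    have h1 := map_hpow (ev gy gz : F2hat →* F2hat) (ev gy gz).continuous gz (m + 1)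
    have h2 : (ev gy gz : F2hat →* F2hat) gz = gx := hgz
    rw [h2] at h1
    exact h1
  rw [hpA, map_mul, hom, map_ev, hgz, ev_gy, map_mul, hom', map_ev, ev_gx, hgz] at hp
  have r1 : ev gz gy g = (ev gy gz g)⁻¹ := k5ii_rel_one hgI gy gz
  have r2 : ev gx gz g = (ev gz gx g)⁻¹ := k5ii_rel_one hgI gz gx
  have r3 : ev gy gx g = g⁻¹ := eq_inv_of_mul_eq_one_right hgI
  have n1 : -m - 1 = -(m + 1) := by ring
  rw [n1, hpow_neg, hpow_neg, hpow_neg]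
  rw [r1, r2, r3] at hp
  set X := hpow gx (m + 1)
  set Y := hpow gy (m + 1)
  set Z := hpow gz (m + 1)
  set p := ev gy gz g
  set q := ev gz gx g
  have h1 : (Y * p⁻¹ * (Z * q⁻¹) * (X * g⁻¹))⁻¹ = 1 := by rw [hp, inv_one]
  have h2 : g * X⁻¹ * (q * Z⁻¹ * p * Y⁻¹) = 1 := by
    rw [← h1]
    group
  have h3 := mul_eq_one_iff_inv_eq.1 h2
  rw [← h3]
  group

end Pool.Agent.GTT
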