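import Pool.Agent.Lib.MP_2cc432_al.K5F2

/-!
# The square root satisfies (III)
-/

open CategoryTheory

namespace Pool.Agent.GTT

/-- the group theory of the last step -/
theorem k5iii_group {G : Type} [Group G] {f01 f23 f40 f12 f34 g01 g23 g40 g12 g34 : G}
    (h : f01 * f23 * f40 * f12 * f34 = 1) :
    (f01⁻¹ * g01) * (f23 * (f23⁻¹ * g23) * f23⁻¹) *
        ((f23 * f40) * (f40⁻¹ * g40) * (f23 * f40)⁻¹) *
        ((f01⁻¹ * f34⁻¹) * (f12⁻¹ * g12) * (f01⁻¹ * f34⁻¹)⁻¹) *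
        (f01⁻¹ * (f34⁻¹ * g34) * f01) =
      f01⁻¹ * (g01 * g23 * g40 * g12 * g34) * f01 := by
  have h1 : f12 = (f01 * f23 * f40)⁻¹ * f34⁻¹ := by
    calc f12 = (f01 * f23 * f40)⁻¹ * (f01 * f23 * f40 * f12 * f34) * f34⁻¹ := by group
      _ = (f01 * f23 * f40)⁻¹ * f34⁻¹ := by rw [h, mul_one]
  rw [h1]
  group

theorem k5_pentagon {f : F2hat} (hf : IsInv f) (g : F2hat) (hg : f = g * (gtI f g)⁻¹)
    (hfix : ∀ u, kF5 hf u = u → u = 1) : pent g ka = 1 := by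
  have hI : gtI f g = f⁻¹ * g := by
    have h1 : f * gtI f g = g := by
      nth_rewrite 1 [hg]
      rw [inv_mul_cancel_right]
    calc gtI f g = f⁻¹ * (f * gtI f g) := by group
      _ = f⁻¹ * g := by rw [h1]
  have h1 : kF5 hf (pent g ka) = (ev (ka 0) (ka 1) f)⁻¹ * pent g ka * ev (ka 0) (ka 1) f := by
    unfold pent
    rw [map_mul, map_mul, map_mul, map_mul, kF5_ev01, kF5_ev23, kF5_ev40, kF5_ev12, kF5_ev34, hI]
    simp only [map_mul, map_inv]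
    exact k5iii_group hf.III
  have h2 : kF5 hf (ev (ka 0) (ka 1) g) = (ev (ka 0) (ka 1) f)⁻¹ * ev (ka 0) (ka 1) g := by
    rw [kF5_ev01, hI, map_mul, map_inv]
  have h3 := hfix ((ev (ka 0) (ka 1) g)⁻¹ * pent g ka * ev (ka 0) (ka 1) g) (by
    rw [map_mul, map_mul, map_inv, h1, h2]
    group)
  have h4 : pent g ka = ev (ka 0) (ka 1) g *
      ((ev (ka 0) (ka 1) g)⁻¹ * pent g ka * ev (ka 0) (ka 1) g) * (ev (ka 0) (ka 1) g)⁻¹ := by
    group
  rw [h4, h3]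
  group

end Pool.Agent.GTT
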