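import Pool.Agent.Lib.MP_2cc432_al.GTF
import Pool.Agent.Lib.MP_2cc432_al.GTZ
import Pool.Agent.Lib.MP_2cc432_al.HPow
import Pool.Agent.Lib.MP_2cc432_al.ZArith
import Pool.Agent.Lib.MP_2cc432_al.Main
import Pool.Agent.Lib.MP_2cc432_al.GT

/-!
# TGT2, module LAM: the involutions have `l = -1`
-/

open Filter Topology Finset

namespace Pool.Agent.GTT

section LamAlg

variable {𝔽 : Type} [Group 𝔽] [TopologicalSpace 𝔽] {x y : 𝔽} {q : ℕ} {V : Subgroup 𝔽}
  {χ : 𝔽 → ZMod 4}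

/-- `V` is the kernel of `χ : x, y ↦ 1` -/
structure LamV (V : Subgroup 𝔽) (χ : 𝔽 → ZMod 4) (x y : 𝔽) : Prop where
  hom : IsHom χ
  mem : ∀ g, g ∈ V ↔ χ g = 0
  hx : χ x = 1
  hy : χ y = 1

open Classical in
/-- extension by zero -/
noncomputable def lamX (φ : V → ZMod q) (g : 𝔽) : ZMod q := if h : g ∈ V then φ ⟨g, h⟩ else 0

omit [TopologicalSpace 𝔽] in
theorem lamX_of_mem (φ : V → ZMod q) {g : 𝔽} (h : g ∈ V) : lamX φ g = φ ⟨g, h⟩ := dif_pos h

theorem lamX_mul {φ : V → ZMod q} (hφ : IsHom φ) {g h : 𝔽} (hg : g ∈ V) (hh : h ∈ V) :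
    lamX φ (g * h) = lamX φ g + lamX φ h := by
  rw [lamX_of_mem φ (V.mul_mem hg hh), lamX_of_mem φ hg, lamX_of_mem φ hh, ← hφ.mul]
  rfl

theorem lamX_one {φ : V → ZMod q} (hφ : IsHom φ) : lamX φ 1 = 0 := by
  rw [lamX_of_mem φ V.one_mem]
  exact pd_hom_one hφ

theorem lamX_inv {φ : V → ZMod q} (hφ : IsHom φ) (g : 𝔽) : lamX φ g⁻¹ = - lamX φ g := by
  by_cases hg : g ∈ V
  · have h1 := lamX_mul hφ (V.inv_mem hg) hg
    rw [inv_mul_cancel, lamX_one hφ] at h1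
    exact eq_neg_of_add_eq_zero_left h1.symm
  · have hg' : g⁻¹ ∉ V := fun h => hg (by simpa using V.inv_mem h)
    unfold lamX
    rw [dif_neg hg, dif_neg hg', neg_zero]

omit [TopologicalSpace 𝔽] in
theorem lamX_unram {φ : V → ZMod q} (hu : Unram x y V φ) {a : 𝔽} (ha : a = x ∨ a = y ∨ a = x * y)
    (g : 𝔽) (n : ℕ) : lamX φ (g⁻¹ * a ^ n * g) = 0 := by
  by_cases h : g⁻¹ * a ^ n * g ∈ V
  · rw [lamX_of_mem φ h]
    exact hu a ha g n h
  · unfold lamX
    rw [dif_neg h]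

theorem lamX_zpow {φ : V → ZMod q} (hφ : IsHom φ) (hu : Unram x y V φ) (k : ℤ) :
    lamX φ (x ^ k) = 0 := by
  obtain ⟨n, rfl | rfl⟩ := k.eq_nat_or_neg
  · have h := lamX_unram hu (Or.inl rfl) 1 n
    rw [zpow_natCast]
    simpa using h
  · have h := lamX_unram hu (Or.inl rfl) 1 n
    rw [zpow_neg, zpow_natCast, lamX_inv hφ]
    rw [inv_one, one_mul, mul_one] at h
    rw [h, neg_zero]

theorem lam_chi_zpow (hV : LamV V χ x y) (g : 𝔽) (k : ℤ) : χ (g ^ k) = k * χ g := by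
  obtain ⟨n, rfl | rfl⟩ := k.eq_nat_or_neg
  · rw [zpow_natCast, pd_hom_pow hV.hom]
    push_cast
    ring
  · have h1 := hV.hom.mul (g ^ n)⁻¹ (g ^ n)
    rw [inv_mul_cancel, pd_hom_one hV.hom, pd_hom_pow hV.hom] at h1
    rw [zpow_neg, zpow_natCast, eq_neg_of_add_eq_zero_left h1.symm]
    push_cast
    ring

/-- the generators `x ^ i t x ^ (-i)`, `t = y x⁻¹` -/
def lamT (x y : 𝔽) (i : ℕ) : 𝔽 := x ^ i * (y * x⁻¹) * (x ^ i)⁻¹

theorem lamT_mem (hV : LamV V χ x y) (i : ℕ) : lamT x y i ∈ V := by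
  have h1 : χ (x ^ i)⁻¹ = - χ (x ^ i) := by
    rw [← zpow_natCast, ← zpow_neg, lam_chi_zpow hV, lam_chi_zpow hV]
    push_cast
    ring
  have h2 : χ x⁻¹ = - χ x := by
    rw [← zpow_neg_one, lam_chi_zpow hV]
    push_cast
    ring
  rw [hV.mem, lamT, hV.hom.mul, hV.hom.mul, hV.hom.mul, h1, h2, hV.hx, hV.hy]
  ring

theorem lam_pow4_mem (hV : LamV V χ x y) : x ^ 4 ∈ V := by
  rw [hV.mem, pd_hom_pow hV.hom, hV.hx]
  rfl

/-- unramified homomorphisms -/
structure LamH (x y : 𝔽) (V : Subgroup 𝔽) (φ : V → ZMod q) : Prop where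
  hom : IsHom φ
  unr : Unram x y V φ

/-- linear combinations -/
theorem LamH.lin {φ ψ : V → ZMod q} (hφ : LamH x y V φ) (hψ : LamH x y V ψ) (a b : ZMod q) :
    LamH x y V fun v => a * φ v + b * ψ v where
  hom := ⟨fun g h => by
    simp only [hφ.hom.mul, hψ.hom.mul]
    ring, (hφ.hom.lc.comp (a * ·)).add (hψ.hom.lc.comp (b * ·))⟩
  unr := fun c hc g n h => by
    simp only [hφ.unr c hc g n h, hψ.unr c hc g n h]
    ring

omit [TopologicalSpace 𝔽] in
theorem lamX_lin (φ ψ : V → ZMod q) (a b : ZMod q) (g : 𝔽) :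
    lamX (fun v => a * φ v + b * ψ v) g = a * lamX φ g + b * lamX ψ g := by
  unfold lamX
  split_ifs
  · rfl
  · ring

theorem lam_rel4 (hV : LamV V χ x y) {φ : V → ZMod q} (hφ : LamH x y V φ) (i : ℕ) :
    lamX φ (lamT x y (i + 4)) = lamX φ (lamT x y i) := by
  have h1 : lamT x y (i + 4) = x ^ 4 * lamT x y i * (x ^ 4)⁻¹ := by
    unfold lamT
    rw [add_comm i 4, pow_add]
    group
  have h4 := lam_pow4_mem hV
  rw [h1, lamX_mul hφ.hom (V.mul_mem h4 (lamT_mem hV i)) (V.inv_mem h4),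
    lamX_mul hφ.hom h4 (lamT_mem hV i), lamX_inv hφ.hom]
  ring

theorem lam_rel13 (hV : LamV V χ x y) {φ : V → ZMod q} (hφ : LamH x y V φ) (i : ℕ) :
    lamX φ (lamT x y (i + 1)) + lamX φ (lamT x y (i + 3)) = 0 := by
  have h1 : ((x ^ i)⁻¹)⁻¹ * (x * y) ^ 2 * (x ^ i)⁻¹ =
      lamT x y (i + 1) * lamT x y (i + 3) * x ^ 4 := by
    unfold lamT
    rw [pow_add, pow_add, pow_two]
    group
  have h2 := lamX_unram hφ.unr (Or.inr (Or.inr rfl)) (x ^ i)⁻¹ 2
  have h4 := lam_pow4_mem hV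
  have h5 : lamX φ (x ^ 4) = 0 := by
    rw [← zpow_natCast]
    exact lamX_zpow hφ.hom hφ.unr _
  rw [h1, lamX_mul hφ.hom (V.mul_mem (lamT_mem hV _) (lamT_mem hV _)) h4,
    lamX_mul hφ.hom (lamT_mem hV _) (lamT_mem hV _), h5, add_zero] at h2
  exact h2

theorem lam_rel2 (hV : LamV V χ x y) {φ : V → ZMod q} (hφ : LamH x y V φ) (i : ℕ) :
    lamX φ (lamT x y (i + 2)) = - lamX φ (lamT x y i) := by
  have h1 := lam_rel13 hV hφ (i + 1)
  have h2 := lam_rel4 hV hφ i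
  rw [show i + 1 + 1 = i + 2 by ring, show i + 1 + 3 = i + 4 by ring, h2] at h1
  exact eq_neg_of_add_eq_zero_left h1

theorem lam_all (hV : LamV V χ x y) {φ : V → ZMod q} (hφ : LamH x y V φ)
    (h0 : lamX φ (lamT x y 0) = 0) (h1 : lamX φ (lamT x y 1) = 0) (i : ℕ) :
    lamX φ (lamT x y i) = 0 := by
  induction i using Nat.strong_induction_on with
  | _ i ih =>
    match i with
    | 0 => exact h0
    | 1 => exact h1
    | i + 2 =>
      rw [lam_rel2 hV hφ, ih i (by omega), neg_zero]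

/-- the section of `V` with the transversal `x ^ i` -/
def lamK (hV : LamV V χ x y) (g : 𝔽) : V :=
  ⟨g * (x ^ (χ g).val)⁻¹, by
    have h1 : (x ^ (χ g).val)⁻¹ = x ^ (-((χ g).val : ℤ)) := by
      rw [zpow_neg, zpow_natCast]
    rw [hV.mem, hV.hom.mul, h1, lam_chi_zpow hV, hV.hx]
    push_cast
    rw [ZMod.natCast_zmod_val]
    ring⟩

/-- two exponents give the same value -/
theorem lam_indep (hV : LamV V χ x y) {φ : V → ZMod q} (hφ : LamH x y V φ) (g : 𝔽) (k : ℤ)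
    (hk : g * x ^ k ∈ V) : lamX φ (g * x ^ k) = φ (lamK hV g) := by
  have h1 : g * x ^ k = (lamK hV g : 𝔽) * x ^ ((χ g).val + k : ℤ) := by
    change g * x ^ k = g * (x ^ (χ g).val)⁻¹ * x ^ ((χ g).val + k : ℤ)
    rw [zpow_add, zpow_natCast]
    group
  have h2 : x ^ ((χ g).val + k : ℤ) ∈ V := by
    rw [h1] at hk
    exact (V.mul_mem_cancel_left (lamK hV g).2).1 hk
  rw [h1, lamX_mul hφ.hom (lamK hV g).2 h2, lamX_zpow hφ.hom hφ.unr, add_zero,
    lamX_of_mem φ (lamK hV g).2]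

end LamAlg

section LamTop

variable {𝔽 : Type} [Group 𝔽] [TopologicalSpace 𝔽] [IsTopologicalGroup 𝔽] {x y : 𝔽} {q : ℕ}
  {V : Subgroup 𝔽} {χ : 𝔽 → ZMod 4}

theorem lam_continuous (hV : LamV V χ x y) : Continuous (lamK hV) := by
  unfold lamK
  exact (continuous_id.mul (hV.hom.lc.comp fun c : ZMod 4 => (x ^ c.val)⁻¹).continuous).subtype_mk _

/-- an unramified homomorphism is determined by the values at `lamT 0`, `lamT 1` -/
theorem lam_zero (h : FreeProf 𝔽 x y) (hV : LamV V χ x y) {φ : V → ZMod q} (hφ : LamH x y V φ)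
    (h0 : lamX φ (lamT x y 0) = 0) (h1 : lamX φ (lamT x y 1) = 0) (v : V) : φ v = 0 := by
  have hall := lam_all hV hφ h0 h1
  let Φ : 𝔽 → ZMod q := fun g => φ (lamK hV g)
  have hΦ : IsLocallyConstant Φ := hφ.hom.lc.comp_continuous (lam_continuous hV)
  let S : Subgroup 𝔽 :=
    { carrier := {g | ∀ h, Φ (h * g) = Φ h}
      one_mem' := fun h => by rw [mul_one]
      mul_mem' := fun {g g'} hg hg' h => by rw [← mul_assoc, hg', hg]
      inv_mem' := fun {g} hg h => by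
        have := hg (h * g⁻¹)
        rw [inv_mul_cancel_right] at this
        exact this.symm }
  have hS : IsClosed (S : Set 𝔽) := by
    have h1 : (S : Set 𝔽) = ⋂ h : 𝔽, {g | Φ (h * g) = Φ h} := by
      ext g
      simp only [Set.mem_iInter]
      exact Iff.rfl
    rw [h1]
    exact isClosed_iInter fun h => FREE_closed _ _
      (hΦ.comp_continuous (continuous_const.mul continuous_id)) (IsLocallyConstant.const _)
  have hx : x ∈ S := by
    intro h
    have h2 : h * x * x ^ (-1 - (χ h).val : ℤ) = lamK hV h := by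
      change _ = h * (x ^ (χ h).val)⁻¹
      rw [sub_eq_add_neg, zpow_add, zpow_neg _ ((χ h).val : ℤ), zpow_natCast]
      group
    have h3 := lam_indep hV hφ (h * x) (-1 - (χ h).val : ℤ) (by rw [h2]; exact (lamK hV h).2)
    change φ (lamK hV (h * x)) = φ (lamK hV h)
    rw [← h3, h2, lamX_of_mem φ (lamK hV h).2]
  have hy : y ∈ S := by
    intro h
    have h2 : h * y * x ^ (-1 - (χ h).val : ℤ) = lamK hV h * lamT x y (χ h).val := by
      change _ = h * (x ^ (χ h).val)⁻¹ * (x ^ (χ h).val * (y * x⁻¹) * (x ^ (χ h).val)⁻¹)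
      rw [sub_eq_add_neg, zpow_add, zpow_neg _ ((χ h).val : ℤ), zpow_natCast]
      group
    have h3 := lam_indep hV hφ (h * y) (-1 - (χ h).val : ℤ) (by
      rw [h2]
      exact V.mul_mem (lamK hV h).2 (lamT_mem hV _))
    change φ (lamK hV (h * y)) = φ (lamK hV h)
    rw [← h3, h2, lamX_mul hφ.hom (lamK hV h).2 (lamT_mem hV _), hall, add_zero,
      lamX_of_mem φ (lamK hV h).2]
  have hT := h.dense S hS hx hy
  have h2 : (v : 𝔽) ∈ S := hT ▸ Subgroup.mem_top _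
  have h3 := h2 1
  rw [one_mul] at h3
  have h4 : lamK hV (1 : 𝔽) = 1 := by
    apply Subtype.ext
    change (1 : 𝔽) * (x ^ (χ 1).val)⁻¹ = 1
    rw [pd_hom_one hV.hom]
    simp
  have h5 : lamK hV (v : 𝔽) = v := by
    apply Subtype.ext
    change (v : 𝔽) * (x ^ (χ v).val)⁻¹ = v
    rw [(hV.mem _).1 v.2]
    simp
  change φ (lamK hV (v : 𝔽)) = φ (lamK hV 1) at h3
  rw [h4, h5, pd_hom_one hφ.hom] at h3
  exact h3


/-- the conjugate by `x` -/
theorem LamH.conj [V.Normal] {φ : V → ZMod q} (hφ : LamH x y V φ) (k : 𝔽) :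
    LamH x y V fun u => φ (mainConj V k u) :=
  ⟨mainConj_isHom V k hφ.hom, mainConj_unram V k hφ.unr⟩

omit [TopologicalSpace 𝔽] [IsTopologicalGroup 𝔽] in
theorem lamX_conj [V.Normal] (φ : V → ZMod q) (k : 𝔽) {g : 𝔽} (hg : g ∈ V) :
    lamX (fun u => φ (mainConj V k u)) g = lamX φ (k * g * k⁻¹) := by
  rw [lamX_of_mem _ hg, lamX_of_mem φ ((inferInstance : V.Normal).conj_mem _ hg k)]
  rfl

omit [IsTopologicalGroup 𝔽] in
theorem lamX_conjT [V.Normal] (hV : LamV V χ x y) (φ : V → ZMod q) (i : ℕ) :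
    lamX (fun u => φ (mainConj V x u)) (lamT x y i) = lamX φ (lamT x y (i + 1)) := by
  rw [lamX_conj φ x (lamT_mem hV i)]
  congr 1
  unfold lamT
  rw [pow_succ' x i]
  group

/-- two unramified homomorphisms with the same values -/
theorem lam_ext (h : FreeProf 𝔽 x y) (hV : LamV V χ x y) {φ ψ : V → ZMod q}
    (hφ : LamH x y V φ) (hψ : LamH x y V ψ) (h0 : lamX φ (lamT x y 0) = lamX ψ (lamT x y 0))
    (h1 : lamX φ (lamT x y 1) = lamX ψ (lamT x y 1)) (v : V) : φ v = ψ v := by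
  have h2 := lam_zero h hV (hφ.lin hψ 1 (-1))
    (by rw [lamX_lin, h0]; ring) (by rw [lamX_lin, h1]; ring) v
  simp only [one_mul, neg_mul] at h2
  exact add_neg_eq_zero.1 h2

/-- `X² = -1` -/
theorem lam_XX [V.Normal] (h : FreeProf 𝔽 x y) (hV : LamV V χ x y) {φ : V → ZMod q}
    (hφ : LamH x y V φ) (v : V) : φ (mainConj V x (mainConj V x v)) = - φ v := by
  have h1 := (hφ.conj x).conj x
  have h2 := hφ.lin hφ (-1) 0
  have h3 := lam_ext h hV h1 h2 (by
    rw [lamX_conjT hV (fun u => φ (mainConj V x u)), lamX_conjT hV φ, lamX_lin, lam_rel2 hV hφ]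
    ring) (by
    rw [lamX_conjT hV (fun u => φ (mainConj V x u)), lamX_conjT hV φ, lamX_lin, lam_rel2 hV hφ]
    ring) v
  simp only [neg_mul, one_mul, zero_mul, add_zero] at h3
  exact h3

theorem lam_Xinv [V.Normal] (h : FreeProf 𝔽 x y) (hV : LamV V χ x y) {φ : V → ZMod q}
    (hφ : LamH x y V φ) (v : V) : φ (mainConj V x⁻¹ v) = - φ (mainConj V x v) := by
  have h1 := lam_XX h hV hφ (mainConj V x⁻¹ v)
  have h2 : mainConj V x (mainConj V x (mainConj V x⁻¹ v)) = mainConj V x v := by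
    apply Subtype.ext
    change x * (x * (x⁻¹ * (v : 𝔽) * x⁻¹⁻¹) * x⁻¹) * x⁻¹ = x * (v : 𝔽) * x⁻¹
    group
  rw [h2] at h1
  rw [h1, neg_neg]

end LamTop

theorem lam_conj_zero {𝔽 : Type} [Group 𝔽] {q : ℕ} {V : Subgroup 𝔽} [V.Normal] {x : 𝔽}
    {φ : V → ZMod q} (h0 : ∀ v, φ (mainConj V x v) = 0) (v : V) : φ v = 0 := by
  have h1 := h0 (mainConj V x⁻¹ v)
  have h2 : mainConj V x (mainConj V x⁻¹ v) = v := by
    apply Subtype.ext
    change x * (x⁻¹ * (v : 𝔽) * x⁻¹⁻¹) * x⁻¹ = (v : 𝔽)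
    group
  rwa [h2] at h1

theorem lam_two_ne {q : ℕ} [Fact q.Prime] (hq : q ≠ 2) : (2 : ZMod q) ≠ 0 := by
  intro h0
  have h3 : ((2 : ℕ) : ZMod q) = 0 := by exact_mod_cast h0
  rw [ZMod.natCast_eq_zero_iff] at h3
  exact hq ((Nat.prime_dvd_prime_iff_eq (Fact.out : q.Prime) Nat.prime_two).1 h3)

theorem lam_two {q : ℕ} [Fact q.Prime] (hq : q ≠ 2) {a : ZMod q} (ha : a = -a) : a = 0 := by
  have h3 : (2 : ZMod q) * a = 0 := by linear_combination ha
  exact (mul_eq_zero.1 h3).resolve_left (lam_two_ne hq)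

section LamF

variable {𝔽 : Type} [Group 𝔽] [TopologicalSpace 𝔽] [IsTopologicalGroup 𝔽] {x y : 𝔽} {q : ℕ}
  [Fact q.Prime] {V : Subgroup 𝔽} [V.Normal] {χ : 𝔽 → ZMod 4} (h : FreeProf 𝔽 x y)
  (hV : LamV V χ x y) (F : 𝔽 ≃ₜ* 𝔽) (hVF : ∀ g, F g ∈ V ↔ g ∈ V) (hF : ∀ g, F (F g) = g)
  (hq : q ≠ 2)
  (hFx : F x * x ∈ V) (hFH : ∀ φ : V → ZMod q, LamH x y V φ →
    LamH x y V fun v => φ (resF F V hVF v))

include h hV hFx in
/-- `F X = - X F` -/
theorem lam_FX {φ : V → ZMod q} (hφ : LamH x y V φ) (v : V) :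
    φ (resF F V hVF (mainConj V x v)) = - φ (mainConj V x (resF F V hVF v)) := by
  rw [← lam_Xinv h hV hφ]
  have h1 : resF F V hVF (mainConj V x v) =
      ⟨F x * x, hFx⟩ * mainConj V x⁻¹ (resF F V hVF v) * ⟨F x * x, hFx⟩⁻¹ := by
    apply Subtype.ext
    change F (x * (v : 𝔽) * x⁻¹) = F x * x * (x⁻¹ * F (v : 𝔽) * x⁻¹⁻¹) * (F x * x)⁻¹
    rw [map_mul, map_mul, map_inv]
    group
  have h2 : ∀ u : V, φ u⁻¹ = - φ u := by
    intro u
    have h3 := hφ.hom.mul u⁻¹ u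
    rw [inv_mul_cancel, pd_hom_one hφ.hom] at h3
    exact eq_neg_of_add_eq_zero_left h3.symm
  rw [h1, hφ.hom.mul, hφ.hom.mul, h2]
  ring

include h hV hFx hF hFH in
/-- there is an invariant element -/
theorem lam_inv (φ₀ : V → ZMod q) (hφ₀ : LamH x y V φ₀) (hne : ∃ v, φ₀ v ≠ 0) :
    ∃ φ : V → ZMod q, LamH x y V φ ∧ (∃ v, φ v ≠ 0) ∧ ∀ v, φ (resF F V hVF v) = φ v := by
  have hFF : ∀ v : V, resF F V hVF (resF F V hVF v) = v := fun v => Subtype.ext (hF v)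
  by_cases h1 : ∃ v, 1 * φ₀ v + 1 * φ₀ (resF F V hVF v) ≠ 0
  · refine ⟨_, hφ₀.lin (hFH _ hφ₀) 1 1, h1, fun v => ?_⟩
    simp only [hFF]
    ring
  · push Not at h1
    refine ⟨_, hφ₀.conj x, ?_, fun v => ?_⟩
    · by_contra h2
      push Not at h2
      obtain ⟨v, hv⟩ := hne
      exact hv (lam_conj_zero h2 v)
    · have h2 := h1 (mainConj V x v)
      rw [lam_FX h hV F hVF hFx hφ₀ v] at h2
      linear_combination -h2

include h hV hFx hq in
/-- the invariant elements are multiples of each other -/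
theorem lam_prop {φ ψ : V → ZMod q} (hφ : LamH x y V φ) (hψ : LamH x y V ψ)
    (hφF : ∀ v, φ (resF F V hVF v) = φ v) (hψF : ∀ v, ψ (resF F V hVF v) = ψ v)
    (hne : ∃ v, φ v ≠ 0) : ∃ a, ∀ v, ψ v = a * φ v := by
  obtain ⟨α, hα⟩ : ∃ α, α = lamX φ (lamT x y 0) := ⟨_, rfl⟩
  obtain ⟨β, hβ⟩ : ∃ β, β = lamX φ (lamT x y 1) := ⟨_, rfl⟩
  obtain ⟨α', hα'⟩ : ∃ α, α = lamX ψ (lamT x y 0) := ⟨_, rfl⟩
  obtain ⟨β', hβ'⟩ : ∃ β, β = lamX ψ (lamT x y 1) := ⟨_, rfl⟩
  have hX0 : lamX (fun u => φ (mainConj V x u)) (lamT x y 0) = β := by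
    rw [lamX_conjT hV, hβ]
  have hX1 : lamX (fun u => φ (mainConj V x u)) (lamT x y 1) = -α := by
    rw [lamX_conjT hV, hα, lam_rel2 hV hφ]
  -- the Cramer identity
  have key : ∀ v, (α * β' - β * α') * φ (mainConj V x v) =
      (α * α' + β * β') * φ v + (-(α ^ 2 + β ^ 2)) * ψ v := by
    intro v
    have h1 := (hφ.conj x).lin (hφ.conj x) (α * β' - β * α') 0
    have h2 := hφ.lin hψ (α * α' + β * β') (-(α ^ 2 + β ^ 2))
    have h3 := lam_ext h hV h1 h2 (by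
      rw [lamX_lin, lamX_lin, hX0, ← hα, ← hα']
      ring) (by
      rw [lamX_lin, lamX_lin, hX1, ← hβ, ← hβ']
      ring) v
    simp only [zero_mul, add_zero] at h3
    exact h3
  have hW : α * β' - β * α' = 0 := by
    by_contra hW
    obtain ⟨v, hv⟩ := hne
    apply hv
    refine lam_conj_zero (x := x) (fun v => ?_) v
    have h1 := key v
    have h2 := key (resF F V hVF v)
    rw [hφF, hψF, ← h1] at h2
    have h3 := mul_left_cancel₀ hW h2
    have h4 := lam_FX h hV F hVF hFx hφ v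
    rw [hφF, h3] at h4
    exact lam_two hq h4
  have fin : ∀ a, α' = a * α → β' = a * β → ∃ a, ∀ v, ψ v = a * φ v := by
    intro a h1 h2
    refine ⟨a, fun v => ?_⟩
    have h3 := lam_ext h hV hψ (hφ.lin hφ a 0) (by
      rw [lamX_lin, ← hα, ← hα', h1]
      ring) (by
      rw [lamX_lin, ← hβ, ← hβ', h2]
      ring) v
    simp only [zero_mul, add_zero] at h3
    exact h3
  by_cases hα0 : α = 0
  · have hβ0 : β ≠ 0 := by
      intro hβ0
      obtain ⟨v, hv⟩ := hne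
      exact hv (lam_zero h hV hφ (by rw [← hα, hα0]) (by rw [← hβ, hβ0]) v)
    refine fin (β' / β) ?_ (by field_simp)
    rw [hα0, zero_mul, zero_sub, neg_eq_zero] at hW
    rw [(mul_eq_zero.1 hW).resolve_left hβ0, hα0, mul_zero]
  · refine fin (α' / α) (by field_simp) ?_
    field_simp
    linear_combination hW

end LamF


/-! ### Existence of an unramified homomorphism -/

section LamEx

/-- the rotation `(a, b) ↦ (-b, a)` -/
def lamJ (q : ℕ) : AddMonoid.End (ZMod q × ZMod q) where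
  toFun t := (-t.2, t.1)
  map_zero' := by simp
  map_add' a b := by
    ext <;> simp [add_comm]

theorem lamJ_apply (q : ℕ) (t : ZMod q × ZMod q) : lamJ q t = (-t.2, t.1) := rfl

theorem lamJ_pow4 (q : ℕ) : lamJ q ^ 4 = 1 := by
  ext t <;> simp [pow_succ, lamJ_apply]

variable {𝔽 : Type} [Group 𝔽] [TopologicalSpace 𝔽] {x y : 𝔽} {V : Subgroup 𝔽} {χ : 𝔽 → ZMod 4}

/-- the action of `𝔽` through `χ` -/
def lamρ (hV : LamV V χ x y) (q : ℕ) : 𝔽 →* AddMonoid.End (ZMod q × ZMod q) where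
  toFun g := lamJ q ^ (χ g).val
  map_one' := by
    rw [pd_hom_one hV.hom, ZMod.val_zero, pow_zero]
  map_mul' g h := by
    rw [hV.hom.mul, ZMod.val_add, ← pow_add, ← pow_eq_pow_mod _ (lamJ_pow4 q)]

theorem lamρ_apply (hV : LamV V χ x y) (q : ℕ) (g : 𝔽) : lamρ hV q g = lamJ q ^ (χ g).val := rfl

theorem lamρ_mem (hV : LamV V χ x y) (q : ℕ) {g : 𝔽} (hg : g ∈ V) : lamρ hV q g = 1 := by
  rw [lamρ_apply, (hV.mem g).1 hg, ZMod.val_zero, pow_zero]

theorem lamρ_smooth (hV : LamV V χ x y) (q : ℕ) : Smooth (lamρ hV q) := by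
  intro t
  filter_upwards [hV.hom.lc.eventually_eq (1 : 𝔽)] with g hg
  rw [lamρ_apply, hg, pd_hom_one hV.hom, ZMod.val_zero, pow_zero]
  rfl

theorem lam_der_one {T : Type} [AddCommGroup T] {ρ : 𝔽 →* AddMonoid.End T} {δ : 𝔽 → T}
    (hδ : IsDer ρ δ) : δ 1 = 0 := by
  have h2 := hδ.mul 1 1
  rw [mul_one, map_one] at h2
  change δ 1 = δ 1 + δ 1 at h2
  exact left_eq_add.1 h2

theorem lam_der_conj {q : ℕ} (hV : LamV V χ x y) {δ : 𝔽 → ZMod q × ZMod q}
    (hδ : IsDer (lamρ hV q) δ) {c : 𝔽} (hc : c ∈ V) (h0 : δ c = 0) (g : 𝔽) :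
    δ (g⁻¹ * c * g) = 0 := by
  have h1 : δ (g⁻¹ * g) = δ g⁻¹ + lamρ hV q g⁻¹ (δ g) := hδ.mul _ _
  rw [inv_mul_cancel, lam_der_one hδ] at h1
  rw [mul_assoc, hδ.mul, hδ.mul, h0, zero_add, lamρ_mem hV q hc]
  exact h1.symm

theorem lam_der_pow {q : ℕ} (hV : LamV V χ x y) {δ : 𝔽 → ZMod q × ZMod q}
    (hδ : IsDer (lamρ hV q) δ) {c : 𝔽} (h0 : δ c = 0) (k : ℕ) : δ (c ^ k) = 0 := by
  induction k with
  | zero => rw [pow_zero, lam_der_one hδ]
  | succ k ih => rw [pow_succ, hδ.mul, ih, h0, map_zero, zero_add]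

variable [IsTopologicalGroup 𝔽] [CompactSpace 𝔽] [T2Space 𝔽] [TotallyDisconnectedSpace 𝔽]

theorem lam_exists (h : FreeProf 𝔽 x y) (hV : LamV V χ x y) (q : ℕ) [Fact q.Prime] :
    ∃ φ : V → ZMod q, LamH x y V φ ∧ ∃ v, φ v ≠ 0 := by
  obtain ⟨δ, hδ, hδx, hδy⟩ := exists_der h (p := q) (T := ZMod q × ZMod q) (fun t => by
      ext <;> simp) (lamρ hV q) (lamρ_smooth hV q) 0 (1, 0)
  have hx1 : ∀ t, lamρ hV q x t = (-t.2, t.1) := by
    intro t
    have e : (1 : ZMod 4).val = 1 := rfl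
    rw [lamρ_apply, hV.hx, e, pow_one]
    rfl
  have hy1 : ∀ t, lamρ hV q y t = (-t.2, t.1) := by
    intro t
    have e : (1 : ZMod 4).val = 1 := rfl
    rw [lamρ_apply, hV.hy, e, pow_one]
    rfl
  have hy4 : δ (y ^ 4) = 0 := by
    have e : y ^ 4 = y * (y * (y * y)) := by
      simp only [pow_succ, pow_zero, one_mul, mul_assoc]
    rw [e, hδ.mul, hδ.mul, hδ.mul, hδy, hy1, hy1, hy1]
    ext <;> simp
  have hxy2 : δ ((x * y) ^ 2) = 0 := by
    have e : (x * y) ^ 2 = x * (y * (x * y)) := by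
      simp only [pow_succ, pow_zero, one_mul, mul_assoc]
    rw [e, hδ.mul, hδ.mul, hδ.mul, hδy, hδx, hx1, hx1, hy1]
    ext <;> simp
  have hcusp : ∀ a, (a = x ∨ a = y ∨ a = x * y) → ∀ n : ℕ, a ^ n ∈ V → δ (a ^ n) = 0 := by
    intro a ha n hn
    rw [hV.mem, pd_hom_pow hV.hom] at hn
    rcases ha with rfl | rfl | rfl
    · exact lam_der_pow hV hδ hδx n
    · rw [hV.hy, mul_one, ZMod.natCast_eq_zero_iff] at hn
      obtain ⟨k, rfl⟩ := hn
      rw [pow_mul]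
      exact lam_der_pow hV hδ hy4 k
    · rw [hV.hom.mul, hV.hx, hV.hy] at hn
      have h2 : ((n * 2 : ℕ) : ZMod 4) = 0 := by
        rw [← hn]
        push_cast
        ring
      rw [ZMod.natCast_eq_zero_iff] at h2
      obtain ⟨k, rfl⟩ : 2 ∣ n := by omega
      rw [pow_mul]
      exact lam_der_pow hV hδ hxy2 k
  refine ⟨fun v => (δ v).1, ⟨⟨fun g k => ?_, ?_⟩, fun a ha g n hg => ?_⟩, ?_⟩
  · rw [Subgroup.coe_mul, hδ.mul, lamρ_mem hV q g.2]
    rfl
  · exact (hδ.lc.comp_continuous continuous_subtype_val).comp Prod.fst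
  · have h1 : a ^ n ∈ V := by
      rw [hV.mem, hV.hom.mul, hV.hom.mul] at hg
      rw [hV.mem]
      have h2 : χ (g⁻¹ * g) = χ g⁻¹ + χ g := hV.hom.mul _ _
      rw [inv_mul_cancel, pd_hom_one hV.hom] at h2
      linear_combination hg + h2
    change (δ (g⁻¹ * a ^ n * g)).1 = 0
    rw [lam_der_conj hV hδ h1 (hcusp a ha n h1)]
    rfl
  · refine ⟨⟨lamT x y 0, lamT_mem hV 0⟩, ?_⟩
    have h1 : lamT x y 0 = y * x⁻¹ := by
      unfold lamT
      group
    have h2 : δ x⁻¹ = 0 := by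
      have h3 := hδ.mul x⁻¹ x
      rw [inv_mul_cancel, lam_der_one hδ, hδx, map_zero, add_zero] at h3
      exact h3.symm
    change (δ (lamT x y 0)).1 ≠ 0
    rw [h1, hδ.mul, h2, map_zero, add_zero, hδy]
    exact one_ne_zero

end LamEx

/-! ### The contradiction -/

section LamAbs

variable {𝔽 : Type} [Group 𝔽] [TopologicalSpace 𝔽] [IsTopologicalGroup 𝔽] [CompactSpace 𝔽]
  [T2Space 𝔽] [TotallyDisconnectedSpace 𝔽] {x y : 𝔽}

/-- `F (g⁻¹ a ^ n g)` is an `l`-th power -/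
theorem lam_F_cusp (F : 𝔽 ≃ₜ* 𝔽) (l : Zhat) (a f : 𝔽) (ha : F a = f⁻¹ * hpow a l * f) (g : 𝔽)
    (n : ℕ) : F (g⁻¹ * a ^ n * g) = hpow ((f * F g)⁻¹ * a ^ n * (f * F g)) l := by
  have h1 : ∀ b : 𝔽, hpow (b ^ n) l = (hpow b l) ^ n := by
    intro b
    rw [← hpow_natCast b n, ← hpow_mul, mul_comm, hpow_mul, hpow_natCast]
  have h2 := conj_hpow (f * F g)⁻¹ (a ^ n) l
  rw [inv_inv] at h2
  rw [← h2, h1, map_mul, map_mul, map_inv, map_pow, ha]
  have h3 : (f⁻¹ * hpow a l * f) ^ n = f⁻¹ * (hpow a l) ^ n * f := by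
    have := conj_pow (i := n) (a := f⁻¹) (b := hpow a l)
    rwa [inv_inv] at this
  rw [h3]
  group


/-- no odd prime `q` with `l ≡ 1` modulo `q`, `l ≡ 3` modulo `4` -/
theorem lam_abstract (h : FreeProf 𝔽 x y) (F : 𝔽 ≃ₜ* 𝔽) (hF : ∀ g, F (F g) = g) (l : Zhat)
    (b c : 𝔽) (hx : F x = hpow x l) (hy : F y = b⁻¹ * hpow y l * b)
    (hc : F (x * y) = c⁻¹ * hpow (x * y) l * c) (h4 : Zhat.mod 4 l = 3) (q : ℕ) [Fact q.Prime]
    (hq : q ≠ 2) (hlq : Zhat.mod q l = 1) : False := by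
  classical
  obtain ⟨κ, hκ, hκx, hκy⟩ := h.lift (Multiplicative (ZMod 4)) (Multiplicative.ofAdd 1)
    (Multiplicative.ofAdd 1)
  obtain ⟨χ, hχ⟩ : ∃ χ : 𝔽 → ZMod 4, χ = fun g => Multiplicative.toAdd (κ g) := ⟨_, rfl⟩
  obtain ⟨V, hVdef⟩ : ∃ V : Subgroup 𝔽, V = κ.ker := ⟨_, rfl⟩
  have hVn : V.Normal := hVdef ▸ κ.normal_ker
  have hV : LamV V χ x y :=
    { hom := ⟨fun g k => by
        rw [hχ]
        change Multiplicative.toAdd (κ (g * k)) = _
        rw [map_mul]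
        rfl, by
        rw [hχ]
        exact hκ.comp Multiplicative.toAdd⟩
      mem := fun g => by
        rw [hVdef, MonoidHom.mem_ker, hχ]
        exact Iff.rfl
      hx := by
        rw [hχ]
        change Multiplicative.toAdd (κ x) = 1
        rw [hκx]
        rfl
      hy := by
        rw [hχ]
        change Multiplicative.toAdd (κ y) = 1
        rw [hκy]
        rfl }
  have hVo : IsOpen (V : Set 𝔽) := by
    have h1 : (V : Set 𝔽) = χ ⁻¹' {0} := by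
      ext g
      exact hV.mem g
    rw [h1]
    exact hV.hom.lc _
  have hinv : ∀ g, χ g⁻¹ = - χ g := by
    intro g
    rw [← zpow_neg_one, lam_chi_zpow hV]
    push_cast
    ring
  -- `F` acts on `𝔽 / V` by `-1`
  have hχF : ∀ g, χ (F g) = - χ g := by
    let S : Subgroup 𝔽 :=
      { carrier := {g | χ (F g) = - χ g}
        one_mem' := by
          change χ (F 1) = - χ 1
          rw [map_one, pd_hom_one hV.hom, neg_zero]
        mul_mem' := fun {g k} hg hk => by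
          change χ (F (g * k)) = - χ (g * k)
          change χ (F g) = - χ g at hg
          change χ (F k) = - χ k at hk
          rw [map_mul, hV.hom.mul, hV.hom.mul, hg, hk, neg_add]
        inv_mem' := fun {g} hg => by
          change χ (F g⁻¹) = - χ g⁻¹
          change χ (F g) = - χ g at hg
          rw [map_inv, hinv, hinv, hg] }
    have hS : IsClosed (S : Set 𝔽) := FREE_closed _ _
      (hV.hom.lc.comp_continuous F.continuous) (hV.hom.lc.comp (- ·))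
    have h3 : (3 : ZMod 4) = -1 := rfl
    have hxS : x ∈ S := by
      change χ (F x) = - χ x
      rw [hx, isHom_hpow χ hV.hom, h4, hV.hx, h3, mul_one]
    have hyS : y ∈ S := by
      change χ (F y) = - χ y
      rw [hy, hV.hom.mul, hV.hom.mul, hinv, isHom_hpow χ hV.hom, h4, hV.hy, h3]
      ring
    have hT := h.dense S hS hxS hyS
    intro g
    have : g ∈ S := hT ▸ Subgroup.mem_top _
    exact this
  have hVF : ∀ g, F g ∈ V ↔ g ∈ V := fun g => by
    rw [hV.mem, hV.mem, hχF, neg_eq_zero]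
  have hFx : F x * x ∈ V := by
    rw [hV.mem, hV.hom.mul, hχF]
    ring
  have : CompactSpace V := isCompact_iff_compactSpace.1 (V.isClosed_of_isOpen hVo).isCompact
  have : Finite (𝔽 ⧸ V) := V.quotient_finite_of_isOpen hVo
  have : V.FiniteIndex := Subgroup.finiteIndex_of_finite_quotient
  have hcase : ∀ a, (a = x ∨ a = y ∨ a = x * y) → ∃ f, F a = f⁻¹ * hpow a l * f := by
    rintro a (rfl | rfl | rfl)
    · exact ⟨1, by rw [hx, inv_one, one_mul, mul_one]⟩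
    · exact ⟨b, hy⟩
    · exact ⟨c, hc⟩
  -- the images of the elements of the cusps
  have hcv : ∀ a f, F a = f⁻¹ * hpow a l * f → ∀ (g : 𝔽) (n : ℕ) (hg : g⁻¹ * a ^ n * g ∈ V),
      ∃ h' : (f * F g)⁻¹ * a ^ n * (f * F g) ∈ V,
        resF F V hVF ⟨_, hg⟩ = hpow (⟨_, h'⟩ : V) l := by
    intro a f ha g n hg
    have h1 : a ^ n ∈ V := by
      have h2 := hVn.conj_mem _ hg g
      have h3 : g * (g⁻¹ * a ^ n * g) * g⁻¹ = a ^ n := by group
      rwa [h3] at h2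
    have h2 : (f * F g)⁻¹ * a ^ n * (f * F g) ∈ V := by
      have h3 := hVn.conj_mem _ h1 (f * F g)⁻¹
      rwa [inv_inv] at h3
    refine ⟨h2, Subtype.ext ?_⟩
    have h3 := map_hpow V.subtype continuous_subtype_val (⟨_, h2⟩ : V) l
    change F (g⁻¹ * a ^ n * g) = V.subtype (hpow (⟨_, h2⟩ : V) l)
    rw [h3, lam_F_cusp F l a f ha]
    rfl
  have hFH : ∀ φ : V → ZMod q, LamH x y V φ → LamH x y V fun v => φ (resF F V hVF v) := by
    intro φ hφ
    refine ⟨⟨fun g k => ?_, hφ.hom.lc.comp_continuous (resF F V hVF).continuous⟩,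
      fun a ha g n hg => ?_⟩
    · simp only [map_mul, hφ.hom.mul]
    · obtain ⟨f, hf⟩ := hcase a ha
      obtain ⟨h', he⟩ := hcv a f hf g n hg
      change φ (resF F V hVF ⟨_, hg⟩) = 0
      rw [he, isHom_hpow φ hφ.hom, hφ.unr a ha _ n h', mul_zero]
  -- the invariant homomorphism and its dual
  obtain ⟨φ₀, hφ₀, hne₀⟩ := lam_exists h hV q
  obtain ⟨φ, hφ, hne, hφF⟩ := lam_inv h hV F hVF hF hFx hFH φ₀ hφ₀ hne₀
  obtain ⟨ψ, d, hψ, hdl, hd, hψu, hd1, hd2, hd3⟩ := duality h V hVo φ hφ.hom hφ.unr hne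
  have hFF : ∀ v : V, resF F V hVF (resF F V hVF v) = v := fun v => Subtype.ext (hF v)
  have hψH : LamH x y V ψ := ⟨hψ, hψu⟩
  obtain ⟨a, ha⟩ := lam_prop h hV F hVF hq hFx hφ (hψH.lin (hFH _ hψH) 1 1) hφF (fun v => by
    simp only [hFF]
    ring) hne
  have h2 := lam_two_ne (q := q) hq
  let D : V → ZMod q := fun v => d v + d (resF F V hVF v) - a / 2 * φ v ^ 2
  have hD : ∀ g k, D (g * k) = D g + D k := by
    intro g k
    change d (g * k) + d (resF F V hVF (g * k)) - a / 2 * φ (g * k) ^ 2 =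
      (d g + d (resF F V hVF g) - a / 2 * φ g ^ 2) + (d k + d (resF F V hVF k) - a / 2 * φ k ^ 2)
    rw [map_mul, hd, hd, hφ.hom.mul, hφF]
    have h5 : ψ k + ψ (resF F V hVF k) = a * φ k := by
      have := ha k
      rwa [one_mul, one_mul] at this
    field_simp
    linear_combination (2 * φ g) * h5
  -- `d` at powers
  let S : Subgroup V :=
    { carrier := {v | φ v = 0}
      one_mem' := pd_hom_one hφ.hom
      mul_mem' := fun {g k} hg hk => by
        change φ (g * k) = 0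
        change φ g = 0 at hg
        change φ k = 0 at hk
        rw [hφ.hom.mul, hg, hk, add_zero]
      inv_mem' := fun {g} hg => by
        change φ g⁻¹ = 0
        change φ g = 0 at hg
        have h3 := hφ.hom.mul g⁻¹ g
        rw [inv_mul_cancel, pd_hom_one hφ.hom, hg, add_zero] at h3
        exact h3.symm }
  have hS : IsClosed (S : Set V) := FREE_closed _ _ hφ.hom.lc (IsLocallyConstant.const 0)
  have hdp : ∀ v : V, φ v = 0 → d (hpow v l) = d v := by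
    intro v hv
    rw [isHom_hpow' d hdl S hS (fun g hg k _ => by
      rw [hd, show φ g = 0 from hg, zero_mul, add_zero]) v hv l, hlq, one_mul]
  -- `D` at the cusps
  have hDc : ∀ a f, (a = x ∨ a = y ∨ a = x * y) → F a = f⁻¹ * hpow a l * f → ∀ (g : 𝔽) (n : ℕ)
      (hg : g⁻¹ * a ^ n * g ∈ V), ∃ h' : (f * F g)⁻¹ * a ^ n * (f * F g) ∈ V,
        D ⟨_, hg⟩ = d ⟨_, hg⟩ + d ⟨_, h'⟩ := by
    intro a f ha hf g n hg
    obtain ⟨h', he⟩ := hcv a f hf g n hg
    refine ⟨h', ?_⟩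
    change d ⟨_, hg⟩ + d (resF F V hVF ⟨_, hg⟩) - _ / 2 * φ ⟨_, hg⟩ ^ 2 = _
    rw [he, hφ.unr a ha g n hg, hdp _ (hφ.unr a ha _ n h')]
    ring
  -- the transfer
  let δ : V →* Multiplicative (ZMod q) :=
    MonoidHom.mk' (fun v => Multiplicative.ofAdd (D v)) (fun g h => by rw [hD]; rfl)
  let _ : ∀ a, Fintype (cuspO V a) := fun a => Fintype.ofFinite _
  have hzero : ∀ a, (a = y ∨ a = x * y) →
      Multiplicative.toAdd (MonoidHom.transfer δ a) = 0 := by
    intro a ha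
    obtain ⟨f, hf⟩ := hcase a (Or.inr ha)
    rw [cusp_transfer]
    refine Finset.sum_eq_zero fun ω _ => ?_
    obtain ⟨g, rfl⟩ := cuspMk_surj V a ω
    rw [cuspβ_mk]
    change D ⟨_, cusp_mem V a g⟩ = 0
    obtain ⟨h', he⟩ := hDc a f (Or.inr ha) hf g _ (cusp_mem V a g)
    rw [he, hd1 a ha g _ _, hd1 a ha _ _ h', add_zero]
  have hgx : ∀ g : 𝔽, x ^ (-((χ g).val : ℤ)) * g ∈ V := by
    intro g
    rw [hV.mem, hV.hom.mul, lam_chi_zpow hV, hV.hx]
    push_cast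
    rw [ZMod.natCast_zmod_val]
    ring
  have hone : ∀ (g : 𝔽) (hg : g⁻¹ * x ^ orderOf (QuotientGroup.mk x : 𝔽 ⧸ V) * g ∈ V),
      d ⟨_, hg⟩ = 1 := by
    intro g hg
    have hxe : x ^ orderOf (QuotientGroup.mk x : 𝔽 ⧸ V) ∈ V := by
      rw [← QuotientGroup.eq_one_iff, QuotientGroup.mk_pow, pow_orderOf_eq_one]
    obtain ⟨v, hv⟩ : ∃ v : V, v = ⟨_, hgx g⟩ := ⟨_, rfl⟩
    obtain ⟨w, hw⟩ : ∃ w : V, w = ⟨_, hg⟩ := ⟨_, rfl⟩
    obtain ⟨c, hc⟩ : ∃ c : V, c = ⟨_, hxe⟩ := ⟨_, rfl⟩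
    have h3 : v * w = c * v := by
      apply Subtype.ext
      rw [hv, hw, hc]
      change x ^ (-((χ g).val : ℤ)) * g * (g⁻¹ * x ^ orderOf (QuotientGroup.mk x : 𝔽 ⧸ V) * g) =
        x ^ orderOf (QuotientGroup.mk x : 𝔽 ⧸ V) * (x ^ (-((χ g).val : ℤ)) * g)
      have h5 : x ^ (-((χ g).val : ℤ)) * x ^ orderOf (QuotientGroup.mk x : 𝔽 ⧸ V) =
          x ^ orderOf (QuotientGroup.mk x : 𝔽 ⧸ V) * x ^ (-((χ g).val : ℤ)) := by
        rw [← zpow_natCast, ← zpow_add, ← zpow_add, add_comm]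
      calc x ^ (-((χ g).val : ℤ)) * g * (g⁻¹ * x ^ orderOf (QuotientGroup.mk x : 𝔽 ⧸ V) * g)
          = x ^ (-((χ g).val : ℤ)) * x ^ orderOf (QuotientGroup.mk x : 𝔽 ⧸ V) * g := by group
        _ = x ^ orderOf (QuotientGroup.mk x : 𝔽 ⧸ V) * x ^ (-((χ g).val : ℤ)) * g := by rw [h5]
        _ = _ := mul_assoc _ _ _
    have h5 : φ c = 0 := by
      have h6 := hφ.unr x (Or.inl rfl) 1 (orderOf (QuotientGroup.mk x : 𝔽 ⧸ V)) (by simpa using hxe)
      rw [hc]
      simpa using h6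
    have h6 : ψ w = 0 := by
      rw [hw]
      exact hψu x (Or.inl rfl) g _ hg
    have h7 := congrArg d h3
    rw [hd, hd, h5, h6, mul_zero, zero_mul, add_zero, add_zero, add_comm] at h7
    have h8 := add_right_cancel h7
    rw [← hw, h8, hc]
    exact hd3 hxe
  have hX : Multiplicative.toAdd (MonoidHom.transfer δ x) = 2 := by
    obtain ⟨f, hf⟩ := hcase x (Or.inl rfl)
    rw [cusp_transfer, Finset.sum_eq_single (cuspMk V x 1)]
    · rw [cuspβ_mk]
      change D ⟨_, cusp_mem V x 1⟩ = 2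
      obtain ⟨h', he⟩ := hDc x f (Or.inl rfl) hf 1 _ (cusp_mem V x 1)
      rw [he, hone 1 (cusp_mem V x 1), hone _ h']
      norm_num
    · intro ω _ hω
      exfalso
      apply hω
      obtain ⟨g, rfl⟩ := cuspMk_surj V x ω
      rw [cuspMk_eq]
      refine ⟨((χ g).val : ℤ), ?_⟩
      have := hgx g
      rwa [zpow_neg, ← mul_one (x ^ ((χ g).val : ℤ))] at this
    · intro hn
      exact absurd (Finset.mem_univ _) hn
  have hmul := congrArg Multiplicative.toAdd (map_mul (MonoidHom.transfer δ) x y)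
  rw [toAdd_mul, hX, hzero _ (Or.inl rfl), hzero _ (Or.inr rfl), add_zero] at hmul
  exact h2 hmul.symm

end LamAbs


section LamFinal

theorem lam_mod2 (m : Zhat) (h : Zhat.mod 4 (2 * m + 1) = 3) : Zhat.mod 2 m ≠ 0 := by
  intro h0
  have h1 := m.2 2 4 (by decide)
  have h3 : (2 : ZMod 4) * (Zhat.mod 4 m) + 1 = 3 := by
    rw [← h, map_add, map_mul, map_one, map_ofNat]
  have key : ∀ a : ZMod 4, (2 : ZMod 4) * a + 1 = 3 → ZMod.castHom (show 2 ∣ 4 by decide) (ZMod 2)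
      a ≠ 0 := by decide
  exact key _ h3 (h1.trans h0)

variable {l m : Zhat} {f : F2hat} (hm : l = 2 * m + 1)
  (h1 : f * ev gy gx f = 1)
  (h2 : ev gz gx f * hpow gz m * ev gy gz f * hpow gy m * f * hpow gx m = 1)

include hm h1 h2

/-- LAM: the involutions have `l = -1` -/
theorem lambda_neg_one (hσ : gtMul (l, f) (l, f) = (1, 1)) (h4 : Zhat.mod 4 l = 3) : l = -1 := by
  have hll : l * l = 1 := congrArg Prod.fst hσ
  have hff : f * gtF l f f = 1 := congrArg Prod.snd hσ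
  -- `F² = 1`
  have hFx : gtF l f gx = hpow gx l := ev_gx _ _
  have hFy : gtF l f gy = f⁻¹ * hpow gy l * f := ev_gy _ _
  have hFF : ∀ w, gtF l f (gtF l f w) = w := by
    have h3 : (gtF l f).comp (gtF l f) = ContinuousMonoidHom.id F2hat := by
      apply ev_ext
      · change gtF l f (gtF l f gx) = gx
        have h5 := map_hpow (gtF l f : F2hat →* F2hat) (gtF l f).continuous gx l
        have h6 : gtF l f (hpow gx l) = hpow (gtF l f gx) l := h5
        rw [hFx, h6, hFx, ← hpow_mul, hll, hpow_one]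
      · change gtF l f (gtF l f gy) = gy
        have h5 := map_hpow (gtF l f : F2hat →* F2hat) (gtF l f).continuous gy l
        have h6 : gtF l f (hpow gy l) = hpow (gtF l f gy) l := h5
        have h7 := conj_hpow f⁻¹ (hpow gy l) l
        rw [inv_inv] at h7
        rw [hFy, map_mul, map_mul, map_inv, h6, hFy, ← h7, ← hpow_mul, hll, hpow_one]
        have h8 : gtF l f f = f⁻¹ := eq_inv_of_mul_eq_one_right hff
        rw [h8]
        group
    intro w
    exact congrArg (fun k : F2hat →ₜ* F2hat => k w) h3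
  let F : F2hat ≃ₜ* F2hat := mkAut (gtF l f) 2 (by norm_num) hFF
  have hFv : ∀ w, F w = gtF l f w := fun _ => rfl
  obtain ⟨c, hc⟩ : ∃ c, c = hpow gz (-m) * ev gx gz f * hpow gx (-m) := ⟨_, rfl⟩
  have hFz : gtF l f gz = c⁻¹ * hpow gz l * c := by
    rw [hc]
    exact gtF_gz hm h1 h2
  have hzi : hpow gz⁻¹ l = (hpow gz l)⁻¹ := by
    have h3 : (gz : F2hat)⁻¹ = hpow gz (-1) := by rw [hpow_neg, hpow_one]
    rw [h3, ← hpow_mul, neg_one_mul, hpow_neg]
  have hxy : F (gx * gy) = c⁻¹ * hpow (gx * gy) l * c := by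
    have h3 : gx * gy = gz⁻¹ := by rw [gz, inv_inv]
    rw [hFv, h3, map_inv, hFz, hzi]
    group
  -- arithmetic
  have hmm : m * (m + 1) = 0 := by
    apply zhat_torsion_free 4 (by norm_num)
    have h3 : (4 : Zhat) * (m * (m + 1)) = l * l - 1 := by
      rw [hm]
      ring
    rw [hll, sub_self] at h3
    exact_mod_cast h3
  have he : (-m) * (-m) = -m := by linear_combination hmm
  have hone := zhat_idem_one (-m) he (by
    intro p hp h0
    rw [map_neg, neg_eq_zero] at h0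
    by_cases hp2 : p = 2
    · subst hp2
      refine lam_mod2 m ?_ h0
      rw [← hm]
      exact h4
    · refine lam_abstract freeProf_F2hat F (fun w => hFF w) l f c hFx hFy hxy h4 p hp2 ?_
      rw [hm, map_add, map_mul, h0, mul_zero, zero_add, map_one])
  have hm1 : m = -1 := by rw [← hone, neg_neg]
  rw [hm, hm1]
  ring

end LamFinal

end Pool.Agent.GTT
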