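import Pool.Agent.Lib.MP_2cc432_al.FI
import Pool.Agent.Lib.MP_2cc432_al.FreeN
import Pool.Agent.Lib.MP_2cc432_al.HPow
import Pool.Agent.Lib.MP_2cc432_al.Inv
import Pool.Agent.Lib.MP_2cc432_al.Rank
import Pool.Agent.Lib.MP_2cc432_al.FixG

/-!
# TGT2, module ROOT: the involutions `F`, `R` of `F2hat` have no fixed points; roots
-/

open CategoryTheory

namespace Pool.Agent.GTT

section ROOT

variable {f : F2hat}

/-! ### Trees and derivations for `F2hat` -/

theorem root_tree : Nonempty (Tree F2hat 2) := by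
  obtain ⟨tr⟩ := tree_open (p := 2) freeProf_F2hat ⊤ isOpen_univ
  exact Tree.of_top tr

theorem root_tree' (V : Subgroup F2hat) (hV : IsOpen (V : Set F2hat)) : Nonempty (Tree V 2) :=
  tree_open (p := 2) freeProf_F2hat V hV

theorem root_derLift : DerLift F2hat 2 := derLiftN_self freeProf_F2hat.toN (by norm_num)

theorem root_cusp_none : cusp ![gx, gy] none = gz := by
  simp [cusp, gz]

theorem root_gtI_gx : gtI f gx = gx⁻¹ := ev_gx _ _

theorem root_gtI_gy : gtI f gy = f⁻¹ * gy⁻¹ * f := ev_gy _ _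

/-- `F(f(x,z)) = x⁻¹ f(x,z)⁻¹ x` -/
theorem root_gtI_fz (hf : IsInv f) : gtI f (ev gx gz f) = gx⁻¹ * (ev gx gz f)⁻¹ * gx := by
  have h := ev_gtI (f := f) (gtI f) gx⁻¹ gx gz (by rw [root_gtI_gx]; group)
    (by rw [gtI_gz hf]; group) f
  rw [gtI_self hf, map_inv, inv_inv] at h
  exact h

theorem root_gtR_fz (hf : IsInv f) : gtR f (ev gx gz f) = f⁻¹ := by
  change gtT (gtI f (ev gx gz f)) = f⁻¹
  rw [root_gtI_fz hf, map_mul, map_mul, map_inv, map_inv]
  have h1 : gtT gx = gx := ev_gx _ _
  have h2 : gtT (ev gx gz f) = gx * f * gx⁻¹ := gtT_sq f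
  rw [h1, h2]
  group

theorem root_gtR_f (hf : IsInv f) : gtR f f = (ev gx gz f)⁻¹ := by
  change gtT (gtI f f) = _
  rw [gtI_self hf, map_inv]
  rfl

theorem root_gtR_gz (hf : IsInv f) : gtR f gz = f⁻¹ * gy⁻¹ * f := by
  have h1 : gtR f (gtR f gy) = gy := gtR_invol hf gy
  rw [gtR_gy hf, map_mul, map_mul, map_inv, map_inv, root_gtR_fz hf] at h1
  have h2 : (gtR f gz)⁻¹ = f⁻¹ * gy * f := by
    rw [← h1]
    group
  rw [← inv_inv (gtR f gz), h2]
  group

/-- the structure of the involution `F` -/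
noncomputable def rootSI (hf : IsInv f) :
    RealStr ![gx, gy] (mkInv (gtI f) (gtI_invol hf)) where
  π := id
  f := fun i => match i with
    | none => ev gx gz f * gx
    | some 0 => 1
    | some 1 => f
  hF := gtI_invol hf
  cusp_F := by
    rintro (_ | i)
    · rw [id, root_cusp_none]
      exact gtI_gz hf
    · fin_cases i
      · change gtI f gx = (1 : F2hat)⁻¹ * gx⁻¹ * 1
        rw [root_gtI_gx]
        group
      · exact root_gtI_gy
  inv := by
    rintro (_ | i)
    · change (ev gx gz f * gx) * gtI f (ev gx gz f * gx) = 1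
      rw [map_mul, root_gtI_fz hf, root_gtI_gx]
      group
    · fin_cases i
      · change (1 : F2hat) * gtI f 1 = 1
        simp
      · exact hf.inv
  ππ := fun _ => rfl

/-- the structure of the involution `R` -/
noncomputable def rootSR (hf : IsInv f) :
    RealStr ![gx, gy] (mkInv (gtR f) (gtR_invol hf)) where
  π := fun i => match i with
    | none => some 1
    | some 0 => some 0
    | some 1 => none
  f := fun i => match i with
    | none => f
    | some 0 => 1
    | some 1 => ev gx gz f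
  hF := gtR_invol hf
  cusp_F := by
    rintro (_ | i)
    · rw [root_cusp_none]
      exact root_gtR_gz hf
    · fin_cases i
      · change gtR f gx = (1 : F2hat)⁻¹ * gx⁻¹ * 1
        rw [gtR_gx hf]
        group
      · change gtR f gy = (ev gx gz f)⁻¹ * (cusp ![gx, gy] none)⁻¹ * ev gx gz f
        rw [root_cusp_none]
        exact gtR_gy hf
  inv := by
    rintro (_ | i)
    · change ev gx gz f * gtR f f = 1
      rw [root_gtR_f hf, mul_inv_cancel]
    · fin_cases i
      · change (1 : F2hat) * gtR f 1 = 1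
        simp
      · change f * gtR f (ev gx gz f) = 1
        rw [root_gtR_fz hf, mul_inv_cancel]
  ππ := by
    rintro (_ | i)
    · rfl
    · fin_cases i <;> rfl

theorem gtI_fixed (hf : IsInv f) (u : F2hat) (hu : gtI f u = u) : u = 1 := by
  obtain ⟨tr⟩ := root_tree
  exact fixed_trivial (rootSI hf) freeProf_F2hat.toN tr root_tree' (some 0) rfl rfl u hu

theorem gtR_fixed (hf : IsInv f) (u : F2hat) (hu : gtR f u = u) : u = 1 := by
  obtain ⟨tr⟩ := root_tree
  exact fixed_trivial (rootSR hf) freeProf_F2hat.toN tr root_tree' (some 0) rfl rfl u hu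

/-! ### Homomorphisms to `ℤ / N` -/

theorem root_hom_one {N : ℕ} {D : F2hat → ZMod N} (hD : IsHom D) : D 1 = 0 := by
  have h := hD.mul 1 1
  rw [mul_one] at h
  exact left_eq_add.1 h

theorem root_hom_inv {N : ℕ} {D : F2hat → ZMod N} (hD : IsHom D) (w : F2hat) :
    D w⁻¹ = - D w := by
  have h := hD.mul w w⁻¹
  rw [mul_inv_cancel, root_hom_one hD] at h
  exact (neg_eq_of_add_eq_zero_right h.symm).symm

/-- the equalizer of two homomorphisms -/
def rootEq {N : ℕ} {D D' : F2hat → ZMod N} (hD : IsHom D) (hD' : IsHom D') : Subgroup F2hat where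
  carrier := {w | D w = D' w}
  mul_mem' := by
    intro a b ha hb
    change D (a * b) = D' (a * b)
    rw [hD.mul, hD'.mul, ha, hb]
  one_mem' := by
    change D 1 = D' 1
    rw [root_hom_one hD, root_hom_one hD']
  inv_mem' := by
    intro a ha
    change D a⁻¹ = D' a⁻¹
    rw [root_hom_inv hD, root_hom_inv hD', ha]

theorem rootEq_closed {N : ℕ} {D D' : F2hat → ZMod N} (hD : IsHom D) (hD' : IsHom D') :
    IsClosed (rootEq hD hD' : Set F2hat) := by
  let _ : TopologicalSpace (ZMod N) := ⊥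
  have _ : DiscreteTopology (ZMod N) := ⟨rfl⟩
  exact isClosed_eq hD.lc.continuous hD'.lc.continuous

theorem root_hom_ext {N : ℕ} {D D' : F2hat → ZMod N} (hD : IsHom D) (hD' : IsHom D')
    (hx : D gx = D' gx) (hy : D gy = D' gy) (w : F2hat) : D w = D' w := by
  have h := dense_F2hat (rootEq hD hD') (rootEq_closed hD hD') hx hy
  have hw : w ∈ rootEq hD hD' := h ▸ Subgroup.mem_top w
  exact hw

theorem root_hom_zero {N : ℕ} : IsHom (fun _ : F2hat => (0 : ZMod N)) :=
  ⟨fun _ _ => (add_zero 0).symm, IsLocallyConstant.const 0⟩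

/-- a homomorphism vanishes on the closure of the commutator subgroup -/
theorem root_hom_comm {N : ℕ} {D : F2hat → ZMod N} (hD : IsHom D) {w : F2hat}
    (hw : w ∈ (commutator F2hat).topologicalClosure) : D w = 0 := by
  have h1 : commutator F2hat ≤ rootEq hD root_hom_zero := by
    rw [commutator_def, Subgroup.commutator_le]
    intro a _ b _
    change D (a * b * a⁻¹ * b⁻¹) = 0
    rw [hD.mul, hD.mul, hD.mul, root_hom_inv hD, root_hom_inv hD]
    ring
  exact Subgroup.topologicalClosure_minimal _ h1 (rootEq_closed hD root_hom_zero) hw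

theorem root_hom_neg {N : ℕ} {D : F2hat → ZMod N} (hD : IsHom D) : IsHom (fun w => - D w) :=
  ⟨fun a b => by rw [hD.mul]; ring, hD.lc.neg⟩

theorem root_hom_add {N : ℕ} {D D' : F2hat → ZMod N} (hD : IsHom D) (hD' : IsHom D') :
    IsHom (fun w => D w + D' w) :=
  ⟨fun a b => by rw [hD.mul, hD'.mul]; ring, hD.lc.add hD'.lc⟩

theorem root_hom_comp {N : ℕ} {D : F2hat → ZMod N} (hD : IsHom D) (k : F2hat →ₜ* F2hat) :
    IsHom (fun w => D (k w)) :=
  ⟨fun a b => by rw [map_mul, hD.mul], hD.lc.comp_continuous k.continuous⟩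

theorem root_hom_exists (N : ℕ) [NeZero N] (a b : ZMod N) :
    ∃ D : F2hat → ZMod N, IsHom D ∧ D gx = a ∧ D gy = b := by
  obtain ⟨φ, h1, h2, h3⟩ := freeProf_F2hat.lift (Multiplicative (ZMod N))
    (Multiplicative.ofAdd a) (Multiplicative.ofAdd b)
  refine ⟨fun w => (φ w).toAdd, ⟨fun g h => ?_, h1.comp _⟩, ?_, ?_⟩
  · rw [map_mul, toAdd_mul]
  · change (φ gx).toAdd = a
    rw [h2, toAdd_ofAdd]
  · change (φ gy).toAdd = b
    rw [h3, toAdd_ofAdd]

/-- homomorphisms and exponents -/
theorem root_hom_exps {w : F2hat} {α β : Zhat} (hw : ∀ (K : ProfiniteGrp.{0}) (a b : K),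
    Commute a b → ev a b w = hpow a α * hpow b β) {N : ℕ} [NeZero N] {D : F2hat → ZMod N}
    (hD : IsHom D) : D w = Zhat.mod N α * D gx + Zhat.mod N β * D gy := by
  let _ : TopologicalSpace (Multiplicative (ZMod N)) := ⊥
  have _ : DiscreteTopology (Multiplicative (ZMod N)) := ⟨rfl⟩
  let K : ProfiniteGrp.{0} := ProfiniteGrp.of (Multiplicative (ZMod N))
  let φ : F2hat →ₜ* K :=
    { toFun := fun w => Multiplicative.ofAdd (D w)
      map_one' := by
        rw [root_hom_one hD]
        rfl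
      map_mul' := fun a b => by
        rw [hD.mul]
        rfl
      continuous_toFun := (hD.lc.comp Multiplicative.ofAdd).continuous }
  have h1 : φ = ev (G := K) (Multiplicative.ofAdd (D gx)) (Multiplicative.ofAdd (D gy)) :=
    ev_ext _ _ (ev_gx _ _).symm (ev_gy _ _).symm
  have h2 : φ w = hpow (G := K) (Multiplicative.ofAdd (D gx)) α *
      hpow (G := K) (Multiplicative.ofAdd (D gy)) β := by
    rw [h1]
    exact hw K _ _ (mul_comm (G := Multiplicative (ZMod N)) _ _)
  let δ : K → ZMod N := fun k => Multiplicative.toAdd (α := ZMod N) k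
  have hδ : IsHom δ := ⟨fun a b => rfl, IsLocallyConstant.of_discrete _⟩
  have h3 := isHom_hpow δ hδ (Multiplicative.ofAdd (D gx)) α
  have h4 := isHom_hpow δ hδ (Multiplicative.ofAdd (D gy)) β
  have h5 : D w = δ (φ w) := rfl
  rw [h5, h2, hδ.mul, h3, h4]
  rfl

theorem root_zhat_ext {α β : Zhat} (h : ∀ (N : ℕ) [NeZero N], Zhat.mod N α = Zhat.mod N β) :
    α = β := by
  apply Subtype.ext
  funext n
  have : NeZero (n : ℕ) := ⟨n.pos.ne'⟩
  exact h n

theorem root_zhat_two {α : Zhat} (h : ∀ (N : ℕ) [NeZero N], 2 * Zhat.mod (2 * N) α = 0) :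
    α = 0 := by
  apply root_zhat_ext
  intro N _
  rw [map_zero]
  have h1 := h N
  have hd : N ∣ 2 * N := Dvd.intro_left 2 rfl
  have h2 : ZMod.castHom hd (ZMod N) (Zhat.mod (2 * N) α) = Zhat.mod N α :=
    α.2 ⟨N, Nat.pos_of_ne_zero (NeZero.ne N)⟩ ⟨2 * N, Nat.pos_of_ne_zero (NeZero.ne (2 * N))⟩ hd
  rw [← h2]
  set a := Zhat.mod (2 * N) α with ha
  have h3 : ((2 * a.val : ℕ) : ZMod (2 * N)) = 0 := by
    rw [Nat.cast_mul, ZMod.natCast_zmod_val]
    exact_mod_cast h1
  have h4 : 2 * N ∣ 2 * a.val := (ZMod.natCast_eq_zero_iff _ _).1 h3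
  have h5 : N ∣ a.val := Nat.dvd_of_mul_dvd_mul_left (by norm_num) h4
  rw [← ZMod.natCast_zmod_val a, map_natCast]
  exact (ZMod.natCast_eq_zero_iff _ _).2 h5

/-- an element with exponents zero lies in the closure of the commutator subgroup -/
theorem root_mem_comm {w : F2hat}
    (hw : ∀ (K : ProfiniteGrp.{0}) (a b : K), Commute a b → ev a b w = 1) :
    w ∈ (commutator F2hat).topologicalClosure := by
  by_contra hn
  have hcl : IsClosed ((commutator F2hat).topologicalClosure : Set F2hat) :=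
    Subgroup.isClosed_topologicalClosure _
  -- an open normal subgroup `U` with `w U` disjoint from the closure
  have hopen : IsOpen {u : F2hat | w * u ∈ ((commutator F2hat).topologicalClosure : Set F2hat)ᶜ} :=
    hcl.isOpen_compl.preimage (continuous_const.mul continuous_id)
  obtain ⟨U, hU⟩ := ProfiniteGrp.exist_openNormalSubgroup_sub_open_nhds_of_one (G := F2hat)
    hopen (by
      change w * 1 ∉ ((commutator F2hat).topologicalClosure : Set F2hat)
      rw [mul_one]
      exact hn)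
  have hfin : Finite (F2hat ⧸ U.toSubgroup) :=
    Subgroup.quotient_finite_of_isOpen U.toSubgroup U.isOpen'
  let A := Abelianization (F2hat ⧸ U.toSubgroup)
  have hfinA : Finite A := 
    Finite.of_surjective _ (QuotientGroup.mk'_surjective (commutator (F2hat ⧸ U.toSubgroup)))
  let _ : TopologicalSpace A := ⊥
  have _ : DiscreteTopology A := ⟨rfl⟩
  let K : ProfiniteGrp.{0} := ProfiniteGrp.of A
  let ψ : F2hat →* A := Abelianization.of.comp (QuotientGroup.mk' U.toSubgroup)
  have hlc : IsLocallyConstant ψ := by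
    rw [IsLocallyConstant.iff_exists_open]
    intro a
    refine ⟨{b | a⁻¹ * b ∈ U.toSubgroup},
      U.isOpen'.preimage (continuous_const.mul continuous_id), ?_, fun b hb => ?_⟩
    · change a⁻¹ * a ∈ U.toSubgroup
      rw [inv_mul_cancel]
      exact one_mem _
    · change Abelianization.of (QuotientGroup.mk b : F2hat ⧸ U.toSubgroup) =
        Abelianization.of (QuotientGroup.mk a : F2hat ⧸ U.toSubgroup)
      rw [QuotientGroup.eq.2 hb]
  let φ : F2hat →ₜ* K :=
    { toMonoidHom := ψ
      continuous_toFun := hlc.continuous }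
  have h1 : φ = ev (G := K) (ψ gx) (ψ gy) := ev_ext _ _ (ev_gx _ _).symm (ev_gy _ _).symm
  have h2 : ψ w = 1 := by
    have h3 : ψ w = φ w := rfl
    rw [h3, h1]
    exact hw K _ _ (mul_comm (G := A) _ _)
  have h4 : (QuotientGroup.mk w : F2hat ⧸ U.toSubgroup) ∈ commutator (F2hat ⧸ U.toSubgroup) := by
    rw [← Abelianization.ker_of]
    exact h2
  have h5 : commutator (F2hat ⧸ U.toSubgroup) =
      (commutator F2hat).map (QuotientGroup.mk' U.toSubgroup) := by
    rw [commutator_def, commutator_def, Subgroup.map_commutator,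
      Subgroup.map_top_of_surjective _ (QuotientGroup.mk'_surjective _)]
  rw [h5] at h4
  obtain ⟨c, hc, hcw⟩ := h4
  have h6 : w⁻¹ * c ∈ U.toSubgroup := QuotientGroup.eq.1 hcw.symm
  have h7 := hU h6
  apply h7
  rw [mul_inv_cancel_left]
  exact Subgroup.le_topologicalClosure _ hc

/-! ### The root -/

theorem root_gtI_hom {N : ℕ} {D : F2hat → ZMod N} (hD : IsHom D) (w : F2hat) :
    D (gtI f w) = - D w := by
  refine root_hom_ext (root_hom_comp hD (gtI f)) (root_hom_neg hD) ?_ ?_ w
  · rw [root_gtI_gx, root_hom_inv hD]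
  · rw [root_gtI_gy, hD.mul, hD.mul, root_hom_inv hD, root_hom_inv hD]
    ring

theorem root_theta (hf : IsInv f) (w : F2hat) :
    ev gy gx (gtI f w) = f * gtI f (ev gy gx w) * f⁻¹ := by
  have h5 : ev gy gx f = f⁻¹ := (inv_eq_of_mul_eq_one_right hf.I).symm
  let c : F2hat →ₜ* F2hat :=
    { toFun := fun w => f * w * f⁻¹
      map_one' := by rw [mul_one, mul_inv_cancel]
      map_mul' := fun a b => by group
      continuous_toFun := (continuous_const.mul continuous_id).mul continuous_const }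
  have h : (ev gy gx).comp (gtI f) = c.comp ((gtI f).comp (ev gy gx)) := by
    apply ev_ext
    · change ev gy gx (gtI f gx) = f * gtI f (ev gy gx gx) * f⁻¹
      rw [root_gtI_gx, ev_gx, root_gtI_gy, map_inv, ev_gx]
      group
    · change ev gy gx (gtI f gy) = f * gtI f (ev gy gx gy) * f⁻¹
      rw [root_gtI_gy, ev_gy, root_gtI_gx, map_mul, map_mul, map_inv, map_inv, ev_gy, h5,
        inv_inv]
  exact congrArg (fun k : F2hat →ₜ* F2hat => k w) h

theorem exists_root (hf : IsInv f) : ∃ g : F2hat,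
    g ∈ (commutator F2hat).topologicalClosure ∧ f = g * (gtI f g)⁻¹ ∧ g * ev gy gx g = 1 := by
  obtain ⟨tr⟩ := root_tree
  have hF : ∀ g, (mkInv (gtI f) (gtI_invol hf))^[2] g = g := gtI_invol hf
  let v : (tSpace (mkInv (gtI f) (gtI_invol hf)) 2 hF).Z := tOne hF
  let w : (tSpace (mkInv (gtI f) (gtI_invol hf)) 2 hF).Z := ⟨f, by
    change f * gtI f (f * gtI f 1) = 1
    rw [map_one, mul_one]
    exact hf.inv⟩
  obtain ⟨g, hg⟩ := conj_of_hom root_derLift tr hF v w (fun D hD _ => by
    change D 1 = D f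
    rw [root_hom_one hD, root_hom_comm hD hf.comm])
  have hg1 : g * (gtI f g)⁻¹ = f := by
    have h := congrArg Subtype.val hg
    change g * 1 * (gtI f g)⁻¹ = f at h
    rwa [mul_one] at h
  obtain ⟨α, β, -, hab⟩ := exists_exps g
  have h2 : ∀ {N : ℕ} {D : F2hat → ZMod N} (_ : IsHom D), 2 * D g = 0 := by
    intro N D hD
    have h := congrArg D hg1
    rw [hD.mul, root_hom_inv hD, root_gtI_hom hD, root_hom_comm hD hf.comm, neg_neg] at h
    rw [two_mul]
    exact h
  have hα : α = 0 := by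
    apply root_zhat_two
    intro N _
    obtain ⟨D, hD, hx, hy⟩ := root_hom_exists (2 * N) 1 0
    have h := h2 hD
    rwa [root_hom_exps hab hD, hx, hy, mul_one, mul_zero, add_zero] at h
  have hβ : β = 0 := by
    apply root_zhat_two
    intro N _
    obtain ⟨D, hD, hx, hy⟩ := root_hom_exists (2 * N) 0 1
    have h := h2 hD
    rwa [root_hom_exps hab hD, hx, hy, mul_one, mul_zero, zero_add] at h
  refine ⟨g, root_mem_comm fun K a b hc => ?_, hg1.symm, ?_⟩
  · rw [hab K a b hc, hα, hβ, hpow_zero, hpow_zero, mul_one]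
  · have h3 : g * (gtI f g)⁻¹ = (ev gy gx g)⁻¹ * gtI f (ev gy gx g) := by
      have h4 := congrArg (ev gy gx) hg1
      rw [map_mul, map_inv, root_theta hf] at h4
      have h5 : ev gy gx f = f⁻¹ := (inv_eq_of_mul_eq_one_right hf.I).symm
      rw [h5] at h4
      have h6 : f = (ev gy gx g)⁻¹ * gtI f (ev gy gx g) := by
        have h7 : f * (gtI f (ev gy gx g))⁻¹ = (ev gy gx g)⁻¹ := by
          apply mul_left_cancel (a := ev gy gx g)
          apply mul_right_cancel (b := f⁻¹)
          calc ev gy gx g * (f * (gtI f (ev gy gx g))⁻¹) * f⁻¹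
              = ev gy gx g * (f * gtI f (ev gy gx g) * f⁻¹)⁻¹ := by group
            _ = f⁻¹ := h4
            _ = ev gy gx g * (ev gy gx g)⁻¹ * f⁻¹ := by group
        rw [← h7]
        group
      rw [hg1]
      exact h6
    have h8 : gtI f (g⁻¹ * (ev gy gx g)⁻¹) = g⁻¹ * (ev gy gx g)⁻¹ := by
      rw [map_mul, map_inv, map_inv]
      apply mul_left_cancel (a := g)
      rw [← mul_assoc, h3]
      group
    have h9 := gtI_fixed hf _ h8
    have h10 : ev gy gx g * g = 1 := by
      rw [← inv_inj, mul_inv_rev, inv_one]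
      exact h9
    exact (mul_eq_one_comm).1 h10

theorem exists_root2 (hf : IsInv f) : ∃ (h₁ : F2hat) (m : Zhat), gtR f h₁ = h₁ * gx ∧
    ∀ (K : ProfiniteGrp.{0}) (a b : K), Commute a b →
      ev a b h₁ = hpow a m * hpow b (2 * m + 1) := by
  obtain ⟨tr⟩ := root_tree
  have hF : ∀ g, (mkInv (gtR f) (gtR_invol hf))^[2] g = g := gtR_invol hf
  let v : (tSpace (mkInv (gtR f) (gtR_invol hf)) 2 hF).Z := tOne hF
  let w : (tSpace (mkInv (gtR f) (gtR_invol hf)) 2 hF).Z := ⟨gx, by
    change gx * gtR f (gx * gtR f 1) = 1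
    rw [map_one, mul_one, gtR_gx hf, mul_inv_cancel]⟩
  have hDz : ∀ {N : ℕ} {D : F2hat → ZMod N} (_ : IsHom D), D (gtR f gy) = D gx + D gy := by
    intro N D hD
    rw [gtR_gy hf, hD.mul, hD.mul, root_hom_inv hD, root_hom_inv hD, gz, root_hom_inv hD, hD.mul]
    ring
  obtain ⟨c, hc⟩ := conj_of_hom root_derLift tr hF v w (fun D hD hDF => by
    change D 1 = D gx
    have h1 : D (gtR f gy) = D gy := hDF gy
    rw [hDz hD] at h1
    rw [root_hom_one hD]
    exact (add_eq_right.1 h1).symm)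
  have hc1 : c * (gtR f c)⁻¹ = gx := by
    have h := congrArg Subtype.val hc
    change c * 1 * (gtR f c)⁻¹ = gx at h
    rwa [mul_one] at h
  have hh : gtR f c⁻¹ = c⁻¹ * gx := by
    rw [map_inv, ← hc1]
    group
  obtain ⟨α, β, -, hab⟩ := exists_exps c⁻¹
  have hβ : β = 2 * α + 1 := by
    apply root_zhat_ext
    intro N _
    obtain ⟨D, hD, hx, hy⟩ := root_hom_exists N 1 0
    obtain ⟨D', hD', hx', hy'⟩ := root_hom_exists N 0 1
    have h1 : D (gtR f c⁻¹) = - D c⁻¹ + D' c⁻¹ := by
      refine root_hom_ext (root_hom_comp hD (gtR f))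
        (root_hom_add (root_hom_neg hD) hD') ?_ ?_ c⁻¹
      · rw [gtR_gx hf, root_hom_inv hD, hx', add_zero]
      · rw [hDz hD, hx, hy, hy']
        ring
    rw [hh, hD.mul, hx, root_hom_exps hab hD, root_hom_exps hab hD', hx, hy, hx', hy'] at h1
    rw [map_add, map_mul, map_one, map_ofNat]
    linear_combination -h1
  exact ⟨c⁻¹, α, hh, fun K a b hcm => by rw [hab K a b hcm, hβ]⟩

end ROOT

end Pool.Agent.GTT
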