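import Pool.Agent.Lib.MP_2cc432_al.GT2
import Pool.Agent.Lib.MP_2cc432_al.Lam
import Pool.Agent.Lib.MP_2cc432_al.Root
import Pool.Agent.Lib.MP_2cc432_al.Aut
import Pool.Agent.Lib.MP_2cc432_al.K5Fix
import Pool.Agent.Lib.MP_2cc432_al.K5III
import Pool.Agent.Lib.MP_2cc432_al.K5II
import Pool.Agent.Lib.MP_2cc432_al.HPow
import Pool.Agent.Lib.MP_2cc432_al.ZArith

/-!
# Elements of finite order of the profinite Grothendieck–Teichmüller group
-/

open CategoryTheory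

namespace Pool.Agent.GTT

/-- the endomorphism for `l = -1` -/
theorem final_gtF_neg_one (f : F2hat) : gtF (-1) f = gtI f := by
  unfold gtF gtI
  rw [hpow_neg, hpow_one, hpow_neg, hpow_one]

/-- `l = -1` forces `m = -1` -/
theorem final_half {m : Zhat} (h : (-1 : Zhat) = 2 * m + 1) : m = -1 := by
  have h1 : ((2 : ℕ) : Zhat) * (m + 1) = 0 := by
    push_cast
    linear_combination -h
  have h2 := zhat_torsion_free 2 (by norm_num) (m + 1) h1
  linear_combination h2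

/-- an involution `(-1, f)` -/
theorem final_isInv {f : F2hat} (hσ : IsGT (-1, f)) (h : gtMul (-1, f) (-1, f) = (1, 1)) :
    IsInv f := by
  obtain ⟨m, hm, h2⟩ := hσ.II
  have hm1 := final_half hm
  subst hm1
  have h3 : f * gtF (-1) f f = 1 := (Prod.ext_iff.1 h).2
  rw [final_gtF_neg_one] at h3
  refine ⟨hσ.comm, hσ.I, ?_, hσ.III, h3⟩
  have h4 : ev gz gx f * hpow gz (-1) * ev gy gz f * hpow gy (-1) * f * hpow gx (-1) = 1 := h2
  rw [hpow_neg, hpow_one, hpow_neg, hpow_one, hpow_neg, hpow_one] at h4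
  exact h4

/-- an involution `(-1, f)` is conjugate to `(-1, 1)` -/
theorem final_conj {f : F2hat} (hf : IsInv f) :
    ∃ τ, IsGT τ ∧ gtMul (-1, f) τ = gtMul τ (-1, 1) := by
  obtain ⟨g, hgc, hg, hgI⟩ := exists_root hf
  obtain ⟨h₁, m, hh, hm⟩ := exists_root2 hf
  have hIII := k5_pentagon hf g hg (kF5_fixed hf)
  have hII := k5_hexagon hf g hgc hg hgI h₁ m hh hm (kR_fixed hf)
  have hm2 : -(2 * m + 1) = 2 * (-m - 1) + 1 := by ring
  obtain ⟨hu, hbij⟩ := aut_unit hm2 g hgI hII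
  refine ⟨(-(2 * m + 1), g), ⟨hu, hgc, hgI, ⟨-m - 1, hm2, hII⟩, hIII, hbij⟩, ?_⟩
  have h1 : f * gtI f g = g := (congrArg (fun t => t * gtI f g) hg).trans
    (inv_mul_cancel_right g (gtI f g))
  unfold gtMul
  refine Prod.ext ?_ ?_
  · show (-1 : Zhat) * -(2 * m + 1) = -(2 * m + 1) * -1
    ring
  · show f * gtF (-1) f g = g * gtF (-(2 * m + 1)) g 1
    rw [final_gtF_neg_one, map_one, mul_one]
    exact h1

/-! ## FINAL (Torsion.lean) -/

theorem gt_torsion (σ : Zhat × F2hat) (hσ : IsGT σ) (n : ℕ) (hn : 0 < n)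
    (h : gtPower σ n = (1, 1)) :
    σ = (1, 1) ∨ ∃ τ, IsGT τ ∧ gtMul σ τ = gtMul τ (-1, 1) := by
  obtain ⟨l, f⟩ := σ
  obtain ⟨m, hm, h2⟩ := hσ.II
  rcases gt_order hm hσ.I h2 hσ.unit n hn h with ⟨e1, e2⟩ | ⟨e1, e2⟩
  · exact Or.inl (Prod.ext e1 e2)
  · right
    have hl : l = -1 := lambda_neg_one hm hσ.I h2 e1 e2
    subst hl
    exact final_conj (final_isInv hσ e1)

end Pool.Agent.GTT
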