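import Pool.Agent.Lib.MP_2cc432_al.GTF
import Pool.Agent.Lib.MP_2cc432_al.HPow
import Pool.Agent.Lib.MP_2cc432_al.ZArith

/-!
# The multiplier of the root is a unit (module UNIT)
-/

set_option autoImplicit false

open CategoryTheory Filter Topology

namespace Pool.Agent.GTT

/-- two homomorphisms to a finite group which agree on `x`, `y` are equal -/
theorem unit_eq {Γ : Type} [Group Γ] (φ ψ : F2hat →* Γ) (hφ : IsLocallyConstant φ)
    (hψ : IsLocallyConstant ψ) (hx : φ gx = ψ gx) (hy : φ gy = ψ gy) (w : F2hat) :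
    φ w = ψ w := by
  letI : TopologicalSpace Γ := ⊥
  haveI : DiscreteTopology Γ := ⟨rfl⟩
  have h : MonoidHom.eqLocus φ ψ = ⊤ :=
    dense_F2hat _ (isClosed_eq hφ.continuous hψ.continuous) hx hy
  have hw : w ∈ MonoidHom.eqLocus φ ψ := h ▸ Subgroup.mem_top w
  exact hw

/-- homomorphisms to abelian groups are trivial on the closure of the commutator subgroup -/
theorem unit_comm {A : Type} [CommGroup A] (χ : F2hat →* A) (hχ : IsLocallyConstant χ)
    {w : F2hat} (hw : w ∈ (commutator F2hat).topologicalClosure) : χ w = 1 := by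
  have h1 : (commutator F2hat).topologicalClosure ≤ χ.ker := by
    apply Subgroup.topologicalClosure_minimal
    · rw [commutator_def, Subgroup.commutator_le]
      intro a _ b _
      rw [MonoidHom.mem_ker, map_commutatorElement, commutatorElement_eq_one_iff_mul_comm]
      exact mul_comm _ _
    · exact hχ.isClosed_fiber 1
  exact h1 hw

theorem unit_gtR_gx (f : F2hat) : gtR f gx = gx⁻¹ := by
  change gtT (gtI f gx) = _
  rw [gtI, ev_gx, gtT, map_inv, ev_gx]

theorem unit_gtR_gy (f : F2hat) : gtR f gy = (ev gx gz f)⁻¹ * (gx * gy) * ev gx gz f := by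
  change gtT (gtI f gy) = _
  rw [gtI, ev_gy, gtT, map_mul, map_mul, map_inv, map_inv, ev_gy, gz, inv_inv]

section Wreath

variable {q : ℕ}

/-- the wreath product of the group of order 2 with the cyclic group of order `q` -/
abbrev UnitW (q : ℕ) : Type := RegularWreathProduct (Multiplicative (ZMod 2)) (Multiplicative (ZMod q))

theorem unit_base_comm (a b : UnitW q) (ha : a.right = 1) (hb : b.right = 1) : a * b = b * a := by
  ext x
  · simp [ha, hb, mul_comm]
  · simp [ha, hb]

theorem unit_two (a : Multiplicative (ZMod 2)) : a * a = 1 := by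
  revert a
  decide

theorem unit_base_sq (a : UnitW q) (ha : a.right = 1) : a * a = 1 := by
  ext x
  · simp [ha, unit_two]
  · simp [ha]


theorem unit_prime {f : F2hat} (hf : IsInv f) (h₁ : F2hat) (l : Zhat)
    [Fact q.Prime] (hh : gtR f h₁ = h₁ * gx)
    (hm : ∀ (K : ProfiniteGrp.{0}) (b : K), ev 1 b h₁ = hpow b l) : Zhat.mod q l ≠ 0 := by
  intro hq
  have hq0 : NeZero q := ⟨(Fact.out : q.Prime).ne_zero⟩
  let k : Multiplicative (ZMod q) → Multiplicative (ZMod 2) :=
    fun i => if i = 1 then Multiplicative.ofAdd 1 else 1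
  let κ₀ : UnitW q := ⟨k, 1⟩
  let Y : UnitW q := ⟨1, Multiplicative.ofAdd 1⟩
  let e : UnitW q := κ₀ * Y * κ₀⁻¹ * Y⁻¹
  have hW : Finite (UnitW q) := inferInstance
  obtain ⟨Θ, hΘ, hΘx, hΘy⟩ := freeProf_F2hat.lift (UnitW q) e Y
  have her : e.right = 1 := by simp [e, κ₀, Y]
  -- the image of `f(x, z)` lies in the base
  have hη : (Θ (ev gx gz f)).right = 1 := by
    have h1 := unit_comm
      ((RegularWreathProduct.rightHom.comp Θ).comp ((ev gx gz : F2hat →ₜ* F2hat) : F2hat →* F2hat))
      (show IsLocallyConstant (fun w => (Θ (ev gx gz w)).right) from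
        (hΘ.comp RegularWreathProduct.right).comp_continuous (ev gx gz).continuous) hf.comm
    exact h1
  -- the image of `h₁` lies in the base
  have hh1 : (Θ h₁).right = 1 := by
    letI : TopologicalSpace (Multiplicative (ZMod q)) := ⊥
    haveI : DiscreteTopology (Multiplicative (ZMod q)) := ⟨rfl⟩
    let K : ProfiniteGrp.{0} := ProfiniteGrp.of (Multiplicative (ZMod q))
    let b : K := Multiplicative.ofAdd (1 : ZMod q)
    have h1 := unit_eq (RegularWreathProduct.rightHom.comp Θ)
      ((ev (1 : K) b : F2hat →ₜ* K) : F2hat →* K)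
      (show IsLocallyConstant (fun w => (Θ w).right) from hΘ.comp RegularWreathProduct.right)
      ((IsLocallyConstant.iff_continuous _).2 (ev (1 : K) b).continuous)
      (by
        change (Θ gx).right = ev (1 : K) b gx
        rw [hΘx, her, ev_gx])
      (by
        change (Θ gy).right = ev (1 : K) b gy
        rw [hΘy, ev_gy]
        rfl) h₁
    have h2 : (Θ h₁).right = ev (1 : K) b h₁ := h1
    have h3 : IsHom (P := K) (p := q) (fun g => Multiplicative.toAdd (α := ZMod q) g) :=
      ⟨fun g h => rfl, (IsLocallyConstant.iff_continuous _).2 continuous_of_discreteTopology⟩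
    have h4 := isHom_hpow (N := q) _ h3 b l
    rw [hq, zero_mul] at h4
    rw [h2, hm K b]
    exact Multiplicative.toAdd.injective h4
  -- `Θ ∘ R` is conjugate to `Θ`
  let κ : UnitW q := (Θ (ev gx gz f))⁻¹ * κ₀
  have hκ : κ.right = 1 := by simp [κ, κ₀, hη]
  have hΘR : ∀ w, Θ (gtR f w) = κ * Θ w * κ⁻¹ := by
    intro w
    refine unit_eq (Θ.comp ((gtR f : F2hat →ₜ* F2hat) : F2hat →* F2hat))
      ((MulAut.conj κ).toMonoidHom.comp Θ) (hΘ.comp_continuous (gtR f).continuous)
      (show IsLocallyConstant (fun w => κ * Θ w * κ⁻¹) from hΘ.comp (fun g => κ * g * κ⁻¹))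
      ?_ ?_ w
    · change Θ (gtR f gx) = κ * Θ gx * κ⁻¹
      rw [unit_gtR_gx, map_inv, hΘx, unit_base_comm κ e hκ her, mul_inv_cancel_right]
      exact inv_eq_of_mul_eq_one_right (unit_base_sq e her)
    · change Θ (gtR f gy) = κ * Θ gy * κ⁻¹
      rw [unit_gtR_gy, map_mul, map_mul, map_inv, map_mul, hΘx, hΘy]
      change (Θ (ev gx gz f))⁻¹ * (κ₀ * Y * κ₀⁻¹ * Y⁻¹ * Y) * Θ (ev gx gz f) =
        (Θ (ev gx gz f))⁻¹ * κ₀ * Y * ((Θ (ev gx gz f))⁻¹ * κ₀)⁻¹
      group
  have h5 := hΘR h₁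
  rw [hh, map_mul, hΘx, unit_base_comm κ (Θ h₁) hκ hh1, mul_inv_cancel_right] at h5
  have h6 : e = 1 := mul_eq_left.1 h5
  have h7 : κ₀ * Y = Y * κ₀ := by
    have h8 : κ₀ * Y * κ₀⁻¹ * Y⁻¹ = 1 := h6
    calc κ₀ * Y = (κ₀ * Y * κ₀⁻¹ * Y⁻¹) * (Y * κ₀) := by group
      _ = Y * κ₀ := by rw [h8, one_mul]
  have h9 := congrFun (congrArg RegularWreathProduct.left h7) 1
  have h10 : (Multiplicative.ofAdd (1 : ZMod q))⁻¹ ≠ 1 := by
    intro h
    rw [inv_eq_one] at h
    have : (1 : ZMod q) = 0 := congrArg Multiplicative.toAdd h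
    exact one_ne_zero this
  simp only [RegularWreathProduct.mul_left, κ₀, Y, Pi.mul_apply, k, Pi.one_apply, one_mul,
    mul_one, h10, if_true, if_false] at h9
  revert h9
  decide

end Wreath

/-- UNIT -/
theorem root2_unit {f : F2hat} (hf : IsInv f) (h₁ : F2hat) (m : Zhat)
    (hh : gtR f h₁ = h₁ * gx)
    (hm : ∀ (K : ProfiniteGrp.{0}) (a b : K), Commute a b →
      ev a b h₁ = hpow a m * hpow b (2 * m + 1)) : IsUnit (2 * m + 1) := by
  rw [zhat_isUnit_iff]
  intro q hq
  refine unit_prime hf h₁ (2 * m + 1) hh fun K b => ?_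
  rw [hm K 1 b (Commute.one_left b), one_hpow, one_mul]

end Pool.Agent.GTT
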